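import Pool.Agent.H885.OrbT

/-!
# Relations on the orbits of the torus and the symmetries, the constants are products
-/

set_option autoImplicit false
set_option linter.unusedSectionVars false
set_option linter.unusedVariables false

open Matrix Module Filter

namespace Pool.Agent.H885.OW

open Pool.Agent.Helper880_R3 hiding core final
open Pool.Agent.Helper880_LF.NB hiding alg_core
open Pool.Agent.Y118.UL (mk mk_eq mk_eq_zero mk_ne_zero mk_surj ev_ge eval_mk rep qc qc_mk U)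

variable {n N L s a u : ℕ}

/-- the data for several tuples -/
structure DatA (L n N s a u : ℕ) where
  bs : Fin s → ℂ
  C₁ : Fin L → Fin N → Matrix (Fin n) (Fin n) ℂ
  C₂ : Fin L → Fin N → Matrix (Fin n) (Fin n) ℂ
  z : Fin L → Fin N → Matrix (Fin n) (Fin n) ℂ
  𝔤 : Fin L → Submodule ℂ (Fin N → Matrix (Fin n) (Fin n) ℂ)
  η : Fin L → Fin u → ℂ
  θ : Fin L → Fin a → ℂ
  v : Fin L → Fin a → Fin N → ℕ
  ℱ : Fin L → Set (MvPolynomial (Fin N × Fin n × Fin n) ℂ)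

/-- the constants -/
noncomputable def DatA.C (d : DatA L n N s a u) (l : Fin L) (j : Fin N) : Matrix (Fin n) (Fin n) ℂ := d.C₁ l j * d.C₂ l j

/-- the period matrices -/
noncomputable def DatA.P (d : DatA L n N s a u) (l : Fin L) (j : Fin N) : Matrix (Fin n) (Fin n) ℂ := d.C l j * d.z l j

/-- the conditions -/
structure DatA.OK (e : ℕ) (d : DatA L n N s a u) : Prop where
  few₁ : ∀ l j a b, AlgD e d.bs (d.C₁ l j a b)
  few₂ : ∀ l j a b, AlgD e d.bs (d.C₂ l j a b)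
  det : 0 < a → ∀ l j, IsUnit (d.P l j).det
  rat : ∀ l, d.𝔤 l ≤ Submodule.span ℂ (algP e d.bs (d.𝔤 l))
  eta : ∀ l i, AlgD e d.bs (d.η l i)
  ind : ∀ l, AlgebraicIndependent (IntermediateField.adjoin ℚ (Set.range (d.η l))) (d.θ l)
  known : ∀ l, KnownRel (d.η l) (d.θ l) (d.v l) (d.ℱ l) (d.P l)
  tan : ∀ l, 0 < a → ∀ Y : Fin N → Matrix (Fin n) (Fin n) ℂ,
    (∀ F ∈ d.ℱ l, MvPolynomial.eval (fun σ => d.P l σ.1 σ.2.1 σ.2.2) (DVT Y F) = 0) →
    (fun j => (d.C l j)⁻¹ * Y j * d.C l j) ∈ d.𝔤 l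

/-- the derivations which move the values at the tuple `l` by given symmetries -/
def Realize (d : ℕ → DatA L n N s a u) (l : Fin L) : Prop :=
  ∀ F : ℕ → Fin N → Matrix (Fin n) (Fin n) ℂ, (∀ k, F k ∈ (d k).𝔤 l) →
      ∃ δ : Derivation (U ℚ) (U ℂ) (U ℂ), (∀ i, δ (mk ℂ fun k => (d k).bs i) = 0) ∧
        ∀ σ : Fin N × Fin n × Fin n, δ (mk ℂ fun k => (d k).z l σ.1 σ.2.1 σ.2.2) = mk ℂ fun k => (F k σ.1 * (d k).z l σ.1) σ.2.1 σ.2.2

theorem C_unit {e : ℕ} {d : DatA L n N s a u} (hd : d.OK e) (ha : 0 < a) (l : Fin L) (j : Fin N) : IsUnit (d.C l j).det := by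
  have h1 := hd.det ha l j
  unfold DatA.P at h1
  rw [Matrix.det_mul] at h1
  exact isUnit_of_mul_isUnit_left h1

/-- one step in the direction of the torus -/
theorem tor_step {e δ : ℕ} (d : ℕ → DatA L n N s a u) (hd : ∀ k, (d k).OK e) {l : Fin L} (hreal : Realize d l)
    (i : ℕ → Fin a) (Q : ℕ → MvPolynomial (Fin N × Fin n × Fin n) ℂ) (hQd : ∀ k, (Q k).totalDegree ≤ δ)
    (h2 : Q ∈ PS (KK fun i => mk ℂ fun k => (d k).η l i) (Fin N × Fin n × Fin n))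
    (h3 : (mk ℂ fun k => MvPolynomial.eval (fun σ => (d k).P l σ.1 σ.2.1 σ.2.2) (Q k)) = 0) :
    (mk ℂ fun k => MvPolynomial.eval (fun σ => (d k).P l σ.1 σ.2.1 σ.2.2)
      (DVT (fun j => ((d k).v l (i k) j : ℂ) • (1 : Matrix (Fin n) (Fin n) ℂ)) (Q k))) = 0 := by
  classical
  have ha : 0 < a := (i 0).pos
  choose D Y hD0 hD1 hD2 using fun (k : ℕ) => exists_tor ((hd k).ind l) ((hd k).det ha l) ((hd k).known l) (i k)
  -- the derivation of the torus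
  have hΔη : ∀ i', uder D (mk ℂ fun k => (d k).η l i') = 0 := by
    intro i'
    rw [uder_mk]
    have h3 : (fun k => D k ((d k).η l i')) = 0 := by
      funext k
      exact hD0 k i'
    rw [h3, map_zero]
  have e1 := der_seq (KK_kill hΔη) hQd h2 (fun k σ => (d k).P l σ.1 σ.2.1 σ.2.2)
  rw [h3, map_zero] at e1
  -- the derivation for `Y`
  obtain ⟨δ', hδ1, hδ2⟩ := hreal (fun k j => ((d k).C l j)⁻¹ * Y k j * (d k).C l j) fun k => (hd k).tan l ha _ (hD1 k)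
  have hδη : ∀ i', δ' (mk ℂ fun k => (d k).η l i') = 0 := fun i' => der_algD (fun k => (hd k).eta l i') hδ1
  have e2 := der_seq (KK_kill hδη) hQd h2 (fun k σ => (d k).P l σ.1 σ.2.1 σ.2.2)
  rw [h3, map_zero] at e2
  have hδP : ∀ σ : Fin N × Fin n × Fin n, δ' (mk ℂ fun k => (d k).P l σ.1 σ.2.1 σ.2.2) =
      mk ℂ fun k => (Y k σ.1 * (d k).P l σ.1) σ.2.1 σ.2.2 := by
    intro σ
    have hC0 : dm δ' (gm fun k => (d k).C l σ.1) = 0 := by
      have e1 : dm δ' (gm fun k => (d k).C₁ l σ.1) = 0 := by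
        refine Matrix.ext fun a b => ?_
        exact der_algD (fun k => (hd k).few₁ l σ.1 a b) hδ1
      have e2 : dm δ' (gm fun k => (d k).C₂ l σ.1) = 0 := by
        refine Matrix.ext fun a b => ?_
        exact der_algD (fun k => (hd k).few₂ l σ.1 a b) hδ1
      have e3 : (gm fun k => (d k).C l σ.1) = gm (fun k => (d k).C₁ l σ.1) * gm fun k => (d k).C₂ l σ.1 := gm_mul _ _
      rw [e3, dm_mul, e1, e2, Matrix.zero_mul, Matrix.mul_zero, add_zero]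
    have hz : dm δ' (gm fun k => (d k).z l σ.1) = gm fun k => ((d k).C l σ.1)⁻¹ * Y k σ.1 * (d k).C l σ.1 * (d k).z l σ.1 := by
      refine Matrix.ext fun a b => ?_
      exact hδ2 (σ.1, a, b)
    have h4 : (gm fun k => (d k).P l σ.1) = gm (fun k => (d k).C l σ.1) * gm fun k => (d k).z l σ.1 := gm_mul _ _
    have h5 : dm δ' (gm fun k => (d k).P l σ.1) = gm fun k => Y k σ.1 * (d k).P l σ.1 := by
      rw [h4, dm_mul, hC0, Matrix.zero_mul, zero_add, hz, ← gm_mul]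
      congr 1
      funext k
      show (d k).C l σ.1 * (((d k).C l σ.1)⁻¹ * Y k σ.1 * (d k).C l σ.1 * (d k).z l σ.1) = Y k σ.1 * ((d k).C l σ.1 * (d k).z l σ.1)
      simp only [Matrix.mul_assoc]
      rw [Matrix.mul_nonsing_inv_cancel_left _ _ (C_unit (hd k) ha l σ.1)]
    exact congrFun (congrFun h5 σ.2.1) σ.2.2
  have h5 : (fun k => MvPolynomial.eval (fun σ => (d k).P l σ.1 σ.2.1 σ.2.2)
      (DVT (fun j => ((d k).v l (i k) j : ℂ) • (1 : Matrix (Fin n) (Fin n) ℂ)) (Q k))) =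
      ∑ σ : Fin N × Fin n × Fin n, (fun k => MvPolynomial.eval (fun σ => (d k).P l σ.1 σ.2.1 σ.2.2) (MvPolynomial.pderiv σ (Q k))) *
        fun k => ((d k).v l (i k) σ.1 : ℂ) * (d k).P l σ.1 σ.2.1 σ.2.2 := by
    funext k
    rw [eval_DVT, Finset.sum_apply]
    refine Finset.sum_congr rfl fun σ _ => ?_
    rw [Pi.mul_apply, Matrix.smul_mul, Matrix.one_mul, Matrix.smul_apply, smul_eq_mul]
  rw [h5, map_sum]
  have h6 : ∀ σ : Fin N × Fin n × Fin n, (mk ℂ fun k => ((d k).v l (i k) σ.1 : ℂ) * (d k).P l σ.1 σ.2.1 σ.2.2) =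
      uder D (mk ℂ fun k => (d k).P l σ.1 σ.2.1 σ.2.2) - δ' (mk ℂ fun k => (d k).P l σ.1 σ.2.1 σ.2.2) := by
    intro σ
    rw [hδP, uder_mk, ← map_sub]
    congr 1
    funext k
    have h7 := congrFun (congrFun (hD2 k σ.1) σ.2.1) σ.2.2
    have h8 : D k ((d k).P l σ.1 σ.2.1 σ.2.2) = (((d k).v l (i k) σ.1 : ℂ) • (d k).P l σ.1 + Y k σ.1 * (d k).P l σ.1) σ.2.1 σ.2.2 := h7
    show ((d k).v l (i k) σ.1 : ℂ) * (d k).P l σ.1 σ.2.1 σ.2.2 = D k ((d k).P l σ.1 σ.2.1 σ.2.2) -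
      (Y k σ.1 * (d k).P l σ.1) σ.2.1 σ.2.2
    rw [h8, Matrix.add_apply, Matrix.smul_apply, smul_eq_mul]
    ring
  have h9 : ∀ σ : Fin N × Fin n × Fin n, mk ℂ ((fun k => MvPolynomial.eval (fun σ => (d k).P l σ.1 σ.2.1 σ.2.2) (MvPolynomial.pderiv σ (Q k))) *
        fun k => ((d k).v l (i k) σ.1 : ℂ) * (d k).P l σ.1 σ.2.1 σ.2.2) =
      (mk ℂ fun k => MvPolynomial.eval (fun σ => (d k).P l σ.1 σ.2.1 σ.2.2) (MvPolynomial.pderiv σ (Q k))) *
        uder D (mk ℂ fun k => (d k).P l σ.1 σ.2.1 σ.2.2) -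
      (mk ℂ fun k => MvPolynomial.eval (fun σ => (d k).P l σ.1 σ.2.1 σ.2.2) (MvPolynomial.pderiv σ (Q k))) *
        δ' (mk ℂ fun k => (d k).P l σ.1 σ.2.1 σ.2.2) := by
    intro σ
    rw [map_mul, h6, mul_sub]
  rw [Finset.sum_congr rfl fun σ _ => h9 σ, Finset.sum_sub_distrib, ← e1, ← e2, sub_zero]

/-- words in the vector fields of the torus -/
theorem tor_words {e δ : ℕ} (d : ℕ → DatA L n N s a u) (hd : ∀ k, (d k).OK e) {l : Fin L} (hreal : Realize d l)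
    (S : ℕ → MvPolynomial (Fin N × Fin n × Fin n) ℂ) (hS1 : ∀ k, (S k).totalDegree ≤ δ)
    (hS2 : ∀ k ν, AlgD e ((d k).η l) ((S k).coeff ν))
    (hS3 : ∀ k, MvPolynomial.eval (fun σ => (d k).P l σ.1 σ.2.1 σ.2.2) (S k) = 0) :
    ∀ r, ∀ P : ℕ → MvPolynomial (Fin N × Fin n × Fin n) ℂ, (∀ k, Wp (torG ((d k).v l)) (S k) r (P k)) →
      P ∈ PS (KK fun i => mk ℂ fun k => (d k).η l i) (Fin N × Fin n × Fin n) ∧
      (mk ℂ fun k => MvPolynomial.eval (fun σ => (d k).P l σ.1 σ.2.1 σ.2.2) (P k)) = 0 := by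
  intro r
  induction r with
  | zero =>
    intro P hP
    have h1 : P = S := by
      funext k
      have h2 := hP k
      generalize hPk : P k = Pk at h2
      generalize S k = Q at h2
      cases h2
      rfl
    subst h1
    refine ⟨fun ν => KK_alg fun k => hS2 k ν, ?_⟩
    exact mk_eq_zero.2 (Filter.Eventually.of_forall fun k => hS3 k)
  | succ r ih =>
    intro P hP
    have h1 : ∀ k, ∃ (Q : MvPolynomial (Fin N × Fin n × Fin n) ℂ) (i : Fin a),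
        Wp (torG ((d k).v l)) (S k) r Q ∧ P k = DVT (fun j => ((d k).v l i j : ℂ) • (1 : Matrix (Fin n) (Fin n) ℂ)) Q := by
      intro k
      have h2 := hP k
      generalize hPk : P k = Pk at h2
      cases h2 with
      | succ h3 h4 =>
        obtain ⟨i, rfl⟩ := h4
        exact ⟨_, i, h3, rfl⟩
    choose Q i hQ hPQ using h1
    obtain ⟨h2, h3⟩ := ih Q hQ
    have hP' : P = fun k => DVT (fun j => ((d k).v l (i k) j : ℂ) • (1 : Matrix (Fin n) (Fin n) ℂ)) (Q k) := funext hPQ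
    have hXK : ∀ j a b, mk ℂ (fun k => (((d k).v l (i k) j : ℂ) • (1 : Matrix (Fin n) (Fin n) ℂ)) a b) ∈
        KK fun i => mk ℂ fun k => (d k).η l i := by
      intro j a b δ _
      have h4 : (fun k => (((d k).v l (i k) j : ℂ) • (1 : Matrix (Fin n) (Fin n) ℂ)) a b) =
          fun k => ((if a = b then (d k).v l (i k) j else 0 : ℕ) : ℂ) := by
        funext k
        rw [Matrix.smul_apply, Matrix.one_apply, smul_eq_mul]
        split_ifs <;> simp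
      rw [h4]
      exact nat_killed _ δ
    subst hP'
    exact ⟨PS_DVT h2 hXK, tor_step d hd hreal i Q (fun k => (Wp_deg (hQ k)).trans (hS1 k)) h2 h3⟩

/-- words in the symmetries -/
theorem sym_words {e δ : ℕ} (d : ℕ → DatA L n N s a u) {l : Fin L} (hreal : Realize d l)
    (P₀ : ℕ → MvPolynomial (Fin N × Fin n × Fin n) ℂ)
    (hP₀ : P₀ ∈ PS (KK fun i => mk ℂ fun k => (d k).bs i) (Fin N × Fin n × Fin n)) (hP₀d : ∀ k, (P₀ k).totalDegree ≤ δ)
    (hP₀e : (mk ℂ fun k => MvPolynomial.eval (fun σ => (d k).z l σ.1 σ.2.1 σ.2.2) (P₀ k)) = 0) :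
      ∀ r, ∀ P : ℕ → MvPolynomial (Fin N × Fin n × Fin n) ℂ, (∀ k, Wp (algP e (d k).bs ((d k).𝔤 l)) (P₀ k) r (P k)) →
      P ∈ PS (KK fun i => mk ℂ fun k => (d k).bs i) (Fin N × Fin n × Fin n) ∧
      (mk ℂ fun k => MvPolynomial.eval (fun σ => (d k).z l σ.1 σ.2.1 σ.2.2) (P k)) = 0 := by
  intro r
  induction r with
  | zero =>
    intro P hP
    have h1 : P = P₀ := by
      funext k
      have h2 := hP k
      generalize hPk : P k = Pk at h2
      generalize P₀ k = Q at h2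
      cases h2
      rfl
    subst h1
    exact ⟨hP₀, hP₀e⟩
  | succ r ih =>
    intro P hP
    have h1 : ∀ k, ∃ (Q : MvPolynomial (Fin N × Fin n × Fin n) ℂ) (X : Fin N → Matrix (Fin n) (Fin n) ℂ),
        Wp (algP e (d k).bs ((d k).𝔤 l)) (P₀ k) r Q ∧ X ∈ algP e (d k).bs ((d k).𝔤 l) ∧ P k = DVT X Q := by
      intro k
      have h2 := hP k
      generalize hPk : P k = Pk at h2
      cases h2 with
      | succ h3 h4 => exact ⟨_, _, h3, h4, rfl⟩
    choose Q X hQ hX hPQ using h1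
    obtain ⟨h2, h3⟩ := ih Q hQ
    have hP' : P = fun k => DVT (X k) (Q k) := funext hPQ
    have hXK : ∀ j a b, mk ℂ (fun k => X k j a b) ∈ KK fun i => mk ℂ fun k => (d k).bs i :=
      fun j a b => KK_alg fun k => (hX k).2 j a b
    subst hP'
    refine ⟨PS_DVT h2 hXK, ?_⟩
    obtain ⟨δ', hδ1, hδ2⟩ := hreal X fun k => (hX k).1
    have hQd : ∀ k, (Q k).totalDegree ≤ δ := fun k => (Wp_deg (hQ k)).trans (hP₀d k)
    have h4 := der_seq (KK_kill hδ1) hQd h2 (fun k σ => (d k).z l σ.1 σ.2.1 σ.2.2)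
    rw [h3, map_zero] at h4
    have h5 : (fun k => MvPolynomial.eval (fun σ => (d k).z l σ.1 σ.2.1 σ.2.2) (DVT (X k) (Q k))) =
        ∑ σ : Fin N × Fin n × Fin n, (fun k => MvPolynomial.eval (fun σ => (d k).z l σ.1 σ.2.1 σ.2.2) (MvPolynomial.pderiv σ (Q k))) *
          fun k => (X k σ.1 * (d k).z l σ.1) σ.2.1 σ.2.2 := by
      funext k
      rw [eval_DVT, Finset.sum_apply]
      rfl
    rw [h5, map_sum, h4]
    refine Finset.sum_congr rfl fun σ _ => ?_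
    rw [map_mul, ← hδ2]

/-- words in the symmetries of words in the vector fields of the torus -/
theorem key_words {e δ : ℕ} (he : 1 ≤ e) (d : ℕ → DatA L n N s a u) (hd : ∀ k, (d k).OK e) {l : Fin L} (hreal : Realize d l)
    (S : ℕ → MvPolynomial (Fin N × Fin n × Fin n) ℂ) (hS1 : ∀ k, (S k).totalDegree ≤ δ)
    (hS2 : ∀ k ν, AlgD e ((d k).η l) ((S k).coeff ν))
    (hS3 : ∀ k, MvPolynomial.eval (fun σ => (d k).P l σ.1 σ.2.1 σ.2.2) (S k) = 0) (r r' : ℕ)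
    (hr : r = 0 ∨ 0 < a) : ∀ᶠ k in (hyperfilter ℕ : Filter ℕ), ∀ P, Wp (torG ((d k).v l)) (S k) r P →
      ∀ Q, Wp (algP e (d k).bs ((d k).𝔤 l)) (sbC ((d k).C l) P) r' Q →
      MvPolynomial.eval (fun σ => (d k).z l σ.1 σ.2.1 σ.2.2) Q = 0 := by
  classical
  have hne : ∀ k, (algP e (d k).bs ((d k).𝔤 l)).Nonempty := fun k => ⟨0, Submodule.zero_mem _, fun j a b => by
    refine ⟨MvPolynomial.X none, ?_, ?_, 1, ?_⟩
    · rw [MvPolynomial.totalDegree_X]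
      exact he
    · rw [MvPolynomial.aeval_X]
      rfl
    · rw [MvPolynomial.aeval_X]
      exact one_ne_zero⟩
  have h0 : ∀ k, ∃ P, Wp (torG (n := n) ((d k).v l)) (S k) r P := by
    intro k
    rcases hr with hr | hr
    · subst hr
      exact ⟨_, Wp.zero⟩
    · exact Wp_exists (G := torG (n := n) ((d k).v l))
        ⟨fun j => ((d k).v l ⟨0, hr⟩ j : ℂ) • (1 : Matrix (Fin n) (Fin n) ℂ), ⟨⟨0, hr⟩, rfl⟩⟩ _ _
  have h1 : ∀ k, ∃ P Q, Wp (torG ((d k).v l)) (S k) r P ∧ Wp (algP e (d k).bs ((d k).𝔤 l)) (sbC ((d k).C l) P) r' Q ∧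
      ((∃ P Q, Wp (torG ((d k).v l)) (S k) r P ∧ Wp (algP e (d k).bs ((d k).𝔤 l)) (sbC ((d k).C l) P) r' Q ∧
        MvPolynomial.eval (fun σ => (d k).z l σ.1 σ.2.1 σ.2.2) Q ≠ 0) →
        MvPolynomial.eval (fun σ => (d k).z l σ.1 σ.2.1 σ.2.2) Q ≠ 0) := by
    intro k
    by_cases h : ∃ P Q, Wp (torG ((d k).v l)) (S k) r P ∧ Wp (algP e (d k).bs ((d k).𝔤 l)) (sbC ((d k).C l) P) r' Q ∧
        MvPolynomial.eval (fun σ => (d k).z l σ.1 σ.2.1 σ.2.2) Q ≠ 0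
    · obtain ⟨P, Q, hP, hQ, hPQ⟩ := h
      exact ⟨P, Q, hP, hQ, fun _ => hPQ⟩
    · obtain ⟨P, hP⟩ := h0 k
      obtain ⟨Q, hQ⟩ := Wp_exists (hne k) (sbC ((d k).C l) P) r'
      exact ⟨P, Q, hP, hQ, fun h' => absurd h' h⟩
  choose P Q hP hQ hbad using h1
  obtain ⟨hPK, hP0⟩ := tor_words d hd hreal S hS1 hS2 hS3 r P hP
  have hPd : ∀ k, (P k).totalDegree ≤ δ := fun k => (Wp_deg (hP k)).trans (hS1 k)
  have hKK : ∀ x ∈ KK (fun i => mk ℂ fun k => (d k).η l i), x ∈ KK fun i => mk ℂ fun k => (d k).bs i := by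
    intro x hx δ' hδ'
    exact KK_kill (fun i => der_algD (fun k => (hd k).eta l i) fun i => congrFun (LinearMap.mem_ker.1 hδ') i) x hx
  have hCK : ∀ j a b, mk ℂ (fun k => (d k).C l j a b) ∈ KK fun i => mk ℂ fun k => (d k).bs i := by
    intro j a b
    have e1 : mk ℂ (fun k => (d k).C l j a b) = ∑ c, mk ℂ (fun k => (d k).C₁ l j a c) * mk ℂ fun k => (d k).C₂ l j c b := by
      simp only [← map_mul]
      rw [← map_sum]
      congr 1
      funext k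
      rw [Finset.sum_apply]
      exact Matrix.mul_apply
    rw [e1]
    exact Subfield.sum_mem _ fun c _ => Subfield.mul_mem _ (KK_alg fun k => (hd k).few₁ l j a c) (KK_alg fun k => (hd k).few₂ l j c b)
  have hsK : (fun k => sbC ((d k).C l) (P k)) ∈ PS (KK fun i => mk ℂ fun k => (d k).bs i) (Fin N × Fin n × Fin n) := by
    refine PS_bind hPd (fun ν => hKK _ (hPK ν)) fun σ => ?_
    have h1 : (fun k => ∑ a, MvPolynomial.C ((d k).C l σ.1 σ.2.1 a) *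
        (MvPolynomial.X (σ.1, a, σ.2.2) : MvPolynomial (Fin N × Fin n × Fin n) ℂ)) =
        ∑ a, (fun k => MvPolynomial.C ((d k).C l σ.1 σ.2.1 a)) * fun _ => MvPolynomial.X (σ.1, a, σ.2.2) := by
      funext k
      rw [Finset.sum_apply]
      rfl
    rw [h1]
    exact (PS _ _).sum_mem fun a _ => (PS _ _).mul_mem (PS_C (hCK σ.1 σ.2.1 a)) (PS_X _)
  have hsd : ∀ k, (sbC ((d k).C l) (P k)).totalDegree ≤ δ := fun k => (sbC_deg _ _).trans (hPd k)
  have hse : (mk ℂ fun k => MvPolynomial.eval (fun σ => (d k).z l σ.1 σ.2.1 σ.2.2) (sbC ((d k).C l) (P k))) = 0 := by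
    rw [← hP0]
    congr 1
    funext k
    exact sbC_eval _ _ _
  filter_upwards [mk_eq_zero.1 (sym_words d hreal _ hsK hsd hse r' Q hQ).2] with k hk P' hP' Q' hQ'
  by_contra hne'
  exact hbad k ⟨P', Q', hP', hQ', hne'⟩ hk

/-- the words vanish -/
def Van (e : ℕ) (d : DatA L n N s a u) (l : Fin L) (S : MvPolynomial (Fin N × Fin n × Fin n) ℂ) (r r' : ℕ) : Prop :=
  ∀ P, Wp (torG (d.v l)) S r P → ∀ Q, Wp (algP e d.bs (d.𝔤 l)) (sbC (d.C l) P) r' Q →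
    MvPolynomial.eval (fun σ => d.z l σ.1 σ.2.1 σ.2.2) Q = 0

/-- the orbit under the symmetries -/
theorem orb_one {e δ : ℕ} {d : DatA L n N s a u} (hd : d.OK e) {l : Fin L} {S : MvPolynomial (Fin N × Fin n × Fin n) ℂ}
    (hS : S.totalDegree ≤ δ) (hk : ∀ r ≤ dimP n N δ, ∀ r' ≤ dimP n N δ, Van e d l S r r')
    {g : Fin N → Matrix (Fin n) (Fin n) ℂ} (hg : g ∈ expG (d.𝔤 l : Set (Fin N → Matrix (Fin n) (Fin n) ℂ)))
    {r : ℕ} (hr : r ≤ dimP n N δ) {P : MvPolynomial (Fin N × Fin n × Fin n) ℂ} (hP : Wp (torG (d.v l)) S r P) :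
      MvPolynomial.eval (fun σ => (d.C l σ.1 * (g σ.1 * d.z l σ.1)) σ.2.1 σ.2.2) P = 0 := by
  have hPd : (sbC (d.C l) P).totalDegree ≤ δ := (sbC_deg _ _).trans ((Wp_deg hP).trans hS)
  obtain ⟨W, hW1, hW2, hW3⟩ := exists_stable (G := algP e d.bs (d.𝔤 l)) (z := d.z l) hPd
    (fun r' hr' Q hQ => hk r hr r' hr' P hP Q hQ)
  have h6 : ∀ X ∈ (d.𝔤 l : Set (Fin N → Matrix (Fin n) (Fin n) ℂ)), ∀ P ∈ W, DVT X P ∈ W := fun X hX P hP =>
    hW2 X (hd.rat l hX) P hP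
  have h5 := orbit_zero h6 hW3 hg (sbC (d.C l) P) hW1
  rw [← sbC_eval (d.C l) P fun j => g j * d.z l j]
  exact h5

/-- the orbit under the torus and the symmetries -/
theorem orb_two {e δ : ℕ} {d : DatA L n N s a u} (hd : d.OK e) {l : Fin L} {S : MvPolynomial (Fin N × Fin n × Fin n) ℂ}
    (hS : S.totalDegree ≤ δ) (hk : ∀ r ≤ dimP n N δ, ∀ r' ≤ dimP n N δ, Van e d l S r r')
    {g : Fin N → Matrix (Fin n) (Fin n) ℂ} (hg : g ∈ expG (d.𝔤 l : Set (Fin N → Matrix (Fin n) (Fin n) ℂ)))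
    {h : Fin N → Matrix (Fin n) (Fin n) ℂ}
    (hh : h ∈ expG (Submodule.span ℂ (torG (n := n) (d.v l)) : Set (Fin N → Matrix (Fin n) (Fin n) ℂ))) :
      MvPolynomial.eval (fun σ => (h σ.1 * (d.C l σ.1 * (g σ.1 * d.z l σ.1))) σ.2.1 σ.2.2) S = 0 := by
  obtain ⟨W, hW1, hW2, hW3⟩ := exists_stable (G := torG (n := n) (d.v l)) (z := fun j => d.C l j * (g j * d.z l j)) hS
    (fun r hr P hP => orb_one hd hS hk hg hr hP)
  exact orbit_zero (𝔤 := (Submodule.span ℂ (torG (n := n) (d.v l)) : Set (Fin N → Matrix (Fin n) (Fin n) ℂ)))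
    (z := fun j => d.C l j * (g j * d.z l j)) (fun X hX P hP => hW2 X hX P hP) hW3 hh S hW1

/-- **Relations hold on the orbits of the torus and the symmetries.** -/
theorem absO (hL : s < L) {e δ : ℕ} (he : 1 ≤ e) (d : ℕ → DatA L n N s a u) (hd : ∀ k, (d k).OK e)
    (hder : ∀ l, ∀ F : ℕ → Fin N → Matrix (Fin n) (Fin n) ℂ, (∀ k, F k ∈ (d k).𝔤 l) →
      ∃ δ : Derivation (U ℚ) (U ℂ) (U ℂ), (∀ j, dm δ (gm fun k => (d k).z l j) = gm fun k => F k j * (d k).z l j) ∧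
      ∀ l', l' ≠ l → ∀ j, dm δ (gm fun k => (d k).z l' j) = 0)
    (S : ℕ → Fin L → MvPolynomial (Fin N × Fin n × Fin n) ℂ) (hS1 : ∀ k l, (S k l).totalDegree ≤ δ)
    (hS2 : ∀ k l ν, AlgD e ((d k).η l) ((S k l).coeff ν))
    (hS3 : ∀ k l, MvPolynomial.eval (fun σ => (d k).P l σ.1 σ.2.1 σ.2.2) (S k l) = 0) :
    ∃ l, ∀ᶠ k in (hyperfilter ℕ : Filter ℕ), ∀ g ∈ expG ((d k).𝔤 l : Set (Fin N → Matrix (Fin n) (Fin n) ℂ)),
      ∀ h ∈ expG (Submodule.span ℂ (torG (n := n) ((d k).v l)) : Set (Fin N → Matrix (Fin n) (Fin n) ℂ)),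
        MvPolynomial.eval (fun σ => (h σ.1 * ((d k).C l σ.1 * (g σ.1 * (d k).z l σ.1))) σ.2.1 σ.2.2) (S k l) = 0 := by
  classical
  obtain ⟨l, hreal⟩ := hreal_gen hL (fun k => (d k).bs) (fun k => (d k).z) (fun k => (d k).𝔤) hder
  have hreal' : Realize d l := hreal
  have key : ∀ r r' : ℕ, ∀ᶠ k in (hyperfilter ℕ : Filter ℕ), Van e (d k) l (S k l) r r' := by
    intro r r'
    by_cases hr : r = 0 ∨ 0 < a
    · exact key_words he d hd hreal' (fun k => S k l) (fun k => hS1 k l) (fun k ν => hS2 k l ν) (fun k => hS3 k l) r r' hr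
    · exact Filter.Eventually.of_forall fun k P hP => (no_words hr hP).elim
  have hall : ∀ᶠ k in (hyperfilter ℕ : Filter ℕ), ∀ p ∈ Finset.range (dimP n N δ + 1) ×ˢ Finset.range (dimP n N δ + 1),
      Van e (d k) l (S k l) p.1 p.2 := (Filter.eventually_all_finset _).2 fun p _ => key p.1 p.2
  refine ⟨l, hall.mono fun k hk g hg h hh => ?_⟩
  refine orb_two (hd k) (hS1 k l) (fun r hr r' hr' => ?_) hg hh
  exact hk (r, r') (Finset.mem_product.2 ⟨Finset.mem_range.2 (by omega), Finset.mem_range.2 (by omega)⟩)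


end Pool.Agent.H885.OW
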