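import Pool.Agent.H885.CurTw2
import Pool.Agent.H885.OrbW

/-!
# Derivations for families near degenerate central fibres, and relations on orbits
-/

set_option autoImplicit false
set_option linter.unusedSectionVars false
set_option linter.unusedVariables false

open Matrix Module Filter PowerSeries

namespace Pool.Agent.H885

open Pool.Agent.Y113 (ev Cv GSys ps)
open Pool.Agent.Y118.HV (Hv hh)
open Pool.Agent.Y120.GH (cx cx_mem Cw sf ou_shift ou_ev)
open Pool.Agent.Helper880_R3 hiding core final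
open Pool.Agent.Helper880_LF.NB hiding alg_core
open Pool.Agent.Y118.UL (mk mk_eq mk_eq_zero mk_ne_zero mk_surj ev_ge eval_mk rep qc qc_mk algebraMap_eq U)
open Pool.Agent.TH119.DR Pool.Agent.TH119.MX Pool.Agent.TH127.PT Pool.Agent.Y123.ST Pool.Agent.Y123.GN

variable {n N L s ℓ q : ℕ}

/-- the data for several tuples of points -/
structure DatX (L n N : ℕ) where
  R : Fin L → Fin N → Matrix (Fin n) (Fin n) ℤ
  H : ℝ
  T : Fin L → Fin N → Polynomial ℤ
  A : Fin L → Fin N → Fin n → Fin n → Polynomial ℤ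
  Z : Fin L → Fin N → Matrix (Fin n) (Fin n) ℚ⟦X⟧
  W : Fin L → Fin N → Matrix (Fin n) (Fin n) ℚ⟦X⟧
  ρ : ℝ
  w : ℕ
  b₀ : ℕ
  b : Fin L → Fin N → ℕ
  𝔤 : Fin L → Submodule ℂ (Fin N → Matrix (Fin n) (Fin n) ℂ)

/-- the reference point -/
noncomputable def DatX.t (d : DatX L n N) : ℕ := d.b₀ + d.w + ⌊d.ρ⌋₊ + 2

/-- the values -/
noncomputable def DatX.z (d : DatX L n N) (l : Fin L) (j : Fin N) : Matrix (Fin n) (Fin n) ℂ :=
  zT d.t (d.R l j) (d.Z l j) (d.b l j)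

/-- the conditions -/
structure DatX.OK (q E : ℕ) (d : DatX L n N) : Prop where
  one_le : 1 ≤ d.H
  sys : ∀ l j, SysN q d.H (d.T l j) (d.A l j) (d.R l j) (d.Z l j) (d.W l j)
  T_ne : ∀ l j, d.T l j ≠ 0
  ρ_pos : 0 < d.ρ
  mem : ∀ l j a b, cx (d.Z l j a b) ∈ Cw d.ρ
  b_mem : ∀ l j, d.b₀ ≤ d.b l j ∧ d.b l j ≤ d.b₀ + d.w
  sep : ∀ l j l' j', ¬ (l = l' ∧ d.b l j = d.b l' j') → 2 * d.ρ < |(d.b l j : ℝ) - d.b l' j'|
  big : (2 * d.H * ((d.w : ℝ) + d.ρ + 2)) ^ E ≤ (d.b₀ : ℝ)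
  inf : ∀ l, ∀ X ∈ d.𝔤 l, ∀ (β : ℕ) (lam : ℂ), InfT (part (d.b l) (d.Z l) β)
    (fun j => if d.b l j = β then eP (d.R l j) (-lam) * X j * eP (d.R l j) lam else 0)

/-- **the derivations** -/
theorem derW (d : ℕ → DatX L n N) (hd : ∀ k, (d k).OK q (k + 1)) (l : Fin L) (G : ℕ → Fin N → Matrix (Fin n) (Fin n) ℂ)
    (hG : ∀ k, G k ∈ (d k).𝔤 l) : ∃ δ : Derivation (U ℚ) (U ℂ) (U ℂ),
      (∀ j, dm δ (gm fun k => (d k).z l j) = gm fun k => G k j * (d k).z l j) ∧
      ∀ l', l' ≠ l → ∀ j, dm δ (gm fun k => (d k).z l' j) = 0 := by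
  classical
  set z : ℕ → Fin L → Fin N → Matrix (Fin n) (Fin n) ℂ := fun k l j => (d k).z l j with hz
  set X : ℕ → Fin L → Fin N → Matrix (Fin n) (Fin n) ℂ := fun k l' => if l' = l then G k else 0 with hX
  have hX𝔤 : ∀ k l', X k l' ∈ (d k).𝔤 l' := by
    intro k l'
    rw [hX]
    simp only
    split_ifs with h
    · subst h
      exact hG k
    · exact ((d k).𝔤 l').zero_mem
  obtain ⟨δ, hδ⟩ := hder_gen (z := fun k (i : Fin (L * N)) => z k (fs i) (sn i)) (X := fun k i => X k (fs i) (sn i))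
    (fun e' => by
      obtain ⟨E, hE⟩ := curveTw L N n q e' 
      filter_upwards [ev_ge E] with k hk P hPd hP s
      have hH := (hd k).one_le
      have hw0 : (0 : ℝ) ≤ (d k).w := by positivity
      have hρ := (hd k).ρ_pos
      exact hE (d k).H hH (d k).T (d k).A (d k).R (d k).Z (d k).W (hd k).sys (hd k).T_ne (d k).ρ hρ (hd k).mem (d k).w (d k).b₀
        (d k).b (hd k).b_mem (hd k).sep ((pow_le_pow_right₀ (by nlinarith) (hk.trans (Nat.le_succ k))).trans (hd k).big) (X k)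
        (fun l' β lam => (hd k).inf l' (X k l') (hX𝔤 k l') β lam) P hPd hP s)
  have hfs : ∀ l' j, fs (finProdFinEquiv (l', j) : Fin (L * N)) = l' := fun l' j => by
    unfold fs
    rw [Equiv.symm_apply_apply]
  have hsn : ∀ l' j, sn (finProdFinEquiv (l', j) : Fin (L * N)) = j := fun l' j => by
    unfold sn
    rw [Equiv.symm_apply_apply]
  have hδ' : ∀ l' j, dm δ (gm fun k => z k l' j) = gm fun k => X k l' j * z k l' j := by
    intro l' j
    have h3 := hδ (finProdFinEquiv (l', j))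
    simp only [hfs, hsn] at h3
    exact h3
  refine ⟨δ, fun j => ?_, fun l' hl' j => ?_⟩
  · rw [hδ']
    congr 1
    funext k
    rw [hX]
    simp only [if_true]
    rfl
  · rw [hδ']
    have h3 : (fun k => X k l' j * z k l' j) = fun _ => 0 := by
      funext k
      rw [hX]
      simp only [if_neg hl']
      rw [Pi.zero_apply, Matrix.zero_mul]
    rw [h3, gm_zero]

/-- the conclusion for the orbits -/
def GenW {L n N s a u : ℕ} (e δ : ℕ) (y : OW.DatA L n N s a u) (l : Fin L) : Prop :=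
  ∀ S : MvPolynomial (Fin N × Fin n × Fin n) ℂ, S.totalDegree ≤ δ → (∀ ν, AlgD e (y.η l) (S.coeff ν)) →
    MvPolynomial.eval (fun σ => y.P l σ.1 σ.2.1 σ.2.2) S = 0 →
    ∀ g ∈ expG (y.𝔤 l : Set (Fin N → Matrix (Fin n) (Fin n) ℂ)),
    ∀ h ∈ expG (Submodule.span ℂ (torG (n := n) (y.v l)) : Set (Fin N → Matrix (Fin n) (Fin n) ℂ)),
      MvPolynomial.eval (fun σ => (h σ.1 * (y.C l σ.1 * (g σ.1 * y.z l σ.1))) σ.2.1 σ.2.2) S = 0

/-- **Relations hold on orbits, near degenerate central fibres.** -/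
theorem uniformWO (n N q s a u e δ L : ℕ) (hL : s < L) (he : 1 ≤ e) : ∃ E : ℕ,
    ∀ (x : DatX L n N) (y : OW.DatA L n N s a u), x.OK q E → y.OK e → (∀ l j, y.z l j = x.z l j) → (∀ l, y.𝔤 l = x.𝔤 l) →
    ∃ l, GenW e δ y l := by
  classical
  by_contra hcon
  have h1 : ∀ k : ℕ, ∃ (x : DatX L n N) (y : OW.DatA L n N s a u), x.OK q (k + 1) ∧ y.OK e ∧ (∀ l j, y.z l j = x.z l j) ∧
      (∀ l, y.𝔤 l = x.𝔤 l) ∧ ∀ l, ¬ GenW e δ y l := by
    intro k
    by_contra h2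
    apply hcon
    refine ⟨k + 1, fun x y hx hy hz hg => ?_⟩
    by_contra h3
    apply h2
    refine ⟨x, y, hx, hy, hz, hg, fun l hl => h3 ⟨l, hl⟩⟩
  choose x y hx hy hz hg hbad using h1
  have h2 : ∀ k l, ∃ S : MvPolynomial (Fin N × Fin n × Fin n) ℂ, S.totalDegree ≤ δ ∧ (∀ ν, AlgD e ((y k).η l) (S.coeff ν)) ∧
      MvPolynomial.eval (fun σ => (y k).P l σ.1 σ.2.1 σ.2.2) S = 0 ∧
      ¬ ∀ g ∈ expG ((y k).𝔤 l : Set (Fin N → Matrix (Fin n) (Fin n) ℂ)),
        ∀ h ∈ expG (Submodule.span ℂ (torG (n := n) ((y k).v l)) : Set (Fin N → Matrix (Fin n) (Fin n) ℂ)),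
        MvPolynomial.eval (fun σ => (h σ.1 * ((y k).C l σ.1 * (g σ.1 * (y k).z l σ.1))) σ.2.1 σ.2.2) S = 0 := by
    intro k l
    have h3 := hbad k l
    unfold GenW at h3
    by_contra h4
    apply h3
    intro S hS1 hS2 hS3
    by_contra h5
    exact h4 ⟨S, hS1, hS2, hS3, h5⟩
  choose S hS1 hS2 hS3 hS4 using h2
  obtain ⟨l, hl⟩ := OW.absO hL he y hy (fun l G hG => by
    obtain ⟨δ, h1, h2⟩ := derW x hx l G (fun k => by
      rw [← hg]
      exact hG k)
    refine ⟨δ, fun j => ?_, fun l' hl' j => ?_⟩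
    · have h4 : (fun k => (y k).z l j) = fun k => (x k).z l j := funext fun k => hz k l j
      have h5 : (fun k => G k j * (y k).z l j) = fun k => G k j * (x k).z l j := funext fun k => by rw [hz]
      rw [h4, h5]
      exact h1 j
    · have h4 : (fun k => (y k).z l' j) = fun k => (x k).z l' j := funext fun k => hz k l' j
      rw [h4]
      exact h2 l' hl' j) S hS1 hS2 hS3
  obtain ⟨k, hk⟩ := hl.exists
  exact hS4 k l hk

end Pool.Agent.H885
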