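import Pool.Agent.H885.UnifS

/-!
# Monotonicity of transcendence degrees in bounded degree
-/

set_option autoImplicit false
set_option linter.unusedSectionVars false
set_option linter.unusedVariables false

namespace Pool.Agent.H885

lemma AlgD.zero {e u : ℕ} {ξ : Fin u → ℂ} {y : ℂ} (h : AlgD e ξ y) : AlgD e ξ 0 := by
  rcases Nat.eq_zero_or_pos e with rfl | he
  · exfalso
    obtain ⟨P, h1, h2, y', h3⟩ := h
    have h4 := MvPolynomial.totalDegree_eq_zero_iff_eq_C.1 (Nat.le_zero.1 h1)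
    rw [h4, MvPolynomial.aeval_C] at h2 h3
    exact h3 h2
  · refine ⟨MvPolynomial.X none, ?_, ?_, 1, ?_⟩
    · rw [MvPolynomial.totalDegree_X]
      exact he
    · rw [MvPolynomial.aeval_X]
      rfl
    · rw [MvPolynomial.aeval_X]
      exact one_ne_zero

lemma TrD.mono {n N t t' e δ u : ℕ} (ht : t' ≤ t) {ξ : Fin u → ℂ} {P : Fin N → Matrix (Fin n) (Fin n) ℂ}
    (h : TrD t e δ ξ P) : TrD t' e δ ξ P := by
  obtain ⟨σ, hσ, h1⟩ := h
  refine ⟨fun i => σ (Fin.castLE ht i), fun i j hij => Fin.castLE_injective ht (hσ hij), fun S hS1 hS2 hS3 => ?_⟩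
  have h2 : MvPolynomial.rename (Fin.castLE ht) S = 0 := by
    refine h1 _ ((MvPolynomial.totalDegree_rename_le _ _).trans hS1) (fun ν => ?_) ?_
    · by_cases hν : ∃ μ, Finsupp.mapDomain (Fin.castLE ht) μ = ν
      · obtain ⟨μ, rfl⟩ := hν
        rw [MvPolynomial.coeff_rename_mapDomain _ (Fin.castLE_injective ht)]
        exact hS2 μ
      · rw [MvPolynomial.coeff_rename_eq_zero]
        · exact (hS2 0).zero
        · intro μ hμ
          exact absurd ⟨μ, hμ⟩ hν
    · rw [MvPolynomial.aeval_rename]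
      exact hS3
  exact (MvPolynomial.rename_injective _ (Fin.castLE_injective ht)) (by rw [h2, map_zero])

lemma trD_zero {n N e δ u : ℕ} (ξ : Fin u → ℂ) (P : Fin N → Matrix (Fin n) (Fin n) ℂ) : TrD 0 e δ ξ P := by
  refine ⟨fun i => i.elim0, fun i => i.elim0, fun S _ _ h => ?_⟩
  have h1 := MvPolynomial.eq_C_of_isEmpty S
  rw [h1, MvPolynomial.aeval_C] at h
  rw [h1]
  have h2 : MvPolynomial.coeff 0 S = 0 := h
  rw [h2, map_zero]

end Pool.Agent.H885
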