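import Pool.Agent.H885.Line

/-!
# Families over bases of any dimension give uniform systems on the lines through the origin
-/

set_option autoImplicit false
set_option linter.unusedSectionVars false
set_option linter.unusedVariables false

open PowerSeries

namespace Pool.Agent.H885

open Pool.Agent.Y113
open Pool.Agent.Y120.GH (L1)

variable {m n : ℕ}

/-- the restriction of a polynomial to a line -/
noncomputable def lineP (a : Fin m → ℤ) (P : MvPolynomial (Fin m) ℤ) : Polynomial ℤ :=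
  MvPolynomial.aeval (fun i => Polynomial.C (a i) * Polynomial.X) P

/-- an integer polynomial as a power series -/
noncomputable def toMv (P : MvPolynomial (Fin m) ℤ) : MvPowerSeries (Fin m) ℚ :=
  ((P.map (Int.castRingHom ℚ) : MvPolynomial (Fin m) ℚ) : MvPowerSeries (Fin m) ℚ)

lemma line_toMv (a : Fin m → ℤ) (P : MvPolynomial (Fin m) ℤ) : line a (toMv P) = ps (lineP a P) := by
  induction P using MvPolynomial.induction_on with
  | C c =>
    have h1 : toMv (MvPolynomial.C c : MvPolynomial (Fin m) ℤ) = MvPowerSeries.C (c : ℚ) := by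
      unfold toMv
      rw [MvPolynomial.map_C, MvPolynomial.coe_C]
      rfl
    rw [h1, line_C]
    unfold lineP
    rw [MvPolynomial.aeval_C]
    have h2 : (algebraMap ℤ (Polynomial ℤ)) c = Polynomial.C c := rfl
    rw [h2, ps_C]
    simp
  | add p q hp hq =>
    have h1 : toMv (p + q) = toMv p + toMv q := by
      unfold toMv
      rw [map_add, MvPolynomial.coe_add]
    have h2 : ps (lineP a (p + q)) = ps (lineP a p) + ps (lineP a q) := by
      unfold lineP ps
      rw [map_add, Polynomial.map_add, Polynomial.coe_add]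
    rw [h1, line_add, hp, hq, h2]
  | mul_X p i hp =>
    have h1 : toMv (p * MvPolynomial.X i) = toMv p * MvPowerSeries.X i := by
      unfold toMv
      rw [map_mul, MvPolynomial.coe_mul, MvPolynomial.map_X, MvPolynomial.coe_X]
    have h2 : lineP a (p * MvPolynomial.X i) = lineP a p * (Polynomial.C (a i) * Polynomial.X) := by
      unfold lineP
      rw [map_mul, MvPolynomial.aeval_X]
    rw [h1, line_mul, hp, h2, ps_mul, ps_mul, line_X, ps_C]
    congr 2
    · simp
    · unfold ps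
      simp

lemma lineP_eq (a : Fin m → ℤ) (P : MvPolynomial (Fin m) ℤ) :
    lineP a P = ∑ ν ∈ P.support, Polynomial.C (P.coeff ν * ∏ i, a i ^ ν i) * Polynomial.X ^ (∑ i, ν i) := by
  unfold lineP
  rw [MvPolynomial.aeval_def, MvPolynomial.eval₂_eq']
  refine Finset.sum_congr rfl fun ν _ => ?_
  have h1 : (algebraMap ℤ (Polynomial ℤ)) (P.coeff ν) = Polynomial.C (P.coeff ν) := rfl
  rw [h1, map_mul, map_prod, mul_assoc]
  congr 1
  rw [← Finset.prod_pow_eq_pow_sum, ← Finset.prod_mul_distrib]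
  refine Finset.prod_congr rfl fun i _ => ?_
  rw [mul_pow, map_pow]

lemma prod_le {a : Fin m → ℤ} {h : ℕ} (ha : ∀ i, |a i| ≤ h) {q : ℕ} {ν : Fin m →₀ ℕ} (hν : ∑ i, ν i ≤ q) :
    |((∏ i, a i ^ ν i : ℤ) : ℝ)| ≤ ((h : ℝ) + 2) ^ q := by
  push_cast
  rw [Finset.abs_prod]
  have h0 : (0 : ℝ) ≤ h := by positivity
  have h1 : ∀ i ∈ (Finset.univ : Finset (Fin m)), |((a i : ℤ) : ℝ) ^ ν i| ≤ ((h : ℝ) + 2) ^ ν i := by
    intro i _
    rw [abs_pow]
    refine pow_le_pow_left₀ (abs_nonneg _) ?_ _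
    have : ((|a i| : ℤ) : ℝ) ≤ (h : ℝ) := by exact_mod_cast ha i
    rw [Int.cast_abs] at this
    linarith
  refine (Finset.prod_le_prod (fun i _ => abs_nonneg _) h1).trans ?_
  rw [Finset.prod_pow_eq_pow_sum]
  exact pow_le_pow_right₀ (by linarith) hν

/-- degree and size of the restriction to a line -/
lemma lineP_L1 (P : MvPolynomial (Fin m) ℤ) {q : ℕ} (hq : P.totalDegree ≤ q) :
    ∃ c : ℝ, 1 ≤ c ∧ ∀ (h : ℕ) (a : Fin m → ℤ), (∀ i, |a i| ≤ h) → L1 q (c * ((h : ℝ) + 2) ^ q) (lineP a P) := by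
  classical
  have h0 : 0 ≤ ∑ ν ∈ P.support, |((P.coeff ν : ℤ) : ℝ)| := Finset.sum_nonneg fun _ _ => abs_nonneg _
  refine ⟨1 + ∑ ν ∈ P.support, |((P.coeff ν : ℤ) : ℝ)|, by linarith, fun h a ha => ?_⟩
  rw [lineP_eq]
  have h1 : ∀ ν ∈ P.support, L1 q (|((P.coeff ν : ℤ) : ℝ)| * ((h : ℝ) + 2) ^ q)
      (Polynomial.C (P.coeff ν * ∏ i, a i ^ ν i) * Polynomial.X ^ (∑ i, ν i)) := by
    intro ν hν
    have hdeg : ∑ i, ν i ≤ q := by
      refine le_trans ?_ hq
      have := MvPolynomial.le_totalDegree hν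
      rw [Finsupp.sum_fintype _ _ (fun _ => rfl)] at this
      exact this
    have h2 := (Pool.Agent.Y120.GH.L1.X.pow (∑ i, ν i)).C_mul (P.coeff ν * ∏ i, a i ^ ν i)
      (B := |((P.coeff ν : ℤ) : ℝ)| * ((h : ℝ) + 2) ^ q) (by
        push_cast
        rw [abs_mul]
        refine mul_le_mul_of_nonneg_left ?_ (abs_nonneg _)
        have := prod_le ha hdeg
        push_cast at this
        exact this)
    refine h2.mono (by omega) ?_
    rw [one_pow, mul_one]
  refine (Pool.Agent.Y120.GH.L1.sum _ h1).mono le_rfl ?_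
  rw [← Finset.sum_mul]
  refine mul_le_mul_of_nonneg_right (by linarith) (by positivity)

/-- the constant coefficient -/
lemma lineP_coeff_zero (a : Fin m → ℤ) (P : MvPolynomial (Fin m) ℤ) : (lineP a P).coeff 0 = MvPolynomial.coeff 0 P := by
  have h1 : (lineP a P).coeff 0 = Polynomial.constantCoeff (lineP a P) := rfl
  have h2 : (Polynomial.constantCoeff.comp (MvPolynomial.aeval (R := ℤ) (fun i => Polynomial.C (a i) * Polynomial.X) :
      MvPolynomial (Fin m) ℤ →ₐ[ℤ] Polynomial ℤ).toRingHom : MvPolynomial (Fin m) ℤ →+* ℤ) = MvPolynomial.constantCoeff := by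
    refine MvPolynomial.ringHom_ext (fun c => ?_) fun i => ?_
    · simp
    · simp
  have h3 := RingHom.congr_fun h2 P
  exact h3

/-- a matrix of G-functions in `m` variables which solves a connection that is regular at the origin -/
structure GBase (T : MvPolynomial (Fin m) ℤ) (A : Fin m → Fin n → Fin n → MvPolynomial (Fin m) ℤ)
    (Z W : Matrix (Fin n) (Fin n) (MvPowerSeries (Fin m) ℚ)) : Prop where
  T_ne : MvPolynomial.coeff 0 T ≠ 0
  ode : ∀ i a b, toMv T * pdv i (Z a b) = ∑ l, Z a l * toMv (A i l b)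
  inv : W * Z = 1
  size : ∃ C : ℝ, ∀ a b (ν : Fin m →₀ ℕ), |((MvPowerSeries.coeff ν (Z a b) : ℚ) : ℝ)| ≤ C ^ (∑ i, ν i + 1)
  den : ∃ C : ℝ, ∀ k : ℕ, ∃ d : ℕ, 0 < d ∧ (d : ℝ) ≤ C ^ (k + 1) ∧ ∀ a b (ν : Fin m →₀ ℕ), ∑ i, ν i ≤ k →
    (∃ z : ℤ, (d : ℚ) * MvPowerSeries.coeff ν (Z a b) = z) ∧ ∃ z : ℤ, (d : ℚ) * MvPowerSeries.coeff ν (W a b) = z

lemma card_exps (m k : ℕ) : ((exps m k).card : ℝ) ≤ ((2 : ℝ) ^ m) ^ (k + 1) := by
  have h1 : (exps m k).card ≤ (k + 1) ^ m := by
    have h2 : (exps m k).card ≤ (Finset.univ : Finset (Fin m → Fin (k + 1))).card := by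
      refine Finset.card_le_card_of_injOn (fun ν i => Fin.ofNat (k + 1) (ν i)) (fun _ _ => Finset.mem_univ _) ?_
      intro ν hν μ hμ h
      rw [Finset.mem_coe, mem_exps] at hν hμ
      ext i
      have h3 := congrFun h i
      have h4 : ν i ≤ k := hν ▸ Finset.single_le_sum (f := fun i => ν i) (fun _ _ => Nat.zero_le _) (Finset.mem_univ i)
      have h5 : μ i ≤ k := hμ ▸ Finset.single_le_sum (f := fun i => μ i) (fun _ _ => Nat.zero_le _) (Finset.mem_univ i)
      have h6 := congrArg Fin.val h3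
      simp only [Fin.ofNat] at h6
      rw [Nat.mod_eq_of_lt (by omega), Nat.mod_eq_of_lt (by omega)] at h6
      exact h6
    rw [Finset.card_univ, Fintype.card_fun, Fintype.card_fin, Fintype.card_fin] at h2
    exact h2
  calc ((exps m k).card : ℝ) ≤ (((k + 1) ^ m : ℕ) : ℝ) := by exact_mod_cast h1
    _ = ((k : ℝ) + 1) ^ m := by push_cast; rfl
    _ ≤ ((2 : ℝ) ^ (k + 1)) ^ m := by
        refine pow_le_pow_left₀ (by positivity) ?_ _
        calc (k : ℝ) + 1 ≤ 2 ^ k := succ_le_two_pow k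
          _ ≤ 2 ^ (k + 1) := pow_le_pow_right₀ (by norm_num) (by omega)
    _ = _ := by rw [← pow_mul, ← pow_mul, mul_comm]

/-- the size of the restriction -/
lemma line_size {f : MvPowerSeries (Fin m) ℚ} {C : ℝ} (hC : 1 ≤ C)
    (hf : ∀ ν : Fin m →₀ ℕ, |((MvPowerSeries.coeff ν f : ℚ) : ℝ)| ≤ C ^ (∑ i, ν i + 1)) {h : ℕ} {a : Fin m → ℤ}
    (ha : ∀ i, |a i| ≤ h) (k : ℕ) : |((coeff k (line a f) : ℚ) : ℝ)| ≤ (2 ^ m * (C * ((h : ℝ) + 2))) ^ (k + 1) := by
  rw [coeff_line]
  push_cast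
  refine (Finset.abs_sum_le_sum_abs _ _).trans ?_
  have h1 : ∀ ν ∈ exps m k, |((MvPowerSeries.coeff ν f : ℚ) : ℝ) * ((pw a ν : ℚ) : ℝ)| ≤ (C * ((h : ℝ) + 2)) ^ (k + 1) := by
    intro ν hν
    rw [mem_exps] at hν
    rw [abs_mul, mul_pow]
    refine mul_le_mul ?_ ?_ (abs_nonneg _) (by positivity)
    · have := hf ν
      rwa [hν] at this
    · have h2 : ((pw a ν : ℚ) : ℝ) = ((∏ i, a i ^ ν i : ℤ) : ℝ) := by
        unfold pw
        push_cast
        rfl
      rw [h2]
      exact prod_le ha (by omega)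
  refine (Finset.sum_le_card_nsmul _ _ _ h1).trans ?_
  rw [nsmul_eq_mul, mul_pow (2 ^ m)]
  exact mul_le_mul_of_nonneg_right (card_exps m k) (by positivity)

/-- the denominators of the restriction -/
lemma line_den {f : MvPowerSeries (Fin m) ℚ} {d k : ℕ}
    (hf : ∀ ν : Fin m →₀ ℕ, ∑ i, ν i ≤ k → ∃ z : ℤ, (d : ℚ) * MvPowerSeries.coeff ν f = z) (a : Fin m → ℤ) :
    IU d k (line a f) := by
  intro l hl
  rw [coeff_line, Finset.mul_sum]
  have h1 : ∀ ν ∈ exps m l, ∃ z : ℤ, (d : ℚ) * (MvPowerSeries.coeff ν f * pw a ν) = z := by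
    intro ν hν
    rw [mem_exps] at hν
    obtain ⟨z, hz⟩ := hf ν (by omega)
    refine ⟨z * ∏ i, a i ^ ν i, ?_⟩
    rw [← mul_assoc, hz]
    unfold pw
    push_cast
    rfl
  choose! z hz using h1
  refine ⟨∑ ν ∈ exps m l, z ν, ?_⟩
  push_cast
  exact Finset.sum_congr rfl fun ν hν => hz ν hν

/-- the restriction of the matrix to a line -/
noncomputable def lineM (a : Fin m → ℤ) (Z : Matrix (Fin n) (Fin n) (MvPowerSeries (Fin m) ℚ)) : Matrix (Fin n) (Fin n) ℚ⟦X⟧ :=
  Z.map (line a)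

lemma pow_absorb {c : ℝ} (hc : 1 ≤ c) : ∃ e : ℕ, ∀ x : ℝ, 2 ≤ x → c ≤ x ^ e := by
  obtain ⟨e, he⟩ := exists_nat_gt c
  refine ⟨e, fun x hx => he.le.trans ?_⟩
  calc (e : ℝ) ≤ 2 ^ e := by exact_mod_cast (Nat.lt_two_pow_self (n := e)).le
    _ ≤ x ^ e := pow_le_pow_left₀ (by norm_num) hx e

/-- **Restriction of a family to the lines through the origin.** -/
theorem base_sys {T : MvPolynomial (Fin m) ℤ} {A : Fin m → Fin n → Fin n → MvPolynomial (Fin m) ℤ}
    {Z W : Matrix (Fin n) (Fin n) (MvPowerSeries (Fin m) ℚ)} (hG : GBase T A Z W) (N : ℕ) :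
    ∃ q E₀ : ℕ, ∀ (h : ℕ) (a : Fin N → Fin m → ℤ), (∀ j i, |a j i| ≤ h) →
      ∃ (T' : Polynomial ℤ) (B' : Fin N → Fin n → Fin n → Polynomial ℤ), T'.coeff 0 ≠ 0 ∧
        Sys q (((h : ℝ) + 2) ^ E₀) T' B' (fun j => lineM (a j) Z) (fun j => lineM (a j) W) := by
  classical
  -- degrees
  obtain ⟨q₀, hqT, hqA⟩ : ∃ q : ℕ, T.totalDegree ≤ q ∧ ∀ i a b, (A i a b).totalDegree ≤ q := by
    refine ⟨T.totalDegree + ∑ i, ∑ a, ∑ b, (A i a b).totalDegree, by omega, fun i a b => ?_⟩
    have h1 : (A i a b).totalDegree ≤ ∑ b, (A i a b).totalDegree :=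
      Finset.single_le_sum (f := fun b => (A i a b).totalDegree) (fun _ _ => Nat.zero_le _) (Finset.mem_univ b)
    have h2 : ∑ b, (A i a b).totalDegree ≤ ∑ a, ∑ b, (A i a b).totalDegree :=
      Finset.single_le_sum (f := fun a => ∑ b, (A i a b).totalDegree) (fun _ _ => Nat.zero_le _) (Finset.mem_univ a)
    have h3 : ∑ a, ∑ b, (A i a b).totalDegree ≤ ∑ i, ∑ a, ∑ b, (A i a b).totalDegree :=
      Finset.single_le_sum (f := fun i => ∑ a, ∑ b, (A i a b).totalDegree) (fun _ _ => Nat.zero_le _) (Finset.mem_univ i)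
    omega
  -- sizes of the polynomials
  obtain ⟨cT, hcT1, hcT⟩ := lineP_L1 T hqT
  choose cA hcA1 hcA using fun (i : Fin m) (a b : Fin n) => lineP_L1 (A i a b) (hqA i a b)
  have hcA0 : 0 ≤ ∑ i, ∑ a, ∑ b, cA i a b := Finset.sum_nonneg fun i _ => Finset.sum_nonneg fun a _ =>
    Finset.sum_nonneg fun b _ => zero_le_one.trans (hcA1 i a b)
  set c₀ : ℝ := cT + ∑ i, ∑ a, ∑ b, cA i a b with hc₀
  have hc₀1 : 1 ≤ c₀ := by linarith
  have hcAle : ∀ i a b, cA i a b ≤ c₀ := by
    intro i a b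
    have h0 : ∀ i a b, 0 ≤ cA i a b := fun i a b => zero_le_one.trans (hcA1 i a b)
    have h1 : cA i a b ≤ ∑ b, cA i a b :=
      Finset.single_le_sum (f := fun b => cA i a b) (fun b _ => h0 i a b) (Finset.mem_univ b)
    have h2 : ∑ b, cA i a b ≤ ∑ a, ∑ b, cA i a b :=
      Finset.single_le_sum (f := fun a => ∑ b, cA i a b) (fun a _ => Finset.sum_nonneg fun b _ => h0 i a b) (Finset.mem_univ a)
    have h3 : ∑ a, ∑ b, cA i a b ≤ ∑ i, ∑ a, ∑ b, cA i a b :=
      Finset.single_le_sum (f := fun i => ∑ a, ∑ b, cA i a b)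
        (fun i _ => Finset.sum_nonneg fun a _ => Finset.sum_nonneg fun b _ => h0 i a b) (Finset.mem_univ i)
    linarith
  obtain ⟨C₁, hC₁⟩ := hG.size
  obtain ⟨C₂, hC₂⟩ := hG.den
  set C : ℝ := |C₁| + |C₂| + 1 with hC
  have hC1 : 1 ≤ C := by
    have := abs_nonneg C₁
    have := abs_nonneg C₂
    linarith
  have hCa : |C₁| ≤ C := by
    have := abs_nonneg C₂
    linarith
  have hCb : |C₂| ≤ C := by
    have := abs_nonneg C₁
    linarith
  -- absorbing constants
  obtain ⟨e₁, he₁⟩ := pow_absorb hc₀1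
  have h2m : (1 : ℝ) ≤ 2 ^ m * C := by
    have : (1 : ℝ) ≤ 2 ^ m := one_le_pow₀ (by norm_num)
    nlinarith
  obtain ⟨e₂, he₂⟩ := pow_absorb h2m
  obtain ⟨e₃, he₃⟩ := pow_absorb (c := (m : ℝ) + 1) (by have : (0 : ℝ) ≤ m := by positivity
                                                        linarith)
  refine ⟨q₀ * (N + 1), (e₁ + q₀) * (N + 1) + (e₂ + 1) + (e₃ + 1), fun h a ha => ?_⟩
  set x : ℝ := (h : ℝ) + 2 with hx
  have hx2 : 2 ≤ x := by
    have : (0 : ℝ) ≤ h := by positivity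
    linarith
  have hx1 : 1 ≤ x := by linarith
  set y : ℝ := x ^ (e₁ + q₀) with hy
  have hy1 : 1 ≤ y := one_le_pow₀ hx1
  have hLT : ∀ j, L1 q₀ y (lineP (a j) T) := fun j => (hcT h (a j) (ha j)).mono le_rfl (by
    rw [hy, pow_add]
    refine mul_le_mul_of_nonneg_right ?_ (by positivity)
    exact (show cT ≤ c₀ by linarith).trans (he₁ x hx2))
  have hLA : ∀ j i l b, L1 q₀ y (lineP (a j) (A i l b)) := fun j i l b => (hcA i l b h (a j) (ha j)).mono le_rfl (by
    rw [hy, pow_add]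
    refine mul_le_mul_of_nonneg_right ?_ (by positivity)
    exact (hcAle i l b).trans (he₁ x hx2))
  have hprod : ∀ s : Finset (Fin N), L1 (q₀ * s.card) (y ^ s.card) (∏ j ∈ s, lineP (a j) T) := by
    intro s
    induction s using Finset.induction_on with
    | empty => simpa using Pool.Agent.Y120.GH.L1.one
    | insert j s hj ih =>
      rw [Finset.prod_insert hj, Finset.card_insert_of_notMem hj]
      refine ((hLT j).mul ih).mono ?_ ?_
      · ring_nf
        omega
      · rw [pow_succ, mul_comm]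
  set T' : Polynomial ℤ := ∏ j, lineP (a j) T with hT'
  set B' : Fin N → Fin n → Fin n → Polynomial ℤ := fun j l b =>
    (∑ i, Polynomial.C (a j i) * lineP (a j) (A i l b)) * ∏ j' ∈ Finset.univ.erase j, lineP (a j') T with hB'
  set E : ℕ := (e₁ + q₀) * (N + 1) + (e₂ + 1) + (e₃ + 1) with hE
  have hyE : y ^ (N + 1) * x ^ (e₃ + 1) ≤ x ^ E := by
    rw [hy, ← pow_mul, ← pow_add]
    exact pow_le_pow_right₀ hx1 (by omega)
  have hLT' : L1 (q₀ * (N + 1)) (x ^ E) T' := by
    refine (hprod Finset.univ).mono ?_ ?_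
    · rw [Finset.card_univ, Fintype.card_fin]
      exact Nat.mul_le_mul_left _ (by omega)
    · rw [Finset.card_univ, Fintype.card_fin]
      refine le_trans ?_ hyE
      calc y ^ N ≤ y ^ (N + 1) := pow_le_pow_right₀ hy1 (by omega)
        _ ≤ _ := le_mul_of_one_le_right (by positivity) (one_le_pow₀ hx1)
  have hLB' : ∀ j l b, L1 (q₀ * (N + 1)) (x ^ E) (B' j l b) := by
    intro j l b
    have h1 : L1 q₀ (∑ i : Fin m, x * y) (∑ i, Polynomial.C (a j i) * lineP (a j) (A i l b)) := by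
      refine Pool.Agent.Y120.GH.L1.sum _ fun i _ => (hLA j i l b).C_mul (a j i) ?_
      have : ((|a j i| : ℤ) : ℝ) ≤ (h : ℝ) := by exact_mod_cast ha j i
      rw [Int.cast_abs] at this
      linarith
    refine (h1.mul (hprod (Finset.univ.erase j))).mono ?_ ?_
    · have : (Finset.univ.erase j).card ≤ N := by
        rw [Finset.card_erase_of_mem (Finset.mem_univ j), Finset.card_univ, Fintype.card_fin]
        omega
      calc q₀ + q₀ * (Finset.univ.erase j).card ≤ q₀ + q₀ * N := Nat.add_le_add_left (Nat.mul_le_mul_left _ this) _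
        _ = q₀ * (N + 1) := by ring
    · have h2 : (Finset.univ.erase j).card ≤ N := by
        rw [Finset.card_erase_of_mem (Finset.mem_univ j), Finset.card_univ, Fintype.card_fin]
        omega
      rw [Finset.sum_const, Finset.card_univ, Fintype.card_fin, nsmul_eq_mul]
      have h3 : (m : ℝ) ≤ x ^ e₃ := by
        have := he₃ x hx2
        linarith
      have h4 : y ^ (Finset.univ.erase j).card ≤ y ^ N := pow_le_pow_right₀ hy1 h2
      calc (m : ℝ) * (x * y) * y ^ (Finset.univ.erase j).card ≤ x ^ e₃ * (x * y) * y ^ N := by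
            refine mul_le_mul (mul_le_mul_of_nonneg_right h3 (by positivity)) h4 (by positivity) (by positivity)
        _ = y ^ (N + 1) * x ^ (e₃ + 1) := by ring
        _ ≤ _ := hyE
  have hCx : 2 ^ m * (C * x) ≤ x ^ E := by
    calc 2 ^ m * (C * x) = (2 ^ m * C) * x := by ring
      _ ≤ x ^ e₂ * x := mul_le_mul_of_nonneg_right (he₂ x hx2) (by linarith)
      _ = x ^ (e₂ + 1) := (pow_succ _ _).symm
      _ ≤ x ^ E := pow_le_pow_right₀ hx1 (by omega)
  have hCx' : C ≤ x ^ E := by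
    refine le_trans ?_ hCx
    have h5 : (1 : ℝ) ≤ 2 ^ m := one_le_pow₀ (by norm_num)
    calc C = 1 * (C * 1) := by ring
      _ ≤ 2 ^ m * (C * x) := mul_le_mul h5 (mul_le_mul_of_nonneg_left hx1 (by linarith)) (by linarith) (by positivity)
  have hsize : ∀ a' b' (ν : Fin m →₀ ℕ), |((MvPowerSeries.coeff ν (Z a' b') : ℚ) : ℝ)| ≤ C ^ (∑ i, ν i + 1) := by
    intro a' b' ν
    calc |((MvPowerSeries.coeff ν (Z a' b') : ℚ) : ℝ)| ≤ C₁ ^ (∑ i, ν i + 1) := hC₁ a' b' ν
      _ ≤ |C₁ ^ (∑ i, ν i + 1)| := le_abs_self _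
      _ = |C₁| ^ (∑ i, ν i + 1) := abs_pow _ _
      _ ≤ C ^ (∑ i, ν i + 1) := pow_le_pow_left₀ (abs_nonneg _) hCa _
  refine ⟨T', B', ?_, ?_⟩
  · have h1 : T'.coeff 0 = ∏ j : Fin N, (lineP (a j) T).coeff 0 := by
      have h2 : ∀ P : Polynomial ℤ, P.coeff 0 = Polynomial.constantCoeff P := fun P => rfl
      simp only [h2]
      rw [hT', map_prod]
    rw [h1, Finset.prod_ne_zero_iff]
    intro j _
    rw [lineP_coeff_zero]
    exact hG.T_ne
  · refine ⟨one_le_pow₀ hx1, hLT'.1, fun l => hLT'.coeff_le l, fun j l b => (hLB' j l b).1,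
      fun j l b k => (hLB' j l b).coeff_le k, fun j a' b' => ?_, fun j => ?_, fun j a' b' k => ?_, fun k => ?_⟩
    · -- the differential equation
      have h1 : T' = (∏ j' ∈ Finset.univ.erase j, lineP (a j') T) * lineP (a j) T := by
        rw [hT', Finset.prod_erase_mul _ _ (Finset.mem_univ j)]
      have h2 : ps (lineP (a j) T) * d⁄dX ℚ (line (a j) (Z a' b')) =
          ∑ l, line (a j) (Z a' l) * ps (∑ i, Polynomial.C (a j i) * lineP (a j) (A i l b')) := by
        rw [deriv_line, ← line_toMv, Finset.mul_sum]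
        have h3 : ∀ i, line (a j) (toMv T) * (PowerSeries.C (a j i : ℚ) * line (a j) (pdv i (Z a' b'))) =
            ∑ l, PowerSeries.C (a j i : ℚ) * (line (a j) (Z a' l) * ps (lineP (a j) (A i l b'))) := by
          intro i
          have h4 : line (a j) (toMv T) * (PowerSeries.C (a j i : ℚ) * line (a j) (pdv i (Z a' b'))) =
              PowerSeries.C (a j i : ℚ) * line (a j) (toMv T * pdv i (Z a' b')) := by
            rw [line_mul]
            ring
          rw [h4, hG.ode, ← Finset.mul_sum]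
          congr 1
          rw [← lineH_apply, map_sum]
          refine Finset.sum_congr rfl fun l _ => ?_
          rw [lineH_apply, line_mul, line_toMv]
        rw [Finset.sum_congr rfl fun i _ => h3 i, Finset.sum_comm]
        refine Finset.sum_congr rfl fun l _ => ?_
        rw [ps_sum, Finset.mul_sum]
        refine Finset.sum_congr rfl fun i _ => ?_
        rw [ps_mul, ps_C]
        have h5 : PowerSeries.C (a j i : ℚ) = ((a j i : ℤ) : ℚ⟦X⟧) := by simp
        rw [h5]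
        ring
      show ps T' * d⁄dX ℚ (line (a j) (Z a' b')) = ∑ l, line (a j) (Z a' l) * ps (B' j l b')
      rw [h1, ps_mul, mul_assoc, h2, Finset.mul_sum]
      refine Finset.sum_congr rfl fun l _ => ?_
      rw [hB', ps_mul]
      ring
    · -- the inverse
      show lineM (a j) W * lineM (a j) Z = 1
      have h1 : ∀ M : Matrix (Fin n) (Fin n) (MvPowerSeries (Fin m) ℚ), lineM (a j) M = (lineH (a j)).mapMatrix M := fun M => rfl
      rw [h1, h1, ← map_mul, hG.inv, map_one]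
    · refine (line_size hC1 (hsize a' b') (ha j) k).trans ?_
      exact pow_le_pow_left₀ (by positivity) hCx _
    · obtain ⟨d, hd0, hd, hd'⟩ := hC₂ k
      refine ⟨d, hd0, ?_, fun j a' b' => ⟨line_den (fun ν hν => (hd' a' b' ν hν).1) (a j),
        line_den (fun ν hν => (hd' a' b' ν hν).2) (a j)⟩⟩
      calc (d : ℝ) ≤ C₂ ^ (k + 1) := hd
        _ ≤ |C₂ ^ (k + 1)| := le_abs_self _
        _ = |C₂| ^ (k + 1) := abs_pow _ _
        _ ≤ C ^ (k + 1) := pow_le_pow_left₀ (abs_nonneg _) hCb _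
        _ ≤ (x ^ E) ^ (k + 1) := pow_le_pow_left₀ (by linarith) hCx' _

end Pool.Agent.H885
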