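import Pool.Agent.H885.LineF
import Pool.Graph.R_seed8.Y120.H.Cx

/-!
# Families over number fields over bases of any dimension: systems on the lines through the origin
-/

set_option autoImplicit false
set_option linter.unusedSectionVars false
set_option linter.unusedVariables false

open PowerSeries NumberField

namespace Pool.Agent.H885

open Pool.Agent.Y113
open Pool.Agent.Y120.GH (L1 cx Cw norm_coeff_cx)

variable {m n : ℕ} {F : Type} [Field F] [NumberField F]

/-- the inclusion -/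
noncomputable abbrev inF : 𝓞 F →+* F := algebraMap (𝓞 F) F

/-- the restriction of a polynomial to a line -/
noncomputable def lineFP (a : Fin m → 𝓞 F) (P : MvPolynomial (Fin m) (𝓞 F)) : Polynomial (𝓞 F) :=
  MvPolynomial.aeval (fun i => Polynomial.C (a i) * Polynomial.X) P

/-- a polynomial as a power series -/
noncomputable def toMvF (P : MvPolynomial (Fin m) (𝓞 F)) : MvPowerSeries (Fin m) F :=
  ((P.map (algebraMap (𝓞 F) F) : MvPolynomial (Fin m) F) : MvPowerSeries (Fin m) F)

theorem toF_mul (p q : Polynomial (𝓞 F)) : toF (p * q) = toF p * toF q := by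
  unfold toF
  rw [Polynomial.map_mul, Polynomial.coe_mul]

theorem toF_add (p q : Polynomial (𝓞 F)) : toF (p + q) = toF p + toF q := by
  unfold toF
  rw [Polynomial.map_add, Polynomial.coe_add]

theorem toF_C (c : 𝓞 F) : toF (Polynomial.C c) = PowerSeries.C (inF c) := by
  unfold toF
  rw [Polynomial.map_C, Polynomial.coe_C]

theorem toF_X : toF (Polynomial.X : Polynomial (𝓞 F)) = PowerSeries.X := by
  unfold toF
  rw [Polynomial.map_X, Polynomial.coe_X]

theorem toF_zero : toF (0 : Polynomial (𝓞 F)) = 0 := by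
  unfold toF
  rw [Polynomial.map_zero, Polynomial.coe_zero]

theorem toF_sum {κ : Type} (s : Finset κ) (f : κ → Polynomial (𝓞 F)) : toF (∑ i ∈ s, f i) = ∑ i ∈ s, toF (f i) := by
  classical
  induction s using Finset.induction_on with
  | empty => rw [Finset.sum_empty, Finset.sum_empty, toF_zero]
  | insert i s hi ih => rw [Finset.sum_insert hi, Finset.sum_insert hi, toF_add, ih]

lemma lineF_toMv (a : Fin m → 𝓞 F) (P : MvPolynomial (Fin m) (𝓞 F)) :
    lineF (fun i => inF (a i)) (toMvF P) = toF (lineFP a P) := by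
  induction P using MvPolynomial.induction_on with
  | C c =>
    have h1 : toMvF (MvPolynomial.C c : MvPolynomial (Fin m) (𝓞 F)) = MvPowerSeries.C (inF c) := by
      unfold toMvF
      rw [MvPolynomial.map_C, MvPolynomial.coe_C]
    rw [h1, lineF_C]
    unfold lineFP
    rw [MvPolynomial.aeval_C]
    exact (toF_C c).symm
  | add p q hp hq =>
    have h1 : toMvF (p + q) = toMvF p + toMvF q := by
      unfold toMvF
      rw [map_add, MvPolynomial.coe_add]
    have h2 : lineFP a (p + q) = lineFP a p + lineFP a q := by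
      unfold lineFP
      rw [map_add]
    rw [h1, lineF_add, hp, hq, h2, toF_add]
  | mul_X p i hp =>
    have h1 : toMvF (p * MvPolynomial.X i) = toMvF p * MvPowerSeries.X i := by
      unfold toMvF
      rw [map_mul, MvPolynomial.coe_mul, MvPolynomial.map_X, MvPolynomial.coe_X]
    have h2 : lineFP a (p * MvPolynomial.X i) = lineFP a p * (Polynomial.C (a i) * Polynomial.X) := by
      unfold lineFP
      rw [map_mul, MvPolynomial.aeval_X]
    rw [h1, lineF_mul, hp, h2, toF_mul, toF_mul, lineF_X, toF_C, toF_X]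

lemma lineFP_eq (a : Fin m → 𝓞 F) (P : MvPolynomial (Fin m) (𝓞 F)) :
    lineFP a P = ∑ ν ∈ P.support, Polynomial.C (P.coeff ν * ∏ i, a i ^ ν i) * Polynomial.X ^ (∑ i, ν i) := by
  unfold lineFP
  rw [MvPolynomial.aeval_def, MvPolynomial.eval₂_eq']
  refine Finset.sum_congr rfl fun ν _ => ?_
  have h1 : (algebraMap (𝓞 F) (Polynomial (𝓞 F))) (P.coeff ν) = Polynomial.C (P.coeff ν) := rfl
  rw [h1, map_mul, map_prod, mul_assoc]
  congr 1
  rw [← Finset.prod_pow_eq_pow_sum, ← Finset.prod_mul_distrib]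
  refine Finset.prod_congr rfl fun i _ => ?_
  rw [mul_pow, map_pow]

theorem house_one_le : house (1 : F) ≤ 1 := by
  have h1 := house_intCast (K := F) 1
  rw [Int.cast_one] at h1
  rw [h1]
  simp

theorem house_prod_le' {κ : Type} (s : Finset κ) (f : κ → F) : house (∏ i ∈ s, f i) ≤ ∏ i ∈ s, house (f i) := by
  classical
  induction s using Finset.induction_on with
  | empty =>
    rw [Finset.prod_empty, Finset.prod_empty]
    exact house_one_le
  | insert i s hi ih =>
    rw [Finset.prod_insert hi, Finset.prod_insert hi]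
    exact (house_mul_le _ _).trans (mul_le_mul_of_nonneg_left ih (house_nonneg _))

lemma prod_leF {a : Fin m → F} {h : ℝ} (hh : 0 ≤ h) (ha : ∀ i, house (a i) ≤ h) {q : ℕ} {ν : Fin m →₀ ℕ} (hν : ∑ i, ν i ≤ q) :
    house (pwF a ν) ≤ (h + 2) ^ q := by
  unfold pwF
  refine (house_prod_le' _ _).trans ?_
  have h1 : ∀ i ∈ (Finset.univ : Finset (Fin m)), house (a i ^ ν i) ≤ (h + 2) ^ ν i := by
    intro i _
    have h2 : (0 : ℝ) ≤ house (a i) := house_nonneg _
    have h3 : house (a i) ^ ν i ≤ (h + 2) ^ ν i := pow_le_pow_left₀ h2 (by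
      have := ha i
      linarith) _
    exact (house_pow_le (a i) (ν i)).trans h3
  refine (Finset.prod_le_prod (fun i _ => house_nonneg _) h1).trans ?_
  rw [Finset.prod_pow_eq_pow_sum]
  exact pow_le_pow_right₀ (by linarith) hν

lemma support_cardF {R : Type} [CommRing R] {q : ℕ} (P : MvPolynomial (Fin m) R) (hq : P.totalDegree ≤ q) :
    P.support.card ≤ nmon m q := by
  classical
  have h1 : P.support ⊆ (Finset.range (q + 1)).biUnion fun k => exps m k := by
    intro ν hν
    rw [Finset.mem_biUnion]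
    refine ⟨∑ i, ν i, ?_, mem_exps.2 rfl⟩
    rw [Finset.mem_range]
    have := MvPolynomial.le_totalDegree hν
    rw [Finsupp.sum_fintype _ _ (fun _ => rfl)] at this
    omega
  exact (Finset.card_le_card h1).trans Finset.card_biUnion_le

lemma lineFP_deg (a : Fin m → 𝓞 F) (P : MvPolynomial (Fin m) (𝓞 F)) {q : ℕ} (hq : P.totalDegree ≤ q) :
    (lineFP a P).natDegree ≤ q := by
  rw [lineFP_eq]
  refine Polynomial.natDegree_sum_le_of_forall_le _ _ fun ν hν => ?_
  refine (Polynomial.natDegree_C_mul_X_pow_le _ _).trans ?_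
  refine le_trans ?_ hq
  have := MvPolynomial.le_totalDegree hν
  rwa [Finsupp.sum_fintype _ _ (fun _ => rfl)] at this

lemma lineFP_house (P : MvPolynomial (Fin m) (𝓞 F)) {q : ℕ} (hq : P.totalDegree ≤ q) {H : ℝ} (hH : 0 ≤ H)
    (hP : ∀ ν, house (inF (P.coeff ν)) ≤ H) {h : ℝ} (hh : 0 ≤ h) {a : Fin m → 𝓞 F} (ha : ∀ i, house (inF (a i)) ≤ h) (k : ℕ) :
    house (inF ((lineFP a P).coeff k)) ≤ ((nmon m q : ℝ) + 1) * H * (h + 2) ^ q := by
  classical
  rw [lineFP_eq, Polynomial.finsetSum_coeff, map_sum]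
  refine (house_sum_le_sum_house _ _).trans ?_
  have h1 : ∀ ν ∈ P.support, house (inF ((Polynomial.C (P.coeff ν * ∏ i, a i ^ ν i) * Polynomial.X ^ (∑ i, ν i)).coeff k)) ≤
      H * (h + 2) ^ q := by
    intro ν hν
    have hdeg : ∑ i, ν i ≤ q := by
      refine le_trans ?_ hq
      have := MvPolynomial.le_totalDegree hν
      rwa [Finsupp.sum_fintype _ _ (fun _ => rfl)] at this
    rw [Polynomial.coeff_C_mul_X_pow]
    split_ifs
    · rw [map_mul]
      refine (house_mul_le _ _).trans ?_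
      refine mul_le_mul (hP ν) ?_ (house_nonneg _) hH
      have h2 : inF (∏ i, a i ^ ν i) = pwF (fun i => inF (a i)) ν := by
        unfold pwF
        rw [map_prod]
        exact Finset.prod_congr rfl fun i _ => map_pow _ _ _
      rw [h2]
      exact prod_leF hh ha hdeg
    · rw [map_zero]
      have h3 := house_intCast (K := F) 0
      rw [Int.cast_zero] at h3
      rw [h3]
      simp only [Int.cast_zero, abs_zero]
      positivity
  refine (Finset.sum_le_card_nsmul _ _ _ h1).trans ?_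
  rw [nsmul_eq_mul, mul_assoc]
  refine mul_le_mul_of_nonneg_right ?_ (by positivity)
  have : ((P.support.card : ℕ) : ℝ) ≤ (nmon m q : ℝ) := by exact_mod_cast support_cardF P hq
  linarith

/-- matrices of G-functions in `m` variables over a number field which solve connections -/
structure GFam (q : ℕ) (H : ℝ) (T : MvPolynomial (Fin m) (𝓞 F)) (A : Fin m → Fin n → Fin n → MvPolynomial (Fin m) (𝓞 F))
    (Z W : Matrix (Fin n) (Fin n) (MvPowerSeries (Fin m) F)) : Prop where
  degT : T.totalDegree ≤ q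
  sizeT : ∀ ν, house (inF (T.coeff ν)) ≤ H
  degA : ∀ i a b, (A i a b).totalDegree ≤ q
  sizeA : ∀ i a b ν, house (inF ((A i a b).coeff ν)) ≤ H
  ode : ∀ i a b, toMvF T * pdvF i (Z a b) = ∑ l, Z a l * toMvF (A i l b)
  inv : W * Z = 1
  size : ∀ a b (ν : Fin m →₀ ℕ), house (MvPowerSeries.coeff ν (Z a b)) ≤ H ^ (∑ i, ν i + 1)
  den : ∀ k : ℕ, ∃ d : ℕ, 0 < d ∧ (d : ℝ) ≤ H ^ (k + 1) ∧ ∀ a b (ν : Fin m →₀ ℕ), ∑ i, ν i ≤ k →
    IsIntegral ℤ ((d : F) * MvPowerSeries.coeff ν (Z a b)) ∧ IsIntegral ℤ ((d : F) * MvPowerSeries.coeff ν (W a b))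

/-- the restriction of the matrix to a line -/
noncomputable def lineFM (a : Fin m → 𝓞 F) (Z : Matrix (Fin n) (Fin n) (MvPowerSeries (Fin m) F)) : Matrix (Fin n) (Fin n) F⟦X⟧ :=
  Z.map (lineF fun i => inF (a i))

/-- the size of the restriction -/
lemma lineF_size {f : MvPowerSeries (Fin m) F} {C : ℝ} (hC : 1 ≤ C)
    (hf : ∀ ν : Fin m →₀ ℕ, house (MvPowerSeries.coeff ν f) ≤ C ^ (∑ i, ν i + 1)) {h : ℝ} (hh : 0 ≤ h) {a : Fin m → 𝓞 F}
    (ha : ∀ i, house (inF (a i)) ≤ h) (k : ℕ) : house (coeff k (lineF (fun i => inF (a i)) f)) ≤ (2 ^ m * (C * (h + 2))) ^ (k + 1) := by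
  rw [coeff_lineF]
  refine (house_sum_le_sum_house _ _).trans ?_
  have h1 : ∀ ν ∈ exps m k, house (MvPowerSeries.coeff ν f * pwF (fun i => inF (a i)) ν) ≤ (C * (h + 2)) ^ (k + 1) := by
    intro ν hν
    rw [mem_exps] at hν
    refine (house_mul_le _ _).trans ?_
    rw [mul_pow]
    refine mul_le_mul ?_ ?_ (house_nonneg _) (by positivity)
    · have := hf ν
      rwa [hν] at this
    · exact prod_leF hh ha (by omega)
  refine (Finset.sum_le_card_nsmul _ _ _ h1).trans ?_
  rw [nsmul_eq_mul, mul_pow (2 ^ m)]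
  exact mul_le_mul_of_nonneg_right (card_exps m k) (by positivity)

/-- the denominators of the restriction -/
lemma lineF_den {f : MvPowerSeries (Fin m) F} {d k : ℕ}
    (hf : ∀ ν : Fin m →₀ ℕ, ∑ i, ν i ≤ k → IsIntegral ℤ ((d : F) * MvPowerSeries.coeff ν f)) (a : Fin m → 𝓞 F) (l : ℕ) (hl : l ≤ k) :
    IsIntegral ℤ ((d : F) * coeff l (lineF (fun i => inF (a i)) f)) := by
  rw [coeff_lineF, Finset.mul_sum]
  refine IsIntegral.sum _ fun ν hν => ?_
  rw [mem_exps] at hν
  rw [← mul_assoc]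
  refine (hf ν (by omega)).mul ?_
  unfold pwF
  refine IsIntegral.prod _ fun i _ => ?_
  exact ((a i).2 : IsIntegral ℤ _).pow _

/-- **Restriction of families to the lines through the origin.** -/
theorem base_F (F : Type) [Field F] [NumberField F] (m n q : ℕ) : ∃ E : ℕ, ∀ (H : ℝ), 1 ≤ H → ∀ (T : MvPolynomial (Fin m) (𝓞 F))
    (A : Fin m → Fin n → Fin n → MvPolynomial (Fin m) (𝓞 F)) (Z W : Matrix (Fin n) (Fin n) (MvPowerSeries (Fin m) F)),
    GFam q H T A Z W → ∀ (h : ℝ), 0 ≤ h → ∀ a : Fin m → 𝓞 F, (∀ i, house (inF (a i)) ≤ h) →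
    lineF (fun i => inF (a i)) (toMvF T) ≠ 0 →
    FamF q ((2 * H * (h + 2)) ^ E) (lineFP a T) (fun l b => ∑ i, Polynomial.C (a i) * lineFP a (A i l b)) (lineFM a Z) (lineFM a W) := by
  classical
  obtain ⟨e₁, he₁⟩ := pow_absorb (c := (nmon m q : ℝ) + 1) (by
    have : (0 : ℝ) ≤ nmon m q := by positivity
    linarith)
  obtain ⟨e₂, he₂⟩ := pow_absorb (c := (2 : ℝ) ^ m) (one_le_pow₀ (by norm_num))
  obtain ⟨e₃, he₃⟩ := pow_absorb (c := (m : ℝ) + 1) (by
    have : (0 : ℝ) ≤ m := by positivity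
    linarith)
  refine ⟨(e₁ + 1 + q) + (e₂ + 2) + (e₃ + 1), fun H hH T A Z W hG h hh a ha hTa => ?_⟩
  set x : ℝ := 2 * H * (h + 2) with hx
  have hhx : h + 2 ≤ x := by
    rw [hx]
    nlinarith
  have hHx : H ≤ x := by
    rw [hx]
    nlinarith
  have hx2 : 2 ≤ x := by linarith
  have hx1 : 1 ≤ x := by linarith
  set y : ℝ := x ^ (e₁ + 1 + q) with hy
  have hL : ∀ (P : MvPolynomial (Fin m) (𝓞 F)), P.totalDegree ≤ q → (∀ ν, house (inF (P.coeff ν)) ≤ H) →
      ∀ k, house (inF ((lineFP a P).coeff k)) ≤ y := by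
    intro P hP1 hP2 k
    refine (lineFP_house P hP1 (by linarith) hP2 hh ha k).trans ?_
    rw [hy, pow_add, pow_add, pow_one]
    refine mul_le_mul (mul_le_mul (he₁ x hx2) hHx (by linarith) (by positivity))
      (pow_le_pow_left₀ (by positivity) hhx _) (by positivity) (by positivity)
  set E : ℕ := (e₁ + 1 + q) + (e₂ + 2) + (e₃ + 1) with hE
  have hyE : y ≤ x ^ E := pow_le_pow_right₀ hx1 (by omega)
  have hCx : 2 ^ m * (H * (h + 2)) ≤ x ^ E := by
    calc 2 ^ m * (H * (h + 2)) ≤ x ^ e₂ * (x * x) := by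
          refine mul_le_mul (he₂ x hx2) (mul_le_mul hHx hhx (by positivity) (by positivity)) (by positivity) (by positivity)
      _ = x ^ (e₂ + 2) := by ring
      _ ≤ x ^ E := pow_le_pow_right₀ hx1 (by omega)
  have hCx' : H ≤ x ^ E := by
    calc H ≤ x ^ 1 := by rw [pow_one]; exact hHx
      _ ≤ x ^ E := pow_le_pow_right₀ hx1 (by omega)
  refine ⟨fun h0 => hTa ?_, lineFP_deg a T hG.degT, fun k => (hL T hG.degT hG.sizeT k).trans hyE, fun l b => ?_, fun l b k => ?_,
    fun a' b' => ?_, ?_, fun a' b' k => ?_, fun k => ?_⟩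
  · rw [lineF_toMv, h0, toF_zero]
  · refine Polynomial.natDegree_sum_le_of_forall_le _ _ fun i _ => ?_
    refine (Polynomial.natDegree_C_mul_le _ _).trans ?_
    exact lineFP_deg a _ (hG.degA i l b)
  · show house (inF ((∑ i, Polynomial.C (a i) * lineFP a (A i l b)).coeff k)) ≤ _
    rw [Polynomial.finsetSum_coeff, map_sum]
    refine (house_sum_le_sum_house _ _).trans ?_
    have h1 : ∀ i ∈ (Finset.univ : Finset (Fin m)), house (inF ((Polynomial.C (a i) * lineFP a (A i l b)).coeff k)) ≤ x * y := by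
      intro i _
      rw [Polynomial.coeff_C_mul, map_mul]
      refine (house_mul_le _ _).trans (mul_le_mul ((ha i).trans (by linarith)) (hL _ (hG.degA i l b) (hG.sizeA i l b) k)
        (house_nonneg _) (by linarith))
    refine (Finset.sum_le_card_nsmul _ _ _ h1).trans ?_
    rw [Finset.card_univ, Fintype.card_fin, nsmul_eq_mul]
    have h3 : (m : ℝ) ≤ x ^ e₃ := by
      have := he₃ x hx2
      linarith
    calc (m : ℝ) * (x * y) ≤ x ^ e₃ * (x * y) := mul_le_mul_of_nonneg_right h3 (by positivity)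
      _ = x ^ (e₃ + 1 + (e₁ + 1 + q)) := by
        rw [hy]
        ring
      _ ≤ x ^ E := pow_le_pow_right₀ hx1 (by omega)
  · -- the differential equation
    show toF (lineFP a T) * d⁄dX F (lineF (fun i => inF (a i)) (Z a' b')) =
      ∑ l, lineF (fun i => inF (a i)) (Z a' l) * toF (∑ i, Polynomial.C (a i) * lineFP a (A i l b'))
    rw [deriv_lineF, ← lineF_toMv, Finset.mul_sum]
    have h3 : ∀ i, lineF (fun i => inF (a i)) (toMvF T) * (PowerSeries.C (inF (a i)) * lineF (fun i => inF (a i)) (pdvF i (Z a' b'))) =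
        ∑ l, PowerSeries.C (inF (a i)) * (lineF (fun i => inF (a i)) (Z a' l) * toF (lineFP a (A i l b'))) := by
      intro i
      have h4 : lineF (fun i => inF (a i)) (toMvF T) * (PowerSeries.C (inF (a i)) * lineF (fun i => inF (a i)) (pdvF i (Z a' b'))) =
          PowerSeries.C (inF (a i)) * lineF (fun i => inF (a i)) (toMvF T * pdvF i (Z a' b')) := by
        rw [lineF_mul]
        ring
      rw [h4, hG.ode, ← Finset.mul_sum]
      congr 1
      rw [← lineFH_apply, map_sum]
      refine Finset.sum_congr rfl fun l _ => ?_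
      rw [lineFH_apply, lineF_mul, lineF_toMv]
    rw [Finset.sum_congr rfl fun i _ => h3 i, Finset.sum_comm]
    refine Finset.sum_congr rfl fun l _ => ?_
    rw [toF_sum, Finset.mul_sum]
    refine Finset.sum_congr rfl fun i _ => ?_
    rw [toF_mul, toF_C]
    ring
  · -- the inverse
    have h1 : ∀ M : Matrix (Fin n) (Fin n) (MvPowerSeries (Fin m) F), lineFM a M = (lineFH fun i => inF (a i)).mapMatrix M := fun M => rfl
    rw [h1, h1, ← map_mul, hG.inv, map_one]
  · refine (lineF_size hH (hG.size a' b') hh ha k).trans ?_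
    exact pow_le_pow_left₀ (by positivity) hCx _
  · obtain ⟨d, hd0, hd, hd'⟩ := hG.den k
    refine ⟨d, hd0, hd.trans (pow_le_pow_left₀ (by linarith) hCx' _), fun a' b' l hl =>
      ⟨lineF_den (fun ν hν => (hd' a' b' ν hν).1) a l hl, lineF_den (fun ν hν => (hd' a' b' ν hν).2) a l hl⟩⟩

/-- the radius of convergence -/
theorem rs_mem {C : ℝ} (hC : 0 ≤ C) {Z : Matrix (Fin n) (Fin n) F⟦X⟧} (h : ∀ a b k, house (coeff k (Z a b)) ≤ C ^ (k + 1))
    (i j : Fin (n * dg F)) : cx (rsM Z i j) ∈ Cw C := by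
  obtain ⟨c, hc1, hc⟩ := MF_bound F
  intro r hr hrC
  have h1 : r * C < 1 := hrC
  refine Summable.of_nonneg_of_le (fun m => by positivity) (fun m => ?_)
    ((summable_geometric_of_lt_one (mul_nonneg hr hC) h1).mul_left (c * C))
  rw [norm_coeff_cx]
  have h2 : |((coeff m (rsM Z i j) : ℚ) : ℝ)| ≤ c * C ^ (m + 1) := by
    unfold rsM
    rw [coeff_RS]
    exact (hc _ _ _).trans (mul_le_mul_of_nonneg_left (h _ _ _) (by linarith))
  calc |((coeff m (rsM Z i j) : ℚ) : ℝ)| * r ^ m ≤ (c * C ^ (m + 1)) * r ^ m := mul_le_mul_of_nonneg_right h2 (by positivity)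
    _ = c * C * (r * C) ^ m := by rw [mul_pow]; ring

end Pool.Agent.H885
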