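import Pool.Agent.H885.RelL
import Pool.Graph.R_seed8.Y119.HY.GalL

/-!
# Systems with a nilpotent residue at the origin: uniform constants in Galochkin's condition
-/

set_option autoImplicit false
set_option linter.unusedSectionVars false
set_option linter.unusedVariables false

open PowerSeries Finset.HasAntidiagonal

namespace Pool.Agent.H885

open Pool.Agent.Y113 Pool.Agent.Y113.HGG
open Pool.Agent.Y119.HY (choose_step choose_zero' choose_mem choose_mem' choose_aeval SPo SPo_coeff IP.mul' IP.mul_right' lin_le_pow)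
open Pool.Agent.Y119.HZ (YY YY_ah YY_IS PP PP_coe hd_PP)

variable {n : ℕ}

/-- fundamental matrices `x ^ N Z` of systems with a nilpotent residue, with complexity `H` -/
structure SysN (q : ℕ) (H : ℝ) (T : Polynomial ℤ) (A : Fin n → Fin n → Polynomial ℤ) (R : Matrix (Fin n) (Fin n) ℤ)
    (Z W : Matrix (Fin n) (Fin n) ℚ⟦X⟧) : Prop where
  one_le : 1 ≤ H
  degT : T.natDegree ≤ q
  sizeT : ∀ l, |((T.coeff l : ℤ) : ℝ)| ≤ H
  degA : ∀ a b, (A a b).natDegree ≤ q
  sizeA : ∀ a b l, |(((A a b).coeff l : ℤ) : ℝ)| ≤ H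
  nil : R ^ n = 0
  sizeR : ∀ a b, |((R a b : ℤ) : ℝ)| ≤ H
  ode : ∀ a b, ps T * (X * d⁄dX ℚ (Z a b) + ∑ c, C (R a c : ℚ) * Z c b) = ∑ l, Z a l * ps (A l b)
  inv : W * Z = 1
  size : ∀ a b m, |((coeff m (Z a b) : ℚ) : ℝ)| ≤ H ^ (m + 1)
  den : ∀ m, ∃ d : ℕ, 0 < d ∧ (d : ℝ) ≤ H ^ (m + 1) ∧ ∀ a b, IU d m (Z a b) ∧ IU d m (W a b)

/-- denominators of the binomial coefficients of an integral nilpotent matrix -/
lemma choose_denZ {M : Matrix (Fin n) (Fin n) ℤ} (hM : M ^ n = 0) {f : Polynomial ℚ} {L : ℕ} (hf : f ∈ SPo L) (i j : Fin n) :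
    ∃ a : ℤ, ((1 * L ^ n : ℕ) : ℚ) * (Polynomial.aeval (M.map (Int.castRingHom ℚ)) f) i j = a := by
  classical
  set N : Matrix (Fin n) (Fin n) ℚ := M.map (Int.castRingHom ℚ) with hN
  have hpow : ∀ e, N ^ e = (M ^ e).map (Int.castRingHom ℚ) := fun e =>
    (map_pow (RingHom.mapMatrix (Int.castRingHom ℚ)) M e).symm
  have h1 : (Polynomial.aeval N f) i j = ∑ e ∈ Finset.range (f.natDegree + 1), f.coeff e * (N ^ e) i j := by
    rw [Polynomial.aeval_eq_sum_range, Matrix.sum_apply]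
    rfl
  rw [h1, Finset.mul_sum]
  have h2 : ∀ e ∈ Finset.range (f.natDegree + 1), ∃ a : ℤ, ((1 * L ^ n : ℕ) : ℚ) * (f.coeff e * (N ^ e) i j) = a := by
    intro e _
    rcases Nat.lt_or_ge e n with he | he
    · obtain ⟨a, ha⟩ := SPo_coeff hf e
      refine ⟨((L : ℤ) ^ (n - e) * a) * (M ^ e) i j, ?_⟩
      have e3 : (L : ℚ) ^ n = (L : ℚ) ^ (n - e) * (L : ℚ) ^ e := by rw [← pow_add]; congr 1; omega
      have e4 : (N ^ e) i j = (((M ^ e) i j : ℤ) : ℚ) := by
        rw [hpow]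
        rfl
      rw [e4]
      push_cast
      rw [← ha, e3]
      ring
    · refine ⟨0, ?_⟩
      have e5 : M ^ e = 0 := pow_eq_zero_of_le he hM
      rw [hpow, e5]
      simp
  choose! a ha using h2
  refine ⟨∑ e ∈ Finset.range (f.natDegree + 1), a e, ?_⟩
  rw [Int.cast_sum]
  exact Finset.sum_congr rfl ha

/-- sizes of the binomial coefficients of a matrix -/
lemma choose_sizeU (M : Matrix (Fin n) (Fin n) ℚ) {ν : ℝ} (hν0 : 0 ≤ ν) (hν : ∀ i j, |((M i j : ℚ) : ℝ)| ≤ ν) (s : ℕ) :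
    ∀ i j, |((Ring.choose M s i j : ℚ) : ℝ)| ≤ ((n : ℝ) * (ν + 1) + 1) ^ (s + 1) := by
  set A : ℝ := n * (ν + 1) + 1 with hA
  have hn0 : (0 : ℝ) ≤ n := by positivity
  have hA1 : 1 ≤ A := by
    have : 0 ≤ (n : ℝ) * (ν + 1) := by positivity
    linarith
  induction s with
  | zero =>
    intro i j
    rw [choose_zero', Matrix.one_apply]
    split_ifs <;> simp <;> linarith
  | succ s ih =>
    intro i j
    have h1 := congrFun (congrFun (choose_step M s) i) j
    rw [Matrix.smul_apply, Matrix.mul_apply, nsmul_eq_mul] at h1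
    have hs : (0 : ℝ) < (s : ℝ) + 1 := by positivity
    have h2 : ((s : ℝ) + 1) * ((Ring.choose M (s + 1) i j : ℚ) : ℝ) =
        ∑ l, ((Ring.choose M s i l : ℚ) : ℝ) * (((M - (s : Matrix (Fin n) (Fin n) ℚ)) l j : ℚ) : ℝ) := by
      exact_mod_cast h1
    have h3 : ∀ l, |(((M - (s : Matrix (Fin n) (Fin n) ℚ)) l j : ℚ) : ℝ)| ≤ (ν + 1) * ((s : ℝ) + 1) := by
      intro l
      rw [Matrix.sub_apply]
      have e1 : |(((s : Matrix (Fin n) (Fin n) ℚ) l j : ℚ) : ℝ)| ≤ s := by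
        rw [← Matrix.diagonal_natCast, Matrix.diagonal_apply]
        split_ifs
        · simp
        · simp
      push_cast
      refine (abs_sub _ _).trans ?_
      have e2 := hν l j
      have e3 : (0 : ℝ) ≤ s := by positivity
      nlinarith
    have h4 : ((s : ℝ) + 1) * |((Ring.choose M (s + 1) i j : ℚ) : ℝ)| ≤ ((s : ℝ) + 1) * A ^ (s + 1 + 1) := by
      rw [← abs_of_pos hs, ← abs_mul, abs_of_pos hs, h2]
      refine (Finset.abs_sum_le_sum_abs _ _).trans ?_
      calc ∑ l, |((Ring.choose M s i l : ℚ) : ℝ) * (((M - (s : Matrix (Fin n) (Fin n) ℚ)) l j : ℚ) : ℝ)|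
          ≤ ∑ _l : Fin n, A ^ (s + 1) * ((ν + 1) * ((s : ℝ) + 1)) := by
            refine Finset.sum_le_sum fun l _ => ?_
            rw [abs_mul]
            exact mul_le_mul (ih i l) (h3 l) (abs_nonneg _) (by positivity)
        _ = (n * (ν + 1)) * (((s : ℝ) + 1) * A ^ (s + 1)) := by
            rw [Finset.sum_const, Finset.card_univ, Fintype.card_fin, nsmul_eq_mul]
            ring
        _ ≤ A * (((s : ℝ) + 1) * A ^ (s + 1)) := mul_le_mul_of_nonneg_right (by rw [hA]; linarith) (by positivity)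
        _ = _ := by ring
    exact le_of_mul_le_mul_left h4 hs

section
variable {q : ℕ} {H : ℝ} {T : Polynomial ℤ} {A : Fin n → Fin n → Polynomial ℤ} {R : Matrix (Fin n) (Fin n) ℤ}
    {Z W : Matrix (Fin n) (Fin n) ℚ⟦X⟧}

/-- the residue over `ℚ`, transposed -/
noncomputable def resQ (R : Matrix (Fin n) (Fin n) ℤ) : Matrix (Fin n) (Fin n) ℚ := R.transpose.map (Int.castRingHom ℚ)

lemma resQ_apply (R : Matrix (Fin n) (Fin n) ℤ) (i j : Fin n) : resQ R i j = (R j i : ℚ) := rfl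

lemma resQ_pow (hR : R ^ n = 0) : resQ R ^ n = 0 := by
  have h1 := map_pow (RingHom.mapMatrix (Int.castRingHom ℚ)) R.transpose n
  rw [← Matrix.transpose_pow, hR, Matrix.transpose_zero, map_zero] at h1
  exact h1.symm

lemma SysN.ode' (h : SysN q H T A R Z W) (i j : Fin n) :
    ps T * (X * d⁄dX ℚ (Z.transpose i j) + ∑ k, Z.transpose i k * C (resQ R k j)) =
      ∑ k, ps ((fun i k => A k i) i k) * Z.transpose k j := by
  have h1 := h.ode j i
  have h2 : ∑ k, Z.transpose i k * C (resQ R k j) = ∑ k, C (R j k : ℚ) * Z k i :=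
    Finset.sum_congr rfl fun k _ => mul_comm _ _
  have h3 : ∑ k, ps ((fun i k => A k i) i k) * Z.transpose k j = ∑ k, Z j k * ps (A k i) :=
    Finset.sum_congr rfl fun k _ => mul_comm _ _
  rw [h2, h3, ← h1]
  rfl

lemma SysN.inv' (h : SysN q H T A R Z W) : Z.transpose * W.transpose = 1 := by
  rw [← Matrix.transpose_mul, h.inv, Matrix.transpose_one]

lemma natDegree_X_mul_le' (hT : T.natDegree ≤ q) : (Polynomial.X * T).natDegree ≤ q + 1 := by
  refine Polynomial.natDegree_mul_le.trans ?_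
  rw [Polynomial.natDegree_X]
  omega

lemma coeff_X_mul_le' {B : ℝ} (hB : 0 ≤ B) (hT : ∀ l, |((T.coeff l : ℤ) : ℝ)| ≤ B) (l : ℕ) :
    |(((Polynomial.X * T).coeff l : ℤ) : ℝ)| ≤ B := by
  rcases l with _ | l
  · simp [hB]
  · rw [Polynomial.coeff_X_mul]
    exact hT l

/-- the polynomials in Galochkin's condition: sizes -/
lemma SysN.PP_size (h : SysN q H T A R Z W) (a b : Fin n × Fin n) (s : ℕ) :
    Bq ((q + 1) * s) ((2 * (2 * ((q + 1 : ℕ) + 1 : ℝ)) * ((cc n (q + 1) * H) * ((n : ℝ) * (H + 1) + 1) * (((q : ℝ) + 1) * H))) ^ (s + 1))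
      (PP T (fun i k => A k i) (resQ R) a b s) := by
  have hH := h.one_le
  have hH0 : 0 < H := by linarith
  have hq0 : (0 : ℝ) ≤ q := by positivity
  have hn0 : (0 : ℝ) ≤ n := by positivity
  set c1 : ℝ := cc n (q + 1) * H with hc1
  set c2 : ℝ := (n : ℝ) * (H + 1) + 1 with hc2
  set c3 : ℝ := ((q : ℝ) + 1) * H with hc3
  have h11 : 1 ≤ c1 := one_le_mul_of_one_le_of_one_le (one_le_cc n (q + 1)) hH
  have h21 : 1 ≤ c2 := by
    have : 0 ≤ (n : ℝ) * (H + 1) := by positivity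
    linarith
  have h31 : 1 ≤ c3 := one_le_mul_of_one_le_of_one_le (by linarith) hH
  have hTX : Bd (q + 1) H (Polynomial.X * T) := ⟨natDegree_X_mul_le' h.degT, coeff_X_mul_le' hH0.le h.sizeT⟩
  have hA : ∀ i j, Bd (q + 1) H ((fun i k => A k i) i j) := fun i j => ⟨(h.degA j i).trans (Nat.le_succ q), h.sizeA j i⟩
  have hsize := ah_size (T := Polynomial.X * T) (A := fun a b => (fun i k => A k i) b a) hH hTX (fun i j => hA j i)
  have hchoose := choose_sizeU (-resQ R) hH0.le (fun i j => by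
    rw [Matrix.neg_apply, resQ_apply]
    push_cast
    rw [abs_neg]
    exact h.sizeR j i)
  have hTq : Bq q H (T.map (Int.castRingHom ℚ)) := (show Bd q H T from ⟨h.degT, h.sizeT⟩).toBq
  have hterm : ∀ p ∈ antidiagonal s, Bq ((q + 1) * s) ((2 * (((q + 1 : ℕ) : ℝ) + 1)) ^ (s + 1) * (c1 * c2 * c3) ^ (s + 1))
      (ah (Polynomial.X * T) (fun a b => (fun i k => A k i) b a) p.1 a.1 b.1 *
        (Polynomial.C (Ring.choose (-resQ R) p.2 b.2 a.2) * (T.map (Int.castRingHom ℚ)) ^ p.2)) := by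
    intro p hp
    rw [mem_antidiagonal] at hp
    have e1 := hsize p.1 a.1 b.1
    have e2 : Bq (q * p.2) (c2 ^ (p.2 + 1) * c3 ^ p.2)
        (Polynomial.C (Ring.choose (-resQ R) p.2 b.2 a.2) * (T.map (Int.castRingHom ℚ)) ^ p.2) :=
      (hTq.pow p.2).C_mul (hchoose p.2 b.2 a.2)
    refine (e1.mul e2).mono ?_ ?_
    · calc (q + 1) * p.1 + q * p.2 ≤ (q + 1) * p.1 + (q + 1) * p.2 := by
            exact Nat.add_le_add_left (Nat.mul_le_mul_right _ (Nat.le_succ q)) _
        _ = (q + 1) * s := by rw [← mul_add, hp]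
    · have e0 : (((q + 1) * p.1 : ℕ) : ℝ) + 1 ≤ (2 * (((q + 1 : ℕ) : ℝ) + 1)) ^ (s + 1) := by
        refine le_trans ?_ (lin_le_pow (q + 1) s)
        have e5 : (q + 1) * p.1 ≤ (q + 1) * s := Nat.mul_le_mul_left _ (by omega)
        have e6 : (((q + 1) * p.1 : ℕ) : ℝ) ≤ (((q + 1) * s : ℕ) : ℝ) := by exact_mod_cast e5
        linarith
      have e3 : c1 ^ p.1 ≤ c1 ^ (s + 1) := pow_le_pow_right₀ h11 (by omega)
      have e4 : c2 ^ (p.2 + 1) ≤ c2 ^ (s + 1) := pow_le_pow_right₀ h21 (by omega)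
      have e5 : c3 ^ p.2 ≤ c3 ^ (s + 1) := pow_le_pow_right₀ h31 (by omega)
      rw [mul_pow (c1 * c2), mul_pow c1, mul_assoc (c1 ^ (s + 1))]
      exact mul_le_mul e0 (mul_le_mul e3 (mul_le_mul e4 e5 (by positivity) (by positivity)) (by positivity) (by positivity))
        (by positivity) (by positivity)
  unfold PP
  refine (Bq.sum _ hterm).mono le_rfl ?_
  rw [Finset.Nat.card_antidiagonal]
  have e5 := Pool.Agent.Y119.HY.succ_le_two_pow s
  have e6 : (0 : ℝ) ≤ (2 * (((q + 1 : ℕ) : ℝ) + 1)) ^ (s + 1) * (c1 * c2 * c3) ^ (s + 1) := by positivity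
  calc (((s + 1 : ℕ)) : ℝ) * ((2 * (((q + 1 : ℕ) : ℝ) + 1)) ^ (s + 1) * (c1 * c2 * c3) ^ (s + 1)) ≤
      2 ^ (s + 1) * ((2 * (((q + 1 : ℕ) : ℝ) + 1)) ^ (s + 1) * (c1 * c2 * c3) ^ (s + 1)) := by
        refine mul_le_mul_of_nonneg_right ?_ e6
        push_cast
        exact e5
    _ = _ := by
      rw [← mul_assoc, ← mul_pow, ← mul_pow]

/-- the polynomials in Galochkin's condition: denominators -/
lemma SysN.PP_den (h : SysN q H T A R Z W) {K d : ℕ} (hd : ∀ a b, IU d ((q + 1) * K) (Z a b) ∧ IU d ((q + 1) * K) (W a b))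
    {s : ℕ} (hs : s ≤ K) (a b : Fin n × Fin n) :
    IP (d * (1 * (Nat.lcmUpto K) ^ n) * d * (Nat.lcmUpto K) ^ n) (PP T (fun i k => A k i) (resQ R) a b s) := by
  have hH := h.one_le
  have hH0 : 0 < H := by linarith
  have hTX : Bd (q + 1) H (Polynomial.X * T) := ⟨natDegree_X_mul_le' h.degT, coeff_X_mul_le' hH0.le h.sizeT⟩
  have hA : ∀ i j, Bd (q + 1) H ((fun i k => A k i) i j) := fun i j => ⟨(h.degA j i).trans (Nat.le_succ q), h.sizeA j i⟩
  have hsize := ah_size (T := Polynomial.X * T) (A := fun a b => (fun i k => A k i) b a) hH hTX (fun i j => hA j i)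
  have hRt : R.transpose ^ n = 0 := by rw [← Matrix.transpose_pow, h.nil, Matrix.transpose_zero]
  have hD : ∀ f : Polynomial ℚ, ∀ L : ℕ, f ∈ SPo L → ∀ i j,
      ∃ a : ℤ, ((1 * L ^ n : ℕ) : ℚ) * (Polynomial.aeval (resQ R) f) i j = a := fun f L hf i j => choose_denZ hRt hf i j
  -- the first factor
  have hah : ∀ r ≤ K, ∀ i k, IP (d * (1 * (Nat.lcmUpto K) ^ n) * d) (ah (Polynomial.X * T) (fun a b => (fun i k => A k i) b a) r i k) := by
    intro r hr i k
    have key : ((ah (Polynomial.X * T) (fun a b => (fun i k => A k i) b a) r i k : Polynomial ℚ) : ℚ⟦X⟧) =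
        ∑ j, (ps T ^ r * YY Z.transpose (resQ R) r i j) * W.transpose j k := by
      simp only [YY_ah h.ode', Finset.sum_mul]
      rw [Finset.sum_comm]
      have h1 : ∀ l, ∑ j, (((ah (Polynomial.X * T) (fun a b => (fun i k => A k i) b a) r i l : Polynomial ℚ) : ℚ⟦X⟧) *
          Z.transpose l j) * W.transpose j k =
          ((ah (Polynomial.X * T) (fun a b => (fun i k => A k i) b a) r i l : Polynomial ℚ) : ℚ⟦X⟧) * (if l = k then 1 else 0) := by
        intro l
        rw [← Matrix.one_apply, ← h.inv', Matrix.mul_apply, Finset.mul_sum]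
        exact Finset.sum_congr rfl fun j _ => by ring
      simp only [h1]
      simp
    have hIS : IS ((q + 1) * K) (d * (1 * (Nat.lcmUpto K) ^ n) * d)
        ((ah (Polynomial.X * T) (fun a b => (fun i k => A k i) b a) r i k : Polynomial ℚ) : ℚ⟦X⟧) := by
      rw [key]
      refine IS.sum _ fun j _ => ?_
      have h1 := (IS.ps_pow ((q + 1) * K) T r).mul (YY_IS (N := resQ R) (H := Z.transpose) (fun i j => (hd j i).1) hD hr i j)
      rw [one_mul] at h1
      exact h1.mul (hd k j).2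
    refine IP.of_coeff fun m => ?_
    by_cases hm : m ≤ (q + 1) * r
    · obtain ⟨a, ha⟩ := hIS m (hm.trans (Nat.mul_le_mul_left (q + 1) hr))
      exact ⟨a, by rw [← ha, Polynomial.coeff_coe]⟩
    · refine ⟨0, ?_⟩
      rw [Polynomial.coeff_eq_zero_of_natDegree_lt (lt_of_le_of_lt (hsize r i k).1 (by omega))]
      simp
  -- the second factor
  have hch : ∀ r ≤ K, ∀ i j, IP ((Nat.lcmUpto K) ^ n) (Polynomial.C (Ring.choose (-resQ R) r i j) * (T.map (Int.castRingHom ℚ)) ^ r) := by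
    intro r hr i j
    have h1 := choose_mem (L := Nat.lcmUpto K) (K := K) (fun i h1 h2 => dvd_lcmUpto h1 h2) (-1) hr
    obtain ⟨a, ha⟩ := hD _ _ h1 i j
    have e1 : Polynomial.aeval (resQ R) (Polynomial.C ((((-1 : ℤ))) : ℚ) * Polynomial.X) = -resQ R := by
      rw [map_mul, Polynomial.aeval_C, Polynomial.aeval_X]
      push_cast
      exact neg_one_mul _
    rw [choose_aeval, e1, one_mul] at ha
    refine ⟨Polynomial.C a * T ^ r, ?_⟩
    rw [Polynomial.map_mul, Polynomial.map_C, Polynomial.map_pow, ← mul_assoc, ← Polynomial.C_mul]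
    congr 2
    rw [ha]
    rfl
  unfold PP
  refine IP.sum _ fun p hp => ?_
  rw [mem_antidiagonal] at hp
  exact IP.mul' (hah p.1 (by omega) a.1 b.1) (hch p.2 (by omega) b.2 a.2)

end

/-- **the entries form a G-system, with uniform constants** -/
theorem sysN_gsys (n q : ℕ) : ∃ E : ℕ, ∀ (H : ℝ) (T : Polynomial ℤ) (A : Fin n → Fin n → Polynomial ℤ)
    (R : Matrix (Fin n) (Fin n) ℤ) (Z W : Matrix (Fin n) (Fin n) ℚ⟦X⟧), SysN q H T A R Z W →
    GSys (q + 1) ((2 * H) ^ E) (Polynomial.X * T) (fun p : Fin n × Fin n => Z p.1 p.2) := by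
  classical
  set κ : ℕ := (2 ^ 8) ^ (2 * n) * (4 * (q + 2)) * cc n (q + 1) * (2 * n + 1) * (q + 1) with hκ
  set e : ℕ := 2 * (q + 2) + 4 with he
  refine ⟨κ + e, fun H T A R Z W h => ?_⟩
  have hH := h.one_le
  have hH0 : 0 < H := by linarith
  have hq0 : (0 : ℝ) ≤ q := by positivity
  have hn0 : (0 : ℝ) ≤ n := by positivity
  set Rr : ℝ := 2 * (2 * ((q + 1 : ℕ) + 1 : ℝ)) * ((cc n (q + 1) * H) * ((n : ℝ) * (H + 1) + 1) * (((q : ℝ) + 1) * H)) with hRr
  set G : ℝ := H ^ (2 * (q + 2)) * (2 ^ 8) ^ (2 * n) with hG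
  have h11 : 1 ≤ (cc n (q + 1) : ℝ) * H := one_le_mul_of_one_le_of_one_le (one_le_cc n (q + 1)) hH
  have h21 : 1 ≤ (n : ℝ) * (H + 1) + 1 := by
    have : 0 ≤ (n : ℝ) * (H + 1) := by positivity
    linarith
  have h31 : 1 ≤ ((q : ℝ) + 1) * H := one_le_mul_of_one_le_of_one_le (by linarith) hH
  have h41 : 1 ≤ (cc n (q + 1) * H) * ((n : ℝ) * (H + 1) + 1) * (((q : ℝ) + 1) * H) :=
    one_le_mul_of_one_le_of_one_le (one_le_mul_of_one_le_of_one_le h11 h21) h31
  have hR1 : 1 ≤ Rr := by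
    rw [hRr]
    refine one_le_mul_of_one_le_of_one_le ?_ h41
    push_cast
    linarith
  have hG1 : 1 ≤ G := one_le_mul_of_one_le_of_one_le (one_le_pow₀ hH) (one_le_pow₀ (by norm_num))
  have hGR1 : 1 ≤ G * Rr := one_le_mul_of_one_le_of_one_le hG1 hR1
  -- the total constant
  have hCle : G * Rr * H ≤ (2 * H) ^ (κ + e) := by
    refine le_trans ?_ (const_le (κ := κ) hH e)
    have e1 : (n : ℝ) * (H + 1) + 1 ≤ (2 * n + 1) * H := by nlinarith
    have e2 : G * Rr * H ≤ H ^ (2 * (q + 2)) * (2 ^ 8) ^ (2 * n) * (2 * (2 * ((q : ℝ) + 1 + 1)) *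
        ((cc n (q + 1) * H) * ((2 * n + 1) * H) * (((q : ℝ) + 1) * H))) * H := by
      rw [hG, hRr]
      push_cast
      gcongr
    refine e2.trans (le_of_eq ?_)
    rw [hκ, he]
    push_cast
    ring
  have hle : ∀ k : ℕ, (G * Rr) ^ k ≤ (G * Rr * H) ^ k := fun k =>
    pow_le_pow_left₀ (by positivity) (le_mul_of_one_le_right (by positivity) hH) k
  have hHle : H ≤ G * Rr * H := le_mul_of_one_le_left hH0.le hGR1
  have hGle : G ≤ G * Rr * H := by
    calc G ≤ G * Rr := le_mul_of_one_le_right (by linarith) hR1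
      _ ≤ _ := le_mul_of_one_le_right (by linarith) hH
  have hGS : GSys (q + 1) (G * Rr * H) (Polynomial.X * T) (fun p : Fin n × Fin n => Z.transpose p.1 p.2) := by
    refine ⟨hH.trans hHle, natDegree_X_mul_le' h.degT, fun l => (coeff_X_mul_le' hH0.le h.sizeT l).trans hHle, fun i m =>
      (h.size _ _ m).trans (pow_le_pow_left₀ hH0.le hHle _), fun m => ?_, fun k => ?_⟩
    · obtain ⟨d, hd0, hd, hd'⟩ := h.den m
      exact ⟨d, hd0, hd.trans (pow_le_pow_left₀ hH0.le hHle _), fun i j hj => (hd' _ _).1 j hj⟩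
    · obtain ⟨d, hd0, hd, hd'⟩ := h.den ((q + 1) * k)
      set g : ℕ := d * (1 * (Nat.lcmUpto k) ^ n) * d * (Nat.lcmUpto k) ^ n with hg
      have hg0 : 0 < g := by
        have := Nat.lcmUpto_pos k
        positivity
      have hgG : (g : ℝ) ≤ G ^ (k + 1) := by
        rw [hg]
        push_cast
        have e1 : (d : ℝ) ≤ (H ^ (q + 2)) ^ (k + 1) := by
          rw [← pow_mul]
          exact hd.trans (pow_le_pow_right₀ hH (by ring_nf; nlinarith))
        have e2 : ((Nat.lcmUpto k : ℕ) : ℝ) ^ n ≤ ((2 ^ 8) ^ n) ^ (k + 1) := by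
          calc ((Nat.lcmUpto k : ℕ) : ℝ) ^ n ≤ ((2 ^ 8) ^ k) ^ n := pow_le_pow_left₀ (by positivity) (lcm_bound k) _
            _ ≤ ((2 ^ 8) ^ n) ^ (k + 1) := by
              have hB : (1 : ℝ) ≤ 2 ^ 8 := one_le_pow₀ (by norm_num)
              generalize ((2 : ℝ) ^ 8) = B at hB ⊢
              rw [← pow_mul, ← pow_mul]
              exact pow_le_pow_right₀ hB (by nlinarith)
        calc (d : ℝ) * (1 * ((Nat.lcmUpto k : ℕ) : ℝ) ^ n) * d * ((Nat.lcmUpto k : ℕ) : ℝ) ^ n ≤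
              (H ^ (q + 2)) ^ (k + 1) * (1 * ((2 ^ 8) ^ n) ^ (k + 1)) * (H ^ (q + 2)) ^ (k + 1) * ((2 ^ 8) ^ n) ^ (k + 1) := by
              gcongr
          _ = G ^ (k + 1) := by
              rw [hG, one_mul, mul_pow, ← pow_mul, ← pow_mul, ← pow_mul, ← pow_mul, ← pow_mul, ← pow_mul]
              ring
      refine ⟨g, hg0, hgG.trans (pow_le_pow_left₀ (by linarith) hGle _), fun s hs => ?_⟩
      choose P hP1 hP2 hP3 using fun a b => (h.PP_den hd' hs a b).lift (h.PP_size a b s)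
      refine ⟨P, hP2, fun i j l => (hP3 i j l).trans ?_, fun i => ?_⟩
      · calc (g : ℝ) * Rr ^ (s + 1) ≤ G ^ (k + 1) * Rr ^ (k + 1) :=
              mul_le_mul hgG (pow_le_pow_right₀ hR1 (by omega)) (by positivity) (by positivity)
          _ = (G * Rr) ^ (k + 1) := (mul_pow G Rr (k + 1)).symm
          _ ≤ _ := hle _
      · rw [hd_PP h.ode' s i, Finset.mul_sum]
        refine Finset.sum_congr rfl fun j _ => ?_
        rw [ps_eq, hP1 i j, Polynomial.coe_mul, Polynomial.coe_C]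
        simp only [map_natCast]
        ring
  have hGS' := GSys.mono hGS le_rfl hCle
  exact hGS'.reindex (Equiv.prodComm (Fin n) (Fin n))

end Pool.Agent.H885
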