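import Pool.Agent.H885.CoreT

/-!
# The constants at tangential base points
-/

set_option autoImplicit false
set_option linter.unusedSectionVars false
set_option linter.unusedVariables false

open Matrix Module Filter

namespace Pool.Agent.H885

open Pool.Agent.Helper880_R3 hiding core final
open Pool.Agent.Helper880_LF.NB hiding alg_core
open Pool.Agent.Y118.UL (mk mk_eq mk_eq_zero mk_ne_zero mk_surj ev_ge eval_mk rep qc qc_mk algebraMap_eq U)

variable {n m : ℕ}

/-- `∑ v_i R_i` -/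
noncomputable def vR (v : Fin m → ℂ) (R : Fin m → Matrix (Fin n) (Fin n) ℤ) : Matrix (Fin n) (Fin n) ℂ :=
  ∑ i, v i • (R i).map (Int.castRingHom ℂ)

lemma pow_of_nil {K : Type} [Field K] {M : Matrix (Fin n) (Fin n) K} (h : IsNilpotent M) : M ^ n = 0 := by
  have h1 := Matrix.isNilpotent_charpoly_sub_pow_of_isNilpotent h
  have h2 := h1.eq_zero
  have h3 : M.charpoly = Polynomial.X ^ n := by
    have h4 := sub_eq_zero.1 h2
    rw [Fintype.card_fin] at h4
    exact h4
  have h4 := M.aeval_self_charpoly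
  rw [h3, map_pow, Polynomial.aeval_X] at h4
  exact h4

lemma vR_nil {v : Fin m → ℂ} {R : Fin m → Matrix (Fin n) (Fin n) ℤ} (hc : ∀ i i', R i * R i' = R i' * R i)
    (hn : ∀ i, R i ^ n = 0) : vR v R ^ n = 0 := by
  refine pow_of_nil ?_
  unfold vR
  refine Commute.isNilpotent_sum (fun i _ => ?_) fun i i' _ _ => ?_
  · refine ⟨n, ?_⟩
    rw [smul_pow]
    have h1 : (R i).map (Int.castRingHom ℂ) ^ n = 0 := by
      have h2 := map_pow (RingHom.mapMatrix (Int.castRingHom ℂ)) (R i) n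
      rw [hn, map_zero] at h2
      exact h2.symm
    rw [h1, smul_zero]
  · have h1 : (R i).map (Int.castRingHom ℂ) * (R i').map (Int.castRingHom ℂ) =
        (R i').map (Int.castRingHom ℂ) * (R i).map (Int.castRingHom ℂ) := by
      rw [← Matrix.map_mul, hc, Matrix.map_mul]
    exact ((show Commute _ _ from h1).smul_left _).smul_right _

/-- the residues restricted to a line -/
lemma sumR_nil {R : Fin m → Matrix (Fin n) (Fin n) ℤ} (hc : ∀ i i', R i * R i' = R i' * R i)
    (hn : ∀ i, R i ^ n = 0) : (∑ i, R i) ^ n = 0 := by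
  have h1 := vR_nil (v := fun _ => 1) hc hn
  unfold vR at h1
  simp only [one_smul] at h1
  have h2 : (∑ i, (R i).map (Int.castRingHom ℂ)) = (∑ i, R i).map (Int.castRingHom ℂ) :=
    (map_sum (RingHom.mapMatrix (Int.castRingHom ℂ)) R Finset.univ).symm
  rw [h2] at h1
  have h3 := map_pow (RingHom.mapMatrix (Int.castRingHom ℂ)) (∑ i, R i) n
  have h4 : (RingHom.mapMatrix (Int.castRingHom ℂ)) ((∑ i, R i) ^ n) = 0 := h3.trans h1
  ext a b
  have h5 := congrFun (congrFun h4 a) b
  exact (Int.castRingHom ℂ).injective_int (h5.trans (map_zero _).symm)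

/-- the exponential function of nilpotent matrices -/
lemma exp_nil {V : Matrix (Fin n) (Fin n) ℂ} (h : V ^ n = 0) :
    NormedSpace.exp V = ∑ k ∈ Finset.range n, ((k.factorial : ℂ)⁻¹) • V ^ k := by
  rw [NormedSpace.exp_eq_tsum ℂ]
  refine tsum_eq_sum fun k hk => ?_
  rw [Finset.mem_range, not_lt] at hk
  rw [pow_eq_zero_of_le hk h, smul_zero]

/-- **derivations which kill the logarithms kill the constants at tangential base points** -/
theorem dm_xp {R : ℕ → Fin m → Matrix (Fin n) (Fin n) ℤ} {v : ℕ → Fin m → ℂ} (hc : ∀ k i i', R k i * R k i' = R k i' * R k i)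
    (hn : ∀ k i, R k i ^ n = 0) {δ : Derivation (U ℚ) (U ℂ) (U ℂ)}
    (hδ : ∀ i a b, δ (mk ℂ fun k => v k i * (R k i a b : ℂ)) = 0) : dm δ (gm fun k => NormedSpace.exp (vR (v k) (R k))) = 0 := by
  classical
  have h0 : dm δ (gm fun k => vR (v k) (R k)) = 0 := by
    ext1 a b
    show δ (mk ℂ fun k => vR (v k) (R k) a b) = 0
    have h1 : (mk ℂ fun k => vR (v k) (R k) a b) = ∑ i, mk ℂ fun k => v k i * (R k i a b : ℂ) := by
      rw [← map_sum]
      congr 1
      funext k
      unfold vR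
      rw [Matrix.sum_apply, Finset.sum_apply]
      rfl
    rw [h1, map_sum]
    exact Finset.sum_eq_zero fun i _ => hδ i a b
  have hpow : ∀ e : ℕ, dm δ ((gm fun k => vR (v k) (R k)) ^ e) = 0 := by
    intro e
    induction e with
    | zero => rw [pow_zero, dm_one']
    | succ e ih => rw [pow_succ, dm_mul, ih, h0, Matrix.zero_mul, Matrix.mul_zero, add_zero]
  have h1 : (gm fun k => NormedSpace.exp (vR (v k) (R k))) =
      ∑ e ∈ Finset.range n, (mk ℂ fun _ => ((e.factorial : ℂ)⁻¹)) • (gm fun k => vR (v k) (R k)) ^ e := by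
    have h2 : (fun k => NormedSpace.exp (vR (v k) (R k))) =
        fun k => ∑ e ∈ Finset.range n, ((e.factorial : ℂ)⁻¹) • (vR (v k) (R k)) ^ e := by
      funext k
      exact exp_nil (vR_nil (hc k) (hn k))
    rw [h2]
    have h3 : ∀ s : Finset ℕ, (gm fun k => ∑ e ∈ s, ((e.factorial : ℂ)⁻¹) • (vR (v k) (R k)) ^ e) =
        ∑ e ∈ s, (mk ℂ fun _ => ((e.factorial : ℂ)⁻¹)) • (gm fun k => vR (v k) (R k)) ^ e := by
      intro s
      induction s using Finset.induction_on with
      | empty =>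
        simp only [Finset.sum_empty]
        exact gm_zero
      | insert e s he ih =>
        simp only [Finset.sum_insert he]
        rw [← ih, ← gm_pow, ← gm_smul, ← gm_add]
    exact h3 _
  rw [h1]
  ext1 a b
  show δ _ = 0
  rw [Matrix.sum_apply, map_sum]
  refine Finset.sum_eq_zero fun e _ => ?_
  have h2 : δ (mk ℂ fun _ => ((e.factorial : ℂ)⁻¹)) = 0 := by
    have h3 : (mk ℂ fun _ => ((e.factorial : ℂ)⁻¹)) = algebraMap (U ℚ) (U ℂ) (mk ℚ fun _ => ((e.factorial : ℚ)⁻¹)) := by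
      rw [algebraMap_eq, qc_mk]
      congr 1
      funext _
      push_cast
      rfl
    rw [h3, Derivation.map_algebraMap]
  have h3 := congrFun (congrFun (dm_smul δ (mk ℂ fun _ => ((e.factorial : ℂ)⁻¹)) ((gm fun k => vR (v k) (R k)) ^ e)) a) b
  rw [hpow, h2, zero_smul, smul_zero, add_zero] at h3
  exact h3

/-- the entries of the residues are integers -/
lemma der_zmul {v : ℕ → ℂ} {R : ℕ → ℤ} {δ : Derivation (U ℚ) (U ℂ) (U ℂ)} (h : δ (mk ℂ v) = 0) :
    δ (mk ℂ fun k => v k * (R k : ℂ)) = 0 := by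
  have h1 : (mk ℂ fun k => v k * (R k : ℂ)) = (mk ℂ v) * mk ℂ fun k => (R k : ℂ) := by
    rw [← map_mul]
    rfl
  have h2 : (mk ℂ fun k => (R k : ℂ)) = algebraMap (U ℚ) (U ℂ) (mk ℚ fun k => (R k : ℚ)) := by
    rw [algebraMap_eq, qc_mk]
    exact congrArg (mk ℂ) (funext fun k => by simp)
  rw [h1, Derivation.leibniz, h, h2, Derivation.map_algebraMap, smul_zero, smul_zero, add_zero]

/-- the logarithms are among finitely many sequences -/
lemma der_cov {M : ℕ} {v : ℕ → ℂ} {R : ℕ → Matrix (Fin n) (Fin n) ℤ} {ct : Fin M → ℕ → ℂ} (h : ∀ k, R k = 0 ∨ ∃ i, v k = ct i k)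
    {δ : Derivation (U ℚ) (U ℂ) (U ℂ)} (hδ : ∀ i, δ (mk ℂ (ct i)) = 0) (a b : Fin n) :
    δ (mk ℂ fun k => v k * (R k a b : ℂ)) = 0 := by
  classical
  by_cases h1 : ∀ᶠ k in (hyperfilter ℕ : Filter ℕ), R k = 0
  · have h2 : (mk ℂ fun k => v k * (R k a b : ℂ)) = 0 := by
      rw [mk_eq_zero]
      filter_upwards [h1] with k hk
      rw [hk]
      simp
    rw [h2, map_zero]
  · have h3 : ∀ᶠ k in (hyperfilter ℕ : Filter ℕ), ¬ R k = 0 := Ultrafilter.eventually_not.2 h1
    have h4 : ∀ᶠ k in (hyperfilter ℕ : Filter ℕ), ∃ i ∈ (Finset.univ : Finset (Fin M)), v k = ct i k := by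
      filter_upwards [h3] with k hk
      obtain ⟨i, hi⟩ := (h k).resolve_left hk
      exact ⟨i, Finset.mem_univ _, hi⟩
    have h5 : ∃ i, ∀ᶠ k in (hyperfilter ℕ : Filter ℕ), v k = ct i k := by
      by_contra hcon
      push Not at hcon
      have h7 := Filter.eventually_all.2 hcon
      obtain ⟨k, hk1, i, -, hi⟩ := (h7.and h4).exists
      exact hk1 i hi
    obtain ⟨i, hi⟩ := h5
    have h6 : δ (mk ℂ v) = 0 := by
      rw [mk_eq.2 hi]
      exact hδ i
    exact der_zmul h6

end Pool.Agent.H885
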