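import Pool.Agent.H885.BaseU
import Pool.Agent.H885.GN
import Pool.Agent.H885.Tang

/-!
# Families near a point of a divisor with normal crossings: restriction to the lines through the point
-/

set_option autoImplicit false
set_option linter.unusedSectionVars false
set_option linter.unusedVariables false

open PowerSeries

namespace Pool.Agent.H885

open Pool.Agent.Y113
open Pool.Agent.Y120.GH (L1)

variable {m n : ℕ}

/-- matrices `Z` of G-functions in `m` variables such that `x_1 ^ R_1 ⋯ x_m ^ R_m Z` solves a connection with logarithmic poles,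
with bounds `q` for the degree and `H` for the size -/
structure FamN (q : ℕ) (H : ℝ) (T : MvPolynomial (Fin m) ℤ) (A : Fin m → Fin n → Fin n → MvPolynomial (Fin m) ℤ)
    (R : Fin m → Matrix (Fin n) (Fin n) ℤ) (Z W : Matrix (Fin n) (Fin n) (MvPowerSeries (Fin m) ℚ)) : Prop where
  one_le : 1 ≤ H
  degT : T.totalDegree ≤ q
  sizeT : ∀ ν, |((T.coeff ν : ℤ) : ℝ)| ≤ H
  degA : ∀ i a b, (A i a b).totalDegree ≤ q
  sizeA : ∀ i a b ν, |(((A i a b).coeff ν : ℤ) : ℝ)| ≤ H
  comm : ∀ i i', R i * R i' = R i' * R i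
  nil : ∀ i, R i ^ n = 0
  sizeR : ∀ i a b, |((R i a b : ℤ) : ℝ)| ≤ H
  ode : ∀ i a b, toMv T * (MvPowerSeries.X i * pdv i (Z a b) + ∑ c, MvPowerSeries.C (R i a c : ℚ) * Z c b) =
    ∑ l, Z a l * toMv (A i l b)
  inv : W * Z = 1
  size : ∀ a b (ν : Fin m →₀ ℕ), |((MvPowerSeries.coeff ν (Z a b) : ℚ) : ℝ)| ≤ H ^ (∑ i, ν i + 1)
  den : ∀ k : ℕ, ∃ d : ℕ, 0 < d ∧ (d : ℝ) ≤ H ^ (k + 1) ∧ ∀ a b (ν : Fin m →₀ ℕ), ∑ i, ν i ≤ k →
    (∃ z : ℤ, (d : ℚ) * MvPowerSeries.coeff ν (Z a b) = z) ∧ ∃ z : ℤ, (d : ℚ) * MvPowerSeries.coeff ν (W a b) = z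

/-- **Restriction to the lines through the point.** -/
theorem base_sysN (m n q₀ : ℕ) : ∃ E₀ : ℕ, ∀ (H : ℝ) (T : MvPolynomial (Fin m) ℤ)
    (A : Fin m → Fin n → Fin n → MvPolynomial (Fin m) ℤ) (R : Fin m → Matrix (Fin n) (Fin n) ℤ)
    (Z W : Matrix (Fin n) (Fin n) (MvPowerSeries (Fin m) ℚ)), FamN q₀ H T A R Z W →
    ∀ (h : ℕ) (a : Fin m → ℤ), (∀ i, |a i| ≤ h) → line a (toMv T) ≠ 0 →
      ∃ (T' : Polynomial ℤ) (B' : Fin n → Fin n → Polynomial ℤ), T' ≠ 0 ∧
        SysN q₀ ((2 * H * ((h : ℝ) + 2)) ^ E₀) T' B' (∑ i, R i) (lineM a Z) (lineM a W) := by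
  classical
  obtain ⟨e₁, he₁⟩ := pow_absorb (c := (nmon m q₀ : ℝ) + 1) (by
    have : (0 : ℝ) ≤ nmon m q₀ := by positivity
    linarith)
  obtain ⟨e₂, he₂⟩ := pow_absorb (c := (2 : ℝ) ^ m) (one_le_pow₀ (by norm_num))
  obtain ⟨e₃, he₃⟩ := pow_absorb (c := (m : ℝ) + 1) (by
    have : (0 : ℝ) ≤ m := by positivity
    linarith)
  refine ⟨(e₁ + 1 + q₀) + (e₂ + 2) + (e₃ + 1), fun H T A R Z W hG h a ha hTa => ?_⟩
  have hH1 := hG.one_le
  have hh0 : (0 : ℝ) ≤ h := by positivity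
  set x : ℝ := 2 * H * ((h : ℝ) + 2) with hx
  have hhx : (h : ℝ) + 2 ≤ x := by
    rw [hx]
    nlinarith
  have hHx : H ≤ x := by
    rw [hx]
    nlinarith
  have hx2 : 2 ≤ x := by linarith
  have hx1 : 1 ≤ x := by linarith
  set y : ℝ := x ^ (e₁ + 1 + q₀) with hy
  have hy1 : 1 ≤ y := one_le_pow₀ hx1
  have hL : ∀ (P : MvPolynomial (Fin m) ℤ), P.totalDegree ≤ q₀ → (∀ ν, |((P.coeff ν : ℤ) : ℝ)| ≤ H) →
      L1 q₀ y (lineP a P) := by
    intro P hP1 hP2
    refine (lineP_L1u P hP1 (by linarith) hP2 ha).mono le_rfl ?_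
    rw [hy, pow_add, pow_add, pow_one]
    refine mul_le_mul (mul_le_mul (he₁ x hx2) hHx (by linarith) (by positivity))
      (pow_le_pow_left₀ (by positivity) hhx _) (by positivity) (by positivity)
  have hLT : L1 q₀ y (lineP a T) := hL T hG.degT hG.sizeT
  have hLA : ∀ i l b, L1 q₀ y (lineP a (A i l b)) := fun i l b => hL _ (hG.degA i l b) (hG.sizeA i l b)
  set E : ℕ := (e₁ + 1 + q₀) + (e₂ + 2) + (e₃ + 1) with hE
  have hm : (m : ℝ) ≤ x ^ e₃ := by
    have := he₃ x hx2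
    linarith
  have hyE : y * x ^ e₃ ≤ x ^ E := by
    rw [hy, ← pow_add]
    exact pow_le_pow_right₀ hx1 (by omega)
  have hyE' : y ≤ x ^ E := pow_le_pow_right₀ hx1 (by omega)
  have hLB' : ∀ l b, L1 q₀ (x ^ E) (∑ i, lineP a (A i l b)) := by
    intro l b
    have h1 : L1 q₀ (∑ _i : Fin m, y) (∑ i, lineP a (A i l b)) := Pool.Agent.Y120.GH.L1.sum _ fun i _ => hLA i l b
    refine h1.mono le_rfl ?_
    rw [Finset.sum_const, Finset.card_univ, Fintype.card_fin, nsmul_eq_mul]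
    calc (m : ℝ) * y ≤ x ^ e₃ * y := mul_le_mul_of_nonneg_right hm (by positivity)
      _ = y * x ^ e₃ := mul_comm _ _
      _ ≤ _ := hyE
  have hCx : 2 ^ m * (H * ((h : ℝ) + 2)) ≤ x ^ E := by
    calc 2 ^ m * (H * ((h : ℝ) + 2)) ≤ x ^ e₂ * (x * x) := by
          refine mul_le_mul (he₂ x hx2) (mul_le_mul hHx hhx (by positivity) (by positivity)) (by positivity) (by positivity)
      _ = x ^ (e₂ + 2) := by ring
      _ ≤ x ^ E := pow_le_pow_right₀ hx1 (by omega)
  have hCx' : H ≤ x ^ E := by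
    calc H ≤ x ^ 1 := by rw [pow_one]; exact hHx
      _ ≤ x ^ E := pow_le_pow_right₀ hx1 (by omega)
  refine ⟨lineP a T, fun l b => ∑ i, lineP a (A i l b), ?_, ?_⟩
  · intro h0
    apply hTa
    rw [line_toMv, h0]
    unfold ps
    simp
  · refine ⟨one_le_pow₀ hx1, hLT.1, fun l => (hLT.coeff_le l).trans hyE', fun l b => (hLB' l b).1,
      fun l b k => (hLB' l b).coeff_le k, sumR_nil hG.comm hG.nil, fun a' b' => ?_, fun a' b' => ?_, ?_, fun a' b' k => ?_,
      fun k => ?_⟩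
    · -- the residue
      rw [Matrix.sum_apply]
      push_cast
      refine (Finset.abs_sum_le_sum_abs _ _).trans ((Finset.sum_le_sum fun i _ => hG.sizeR i a' b').trans ?_)
      rw [Finset.sum_const, Finset.card_univ, Fintype.card_fin, nsmul_eq_mul]
      calc (m : ℝ) * H ≤ x ^ e₃ * x := mul_le_mul hm hHx (by linarith) (by positivity)
        _ = x ^ (e₃ + 1) := (pow_succ _ _).symm
        _ ≤ _ := pow_le_pow_right₀ hx1 (by omega)
    · -- the differential equation
      show ps (lineP a T) * (X * d⁄dX ℚ (line a (Z a' b')) + ∑ c, C (((∑ i, R i) a' c : ℤ) : ℚ) * line a (Z c b')) =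
        ∑ l, line a (Z a' l) * ps (∑ i, lineP a (A i l b'))
      have h1 : X * d⁄dX ℚ (line a (Z a' b')) = ∑ i, line a (MvPowerSeries.X i * pdv i (Z a' b')) := by
        rw [deriv_line, Finset.mul_sum]
        refine Finset.sum_congr rfl fun i _ => ?_
        rw [line_mul, line_X]
        ring
      have h2 : ∑ c, C (((∑ i, R i) a' c : ℤ) : ℚ) * line a (Z c b') =
          ∑ i, line a (∑ c, MvPowerSeries.C (R i a' c : ℚ) * Z c b') := by
        have h3 : ∀ i, line a (∑ c, MvPowerSeries.C (R i a' c : ℚ) * Z c b') = ∑ c, C (R i a' c : ℚ) * line a (Z c b') := by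
          intro i
          rw [← lineH_apply, map_sum]
          refine Finset.sum_congr rfl fun c _ => ?_
          rw [lineH_apply, line_mul, line_C]
        rw [Finset.sum_congr rfl fun i _ => h3 i, Finset.sum_comm]
        refine Finset.sum_congr rfl fun c _ => ?_
        rw [← Finset.sum_mul, ← map_sum, Matrix.sum_apply]
        push_cast
        rfl
      rw [h1, h2, ← Finset.sum_add_distrib, ← line_toMv, Finset.mul_sum]
      have h3 : ∀ i, line a (toMv T) * (line a (MvPowerSeries.X i * pdv i (Z a' b')) +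
          line a (∑ c, MvPowerSeries.C (R i a' c : ℚ) * Z c b')) = ∑ l, line a (Z a' l) * ps (lineP a (A i l b')) := by
        intro i
        rw [← line_add, ← line_mul, hG.ode, ← lineH_apply, map_sum]
        refine Finset.sum_congr rfl fun l _ => ?_
        rw [lineH_apply, line_mul, line_toMv]
      rw [Finset.sum_congr rfl fun i _ => h3 i, Finset.sum_comm]
      refine Finset.sum_congr rfl fun l _ => ?_
      rw [ps_sum, Finset.mul_sum]
    · -- the inverse
      have h1 : ∀ M : Matrix (Fin n) (Fin n) (MvPowerSeries (Fin m) ℚ), lineM a M = (lineH a).mapMatrix M := fun M => rfl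
      rw [h1, h1, ← map_mul, hG.inv, map_one]
    · refine (line_size hH1 (hG.size a' b') ha k).trans ?_
      exact pow_le_pow_left₀ (by positivity) hCx _
    · obtain ⟨d, hd0, hd, hd'⟩ := hG.den k
      refine ⟨d, hd0, hd.trans (pow_le_pow_left₀ (by linarith) hCx' _), fun a' b' =>
        ⟨line_den (fun ν hν => (hd' a' b' ν hν).1) a, line_den (fun ν hν => (hd' a' b' ν hν).2) a⟩⟩

end Pool.Agent.H885
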