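import Pool.Agent.H885.Base

/-!
# Tuples of families over bases of any dimension: uniform systems on the lines through the origin
-/

set_option autoImplicit false
set_option linter.unusedSectionVars false
set_option linter.unusedVariables false

open PowerSeries

namespace Pool.Agent.H885

open Pool.Agent.Y113
open Pool.Agent.Y120.GH (L1)

variable {m n N : ℕ}

/-- the number of monomials of degree at most `q` in `m` variables, or more -/
def nmon (m q : ℕ) : ℕ := ∑ k ∈ Finset.range (q + 1), (exps m k).card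

lemma support_card {q : ℕ} (P : MvPolynomial (Fin m) ℤ) (hq : P.totalDegree ≤ q) : P.support.card ≤ nmon m q := by
  classical
  have h1 : P.support ⊆ (Finset.range (q + 1)).biUnion fun k => exps m k := by
    intro ν hν
    rw [Finset.mem_biUnion]
    refine ⟨∑ i, ν i, ?_, mem_exps.2 rfl⟩
    rw [Finset.mem_range]
    have := MvPolynomial.le_totalDegree hν
    rw [Finsupp.sum_fintype _ _ (fun _ => rfl)] at this
    omega
  exact (Finset.card_le_card h1).trans Finset.card_biUnion_le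

/-- degree and size of the restriction to a line, uniformly -/
lemma lineP_L1u (P : MvPolynomial (Fin m) ℤ) {q : ℕ} (hq : P.totalDegree ≤ q) {H : ℝ} (hH : 0 ≤ H)
    (hP : ∀ ν, |((P.coeff ν : ℤ) : ℝ)| ≤ H) {h : ℕ} {a : Fin m → ℤ} (ha : ∀ i, |a i| ≤ h) :
    L1 q (((nmon m q : ℝ) + 1) * H * ((h : ℝ) + 2) ^ q) (lineP a P) := by
  classical
  rw [lineP_eq]
  have h1 : ∀ ν ∈ P.support, L1 q (|((P.coeff ν : ℤ) : ℝ)| * ((h : ℝ) + 2) ^ q)
      (Polynomial.C (P.coeff ν * ∏ i, a i ^ ν i) * Polynomial.X ^ (∑ i, ν i)) := by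
    intro ν hν
    have hdeg : ∑ i, ν i ≤ q := by
      refine le_trans ?_ hq
      have := MvPolynomial.le_totalDegree hν
      rw [Finsupp.sum_fintype _ _ (fun _ => rfl)] at this
      exact this
    have h2 := (Pool.Agent.Y120.GH.L1.X.pow (∑ i, ν i)).C_mul (P.coeff ν * ∏ i, a i ^ ν i)
      (B := |((P.coeff ν : ℤ) : ℝ)| * ((h : ℝ) + 2) ^ q) (by
        push_cast
        rw [abs_mul]
        refine mul_le_mul_of_nonneg_left ?_ (abs_nonneg _)
        have := prod_le ha hdeg
        push_cast at this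
        exact this)
    refine h2.mono (by omega) ?_
    rw [one_pow, mul_one]
  refine (Pool.Agent.Y120.GH.L1.sum _ h1).mono le_rfl ?_
  rw [← Finset.sum_mul]
  refine mul_le_mul_of_nonneg_right ?_ (by positivity)
  refine (Finset.sum_le_card_nsmul _ _ H fun ν _ => hP ν).trans ?_
  rw [nsmul_eq_mul]
  refine mul_le_mul_of_nonneg_right ?_ hH
  have : ((P.support.card : ℕ) : ℝ) ≤ (nmon m q : ℝ) := by exact_mod_cast support_card P hq
  linarith

/-- tuples of matrices of G-functions in `m` variables which solve connections, with bounds `q` for the degree and `H` for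
the size -/
structure GBaseU (q : ℕ) (H : ℝ) (T : MvPolynomial (Fin m) ℤ) (A : Fin N → Fin m → Fin n → Fin n → MvPolynomial (Fin m) ℤ)
    (Z W : Fin N → Matrix (Fin n) (Fin n) (MvPowerSeries (Fin m) ℚ)) : Prop where
  one_le : 1 ≤ H
  degT : T.totalDegree ≤ q
  sizeT : ∀ ν, |((T.coeff ν : ℤ) : ℝ)| ≤ H
  degA : ∀ j i a b, (A j i a b).totalDegree ≤ q
  sizeA : ∀ j i a b ν, |(((A j i a b).coeff ν : ℤ) : ℝ)| ≤ H
  ode : ∀ j i a b, toMv T * pdv i (Z j a b) = ∑ l, Z j a l * toMv (A j i l b)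
  inv : ∀ j, W j * Z j = 1
  size : ∀ j a b (ν : Fin m →₀ ℕ), |((MvPowerSeries.coeff ν (Z j a b) : ℚ) : ℝ)| ≤ H ^ (∑ i, ν i + 1)
  den : ∀ k : ℕ, ∃ d : ℕ, 0 < d ∧ (d : ℝ) ≤ H ^ (k + 1) ∧ ∀ j a b (ν : Fin m →₀ ℕ), ∑ i, ν i ≤ k →
    (∃ z : ℤ, (d : ℚ) * MvPowerSeries.coeff ν (Z j a b) = z) ∧ ∃ z : ℤ, (d : ℚ) * MvPowerSeries.coeff ν (W j a b) = z

/-- **Restriction of families to the lines through the origin, uniformly.** -/
theorem base_sysU (m n N q₀ : ℕ) : ∃ q E₀ : ℕ, ∀ (H : ℝ) (T : MvPolynomial (Fin m) ℤ)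
    (A : Fin N → Fin m → Fin n → Fin n → MvPolynomial (Fin m) ℤ)
    (Z W : Fin N → Matrix (Fin n) (Fin n) (MvPowerSeries (Fin m) ℚ)), GBaseU q₀ H T A Z W →
    ∀ (h : ℕ) (a : Fin N → Fin m → ℤ), (∀ j i, |a j i| ≤ h) → (∀ j, line (a j) (toMv T) ≠ 0) →
      ∃ (T' : Polynomial ℤ) (B' : Fin N → Fin n → Fin n → Polynomial ℤ), T' ≠ 0 ∧
        Sys q ((2 * H * ((h : ℝ) + 2)) ^ E₀) T' B' (fun j => lineM (a j) (Z j)) (fun j => lineM (a j) (W j)) := by
  classical
  obtain ⟨e₁, he₁⟩ := pow_absorb (c := (nmon m q₀ : ℝ) + 1) (by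
    have : (0 : ℝ) ≤ nmon m q₀ := by positivity
    linarith)
  obtain ⟨e₂, he₂⟩ := pow_absorb (c := (2 : ℝ) ^ m) (one_le_pow₀ (by norm_num))
  obtain ⟨e₃, he₃⟩ := pow_absorb (c := (m : ℝ) + 1) (by
    have : (0 : ℝ) ≤ m := by positivity
    linarith)
  refine ⟨q₀ * (N + 1), (e₁ + 1 + q₀) * (N + 1) + (e₂ + 2) + (e₃ + 1), fun H T A Z W hG h a ha hTa => ?_⟩
  have hH1 := hG.one_le
  have hh0 : (0 : ℝ) ≤ h := by positivity
  set x : ℝ := 2 * H * ((h : ℝ) + 2) with hx
  have hhx : (h : ℝ) + 2 ≤ x := by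
    rw [hx]
    nlinarith
  have hHx : H ≤ x := by
    rw [hx]
    nlinarith
  have hx2 : 2 ≤ x := by linarith
  have hx1 : 1 ≤ x := by linarith
  set y : ℝ := x ^ (e₁ + 1 + q₀) with hy
  have hy1 : 1 ≤ y := one_le_pow₀ hx1
  have hL : ∀ (j : Fin N) (P : MvPolynomial (Fin m) ℤ), P.totalDegree ≤ q₀ → (∀ ν, |((P.coeff ν : ℤ) : ℝ)| ≤ H) →
      L1 q₀ y (lineP (a j) P) := by
    intro j P hP1 hP2
    refine (lineP_L1u P hP1 (by linarith) hP2 (ha j)).mono le_rfl ?_
    rw [hy, pow_add, pow_add, pow_one]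
    refine mul_le_mul (mul_le_mul (he₁ x hx2) hHx (by linarith) (by positivity))
      (pow_le_pow_left₀ (by positivity) hhx _) (by positivity) (by positivity)
  have hLT : ∀ j, L1 q₀ y (lineP (a j) T) := fun j => hL j T hG.degT hG.sizeT
  have hLA : ∀ j i l b, L1 q₀ y (lineP (a j) (A j i l b)) := fun j i l b => hL j _ (hG.degA j i l b) (hG.sizeA j i l b)
  have hprod : ∀ s : Finset (Fin N), L1 (q₀ * s.card) (y ^ s.card) (∏ j ∈ s, lineP (a j) T) := by
    intro s
    induction s using Finset.induction_on with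
    | empty => simpa using Pool.Agent.Y120.GH.L1.one
    | insert j s hj ih =>
      rw [Finset.prod_insert hj, Finset.card_insert_of_notMem hj]
      refine ((hLT j).mul ih).mono ?_ ?_
      · ring_nf
        omega
      · rw [pow_succ, mul_comm]
  set T' : Polynomial ℤ := ∏ j, lineP (a j) T with hT'
  set B' : Fin N → Fin n → Fin n → Polynomial ℤ := fun j l b =>
    (∑ i, Polynomial.C (a j i) * lineP (a j) (A j i l b)) * ∏ j' ∈ Finset.univ.erase j, lineP (a j') T with hB'
  set E : ℕ := (e₁ + 1 + q₀) * (N + 1) + (e₂ + 2) + (e₃ + 1) with hE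
  have hyE : y ^ (N + 1) * x ^ (e₃ + 1) ≤ x ^ E := by
    rw [hy, ← pow_mul, ← pow_add]
    exact pow_le_pow_right₀ hx1 (by omega)
  have hLT' : L1 (q₀ * (N + 1)) (x ^ E) T' := by
    refine (hprod Finset.univ).mono ?_ ?_
    · rw [Finset.card_univ, Fintype.card_fin]
      exact Nat.mul_le_mul_left _ (by omega)
    · rw [Finset.card_univ, Fintype.card_fin]
      refine le_trans ?_ hyE
      calc y ^ N ≤ y ^ (N + 1) := pow_le_pow_right₀ hy1 (by omega)
        _ ≤ _ := le_mul_of_one_le_right (by positivity) (one_le_pow₀ hx1)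
  have hLB' : ∀ j l b, L1 (q₀ * (N + 1)) (x ^ E) (B' j l b) := by
    intro j l b
    have h1 : L1 q₀ (∑ i : Fin m, x * y) (∑ i, Polynomial.C (a j i) * lineP (a j) (A j i l b)) := by
      refine Pool.Agent.Y120.GH.L1.sum _ fun i _ => (hLA j i l b).C_mul (a j i) ?_
      have : ((|a j i| : ℤ) : ℝ) ≤ (h : ℝ) := by exact_mod_cast ha j i
      rw [Int.cast_abs] at this
      linarith
    refine (h1.mul (hprod (Finset.univ.erase j))).mono ?_ ?_
    · have : (Finset.univ.erase j).card ≤ N := by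
        rw [Finset.card_erase_of_mem (Finset.mem_univ j), Finset.card_univ, Fintype.card_fin]
        omega
      calc q₀ + q₀ * (Finset.univ.erase j).card ≤ q₀ + q₀ * N := Nat.add_le_add_left (Nat.mul_le_mul_left _ this) _
        _ = q₀ * (N + 1) := by ring
    · have h2 : (Finset.univ.erase j).card ≤ N := by
        rw [Finset.card_erase_of_mem (Finset.mem_univ j), Finset.card_univ, Fintype.card_fin]
        omega
      rw [Finset.sum_const, Finset.card_univ, Fintype.card_fin, nsmul_eq_mul]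
      have h3 : (m : ℝ) ≤ x ^ e₃ := by
        have := he₃ x hx2
        linarith
      have h4 : y ^ (Finset.univ.erase j).card ≤ y ^ N := pow_le_pow_right₀ hy1 h2
      calc (m : ℝ) * (x * y) * y ^ (Finset.univ.erase j).card ≤ x ^ e₃ * (x * y) * y ^ N := by
            refine mul_le_mul (mul_le_mul_of_nonneg_right h3 (by positivity)) h4 (by positivity) (by positivity)
        _ = y ^ (N + 1) * x ^ (e₃ + 1) := by ring
        _ ≤ _ := hyE
  have hCx : 2 ^ m * (H * ((h : ℝ) + 2)) ≤ x ^ E := by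
    calc 2 ^ m * (H * ((h : ℝ) + 2)) ≤ x ^ e₂ * (x * x) := by
          refine mul_le_mul (he₂ x hx2) (mul_le_mul hHx hhx (by positivity) (by positivity)) (by positivity) (by positivity)
      _ = x ^ (e₂ + 2) := by ring
      _ ≤ x ^ E := pow_le_pow_right₀ hx1 (by omega)
  have hCx' : H ≤ x ^ E := by
    calc H ≤ x ^ 1 := by rw [pow_one]; exact hHx
      _ ≤ x ^ E := pow_le_pow_right₀ hx1 (by omega)
  refine ⟨T', B', ?_, ?_⟩
  · rw [hT', Finset.prod_ne_zero_iff]
    intro j _ h0
    apply hTa j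
    rw [line_toMv, h0]
    unfold ps
    simp
  · refine ⟨one_le_pow₀ hx1, hLT'.1, fun l => hLT'.coeff_le l, fun j l b => (hLB' j l b).1,
      fun j l b k => (hLB' j l b).coeff_le k, fun j a' b' => ?_, fun j => ?_, fun j a' b' k => ?_, fun k => ?_⟩
    · -- the differential equation
      have h1 : T' = (∏ j' ∈ Finset.univ.erase j, lineP (a j') T) * lineP (a j) T := by
        rw [hT', Finset.prod_erase_mul _ _ (Finset.mem_univ j)]
      have h2 : ps (lineP (a j) T) * d⁄dX ℚ (line (a j) (Z j a' b')) =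
          ∑ l, line (a j) (Z j a' l) * ps (∑ i, Polynomial.C (a j i) * lineP (a j) (A j i l b')) := by
        rw [deriv_line, ← line_toMv, Finset.mul_sum]
        have h3 : ∀ i, line (a j) (toMv T) * (PowerSeries.C (a j i : ℚ) * line (a j) (pdv i (Z j a' b'))) =
            ∑ l, PowerSeries.C (a j i : ℚ) * (line (a j) (Z j a' l) * ps (lineP (a j) (A j i l b'))) := by
          intro i
          have h4 : line (a j) (toMv T) * (PowerSeries.C (a j i : ℚ) * line (a j) (pdv i (Z j a' b'))) =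
              PowerSeries.C (a j i : ℚ) * line (a j) (toMv T * pdv i (Z j a' b')) := by
            rw [line_mul]
            ring
          rw [h4, hG.ode, ← Finset.mul_sum]
          congr 1
          rw [← lineH_apply, map_sum]
          refine Finset.sum_congr rfl fun l _ => ?_
          rw [lineH_apply, line_mul, line_toMv]
        rw [Finset.sum_congr rfl fun i _ => h3 i, Finset.sum_comm]
        refine Finset.sum_congr rfl fun l _ => ?_
        rw [ps_sum, Finset.mul_sum]
        refine Finset.sum_congr rfl fun i _ => ?_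
        rw [ps_mul, ps_C]
        have h5 : PowerSeries.C (a j i : ℚ) = ((a j i : ℤ) : ℚ⟦X⟧) := by simp
        rw [h5]
        ring
      show ps T' * d⁄dX ℚ (line (a j) (Z j a' b')) = ∑ l, line (a j) (Z j a' l) * ps (B' j l b')
      rw [h1, ps_mul, mul_assoc, h2, Finset.mul_sum]
      refine Finset.sum_congr rfl fun l _ => ?_
      rw [hB', ps_mul]
      ring
    · -- the inverse
      show lineM (a j) (W j) * lineM (a j) (Z j) = 1
      have h1 : ∀ M : Matrix (Fin n) (Fin n) (MvPowerSeries (Fin m) ℚ), lineM (a j) M = (lineH (a j)).mapMatrix M := fun M => rfl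
      rw [h1, h1, ← map_mul, hG.inv, map_one]
    · refine (line_size hH1 (hG.size j a' b') (ha j) k).trans ?_
      exact pow_le_pow_left₀ (by positivity) hCx _
    · obtain ⟨d, hd0, hd, hd'⟩ := hG.den k
      refine ⟨d, hd0, hd.trans (pow_le_pow_left₀ (by linarith) hCx' _), fun j a' b' =>
        ⟨line_den (fun ν hν => (hd' j a' b' ν hν).1) (a j), line_den (fun ν hν => (hd' j a' b' ν hν).2) (a j)⟩⟩

end Pool.Agent.H885
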