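import Pool.Agent.H885.RelL
import Pool.Graph.R_pool_sql_team_seeded_620a6dc7.Helper880_R3.Rel

/-!
# Relations between the values are preserved by exponential curves
-/

set_option autoImplicit false
set_option linter.unusedSectionVars false
set_option linter.unusedVariables false

open Matrix Module Filter PowerSeries

namespace Pool.Agent.H885

open Pool.Agent.Y113 (ev Cv GSys ps)
open Pool.Agent.Y118.HV (Hv hh)
open Pool.Agent.Helper880_R3 (ec Cc ec_rel Cc_map ec_map entire_zero eval_HD curve_HD exp_zero')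

variable {n N : ℕ}

/-- the entries as complex power series -/
noncomputable def cent (Z : Fin N → Matrix (Fin n) (Fin n) ℚ⟦X⟧) (σ : Fin N × Fin n × Fin n) : ℂ⟦X⟧ :=
  PowerSeries.map (algebraMap ℚ ℂ) (Z σ.1 σ.2.1 σ.2.2)

/-- `(X_j)` is an infinitesimal symmetry of the relations over `ℂ(x)` between the entries of the `Z j` -/
def InfT (Z : Fin N → Matrix (Fin n) (Fin n) ℚ⟦X⟧) (X : Fin N → Matrix (Fin n) (Fin n) ℂ) : Prop :=
  ∀ R : MvPolynomial (Fin N × Fin n × Fin n) (Polynomial ℂ), MvPolynomial.aeval (cent Z) R = 0 →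
    ∑ σ, MvPolynomial.aeval (cent Z) (MvPolynomial.pderiv σ R) * ∑ l, PowerSeries.C (X σ.1 σ.2.1 l) * cent Z (σ.1, l, σ.2.2) = 0

/-- the entries of complex matrices -/
def vz {F : Type} (z : Fin N → Matrix (Fin n) (Fin n) F) (σ : Fin N × Fin n × Fin n) : F := z σ.1 σ.2.1 σ.2.2

/-- the vector field -/
noncomputable def DT (X : Fin N → Matrix (Fin n) (Fin n) ℂ) (R : MvPolynomial (Fin N × Fin n × Fin n) (Polynomial ℂ)) :
    MvPolynomial (Fin N × Fin n × Fin n) (Polynomial ℂ) :=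
  ∑ σ, MvPolynomial.pderiv σ R * ∑ l, MvPolynomial.C (Polynomial.C (X σ.1 σ.2.1 l)) * MvPolynomial.X (σ.1, l, σ.2.2)

theorem curveT {Z : Fin N → Matrix (Fin n) (Fin n) ℚ⟦X⟧} {X : Fin N → Matrix (Fin n) (Fin n) ℂ} (hX : InfT Z X) {t : ℕ}
    (ht : 0 < t) (hc : ∀ j a b, Cv (t : ℝ) (Z j a b)) {R : MvPolynomial (Fin N × Fin n × Fin n) (Polynomial ℂ)}
    (hR : MvPolynomial.aeval (cent Z) R = 0) (s : ℂ) :
    MvPolynomial.eval (vz fun j => NormedSpace.exp (s • X j) * Hv (Z j) t)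
      (MvPolynomial.map (Polynomial.evalRingHom (((1 / (t : ℝ) : ℝ)) : ℂ)) R) = 0 := by
  have ht0 : (0 : ℝ) < t := by exact_mod_cast ht
  refine entire_zero (fun R : MvPolynomial (Fin N × Fin n × Fin n) (Polynomial ℂ) => MvPolynomial.aeval (cent Z) R = 0)
    (fun R s => MvPolynomial.eval (vz fun j => NormedSpace.exp (s • X j) * Hv (Z j) t)
      (MvPolynomial.map (Polynomial.evalRingHom (((1 / (t : ℝ) : ℝ)) : ℂ)) R)) (DT X) (fun R hR => ?_) (fun R hR => ?_)
    (fun R hR s => ?_) R hR s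
  · refine Eq.trans ?_ (hX R hR)
    unfold DT
    rw [map_sum]
    refine Finset.sum_congr rfl fun σ _ => ?_
    rw [map_mul, map_sum]
    congr 1
    refine Finset.sum_congr rfl fun l _ => ?_
    rw [map_mul, MvPolynomial.aeval_C, MvPolynomial.aeval_X]
    congr 1
    exact Polynomial.coe_C _
  · have h1 := (ec_rel (q := 1 / (t : ℝ)) (fun σ : Fin N × Fin n × Fin n => Cc_map ht0 (hc σ.1 σ.2.1 σ.2.2)) R).2
    have h2 : (fun σ : Fin N × Fin n × Fin n => PowerSeries.map (algebraMap ℚ ℂ) (Z σ.1 σ.2.1 σ.2.2)) = cent Z := rfl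
    rw [h2, hR] at h1
    have h3 : ec (1 / (t : ℝ)) 0 = 0 := by
      unfold ec
      simp
    rw [h3] at h1
    have h5 : (vz fun j => NormedSpace.exp ((0 : ℂ) • X j) * Hv (Z j) t) =
        fun σ : Fin N × Fin n × Fin n => ec (1 / (t : ℝ)) (PowerSeries.map (algebraMap ℚ ℂ) (Z σ.1 σ.2.1 σ.2.2)) := by
      funext σ
      show (NormedSpace.exp ((0 : ℂ) • X σ.1) * Hv (Z σ.1) t) σ.2.1 σ.2.2 = _
      have h6 : (0 : ℂ) • X σ.1 = 0 := zero_smul _ _
      rw [h6, exp_zero', Matrix.one_mul, ec_map]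
      rfl
    show MvPolynomial.eval (vz fun j => NormedSpace.exp ((0 : ℂ) • X j) * Hv (Z j) t) _ = 0
    rw [h5]
    exact h1.symm
  · have h1 := eval_HD (MvPolynomial.map (Polynomial.evalRingHom (((1 / (t : ℝ) : ℝ)) : ℂ)) R)
      (y := fun s => vz fun j => NormedSpace.exp (s • X j) * Hv (Z j) t)
      (y' := fun σ => (X σ.1 * (NormedSpace.exp (s • X σ.1) * Hv (Z σ.1) t)) σ.2.1 σ.2.2) (s := s)
      (fun σ => curve_HD (X σ.1) (Hv (Z σ.1) t) s σ.2)
    refine h1.congr_deriv ?_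
    unfold DT
    rw [map_sum, map_sum]
    refine Finset.sum_congr rfl fun σ _ => ?_
    rw [map_mul, map_mul, MvPolynomial.pderiv_map, map_sum, map_sum, Matrix.mul_apply]
    congr 1
    refine Finset.sum_congr rfl fun l _ => ?_
    rw [map_mul, map_mul, MvPolynomial.map_C, MvPolynomial.map_X, MvPolynomial.eval_C, MvPolynomial.eval_X]
    congr 1
    exact (Polynomial.eval_C).symm

/-- the polynomial `T` does not vanish at `1 / t` -/
theorem T_ne {T : Polynomial ℤ} (hT : T ≠ 0) {q : ℕ} {H : ℝ} (hH : 1 ≤ H) (hq : T.natDegree ≤ q)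
    (hs : ∀ l, |((T.coeff l : ℤ) : ℝ)| ≤ H) {t : ℕ} (ht : (q + 1) * H < (t : ℝ)) :
    Polynomial.aeval (1 / (t : ℝ)) T ≠ 0 := by
  intro h0
  have htpos : (0 : ℝ) < t := by
    have : (0 : ℝ) ≤ (q + 1) * H := by positivity
    linarith
  obtain ⟨Q, hQ, hQ0⟩ : ∃ Q : Polynomial ℤ, T = Polynomial.X ^ T.natTrailingDegree * Q ∧ Q.coeff 0 ≠ 0 := by
    obtain ⟨Q, hQ⟩ : Polynomial.X ^ T.natTrailingDegree ∣ T := by
      rw [Polynomial.X_pow_dvd_iff]
      intro d hd
      exact Polynomial.coeff_eq_zero_of_lt_natTrailingDegree hd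
    refine ⟨Q, hQ, ?_⟩
    have h1 : T.coeff T.natTrailingDegree = Q.coeff 0 := by
      have h2 := Polynomial.coeff_X_pow_mul Q T.natTrailingDegree 0
      rw [zero_add] at h2
      have h3 := congrArg (fun P : Polynomial ℤ => P.coeff T.natTrailingDegree) hQ
      exact h3.trans h2
    rw [← h1]
    exact Polynomial.trailingCoeff_nonzero_iff_nonzero.2 hT
  set e := T.natTrailingDegree with he
  have hcoef : ∀ l, Q.coeff l = T.coeff (l + e) := by
    intro l
    rw [hQ, Polynomial.coeff_X_pow_mul]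
  have hQs : ∀ l, |((Q.coeff l : ℤ) : ℝ)| ≤ H := fun l => by
    rw [hcoef]
    exact hs _
  have hQd : Q.natDegree ≤ q := by
    rw [Polynomial.natDegree_le_iff_coeff_eq_zero]
    intro l hl
    rw [hcoef, Polynomial.coeff_eq_zero_of_natDegree_lt (by omega)]
  have hval : Polynomial.aeval (1 / (t : ℝ)) Q = 0 := by
    rw [hQ, map_mul, map_pow, Polynomial.aeval_X] at h0
    exact (mul_eq_zero.1 h0).resolve_left (pow_ne_zero _ (by positivity))
  rw [Polynomial.aeval_eq_sum_range' (n := q + 1) (by omega), Finset.sum_range_succ'] at hval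
  have h2 : |∑ k ∈ Finset.range q, Q.coeff (k + 1) • (1 / (t : ℝ)) ^ (k + 1)| ≤ q * (H * (1 / t)) := by
    refine (Finset.abs_sum_le_sum_abs _ _).trans ?_
    refine (Finset.sum_le_card_nsmul _ _ (H * (1 / t)) fun k _ => ?_).trans (by rw [Finset.card_range, nsmul_eq_mul])
    rw [zsmul_eq_mul, abs_mul]
    refine mul_le_mul (hQs _) ?_ (abs_nonneg _) (by linarith)
    rw [abs_of_nonneg (by positivity), pow_succ]
    have h3 : (1 / (t : ℝ)) ^ k ≤ 1 := by
      refine pow_le_one₀ (by positivity) ?_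
      rw [div_le_one htpos]
      have : (1 : ℝ) ≤ (q + 1) * H := by
        have : (0 : ℝ) ≤ q := by positivity
        nlinarith
      linarith
    have h4 : (0 : ℝ) ≤ 1 / t := by positivity
    nlinarith
  have h5 : (q : ℝ) * (H * (1 / t)) < 1 := by
    rw [← mul_assoc, mul_one_div, div_lt_one htpos]
    nlinarith
  have h6 : (1 : ℝ) ≤ |((Q.coeff 0 : ℤ) : ℝ)| := by
    exact_mod_cast Int.one_le_abs hQ0
  simp only [pow_zero, zsmul_eq_mul, mul_one] at hval h2
  have h7 : ((Q.coeff 0 : ℤ) : ℝ) = - ∑ k ∈ Finset.range q, ((Q.coeff (k + 1) : ℤ) : ℝ) * (1 / (t : ℝ)) ^ (k + 1) := by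
    linarith
  rw [h7, abs_neg] at h6
  linarith

theorem aeval_cent (Z : Fin N → Matrix (Fin n) (Fin n) ℚ⟦X⟧) (R : MvPolynomial (Fin N × Fin n × Fin n) (Polynomial ℚ)) :
    MvPolynomial.aeval (cent Z) (MvPolynomial.map (Polynomial.mapRingHom (algebraMap ℚ ℂ)) R) =
      PowerSeries.map (algebraMap ℚ ℂ) (MvPolynomial.aeval (ent Z) R) := by
  induction R using MvPolynomial.induction_on with
  | C p =>
    rw [MvPolynomial.map_C, MvPolynomial.aeval_C, MvPolynomial.aeval_C]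
    have h1 : algebraMap (Polynomial ℂ) ℂ⟦X⟧ (Polynomial.mapRingHom (algebraMap ℚ ℂ) p) =
      ((p.map (algebraMap ℚ ℂ) : Polynomial ℂ) : ℂ⟦X⟧) := rfl
    have h2 : algebraMap (Polynomial ℚ) ℚ⟦X⟧ p = (p : ℚ⟦X⟧) := rfl
    rw [h1, h2]
    ext m
    rw [Polynomial.coeff_coe, Polynomial.coeff_map, PowerSeries.coeff_map, Polynomial.coeff_coe]
  | add p q hp hq => rw [map_add, map_add, map_add, map_add, hp, hq]
  | mul_X p i hp =>
    rw [map_mul, map_mul, map_mul, map_mul, hp, MvPolynomial.map_X, MvPolynomial.aeval_X, MvPolynomial.aeval_X]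
    rfl

/-- **relations between the values are preserved by exponential curves** -/
theorem rel_curve (q n N d : ℕ) : ∃ E : ℕ, ∀ (H : ℝ) (T : Polynomial ℤ) (B : Fin N → Fin n → Fin n → Polynomial ℤ)
    (Z W : Fin N → Matrix (Fin n) (Fin n) ℚ⟦X⟧), Sys q H T B Z W → T ≠ 0 → ∀ t : ℕ, (2 * H) ^ E ≤ (t : ℝ) →
    ∀ X : Fin N → Matrix (Fin n) (Fin n) ℂ, InfT Z X →
    ∀ P : MvPolynomial (Fin N × Fin n × Fin n) ℚ, P.totalDegree ≤ d →
    MvPolynomial.aeval (vz fun j => Hv (Z j) t) P = 0 →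
    ∀ s : ℂ, MvPolynomial.aeval (vz fun j => NormedSpace.exp (s • X j) * Hv (Z j) t) P = 0 := by
  obtain ⟨E, hE⟩ := rel_lift q n N d
  refine ⟨E + (q + 3), fun H T B Z W hS hT0 t ht X hX P hP hP0 s => ?_⟩
  have hH := hS.one_le
  have hD1 : 1 ≤ 2 * H := by linarith
  have hTt : Polynomial.aeval (1 / (t : ℝ)) T ≠ 0 := by
    refine T_ne hT0 hH hS.degT hS.sizeT ?_
    have h1 : ((q + 2 : ℕ) : ℝ) * H ^ 1 ≤ (2 * H) ^ (q + 2 + 1) := const_le hH 1
    have h2 : (2 * H) ^ (q + 3) ≤ (2 * H) ^ (E + (q + 3)) := pow_le_pow_right₀ hD1 (by omega)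
    push_cast at h1
    rw [pow_one] at h1
    nlinarith
  obtain ⟨⟨ht0, hcv⟩, hrel⟩ := hE H T B Z W hS t ((pow_le_pow_right₀ hD1 (by omega)).trans ht) hTt
  obtain ⟨R, hR1, hR2⟩ := hrel P hP hP0
  set R' : MvPolynomial (Fin N × Fin n × Fin n) (Polynomial ℂ) :=
    MvPolynomial.map (Polynomial.mapRingHom (algebraMap ℚ ℂ)) R with hR'
  have h1 : MvPolynomial.aeval (cent Z) R' = 0 := by
    rw [hR', aeval_cent, hR1, map_zero]
  have h2 := curveT hX ht0 hcv h1 s
  rw [hR', MvPolynomial.map_map] at h2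
  have h3 : (Polynomial.evalRingHom (((1 / (t : ℝ) : ℝ)) : ℂ)).comp (Polynomial.mapRingHom (algebraMap ℚ ℂ)) =
      (algebraMap ℚ ℂ).comp (Polynomial.evalRingHom (1 / (t : ℚ))) := by
    refine Polynomial.ringHom_ext (fun a => ?_) ?_
    · simp
    · simp
  rw [h3, ← MvPolynomial.map_map, hR2, MvPolynomial.eval_map] at h2
  exact h2

end Pool.Agent.H885
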