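import Pool.Agent.H885.DiscS
import Pool.Agent.H885.CurT

/-!
# Symmetries of one block are symmetries of the relations with coefficients which are holomorphic in the disc
-/

set_option autoImplicit false
set_option linter.unusedSectionVars false
set_option linter.unusedVariables false

open Filter Topology Metric Set PowerSeries

namespace Pool.Agent.H885

open Pool.Agent.Y113 (ev Cv GSys ps)
open Pool.Agent.Y120.GH (An mem_An cx Cw ou ou_an ou_mul ou_add ou_C ou_one ou_zero ou_X ou_sum ou_prod ou_poly ou_shift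
  Disc Up Up_open Up_conv Up_norm ou_inj poly_mem Cw_mono rev_eval)

variable {n N : ℕ}

/-! ### polynomials -/

section alg
variable {A : Type} [CommRing A]

lemma exists_coef' {σ : Type} [Fintype σ] {d : ℕ} (P : MvPolynomial σ A) (hP : P.totalDegree ≤ d) :
    ∃ c : (Fin d → Option σ) → A, P = ∑ b, MvPolynomial.C (c b) * monO A b := by
  classical
  have h1 : ∀ m ∈ P.support, ∃ b : Fin d → Option σ, monO A b = MvPolynomial.monomial m 1 := fun m hm =>
    exists_tuple d m ((MvPolynomial.le_totalDegree hm).trans hP)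
  choose! β hβ using h1
  refine ⟨fun b => ∑ m ∈ P.support.filter (fun m => β m = b), P.coeff m, ?_⟩
  conv_lhs => rw [P.as_sum]
  have h2 : ∀ b : Fin d → Option σ, MvPolynomial.C (∑ m ∈ P.support.filter (fun m => β m = b), P.coeff m) * monO A b =
      ∑ m ∈ P.support.filter (fun m => β m = b), MvPolynomial.monomial m (P.coeff m) := by
    intro b
    rw [map_sum, Finset.sum_mul]
    refine Finset.sum_congr rfl fun m hm => ?_
    rw [Finset.mem_filter] at hm
    rw [← hm.2, hβ m hm.1, MvPolynomial.C_mul_monomial, mul_one]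
  rw [Finset.sum_congr rfl fun b _ => h2 b]
  exact (Finset.sum_fiberwise P.support β fun m => MvPolynomial.monomial m (P.coeff m)).symm

lemma monO_map {A' : Type} [CommRing A'] (f : A →+* A') {σ : Type} {d : ℕ} (b : Fin d → Option σ) :
    MvPolynomial.map f (monO A b) = monO A' b := by
  unfold monO
  rw [map_prod]
  refine Finset.prod_congr rfl fun l _ => ?_
  rcases b l with _ | σ
  · show MvPolynomial.map f (1 : MvPolynomial _ A) = 1
    rw [map_one]
  · show MvPolynomial.map f (MvPolynomial.X σ) = MvPolynomial.X σ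
    rw [MvPolynomial.map_X]

/-- the linear vector field -/
noncomputable def Dv (ι : ℂ →+* A) (X : Fin N → Matrix (Fin n) (Fin n) ℂ) :
    Derivation A (MvPolynomial (Fin N × Fin n × Fin n) A) (MvPolynomial (Fin N × Fin n × Fin n) A) :=
  MvPolynomial.mkDerivation A fun σ => ∑ l, MvPolynomial.C (ι (X σ.1 σ.2.1 l)) * MvPolynomial.X (σ.1, l, σ.2.2)

variable {ι : ℂ →+* A} {X : Fin N → Matrix (Fin n) (Fin n) ℂ}

lemma Dv_X (σ : Fin N × Fin n × Fin n) : Dv ι X (MvPolynomial.X σ) =
    ∑ l, MvPolynomial.C (ι (X σ.1 σ.2.1 l)) * MvPolynomial.X (σ.1, l, σ.2.2) := MvPolynomial.mkDerivation_X _ _ _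

lemma Dv_C (a : A) : Dv ι X (MvPolynomial.C a) = 0 := (Dv ι X).map_algebraMap a

lemma Dv_mul (P Q : MvPolynomial (Fin N × Fin n × Fin n) A) : Dv ι X (P * Q) = P * Dv ι X Q + Q * Dv ι X P := by
  rw [Derivation.leibniz]
  rfl

lemma Dv_C_mul (a : A) (P : MvPolynomial (Fin N × Fin n × Fin n) A) :
    Dv ι X (MvPolynomial.C a * P) = MvPolynomial.C a * Dv ι X P := by
  rw [Dv_mul, Dv_C, mul_zero, add_zero]

lemma Dv_map {A' : Type} [CommRing A'] (f : A →+* A') (R : MvPolynomial (Fin N × Fin n × Fin n) A) :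
    MvPolynomial.map f (Dv ι X R) = Dv (f.comp ι) X (MvPolynomial.map f R) := by
  induction R using MvPolynomial.induction_on with
  | C a => rw [Dv_C, map_zero, MvPolynomial.map_C, Dv_C]
  | add p q hp hq => rw [map_add, map_add, hp, hq, map_add, map_add]
  | mul_X p i hp =>
    rw [Dv_mul, map_add, map_mul, map_mul, map_mul, hp, Dv_mul, MvPolynomial.map_X, Dv_X, Dv_X, map_sum]
    congr 2
    refine Finset.sum_congr rfl fun l _ => ?_
    rw [map_mul, MvPolynomial.map_C, MvPolynomial.map_X]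
    rfl

lemma Dv_eq (R : MvPolynomial (Fin N × Fin n × Fin n) A) : Dv ι X R =
    ∑ σ, MvPolynomial.pderiv σ R * ∑ l, MvPolynomial.C (ι (X σ.1 σ.2.1 l)) * MvPolynomial.X (σ.1, l, σ.2.2) := by
  classical
  induction R using MvPolynomial.induction_on with
  | C a =>
    rw [Dv_C, Finset.sum_eq_zero]
    intro σ _
    rw [MvPolynomial.pderiv_C, zero_mul]
  | add p q hp hq =>
    rw [map_add, hp, hq, ← Finset.sum_add_distrib]
    refine Finset.sum_congr rfl fun σ _ => ?_
    rw [map_add, add_mul]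
  | mul_X p i hp =>
    rw [Dv_mul, hp, Dv_X, Finset.mul_sum Finset.univ _ (MvPolynomial.X i)]
    have h1 : ∀ σ, MvPolynomial.pderiv σ (p * MvPolynomial.X i) = p * (if i = σ then 1 else 0) +
        MvPolynomial.X i * MvPolynomial.pderiv σ p := by
      intro σ
      rw [Derivation.leibniz, MvPolynomial.pderiv_X, Pi.single_apply]
      simp only [smul_eq_mul]
    simp only [h1, add_mul, Finset.sum_add_distrib]
    congr 1
    · rw [Finset.sum_eq_single i]
      · rw [if_pos rfl, mul_one]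
      · intro σ _ hσ
        rw [if_neg (fun h => hσ h.symm), mul_zero, zero_mul]
      · intro h
        exact absurd (Finset.mem_univ _) h
    · refine Finset.sum_congr rfl fun σ _ => ?_
      ring

/-- evaluation of the vector field on words does not depend on the coefficient ring -/
lemma eval_Dv {g : A →+* ℂ} (hg : g.comp ι = RingHom.id ℂ) (v : Fin N × Fin n × Fin n → ℂ) {d : ℕ}
    (b : Fin d → Option (Fin N × Fin n × Fin n)) :
    MvPolynomial.eval₂Hom g v (Dv ι X (monO A b)) = MvPolynomial.eval v (Dv (RingHom.id ℂ) X (monO ℂ b)) := by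
  rw [MvPolynomial.coe_eval₂Hom, MvPolynomial.eval₂_eq_eval_map, Dv_map, hg, monO_map]

lemma eval_mon (g : A →+* ℂ) (v : Fin N × Fin n × Fin n → ℂ) {d : ℕ} (b : Fin d → Option (Fin N × Fin n × Fin n)) :
    MvPolynomial.eval₂Hom g v (monO A b) = MvPolynomial.eval v (monO ℂ b) := by
  rw [MvPolynomial.coe_eval₂Hom, MvPolynomial.eval₂_eq_eval_map, monO_map]

end alg

/-- bases of finite families over the polynomials -/
lemma ex_basis {I : Type} [Fintype I] (v : I → PowerSeries ℂ) : ∃ (S : Set I) (_ : Fintype S) (a : Polynomial ℂ)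
    (q : I → S → Polynomial ℂ), a ≠ 0 ∧ (∀ G : S → Polynomial ℂ, ∑ i, (G i : PowerSeries ℂ) * v i.1 = 0 → ∀ i, G i = 0) ∧
      ∀ b, (a : PowerSeries ℂ) * v b = ∑ β, (q b β : PowerSeries ℂ) * v β.1 := by
  classical
  obtain ⟨S, hS1, hS2⟩ := exists_maximal_linearIndepOn (Polynomial ℂ) v
  have hfin : Fintype S := Fintype.ofFinite S
  have hsm : ∀ (p : Polynomial ℂ) (f : PowerSeries ℂ), p • f = (p : PowerSeries ℂ) * f := fun p f => by
    rw [Algebra.smul_def]
    rfl
  have h1 : ∀ b, ∃ (a : Polynomial ℂ) (q : S → Polynomial ℂ), a ≠ 0 ∧ (a : PowerSeries ℂ) * v b =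
      ∑ β, (q β : PowerSeries ℂ) * v β.1 := by
    intro b
    by_cases hb : b ∈ S
    · refine ⟨1, Pi.single ⟨b, hb⟩ 1, one_ne_zero, ?_⟩
      rw [Finset.sum_eq_single (⟨b, hb⟩ : S)]
      · rw [Pi.single_eq_same]
      · intro β _ hβ
        rw [Pi.single_eq_of_ne hβ]
        simp
      · intro h
        exact absurd (Finset.mem_univ _) h
    · obtain ⟨a, ha, hab⟩ := hS2 b hb
      have h2 : v '' S = Set.range (fun x : S => v x.1) := by
        rw [Set.image_eq_range]
      rw [h2, Submodule.mem_span_range_iff_exists_fun] at hab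
      obtain ⟨q, hq⟩ := hab
      refine ⟨a, q, ha, ?_⟩
      rw [← hsm, ← hq]
      exact Finset.sum_congr rfl fun β _ => hsm _ _
  choose a q ha hq using h1
  refine ⟨S, hfin, ∏ b, a b, fun b β => (∏ b' ∈ Finset.univ.erase b, a b') * q b β, Finset.prod_ne_zero_iff.2 fun b _ => ha b,
    fun G hG => ?_, fun b => ?_⟩
  · have h2 : LinearIndependent (Polynomial ℂ) (fun x : S => v x.1) := hS1
    rw [Fintype.linearIndependent_iff] at h2
    refine h2 G ?_
    rw [← hG]
    exact Finset.sum_congr rfl fun β _ => hsm _ _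
  · rw [← Finset.prod_erase_mul _ _ (Finset.mem_univ b), Polynomial.coe_mul, mul_assoc, hq b, Finset.mul_sum]
    refine Finset.sum_congr rfl fun β _ => ?_
    rw [Polynomial.coe_mul]
    ring

lemma exists_rev (P : Polynomial ℂ) {M : ℕ} (hM : P.natDegree ≤ M) : ∃ Q : Polynomial ℂ, (P ≠ 0 → Q ≠ 0) ∧
    ∀ z : ℂ, z ≠ 0 → Q.eval z = z ^ M * P.eval (1 / z) := by
  refine ⟨P.reverse * Polynomial.X ^ (M - P.natDegree), fun h => ?_, fun z hz => ?_⟩
  · refine mul_ne_zero ?_ (pow_ne_zero _ Polynomial.X_ne_zero)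
    intro h0
    exact h (Polynomial.reverse_eq_zero.1 h0)
  · rw [Polynomial.eval_mul, rev_eval P hz, Polynomial.eval_pow, Polynomial.eval_X]
    have : z ^ M = z ^ P.natDegree * z ^ (M - P.natDegree) := by
      rw [← pow_add]
      congr 1
      omega
    rw [this]
    ring

section out
variable {ρ : ℝ} {κ : Type} {y : κ → PowerSeries ℂ}

lemma aeval_Cw (hy : ∀ σ, y σ ∈ Cw ρ) (F : MvPolynomial κ (Polynomial ℂ)) : MvPolynomial.aeval y F ∈ Cw ρ := by
  induction F using MvPolynomial.induction_on with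
  | C p =>
    rw [MvPolynomial.aeval_C]
    exact poly_mem p
  | add p q hp hq =>
    rw [map_add]
    exact (Cw ρ).add_mem hp hq
  | mul_X p i hp =>
    rw [map_mul, MvPolynomial.aeval_X]
    exact (Cw ρ).mul_mem hp (hy i)

lemma ou_aeval (hρ : 0 ≤ ρ) (hy : ∀ σ, y σ ∈ Cw ρ) (F : MvPolynomial κ (Polynomial ℂ)) {z : ℂ} (hz : ρ < ‖z‖) :
    ou (MvPolynomial.aeval y F) z = MvPolynomial.eval₂Hom (Polynomial.evalRingHom (1 / z)) (fun σ => ou (y σ) z) F := by
  induction F using MvPolynomial.induction_on with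
  | C p =>
    rw [MvPolynomial.aeval_C, MvPolynomial.coe_eval₂Hom, MvPolynomial.eval₂_C]
    exact ou_poly p z
  | add p q hp hq =>
    rw [map_add, ou_add hρ (aeval_Cw hy p) (aeval_Cw hy q) hz, hp, hq, map_add]
  | mul_X p i hp =>
    rw [map_mul, MvPolynomial.aeval_X, ou_mul hρ (aeval_Cw hy p) (hy i) hz, hp, map_mul]
    congr 1
    rw [MvPolynomial.coe_eval₂Hom, MvPolynomial.eval₂_X]

end out

section blk
variable {ρ ρ' : ℝ} {g₀ : ℝ}

/-- the domain -/
def Dom (ρ ρ' g₀ : ℝ) : Set ℂ := Up ρ ∪ ball (g₀ : ℂ) ρ'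

/-- the evaluation -/
noncomputable def evp (U : Set ℂ) (t : ℂ) : An U →+* ℂ := (Pi.evalRingHom (fun _ : ℂ => ℂ) t).comp (An U).subtype

lemma evp_apply (U : Set ℂ) (t : ℂ) (f : An U) : evp U t f = f.1 t := rfl

/-- the constants -/
noncomputable def cS (U : Set ℂ) : ℂ →+* An U where
  toFun c := ⟨fun _ => c, analyticOnNhd_const⟩
  map_one' := rfl
  map_mul' := fun _ _ => rfl
  map_zero' := rfl
  map_add' := fun _ _ => rfl

lemma evp_cS (U : Set ℂ) (t : ℂ) : (evp U t).comp (cS U) = RingHom.id ℂ := rfl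

/-- the values of polynomials -/
noncomputable def Et (U : Set ℂ) (y : Fin N × Fin n × Fin n → PowerSeries ℂ) (g₀ : ℝ) (t : ℂ) :
    MvPolynomial (Fin N × Fin n × Fin n) (An U) →+* ℂ :=
  MvPolynomial.eval₂Hom (evp U t) (fun σ => ou (y σ) (t - g₀))

lemma Et_an {U : Set ℂ} (hU : Up ρ ⊆ U) {y : Fin N × Fin n × Fin n → PowerSeries ℂ} (hρ : 0 < ρ) (hy : ∀ σ, y σ ∈ Cw ρ)
    (P : MvPolynomial (Fin N × Fin n × Fin n) (An U)) : AnalyticOnNhd ℂ (fun t => Et U y g₀ t P) (Up ρ) := by
  induction P using MvPolynomial.induction_on with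
  | C p =>
    have h1 : (fun t => Et U y g₀ t (MvPolynomial.C p)) = p.1 := by
      funext t
      unfold Et
      rw [MvPolynomial.coe_eval₂Hom, MvPolynomial.eval₂_C]
      rfl
    rw [h1]
    exact p.2.mono hU
  | add p q hp hq =>
    have h1 : (fun t => Et U y g₀ t (p + q)) = fun t => Et U y g₀ t p + Et U y g₀ t q := by
      funext t
      rw [map_add]
    rw [h1]
    exact hp.add hq
  | mul_X p i hp =>
    have h1 : (fun t => Et U y g₀ t (p * MvPolynomial.X i)) = fun t => Et U y g₀ t p * ou (y i) (t - g₀) := by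
      funext t
      rw [map_mul]
      congr 1
      unfold Et
      rw [MvPolynomial.coe_eval₂Hom, MvPolynomial.eval₂_X]
    rw [h1]
    refine hp.mul fun t ht => ?_
    have h3 := ou_an hρ.le (hy i) (t - (g₀ : ℂ)) (Up_norm ht _)
    exact AnalyticAt.comp (g := ou (y i)) (f := fun t : ℂ => t - (g₀ : ℂ)) h3 (analyticAt_id.sub analyticAt_const)

/-- **symmetries of one block** -/
theorem block (hρ : 0 < ρ) (hρρ : ρ < ρ') {y : Fin N × Fin n × Fin n → PowerSeries ℂ} (hy : ∀ σ, y σ ∈ Cw ρ)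
    (hD : ∀ (δ : ℕ) (S : Set (Fin δ → Option (Fin N × Fin n × Fin n))) [Fintype S],
      (∀ G : S → Polynomial ℂ, ∑ i, (G i : PowerSeries ℂ) * wd y i.1 = 0 → ∀ i, G i = 0) → Disc ρ ρ' fun b : S => wd y b.1)
    {X : Fin N → Matrix (Fin n) (Fin n) ℂ}
    (hX : ∀ R : MvPolynomial (Fin N × Fin n × Fin n) (Polynomial ℂ), MvPolynomial.aeval y R = 0 →
      MvPolynomial.aeval y (Dv Polynomial.C X R) = 0)
    {U : Set ℂ} (hUU : Up ρ ⊆ U) (hUb : ball (g₀ : ℂ) ρ' ⊆ U)
    (P : MvPolynomial (Fin N × Fin n × Fin n) (An U)) (hP : ∀ t ∈ Up ρ, Et U y g₀ t P = 0) :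
    ∀ t ∈ Up ρ, Et U y g₀ t (Dv (cS U) X P) = 0 := by
  classical
  obtain ⟨δ, c, hc⟩ : ∃ (δ : ℕ) (c : (Fin δ → Option (Fin N × Fin n × Fin n)) → An U),
      P = ∑ b, MvPolynomial.C (c b) * monO (An U) b := ⟨_, exists_coef' P le_rfl⟩
  -- a basis
  obtain ⟨S, hSf, a, q, ha, hLI, haq⟩ := ex_basis (fun b : Fin δ → Option (Fin N × Fin n × Fin n) => wd y b)
  -- the values
  set Wv : (Fin δ → Option (Fin N × Fin n × Fin n)) → ℂ → ℂ := fun b z =>
    MvPolynomial.eval (fun σ => ou (y σ) z) (monO ℂ b) with hWv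
  set Vv : (Fin δ → Option (Fin N × Fin n × Fin n)) → ℂ → ℂ := fun b z =>
    MvPolynomial.eval (fun σ => ou (y σ) z) (Dv (RingHom.id ℂ) X (monO ℂ b)) with hVv
  have hmon : ∀ b : Fin δ → Option (Fin N × Fin n × Fin n), MvPolynomial.aeval y (monO (Polynomial ℂ) b) = wd y b := by
    intro b
    unfold monO wd
    rw [map_prod]
    refine Finset.prod_congr rfl fun l _ => ?_
    rcases b l with _ | σ
    · show MvPolynomial.aeval y (1 : MvPolynomial _ (Polynomial ℂ)) = 1
      rw [map_one]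
    · show MvPolynomial.aeval y (MvPolynomial.X σ) = y σ
      rw [MvPolynomial.aeval_X]
  have hWou : ∀ b z, ρ < ‖z‖ → ou (wd y b) z = Wv b z := by
    intro b z hz
    rw [← hmon, ou_aeval hρ.le hy _ hz, eval_mon]
  -- the relations
  set Pb : (Fin δ → Option (Fin N × Fin n × Fin n)) → MvPolynomial (Fin N × Fin n × Fin n) (Polynomial ℂ) := fun b =>
    MvPolynomial.C a * monO (Polynomial ℂ) b - ∑ β, MvPolynomial.C (q b β) * monO (Polynomial ℂ) β.1 with hPb
  have hPb0 : ∀ b, MvPolynomial.aeval y (Pb b) = 0 := by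
    intro b
    have h1 := haq b
    rw [hPb]
    simp only
    rw [map_sub, map_mul, map_sum, MvPolynomial.aeval_C, hmon]
    have h2 : ∀ β : S, MvPolynomial.aeval y (MvPolynomial.C (q b β) * monO (Polynomial ℂ) β.1) =
        (q b β : PowerSeries ℂ) * wd y β.1 := by
      intro β
      rw [map_mul, MvPolynomial.aeval_C, hmon]
      rfl
    rw [Finset.sum_congr rfl fun β _ => h2 β, ← h1]
    exact sub_self _
  have hevid : ∀ z : ℂ, (Polynomial.evalRingHom (1 / z)).comp (Polynomial.C : ℂ →+* Polynomial ℂ) = RingHom.id ℂ := by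
    intro z
    ext c
    simp
  have h1 : ∀ z : ℂ, ρ < ‖z‖ → ∀ b, a.eval (1 / z) * Wv b z = ∑ β, (q b β).eval (1 / z) * Wv β.1 z := by
    intro z hz b
    have h2 := ou_aeval hρ.le hy (Pb b) hz
    rw [hPb0, ou_zero, hPb] at h2
    simp only at h2
    have h4 : ∀ (b : Fin δ → Option (Fin N × Fin n × Fin n)) (u : Polynomial ℂ),
        MvPolynomial.eval₂Hom (Polynomial.evalRingHom (1 / z)) (fun σ => ou (y σ) z)
        (MvPolynomial.C u * monO (Polynomial ℂ) b) = u.eval (1 / z) * Wv b z := by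
      intro b u
      rw [map_mul, eval_mon, MvPolynomial.coe_eval₂Hom, MvPolynomial.eval₂_C]
      rfl
    rw [map_sub, map_sum, h4, Finset.sum_congr rfl fun β _ => h4 β.1 (q b β)] at h2
    exact (sub_eq_zero.1 h2.symm)
  have h2 : ∀ z : ℂ, ρ < ‖z‖ → ∀ b, a.eval (1 / z) * Vv b z = ∑ β, (q b β).eval (1 / z) * Vv β.1 z := by
    intro z hz b
    have h2 := ou_aeval hρ.le hy (Dv Polynomial.C X (Pb b)) hz
    rw [hX _ (hPb0 b), ou_zero, hPb] at h2
    simp only at h2
    have h4 : ∀ (b : Fin δ → Option (Fin N × Fin n × Fin n)) (u : Polynomial ℂ),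
        MvPolynomial.eval₂Hom (Polynomial.evalRingHom (1 / z)) (fun σ => ou (y σ) z)
        (Dv Polynomial.C X (MvPolynomial.C u * monO (Polynomial ℂ) b)) = u.eval (1 / z) * Vv b z := by
      intro b u
      rw [Dv_C_mul, map_mul, eval_Dv (hevid z), MvPolynomial.coe_eval₂Hom, MvPolynomial.eval₂_C]
      rfl
    rw [map_sub, map_sub, map_sum, map_sum, h4, Finset.sum_congr rfl fun β _ => h4 β.1 (q b β)] at h2
    exact (sub_eq_zero.1 h2.symm)
  -- the reversed polynomials
  obtain ⟨M, hMa, hMq⟩ : ∃ M : ℕ, a.natDegree ≤ M ∧ ∀ b β, (q b β).natDegree ≤ M := by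
    refine ⟨a.natDegree + ∑ b, ∑ β, (q b β).natDegree, by omega, fun b β => ?_⟩
    have h1 : (q b β).natDegree ≤ ∑ β, (q b β).natDegree :=
      Finset.single_le_sum (f := fun β => (q b β).natDegree) (fun _ _ => Nat.zero_le _) (Finset.mem_univ β)
    have h2 : ∑ β, (q b β).natDegree ≤ ∑ b, ∑ β, (q b β).natDegree :=
      Finset.single_le_sum (f := fun b => ∑ β, (q b β).natDegree) (fun _ _ => Nat.zero_le _) (Finset.mem_univ b)
    omega
  obtain ⟨a', ha'0, ha'⟩ := exists_rev a hMa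
  choose q' hq'0 hq' using fun b β => exists_rev (q b β) (hMq b β)
  have hz0 : ∀ z : ℂ, ρ < ‖z‖ → z ≠ 0 := by
    rintro z hz rfl
    rw [norm_zero] at hz
    linarith
  have h1' : ∀ z : ℂ, ρ < ‖z‖ → ∀ b, a'.eval z * Wv b z = ∑ β, (q' b β).eval z * Wv β.1 z := by
    intro z hz b
    have h3 := congrArg (fun w => z ^ M * w) (h1 z hz b)
    simp only [Finset.mul_sum] at h3
    rw [ha' z (hz0 z hz), mul_assoc, h3]
    refine Finset.sum_congr rfl fun β _ => ?_
    rw [hq' b β z (hz0 z hz), mul_assoc]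
  have h2' : ∀ z : ℂ, ρ < ‖z‖ → ∀ b, a'.eval z * Vv b z = ∑ β, (q' b β).eval z * Vv β.1 z := by
    intro z hz b
    have h3 := congrArg (fun w => z ^ M * w) (h2 z hz b)
    simp only [Finset.mul_sum] at h3
    rw [ha' z (hz0 z hz), mul_assoc, h3]
    refine Finset.sum_congr rfl fun β _ => ?_
    rw [hq' b β z (hz0 z hz), mul_assoc]
  -- the coefficients
  set e : S → ℂ → ℂ := fun β t => ∑ b, (c b).1 t * (q' b β).eval (t - g₀) with he
  have he_an : ∀ β, AnalyticOnNhd ℂ (e β) U := by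
    intro β t ht
    show AnalyticAt ℂ (fun t => ∑ b, (c b).1 t * (q' b β).eval (t - g₀)) t
    refine Finset.analyticAt_fun_sum _ fun b _ => ((c b).2 t ht).mul ?_
    have h3 : AnalyticAt ℂ (fun z => (q' b β).eval z) (t - g₀) := (q' b β).differentiable.analyticAt _
    exact AnalyticAt.comp (g := fun z => (q' b β).eval z) (f := fun t : ℂ => t - g₀) h3 (analyticAt_id.sub analyticAt_const)
  have hEt : ∀ t : ℂ, Et U y g₀ t P = ∑ b, (c b).1 t * Wv b (t - g₀) := by
    intro t
    conv_lhs => rw [hc]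
    rw [map_sum]
    refine Finset.sum_congr rfl fun b _ => ?_
    rw [map_mul]
    unfold Et
    rw [eval_mon, MvPolynomial.coe_eval₂Hom, MvPolynomial.eval₂_C]
    rfl
  have hEt2 : ∀ t : ℂ, Et U y g₀ t (Dv (cS U) X P) = ∑ b, (c b).1 t * Vv b (t - g₀) := by
    intro t
    conv_lhs => rw [hc]
    rw [map_sum, map_sum]
    refine Finset.sum_congr rfl fun b _ => ?_
    rw [Dv_C_mul, map_mul]
    unfold Et
    rw [eval_Dv (evp_cS U t), MvPolynomial.coe_eval₂Hom, MvPolynomial.eval₂_C]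
    rfl
  have hrel : ∀ t ∈ Up ρ, ∑ β, e β t * Wv β.1 (t - g₀) = 0 := by
    intro t ht
    have h3 : ∀ b, (c b).1 t * (a'.eval (t - g₀) * Wv b (t - g₀)) =
        ∑ β, (c b).1 t * (q' b β).eval (t - g₀) * Wv β.1 (t - g₀) := by
      intro b
      rw [h1' _ (Up_norm ht g₀) b, Finset.mul_sum]
      exact Finset.sum_congr rfl fun β _ => by ring
    calc ∑ β, e β t * Wv β.1 (t - g₀) = ∑ β, ∑ b, (c b).1 t * (q' b β).eval (t - g₀) * Wv β.1 (t - g₀) :=
          Finset.sum_congr rfl fun β _ => Finset.sum_mul _ _ _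
      _ = ∑ b, (c b).1 t * (a'.eval (t - g₀) * Wv b (t - g₀)) := by
          rw [Finset.sum_comm]
          exact Finset.sum_congr rfl fun b _ => (h3 b).symm
      _ = a'.eval (t - g₀) * ∑ b, (c b).1 t * Wv b (t - g₀) := by
          rw [Finset.mul_sum]
          exact Finset.sum_congr rfl fun b _ => by ring
      _ = 0 := by rw [← hEt, hP t ht, mul_zero]
  -- the point
  set η : ℝ := (ρ + ρ') / 2 with hη
  set p : ℂ := η * Complex.I with hp
  have hη1 : ρ < η := by linarith
  have hη2 : η < ρ' := by linarith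
  have hη0 : 0 < η := by linarith
  have hpn : ‖p‖ = η := by
    rw [hp, norm_mul, Complex.norm_I, mul_one, Complex.norm_real, Real.norm_of_nonneg hη0.le]
  have hpim : p.im = η := by
    rw [hp]
    simp
  have hup : ∀ z : ℂ, z ∈ Up ρ → z + g₀ ∈ Up ρ := by
    intro z hz
    show ρ < (z + g₀).im
    have : ρ < z.im := hz
    simpa using this
  have hnear : ∀ᶠ z in 𝓝 p, z ∈ Up ρ := Up_open.mem_nhds (show ρ < p.im by rw [hpim]; exact hη1)
  have hdisc := hD δ S hLI p (by rw [hpn]; exact hη1) (by rw [hpn]; exact hη2) (by rw [hpim]; exact hη0)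
    (fun β z => e β (z + g₀)) (fun β z hz => by
      have h3 : AnalyticAt ℂ (e β) (z + g₀) := he_an β _ (hUb (by
        rw [mem_ball_iff_norm, add_sub_cancel_right]
        rwa [mem_ball_zero_iff] at hz))
      exact AnalyticAt.comp (g := e β) (f := fun z : ℂ => z + g₀) h3 (analyticAt_id.add analyticAt_const)) (by
      filter_upwards [hnear] with z hz
      have h3 := hrel (z + g₀) (hup z hz)
      simp only [add_sub_cancel_right] at h3
      rw [← h3]
      refine Finset.sum_congr rfl fun β _ => ?_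
      have hzn : ρ < ‖z‖ := by
        have := Up_norm hz 0
        simpa using this
      rw [hWou _ _ hzn])
  have he0 : ∀ β, ∀ t ∈ Up ρ, e β t = 0 := by
    intro β t ht
    have h3 : ∀ᶠ t in 𝓝 (p + g₀), e β t = 0 := by
      have h4 : Tendsto (fun t : ℂ => t - g₀) (𝓝 (p + g₀)) (𝓝 p) := by
        have h5 : Continuous fun t : ℂ => t - g₀ := continuous_id.sub continuous_const
        have h6 := h5.tendsto (p + g₀)
        simpa using h6
      filter_upwards [h4.eventually (hdisc β)] with t ht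
      simpa using ht
    have hpU : p + (g₀ : ℂ) ∈ Up ρ := hup p (show ρ < p.im by rw [hpim]; exact hη1)
    exact AnalyticOnNhd.eqOn_zero_of_preconnected_of_eventuallyEq_zero ((he_an β).mono hUU) Up_conv.isPreconnected hpU h3 ht
  -- the conclusion
  have hprod : ∀ t ∈ Up ρ, a'.eval (t - g₀) * Et U y g₀ t (Dv (cS U) X P) = 0 := by
    intro t ht
    rw [hEt2, Finset.mul_sum]
    have h3 : ∀ b, a'.eval (t - g₀) * ((c b).1 t * Vv b (t - g₀)) =
        ∑ β, (c b).1 t * (q' b β).eval (t - g₀) * Vv β.1 (t - g₀) := by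
      intro b
      have h4 : a'.eval (t - g₀) * ((c b).1 t * Vv b (t - g₀)) = (c b).1 t * (a'.eval (t - g₀) * Vv b (t - g₀)) := by ring
      rw [h4, h2' _ (Up_norm ht g₀) b, Finset.mul_sum]
      exact Finset.sum_congr rfl fun β _ => by ring
    rw [Finset.sum_congr rfl fun b _ => h3 b, Finset.sum_comm]
    refine Finset.sum_eq_zero fun β _ => ?_
    rw [← Finset.sum_mul]
    have h4 : ∑ b, (c b).1 t * (q' b β).eval (t - g₀) = 0 := he0 β t ht
    rw [h4, zero_mul]
  intro t₀ ht₀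
  by_contra hne
  have hcont : ContinuousAt (fun t => Et U y g₀ t (Dv (cS U) X P)) t₀ := (Et_an hUU hρ hy _ t₀ ht₀).continuousAt
  have hev1 : ∀ᶠ t in 𝓝 t₀, Et U y g₀ t (Dv (cS U) X P) ≠ 0 := hcont.eventually_ne hne
  have hev2 : ∀ᶠ t : ℂ in 𝓝 t₀, a'.eval (t - (g₀ : ℂ)) = 0 := by
    filter_upwards [hev1, Up_open.mem_nhds ht₀] with t h3 h4
    exact (mul_eq_zero.1 (hprod t h4)).resolve_right h3
  have hinf : Set.Infinite {z : ℂ | a'.IsRoot z} := by
    have h3 : Set.Infinite {t : ℂ | a'.eval (t - g₀) = 0} := infinite_of_mem_nhds t₀ hev2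
    have h4 := h3.image (f := fun t : ℂ => t - g₀) (fun x _ y _ h => sub_left_injective h)
    refine h4.mono ?_
    rintro _ ⟨t, ht, rfl⟩
    exact ht
  exact ha'0 ha (Polynomial.eq_zero_of_infinite_isRoot _ hinf)

end blk

end Pool.Agent.H885
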