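import Pool.Agent.H885.Joint2

/-!
# Relations with powers of the logarithm between the functions of one block
-/

set_option autoImplicit false
set_option linter.unusedSectionVars false
set_option linter.unusedVariables false

open Filter Topology Metric Set PowerSeries

namespace Pool.Agent.H885

open Pool.Agent.Y113 (ev Cv GSys ps)
open Pool.Agent.Y120.GH (An mem_An cx Cw ou ou_an ou_mul ou_add ou_C ou_one ou_zero ou_X ou_sum ou_prod ou_poly ou_shift
  Disc Up Up_open Up_conv Up_norm ou_inj poly_mem Cw_mono rev_eval disc_log)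

variable {n N : ℕ}

section blk
variable {ρ ρ' : ℝ} {g₀ : ℝ}

/-- **relations with powers of the logarithm** -/
theorem block_log (hρ : 0 < ρ) (hρρ : ρ < ρ') {y : Fin N × Fin n × Fin n → PowerSeries ℂ} (hy : ∀ σ, y σ ∈ Cw ρ)
    (hD : ∀ (δ : ℕ) (S : Set (Fin δ → Option (Fin N × Fin n × Fin n))) [Fintype S],
      (∀ G : S → Polynomial ℂ, ∑ i, (G i : PowerSeries ℂ) * wd y i.1 = 0 → ∀ i, G i = 0) → Disc ρ ρ' fun b : S => wd y b.1)
    {U : Set ℂ} (hUU : Up ρ ⊆ U) (hUb : ball (g₀ : ℂ) ρ' ⊆ U) (hg : ρ' < g₀) (m : ℕ)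
    (P : ℕ → MvPolynomial (Fin N × Fin n × Fin n) (An U))
    (hP : ∀ t ∈ Up ρ, ∑ ε ∈ Finset.range m, Complex.log (1 - g₀ / t) ^ ε * Et U y g₀ t (P ε) = 0) :
    ∀ ε < m, ∀ t ∈ Up ρ, Et U y g₀ t (P ε) = 0 := by
  classical
  obtain ⟨δ, c, hc⟩ : ∃ (δ : ℕ) (c : ℕ → (Fin δ → Option (Fin N × Fin n × Fin n)) → An U),
      ∀ ε < m, P ε = ∑ b, MvPolynomial.C (c ε b) * monO (An U) b := by
    have h1 : ∀ ε, ∃ c : (Fin (∑ ε ∈ Finset.range m, (P ε).totalDegree) → Option (Fin N × Fin n × Fin n)) → An U,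
        ε < m → P ε = ∑ b, MvPolynomial.C (c b) * monO (An U) b := by
      intro ε
      by_cases hε : ε < m
      · obtain ⟨c, hc⟩ := exists_coef' (P ε) (d := ∑ ε ∈ Finset.range m, (P ε).totalDegree)
          (Finset.single_le_sum (f := fun ε => (P ε).totalDegree) (fun _ _ => Nat.zero_le _) (Finset.mem_range.2 hε))
        exact ⟨c, fun _ => hc⟩
      · exact ⟨fun _ => 0, fun h => absurd h hε⟩
    choose c hc using h1
    exact ⟨_, c, hc⟩
  -- a basis
  obtain ⟨S, hSf, a, q, ha, hLI, haq⟩ := ex_basis (fun b : Fin δ → Option (Fin N × Fin n × Fin n) => wd y b)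
  -- the values
  set Wv : (Fin δ → Option (Fin N × Fin n × Fin n)) → ℂ → ℂ := fun b z =>
    MvPolynomial.eval (fun σ => ou (y σ) z) (monO ℂ b) with hWv
  have hmon : ∀ b : Fin δ → Option (Fin N × Fin n × Fin n), MvPolynomial.aeval y (monO (Polynomial ℂ) b) = wd y b := by
    intro b
    unfold monO wd
    rw [map_prod]
    refine Finset.prod_congr rfl fun l _ => ?_
    rcases b l with _ | σ
    · show MvPolynomial.aeval y (1 : MvPolynomial _ (Polynomial ℂ)) = 1
      rw [map_one]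
    · show MvPolynomial.aeval y (MvPolynomial.X σ) = y σ
      rw [MvPolynomial.aeval_X]
  have hWou : ∀ b z, ρ < ‖z‖ → ou (wd y b) z = Wv b z := by
    intro b z hz
    rw [← hmon, ou_aeval hρ.le hy _ hz, eval_mon]
  -- the relations
  set Pb : (Fin δ → Option (Fin N × Fin n × Fin n)) → MvPolynomial (Fin N × Fin n × Fin n) (Polynomial ℂ) := fun b =>
    MvPolynomial.C a * monO (Polynomial ℂ) b - ∑ β, MvPolynomial.C (q b β) * monO (Polynomial ℂ) β.1 with hPb
  have hPb0 : ∀ b, MvPolynomial.aeval y (Pb b) = 0 := by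
    intro b
    have h1 := haq b
    rw [hPb]
    simp only
    rw [map_sub, map_mul, map_sum, MvPolynomial.aeval_C, hmon]
    have h2 : ∀ β : S, MvPolynomial.aeval y (MvPolynomial.C (q b β) * monO (Polynomial ℂ) β.1) =
        (q b β : PowerSeries ℂ) * wd y β.1 := by
      intro β
      rw [map_mul, MvPolynomial.aeval_C, hmon]
      rfl
    rw [Finset.sum_congr rfl fun β _ => h2 β, ← h1]
    exact sub_self _
  have h1 : ∀ z : ℂ, ρ < ‖z‖ → ∀ b, a.eval (1 / z) * Wv b z = ∑ β, (q b β).eval (1 / z) * Wv β.1 z := by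
    intro z hz b
    have h2 := ou_aeval hρ.le hy (Pb b) hz
    rw [hPb0, ou_zero, hPb] at h2
    simp only at h2
    have h4 : ∀ (b : Fin δ → Option (Fin N × Fin n × Fin n)) (u : Polynomial ℂ),
        MvPolynomial.eval₂Hom (Polynomial.evalRingHom (1 / z)) (fun σ => ou (y σ) z)
        (MvPolynomial.C u * monO (Polynomial ℂ) b) = u.eval (1 / z) * Wv b z := by
      intro b u
      rw [map_mul, eval_mon, MvPolynomial.coe_eval₂Hom, MvPolynomial.eval₂_C]
      rfl
    rw [map_sub, map_sum, h4, Finset.sum_congr rfl fun β _ => h4 β.1 (q b β)] at h2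
    exact (sub_eq_zero.1 h2.symm)
  -- the reversed polynomials
  obtain ⟨M, hMa, hMq⟩ : ∃ M : ℕ, a.natDegree ≤ M ∧ ∀ b β, (q b β).natDegree ≤ M := by
    refine ⟨a.natDegree + ∑ b, ∑ β, (q b β).natDegree, by omega, fun b β => ?_⟩
    have h1 : (q b β).natDegree ≤ ∑ β, (q b β).natDegree :=
      Finset.single_le_sum (f := fun β => (q b β).natDegree) (fun _ _ => Nat.zero_le _) (Finset.mem_univ β)
    have h2 : ∑ β, (q b β).natDegree ≤ ∑ b, ∑ β, (q b β).natDegree :=
      Finset.single_le_sum (f := fun b => ∑ β, (q b β).natDegree) (fun _ _ => Nat.zero_le _) (Finset.mem_univ b)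
    omega
  obtain ⟨a', ha'0, ha'⟩ := exists_rev a hMa
  choose q' hq'0 hq' using fun b β => exists_rev (q b β) (hMq b β)
  have hz0 : ∀ z : ℂ, ρ < ‖z‖ → z ≠ 0 := by
    rintro z hz rfl
    rw [norm_zero] at hz
    linarith
  have h1' : ∀ z : ℂ, ρ < ‖z‖ → ∀ b, a'.eval z * Wv b z = ∑ β, (q' b β).eval z * Wv β.1 z := by
    intro z hz b
    have h3 := congrArg (fun w => z ^ M * w) (h1 z hz b)
    simp only [Finset.mul_sum] at h3
    rw [ha' z (hz0 z hz), mul_assoc, h3]
    refine Finset.sum_congr rfl fun β _ => ?_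
    rw [hq' b β z (hz0 z hz), mul_assoc]
  -- the coefficients
  set e : ℕ → S → ℂ → ℂ := fun ε β t => ∑ b, (c ε b).1 t * (q' b β).eval (t - g₀) with he
  have he_an : ∀ ε β, AnalyticOnNhd ℂ (e ε β) U := by
    intro ε β t ht
    show AnalyticAt ℂ (fun t => ∑ b, (c ε b).1 t * (q' b β).eval (t - g₀)) t
    refine Finset.analyticAt_fun_sum _ fun b _ => ((c ε b).2 t ht).mul ?_
    have h3 : AnalyticAt ℂ (fun z => (q' b β).eval z) (t - g₀) := (q' b β).differentiable.analyticAt _
    exact AnalyticAt.comp (g := fun z => (q' b β).eval z) (f := fun t : ℂ => t - g₀) h3 (analyticAt_id.sub analyticAt_const)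
  have hEt : ∀ ε < m, ∀ t : ℂ, Et U y g₀ t (P ε) = ∑ b, (c ε b).1 t * Wv b (t - g₀) := by
    intro ε hε t
    conv_lhs => rw [hc ε hε]
    rw [map_sum]
    refine Finset.sum_congr rfl fun b _ => ?_
    rw [map_mul]
    unfold Et
    rw [eval_mon, MvPolynomial.coe_eval₂Hom, MvPolynomial.eval₂_C]
    rfl
  have hred : ∀ ε < m, ∀ t ∈ Up ρ, a'.eval (t - g₀) * Et U y g₀ t (P ε) = ∑ β, e ε β t * Wv β.1 (t - g₀) := by
    intro ε hε t ht
    have h3 : ∀ b, (c ε b).1 t * (a'.eval (t - g₀) * Wv b (t - g₀)) =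
        ∑ β, (c ε b).1 t * (q' b β).eval (t - g₀) * Wv β.1 (t - g₀) := by
      intro b
      rw [h1' _ (Up_norm ht g₀) b, Finset.mul_sum]
      exact Finset.sum_congr rfl fun β _ => by ring
    symm
    calc ∑ β, e ε β t * Wv β.1 (t - g₀) = ∑ β, ∑ b, (c ε b).1 t * (q' b β).eval (t - g₀) * Wv β.1 (t - g₀) :=
          Finset.sum_congr rfl fun β _ => Finset.sum_mul _ _ _
      _ = ∑ b, (c ε b).1 t * (a'.eval (t - g₀) * Wv b (t - g₀)) := by
          rw [Finset.sum_comm]
          exact Finset.sum_congr rfl fun b _ => (h3 b).symm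
      _ = a'.eval (t - g₀) * ∑ b, (c ε b).1 t * Wv b (t - g₀) := by
          rw [Finset.mul_sum]
          exact Finset.sum_congr rfl fun b _ => by ring
      _ = _ := by rw [← hEt ε hε]
  have hrel : ∀ t ∈ Up ρ, ∑ β : S, ∑ ε ∈ Finset.range m,
      e ε β t * (Wv β.1 (t - g₀) * Complex.log (1 - g₀ / t) ^ ε) = 0 := by
    intro t ht
    rw [Finset.sum_comm]
    have h3 : ∀ ε ∈ Finset.range m, ∑ β : S, e ε β t * (Wv β.1 (t - g₀) * Complex.log (1 - g₀ / t) ^ ε) =
        a'.eval (t - g₀) * (Complex.log (1 - g₀ / t) ^ ε * Et U y g₀ t (P ε)) := by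
      intro ε hε
      rw [Finset.mem_range] at hε
      have h4 : a'.eval (t - g₀) * (Complex.log (1 - g₀ / t) ^ ε * Et U y g₀ t (P ε)) =
          Complex.log (1 - g₀ / t) ^ ε * (a'.eval (t - g₀) * Et U y g₀ t (P ε)) := by ring
      rw [h4, hred ε hε t ht, Finset.mul_sum]
      exact Finset.sum_congr rfl fun β _ => by ring
    rw [Finset.sum_congr rfl h3, ← Finset.mul_sum, hP t ht, mul_zero]
  -- the point
  set η : ℝ := (ρ + ρ') / 2 with hη
  set p : ℂ := η * Complex.I with hp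
  have hη1 : ρ < η := by linarith
  have hη2 : η < ρ' := by linarith
  have hη0 : 0 < η := by linarith
  have hpn : ‖p‖ = η := by
    rw [hp, norm_mul, Complex.norm_I, mul_one, Complex.norm_real, Real.norm_of_nonneg hη0.le]
  have hpim : p.im = η := by
    rw [hp]
    simp
  have hup : ∀ z : ℂ, z ∈ Up ρ → z + g₀ ∈ Up ρ := by
    intro z hz
    show ρ < (z + g₀).im
    have : ρ < z.im := hz
    simpa using this
  have hnear : ∀ᶠ z in 𝓝 p, z ∈ Up ρ := Up_open.mem_nhds (show ρ < p.im by rw [hpim]; exact hη1)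
  have hy' : ∀ b : S, wd y b.1 ∈ Cw ρ := by
    intro b
    refine (Cw ρ).prod_mem fun l _ => ?_
    rcases b.1 l with _ | σ
    · exact (Cw ρ).one_mem
    · exact hy _
  have hdisc := disc_log hρ hy' (hD δ S hLI) hg m (fun β ε z => e ε β (z + g₀)) (fun β ε z hz => by
      have h3 : AnalyticAt ℂ (e ε β) (z + g₀) := he_an ε β _ (hUb (by
        rw [mem_ball_iff_norm, add_sub_cancel_right]
        rwa [mem_ball_zero_iff] at hz))
      exact AnalyticAt.comp (g := e ε β) (f := fun z : ℂ => z + g₀) h3 (analyticAt_id.add analyticAt_const))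
    (p := p) (by rw [hpn]; exact hη1) (by rw [hpn]; exact hη2) (by rw [hpim]; exact hη0) (by
      filter_upwards [hnear] with z hz
      have h3 := hrel (z + g₀) (hup z hz)
      simp only [add_sub_cancel_right] at h3
      rw [← h3]
      refine Finset.sum_congr rfl fun β _ => Finset.sum_congr rfl fun ε _ => ?_
      have hzn : ρ < ‖z‖ := by
        have := Up_norm hz 0
        simpa using this
      rw [hWou _ _ hzn])
  have he0 : ∀ ε < m, ∀ β, ∀ t ∈ Up ρ, e ε β t = 0 := by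
    intro ε hε β t ht
    have h3 : ∀ᶠ t in 𝓝 (p + g₀), e ε β t = 0 := by
      have h4 : Tendsto (fun t : ℂ => t - g₀) (𝓝 (p + g₀)) (𝓝 p) := by
        have h5 : Continuous fun t : ℂ => t - g₀ := continuous_id.sub continuous_const
        have h6 := h5.tendsto (p + g₀)
        simpa using h6
      filter_upwards [h4.eventually (hdisc β ε hε)] with t ht
      simpa using ht
    have hpU : p + (g₀ : ℂ) ∈ Up ρ := hup p (show ρ < p.im by rw [hpim]; exact hη1)
    exact AnalyticOnNhd.eqOn_zero_of_preconnected_of_eventuallyEq_zero ((he_an ε β).mono hUU) Up_conv.isPreconnected hpU h3 ht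
  -- the conclusion
  intro ε hε
  have hprod : ∀ t ∈ Up ρ, a'.eval (t - g₀) * Et U y g₀ t (P ε) = 0 := by
    intro t ht
    rw [hred ε hε t ht]
    exact Finset.sum_eq_zero fun β _ => by rw [he0 ε hε β t ht, zero_mul]
  intro t₀ ht₀
  by_contra hne
  have hcont : ContinuousAt (fun t => Et U y g₀ t (P ε)) t₀ := (Et_an hUU hρ hy _ t₀ ht₀).continuousAt
  have hev1 : ∀ᶠ t in 𝓝 t₀, Et U y g₀ t (P ε) ≠ 0 := hcont.eventually_ne hne
  have hev2 : ∀ᶠ t : ℂ in 𝓝 t₀, a'.eval (t - (g₀ : ℂ)) = 0 := by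
    filter_upwards [hev1, Up_open.mem_nhds ht₀] with t h3 h4
    exact (mul_eq_zero.1 (hprod t h4)).resolve_right h3
  have hinf : Set.Infinite {z : ℂ | a'.IsRoot z} := by
    have h3 : Set.Infinite {t : ℂ | a'.eval (t - g₀) = 0} := infinite_of_mem_nhds t₀ hev2
    have h4 := h3.image (f := fun t : ℂ => t - g₀) (fun x _ y _ h => sub_left_injective h)
    refine h4.mono ?_
    rintro _ ⟨t, ht, rfl⟩
    exact ht
  exact ha'0 ha (Polynomial.eq_zero_of_infinite_isRoot _ hinf)

end blk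

end Pool.Agent.H885
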