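import Mathlib

/-!
# Counting exceptional integers with short windows
-/

set_option autoImplicit false

namespace Pool.Agent.H885

/-- if each window `[b₀, b₀ + w]` with `b₀ ≥ (2 H (h + w + 2))^E` contains at most `s` exceptions, up to bounded distances, then
the number of exceptions up to `B` is at most `C B^(1 - 1/k)`, `k = 2 (E + 1)` -/
theorem count_windows (X : ℕ → Set ℕ) {H : ℝ} (hH : 1 ≤ H) (h m s E : ℕ) (hX : ∀ B, ∀ b ∈ X B, b ≤ B)
    (hwin : ∀ w b₀ : ℕ, (2 * H * ((h : ℝ) + w + 2)) ^ E ≤ (b₀ : ℝ) → ∃ 𝓔 : Finset ℕ, 𝓔.card ≤ s ∧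
      ∀ B, ∀ b ∈ X B, b₀ ≤ b → b ≤ b₀ + w → ∃ c ∈ 𝓔, |(b : ℝ) - c| ≤ 2 ^ (m + 1) * H * ((h : ℝ) + 2)) :
    ∃ C : ℝ, ∀ B : ℕ, 0 < B → ((X B).ncard : ℝ) ^ (2 * (E + 1)) ≤ C * (B : ℝ) ^ (2 * (E + 1) - 1) := by
  classical
  set k : ℕ := 2 * (E + 1) with hk
  set D : ℝ := 2 ^ (m + 1) * H * ((h : ℝ) + 2) with hD
  have hD0 : 0 ≤ D := by positivity
  set D' : ℕ := ⌊D⌋₊ with hD'
  set N₀ : ℕ := ⌈(2 * H * ((h : ℝ) + 3)) ^ E⌉₊ with hN₀
  set K : ℕ := N₀ + s * (2 * D' + 1) with hK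
  refine ⟨(K : ℝ) ^ k * 2 ^ (k * (k - 1)), fun B hB => ?_⟩
  -- the width of the windows
  set l : ℕ := Nat.findGreatest (fun l => l ^ k ≤ B) B with hl
  have hl1 : l ^ k ≤ B := Nat.findGreatest_spec (P := fun l => l ^ k ≤ B) hB (by
    show 1 ^ k ≤ B
    rw [one_pow]
    exact hB)
  have hl0 : 1 ≤ l := Nat.le_findGreatest hB (by
    show 1 ^ k ≤ B
    rw [one_pow]
    exact hB)
  have hl2 : B < (l + 1) ^ k := by
    rcases Nat.lt_or_ge B (l + 1) with h1 | h1
    · exact h1.trans_le (Nat.le_self_pow (by omega) _)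
    · by_contra hcon
      exact Nat.findGreatest_is_greatest (P := fun l => l ^ k ≤ B) (Nat.lt_succ_self l) h1 (not_lt.1 hcon)
  set b' : ℕ := N₀ * l ^ E with hb'
  have hwin' : ∀ b₀ : ℕ, b' ≤ b₀ → (2 * H * ((h : ℝ) + l + 2)) ^ E ≤ (b₀ : ℝ) := by
    intro b₀ hb₀
    have h1 : (b' : ℝ) ≤ b₀ := by exact_mod_cast hb₀
    refine le_trans ?_ h1
    have hl0' : (1 : ℝ) ≤ l := by exact_mod_cast hl0
    have hh0 : (0 : ℝ) ≤ h := by positivity
    have h2 : 2 * H * ((h : ℝ) + l + 2) ≤ 2 * H * ((h : ℝ) + 3) * l := by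
      have h3 : (h : ℝ) + l + 2 ≤ ((h : ℝ) + 3) * l := by nlinarith
      nlinarith
    calc (2 * H * ((h : ℝ) + l + 2)) ^ E ≤ (2 * H * ((h : ℝ) + 3) * l) ^ E := pow_le_pow_left₀ (by positivity) h2 _
      _ = (2 * H * ((h : ℝ) + 3)) ^ E * (l : ℝ) ^ E := by rw [mul_pow]
      _ ≤ (N₀ : ℝ) * (l : ℝ) ^ E := mul_le_mul_of_nonneg_right (Nat.le_ceil _) (by positivity)
      _ = (b' : ℝ) := by
        rw [hb']
        push_cast
        rfl
  choose 𝓔 h𝓔 h𝓔' using fun i : ℕ => hwin l (b' + i * (l + 1)) (hwin' _ (by omega))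
  set Y : Finset ℕ := Finset.range b' ∪ (Finset.range (B / (l + 1) + 1)).biUnion fun i =>
    (𝓔 i).biUnion fun c => Finset.Icc (c - D') (c + D') with hY
  have hsub : X B ⊆ ↑Y := by
    intro b hb
    rw [Finset.mem_coe, hY, Finset.mem_union]
    rcases Nat.lt_or_ge b b' with h1 | h1
    · exact Or.inl (Finset.mem_range.2 h1)
    · right
      have hbB := hX B b hb
      rw [Finset.mem_biUnion]
      refine ⟨(b - b') / (l + 1), ?_, ?_⟩
      · rw [Finset.mem_range]
        exact Nat.lt_succ_of_le (Nat.div_le_div_right (by omega))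
      · have h2 := Nat.div_add_mod (b - b') (l + 1)
        have h3 := Nat.mod_lt (b - b') (show 0 < l + 1 by omega)
        have h4 : b' + (b - b') / (l + 1) * (l + 1) ≤ b := by
          rw [mul_comm]
          omega
        have h5 : b ≤ b' + (b - b') / (l + 1) * (l + 1) + l := by
          rw [mul_comm]
          omega
        obtain ⟨c, hc, hc'⟩ := h𝓔' _ B b hb h4 h5
        rw [Finset.mem_biUnion]
        refine ⟨c, hc, ?_⟩
        have h6 : |((b : ℤ) - c : ℤ)| ≤ D' := by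
          have h7 : ((|((b : ℤ) - c : ℤ)|.toNat : ℕ) : ℝ) ≤ D := by
            have h8 : ((|((b : ℤ) - c : ℤ)|.toNat : ℕ) : ℤ) = |((b : ℤ) - c : ℤ)| := Int.toNat_of_nonneg (abs_nonneg _)
            have h9 : ((|((b : ℤ) - c : ℤ)|.toNat : ℕ) : ℝ) = ((|((b : ℤ) - c : ℤ)| : ℤ) : ℝ) := by
              rw [← h8]
              push_cast
              rfl
            rw [h9]
            push_cast
            exact hc'
          have h10 := Nat.le_floor h7
          have h8 : ((|((b : ℤ) - c : ℤ)|.toNat : ℕ) : ℤ) = |((b : ℤ) - c : ℤ)| := Int.toNat_of_nonneg (abs_nonneg _)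
          rw [← h8]
          exact_mod_cast h10
        rw [abs_le] at h6
        rw [Finset.mem_Icc]
        constructor
        · omega
        · omega
  have hcard : (X B).ncard ≤ K * (l + 1) ^ (k - 1) := by
    refine (Set.ncard_le_ncard hsub Y.finite_toSet).trans ?_
    rw [Set.ncard_coe_finset]
    refine (Finset.card_union_le _ _).trans ?_
    rw [Finset.card_range]
    have h1 : ((Finset.range (B / (l + 1) + 1)).biUnion fun i =>
        (𝓔 i).biUnion fun c => Finset.Icc (c - D') (c + D')).card ≤ (B / (l + 1) + 1) * (s * (2 * D' + 1)) := by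
      refine Finset.card_biUnion_le.trans ?_
      refine (Finset.sum_le_card_nsmul _ _ (s * (2 * D' + 1)) fun i _ => ?_).trans ?_
      · refine Finset.card_biUnion_le.trans ?_
        refine (Finset.sum_le_card_nsmul _ _ (2 * D' + 1) fun c _ => ?_).trans ?_
        · rw [Nat.card_Icc]
          omega
        · rw [smul_eq_mul]
          exact Nat.mul_le_mul_right _ (h𝓔 i)
      · rw [Finset.card_range, smul_eq_mul]
    have h2 : B / (l + 1) + 1 ≤ (l + 1) ^ (k - 1) := by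
      refine Nat.succ_le_of_lt (Nat.div_lt_of_lt_mul ?_)
      rw [← pow_succ']
      have h3 : k - 1 + 1 = k := by omega
      rw [h3]
      exact hl2
    have h3 : b' ≤ N₀ * (l + 1) ^ (k - 1) := by
      refine Nat.mul_le_mul_left _ ?_
      exact (Nat.pow_le_pow_left (by omega) _).trans (Nat.pow_le_pow_right (by omega) (by omega))
    calc b' + ((Finset.range (B / (l + 1) + 1)).biUnion fun i =>
        (𝓔 i).biUnion fun c => Finset.Icc (c - D') (c + D')).card
        ≤ N₀ * (l + 1) ^ (k - 1) + (l + 1) ^ (k - 1) * (s * (2 * D' + 1)) :=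
          add_le_add h3 (h1.trans (Nat.mul_le_mul_right _ h2))
      _ = K * (l + 1) ^ (k - 1) := by
        rw [hK]
        ring
  have h1 : (X B).ncard ^ k ≤ K ^ k * 2 ^ (k * (k - 1)) * B ^ (k - 1) := by
    calc (X B).ncard ^ k ≤ (K * (l + 1) ^ (k - 1)) ^ k := Nat.pow_le_pow_left hcard _
      _ = K ^ k * (l + 1) ^ (k * (k - 1)) := by
        rw [mul_pow, ← pow_mul, mul_comm (k - 1) k]
      _ ≤ K ^ k * (2 * l) ^ (k * (k - 1)) := Nat.mul_le_mul_left _ (Nat.pow_le_pow_left (by omega) _)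
      _ = K ^ k * 2 ^ (k * (k - 1)) * (l ^ k) ^ (k - 1) := by
        rw [mul_pow, ← pow_mul]
        generalize k * (k - 1) = r
        ring
      _ ≤ K ^ k * 2 ^ (k * (k - 1)) * B ^ (k - 1) := Nat.mul_le_mul_left _ (Nat.pow_le_pow_left hl1 _)
  have h2 : (((X B).ncard ^ k : ℕ) : ℝ) ≤ ((K ^ k * 2 ^ (k * (k - 1)) * B ^ (k - 1) : ℕ) : ℝ) := by exact_mod_cast h1
  push_cast at h2
  exact h2

end Pool.Agent.H885
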