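import Pool.Agent.H885.CoreS
import Pool.Agent.H885.CurT

/-!
# The uniform theorem: stability of subtorsors
-/

set_option autoImplicit false
set_option linter.unusedSectionVars false
set_option linter.unusedVariables false

open Matrix Module Filter PowerSeries

namespace Pool.Agent.H885

open Pool.Agent.Y113 (ev Cv GSys ps)
open Pool.Agent.Y118.HV (Hv hh)
open Pool.Agent.Helper880_R3 hiding core final
open Pool.Agent.Helper880_LF.NB hiding alg_core
open Pool.Agent.Y118.UL (mk mk_eq mk_eq_zero mk_ne_zero mk_surj ev_ge eval_mk rep qc qc_mk algebraMap_eq U)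
open Pool.Agent.Y118.HX (aeval_gm tdm ex_der)
open Pool.Agent.TH119.DR Pool.Agent.TH119.MX Pool.Agent.TH127.PT Pool.Agent.Y123.ST Pool.Agent.Y123.GN

variable {n N r₀ : ℕ}

/-- the first order part of relations on exponential curves -/
theorem first_order' (P : MvPolynomial (Fin N × Fin n × Fin n) ℚ) {z X : Fin N → Matrix (Fin n) (Fin n) ℂ}
    (h : ∀ s : ℂ, MvPolynomial.aeval (vz fun j => NormedSpace.exp (s • X j) * z j) P = 0) :
    ∑ a, MvPolynomial.aeval (vz z) (MvPolynomial.pderiv a P) * vz (fun j => X j * z j) a = 0 := by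
  have h1 : ∀ b : Fin N × Fin n × Fin n, HasDerivAt (fun s : ℂ => vz (fun j => NormedSpace.exp (s • X j) * z j) b)
      (vz (fun j => X j * z j) b) 0 := by
    intro b
    have h2 := curve_HD (X b.1) (z b.1) 0 b.2
    have h3 : (0 : ℂ) • X b.1 = 0 := zero_smul _ _
    rw [h3, Pool.Agent.Helper880_R3.exp_zero', Matrix.one_mul] at h2
    exact h2
  have h2 := eval_HD (MvPolynomial.map (algebraMap ℚ ℂ) P) (y := fun s => vz (fun j => NormedSpace.exp (s • X j) * z j)) h1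
  have h3 : (fun s : ℂ => MvPolynomial.eval (vz (fun j => NormedSpace.exp (s • X j) * z j))
      (MvPolynomial.map (algebraMap ℚ ℂ) P)) = fun _ => 0 := by
    funext s
    have := h s
    rw [MvPolynomial.aeval_def, ← MvPolynomial.eval_map] at this
    exact this
  rw [h3] at h2
  have h4 := h2.unique (hasDerivAt_const _ _)
  refine Eq.trans ?_ h4
  refine Finset.sum_congr rfl fun a _ => ?_
  have h5 : (fun j => NormedSpace.exp ((0 : ℂ) • X j) * z j) = z := by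
    funext j
    have h3 : (0 : ℂ) • X j = 0 := zero_smul _ _
    rw [h3, Pool.Agent.Helper880_R3.exp_zero', Matrix.one_mul]
  rw [h5, MvPolynomial.pderiv_map, MvPolynomial.aeval_def, MvPolynomial.eval_map]

/-- **derivations of the ultrapower** -/
theorem hder_seq' {𝔤 : ℕ → Submodule ℂ (Matrix (Fin n) (Fin n) ℂ)} {z : ℕ → Fin N → Matrix (Fin n) (Fin n) ℂ}
    (h : ∀ d : ℕ, ∀ᶠ k in (hyperfilter ℕ : Filter ℕ), ∀ X : Fin N → Matrix (Fin n) (Fin n) ℂ, (∀ j, X j ∈ 𝔤 k) →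
      ∀ P : MvPolynomial (Fin N × Fin n × Fin n) ℚ, P.totalDegree ≤ d →
      MvPolynomial.aeval (vz (z k)) P = 0 → ∀ s : ℂ,
      MvPolynomial.aeval (vz fun j => NormedSpace.exp (s • X j) * z k j) P = 0) (i : Fin N)
    {A : Matrix (Fin n) (Fin n) (U ℂ)} (hA : A ∈ GUs 𝔤) : ∃ δ : Derivation (U ℚ) (U ℂ) (U ℂ),
      dm δ (gm fun k => z k i) = A * (gm fun k => z k i) ∧
      ∀ j, j ≠ i → dm δ (gm fun k => z k j) = 0 := by
  classical
  obtain ⟨F, hF, hF𝔤⟩ := hA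
  set X : ℕ → Fin N → Matrix (Fin n) (Fin n) ℂ := fun k => Pi.single i (F k) with hX
  have hX𝔤 : ∀ k j, X k j ∈ 𝔤 k := by
    intro k j
    rw [hX]
    simp only
    by_cases hj : j = i
    · subst hj
      rw [Pi.single_eq_same]
      exact hF𝔤 k
    · rw [Pi.single_eq_of_ne hj]
      exact (𝔤 k).zero_mem
  set x : Fin N × Fin n × Fin n → U ℂ := fun a => mk ℂ fun k => vz (z k) a with hx
  set y : Fin N × Fin n × Fin n → U ℂ := fun a => mk ℂ fun k => vz (fun j => X k j * z k j) a with hy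
  obtain ⟨δ, hδ⟩ := ex_der (k := U ℚ) x y (by
    intro P hP
    rw [dual_aeval, hP]
    obtain ⟨P0, rfl⟩ := rep P
    have e2 : ∀ᶠ k in (hyperfilter ℕ : Filter ℕ), MvPolynomial.aeval (vz (z k))
        (MvPolynomial.map (Pi.evalRingHom (fun _ => ℚ) k) P0) = 0 := by
      have h1 := aeval_gm P0 fun a k => vz (z k) a
      have h2 : MvPolynomial.aeval (fun a => mk ℂ fun k => vz (z k) a) (MvPolynomial.map (mk ℚ) P0) = 0 := hP
      rw [h2] at h1
      exact mk_eq_zero.1 h1.symm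
    have e3 : (∑ a, MvPolynomial.aeval x (MvPolynomial.pderiv a (MvPolynomial.map (mk ℚ) P0)) * y a) = 0 := by
      have h3 : ∀ a, MvPolynomial.aeval x (MvPolynomial.pderiv a (MvPolynomial.map (mk ℚ) P0)) * y a =
          mk ℂ fun k => MvPolynomial.aeval (vz (z k)) (MvPolynomial.pderiv a (MvPolynomial.map (Pi.evalRingHom (fun _ => ℚ) k) P0)) *
            vz (fun j => X k j * z k j) a := by
        intro a
        rw [MvPolynomial.pderiv_map, mk_mul']
        congr 1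
        have h4 := aeval_gm (MvPolynomial.pderiv a P0) fun a k => vz (z k) a
        refine h4.trans ?_
        congr 1
        funext k
        rw [MvPolynomial.pderiv_map]
      rw [Finset.sum_congr rfl fun a _ => h3 a, ← mk_sum, mk_eq_zero]
      filter_upwards [e2, h P0.totalDegree] with k h5 h6
      exact first_order' _ fun s => h6 (X k) (hX𝔤 k) _ (tdm _ _) h5 s
    rw [e3]
    simp)
  have hz0 : ∀ j, dm δ (gm fun k => z k j) = gm fun k => X k j * z k j := by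
    intro j
    ext a b
    exact hδ (j, a, b)
  refine ⟨δ, ?_, fun j hj => ?_⟩
  · rw [hz0, ← hF, ← gm_mul]
    congr 1
    funext k
    rw [hX]
    simp only [Pi.single_eq_same]
  · rw [hz0]
    have h1 : ∀ k, X k j = 0 := by
      intro k
      rw [hX]
      simp only [Pi.single_eq_of_ne hj]
    have h2 : (fun k => X k j * z k j) = fun _ => 0 := by
      funext k
      rw [h1, Matrix.zero_mul]
    rw [h2, gm_zero]

/-- **The uniform theorem.** -/
theorem uniform (n N q D r₀ s : ℕ) (hn : 0 < n) (C₀ : Matrix (Fin r₀) (Fin r₀) ℂ) (C : Matrix (Fin n) (Fin n) ℂ)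
    (hfew : Few s C₀ C) : ∃ E : ℕ, ∀ (H : ℝ) (T : Polynomial ℤ) (B : Fin N → Fin n → Fin n → Polynomial ℤ)
    (Z W : Fin N → Matrix (Fin n) (Fin n) ℚ⟦X⟧), Sys q H T B Z W → T ≠ 0 → ∀ t : ℕ, (2 * H) ^ E ≤ (t : ℝ) →
    ∀ 𝔤 : Submodule ℂ (Matrix (Fin n) (Fin n) ℂ), IsLie 𝔤 → CF 𝔤 → Cod s 𝔤 →
    (∀ X : Fin N → Matrix (Fin n) (Fin n) ℂ, (∀ j, X j ∈ 𝔤) → InfT Z X) →
    ∀ K : Subfield ℂ, FiniteDimensional ℚ K → finrank ℚ K ≤ D → ∀ S : Set (Matrix (Ix r₀ n N) (Ix r₀ n N) ℂ),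
    IsSubtorsor K S → fromBlocks C₀ 0 0 (blockDiagonal fun j => C * Hv (Z j) t) ∈ S →
    ∀ Y : Fin N → Matrix (Fin n) (Fin n) ℂ, (∀ j, Y j ∈ 𝔤) → ∀ x ∈ S, Zm (fun j => NormedSpace.exp (C * Y j * C⁻¹)) * x ∈ S := by
  classical
  by_contra hcon
  simp only [not_exists] at hcon
  have h1 : ∀ k : ℕ, ∃ (H : ℝ) (T : Polynomial ℤ) (B : Fin N → Fin n → Fin n → Polynomial ℤ)
      (Z W : Fin N → Matrix (Fin n) (Fin n) ℚ⟦X⟧) (t : ℕ) (𝔤 : Submodule ℂ (Matrix (Fin n) (Fin n) ℂ)) (K : Subfield ℂ)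
      (S : Set (Matrix (Ix r₀ n N) (Ix r₀ n N) ℂ)), (Sys q H T B Z W ∧ T ≠ 0 ∧ (2 * H) ^ k ≤ (t : ℝ)) ∧
      (IsLie 𝔤 ∧ CF 𝔤 ∧ Cod s 𝔤 ∧ ∀ X : Fin N → Matrix (Fin n) (Fin n) ℂ, (∀ j, X j ∈ 𝔤) → InfT Z X) ∧
      (FiniteDimensional ℚ K ∧ finrank ℚ K ≤ D) ∧ IsSubtorsor K S ∧
      fromBlocks C₀ 0 0 (blockDiagonal fun j => C * Hv (Z j) t) ∈ S ∧
      ¬ ∀ Y : Fin N → Matrix (Fin n) (Fin n) ℂ, (∀ j, Y j ∈ 𝔤) → ∀ x ∈ S, Zm (fun j => NormedSpace.exp (C * Y j * C⁻¹)) * x ∈ S := by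
    intro k
    by_contra hk
    refine hcon k fun H T B Z W hS hT t ht 𝔤 hL hq hc hI K hK hKD S hS' hmem => ?_
    by_contra hcontra
    exact hk ⟨H, T, B, Z, W, t, 𝔤, K, S, ⟨hS, hT, ht⟩, ⟨hL, hq, hc, hI⟩, ⟨hK, hKD⟩, hS', hmem, hcontra⟩
  choose H T B Z W t 𝔤 K S hSys h𝔤 hK hS hmem hbad using h1
  set z : ℕ → Fin N → Matrix (Fin n) (Fin n) ℂ := fun k j => Hv (Z k j) (t k) with hz
  -- the derivations
  have hder : ∀ i, ∀ A ∈ GUs 𝔤, ∃ δ : Derivation (U ℚ) (U ℂ) (U ℂ), dm δ (gm fun k => z k i) = A * (gm fun k => z k i) ∧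
      ∀ j, j ≠ i → dm δ (gm fun k => z k j) = 0 := by
    intro i A hA
    refine hder_seq' (fun d => ?_) i hA
    obtain ⟨E, hE⟩ := rel_curve q n N d
    filter_upwards [ev_ge E] with k hk Y hY P hPd hP s
    have hH := (hSys k).1.one_le
    exact hE (H k) (T k) (B k) (Z k) (W k) (hSys k).1 (hSys k).2.1 (t k)
      ((pow_le_pow_right₀ (by linarith) hk).trans (hSys k).2.2) Y ((h𝔤 k).2.2.2 Y hY) P hPd hP s
  -- the period matrices
  have hper : ∀ k, fromBlocks C₀ 0 0 (blockDiagonal fun j => C * Hv (Z k j) (t k)) =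
      (Cb C₀ C : Matrix (Ix r₀ n N) (Ix r₀ n N) ℂ) * Zm (z k) := by
    intro k
    rw [Cb_Zm]
  have hcT : ∀ k, (Cb C₀ C : Matrix (Ix r₀ n N) (Ix r₀ n N) ℂ) * Zm (z k) ∈ S k := by
    intro k
    rw [← hper]
    exact hmem k
  have hdet : ∀ k, (Cb (N := N) C₀ C).det ≠ 0 ∧ (Zm (r₀ := r₀) (z k)).det ≠ 0 := by
    intro k
    have h1 := (Matrix.isUnit_iff_isUnit_det _).1 ((hS k).isUnit _ (hcT k))
    rw [Matrix.det_mul] at h1
    have h2 := h1.ne_zero
    exact ⟨left_ne_zero_of_mul h2, right_ne_zero_of_mul h2⟩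
  have hz0 : ∀ k j, (z k j).det ≠ 0 := by
    intro k j
    have h1 := (hdet k).2
    rw [Zm_det, Finset.prod_ne_zero_iff] at h1
    exact h1 j (Finset.mem_univ j)
  obtain ⟨𝒩, h𝒩1, h𝒩2, h𝒩3⟩ := few_dim (hdet 0).1 (hfew.few (N := N))
  have hmain := coreS hn (fun k => (h𝔤 k).1) (fun k => (h𝔤 k).2.2.1) (fun k => (h𝔤 k).2.1) hz0 hder (fun k => (hK k).1)
    (fun k => (hK k).2) (C := fun _ => Cb C₀ C) (fun k => (hdet 0).1) 𝒩 h𝒩1 h𝒩2 h𝒩3 hS hcT
  obtain ⟨k, hk⟩ := hmain.exists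
  refine hbad k fun Y hY x hx => ?_
  -- the case without points
  by_cases hN : N = 0
  · subst hN
    have h1 : Zm (r₀ := r₀) (fun j : Fin 0 => NormedSpace.exp (C * Y j * C⁻¹)) = 1 := by
      have : (fun j : Fin 0 => NormedSpace.exp (C * Y j * C⁻¹)) = fun _ => 1 := funext fun j => j.elim0
      rw [this, Zm_one]
    rw [h1, Matrix.one_mul]
    exact hx
  have hCd : C.det ≠ 0 := by
    have h1 := (hdet k).1
    unfold Cb at h1
    rw [Matrix.det_fromBlocks_zero₂₁, Matrix.det_blockDiagonal] at h1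
    have h2 := right_ne_zero_of_mul h1
    rw [Finset.prod_ne_zero_iff] at h2
    exact h2 ⟨0, Nat.pos_of_ne_zero hN⟩ (Finset.mem_univ _)
  have hCu : IsUnit C.det := isUnit_iff_ne_zero.2 hCd
  have h2 : ∀ i, fl (ib (r₀ := r₀) i (C * Y i * C⁻¹)) ∈ LL (S k) := by
    intro i
    have h4 := hk i _ (hY i)
    have h5 : ib (r₀ := r₀) i (C * Y i * C⁻¹) = (Cb C₀ C : Matrix (Ix r₀ n N) (Ix r₀ n N) ℂ) * ib i (Y i) * (Cb C₀ C)⁻¹ := by
      have h6 : IsUnit (Cb C₀ C : Matrix (Ix r₀ n N) (Ix r₀ n N) ℂ).det := isUnit_iff_ne_zero.2 (hdet k).1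
      have h7 : ib (r₀ := r₀) i (C * Y i * C⁻¹) * (Cb C₀ C : Matrix (Ix r₀ n N) (Ix r₀ n N) ℂ) = Cb C₀ C * ib i (Y i) := by
        unfold Cb
        rw [ib_apply, ib_apply, fromBlocks_multiply, fromBlocks_multiply, ← blockDiagonal_mul, ← blockDiagonal_mul]
        have h9 : (fun j => (Pi.single i (C * Y i * C⁻¹) : Fin N → Matrix (Fin n) (Fin n) ℂ) j * C) =
            fun j => C * (Pi.single i (Y i) : Fin N → Matrix (Fin n) (Fin n) ℂ) j := by
          funext j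
          by_cases hj : j = i
          · subst hj
            rw [Pi.single_eq_same, Pi.single_eq_same, Matrix.nonsing_inv_mul_cancel_right _ _ hCu]
          · rw [Pi.single_eq_of_ne hj, Pi.single_eq_of_ne hj, Matrix.zero_mul, Matrix.mul_zero]
        rw [h9]
        simp
      rw [← h7, Matrix.mul_nonsing_inv_cancel_right _ _ h6]
    rw [h5]
    exact h4
  have h3 : fl (∑ i, ib (r₀ := r₀) i (C * Y i * C⁻¹)) ∈ LL (S k) := by
    have h4 : ∀ s : Finset (Fin N), fl (∑ i ∈ s, ib (r₀ := r₀) i (C * Y i * C⁻¹)) ∈ LL (S k) := by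
      intro s
      induction s using Finset.induction_on with
      | empty =>
        rw [Finset.sum_empty, fl_zero]
        exact (LL (S k)).zero_mem
      | insert a s ha ih =>
        rw [Finset.sum_insert ha, fl_add]
        exact (LL (S k)).add_mem (h2 a) ih
    exact h4 _
  rw [sum_ib (fun i => C * Y i * C⁻¹)] at h3
  have h4 := exp_stab (hS k) h3 hx
  rw [exp_Zm] at h4
  exact h4

end Pool.Agent.H885
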