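import Pool.Agent.H885.CoreL

/-!
# The core theorem, the Lie algebras depend on the points
-/

set_option autoImplicit false
set_option linter.unusedSectionVars false
set_option linter.unusedVariables false

open Matrix Module Filter

namespace Pool.Agent.H885

open Pool.Agent.Helper880_R3 hiding core final
open Pool.Agent.Helper880_LF.NB hiding alg_core
open Pool.Agent.Y118.UL (mk mk_eq mk_eq_zero mk_ne_zero mk_surj ev_ge eval_mk rep qc qc_mk algebraMap_eq U)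
open Pool.Agent.TH119.DR Pool.Agent.TH119.MX Pool.Agent.TH127.PT Pool.Agent.Y123.ST Pool.Agent.Y123.GN

variable {n N r₀ : ℕ}

/-- **The core theorem** for sequences of Lie algebras, with a weaker condition on the constants -/
theorem coreP1 (hn : 0 < n) {𝔤 : ℕ → Fin N → Submodule ℂ (Matrix (Fin n) (Fin n) ℂ)} {r : ℕ} (hL : ∀ k i, IsLie (𝔤 k i)) (hc : ∀ k i, Cod r (𝔤 k i))
    (hq : ∀ k i, CF (𝔤 k i))
    {z : ℕ → Fin N → Matrix (Fin n) (Fin n) ℂ} (hz : ∀ k j, (z k j).det ≠ 0)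
    {K : ℕ → Subfield ℂ} {D : ℕ} (hK : ∀ k, FiniteDimensional ℚ (K k)) (hD : ∀ k, finrank ℚ (K k) ≤ D)
    {C : ℕ → Matrix (Ix r₀ n N) (Ix r₀ n N) ℂ} (hC : ∀ k, (C k).det ≠ 0)
    (𝒩 : Submodule (U ℂ) (Matrix (Ix r₀ n N) (Ix r₀ n N) (U ℂ)))
    (hone : (1 : Matrix (Ix r₀ n N) (Ix r₀ n N) (U ℂ)) ∈ 𝒩)
    (hdim : finrank (U ℂ) 𝒩 ≤ r + 1)
    (hder : ∀ i, ∀ A ∈ GUs (fun k => 𝔤 k i), ∃ δ : Derivation (U ℚ) (U ℂ) (U ℂ), dm δ (gm fun k => z k i) = A * (gm fun k => z k i) ∧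
      (∀ j, j ≠ i → dm δ (gm fun k => z k j) = 0) ∧ (gm C)⁻¹ * dm δ (gm C) ∈ 𝒩)
    {T : ℕ → Set (Matrix (Ix r₀ n N) (Ix r₀ n N) ℂ)} (hT : ∀ k, IsSubtorsor (K k) (T k))
    (hcT : ∀ k, C k * Zm (z k) ∈ T k) :
    ∀ᶠ k in (hyperfilter ℕ : Filter ℕ), ∀ i, ∀ X ∈ 𝔤 k i, fl (C k * ib i X * (C k)⁻¹) ∈ LL (T k) := by
  classical
  set x : Fin N → Matrix (Fin n) (Fin n) (U ℂ) := fun j => gm fun k => z k j with hx
  set Cs := gm C with hCs
  have hxu : ∀ j, IsUnit (x j).det := fun j => gm_unit fun k => hz k j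
  have hCu : IsUnit Cs.det := gm_unit hC
  have hxx : ∀ j, x j * (x j)⁻¹ = 1 := fun j => mul_nonsing_inv _ (hxu j)
  have hCC : Cs * Cs⁻¹ = 1 := mul_nonsing_inv _ hCu
  have hCC' : Cs⁻¹ * Cs = 1 := nonsing_inv_mul _ hCu
  have hbx : Zm (r₀ := r₀) x * Zm (fun j => (x j)⁻¹) = 1 := by
    rw [Zm_mul]
    have : (fun j => x j * (x j)⁻¹) = fun _ => 1 := funext hxx
    rw [this, Zm_one]
  have hbi : (Zm (r₀ := r₀) x)⁻¹ = Zm (fun j => (x j)⁻¹) := inv_eq_right_inv hbx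
  -- the derivations
  let 𝒬 : Fin N → Submodule (U ℂ) (Matrix (Fin n) (Fin n) (U ℂ) × Matrix (Ix r₀ n N) (Ix r₀ n N) (U ℂ)) := fun i =>
    { carrier := {p | (p.1 ∈ GUs (fun k => 𝔤 k i) ∧ p.2 ∈ 𝒩) ∧ ∃ δ : Derivation (U ℚ) (U ℂ) (U ℂ),
        (dm δ (x i) = p.1 * x i ∧ ∀ j, j ≠ i → dm δ (x j) = 0) ∧ dm δ Cs = Cs * p.2}
      zero_mem' := ⟨⟨(GUs (fun k => 𝔤 k i)).zero_mem, 𝒩.zero_mem⟩, 0, by
        refine ⟨⟨?_, fun j _ => ?_⟩, ?_⟩
        · ext a b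
          simp [dm]
        · ext a b
          simp [dm]
        · refine Matrix.ext fun a b => ?_
          simp [dm]⟩
      add_mem' := by
        rintro p q ⟨h0, δ, ⟨h1, h1b⟩, h2⟩ ⟨h0', δ', ⟨h1', h1b'⟩, h2'⟩
        refine ⟨⟨(GUs (fun k => 𝔤 k i)).add_mem h0.1 h0'.1, 𝒩.add_mem h0.2 h0'.2⟩, δ + δ', ⟨?_, fun j hj => ?_⟩, ?_⟩
        · have h3 : dm (δ + δ') (x i) = dm δ (x i) + dm δ' (x i) := by
            ext a b
            simp [dm]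
          rw [h3, h1, h1', Prod.fst_add, Matrix.add_mul]
        · have h3 : dm (δ + δ') (x j) = dm δ (x j) + dm δ' (x j) := by
            ext a b
            simp [dm]
          rw [h3, h1b j hj, h1b' j hj, add_zero]
        · have h3 : dm (δ + δ') Cs = dm δ Cs + dm δ' Cs := by
            refine Matrix.ext fun a b => ?_
            simp [dm]
          rw [h3, h2, h2', Prod.snd_add, Matrix.mul_add]
      smul_mem' := by
        rintro a p ⟨h0, δ, ⟨h1, h1b⟩, h2⟩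
        refine ⟨⟨(GUs (fun k => 𝔤 k i)).smul_mem a h0.1, 𝒩.smul_mem a h0.2⟩, a • δ, ⟨?_, fun j hj => ?_⟩, ?_⟩
        · have h3 : dm (a • δ) (x i) = a • dm δ (x i) := by
            ext a b
            simp [dm]
          rw [h3, h1, Prod.smul_fst, Matrix.smul_mul]
        · have h3 : dm (a • δ) (x j) = a • dm δ (x j) := by
            ext a b
            simp [dm]
          rw [h3, h1b j hj, smul_zero]
        · have h3 : dm (a • δ) Cs = a • dm δ Cs := by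
            refine Matrix.ext fun a b => ?_
            simp [dm]
          rw [h3, h2, Prod.smul_snd, Matrix.mul_smul] }
  have hP1 : ∀ i, ∀ p ∈ 𝒬 i, p.1 ∈ GUs (fun k => 𝔤 k i) := fun i p hp => hp.1.1
  have hP2 : ∀ i, ∀ A ∈ GUs (fun k => 𝔤 k i), ∃ E, (A, E) ∈ 𝒬 i := by
    intro i A hA
    obtain ⟨δ, hδ1, hδ2, hδ3⟩ := hder i A hA
    refine ⟨Cs⁻¹ * dm δ Cs, ⟨hA, hδ3⟩, δ, ⟨hδ1, hδ2⟩, ?_⟩
    show dm δ Cs = Cs * (Cs⁻¹ * dm δ Cs)
    rw [← Matrix.mul_assoc, hCC, Matrix.one_mul]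
  -- the subspace
  let L : Submodule (U ℂ) (Matrix (Ix r₀ n N) (Ix r₀ n N) (U ℂ)) := Lst fun k => LL (T k)
  let W : Submodule (U ℂ) (Matrix (Ix r₀ n N) (Ix r₀ n N) (U ℂ)) :=
    { carrier := {Y | Cs * Y * Cs⁻¹ ∈ L}
      zero_mem' := by
        show Cs * 0 * Cs⁻¹ ∈ L
        rw [Matrix.mul_zero, Matrix.zero_mul]
        exact L.zero_mem
      add_mem' := by
        intro a b ha hb
        show Cs * (a + b) * Cs⁻¹ ∈ L
        rw [Matrix.mul_add, Matrix.add_mul]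
        exact L.add_mem ha hb
      smul_mem' := by
        intro c a ha
        show Cs * (c • a) * Cs⁻¹ ∈ L
        rw [Matrix.mul_smul, Matrix.smul_mul]
        exact L.smul_mem c ha }
  have hcx : gm (fun k => C k * Zm (z k)) = Cs * Zm x := by
    rw [gm_mul, gm_Zm]
  have hw : ∀ i, ∀ p ∈ 𝒬 i, ∃ δ : Derivation (U ℚ) (U ℂ) (U ℂ),
      dm δ (gm fun k => C k * Zm (z k)) *
        (gm fun k => C k * Zm (z k))⁻¹ = Cs * (ib i p.1 + p.2) * Cs⁻¹ := by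
    rintro i p ⟨-, δ, ⟨h1, h1b⟩, h2⟩
    refine ⟨δ, ?_⟩
    have h3 : dm δ (Zm (r₀ := r₀) x) = ib i p.1 * Zm x := by
      rw [dm_Zm, ib_apply]
      unfold Zm
      rw [fromBlocks_multiply, ← blockDiagonal_mul]
      simp only [Matrix.zero_mul, Matrix.mul_zero, add_zero, zero_add]
      congr 2
      funext j
      by_cases h : j = i
      · subst h
        rw [Pi.single_eq_same, h1]
      · rw [Pi.single_eq_of_ne h, h1b j h, Matrix.zero_mul]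
    have hbu : Zm (r₀ := r₀) x * (Zm x)⁻¹ = 1 := by rw [hbi, hbx]
    rw [hcx, dm_mul, h3, h2, Matrix.mul_inv_rev]
    calc (Cs * p.2 * Zm x + Cs * (ib i p.1 * Zm x)) * ((Zm x)⁻¹ * Cs⁻¹) =
        Cs * (p.2 * (Zm x * (Zm x)⁻¹) + ib i p.1 * (Zm x * (Zm x)⁻¹)) * Cs⁻¹ := by
          simp only [Matrix.add_mul, Matrix.mul_add, Matrix.mul_assoc]
      _ = Cs * (ib i p.1 + p.2) * Cs⁻¹ := by rw [hbu, Matrix.mul_one, Matrix.mul_one, add_comm p.2]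
  have conj_comm : ∀ X Y : Matrix (Ix r₀ n N) (Ix r₀ n N) (U ℂ), Cs * (X * Y - Y * X) * Cs⁻¹ =
      (Cs * X * Cs⁻¹) * (Cs * Y * Cs⁻¹) - (Cs * Y * Cs⁻¹) * (Cs * X * Cs⁻¹) := by
    intro X Y
    have h1 : ∀ X Y : Matrix (Ix r₀ n N) (Ix r₀ n N) (U ℂ),
        (Cs * X * Cs⁻¹) * (Cs * Y * Cs⁻¹) = Cs * (X * Y) * Cs⁻¹ := by
      intro X Y
      calc (Cs * X * Cs⁻¹) * (Cs * Y * Cs⁻¹) = Cs * X * (Cs⁻¹ * Cs) * Y * Cs⁻¹ := by simp only [Matrix.mul_assoc]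
        _ = Cs * (X * Y) * Cs⁻¹ := by
          rw [hCC', Matrix.mul_one]
          simp only [Matrix.mul_assoc]
    rw [h1, h1, Matrix.mul_sub, Matrix.sub_mul]
  have hmain : ∀ i, ∀ A ∈ GUs (fun k => 𝔤 k i), ib i A ∈ W := by
    intro i
    have : Nonempty (Ix r₀ n N) := ⟨Sum.inr (⟨0, hn⟩, i)⟩
    refine alg_core (GUs_lie fun k => hL k i) (GUs_cod fun k => hc k i) (GUs_cf fun k => hq k i) (ib i) (ib_inj i) (ib_mul i) (𝒬 i) (hP1 i) (hP2 i) 𝒩 ?_ hone hdim W ?_ ?_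
    · rintro p ⟨⟨-, h2⟩, -⟩
      exact h2
    · intro p hp Y hY
      obtain ⟨δ, hδ⟩ := hw i p hp
      show Cs * _ * Cs⁻¹ ∈ L
      rw [conj_comm, ← hδ]
      exact normL hK hD hT hcT δ hY
    · intro p hp q hq s hs
      obtain ⟨δ, hδ⟩ := hw i p hp
      obtain ⟨δ', hδ'⟩ := hw i q hq
      show Cs * _ * Cs⁻¹ ∈ L
      rw [conj_comm, conj_comm, ← hδ, ← hδ']
      refine commL hK hD hT hcT δ δ' fun Y hY => ?_
      have h1 : Y = Cs * (Cs⁻¹ * Y * Cs) * Cs⁻¹ := by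
        calc Y = (Cs * Cs⁻¹) * Y * (Cs * Cs⁻¹) := by rw [hCC, Matrix.one_mul, Matrix.mul_one]
          _ = _ := by simp only [Matrix.mul_assoc]
      rw [h1, ← conj_comm]
      refine hs _ ?_
      show Cs * (Cs⁻¹ * Y * Cs) * Cs⁻¹ ∈ L
      rw [← h1]
      exact hY
  -- back to the components
  rw [Filter.eventually_all]
  intro i
  by_contra hcon
  rw [← Ultrafilter.eventually_not] at hcon
  have h1 : ∀ k, ∃ X ∈ 𝔤 k i, (¬ ∀ X ∈ 𝔤 k i, fl (C k * ib i X * (C k)⁻¹) ∈ LL (T k)) →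
      fl (C k * ib i X * (C k)⁻¹) ∉ LL (T k) := by
    intro k
    by_cases hk : ∀ X ∈ 𝔤 k i, fl (C k * ib i X * (C k)⁻¹) ∈ LL (T k)
    · exact ⟨0, (𝔤 k i).zero_mem, fun h => absurd hk h⟩
    · have hk' := hk
      push Not at hk'
      obtain ⟨Y, h1, h2⟩ := hk'
      exact ⟨Y, h1, fun _ => h2⟩
  choose X hX1 hX2 using h1
  have h3 : Cs * ib i (gm X) * Cs⁻¹ ∈ L := hmain i _ ⟨X, rfl, hX1⟩
  have h4 : Cs⁻¹ = gm fun k => (C k)⁻¹ := by
    refine Matrix.inv_eq_right_inv ?_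
    rw [hCs, ← gm_mul, ← gm_one]
    congr 1
    funext k
    exact mul_nonsing_inv _ (isUnit_iff_ne_zero.2 (hC k))
  rw [h4, hCs, ← gm_ib, ← gm_mul, ← gm_mul] at h3
  have h5 := mem_Lst.1 h3
  obtain ⟨k, hk1, hk2⟩ := (h5.and hcon).exists
  exact hX2 k hk2 hk1


/-- **several blocks**: one of them is good -/
theorem coreP (hn : 0 < n) {L r s : ℕ} (hLr : s < L * (r + 1)) {𝔤 : ℕ → Fin L → Fin N → Submodule ℂ (Matrix (Fin n) (Fin n) ℂ)}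
    (hL : ∀ k l i, IsLie (𝔤 k l i)) (hc : ∀ k l i, Cod r (𝔤 k l i)) (hq : ∀ k l i, CF (𝔤 k l i))
    {z : ℕ → Fin L → Fin N → Matrix (Fin n) (Fin n) ℂ} (hz : ∀ k l j, (z k l j).det ≠ 0)
    (hder : ∀ l i, ∀ A ∈ GUs (fun k => 𝔤 k l i), ∃ δ : Derivation (U ℚ) (U ℂ) (U ℂ),
      dm δ (gm fun k => z k l i) = A * (gm fun k => z k l i) ∧
      ∀ l' j, (l', j) ≠ (l, i) → dm δ (gm fun k => z k l' j) = 0)
    {K : ℕ → Fin L → Subfield ℂ} {D : ℕ} (hK : ∀ k l, FiniteDimensional ℚ (K k l)) (hD : ∀ k l, finrank ℚ (K k l) ≤ D)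
    {C : ℕ → Matrix (Ix r₀ n N) (Ix r₀ n N) ℂ} (hC : ∀ k, (C k).det ≠ 0)
    (𝒩 : Submodule (U ℂ) (Matrix (Ix r₀ n N) (Ix r₀ n N) (U ℂ)))
    (hone : (1 : Matrix (Ix r₀ n N) (Ix r₀ n N) (U ℂ)) ∈ 𝒩)
    (hdim : finrank (U ℂ) 𝒩 ≤ s + 1) (h𝒩 : ∀ δ : Derivation (U ℚ) (U ℂ) (U ℂ), (gm C)⁻¹ * dm δ (gm C) ∈ 𝒩)
    {T : ℕ → Fin L → Set (Matrix (Ix r₀ n N) (Ix r₀ n N) ℂ)} (hT : ∀ k l, IsSubtorsor (K k l) (T k l))
    (hcT : ∀ k l, C k * Zm (z k l) ∈ T k l) :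
    ∃ l, ∀ᶠ k in (hyperfilter ℕ : Filter ℕ), ∀ i, ∀ X ∈ 𝔤 k l i, fl (C k * ib i X * (C k)⁻¹) ∈ LL (T k l) := by
  classical
  set Cs := gm C with hCs
  have hCu : IsUnit Cs.det := gm_unit hC
  have hCC : Cs * Cs⁻¹ = 1 := mul_nonsing_inv _ hCu
  have hCC' : Cs⁻¹ * Cs = 1 := nonsing_inv_mul _ hCu
  have hne1 : n ≠ 0 := hn.ne'
  have hL0 : 0 < L := by
    rcases Nat.eq_zero_or_pos L with h | h
    · subst h
      simp at hLr
    · exact h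
  -- the case without points
  rcases Nat.eq_zero_or_pos N with hN | hN
  · subst hN
    exact ⟨⟨0, hL0⟩, Filter.Eventually.of_forall fun k i => i.elim0⟩
  have : Nonempty (Ix r₀ n N) := ⟨Sum.inr (⟨0, hn⟩, ⟨0, hN⟩)⟩
  have hzero : ∀ {B : Type} [Fintype B] [DecidableEq B] (M : Matrix B B (U ℂ)),
      dm (0 : Derivation (U ℚ) (U ℂ) (U ℂ)) M = 0 := by
    intro B _ _ M
    refine Matrix.ext fun a b => ?_
    simp [dm]
  have hadd : ∀ {B : Type} [Fintype B] [DecidableEq B] (δ δ' : Derivation (U ℚ) (U ℂ) (U ℂ)) (M : Matrix B B (U ℂ)),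
      dm (δ + δ') M = dm δ M + dm δ' M := by
    intro B _ _ δ δ' M
    refine Matrix.ext fun a b => ?_
    simp [dm]
  have hsub : ∀ {B : Type} [Fintype B] [DecidableEq B] (δ δ' : Derivation (U ℚ) (U ℂ) (U ℂ)) (M : Matrix B B (U ℂ)),
      dm (δ - δ') M = dm δ M - dm δ' M := by
    intro B _ _ δ δ' M
    refine Matrix.ext fun a b => ?_
    simp [dm]
  have hsmul : ∀ {B : Type} [Fintype B] [DecidableEq B] (c : U ℂ) (δ : Derivation (U ℚ) (U ℂ) (U ℂ)) (M : Matrix B B (U ℂ)),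
      dm (c • δ) M = c • dm δ M := by
    intro B _ _ c δ M
    refine Matrix.ext fun a b => ?_
    simp [dm]
  -- the filtration
  let 𝓔 : ℕ → Submodule (U ℂ) (Matrix (Ix r₀ n N) (Ix r₀ n N) (U ℂ)) := fun m =>
    { carrier := {E | ∃ δ : Derivation (U ℚ) (U ℂ) (U ℂ), (∀ l : Fin L, (l : ℕ) < m → ∀ j, dm δ (gm fun k => z k l j) = 0) ∧
        dm δ Cs = Cs * E}
      zero_mem' := ⟨0, fun l _ j => hzero _, by rw [hzero, Matrix.mul_zero]⟩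
      add_mem' := by
        rintro E E' ⟨δ, h1, h2⟩ ⟨δ', h1', h2'⟩
        exact ⟨δ + δ', fun l hl j => by rw [hadd, h1 l hl, h1' l hl, add_zero], by rw [hadd, h2, h2', Matrix.mul_add]⟩
      smul_mem' := by
        rintro c E ⟨δ, h1, h2⟩
        exact ⟨c • δ, fun l hl j => by rw [hsmul, h1 l hl, smul_zero], by rw [hsmul, h2, Matrix.mul_smul]⟩ }
  let 𝓕 : ℕ → Submodule (U ℂ) (Matrix (Ix r₀ n N) (Ix r₀ n N) (U ℂ)) := fun m => Submodule.span (U ℂ) {1} ⊔ 𝓔 m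
  have h𝓕one : ∀ m, (1 : Matrix (Ix r₀ n N) (Ix r₀ n N) (U ℂ)) ∈ 𝓕 m := fun m =>
    Submodule.mem_sup_left (Submodule.mem_span_singleton_self _)
  have h𝓕mono : ∀ m, 𝓕 (m + 1) ≤ 𝓕 m := fun m => sup_le_sup le_rfl (by
    rintro E ⟨δ, h1, h2⟩
    exact ⟨δ, fun l hl j => h1 l (by omega) j, h2⟩)
  have h𝓕0 : 𝓕 0 ≤ 𝒩 := by
    refine sup_le ?_ ?_
    · rw [Submodule.span_singleton_le_iff_mem]
      exact hone
    · rintro E ⟨δ, -, h2⟩
      have h3 := h𝒩 δ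
      rw [h2, ← Matrix.mul_assoc, hCC', Matrix.one_mul] at h3
      exact h3
  -- the pigeonhole principle
  obtain ⟨l, hl⟩ : ∃ l : Fin L, finrank (U ℂ) (𝓕 l) ≤ finrank (U ℂ) (𝓕 (l + 1)) + r := by
    by_contra hcon
    push Not at hcon
    have h1 : ∀ m, m ≤ L → finrank (U ℂ) (𝓕 m) + m * (r + 1) ≤ finrank (U ℂ) (𝓕 0) := by
      intro m
      induction m with
      | zero => intro _; simp
      | succ m ih =>
        intro hm
        have h2 := ih (by omega)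
        have h3 := hcon ⟨m, by omega⟩
        simp only at h3
        have h4 : (m + 1) * (r + 1) = m * (r + 1) + (r + 1) := by ring
        omega
    have h2 := h1 L le_rfl
    have h3 : 1 ≤ finrank (U ℂ) (𝓕 L) := by
      rw [Nat.one_le_iff_ne_zero]
      intro h0
      have h4 := Submodule.finrank_eq_zero.1 h0
      have h5 := h𝓕one L
      rw [h4, Submodule.mem_bot] at h5
      exact one_ne_zero h5
    have h4 := (Submodule.finrank_mono h𝓕0).trans hdim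
    omega
  refine ⟨l, ?_⟩
  -- the complement
  obtain ⟨𝒞', h𝒞'⟩ := Submodule.exists_isCompl (Submodule.comap (𝓕 l).subtype (𝓕 (l + 1)))
  set 𝒞 : Submodule (U ℂ) (Matrix (Ix r₀ n N) (Ix r₀ n N) (U ℂ)) := 𝒞'.map (𝓕 l).subtype with h𝒞
  have hdim𝒞 : finrank (U ℂ) 𝒞 ≤ r := by
    have h1 := Submodule.finrank_add_eq_of_isCompl h𝒞'
    have h2 : finrank (U ℂ) (Submodule.comap (𝓕 l).subtype (𝓕 (l + 1))) = finrank (U ℂ) (𝓕 (l + 1)) :=
      LinearEquiv.finrank_eq (Submodule.comapSubtypeEquivOfLe (h𝓕mono l))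
    have h3 := Submodule.finrank_map_le (𝓕 l).subtype 𝒞'
    rw [h𝒞]
    omega
  have hsplit : ∀ E ∈ 𝓕 l, ∃ E₂ ∈ 𝓕 (l + 1), ∃ E₃ ∈ 𝒞, E = E₂ + E₃ := by
    intro E hE
    have h1 : (⟨E, hE⟩ : 𝓕 l) ∈ (Submodule.comap (𝓕 l).subtype (𝓕 (l + 1))) ⊔ 𝒞' := by
      rw [h𝒞'.sup_eq_top]
      exact Submodule.mem_top
    obtain ⟨e₂, he₂, e₃, he₃, h2⟩ := Submodule.mem_sup.1 h1
    exact ⟨e₂, he₂, e₃, ⟨e₃, he₃, rfl⟩, congrArg Subtype.val h2.symm⟩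
  refine coreP1 hn (fun k => hL k l) (fun k => hc k l) (fun k => hq k l) (fun k => hz k l) (fun k => hK k l)
    (fun k => hD k l) hC (Submodule.span (U ℂ) {1} ⊔ 𝒞) (Submodule.mem_sup_left (Submodule.mem_span_singleton_self _)) ?_ ?_
    (fun k => hT k l) (fun k => hcT k l)
  · have h1 := Submodule.finrank_add_le_finrank_add_finrank
      (Submodule.span (U ℂ) {(1 : Matrix (Ix r₀ n N) (Ix r₀ n N) (U ℂ))}) 𝒞
    have h2 := finrank_span_singleton (K := U ℂ) (one_ne_zero (α := Matrix (Ix r₀ n N) (Ix r₀ n N) (U ℂ)))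
    omega
  · intro i A hA
    obtain ⟨δ₁, h1, h2⟩ := hder l i A hA
    have h3 : Cs⁻¹ * dm δ₁ Cs ∈ 𝓕 l := Submodule.mem_sup_right ⟨δ₁, fun l' hl' j => h2 l' j (by
      intro h
      have := (Prod.ext_iff.1 h).1
      simp only at this
      rw [this] at hl'
      omega), by rw [← Matrix.mul_assoc, hCC, Matrix.one_mul]⟩
    obtain ⟨E₂, hE₂, E₃, hE₃, h4⟩ := hsplit _ h3
    obtain ⟨c1, hc1, E₂', ⟨δ₂, h5, h6⟩, h7⟩ := Submodule.mem_sup.1 hE₂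
    refine ⟨δ₁ - δ₂, ?_, fun j hj => ?_, ?_⟩
    · rw [hsub, h1, h5 l (by omega) i, sub_zero]
    · rw [hsub, h2 l j (by
        intro h
        exact hj (Prod.ext_iff.1 h).2), h5 l (by omega) j, sub_zero]
    · have h8 : Cs⁻¹ * dm (δ₁ - δ₂) Cs = c1 + E₃ := by
        rw [hsub, Matrix.mul_sub, h4, h6, ← Matrix.mul_assoc, hCC', Matrix.one_mul, ← h7]
        abel
      rw [← hCs, h8]
      exact Submodule.add_mem _ (Submodule.mem_sup_left hc1) (Submodule.mem_sup_right hE₃)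

end Pool.Agent.H885
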