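import Pool.Agent.H885.CoreP

/-!
# Few periods of bounded degree
-/

set_option autoImplicit false
set_option linter.unusedSectionVars false
set_option linter.unusedVariables false

open Matrix Module Filter

namespace Pool.Agent.H885

open Pool.Agent.Helper880_R3 hiding core final
open Pool.Agent.Helper880_LF.NB hiding alg_core
open Pool.Agent.Y118.UL (mk mk_eq mk_eq_zero mk_ne_zero mk_surj ev_ge eval_mk rep qc qc_mk algebraMap_eq U)
open Pool.Agent.Y118.HX (aeval_gm tdm ex_der)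
open Pool.Agent.TH119.DR Pool.Agent.TH119.MX Pool.Agent.TH127.PT Pool.Agent.Y123.ST Pool.Agent.Y123.GN

/-- `y` satisfies an algebraic equation `P (b, y) = 0` where `P (b, Y)` is not the zero polynomial and the total degree of
`P` is at most `e` -/
def AlgD (e : ℕ) {s : ℕ} (b : Fin s → ℂ) (y : ℂ) : Prop :=
  ∃ P : MvPolynomial (Option (Fin s)) ℚ, P.totalDegree ≤ e ∧ MvPolynomial.aeval (fun o : Option (Fin s) => o.elim y b) P = 0 ∧
    ∃ y' : ℂ, MvPolynomial.aeval (fun o : Option (Fin s) => o.elim y' b) P ≠ 0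

/-- few periods, with a bound for the degree -/
def FewD (s e : ℕ) {r₀ n : ℕ} (C₀ : Matrix (Fin r₀) (Fin r₀) ℂ) (C : Matrix (Fin n) (Fin n) ℂ) : Prop :=
  ∃ (b : Fin s → ℂ) (κ : ℂ), κ ≠ 0 ∧ (∀ i j, AlgD e b (κ * C₀ i j)) ∧ ∀ i j, AlgD e b (κ * C i j)

lemma ex_rep {ι : Type} [Fintype ι] {e : ℕ} (P : ℕ → MvPolynomial ι ℚ) (h : ∀ k, (P k).totalDegree ≤ e) :
    ∃ P0 : MvPolynomial ι (ℕ → ℚ), ∀ k, MvPolynomial.map (Pi.evalRingHom (fun _ => ℚ) k) P0 = P k := by
  classical
  let 𝓜 : Finset (ι →₀ ℕ) := (Finset.range (e + 1)).biUnion fun d => Finset.univ.finsuppAntidiag d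
  refine ⟨∑ m ∈ 𝓜, MvPolynomial.monomial m (fun k => (P k).coeff m), fun k => ?_⟩
  rw [map_sum]
  have h1 : (P k).support ⊆ 𝓜 := by
    intro m hm
    rw [Finset.mem_biUnion]
    refine ⟨∑ i, m i, ?_, ?_⟩
    · rw [Finset.mem_range]
      have h2 := MvPolynomial.le_totalDegree hm
      rw [Finsupp.sum_fintype _ _ (fun _ => rfl)] at h2
      have := h k
      omega
    · rw [Finset.mem_finsuppAntidiag]
      exact ⟨rfl, Finset.subset_univ _⟩
  have h3 : ∑ m ∈ (P k).support, MvPolynomial.monomial m ((P k).coeff m) = ∑ m ∈ 𝓜, MvPolynomial.monomial m ((P k).coeff m) := by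
    refine Finset.sum_subset h1 fun m _ hm => ?_
    rw [MvPolynomial.notMem_support_iff.1 hm, map_zero]
  rw [← MvPolynomial.as_sum] at h3
  rw [h3]
  refine Finset.sum_congr rfl fun m _ => ?_
  rw [MvPolynomial.map_monomial]
  rfl

/-- derivations which kill the `b` kill the numbers which are algebraic over them -/
theorem der_algD {s e : ℕ} {b : ℕ → Fin s → ℂ} {y : ℕ → ℂ} (h : ∀ k, AlgD e (b k) (y k))
    {δ : Derivation (U ℚ) (U ℂ) (U ℂ)} (hδ : ∀ i, δ (mk ℂ fun k => b k i) = 0) : δ (mk ℂ y) = 0 := by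
  classical
  choose P hdeg h0 y' hy' using h
  obtain ⟨P0, hP0⟩ := ex_rep P hdeg
  set Q := MvPolynomial.map (mk ℚ) P0 with hQ
  have hev : ∀ x : ℕ → ℂ, MvPolynomial.aeval (fun o : Option (Fin s) => o.elim (mk ℂ x) fun i => mk ℂ fun k => b k i) Q =
      mk ℂ fun k => MvPolynomial.aeval (fun o : Option (Fin s) => o.elim (x k) (b k)) (P k) := by
    intro x
    have h1 := aeval_gm P0 fun (o : Option (Fin s)) k => o.elim (x k) (b k)
    have h2 : (fun o : Option (Fin s) => o.elim (mk ℂ x) fun i => mk ℂ fun k => b k i) =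
        fun o => mk ℂ fun k => o.elim (x k) (b k) := by
      funext o
      rcases o with _ | i <;> rfl
    rw [h2]
    refine h1.trans ?_
    congr 1
    funext k
    rw [hP0]
  let ψ : U ℚ →+* kerD δ := (algebraMap (U ℚ) (U ℂ)).codRestrict (kerD δ) fun q => δ.map_algebraMap q
  let p : Polynomial (kerD δ) := MvPolynomial.eval₂Hom (Polynomial.C.comp ψ)
    (fun o : Option (Fin s) => o.elim Polynomial.X fun i => Polynomial.C ⟨mk ℂ fun k => b k i, hδ i⟩) Q
  have hp : ∀ x : U ℂ, Polynomial.aeval x p =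
      MvPolynomial.aeval (fun o : Option (Fin s) => o.elim x fun i => mk ℂ fun k => b k i) Q := by
    intro x
    have h1 : ((Polynomial.aeval x).toRingHom.comp (MvPolynomial.eval₂Hom (Polynomial.C.comp ψ)
        (fun o : Option (Fin s) => o.elim Polynomial.X fun i => Polynomial.C (⟨mk ℂ fun k => b k i, hδ i⟩ : kerD δ)))) =
        (MvPolynomial.aeval (fun o : Option (Fin s) => o.elim x fun i => mk ℂ fun k => b k i)).toRingHom := by
      refine MvPolynomial.ringHom_ext (fun q => ?_) fun o => ?_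
      · rw [RingHom.comp_apply, MvPolynomial.coe_eval₂Hom, MvPolynomial.eval₂_C]
        show Polynomial.aeval x (Polynomial.C (ψ q)) = MvPolynomial.aeval _ (MvPolynomial.C q)
        rw [Polynomial.aeval_C, MvPolynomial.aeval_C]
        rfl
      · rw [RingHom.comp_apply, MvPolynomial.coe_eval₂Hom, MvPolynomial.eval₂_X]
        show Polynomial.aeval x _ = MvPolynomial.aeval _ (MvPolynomial.X o)
        rw [MvPolynomial.aeval_X]
        rcases o with _ | i
        · exact Polynomial.aeval_X _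
        · exact Polynomial.aeval_C _ _
    exact RingHom.congr_fun h1 Q
  apply ker_alg
  refine ⟨p, ?_, ?_⟩
  · intro hp0
    have h1 := hp (mk ℂ y')
    rw [hp0, map_zero, hev] at h1
    obtain ⟨k, hk⟩ := (mk_eq_zero.1 h1.symm).exists
    exact hy' k hk
  · rw [hp, hev, mk_eq_zero]
    exact Filter.Eventually.of_forall h0

variable {n N r₀ : ℕ}

/-- **the space of the logarithmic derivatives of a sequence of matrices with few periods is small** -/
theorem few_seq {s e : ℕ} {C₀ : ℕ → Matrix (Fin r₀) (Fin r₀) ℂ} {C : ℕ → Matrix (Fin n) (Fin n) ℂ}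
    (hdet : ∀ k, (Cb (N := N) (C₀ k) (C k)).det ≠ 0) (h : ∀ k, FewD s e (C₀ k) (C k)) :
    ∃ 𝒩 : Submodule (U ℂ) (Matrix (Ix r₀ n N) (Ix r₀ n N) (U ℂ)), (1 : Matrix (Ix r₀ n N) (Ix r₀ n N) (U ℂ)) ∈ 𝒩 ∧
      finrank (U ℂ) 𝒩 ≤ s + 1 ∧ ∀ δ : Derivation (U ℚ) (U ℂ) (U ℂ),
        (gm fun k => Cb (C₀ k) (C k))⁻¹ * dm δ (gm fun k => Cb (C₀ k) (C k)) ∈ 𝒩 := by
  classical
  choose b κ hκ h1 h2 using h
  set C' : ℕ → Matrix (Ix r₀ n N) (Ix r₀ n N) ℂ := fun k => κ k • Cb (C₀ k) (C k) with hC'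
  have hC'd : ∀ k, (C' k).det ≠ 0 := by
    intro k
    rw [hC']
    simp only
    rw [Matrix.det_smul]
    exact mul_ne_zero (pow_ne_zero _ (hκ k)) (hdet k)
  set Cs : Matrix (Ix r₀ n N) (Ix r₀ n N) (U ℂ) := gm C' with hCs
  have hCu : IsUnit Cs.det := gm_unit hC'd
  let R : Derivation (U ℚ) (U ℂ) (U ℂ) →ₗ[U ℂ] (Fin s → U ℂ) :=
    { toFun := fun δ i => δ (mk ℂ fun k => b k i)
      map_add' := fun δ δ' => rfl
      map_smul' := fun z δ => rfl }
  let E : Derivation (U ℚ) (U ℂ) (U ℂ) →ₗ[U ℂ] Matrix (Ix r₀ n N) (Ix r₀ n N) (U ℂ) :=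
    { toFun := fun δ => Cs⁻¹ * dm δ Cs
      map_add' := fun δ δ' => by
        have h1 : dm (δ + δ') Cs = dm δ Cs + dm δ' Cs := by
          refine Matrix.ext fun i j => ?_
          simp [dm]
        rw [h1, Matrix.mul_add]
      map_smul' := fun z δ => by
        have h1 : dm (z • δ) Cs = z • dm δ Cs := by
          refine Matrix.ext fun i j => ?_
          simp [dm]
        rw [h1, Matrix.mul_smul]
        rfl }
  have hzero : ∀ δ : Derivation (U ℚ) (U ℂ) (U ℂ), δ (mk ℂ fun _ => 0) = 0 := by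
    intro δ
    have : (mk ℂ fun _ => (0 : ℂ)) = 0 := map_zero (mk ℂ)
    rw [this, map_zero]
  have hker : LinearMap.ker R ≤ LinearMap.ker E := by
    intro δ hδ
    rw [LinearMap.mem_ker] at hδ ⊢
    have hδ' : ∀ i, δ (mk ℂ fun k => b k i) = 0 := fun i => congrFun hδ i
    have h2 : dm δ Cs = 0 := by
      refine Matrix.ext fun i j => ?_
      show δ (mk ℂ fun k => C' k i j) = 0
      rcases i with i | ⟨i, a⟩ <;> rcases j with j | ⟨j, a'⟩
      · exact der_algD (fun k => h1 k i j) hδ'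
      · have h3 : (fun k => C' k (Sum.inl i) (Sum.inr (j, a'))) = fun _ => 0 := by
          funext k
          show κ k * 0 = 0
          rw [mul_zero]
        rw [h3]
        exact hzero δ
      · have h3 : (fun k => C' k (Sum.inr (i, a)) (Sum.inl j)) = fun _ => 0 := by
          funext k
          show κ k * 0 = 0
          rw [mul_zero]
        rw [h3]
        exact hzero δ
      · by_cases ha : a = a'
        · subst ha
          have h3 : (fun k => C' k (Sum.inr (i, a)) (Sum.inr (j, a))) = fun k => κ k * C k i j := by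
            funext k
            show κ k * blockDiagonal (fun _ : Fin N => C k) (i, a) (j, a) = _
            rw [blockDiagonal_apply, if_pos rfl]
          rw [h3]
          exact der_algD (fun k => h2 k i j) hδ'
        · have h3 : (fun k => C' k (Sum.inr (i, a)) (Sum.inr (j, a'))) = fun _ => 0 := by
            funext k
            show κ k * blockDiagonal (fun _ : Fin N => C k) (i, a) (j, a') = _
            rw [blockDiagonal_apply, if_neg ha, mul_zero]
          rw [h3]
          exact hzero δ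
    show Cs⁻¹ * dm δ Cs = 0
    rw [h2, Matrix.mul_zero]
  obtain ⟨hfd, hle⟩ := rank_le R E hker
  refine ⟨Submodule.span (U ℂ) {1} ⊔ LinearMap.range E, Submodule.mem_sup_left (Submodule.mem_span_singleton_self _), ?_, ?_⟩
  · have h1 := Submodule.finrank_add_le_finrank_add_finrank
      (Submodule.span (U ℂ) {(1 : Matrix (Ix r₀ n N) (Ix r₀ n N) (U ℂ))}) (LinearMap.range E)
    have h2 : finrank (U ℂ) (Submodule.span (U ℂ) {(1 : Matrix (Ix r₀ n N) (Ix r₀ n N) (U ℂ))}) ≤ 1 := by
      have := finrank_span_le_card (R := U ℂ) ({1} : Set (Matrix (Ix r₀ n N) (Ix r₀ n N) (U ℂ)))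
      simpa using this
    rw [Module.finrank_fin_fun] at hle
    omega
  · intro δ
    have hκ0 : mk ℂ κ ≠ 0 := mk_ne_zero.2 (Filter.Eventually.of_forall hκ)
    have h1 : (gm fun k => Cb (C₀ k) (C k)) = (mk ℂ κ)⁻¹ • Cs := by
      have h3 : Cs = mk ℂ κ • gm fun k => Cb (N := N) (C₀ k) (C k) := gm_smul κ _
      rw [h3, smul_smul, inv_mul_cancel₀ hκ0, one_smul]
    have hz : (mk ℂ κ)⁻¹ ≠ 0 := inv_ne_zero hκ0
    rw [h1, dm_smul]
    have h2 : ((mk ℂ κ)⁻¹ • Cs)⁻¹ = mk ℂ κ • Cs⁻¹ := by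
      refine Matrix.inv_eq_right_inv ?_
      rw [Matrix.smul_mul, Matrix.mul_smul, smul_smul, inv_mul_cancel₀ hκ0, one_smul, Matrix.mul_nonsing_inv _ hCu]
    rw [h2, Matrix.mul_add, Matrix.mul_smul, Matrix.smul_mul, Matrix.mul_smul, Matrix.smul_mul,
      Matrix.nonsing_inv_mul _ hCu, smul_smul, smul_smul, inv_mul_cancel₀ hκ0, one_smul]
    exact Submodule.add_mem _ (Submodule.mem_sup_left (Submodule.smul_mem _ _ (Submodule.mem_span_singleton_self _)))
      (Submodule.mem_sup_right ⟨δ, rfl⟩)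

end Pool.Agent.H885
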