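import Pool.Graph.R_pool_sql_team_seeded_620a6dc7.Helper880_R3.Out

/-!
# Subtorsors which are stable under products of different classical groups
-/

set_option autoImplicit false
set_option linter.unusedSectionVars false
set_option linter.unusedVariables false

open Matrix Module Filter

namespace Pool.Agent.H885

open Pool.Agent.TH127.PT Pool.Agent.Y123.ST Pool.Agent.TH119.DR
open Pool.Agent.Helper880_R3 (Ix Tot Tot_mul Tot_one Tot_inj Tot_unit Zm lieB nexp nil_lie Clf_conj Spf_conj exp_zero' smul_one_inj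
  tate_all)
open Pool.Agent.Y123.GN (Clf Spf GB Ug Nil cl_perf quot_GB tpi tpi_tr tpi_ne mem_GB)

variable {n N r₀ : ℕ}

section stab
variable {K : Subfield ℂ} {T : Set (Matrix (Ix r₀ n N) (Ix r₀ n N) ℂ)}

/-- **stability under the classical groups** -/
theorem grp_stabC (hT : IsSubtorsor K T) {C B : Fin N → Matrix (Fin n) (Fin n) ℂ} (hC : ∀ j, IsUnit (C j).det)
    (hst : ∀ Y : Fin N → Matrix (Fin n) (Fin n) ℂ, (∀ j, Y j ∈ lieB (B j)) → ∀ x ∈ T,
      Zm (fun j => NormedSpace.exp (C j * Y j * (C j)⁻¹)) * x ∈ T) (hB : ∀ j, Clf (B j))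
    (g : Fin N → (Matrix (Fin n) (Fin n) ℂ)ˣ) (hg : ∀ i, g i ∈ GB (C i * B i * (C i)ᵀ)) {x : Matrix (Ix r₀ n N) (Ix r₀ n N) ℂ} (hx : x ∈ T) :
    Tot 1 (fun i => (g i : Matrix (Fin n) (Fin n) ℂ)) * x ∈ T := by
  classical
  let 𝒮 : Subgroup (Fin N → (Matrix (Fin n) (Fin n) ℂ)ˣ) :=
    { carrier := {g | ∀ y ∈ T, Tot 1 (fun i => (g i : Matrix (Fin n) (Fin n) ℂ)) * y ∈ T}
      one_mem' := by
        intro y hy
        have h1 : Tot (r₀ := r₀) 1 (fun i : Fin N => (((1 : Fin N → (Matrix (Fin n) (Fin n) ℂ)ˣ) i :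
          (Matrix (Fin n) (Fin n) ℂ)ˣ) : Matrix (Fin n) (Fin n) ℂ)) = 1 := Tot_one
        rw [h1, Matrix.one_mul]
        exact hy
      mul_mem' := by
        intro a b ha hb y hy
        have h1 := ha _ (hb y hy)
        rw [← Matrix.mul_assoc, Tot_mul, Matrix.mul_one] at h1
        exact h1
      inv_mem' := by
        intro a ha y hy
        have h1 := hT.torsor y hy _ (ha y hy) y hy
        have h2 : Tot 1 (fun i => ((a⁻¹ i : (Matrix (Fin n) (Fin n) ℂ)ˣ) : Matrix (Fin n) (Fin n) ℂ)) *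
            Tot (r₀ := r₀) 1 (fun i => (a i : Matrix (Fin n) (Fin n) ℂ)) = 1 := by
          rw [Tot_mul, Matrix.mul_one]
          have h3 : (fun i => ((a⁻¹ i : (Matrix (Fin n) (Fin n) ℂ)ˣ) : Matrix (Fin n) (Fin n) ℂ) * (a i : Matrix (Fin n) (Fin n) ℂ)) =
              fun _ => 1 := funext fun i => (a i).inv_mul
          rw [h3, Tot_one]
        have hyu : IsUnit y.det := (Matrix.isUnit_iff_isUnit_det _).1 (hT.isUnit y hy)
        rw [Matrix.mul_inv_rev, ← Matrix.mul_assoc, mul_nonsing_inv _ hyu, Matrix.one_mul] at h1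
        have h3 : (Tot (r₀ := r₀) 1 (fun i => (a i : Matrix (Fin n) (Fin n) ℂ)))⁻¹ =
            Tot 1 (fun i => ((a⁻¹ i : (Matrix (Fin n) (Fin n) ℂ)ˣ) : Matrix (Fin n) (Fin n) ℂ)) := inv_eq_left_inv h2
        rw [h3] at h1
        exact h1 }
  have hg𝒮 : g ∈ 𝒮 := by
    refine Subgroup.pi_mem_of_mulSingle_mem g fun i => ?_
    have hCC : (C i)⁻¹ * C i = 1 := nonsing_inv_mul _ (hC i)
    have hCC' : C i * (C i)⁻¹ = 1 := mul_nonsing_inv _ (hC i)
    let φ : (Matrix (Fin n) (Fin n) ℂ)ˣ →* (Fin N → (Matrix (Fin n) (Fin n) ℂ)ˣ) :=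
      MonoidHom.mulSingle (fun _ : Fin N => (Matrix (Fin n) (Fin n) ℂ)ˣ) i
    have h1 : Ug (GB (C i * B i * (C i)ᵀ)) ≤ 𝒮.comap φ := by
      unfold Ug
      refine (Subgroup.closure_le _).2 ?_
      rintro u ⟨M, hM, t, hu⟩
      show φ u ∈ 𝒮
      intro y hy
      have hMl := nil_lie hM
      have hY : (C i)⁻¹ * (t • M) * C i ∈ lieB (B i) := by
        refine ⟨?_, ?_⟩
        · rw [trace_mul_comm, ← Matrix.mul_assoc, hCC', Matrix.one_mul, trace_smul, hMl.1, smul_zero]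
        · have h2 := hMl.2
          have hCt : (C i)ᵀ * ((C i)⁻¹)ᵀ = 1 := by rw [← transpose_mul, hCC, transpose_one]
          have h3 : (C i)⁻¹ * (t • M) * C i * B i + B i * ((C i)⁻¹ * (t • M) * C i)ᵀ =
              t • ((C i)⁻¹ * (M * (C i * B i * (C i)ᵀ) + C i * B i * (C i)ᵀ * Mᵀ) * ((C i)⁻¹)ᵀ) := by
            have e1 : (C i)⁻¹ * (M * (C i * B i * (C i)ᵀ)) * ((C i)⁻¹)ᵀ = (C i)⁻¹ * M * C i * B i := by
              calc (C i)⁻¹ * (M * (C i * B i * (C i)ᵀ)) * ((C i)⁻¹)ᵀ = (C i)⁻¹ * M * C i * B i * ((C i)ᵀ * ((C i)⁻¹)ᵀ) := by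
                    simp only [Matrix.mul_assoc]
                _ = (C i)⁻¹ * M * C i * B i := by rw [hCt, Matrix.mul_one]
            have e2 : (C i)⁻¹ * (C i * B i * (C i)ᵀ * Mᵀ) * ((C i)⁻¹)ᵀ = B i * ((C i)ᵀ * Mᵀ * ((C i)⁻¹)ᵀ) := by
              calc (C i)⁻¹ * (C i * B i * (C i)ᵀ * Mᵀ) * ((C i)⁻¹)ᵀ = ((C i)⁻¹ * C i) * B i * ((C i)ᵀ * Mᵀ * ((C i)⁻¹)ᵀ) := by
                    simp only [Matrix.mul_assoc]
                _ = B i * ((C i)ᵀ * Mᵀ * ((C i)⁻¹)ᵀ) := by rw [hCC, Matrix.one_mul]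
            rw [Matrix.mul_add, Matrix.add_mul, e1, e2, smul_add, transpose_mul, transpose_mul, transpose_smul]
            simp only [Matrix.mul_smul, Matrix.smul_mul, Matrix.mul_assoc]
          rw [h3, h2, Matrix.mul_zero, Matrix.zero_mul, smul_zero]
      have h2 := hst (Pi.single i ((C i)⁻¹ * (t • M) * C i)) (fun j => by
        by_cases hj : j = i
        · subst hj
          rw [Pi.single_eq_same]
          exact hY
        · rw [Pi.single_eq_of_ne hj]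
          exact (lieB (B j)).zero_mem) y hy
      have h3 : Tot 1 (fun j => ((φ u j : (Matrix (Fin n) (Fin n) ℂ)ˣ) : Matrix (Fin n) (Fin n) ℂ)) =
          Zm (r₀ := r₀) (fun j => NormedSpace.exp (C j * (Pi.single i ((C i)⁻¹ * (t • M) * C i) : Fin N → Matrix (Fin n) (Fin n) ℂ) j * (C j)⁻¹)) := by
        unfold Tot Zm
        congr 2
        funext j
        by_cases hj : j = i
        · subst hj
          rw [Pi.single_eq_same]
          have e1 : C j * ((C j)⁻¹ * (t • M) * C j) * (C j)⁻¹ = t • M := by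
            calc C j * ((C j)⁻¹ * (t • M) * C j) * (C j)⁻¹ = (C j * (C j)⁻¹) * (t • M) * (C j * (C j)⁻¹) := by simp only [Matrix.mul_assoc]
              _ = t • M := by rw [hCC', Matrix.one_mul, Matrix.mul_one]
          rw [e1, ← nexp (hM.1.smul t), ← hu]
          show ((Pi.mulSingle j u : Fin N → (Matrix (Fin n) (Fin n) ℂ)ˣ) j : Matrix (Fin n) (Fin n) ℂ) = u
          rw [Pi.mulSingle_eq_same]
        · rw [Pi.single_eq_of_ne hj, Matrix.mul_zero, Matrix.zero_mul, exp_zero']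
          show ((Pi.mulSingle i u : Fin N → (Matrix (Fin n) (Fin n) ℂ)ˣ) j : Matrix (Fin n) (Fin n) ℂ) = 1
          rw [Pi.mulSingle_eq_of_ne hj]
          rfl
      rw [h3]
      exact h2
    have h2 : GB (C i * B i * (C i)ᵀ) ≤ Ug (GB (C i * B i * (C i)ᵀ)) :=
      (cl_perf (Clf_conj (hC i) (hB i))).trans (Subgroup.commutator_le.2 fun a ha b hb => by
        rw [commutatorElement_def]
        exact mul_mem (mul_mem (mul_mem ha hb) (inv_mem ha)) (inv_mem hb))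
    exact h1 (h2 (hg i))
  exact hg𝒮 x hx

/-- the fibres of the subtorsors -/
theorem fibre_fullC (hT : IsSubtorsor K T) {B : Fin N → Matrix (Fin n) (Fin n) ℂ}
    (hst : ∀ g : Fin N → (Matrix (Fin n) (Fin n) ℂ)ˣ, (∀ i, g i ∈ GB (B i)) →
      ∀ x ∈ T, Tot 1 (fun i => (g i : Matrix (Fin n) (Fin n) ℂ)) * x ∈ T)
    {x₀ : Matrix (Fin r₀) (Fin r₀) ℂ} {X Y Q : Fin N → Matrix (Fin n) (Fin n) ℂ} {μ : Fin N → ℂ} (hμ : ∀ i, μ i ≠ 0)
    (hx : Tot x₀ X ∈ T) (hX : ∀ i, X i * Q i * (X i)ᵀ = μ i • B i) (hY : ∀ i, Y i * Q i * (Y i)ᵀ = μ i • B i)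
    (hd : ∀ i, Spf (B i) ∨ (X i).det = (Y i).det) : Tot x₀ Y ∈ T := by
  have hu : ∀ i, IsUnit (X i) := (Tot_unit (hT.isUnit _ hx)).2
  choose g hg hgX using fun i => quot_GB (hμ i) (hu i) (hX i) (hY i) (hd i)
  have h1 := hst g hg _ hx
  rw [Tot_mul, Matrix.one_mul] at h1
  have h2 : (fun i => (g i : Matrix (Fin n) (Fin n) ℂ) * X i) = Y := by
    funext i
    exact hgX i
  rwa [h2] at h1

/-- the torsor of the isomorphisms which respect forms and determinants, with the Tate object of weight one as constant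
part -/
def FTC (r₀ : ℕ) {n N : ℕ} (B : Fin N → Matrix (Fin n) (Fin n) ℂ) (Q : Fin N → Matrix (Fin n) (Fin n) ℂ) (w m : Fin N → ℤ)
    (δ : Fin N → ℂ) : Set (Matrix (Ix r₀ n N) (Ix r₀ n N) ℂ) :=
  {y | ∃ z : ℂ, z ≠ 0 ∧ ∃ X : Fin N → Matrix (Fin n) (Fin n) ℂ, y = Tot (z • (1 : Matrix (Fin r₀) (Fin r₀) ℂ)) X ∧
    ∀ i, X i * Q i * (X i)ᵀ = z ^ (w i) • B i ∧ (Spf (B i) ∨ (X i).det = δ i * z ^ (m i))}

/-- **The absolute case.** -/
theorem absoluteC (hK : ∀ x ∈ K, IsAlgebraic ℚ x) (hr : 0 < r₀) (hT : IsSubtorsor K T)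
    {Z : Fin N → Matrix (Fin n) (Fin n) ℂ} (hc : Tot (tpi • (1 : Matrix (Fin r₀) (Fin r₀) ℂ)) Z ∈ T)
    {B : Fin N → Matrix (Fin n) (Fin n) ℂ}
    (hst : ∀ g : Fin N → (Matrix (Fin n) (Fin n) ℂ)ˣ, (∀ i, g i ∈ GB (B i)) →
      ∀ x ∈ T, Tot 1 (fun i => (g i : Matrix (Fin n) (Fin n) ℂ)) * x ∈ T)
    {Q : Fin N → Matrix (Fin n) (Fin n) ℂ} {w m : Fin N → ℤ} {δ : Fin N → ℂ} (hTF : T ⊆ FTC r₀ B Q w m δ) :
    T = FTC r₀ B Q w m δ := by
  refine Set.Subset.antisymm hTF ?_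
  rintro _ ⟨z, hz, Y, rfl, hY⟩
  obtain ⟨X, hX⟩ := tate_all hK hT hc hz
  obtain ⟨z', hz', X', hXX', hX'⟩ := hTF hX
  obtain ⟨h1, h2⟩ := Tot_inj hXX'
  have h3 : z = z' := smul_one_inj hr h1
  subst h3
  subst h2
  refine fibre_fullC hT hst (μ := fun i => z ^ (w i)) (fun i => zpow_ne_zero _ hz) hX (fun i => (hX' i).1)
    (fun i => (hY i).1) fun i => ?_
  rcases (hX' i).2 with h4 | h4
  · exact Or.inl h4
  · rcases (hY i).2 with h5 | h5
    · exact Or.inl h5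
    · exact Or.inr (h4.trans h5.symm)

end stab

end Pool.Agent.H885
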