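import Pool.Agent.H885.CoreP
import Pool.Agent.H885.FewQ
import Pool.Agent.H885.OutC

/-!
# The core theorem for several blocks, the constants depend on the blocks
-/

set_option autoImplicit false
set_option linter.unusedSectionVars false
set_option linter.unusedVariables false

open Matrix Module Filter

namespace Pool.Agent.H885

open Pool.Agent.Helper880_R3 hiding core final
open Pool.Agent.Helper880_LF.NB hiding alg_core
open Pool.Agent.Y118.UL (mk mk_eq mk_eq_zero mk_ne_zero mk_surj ev_ge eval_mk rep qc qc_mk algebraMap_eq U)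
open Pool.Agent.TH119.DR Pool.Agent.TH119.MX Pool.Agent.TH127.PT Pool.Agent.Y123.ST Pool.Agent.Y123.GN

variable {n N r₀ : ℕ}

/-- **several blocks with different constants**: one of them is good -/
theorem coreT (hn : 0 < n) {L r s ℓ : ℕ} (hLr : s + L * ℓ < L * (r + 1))
    {𝔤 : ℕ → Fin L → Fin N → Submodule ℂ (Matrix (Fin n) (Fin n) ℂ)}
    (hL : ∀ k l i, IsLie (𝔤 k l i)) (hc : ∀ k l i, Cod r (𝔤 k l i)) (hq : ∀ k l i, CF (𝔤 k l i))
    {z : ℕ → Fin L → Fin N → Matrix (Fin n) (Fin n) ℂ} (hz : ∀ k l j, (z k l j).det ≠ 0)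
    (hder : ∀ l i, ∀ A ∈ GUs (fun k => 𝔤 k l i), ∃ δ : Derivation (U ℚ) (U ℂ) (U ℂ),
      dm δ (gm fun k => z k l i) = A * (gm fun k => z k l i) ∧
      ∀ l' j, (l', j) ≠ (l, i) → dm δ (gm fun k => z k l' j) = 0)
    {K : ℕ → Fin L → Subfield ℂ} {D : ℕ} (hK : ∀ k l, FiniteDimensional ℚ (K k l)) (hD : ∀ k l, finrank ℚ (K k l) ≤ D)
    {C : ℕ → Fin L → Matrix (Ix r₀ n N) (Ix r₀ n N) ℂ} (hC : ∀ k l, (C k l).det ≠ 0)
    {β : Fin s → U ℂ} {γ : Fin L → Fin ℓ → U ℂ} {κ : ℕ → Fin L → ℂ} (hκ : ∀ k l, κ k l ≠ 0)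
    (hker : ∀ l, ∀ δ : Derivation (U ℚ) (U ℂ) (U ℂ), (∀ i, δ (β i) = 0) → (∀ i, δ (γ l i) = 0) →
      dm δ (gm fun k => κ k l • C k l) = 0)
    {T : ℕ → Fin L → Set (Matrix (Ix r₀ n N) (Ix r₀ n N) ℂ)} (hT : ∀ k l, IsSubtorsor (K k l) (T k l))
    (hcT : ∀ k l, C k l * Zm (z k l) ∈ T k l) :
    ∃ l, ∀ᶠ k in (hyperfilter ℕ : Filter ℕ), ∀ i, ∀ X ∈ 𝔤 k l i, fl (C k l * ib i X * (C k l)⁻¹) ∈ LL (T k l) := by
  classical
  have hL0 : 0 < L := by
    rcases Nat.eq_zero_or_pos L with h | h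
    · subst h
      simp at hLr
    · exact h
  -- the case without points
  rcases Nat.eq_zero_or_pos N with hN | hN
  · subst hN
    exact ⟨⟨0, hL0⟩, Filter.Eventually.of_forall fun k i => i.elim0⟩
  have : Nonempty (Ix r₀ n N) := ⟨Sum.inr (⟨0, hn⟩, ⟨0, hN⟩)⟩
  have hzero : ∀ {B : Type} [Fintype B] [DecidableEq B] (M : Matrix B B (U ℂ)),
      dm (0 : Derivation (U ℚ) (U ℂ) (U ℂ)) M = 0 := by
    intro B _ _ M
    refine Matrix.ext fun a b => ?_
    simp [dm]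
  have hadd : ∀ {B : Type} [Fintype B] [DecidableEq B] (δ δ' : Derivation (U ℚ) (U ℂ) (U ℂ)) (M : Matrix B B (U ℂ)),
      dm (δ + δ') M = dm δ M + dm δ' M := by
    intro B _ _ δ δ' M
    refine Matrix.ext fun a b => ?_
    simp [dm]
  have hsub : ∀ {B : Type} [Fintype B] [DecidableEq B] (δ δ' : Derivation (U ℚ) (U ℂ) (U ℂ)) (M : Matrix B B (U ℂ)),
      dm (δ - δ') M = dm δ M - dm δ' M := by
    intro B _ _ δ δ' M
    refine Matrix.ext fun a b => ?_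
    simp [dm]
  have hsmul : ∀ {B : Type} [Fintype B] [DecidableEq B] (c : U ℂ) (δ : Derivation (U ℚ) (U ℂ) (U ℂ)) (M : Matrix B B (U ℂ)),
      dm (c • δ) M = c • dm δ M := by
    intro B _ _ c δ M
    refine Matrix.ext fun a b => ?_
    simp [dm]
  -- the values of the derivations
  let Φ : Derivation (U ℚ) (U ℂ) (U ℂ) →ₗ[U ℂ] (Fin s ⊕ Fin L × Fin ℓ → U ℂ) :=
    { toFun := fun δ => Sum.elim (fun i => δ (β i)) fun p => δ (γ p.1 p.2)
      map_add' := fun δ δ' => by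
        funext i
        rcases i with i | i <;> rfl
      map_smul' := fun z δ => by
        funext i
        rcases i with i | i <;> rfl }
  let 𝒟 : ℕ → Submodule (U ℂ) (Derivation (U ℚ) (U ℂ) (U ℂ)) := fun m =>
    { carrier := {δ | ∀ l : Fin L, (l : ℕ) < m → ∀ j, dm δ (gm fun k => z k l j) = 0}
      zero_mem' := fun l _ j => hzero _
      add_mem' := fun {a b} h1 h2 l hl j => by rw [hadd, h1 l hl, h2 l hl, add_zero]
      smul_mem' := fun c {a} h1 l hl j => by rw [hsmul, h1 l hl, smul_zero] }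
  let 𝒱 : ℕ → Submodule (U ℂ) (Fin s ⊕ Fin L × Fin ℓ → U ℂ) := fun m => (𝒟 m).map Φ
  have h𝒱mono : ∀ m, 𝒱 (m + 1) ≤ 𝒱 m := fun m => Submodule.map_mono fun δ h1 l hl j => h1 l (by omega) j
  -- the pigeonhole principle
  obtain ⟨l, hl⟩ : ∃ l : Fin L, finrank (U ℂ) (𝒱 l) ≤ finrank (U ℂ) (𝒱 (l + 1)) + r := by
    by_contra hcon
    push Not at hcon
    have h1 : ∀ m, m ≤ L → finrank (U ℂ) (𝒱 m) + m * (r + 1) ≤ finrank (U ℂ) (𝒱 0) := by
      intro m
      induction m with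
      | zero => intro _; simp
      | succ m ih =>
        intro hm
        have h2 := ih (by omega)
        have h3 := hcon ⟨m, by omega⟩
        simp only at h3
        have h4 : (m + 1) * (r + 1) = m * (r + 1) + (r + 1) := by ring
        omega
    have h2 := h1 L le_rfl
    have h3 : finrank (U ℂ) (𝒱 0) ≤ s + L * ℓ := by
      refine (Submodule.finrank_le _).trans (le_of_eq ?_)
      rw [Module.finrank_fintype_fun_eq_card, Fintype.card_sum, Fintype.card_prod, Fintype.card_fin, Fintype.card_fin,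
        Fintype.card_fin]
    omega
  refine ⟨l, ?_⟩
  -- the complement
  obtain ⟨𝒞', h𝒞'⟩ := Submodule.exists_isCompl (Submodule.comap (𝒱 l).subtype (𝒱 (l + 1)))
  set 𝒞 : Submodule (U ℂ) (Fin s ⊕ Fin L × Fin ℓ → U ℂ) := 𝒞'.map (𝒱 l).subtype with h𝒞
  have hdim𝒞 : finrank (U ℂ) 𝒞 ≤ r := by
    have h1 := Submodule.finrank_add_eq_of_isCompl h𝒞'
    have h2 : finrank (U ℂ) (Submodule.comap (𝒱 l).subtype (𝒱 (l + 1))) = finrank (U ℂ) (𝒱 (l + 1)) :=
      LinearEquiv.finrank_eq (Submodule.comapSubtypeEquivOfLe (h𝒱mono l))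
    have h3 := Submodule.finrank_map_le (𝒱 l).subtype 𝒞'
    rw [h𝒞]
    omega
  have hsplit : ∀ E ∈ 𝒱 l, ∃ E₂ ∈ 𝒱 (l + 1), ∃ E₃ ∈ 𝒞, E = E₂ + E₃ := by
    intro E hE
    have h1 : (⟨E, hE⟩ : 𝒱 l) ∈ (Submodule.comap (𝒱 l).subtype (𝒱 (l + 1))) ⊔ 𝒞' := by
      rw [h𝒞'.sup_eq_top]
      exact Submodule.mem_top
    obtain ⟨e₂, he₂, e₃, he₃, h2⟩ := Submodule.mem_sup.1 h1
    exact ⟨e₂, he₂, e₃, ⟨e₃, he₃, rfl⟩, congrArg Subtype.val h2.symm⟩
  -- the logarithmic derivatives of the constants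
  set Cs : Matrix (Ix r₀ n N) (Ix r₀ n N) (U ℂ) := gm fun k => κ k l • C k l with hCs
  have hCsd : ∀ k, (κ k l • C k l).det ≠ 0 := fun k => by
    rw [Matrix.det_smul]
    exact mul_ne_zero (pow_ne_zero _ (hκ k l)) (hC k l)
  have hCu : IsUnit Cs.det := gm_unit hCsd
  let 𝒟C : Submodule (U ℂ) (Derivation (U ℚ) (U ℂ) (U ℂ)) := 𝒞.comap Φ
  let R : 𝒟C →ₗ[U ℂ] 𝒞 := (Φ.comp 𝒟C.subtype).codRestrict 𝒞 fun δ => δ.2
  let E : 𝒟C →ₗ[U ℂ] Matrix (Ix r₀ n N) (Ix r₀ n N) (U ℂ) :=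
    { toFun := fun δ => Cs⁻¹ * dm δ.1 Cs
      map_add' := fun δ δ' => by
        show Cs⁻¹ * dm (δ.1 + δ'.1) Cs = _
        rw [hadd, Matrix.mul_add]
      map_smul' := fun z δ => by
        show Cs⁻¹ * dm (z • δ.1) Cs = _
        rw [hsmul, Matrix.mul_smul]
        rfl }
  have hkerRE : LinearMap.ker R ≤ LinearMap.ker E := by
    intro δ hδ
    rw [LinearMap.mem_ker] at hδ ⊢
    have h1 : Φ δ.1 = 0 := congrArg Subtype.val hδ
    have h2 : dm δ.1 Cs = 0 := hker l δ.1 (fun i => congrFun h1 (Sum.inl i)) fun i => congrFun h1 (Sum.inr (l, i))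
    show Cs⁻¹ * dm δ.1 Cs = 0
    rw [h2, Matrix.mul_zero]
  obtain ⟨hfd, hle⟩ := rank_le R E hkerRE
  refine coreP1 hn (fun k => hL k l) (fun k => hc k l) (fun k => hq k l) (fun k => hz k l) (fun k => hK k l)
    (fun k => hD k l) (fun k => hC k l) (Submodule.span (U ℂ) {1} ⊔ LinearMap.range E)
    (Submodule.mem_sup_left (Submodule.mem_span_singleton_self _)) ?_ ?_ (fun k => hT k l) (fun k => hcT k l)
  · have h1 := Submodule.finrank_add_le_finrank_add_finrank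
      (Submodule.span (U ℂ) {(1 : Matrix (Ix r₀ n N) (Ix r₀ n N) (U ℂ))}) (LinearMap.range E)
    have h2 := finrank_span_singleton (K := U ℂ) (one_ne_zero (α := Matrix (Ix r₀ n N) (Ix r₀ n N) (U ℂ)))
    omega
  · intro i A hA
    obtain ⟨δ₁, h1, h2⟩ := hder l i A hA
    have h3 : Φ δ₁ ∈ 𝒱 l := ⟨δ₁, fun l' hl' j => h2 l' j (by
      intro h
      have := (Prod.ext_iff.1 h).1
      simp only at this
      rw [this] at hl'
      omega), rfl⟩
    obtain ⟨E₂, ⟨δ₂, h5, h6⟩, E₃, hE₃, h4⟩ := hsplit _ h3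
    have h7 : Φ (δ₁ - δ₂) ∈ 𝒞 := by
      rw [map_sub, h4, h6, add_sub_cancel_left]
      exact hE₃
    refine ⟨δ₁ - δ₂, ?_, fun j hj => ?_, ?_⟩
    · rw [hsub, h1, h5 l (by omega) i, sub_zero]
    · rw [hsub, h2 l j (by
        intro h
        exact hj (Prod.ext_iff.1 h).2), h5 l (by omega) j, sub_zero]
    · set δ := δ₁ - δ₂ with hδ
      have hκ0 : (mk ℂ fun k => κ k l) ≠ 0 := mk_ne_zero.2 (Filter.Eventually.of_forall fun k => hκ k l)
      have h1 : (gm fun k => C k l) = (mk ℂ fun k => κ k l)⁻¹ • Cs := by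
        have h3 : Cs = (mk ℂ fun k => κ k l) • gm fun k => C k l := gm_smul (fun k => κ k l) _
        rw [h3, smul_smul, inv_mul_cancel₀ hκ0, one_smul]
      rw [h1, dm_smul]
      have h2 : ((mk ℂ fun k => κ k l)⁻¹ • Cs)⁻¹ = (mk ℂ fun k => κ k l) • Cs⁻¹ := by
        refine Matrix.inv_eq_right_inv ?_
        rw [Matrix.smul_mul, Matrix.mul_smul, smul_smul, inv_mul_cancel₀ hκ0, one_smul, Matrix.mul_nonsing_inv _ hCu]
      rw [h2, Matrix.mul_add, Matrix.mul_smul, Matrix.smul_mul, Matrix.mul_smul, Matrix.smul_mul,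
        Matrix.nonsing_inv_mul _ hCu, smul_smul, smul_smul, inv_mul_cancel₀ hκ0, one_smul]
      exact Submodule.add_mem _ (Submodule.mem_sup_left (Submodule.smul_mem _ _ (Submodule.mem_span_singleton_self _)))
        (Submodule.mem_sup_right ⟨⟨δ, h7⟩, rfl⟩)

end Pool.Agent.H885
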