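import Pool.Agent.H885.RelL
import Pool.Graph.R_seed8.Y120.H.Fml

/-!
# Independence of the words of a system over the functions which are holomorphic in a disc
-/

set_option autoImplicit false
set_option linter.unusedSectionVars false
set_option linter.unusedVariables false

open PowerSeries

namespace Pool.Agent.H885

open Pool.Agent.Y113
open Pool.Agent.Y120.GH (cx cx_ps cx_der Cw ou Disc QU AT A1 qu_tens qu_one tens_der AT_map disc_of_qu det_ne_of_mul)

variable {n N : ℕ}

/-- words of length `δ` in `1` and the `z i` -/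
def wd {κ K : Type} [CommMonoid K] {δ : ℕ} (z : κ → K) (b : Fin δ → Option κ) : K := ∏ l, (b l).elim 1 z

section qu
variable {ρ : ℝ} {T : Polynomial ℤ} {B : Fin N → Fin n → Fin n → Polynomial ℤ} {Z W : Fin N → Matrix (Fin n) (Fin n) ℚ⟦X⟧}

/-- the matrix of the system of all entries -/
noncomputable def Acx (B : Fin N → Fin n → Fin n → Polynomial ℤ) (σ τ : Fin N × Fin n × Fin n) : Polynomial ℂ :=
  if σ.1 = τ.1 ∧ σ.2.1 = τ.2.1 then (B σ.1 τ.2.2 σ.2.2).map (Int.castRingHom ℂ) else 0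

theorem sum_Acx (B : Fin N → Fin n → Fin n → Polynomial ℤ) (σ : Fin N × Fin n × Fin n) (f : Fin N × Fin n × Fin n → PowerSeries ℂ) :
    ∑ τ, (Acx B σ τ : PowerSeries ℂ) * f τ =
      ∑ l, (((B σ.1 l σ.2.2).map (Int.castRingHom ℂ) : Polynomial ℂ) : PowerSeries ℂ) * f (σ.1, σ.2.1, l) := by
  rw [Fintype.sum_prod_type, Finset.sum_eq_single σ.1]
  · rw [Fintype.sum_prod_type, Finset.sum_eq_single σ.2.1]
    · refine Finset.sum_congr rfl fun l _ => ?_
      unfold Acx
      rw [if_pos ⟨rfl, rfl⟩]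
    · intro a _ ha
      refine Finset.sum_eq_zero fun l _ => ?_
      unfold Acx
      rw [if_neg (fun h => ha h.2.symm)]
      simp
    · intro h
      exact absurd (Finset.mem_univ _) h
  · intro j _ hj
    refine Finset.sum_eq_zero fun a _ => ?_
    unfold Acx
    rw [if_neg (fun h => hj h.1.symm)]
    simp
  · intro h
    exact absurd (Finset.mem_univ _) h

/-- the fundamental matrix -/
noncomputable def Fcx (Z : Fin N → Matrix (Fin n) (Fin n) ℚ⟦X⟧) :
    Matrix (Fin N × Fin n × Fin n) (Fin N × Fin n × Fin n) (Polynomial (PowerSeries ℂ)) := fun σ τ =>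
  if σ.1 = τ.1 ∧ σ.2.1 = τ.2.1 then Polynomial.C (cx (Z σ.1 τ.2.2 σ.2.2)) else 0

theorem qu_sys (hode : ∀ j a b, ps T * d⁄dX ℚ (Z j a b) = ∑ l, Z j a l * ps (B j l b)) (hinv : ∀ j, W j * Z j = 1)
    (hmem : ∀ j a b, cx (Z j a b) ∈ Cw ρ) : QU one_ne_zero ρ (T.map (Int.castRingHom ℂ)) (Acx B) := by
  classical
  refine ⟨0, Fcx Z, fun σ τ k => ?_, fun σ τ k => ?_, ?_⟩
  · unfold Fcx
    split_ifs
    · rw [Polynomial.coeff_C]
      split_ifs
      · exact hmem _ _ _
      · exact (Cw ρ).zero_mem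
    · rw [Polynomial.coeff_zero]
      exact (Cw ρ).zero_mem
  · simp only [expand_one_apply, Nat.cast_one, one_mul, pow_one, Nat.cast_zero, zero_mul, sub_zero]
    rw [sum_Acx]
    have h1 : ∀ l, (Fcx Z (σ.1, σ.2.1, l) τ).coeff k =
        if σ.1 = τ.1 ∧ σ.2.1 = τ.2.1 then (if k = 0 then cx (Z σ.1 τ.2.2 l) else 0) else 0 := by
      intro l
      unfold Fcx
      simp only
      split_ifs with h1 h2
      · rw [h2, Polynomial.coeff_C_zero]
      · rw [Polynomial.coeff_C, if_neg h2]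
      · exact Polynomial.coeff_zero _
    have h2 : (Fcx Z σ τ).coeff (k + 1) = 0 := by
      unfold Fcx
      split_ifs
      · rw [Polynomial.coeff_C, if_neg (Nat.succ_ne_zero k)]
      · exact Polynomial.coeff_zero _
    have h3 : (Fcx Z σ τ).coeff k = if σ.1 = τ.1 ∧ σ.2.1 = τ.2.1 then (if k = 0 then cx (Z σ.1 τ.2.2 σ.2.2) else 0) else 0 :=
      h1 σ.2.2
    rw [h2, h3, mul_zero, add_zero, Finset.sum_congr rfl fun l _ => by rw [h1 l]]
    by_cases hc : σ.1 = τ.1 ∧ σ.2.1 = τ.2.1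
    · simp only [if_pos hc]
      by_cases hk : k = 0
      · simp only [if_pos hk]
        have h4 := congrArg cx (hode σ.1 τ.2.2 σ.2.2)
        rw [map_mul, map_sum, cx_der, cx_ps] at h4
        have h5 : ((T.map (Int.castRingHom ℂ) : Polynomial ℂ) : PowerSeries ℂ) *
            (X * PowerSeries.derivative ℂ (cx (Z σ.1 τ.2.2 σ.2.2))) =
            X * (((T.map (Int.castRingHom ℂ) : Polynomial ℂ) : PowerSeries ℂ) *
              PowerSeries.derivative ℂ (cx (Z σ.1 τ.2.2 σ.2.2))) := by ring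
        rw [h5, h4]
        congr 1
        refine Finset.sum_congr rfl fun l _ => ?_
        rw [map_mul, cx_ps, mul_comm]
      · simp only [if_neg hk, map_zero, mul_zero, Finset.sum_const_zero]
    · simp only [if_neg hc, map_zero, mul_zero, Finset.sum_const_zero]
  · -- the determinant
    let Ψ : Matrix (Fin N × Fin n × Fin n) (Fin N × Fin n × Fin n) (Polynomial (PowerSeries ℂ)) := fun σ τ =>
      if σ.1 = τ.1 ∧ σ.2.1 = τ.2.1 then Polynomial.C (cx (W σ.1 τ.2.2 σ.2.2)) else 0
    refine det_ne_of_mul (Q := Ψ) (s := 1) one_ne_zero ?_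
    rw [one_smul]
    ext1 σ τ
    rw [Matrix.mul_apply, Matrix.one_apply]
    have h1 : ∀ υ : Fin N × Fin n × Fin n, Fcx Z σ υ * Ψ υ τ =
        if σ.1 = υ.1 ∧ σ.2.1 = υ.2.1 then (if υ.1 = τ.1 ∧ υ.2.1 = τ.2.1 then
          Polynomial.C (cx (Z σ.1 υ.2.2 σ.2.2)) * Polynomial.C (cx (W υ.1 τ.2.2 υ.2.2)) else 0) else 0 := by
      intro υ
      show (if σ.1 = υ.1 ∧ σ.2.1 = υ.2.1 then Polynomial.C (cx (Z σ.1 υ.2.2 σ.2.2)) else 0) *
        (if υ.1 = τ.1 ∧ υ.2.1 = τ.2.1 then Polynomial.C (cx (W υ.1 τ.2.2 υ.2.2)) else 0) = _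
      split_ifs <;> simp
    rw [Finset.sum_congr rfl fun υ _ => h1 υ, Fintype.sum_prod_type, Finset.sum_eq_single σ.1]
    · rw [Fintype.sum_prod_type, Finset.sum_eq_single σ.2.1]
      · simp only [true_and, if_true]
        by_cases hc : σ.1 = τ.1 ∧ σ.2.1 = τ.2.1
        · simp only [if_pos hc]
          have h2 : ∑ c, Polynomial.C (cx (Z σ.1 c σ.2.2)) * Polynomial.C (cx (W σ.1 τ.2.2 c)) =
              Polynomial.C (cx ((W σ.1 * Z σ.1) τ.2.2 σ.2.2)) := by
            rw [Matrix.mul_apply, map_sum, map_sum]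
            refine Finset.sum_congr rfl fun c _ => ?_
            rw [map_mul, map_mul, mul_comm]
          refine Eq.trans h2 ?_
          rw [hinv, Matrix.one_apply]
          by_cases h3 : τ.2.2 = σ.2.2
          · have h4 : σ = τ := Prod.ext hc.1 (Prod.ext hc.2 h3.symm)
            rw [if_pos h3, if_pos h4, map_one, map_one]
          · have h4 : σ ≠ τ := fun h => h3 (by rw [h])
            rw [if_neg h3, if_neg h4, map_zero, map_zero]
        · simp only [if_neg hc]
          have h4 : σ ≠ τ := fun h => hc (by rw [h]; exact ⟨rfl, rfl⟩)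
          rw [if_neg h4]
          simp
      · intro a _ ha
        refine Finset.sum_eq_zero fun l _ => ?_
        rw [if_neg (fun h => ha h.2.symm)]
      · intro h
        exact absurd (Finset.mem_univ _) h
    · intro j _ hj
      refine Finset.sum_eq_zero fun a _ => ?_
      rw [if_neg (fun h => hj h.1.symm)]
    · intro h
      exact absurd (Finset.mem_univ _) h

/-- **the words are independent over the functions which are holomorphic in a disc** -/
theorem disc_wd {ρ' : ℝ} (hρ : 0 < ρ) (hρ' : 0 < ρ') (hT : T ≠ 0)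
    (hode : ∀ j a b, ps T * d⁄dX ℚ (Z j a b) = ∑ l, Z j a l * ps (B j l b)) (hinv : ∀ j, W j * Z j = 1)
    (hmem : ∀ j a b, cx (Z j a b) ∈ Cw ρ) {δ : ℕ} (S : Set (Fin δ → Option (Fin N × Fin n × Fin n))) [Fintype S]
    (hLI : ∀ G : S → Polynomial ℂ, ∑ i, (G i : PowerSeries ℂ) * wd (fun σ => cx (ent Z σ)) i.1 = 0 → ∀ i, G i = 0) :
    Disc ρ ρ' fun b : S => wd (fun σ => cx (ent Z σ)) b.1 := by
  classical
  set y : Fin N × Fin n × Fin n → PowerSeries ℂ := fun σ => cx (ent Z σ) with hy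
  have hQU := qu_tens one_ne_zero δ (qu_one one_ne_zero (qu_sys hode hinv hmem))
  have hTc0 : T.map (Int.castRingHom ℂ) ≠ 0 := (Polynomial.map_ne_zero_iff (Int.castRingHom ℂ).injective_int).2 hT
  have hmem' : ∀ b : Fin δ → Option (Fin N × Fin n × Fin n), wd y b ∈ Cw (ρ ^ 1) := by
    intro b
    rw [pow_one]
    refine (Cw ρ).prod_mem fun l _ => ?_
    rcases b l with _ | σ
    · exact (Cw ρ).one_mem
    · exact hmem _ _ _
  have hodeC : ∀ σ, ((T.map (Int.castRingHom ℂ) : Polynomial ℂ) : PowerSeries ℂ) * PowerSeries.derivative ℂ (y σ) =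
      ∑ τ, (Acx B σ τ : PowerSeries ℂ) * y τ := by
    intro σ
    rw [sum_Acx]
    have h4 := congrArg cx (hode σ.1 σ.2.1 σ.2.2)
    rw [map_mul, map_sum, cx_der, cx_ps] at h4
    refine h4.trans ?_
    refine Finset.sum_congr rfl fun l _ => ?_
    rw [map_mul, cx_ps, mul_comm]
    rfl
  have hodeT : ∀ b : Fin δ → Option (Fin N × Fin n × Fin n), ((T.map (Int.castRingHom ℂ) : Polynomial ℂ) : PowerSeries ℂ) *
      PowerSeries.derivative ℂ (wd y b) = ∑ b', ((AT (δ := δ) (A1 (Acx B)) b b' : Polynomial ℂ) : PowerSeries ℂ) * wd y b' := by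
    intro b
    have h1 := tens_der (δ := δ) (fun f : PowerSeries ℂ => PowerSeries.derivative ℂ f) (Derivation.map_one_eq_zero _)
      (fun f g => by
        rw [Derivation.leibniz]
        rfl) ((T.map (Int.castRingHom ℂ) : Polynomial ℂ) : PowerSeries ℂ) 0
      (fun i l : Option (Fin N × Fin n × Fin n) => ((A1 (Acx B) i l : Polynomial ℂ) : PowerSeries ℂ))
      (fun _ o => o.elim 1 y) (fun j o => by
        rw [zero_mul, zero_add, Fintype.sum_option]
        rcases o with _ | i
        · show _ * PowerSeries.derivative ℂ 1 = ((0 : Polynomial ℂ) : PowerSeries ℂ) * _ +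
            ∑ j, ((0 : Polynomial ℂ) : PowerSeries ℂ) * _
          rw [Derivation.map_one_eq_zero]
          simp
        · show _ = ((0 : Polynomial ℂ) : PowerSeries ℂ) * _ + ∑ j, (Acx B i j : PowerSeries ℂ) * y j
          rw [← hodeC i]
          simp) b
    refine h1.trans ?_
    rw [mul_zero, zero_mul, zero_add]
    refine Finset.sum_congr rfl fun b' _ => ?_
    have h2 : AT (δ := δ) (fun i l => ((A1 (Acx B) i l : Polynomial ℂ) : PowerSeries ℂ)) b b' =
        ((AT (δ := δ) (A1 (Acx B)) b b' : Polynomial ℂ) : PowerSeries ℂ) := by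
      let f : Polynomial ℂ →+ PowerSeries ℂ := (Polynomial.coeToPowerSeries.ringHom (R := ℂ)).toAddMonoidHom
      exact (AT_map f (A1 (Acx B)) b b').symm
    rw [h2]
    rfl
  have h := disc_of_qu one_ne_zero hρ hρ' (fun b => wd y b) hmem' _ hTc0 _ hodeT hQU S hLI
  rw [pow_one, pow_one] at h
  exact h

end qu

end Pool.Agent.H885
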