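import Pool.Agent.H885.Joint

/-!
# Joint symmetries of families at shifts which are equal or separated
-/

set_option autoImplicit false
set_option linter.unusedSectionVars false
set_option linter.unusedVariables false

open Filter Topology Metric Set PowerSeries

namespace Pool.Agent.H885

open Pool.Agent.Y113 (ev Cv GSys ps)
open Pool.Agent.Y120.GH (An mem_An cx cx_mem Cw ou ou_an ou_mul ou_add ou_C ou_one ou_zero ou_X ou_sum ou_prod ou_poly ou_shift
  Disc Up Up_open Up_conv Up_norm ou_inj poly_mem Cw_mono rev_eval sf)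

variable {n N L : ℕ}

/-- the combined family, the shifts depend on the point -/
noncomputable def combP (g : Fin L → Fin N → ℕ) (Z : Fin L → Fin N → Matrix (Fin n) (Fin n) ℚ⟦X⟧) :
    Fin (L * N) → Matrix (Fin n) (Fin n) ℚ⟦X⟧ := fun i => sfM (g (fs i) (sn i)) (Z (fs i) (sn i))

/-- the evaluation of the relations -/
noncomputable def EhP (g : Fin L → Fin N → ℕ) (Z : Fin L → Fin N → Matrix (Fin n) (Fin n) ℚ⟦X⟧) (t : ℂ) :
    MvPolynomial (Fin (L * N) × Fin n × Fin n) (Polynomial ℂ) →+* ℂ :=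
  MvPolynomial.eval₂Hom (Polynomial.evalRingHom (1 / t)) fun σ =>
    ou (cx (Z (fs σ.1) (sn σ.1) σ.2.1 σ.2.2)) (t - (g (fs σ.1) (sn σ.1) : ℝ))

/-- the part of the family with the shift `g₀` -/
noncomputable def part (g : Fin N → ℕ) (Z : Fin N → Matrix (Fin n) (Fin n) ℚ⟦X⟧) (g₀ : ℕ) :
    Fin N → Matrix (Fin n) (Fin n) ℚ⟦X⟧ := fun j => if g j = g₀ then Z j else 1

/-- **one group** -/
theorem inf_grp {ρ ρ' : ℝ} (hρ : 0 < ρ) (hρρ : ρ < ρ') {Z : Fin L → Fin N → Matrix (Fin n) (Fin n) ℚ⟦X⟧} {C : ℝ}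
    (hC : 1 ≤ C) (hsz : ∀ l j a b m, |((coeff m (Z l j a b) : ℚ) : ℝ)| ≤ C ^ (m + 1))
    (hmem : ∀ l j a b, cx (Z l j a b) ∈ Cw ρ) (g : Fin L → Fin N → ℕ) (l₀ : Fin L) (γ : ℕ) (hg : ρ' < γ)
    (hsep : ∀ l j, ¬ (l = l₀ ∧ g l₀ j = γ) → ρ + ρ' < |(γ : ℝ) - g l j|)
    (hD : ∀ (δ : ℕ) (S : Set (Fin δ → Option (Fin N × Fin n × Fin n))) [Fintype S],
      (∀ G : S → Polynomial ℂ, ∑ i, (G i : PowerSeries ℂ) * wd (fun σ => cx (ent (part (g l₀) (Z l₀) γ) σ)) i.1 = 0 →
        ∀ i, G i = 0) → Disc ρ ρ' fun b : S => wd (fun σ => cx (ent (part (g l₀) (Z l₀) γ) σ)) b.1)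
    {X : Fin N → Matrix (Fin n) (Fin n) ℂ} (hX : InfT (part (g l₀) (Z l₀) γ) (fun j => if g l₀ j = γ then X j else 0)) :
    InfT (combP g Z) (fun i => if fs i = l₀ ∧ g l₀ (sn i) = γ then X (sn i) else 0) := by
  classical
  rw [infT_iff]
  intro R hR
  set g₀ : ℝ := (γ : ℝ) with hg₀
  have hρ'0 : 0 < ρ' := by linarith
  set U := Dom ρ ρ' g₀ with hU
  have hUU : Up ρ ⊆ U := Set.subset_union_left
  have hUb : ball (g₀ : ℂ) ρ' ⊆ U := Set.subset_union_right
  have hU0 : ∀ t ∈ U, t ≠ 0 := by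
    rintro t (ht | ht) rfl
    · have h1 : ρ < (0 : ℂ).im := ht
      simp only [Complex.zero_im] at h1
      linarith
    · rw [mem_ball_iff_norm, zero_sub, norm_neg, Complex.norm_real, Real.norm_of_nonneg (by positivity)] at ht
      linarith
  have hUn : ∀ l j, ¬ (l = l₀ ∧ g l₀ j = γ) → ∀ t ∈ U, ρ < ‖t - ((g l j : ℝ) : ℂ)‖ := by
    rintro l j hl t (ht | ht)
    · exact Up_norm ht _
    · rw [mem_ball_iff_norm] at ht
      have h1 := hsep l j hl
      have h2 : ‖((g₀ - g l j : ℝ) : ℂ)‖ ≤ ‖t - ((g l j : ℝ) : ℂ)‖ + ‖t - (g₀ : ℂ)‖ := by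
        have h3 : ((g₀ - g l j : ℝ) : ℂ) = (t - ((g l j : ℝ) : ℂ)) - (t - (g₀ : ℂ)) := by
          push_cast
          ring
        rw [h3]
        exact norm_sub_le _ _
      rw [Complex.norm_real, Real.norm_eq_abs] at h2
      linarith
  -- polynomials as functions
  let polyS : Polynomial ℂ →+* An U :=
    { toFun := fun p => ⟨fun t => p.eval (1 / t), fun t ht => by
        have h1 : AnalyticAt ℂ (fun t : ℂ => 1 / t) t := analyticAt_const.div analyticAt_id (hU0 t ht)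
        have h2 : AnalyticAt ℂ (fun z => p.eval z) (1 / t) := p.differentiable.analyticAt _
        exact AnalyticAt.comp (g := fun z => p.eval z) (f := fun t : ℂ => 1 / t) h2 h1⟩
      map_one' := by
        apply Subtype.ext
        funext t
        exact Polynomial.eval_one
      map_mul' := fun p q => by
        apply Subtype.ext
        funext t
        exact Polynomial.eval_mul
      map_zero' := by
        apply Subtype.ext
        funext t
        exact Polynomial.eval_zero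
      map_add' := fun p q => by
        apply Subtype.ext
        funext t
        exact Polynomial.eval_add }
  let Pr : Fin (L * N) → Prop := fun i => fs i = l₀ ∧ g l₀ (sn i) = γ
  have hUn' : ∀ i, ¬ Pr i → ∀ t ∈ U, ρ < ‖t - ((g (fs i) (sn i) : ℝ) : ℂ)‖ := fun i hi => by
    refine hUn (fs i) (sn i) hi
  let Fσ : Fin (L * N) × Fin n × Fin n → An U := fun σ =>
    if h : Pr σ.1 then 0 else ⟨fun t => ou (cx (Z (fs σ.1) (sn σ.1) σ.2.1 σ.2.2)) (t - ((g (fs σ.1) (sn σ.1) : ℝ) : ℂ)), fun t ht => by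
      have h3 := ou_an hρ.le (hmem (fs σ.1) (sn σ.1) σ.2.1 σ.2.2) (t - ((g (fs σ.1) (sn σ.1) : ℝ) : ℂ)) (hUn' _ h t ht)
      exact AnalyticAt.comp (g := ou (cx (Z (fs σ.1) (sn σ.1) σ.2.1 σ.2.2))) (f := fun t : ℂ => t - ((g (fs σ.1) (sn σ.1) : ℝ) : ℂ)) h3
        (analyticAt_id.sub analyticAt_const)⟩
  let φ : MvPolynomial (Fin (L * N) × Fin n × Fin n) (Polynomial ℂ) →+* MvPolynomial (Fin N × Fin n × Fin n) (An U) :=
    MvPolynomial.eval₂Hom (MvPolynomial.C.comp polyS) fun σ =>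
      if Pr σ.1 then MvPolynomial.X (sn σ.1, σ.2) else MvPolynomial.C (Fσ σ)
  have hφC : ∀ p, φ (MvPolynomial.C p) = MvPolynomial.C (polyS p) := fun p => by
    show MvPolynomial.eval₂Hom _ _ (MvPolynomial.C p) = _
    rw [MvPolynomial.coe_eval₂Hom, MvPolynomial.eval₂_C]
    rfl
  have hpc : ∀ c : ℂ, polyS (Polynomial.C c) = cS U c := fun c =>
    Subtype.ext (funext fun t => Polynomial.eval_C)
  have hφX : ∀ σ, φ (MvPolynomial.X σ) = if Pr σ.1 then MvPolynomial.X (sn σ.1, σ.2) else MvPolynomial.C (Fσ σ) := fun σ => by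
    show MvPolynomial.eval₂Hom _ _ (MvPolynomial.X σ) = _
    rw [MvPolynomial.coe_eval₂Hom, MvPolynomial.eval₂_X]
  set y : Fin N × Fin n × Fin n → PowerSeries ℂ := fun τ => cx (ent (part (g l₀) (Z l₀) γ) τ) with hy
  have hcxone : ∀ a b : Fin n, cx ((1 : Matrix (Fin n) (Fin n) ℚ⟦X⟧) a b) ∈ Cw ρ := by
    intro a b
    rw [Matrix.one_apply]
    split_ifs
    · rw [map_one]
      exact (Cw ρ).one_mem
    · rw [map_zero]
      exact (Cw ρ).zero_mem
  have hymem : ∀ τ, y τ ∈ Cw ρ := fun τ => by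
    show cx (part (g l₀) (Z l₀) γ τ.1 τ.2.1 τ.2.2) ∈ Cw ρ
    unfold part
    split_ifs
    · exact hmem _ _ _ _
    · exact hcxone _ _
  -- evaluation
  have hEt : ∀ t, (Et U y g₀ t).comp φ = EhP g Z t := by
    intro t
    refine MvPolynomial.ringHom_ext (fun p => ?_) fun σ => ?_
    · rw [RingHom.comp_apply, hφC]
      unfold Et EhP
      rw [MvPolynomial.coe_eval₂Hom, MvPolynomial.eval₂_C, MvPolynomial.coe_eval₂Hom, MvPolynomial.eval₂_C]
      rfl
    · rw [RingHom.comp_apply, hφX]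
      unfold Et EhP
      rw [MvPolynomial.coe_eval₂Hom, MvPolynomial.coe_eval₂Hom, MvPolynomial.eval₂_X]
      by_cases h : Pr σ.1
      · rw [if_pos h, MvPolynomial.eval₂_X]
        obtain ⟨h1, h2⟩ := h
        rw [h1, h2]
        show ou (cx (part (g l₀) (Z l₀) γ (sn σ.1) σ.2.1 σ.2.2)) _ = _
        unfold part
        rw [if_pos h2]
      · rw [if_neg h, MvPolynomial.eval₂_C]
        show (Fσ σ).1 t = _
        show (dite (Pr σ.1) (fun _ => (0 : An U)) (fun _ => _) : An U).1 t = _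
        rw [dif_neg h]
  -- derivation
  have hDv : ∀ F, Dv (cS U) (fun j => if g l₀ j = γ then X j else 0) (φ F) =
      φ (Dv Polynomial.C (fun i => if fs i = l₀ ∧ g l₀ (sn i) = γ then X (sn i) else 0) F) := by
    intro F
    induction F using MvPolynomial.induction_on with
    | C p => rw [hφC, Dv_C, Dv_C, map_zero]
    | add p q hp hq => rw [map_add, map_add, hp, hq, map_add, map_add]
    | mul_X p σ hp =>
      rw [map_mul, Dv_mul, hp, Dv_mul, map_add, map_mul, map_mul]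
      congr 2
      rw [Dv_X, map_sum, hφX]
      by_cases h : Pr σ.1
      · rw [if_pos h, Dv_X]
        refine Finset.sum_congr rfl fun l _ => ?_
        have h' : fs σ.1 = l₀ ∧ g l₀ (sn σ.1) = γ := h
        rw [map_mul, hφC, hφX, if_pos h', if_pos h, hpc, if_pos h'.2]
      · rw [if_neg h, Dv_C, Finset.sum_eq_zero]
        intro l _
        have h' : ¬ (fs σ.1 = l₀ ∧ g l₀ (sn σ.1) = γ) := h
        rw [if_neg h']
        show φ (MvPolynomial.C (Polynomial.C (0 : ℂ)) * MvPolynomial.X (σ.1, l, σ.2.2)) = 0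
        rw [map_zero, map_zero, zero_mul, map_zero]
  -- far away
  set G : ℝ := ∑ l, ∑ j, (g l j : ℝ) with hG
  have hG0 : 0 ≤ G := Finset.sum_nonneg fun l _ => Finset.sum_nonneg fun j _ => by positivity
  have hgG : ∀ l j, (g l j : ℝ) ≤ G := fun l j =>
    (Finset.single_le_sum (f := fun j => (g l j : ℝ)) (fun j _ => by positivity) (Finset.mem_univ j)).trans
      (Finset.single_le_sum (f := fun l => ∑ j, (g l j : ℝ)) (fun l _ => Finset.sum_nonneg fun j _ => by positivity)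
        (Finset.mem_univ l))
  set ρ₁ : ℝ := 2 ^ 3 * C * (G + 1) with hρ₁
  have hρ₁0 : 0 < ρ₁ := by positivity
  have hρ₁G : ∀ l j, (g l j : ℝ) + C ≤ ρ₁ := by
    intro l j
    have := hgG l j
    rw [hρ₁]
    nlinarith
  have hm1 : ∀ σ : Fin (L * N) × Fin n × Fin n, cent (combP g Z) σ ∈ Cw ρ₁ := by
    intro σ
    refine Cw_mono ?_ (cx_mem (C := 2 ^ 3 * C * ((g (fs σ.1) (sn σ.1) : ℝ) + 1)) (by positivity)
      (sf_size hC (hsz (fs σ.1) (sn σ.1) σ.2.1 σ.2.2) (g (fs σ.1) (sn σ.1))))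
    rw [hρ₁]
    have := hgG (fs σ.1) (sn σ.1)
    exact mul_le_mul_of_nonneg_left (by linarith) (by positivity)
  have hfar : ∀ t : ℂ, ρ₁ < ‖t‖ → ∀ F, EhP g Z t F = ou (MvPolynomial.aeval (cent (combP g Z)) F) t := by
    intro t ht F
    rw [ou_aeval hρ₁0.le hm1 F ht]
    unfold EhP
    congr 2
    funext σ
    have h1 := ou_shift (by linarith) (hsz (fs σ.1) (sn σ.1) σ.2.1 σ.2.2) (g (fs σ.1) (sn σ.1)) (t := t) (by
      have := hρ₁G (fs σ.1) (sn σ.1)
      linarith)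
    show _ = ou (cx (sf (g (fs σ.1) (sn σ.1)) (Z (fs σ.1) (sn σ.1) σ.2.1 σ.2.2))) t
    rw [h1]
    push_cast
    rfl
  -- the point
  set p : ℂ := ((ρ + ρ₁ + 1 : ℝ) : ℂ) * Complex.I with hp
  have hpn : ‖p‖ = ρ + ρ₁ + 1 := by
    rw [hp, norm_mul, Complex.norm_I, mul_one, Complex.norm_real, Real.norm_of_nonneg (by linarith)]
  have hpU : p ∈ Up ρ := by
    show ρ < p.im
    rw [hp]
    simp only [Complex.mul_im, Complex.ofReal_re, Complex.I_im, mul_one, Complex.ofReal_im, Complex.I_re, mul_zero,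
      add_zero]
    linarith
  have hev : ∀ᶠ z in 𝓝 p, ρ₁ < ‖z‖ := (isOpen_lt continuous_const continuous_norm).mem_nhds (by
    show ρ₁ < ‖p‖
    rw [hpn]
    linarith)
  have hP : ∀ t ∈ Up ρ, Et U y g₀ t (φ R) = 0 := by
    intro t ht
    refine AnalyticOnNhd.eqOn_zero_of_preconnected_of_eventuallyEq_zero (Et_an hUU hρ hymem (φ R)) Up_conv.isPreconnected hpU
      ?_ ht
    filter_upwards [hev] with z hz
    have h1 := RingHom.congr_fun (hEt z) R
    rw [RingHom.comp_apply] at h1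
    rw [h1, hfar z hz, hR, ou_zero]
    rfl
  have hblk := block hρ hρρ hymem hD (X := fun j => if g l₀ j = γ then X j else 0) (fun F hF => infT_iff.1 hX F hF) (g₀ := g₀)
    hUU hUb (φ R) hP
  refine ou_inj hρ₁0.le (aeval_Cw hm1 _) (p := p) (by rw [hpn]; linarith) ?_
  filter_upwards [hev, Up_open.mem_nhds hpU] with z hz1 hz2
  rw [← hfar z hz1, ← hEt z, RingHom.comp_apply, ← hDv]
  exact hblk z hz2

/-- **joint symmetries** -/
theorem inf_pts {ρ ρ' : ℝ} (hρ : 0 < ρ) (hρρ : ρ < ρ') {Z : Fin L → Fin N → Matrix (Fin n) (Fin n) ℚ⟦X⟧} {C : ℝ}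
    (hC : 1 ≤ C) (hsz : ∀ l j a b m, |((coeff m (Z l j a b) : ℚ) : ℝ)| ≤ C ^ (m + 1))
    (hmem : ∀ l j a b, cx (Z l j a b) ∈ Cw ρ) (g : Fin L → Fin N → ℕ) (hg : ∀ l j, ρ' < g l j)
    (hsep : ∀ l j l' j', ¬ (l = l' ∧ g l j = g l' j') → ρ + ρ' < |(g l j : ℝ) - g l' j'|)
    (hD : ∀ (l₀ : Fin L) (γ : ℕ) (δ : ℕ) (S : Set (Fin δ → Option (Fin N × Fin n × Fin n))) [Fintype S],
      (∀ G : S → Polynomial ℂ, ∑ i, (G i : PowerSeries ℂ) * wd (fun σ => cx (ent (part (g l₀) (Z l₀) γ) σ)) i.1 = 0 →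
        ∀ i, G i = 0) → Disc ρ ρ' fun b : S => wd (fun σ => cx (ent (part (g l₀) (Z l₀) γ) σ)) b.1)
    {X : Fin L → Fin N → Matrix (Fin n) (Fin n) ℂ}
    (hX : ∀ l γ, InfT (part (g l) (Z l) γ) (fun j => if g l j = γ then X l j else 0)) :
    InfT (combP g Z) (fun i => X (fs i) (sn i)) := by
  classical
  have h1 : ∀ l, InfT (combP g Z) (fun i => if fs i = l then X l (sn i) else 0) := by
    intro l
    have h2 := infT_sum (Finset.univ.image (g l)) (Z := combP g Z)
      (X := fun γ i => if fs i = l ∧ g l (sn i) = γ then X l (sn i) else 0) fun γ hγ => by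
        obtain ⟨j₀, -, hj₀⟩ := Finset.mem_image.1 hγ
        refine inf_grp hρ hρρ hC hsz hmem g l γ ?_ ?_ (hD l γ) (hX l γ)
        · rw [← hj₀]
          exact hg l j₀
        · intro l' j' h
          rw [← hj₀]
          refine hsep l j₀ l' j' fun h3 => h ?_
          refine ⟨h3.1.symm, ?_⟩
          rw [← hj₀, h3.2, h3.1]
    have h3 : (fun i : Fin (L * N) => ∑ γ ∈ Finset.univ.image (g l), if fs i = l ∧ g l (sn i) = γ then X l (sn i) else 0) =
        fun i => if fs i = l then X l (sn i) else 0 := by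
      funext i
      by_cases h : fs i = l
      · rw [if_pos h, Finset.sum_eq_single (g l (sn i))]
        · rw [if_pos ⟨h, rfl⟩]
        · intro γ _ hγ
          rw [if_neg fun h4 => hγ h4.2.symm]
        · intro h4
          exact absurd (Finset.mem_image_of_mem _ (Finset.mem_univ _)) h4
      · rw [if_neg h, Finset.sum_eq_zero]
        intro γ _
        rw [if_neg fun h4 => h h4.1]
    rw [h3] at h2
    exact h2
  have h4 := infT_sum (Finset.univ : Finset (Fin L)) (Z := combP g Z) (X := fun l i => if fs i = l then X l (sn i) else 0)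
    fun l _ => h1 l
  have h5 : (fun j => ∑ l, if fs j = l then X l (sn j) else 0) = fun i : Fin (L * N) => X (fs i) (sn i) := by
    funext i
    rw [Finset.sum_ite_eq, if_pos (Finset.mem_univ _)]
  rw [h5] at h4
  exact h4

end Pool.Agent.H885
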