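import Pool.Agent.H885.Base
import Pool.Graph.R_seed8.Y120.H.Shift

/-!
# Shifts of systems with different shifts, with uniform constants
-/

set_option autoImplicit false
set_option linter.unusedSectionVars false
set_option linter.unusedVariables false

open PowerSeries

namespace Pool.Agent.H885

open Pool.Agent.Y113
open Pool.Agent.Y120.GH (L1 L1_Pg L1_Hm Pg Hm ps_Hm ps_Pg sf sf_mul sf_sum sf_der sf_pow sf_nat)

variable {n N L : ℕ}

/-- the shift of a matrix -/
noncomputable def sfM (g : ℕ) (Z : Matrix (Fin n) (Fin n) ℚ⟦X⟧) : Matrix (Fin n) (Fin n) ℚ⟦X⟧ := Z.map (sf g)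

lemma sf_size {f : ℚ⟦X⟧} {H : ℝ} (hH : 1 ≤ H) (hf : ∀ m, |((coeff m f : ℚ) : ℝ)| ≤ H ^ (m + 1)) (g m : ℕ) :
    |((coeff m (sf g f) : ℚ) : ℝ)| ≤ (2 ^ 3 * H * ((g : ℝ) + 1)) ^ (m + 1) := by
  have hH0 : 0 < H := by linarith
  have hg : (1 : ℝ) ≤ (g : ℝ) + 1 := by linarith [show (0 : ℝ) ≤ g by positivity]
  show |((coeff m (f.subst (sh g)) : ℚ) : ℝ)| ≤ _
  rw [coeff_subst_sh]
  push_cast
  refine (Finset.abs_sum_le_sum_abs _ _).trans ?_
  refine (Finset.sum_le_card_nsmul _ _ (H ^ (m + 1) * (2 ^ (m + m) * ((g : ℝ) + 1) ^ (m + 1))) fun d hd => ?_).trans ?_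
  · rw [Finset.mem_range] at hd
    rw [abs_mul]
    refine mul_le_mul ((hf d).trans (pow_le_pow_right₀ hH (by omega))) ((coeff_sh_pow_bound g d m).trans ?_)
      (abs_nonneg _) (by positivity)
    refine mul_le_mul (pow_le_pow_right₀ (by norm_num) (by omega)) (pow_le_pow_right₀ hg (by omega)) (by positivity)
      (by positivity)
  · rw [nsmul_eq_mul, Finset.card_range]
    push_cast
    calc ((m : ℝ) + 1) * (H ^ (m + 1) * (2 ^ (m + m) * ((g : ℝ) + 1) ^ (m + 1)))
        ≤ 2 ^ (m + 1) * (H ^ (m + 1) * ((2 ^ 2) ^ (m + 1) * ((g : ℝ) + 1) ^ (m + 1))) := by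
          refine mul_le_mul ?_ ?_ (by positivity) (by positivity)
          · exact (succ_le_two_pow m).trans (pow_le_pow_right₀ (by norm_num) (by omega))
          · refine mul_le_mul_of_nonneg_left ?_ (by positivity)
            refine mul_le_mul_of_nonneg_right ?_ (by positivity)
            rw [← pow_mul]
            exact pow_le_pow_right₀ (by norm_num) (by omega)
      _ = _ := by
          rw [← mul_pow, ← mul_pow, ← mul_pow]
          congr 1
          ring

lemma sf_den {f : ℚ⟦X⟧} {d k : ℕ} (hf : IU d k f) (g : ℕ) : IU d k (sf g f) := by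
  intro j hj
  have h1 : ∀ e ∈ Finset.range (j + 1), ∃ z : ℤ, (d : ℚ) * coeff e f = z := fun e he => by
    rw [Finset.mem_range] at he
    exact hf e (by omega)
  choose! a ha using h1
  refine ⟨∑ e ∈ Finset.range (j + 1), a e * coeff j ((shZ g) ^ e), ?_⟩
  show (d : ℚ) * coeff j (f.subst (sh g)) = _
  rw [coeff_subst_sh, Finset.mul_sum]
  push_cast
  refine Finset.sum_congr rfl fun e he => ?_
  rw [← ha e he, Pool.Agent.Y113.sh_eq, ← map_pow, coeff_map]
  simp only [eq_intCast]
  ring

lemma sf_zero (g : ℕ) : sf g 0 = 0 := by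
  have h := sf_sum g (∅ : Finset ℕ) (fun _ => (0 : ℚ⟦X⟧))
  simpa using h

lemma sfM_inv (g : ℕ) {Z W : Matrix (Fin n) (Fin n) ℚ⟦X⟧} (h : W * Z = 1) : sfM g W * sfM g Z = 1 := by
  ext1 a b
  have h1 := congrFun (congrFun h a) b
  rw [Matrix.mul_apply] at h1
  have h2 := congrArg (sf g) h1
  rw [sf_sum] at h2
  rw [Matrix.mul_apply]
  have h3 : sf g ((1 : Matrix (Fin n) (Fin n) ℚ⟦X⟧) a b) = (1 : Matrix (Fin n) (Fin n) ℚ⟦X⟧) a b := by
    rw [Matrix.one_apply]
    split_ifs
    · have := sf_nat g 1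
      simpa using this
    · exact sf_zero g
  rw [h3] at h2
  rw [← h2]
  refine Finset.sum_congr rfl fun l _ => ?_
  rw [sf_mul]
  rfl

/-- **systems with different shifts** -/
theorem sys_shift (L N n q : ℕ) : ∃ q' E₁ : ℕ, ∀ (H : ℝ), 1 ≤ H → ∀ (T : Fin L → Polynomial ℤ)
    (B : Fin L → Fin N → Fin n → Fin n → Polynomial ℤ) (Z W : Fin L → Fin N → Matrix (Fin n) (Fin n) ℚ⟦X⟧),
    (∀ l, Sys q H (T l) (B l) (Z l) (W l)) → (∀ l, T l ≠ 0) → ∀ (G : ℕ) (g : Fin L → ℕ), (∀ l, g l ≤ G) →
    ∃ (T' : Polynomial ℤ) (B' : Fin (L * N) → Fin n → Fin n → Polynomial ℤ), T' ≠ 0 ∧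
      Sys q' ((2 * H * ((G : ℝ) + 2)) ^ E₁) T' B'
        (fun i => sfM (g (finProdFinEquiv.symm i).1) (Z (finProdFinEquiv.symm i).1 (finProdFinEquiv.symm i).2))
        (fun i => sfM (g (finProdFinEquiv.symm i).1) (W (finProdFinEquiv.symm i).1 (finProdFinEquiv.symm i).2)) := by
  classical
  obtain ⟨e₁, he₁⟩ := pow_absorb (c := (q : ℝ) + 1) (by
    have : (0 : ℝ) ≤ q := by positivity
    linarith)
  refine ⟨(q + 2) * (L + 1), (e₁ + 1 + q + 2) * (L + 1) + 4 + L, fun H hH1 T B Z W hS hT G g hg => ?_⟩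
  have hG0 : (0 : ℝ) ≤ G := by positivity
  set x : ℝ := 2 * H * ((G : ℝ) + 2) with hx
  have hGx : (G : ℝ) + 2 ≤ x := by
    rw [hx]
    nlinarith
  have hHx : H ≤ x := by
    rw [hx]
    nlinarith
  have hx2 : 2 ≤ x := by linarith
  have hx1 : 1 ≤ x := by linarith
  have hgG : ∀ l, (g l : ℝ) + 1 ≤ x := by
    intro l
    have : (g l : ℝ) ≤ (G : ℝ) := by exact_mod_cast hg l
    linarith
  set y : ℝ := x ^ (e₁ + 1 + q + 2) with hy
  have hy1 : 1 ≤ y := one_le_pow₀ hx1
  -- polynomials
  have hL : ∀ (l : Fin L) (P : Polynomial ℤ), P.natDegree ≤ q → (∀ k, |((P.coeff k : ℤ) : ℝ)| ≤ H) →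
      L1 q (x ^ (e₁ + 1 + q)) (Hm (g l) q P) := by
    intro l P hP1 hP2
    refine (L1_Hm (g l) (L1.ofBd ⟨hP1, hP2⟩)).mono le_rfl ?_
    rw [pow_add, pow_add, pow_one]
    exact mul_le_mul (mul_le_mul (he₁ x hx2) hHx (by linarith) (by positivity))
      (pow_le_pow_left₀ (by positivity) (hgG l) _) (by positivity) (by positivity)
  have hLT : ∀ l, L1 (q + 2) y (Pg (g l) ^ 2 * Hm (g l) q (T l)) := by
    intro l
    refine (((L1_Pg (g l)).pow 2).mul (hL l _ (hS l).degT (hS l).sizeT)).mono (by omega) ?_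
    rw [hy, pow_add x (e₁ + 1 + q) 2, mul_comm]
    exact mul_le_mul_of_nonneg_left (pow_le_pow_left₀ (by positivity) (hgG l) _) (by positivity)
  have hLB : ∀ l j a b, L1 (q + 2) y (Hm (g l) q (B l j a b)) := by
    intro l j a b
    refine (hL l _ ((hS l).degB j a b) ((hS l).sizeB j a b)).mono (by omega) ?_
    exact pow_le_pow_right₀ hx1 (by omega)
  have hprod : ∀ s : Finset (Fin L), L1 ((q + 2) * s.card) (y ^ s.card) (∏ l ∈ s, Pg (g l) ^ 2 * Hm (g l) q (T l)) := by
    intro s
    induction s using Finset.induction_on with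
    | empty => simpa using Pool.Agent.Y120.GH.L1.one
    | insert j s hj ih =>
      rw [Finset.prod_insert hj, Finset.card_insert_of_notMem hj]
      refine ((hLT j).mul ih).mono ?_ ?_
      · ring_nf
        omega
      · rw [pow_succ, mul_comm]
  set E : ℕ := (e₁ + 1 + q + 2) * (L + 1) + 4 + L with hE
  have hyE : y ^ (L + 1) ≤ x ^ E := by
    rw [hy, ← pow_mul]
    exact pow_le_pow_right₀ hx1 (by omega)
  set T' : Polynomial ℤ := ∏ l, Pg (g l) ^ 2 * Hm (g l) q (T l) with hT'
  have hLT' : L1 ((q + 2) * (L + 1)) (x ^ E) T' := by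
    refine (hprod Finset.univ).mono ?_ ?_
    · rw [Finset.card_univ, Fintype.card_fin]
      exact Nat.mul_le_mul_left _ (by omega)
    · rw [Finset.card_univ, Fintype.card_fin]
      exact (pow_le_pow_right₀ hy1 (by omega)).trans hyE
  have hLB' : ∀ l j a b, L1 ((q + 2) * (L + 1)) (x ^ E)
      (Hm (g l) q (B l j a b) * ∏ l' ∈ Finset.univ.erase l, Pg (g l') ^ 2 * Hm (g l') q (T l')) := by
    intro l j a b
    have h2 : (Finset.univ.erase l).card ≤ L := by
      rw [Finset.card_erase_of_mem (Finset.mem_univ l), Finset.card_univ, Fintype.card_fin]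
      omega
    refine ((hLB l j a b).mul (hprod (Finset.univ.erase l))).mono ?_ ?_
    · calc q + 2 + (q + 2) * (Finset.univ.erase l).card ≤ q + 2 + (q + 2) * L := Nat.add_le_add_left (Nat.mul_le_mul_left _ h2) _
        _ = (q + 2) * (L + 1) := by ring
    · refine le_trans ?_ hyE
      rw [pow_succ, mul_comm]
      exact mul_le_mul_of_nonneg_right (pow_le_pow_right₀ hy1 h2) (by positivity)
  have hsizeC : ∀ l : Fin L, 2 ^ 3 * H * ((g l : ℝ) + 1) ≤ x ^ E := by
    intro l
    calc 2 ^ 3 * H * ((g l : ℝ) + 1) = 2 ^ 2 * (2 * H * ((g l : ℝ) + 1)) := by ring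
      _ ≤ x ^ 2 * x := by
          refine mul_le_mul (pow_le_pow_left₀ (by norm_num) hx2 _) ?_ (by positivity) (by positivity)
          rw [hx]
          have : (g l : ℝ) ≤ (G : ℝ) := by exact_mod_cast hg l
          refine mul_le_mul_of_nonneg_left (by linarith) (by linarith)
      _ = x ^ 3 := by ring
      _ ≤ x ^ E := pow_le_pow_right₀ hx1 (by omega)
  refine ⟨T', fun i a b => Hm (g (finProdFinEquiv.symm i).1) q (B (finProdFinEquiv.symm i).1 (finProdFinEquiv.symm i).2 a b) *
    ∏ l' ∈ Finset.univ.erase (finProdFinEquiv.symm i).1, Pg (g l') ^ 2 * Hm (g l') q (T l'), ?_, ?_⟩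
  · rw [hT', Finset.prod_ne_zero_iff]
    intro l _ h0
    -- the transformed polynomial does not vanish
    have h1 : ps (Pg (g l) ^ 2 * Hm (g l) q (T l)) = 0 := by
      rw [h0]
      unfold ps
      simp
    rw [ps_mul, ps_pow, ps_Hm (g l) (hS l).degT] at h1
    have hP : ps (Pg (g l)) ≠ 0 := by
      intro h
      have h2 := congrArg (constantCoeff (R := ℚ)) h
      rw [ps_Pg] at h2
      simp at h2
    rcases mul_eq_zero.1 h1 with h2 | h2
    · exact pow_ne_zero _ hP h2
    · rcases mul_eq_zero.1 h2 with h3 | h3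
      · exact pow_ne_zero _ hP h3
      · -- the substitution is injective on polynomials: the lowest coefficient
        have h4 : ps (T l) ≠ 0 := Pool.Agent.Y120.GH.ps_ne (hT l)
        have h5 : (sh (g l)) ≠ 0 := by
          intro h
          have h6 := congrArg (coeff (R := ℚ) 1) h
          simp [sh] at h6
        obtain ⟨k, hk, hk'⟩ : ∃ k, coeff k (ps (T l)) ≠ 0 ∧ ∀ d < k, coeff d (ps (T l)) = 0 := by
          have h6 : ∃ k, coeff k (ps (T l)) ≠ 0 := by
            by_contra hcon
            push Not at hcon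
            exact h4 (PowerSeries.ext hcon)
          exact ⟨Nat.find h6, Nat.find_spec h6, fun d hd => not_not.1 (Nat.find_min h6 hd)⟩
        have h7 := congrArg (coeff (R := ℚ) k) h3
        rw [coeff_subst_sh, Finset.sum_range_succ, Finset.sum_eq_zero, zero_add, map_zero] at h7
        · have h8 : coeff k ((sh (g l)) ^ k) = 1 := by
            have h9 : ∀ j : ℕ, coeff j ((sh (g l)) ^ j) = 1 := by
              intro j
              induction j with
              | zero => simp
              | succ j ih =>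
                have h10 : sh (g l) = X * PowerSeries.mk fun m => ((g l : ℚ)) ^ m := by
                  ext m
                  rcases m with _ | m
                  · simp [sh]
                  · rw [coeff_succ_X_mul, sh, coeff_mk, coeff_mk]
                    simp
                have h11 : ∀ j : ℕ, (sh (g l)) ^ j = X ^ j * (PowerSeries.mk fun m => ((g l : ℚ)) ^ m) ^ j := by
                  intro j
                  rw [h10, mul_pow]
                rw [h11]
                have h12 : coeff (j + 1) (X ^ (j + 1) * (PowerSeries.mk fun m => ((g l : ℚ)) ^ m) ^ (j + 1)) =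
                    coeff 0 ((PowerSeries.mk fun m => ((g l : ℚ)) ^ m) ^ (j + 1)) := by
                  have := PowerSeries.coeff_X_pow_mul ((PowerSeries.mk fun m => ((g l : ℚ)) ^ m) ^ (j + 1)) (j + 1) 0
                  rw [zero_add] at this
                  exact this
                rw [h12, coeff_zero_eq_constantCoeff_apply, map_pow, ← coeff_zero_eq_constantCoeff_apply, coeff_mk]
                simp
            exact h9 k
          rw [h8, mul_one] at h7
          exact hk h7
        · intro d hd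
          rw [Finset.mem_range] at hd
          rw [hk' d hd, zero_mul]
  · refine ⟨one_le_pow₀ hx1, hLT'.1, fun l => hLT'.coeff_le l, fun i a b => (hLB' _ _ a b).1,
      fun i a b k => (hLB' _ _ a b).coeff_le k, fun i a b => ?_, fun i => ?_, fun i a b m => ?_, fun m => ?_⟩
    · -- the differential equation
      set l := (finProdFinEquiv.symm i).1 with hl
      set j := (finProdFinEquiv.symm i).2 with hj
      show ps T' * d⁄dX ℚ (sf (g l) (Z l j a b)) = ∑ c, sf (g l) (Z l j a c) *
        ps (Hm (g l) q (B l j c b) * ∏ l' ∈ Finset.univ.erase l, Pg (g l') ^ 2 * Hm (g l') q (T l'))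
      have h1 : T' = (∏ l' ∈ Finset.univ.erase l, Pg (g l') ^ 2 * Hm (g l') q (T l')) * (Pg (g l) ^ 2 * Hm (g l) q (T l)) := by
        rw [hT', Finset.prod_erase_mul _ _ (Finset.mem_univ l)]
      have h2 : ps (Pg (g l) ^ 2 * Hm (g l) q (T l)) * d⁄dX ℚ (sf (g l) (Z l j a b)) =
          ∑ c, sf (g l) (Z l j a c) * ps (Hm (g l) q (B l j c b)) := by
        have h3 := congrArg (sf (g l)) ((hS l).ode j a b)
        rw [sf_mul, sf_sum, ← sf_der] at h3
        have h4 : ps (Hm (g l) q (T l)) = ps (Pg (g l)) ^ q * sf (g l) (ps (T l)) := ps_Hm (g l) (hS l).degT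
        rw [ps_mul, ps_pow, h4]
        have h5 : ps (Pg (g l)) ^ 2 * (ps (Pg (g l)) ^ q * sf (g l) (ps (T l))) * d⁄dX ℚ (sf (g l) (Z l j a b)) =
            ps (Pg (g l)) ^ q * (sf (g l) (ps (T l)) * (ps (Pg (g l)) ^ 2 * d⁄dX ℚ (sf (g l) (Z l j a b)))) := by ring
        rw [h5, h3, Finset.mul_sum]
        refine Finset.sum_congr rfl fun c _ => ?_
        have h6 : ps (Hm (g l) q (B l j c b)) = ps (Pg (g l)) ^ q * sf (g l) (ps (B l j c b)) :=
          ps_Hm (g l) ((hS l).degB j c b)
        rw [h6, sf_mul]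
        ring
      rw [h1, ps_mul, mul_assoc, h2, Finset.mul_sum]
      refine Finset.sum_congr rfl fun c _ => ?_
      rw [ps_mul (Hm (g l) q (B l j c b))]
      ring
    · exact sfM_inv _ ((hS _).inv _)
    · exact (sf_size hH1 ((hS _).size _ a b) _ m).trans (pow_le_pow_left₀ (by positivity) (hsizeC _) _)
    · choose d hd0 hd hd' using fun l => (hS l).den m
      refine ⟨∏ l, d l, Finset.prod_pos fun l _ => hd0 l, ?_, fun i a b => ?_⟩
      · push_cast
        calc ∏ l, (d l : ℝ) ≤ ∏ _l : Fin L, H ^ (m + 1) :=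
              Finset.prod_le_prod (fun l _ => by positivity) fun l _ => hd l
          _ = (H ^ L) ^ (m + 1) := by
              rw [Finset.prod_const, Finset.card_univ, Fintype.card_fin, ← pow_mul, ← pow_mul, mul_comm]
          _ ≤ (x ^ E) ^ (m + 1) := by
              refine pow_le_pow_left₀ (by positivity) ?_ _
              exact (pow_le_pow_left₀ (by linarith) hHx L).trans (pow_le_pow_right₀ hx1 (by omega))
      · have hmul : ∀ {f : ℚ⟦X⟧} (l : Fin L), IU (d l) m f → IU (∏ l, d l) m f := by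
          intro f l hf k hk
          obtain ⟨z, hz⟩ := hf k hk
          refine ⟨(∏ l' ∈ Finset.univ.erase l, d l' : ℕ) * z, ?_⟩
          rw [← Finset.prod_erase_mul _ _ (Finset.mem_univ l)]
          push_cast
          rw [← hz]
          ring
        have h1 := hd' (finProdFinEquiv.symm i).1 (finProdFinEquiv.symm i).2 a b
        exact ⟨hmul _ (sf_den h1.1 _), hmul _ (sf_den h1.2 _)⟩

end Pool.Agent.H885
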