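import Pool.Agent.H885.Blk
import Pool.Agent.H885.SysShift

/-!
# Joint symmetries of families at separated shifts
-/

set_option autoImplicit false
set_option linter.unusedSectionVars false
set_option linter.unusedVariables false

open Filter Topology Metric Set PowerSeries

namespace Pool.Agent.H885

open Pool.Agent.Y113 (ev Cv GSys ps)
open Pool.Agent.Y120.GH (An mem_An cx cx_mem Cw ou ou_an ou_mul ou_add ou_C ou_one ou_zero ou_X ou_sum ou_prod ou_poly ou_shift
  Disc Up Up_open Up_conv Up_norm ou_inj poly_mem Cw_mono rev_eval sf)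

variable {n N L : ℕ}

lemma aeval_Dv (Z : Fin N → Matrix (Fin n) (Fin n) ℚ⟦X⟧) (X : Fin N → Matrix (Fin n) (Fin n) ℂ)
    (R : MvPolynomial (Fin N × Fin n × Fin n) (Polynomial ℂ)) : MvPolynomial.aeval (cent Z) (Dv Polynomial.C X R) =
      ∑ σ, MvPolynomial.aeval (cent Z) (MvPolynomial.pderiv σ R) *
        ∑ l, PowerSeries.C (X σ.1 σ.2.1 l) * cent Z (σ.1, l, σ.2.2) := by
  rw [Dv_eq, map_sum]
  refine Finset.sum_congr rfl fun σ _ => ?_
  rw [map_mul, map_sum]
  congr 1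
  refine Finset.sum_congr rfl fun l _ => ?_
  rw [map_mul, MvPolynomial.aeval_C, MvPolynomial.aeval_X]
  congr 1
  exact Polynomial.coe_C _

lemma infT_iff {Z : Fin N → Matrix (Fin n) (Fin n) ℚ⟦X⟧} {X : Fin N → Matrix (Fin n) (Fin n) ℂ} :
    InfT Z X ↔ ∀ R : MvPolynomial (Fin N × Fin n × Fin n) (Polynomial ℂ), MvPolynomial.aeval (cent Z) R = 0 →
      MvPolynomial.aeval (cent Z) (Dv Polynomial.C X R) = 0 := by
  unfold InfT
  simp only [aeval_Dv]

lemma infT_sum {Z : Fin N → Matrix (Fin n) (Fin n) ℚ⟦X⟧} {κ : Type} (s : Finset κ) {X : κ → Fin N → Matrix (Fin n) (Fin n) ℂ}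
    (h : ∀ k ∈ s, InfT Z (X k)) : InfT Z (fun j => ∑ k ∈ s, X k j) := by
  classical
  intro R hR
  have h1 : ∀ σ : Fin N × Fin n × Fin n, MvPolynomial.aeval (cent Z) (MvPolynomial.pderiv σ R) *
      ∑ l, PowerSeries.C ((∑ k ∈ s, X k σ.1) σ.2.1 l) * cent Z (σ.1, l, σ.2.2) =
      ∑ k ∈ s, MvPolynomial.aeval (cent Z) (MvPolynomial.pderiv σ R) *
        ∑ l, PowerSeries.C (X k σ.1 σ.2.1 l) * cent Z (σ.1, l, σ.2.2) := by
    intro σ
    rw [← Finset.mul_sum, Finset.sum_comm]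
    congr 1
    refine Finset.sum_congr rfl fun l _ => ?_
    rw [Matrix.sum_apply, map_sum, Finset.sum_mul]
  rw [Finset.sum_congr rfl fun σ _ => h1 σ, Finset.sum_comm]
  exact Finset.sum_eq_zero fun k hk => h k hk R hR

/-- the first component of the index -/
def fs (i : Fin (L * N)) : Fin L := (finProdFinEquiv.symm i).1

/-- the second component of the index -/
def sn (i : Fin (L * N)) : Fin N := (finProdFinEquiv.symm i).2

/-- the combined family -/
noncomputable def comb (g : Fin L → ℕ) (Z : Fin L → Fin N → Matrix (Fin n) (Fin n) ℚ⟦X⟧) :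
    Fin (L * N) → Matrix (Fin n) (Fin n) ℚ⟦X⟧ := fun i => sfM (g (fs i)) (Z (fs i) (sn i))

/-- the evaluation of the relations -/
noncomputable def Eh (g : Fin L → ℕ) (Z : Fin L → Fin N → Matrix (Fin n) (Fin n) ℚ⟦X⟧) (t : ℂ) :
    MvPolynomial (Fin (L * N) × Fin n × Fin n) (Polynomial ℂ) →+* ℂ :=
  MvPolynomial.eval₂Hom (Polynomial.evalRingHom (1 / t)) fun σ =>
    ou (cx (Z (fs σ.1) (sn σ.1) σ.2.1 σ.2.2)) (t - (g (fs σ.1) : ℝ))

/-- **one block** -/
theorem inf_one {ρ ρ' : ℝ} (hρ : 0 < ρ) (hρρ : ρ < ρ') {Z : Fin L → Fin N → Matrix (Fin n) (Fin n) ℚ⟦X⟧} {C : ℝ}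
    (hC : 1 ≤ C) (hsz : ∀ l j a b m, |((coeff m (Z l j a b) : ℚ) : ℝ)| ≤ C ^ (m + 1))
    (hmem : ∀ l j a b, cx (Z l j a b) ∈ Cw ρ) (g : Fin L → ℕ) (hg : ∀ l, ρ' < g l)
    (hsep : ∀ l l', l ≠ l' → ρ + ρ' < |(g l : ℝ) - g l'|) (l₀ : Fin L)
    (hD : ∀ (δ : ℕ) (S : Set (Fin δ → Option (Fin N × Fin n × Fin n))) [Fintype S],
      (∀ G : S → Polynomial ℂ, ∑ i, (G i : PowerSeries ℂ) * wd (fun σ => cx (ent (Z l₀) σ)) i.1 = 0 → ∀ i, G i = 0) →
        Disc ρ ρ' fun b : S => wd (fun σ => cx (ent (Z l₀) σ)) b.1)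
    {X : Fin N → Matrix (Fin n) (Fin n) ℂ} (hX : InfT (Z l₀) X) :
    InfT (comb g Z) (fun i => if fs i = l₀ then X (sn i) else 0) := by
  classical
  rw [infT_iff]
  intro R hR
  set g₀ : ℝ := (g l₀ : ℝ) with hg₀
  have hρ'0 : 0 < ρ' := by linarith
  set U := Dom ρ ρ' g₀ with hU
  have hUU : Up ρ ⊆ U := Set.subset_union_left
  have hUb : ball (g₀ : ℂ) ρ' ⊆ U := Set.subset_union_right
  have hU0 : ∀ t ∈ U, t ≠ 0 := by
    rintro t (ht | ht) rfl
    · have h1 : ρ < (0 : ℂ).im := ht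
      simp only [Complex.zero_im] at h1
      linarith
    · rw [mem_ball_iff_norm, zero_sub, norm_neg, Complex.norm_real, Real.norm_of_nonneg (by positivity)] at ht
      have := hg l₀
      linarith
  have hUn : ∀ l, l ≠ l₀ → ∀ t ∈ U, ρ < ‖t - ((g l : ℝ) : ℂ)‖ := by
    rintro l hl t (ht | ht)
    · exact Up_norm ht _
    · rw [mem_ball_iff_norm] at ht
      have h1 := hsep l₀ l hl.symm
      have h2 : ‖((g₀ - g l : ℝ) : ℂ)‖ ≤ ‖t - ((g l : ℝ) : ℂ)‖ + ‖t - (g₀ : ℂ)‖ := by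
        have h3 : ((g₀ - g l : ℝ) : ℂ) = (t - ((g l : ℝ) : ℂ)) - (t - (g₀ : ℂ)) := by
          push_cast
          ring
        rw [h3]
        exact norm_sub_le _ _
      rw [Complex.norm_real, Real.norm_eq_abs] at h2
      linarith
  -- polynomials as functions
  let polyS : Polynomial ℂ →+* An U :=
    { toFun := fun p => ⟨fun t => p.eval (1 / t), fun t ht => by
        have h1 : AnalyticAt ℂ (fun t : ℂ => 1 / t) t := analyticAt_const.div analyticAt_id (hU0 t ht)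
        have h2 : AnalyticAt ℂ (fun z => p.eval z) (1 / t) := p.differentiable.analyticAt _
        exact AnalyticAt.comp (g := fun z => p.eval z) (f := fun t : ℂ => 1 / t) h2 h1⟩
      map_one' := by
        apply Subtype.ext
        funext t
        exact Polynomial.eval_one
      map_mul' := fun p q => by
        apply Subtype.ext
        funext t
        exact Polynomial.eval_mul
      map_zero' := by
        apply Subtype.ext
        funext t
        exact Polynomial.eval_zero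
      map_add' := fun p q => by
        apply Subtype.ext
        funext t
        exact Polynomial.eval_add }
  let Fσ : Fin (L * N) × Fin n × Fin n → An U := fun σ =>
    if h : fs σ.1 = l₀ then 0 else ⟨fun t => ou (cx (Z (fs σ.1) (sn σ.1) σ.2.1 σ.2.2)) (t - ((g (fs σ.1) : ℝ) : ℂ)), fun t ht => by
      have h3 := ou_an hρ.le (hmem (fs σ.1) (sn σ.1) σ.2.1 σ.2.2) (t - ((g (fs σ.1) : ℝ) : ℂ)) (hUn _ h t ht)
      exact AnalyticAt.comp (g := ou (cx (Z (fs σ.1) (sn σ.1) σ.2.1 σ.2.2))) (f := fun t : ℂ => t - ((g (fs σ.1) : ℝ) : ℂ)) h3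
        (analyticAt_id.sub analyticAt_const)⟩
  let φ : MvPolynomial (Fin (L * N) × Fin n × Fin n) (Polynomial ℂ) →+* MvPolynomial (Fin N × Fin n × Fin n) (An U) :=
    MvPolynomial.eval₂Hom (MvPolynomial.C.comp polyS) fun σ =>
      if fs σ.1 = l₀ then MvPolynomial.X (sn σ.1, σ.2) else MvPolynomial.C (Fσ σ)
  have hφC : ∀ p, φ (MvPolynomial.C p) = MvPolynomial.C (polyS p) := fun p => by
    show MvPolynomial.eval₂Hom _ _ (MvPolynomial.C p) = _
    rw [MvPolynomial.coe_eval₂Hom, MvPolynomial.eval₂_C]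
    rfl
  have hpc : ∀ c : ℂ, polyS (Polynomial.C c) = cS U c := fun c =>
    Subtype.ext (funext fun t => Polynomial.eval_C)
  have hφX : ∀ σ, φ (MvPolynomial.X σ) = if fs σ.1 = l₀ then MvPolynomial.X (sn σ.1, σ.2) else MvPolynomial.C (Fσ σ) := fun σ => by
    show MvPolynomial.eval₂Hom _ _ (MvPolynomial.X σ) = _
    rw [MvPolynomial.coe_eval₂Hom, MvPolynomial.eval₂_X]
  set y : Fin N × Fin n × Fin n → PowerSeries ℂ := fun τ => cx (ent (Z l₀) τ) with hy
  have hymem : ∀ τ, y τ ∈ Cw ρ := fun τ => hmem _ _ _ _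
  -- evaluation
  have hEt : ∀ t, (Et U y g₀ t).comp φ = Eh g Z t := by
    intro t
    refine MvPolynomial.ringHom_ext (fun p => ?_) fun σ => ?_
    · rw [RingHom.comp_apply, hφC]
      unfold Et Eh
      rw [MvPolynomial.coe_eval₂Hom, MvPolynomial.eval₂_C, MvPolynomial.coe_eval₂Hom, MvPolynomial.eval₂_C]
      rfl
    · rw [RingHom.comp_apply, hφX]
      unfold Et Eh
      rw [MvPolynomial.coe_eval₂Hom, MvPolynomial.coe_eval₂Hom, MvPolynomial.eval₂_X]
      by_cases h : fs σ.1 = l₀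
      · rw [if_pos h, MvPolynomial.eval₂_X, h]
        rfl
      · rw [if_neg h, MvPolynomial.eval₂_C]
        show (Fσ σ).1 t = _
        show (dite (fs σ.1 = l₀) (fun _ => (0 : An U)) (fun _ => _) : An U).1 t = _
        rw [dif_neg h]
  -- derivation
  have hDv : ∀ F, Dv (cS U) X (φ F) = φ (Dv Polynomial.C (fun i => if fs i = l₀ then X (sn i) else 0) F) := by
    intro F
    induction F using MvPolynomial.induction_on with
    | C p => rw [hφC, Dv_C, Dv_C, map_zero]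
    | add p q hp hq => rw [map_add, map_add, hp, hq, map_add, map_add]
    | mul_X p σ hp =>
      rw [map_mul, Dv_mul, hp, Dv_mul, map_add, map_mul, map_mul]
      congr 2
      rw [Dv_X, map_sum, hφX]
      by_cases h : fs σ.1 = l₀
      · rw [if_pos h, Dv_X]
        refine Finset.sum_congr rfl fun l _ => ?_
        rw [map_mul, hφC, hφX, if_pos h, if_pos h, hpc]
      · rw [if_neg h, Dv_C, Finset.sum_eq_zero]
        intro l _
        rw [if_neg h]
        show φ (MvPolynomial.C (Polynomial.C (0 : ℂ)) * MvPolynomial.X (σ.1, l, σ.2.2)) = 0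
        rw [map_zero, map_zero, zero_mul, map_zero]
  -- far away
  set G : ℝ := ∑ l, (g l : ℝ) with hG
  have hG0 : 0 ≤ G := Finset.sum_nonneg fun l _ => by positivity
  have hgG : ∀ l, (g l : ℝ) ≤ G := fun l =>
    Finset.single_le_sum (f := fun l => (g l : ℝ)) (fun l _ => by positivity) (Finset.mem_univ l)
  set ρ₁ : ℝ := 2 ^ 3 * C * (G + 1) with hρ₁
  have hρ₁0 : 0 < ρ₁ := by positivity
  have hρ₁G : ∀ l, (g l : ℝ) + C ≤ ρ₁ := by
    intro l
    have := hgG l
    rw [hρ₁]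
    nlinarith
  have hm1 : ∀ σ : Fin (L * N) × Fin n × Fin n, cent (comb g Z) σ ∈ Cw ρ₁ := by
    intro σ
    refine Cw_mono ?_ (cx_mem (C := 2 ^ 3 * C * ((g (fs σ.1) : ℝ) + 1)) (by positivity)
      (sf_size hC (hsz (fs σ.1) (sn σ.1) σ.2.1 σ.2.2) (g (fs σ.1))))
    rw [hρ₁]
    have := hgG (fs σ.1)
    exact mul_le_mul_of_nonneg_left (by linarith) (by positivity)
  have hfar : ∀ t : ℂ, ρ₁ < ‖t‖ → ∀ F, Eh g Z t F = ou (MvPolynomial.aeval (cent (comb g Z)) F) t := by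
    intro t ht F
    rw [ou_aeval hρ₁0.le hm1 F ht]
    unfold Eh
    congr 2
    funext σ
    have h1 := ou_shift (by linarith) (hsz (fs σ.1) (sn σ.1) σ.2.1 σ.2.2) (g (fs σ.1)) (t := t) (by
      have := hρ₁G (fs σ.1)
      linarith)
    show _ = ou (cx (sf (g (fs σ.1)) (Z (fs σ.1) (sn σ.1) σ.2.1 σ.2.2))) t
    rw [h1]
    push_cast
    rfl
  -- the point
  set p : ℂ := ((ρ + ρ₁ + 1 : ℝ) : ℂ) * Complex.I with hp
  have hpn : ‖p‖ = ρ + ρ₁ + 1 := by
    rw [hp, norm_mul, Complex.norm_I, mul_one, Complex.norm_real, Real.norm_of_nonneg (by linarith)]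
  have hpU : p ∈ Up ρ := by
    show ρ < p.im
    rw [hp]
    simp only [Complex.mul_im, Complex.ofReal_re, Complex.I_im, mul_one, Complex.ofReal_im, Complex.I_re, mul_zero,
      add_zero]
    linarith
  have hev : ∀ᶠ z in 𝓝 p, ρ₁ < ‖z‖ := (isOpen_lt continuous_const continuous_norm).mem_nhds (by
    show ρ₁ < ‖p‖
    rw [hpn]
    linarith)
  have hP : ∀ t ∈ Up ρ, Et U y g₀ t (φ R) = 0 := by
    intro t ht
    refine AnalyticOnNhd.eqOn_zero_of_preconnected_of_eventuallyEq_zero (Et_an hUU hρ hymem (φ R)) Up_conv.isPreconnected hpU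
      ?_ ht
    filter_upwards [hev] with z hz
    have h1 := RingHom.congr_fun (hEt z) R
    rw [RingHom.comp_apply] at h1
    rw [h1, hfar z hz, hR, ou_zero]
    rfl
  have hblk := block hρ hρρ hymem hD (X := X) (fun F hF => infT_iff.1 hX F hF) (g₀ := g₀) hUU hUb (φ R) hP
  refine ou_inj hρ₁0.le (aeval_Cw hm1 _) (p := p) (by rw [hpn]; linarith) ?_
  filter_upwards [hev, Up_open.mem_nhds hpU] with z hz1 hz2
  rw [← hfar z hz1, ← hEt z, RingHom.comp_apply, ← hDv]
  exact hblk z hz2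

/-- **joint symmetries** -/
theorem inf_joint {ρ ρ' : ℝ} (hρ : 0 < ρ) (hρρ : ρ < ρ') {Z : Fin L → Fin N → Matrix (Fin n) (Fin n) ℚ⟦X⟧} {C : ℝ}
    (hC : 1 ≤ C) (hsz : ∀ l j a b m, |((coeff m (Z l j a b) : ℚ) : ℝ)| ≤ C ^ (m + 1))
    (hmem : ∀ l j a b, cx (Z l j a b) ∈ Cw ρ) (g : Fin L → ℕ) (hg : ∀ l, ρ' < g l)
    (hsep : ∀ l l', l ≠ l' → ρ + ρ' < |(g l : ℝ) - g l'|)
    (hD : ∀ (l₀ : Fin L) (δ : ℕ) (S : Set (Fin δ → Option (Fin N × Fin n × Fin n))) [Fintype S],
      (∀ G : S → Polynomial ℂ, ∑ i, (G i : PowerSeries ℂ) * wd (fun σ => cx (ent (Z l₀) σ)) i.1 = 0 → ∀ i, G i = 0) →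
        Disc ρ ρ' fun b : S => wd (fun σ => cx (ent (Z l₀) σ)) b.1)
    {X : Fin L → Fin N → Matrix (Fin n) (Fin n) ℂ} (hX : ∀ l, InfT (Z l) (X l)) :
    InfT (comb g Z) (fun i => X (fs i) (sn i)) := by
  classical
  have h1 := infT_sum (Finset.univ : Finset (Fin L)) (Z := comb g Z) (X := fun l i => if fs i = l then X l (sn i) else 0)
    fun l _ => inf_one hρ hρρ hC hsz hmem g hg hsep l (hD l) (hX l)
  have h2 : (fun j => ∑ l, if fs j = l then X l (sn j) else 0) = fun i : Fin (L * N) => X (fs i) (sn i) := by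
    funext i
    rw [Finset.sum_ite_eq, if_pos (Finset.mem_univ _)]
  rw [h2] at h1
  exact h1

end Pool.Agent.H885
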