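import Pool.Agent.H885.CoreL
import Pool.Agent.H885.Joint
import Pool.Agent.H885.DiscS

/-!
# Several points at once: one of them is not exceptional
-/

set_option autoImplicit false
set_option linter.unusedSectionVars false
set_option linter.unusedVariables false

open Matrix Module Filter PowerSeries

namespace Pool.Agent.H885

open Pool.Agent.Y113 (ev Cv GSys ps)
open Pool.Agent.Y118.HV (Hv hh)
open Pool.Agent.Y120.GH (cx cx_mem Cw sf ou_shift ou_ev)
open Pool.Agent.Helper880_R3 hiding core final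
open Pool.Agent.Helper880_LF.NB hiding alg_core
open Pool.Agent.Y118.UL (mk mk_eq mk_eq_zero mk_ne_zero mk_surj ev_ge eval_mk rep qc qc_mk algebraMap_eq U)
open Pool.Agent.TH119.DR Pool.Agent.TH119.MX Pool.Agent.TH127.PT Pool.Agent.Y123.ST Pool.Agent.Y123.GN

variable {n N r₀ L : ℕ}

/-- the values of the shifted matrix -/
lemma Hv_sf {Z : Matrix (Fin n) (Fin n) ℚ⟦X⟧} {C : ℝ} (hC : 1 ≤ C)
    (hsz : ∀ a b m, |((coeff m (Z a b) : ℚ) : ℝ)| ≤ C ^ (m + 1)) {t g : ℕ} (h : (g : ℝ) + C < t) :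
    Hv (sfM g Z) t = Hv Z (t - g) := by
  have hg0 : (0 : ℝ) ≤ g := by positivity
  have ht0 : (0 : ℝ) < t := by linarith
  have htg : (g : ℝ) < t := by linarith
  have hcast : ((t - g : ℕ) : ℝ) = (t : ℝ) - g := by
    rw [Nat.cast_sub (by exact_mod_cast htg.le)]
  ext a b
  have h1 := ou_shift (by linarith) (hsz a b) g (t := ((t : ℝ) : ℂ)) (by
    rw [Complex.norm_real, Real.norm_of_nonneg ht0.le]
    exact h)
  have h2 : (((t : ℝ) : ℂ)) - (g : ℂ) = ((((t - g : ℕ) : ℝ)) : ℂ) := by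
    rw [hcast]
    push_cast
    ring
  rw [h2, ou_ev, ou_ev] at h1
  exact h1

lemma infT_zero {Z : Fin N → Matrix (Fin n) (Fin n) ℚ⟦X⟧} : InfT Z (fun _ => 0) := by
  intro R _
  refine Finset.sum_eq_zero fun σ _ => ?_
  simp

/-- **exponential curves for several blocks at separated points** -/
theorem curveL (L N n q d : ℕ) : ∃ E : ℕ, ∀ (H : ℝ), 1 ≤ H → ∀ (T : Fin L → Polynomial ℤ)
    (B : Fin L → Fin N → Fin n → Fin n → Polynomial ℤ) (Z W : Fin L → Fin N → Matrix (Fin n) (Fin n) ℚ⟦X⟧),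
    (∀ l, Sys q H (T l) (B l) (Z l) (W l)) → (∀ l, T l ≠ 0) → ∀ ρ : ℝ, 0 < ρ → (∀ l j a b, cx (Z l j a b) ∈ Cw ρ) →
    ∀ (w b₀ : ℕ) (b : Fin L → ℕ), (∀ l, b₀ ≤ b l ∧ b l ≤ b₀ + w) → (∀ l l', l ≠ l' → 2 * ρ < |(b l : ℝ) - b l'|) →
    (2 * H * ((w : ℝ) + ρ + 2)) ^ E ≤ (b₀ : ℝ) →
    ∀ X : Fin L → Fin N → Matrix (Fin n) (Fin n) ℂ, (∀ l, InfT (Z l) (X l)) →
    ∀ P : MvPolynomial (Fin (L * N) × Fin n × Fin n) ℚ, P.totalDegree ≤ d →
    MvPolynomial.aeval (vz fun i : Fin (L * N) => Hv (Z (fs i) (sn i)) (b (fs i))) P = 0 → ∀ s : ℂ,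
    MvPolynomial.aeval (vz fun i : Fin (L * N) => NormedSpace.exp (s • X (fs i) (sn i)) * Hv (Z (fs i) (sn i)) (b (fs i))) P = 0 := by
  classical
  obtain ⟨q', E₁, h1⟩ := sys_shift L N n q
  obtain ⟨E₂, h2⟩ := rel_curve q' n (L * N) d
  refine ⟨(2 * E₁ + 1) * E₂ + 1, fun H hH T B Z W hS hT ρ hρ hmem w b₀ b hb hsep hbig X hX P hP hP0 s => ?_⟩
  set x : ℝ := 2 * H * ((w : ℝ) + ρ + 2) with hx
  have hw0 : (0 : ℝ) ≤ w := by positivity
  have hx4 : 4 * H ≤ x := by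
    rw [hx]
    nlinarith
  have hx2 : 2 ≤ x := by linarith
  have hx1 : 1 ≤ x := by linarith
  set f : ℕ := ⌊ρ⌋₊ with hf
  have hf1 : (f : ℝ) ≤ ρ := Nat.floor_le hρ.le
  have hf2 : ρ < f + 1 := Nat.lt_floor_add_one ρ
  set t : ℕ := b₀ + w + f + 2 with ht
  set g : Fin L → ℕ := fun l => t - b l with hg
  have hgt : ∀ l, g l + b l = t := fun l => by
    have := hb l
    rw [hg]
    simp only
    omega
  have hgt' : ∀ l, (g l : ℝ) + b l = t := fun l => by exact_mod_cast hgt l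
  have hbx : ∀ l, x ≤ (b l : ℝ) := by
    intro l
    have h3 : (b₀ : ℝ) ≤ b l := by exact_mod_cast (hb l).1
    have h4 : x ^ 1 ≤ x ^ ((2 * E₁ + 1) * E₂ + 1) := pow_le_pow_right₀ hx1 (by omega)
    rw [pow_one] at h4
    linarith
  have hval : ∀ i : Fin (L * N), Hv (comb g Z i) t = Hv (Z (fs i) (sn i)) (b (fs i)) := by
    intro i
    have h3 : Hv (sfM (g (fs i)) (Z (fs i) (sn i))) t = Hv (Z (fs i) (sn i)) (t - g (fs i)) := Hv_sf hH ((hS (fs i)).size (sn i)) (by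
      have h4 := hgt' (fs i)
      have h5 := hbx (fs i)
      linarith)
    have h6 : t - g (fs i) = b (fs i) := by
      have := hgt (fs i)
      omega
    rw [h6] at h3
    exact h3
  obtain ⟨T', B', hT', hS'⟩ := h1 H hH T B Z W hS hT (w + f + 2) g (fun l => by
    have := hb l
    rw [hg]
    simp only
    omega)
  -- the larger radius
  obtain ⟨ρ', hρρ, hρg, hρsep⟩ : ∃ ρ' : ℝ, ρ < ρ' ∧ (∀ l, ρ' < g l) ∧ ∀ l l', l ≠ l' → ρ + ρ' < |(g l : ℝ) - g l'| := by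
    have e1 : ∀ᶠ ρ' in nhdsWithin ρ (Set.Ioi ρ), ρ < ρ' := self_mem_nhdsWithin
    have e2 : ∀ᶠ ρ' in nhdsWithin ρ (Set.Ioi ρ), ∀ l, ρ' < (g l : ℝ) := by
      refine Filter.eventually_all.2 fun l => nhdsWithin_le_nhds (eventually_lt_nhds ?_)
      have h3 : f + 2 ≤ g l := by
        have := hb l
        rw [hg]
        simp only
        omega
      have h4 : ((f : ℝ) + 2) ≤ g l := by exact_mod_cast h3
      linarith
    have e3 : ∀ᶠ ρ' in nhdsWithin ρ (Set.Ioi ρ), ∀ l l', l ≠ l' → ρ + ρ' < |(g l : ℝ) - g l'| := by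
      refine Filter.eventually_all.2 fun l => Filter.eventually_all.2 fun l' => ?_
      by_cases hll : l = l'
      · exact Filter.Eventually.of_forall fun _ h => absurd hll h
      · have h3 := hsep l l' hll
        have h4 : (g l : ℝ) - g l' = (b l' : ℝ) - b l := by
          have h5 := hgt' l
          have h6 := hgt' l'
          linarith
        rw [h4, abs_sub_comm]
        have h7 : ρ < |(b l : ℝ) - b l'| - ρ := by linarith
        filter_upwards [nhdsWithin_le_nhds (eventually_lt_nhds h7)] with y hy _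
        linarith
    obtain ⟨ρ', h3, h4, h5⟩ := (e1.and (e2.and e3)).exists
    exact ⟨ρ', h3, h4, h5⟩
  have hI : InfT (comb g Z) (fun i => X (fs i) (sn i)) := by
    refine inf_joint hρ hρρ hH (fun l j a b m => (hS l).size j a b m) hmem g hρg hρsep (fun l₀ δ S _ hLI => ?_) hX
    exact disc_wd hρ (hρ.trans hρρ) (hT l₀) (hS l₀).ode (hS l₀).inv (hmem l₀) S hLI
  have h3 := h2 _ T' B' _ _ hS' hT' t ?_ _ hI P hP ?_ s
  · have h4 : (vz fun i : Fin (L * N) => NormedSpace.exp (s • X (fs i) (sn i)) * Hv (comb g Z i) t) =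
        vz fun i : Fin (L * N) => NormedSpace.exp (s • X (fs i) (sn i)) * Hv (Z (fs i) (sn i)) (b (fs i)) := by
      congr 1
      funext i
      rw [hval]
    rw [← h4]
    exact h3
  · have h5 : (b₀ : ℝ) ≤ t := by
      rw [ht]
      push_cast
      linarith [(Nat.cast_nonneg f : (0 : ℝ) ≤ f)]
    refine le_trans ?_ (hbig.trans h5)
    have h6 : 2 * H * (((w + f + 2 : ℕ) : ℝ) + 2) ≤ x ^ 2 := by
      push_cast
      have h7 : 2 * H * ((w : ℝ) + f + 2 + 2) ≤ 2 * x := by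
        rw [hx]
        have : (w : ℝ) + f + 2 + 2 ≤ 2 * ((w : ℝ) + ρ + 2) := by linarith
        nlinarith
      nlinarith
    calc (2 * (2 * H * (((w + f + 2 : ℕ) : ℝ) + 2)) ^ E₁) ^ E₂ ≤ (x * (x ^ 2) ^ E₁) ^ E₂ := by
          refine pow_le_pow_left₀ (by positivity) (mul_le_mul hx2 (pow_le_pow_left₀ (by positivity) h6 _) (by positivity)
            (by linarith)) _
      _ = x ^ ((2 * E₁ + 1) * E₂) := by rw [← pow_mul, ← pow_succ', ← pow_mul]
      _ ≤ x ^ ((2 * E₁ + 1) * E₂ + 1) := pow_le_pow_right₀ hx1 (by omega)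
  · have h4 : (vz fun i : Fin (L * N) => Hv (comb g Z i) t) =
        vz fun i : Fin (L * N) => Hv (Z (fs i) (sn i)) (b (fs i)) := by
      congr 1
      funext i
      rw [hval]
    have h5 : MvPolynomial.aeval (vz fun i : Fin (L * N) => Hv (comb g Z i) t) P = 0 := by
      rw [h4]
      exact hP0
    exact h5

/-- the data for several blocks -/
structure Dat (L n N r₀ : ℕ) where
  H : ℝ
  T : Fin L → Polynomial ℤ
  B : Fin L → Fin N → Fin n → Fin n → Polynomial ℤ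
  Z : Fin L → Fin N → Matrix (Fin n) (Fin n) ℚ⟦X⟧
  W : Fin L → Fin N → Matrix (Fin n) (Fin n) ℚ⟦X⟧
  ρ : ℝ
  w : ℕ
  b₀ : ℕ
  b : Fin L → ℕ
  𝔤 : Fin L → Submodule ℂ (Matrix (Fin n) (Fin n) ℂ)
  K : Fin L → Subfield ℂ
  S : Fin L → Set (Matrix (Ix r₀ n N) (Ix r₀ n N) ℂ)

/-- the conditions -/
structure Dat.OK (C₀ : Matrix (Fin r₀) (Fin r₀) ℂ) (C : Matrix (Fin n) (Fin n) ℂ) (q D r E : ℕ) (d : Dat L n N r₀) : Prop where
  one_le : 1 ≤ d.H
  sys : ∀ l, Sys q d.H (d.T l) (d.B l) (d.Z l) (d.W l)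
  T_ne : ∀ l, d.T l ≠ 0
  ρ_pos : 0 < d.ρ
  mem : ∀ l j a b, cx (d.Z l j a b) ∈ Cw d.ρ
  b_mem : ∀ l, d.b₀ ≤ d.b l ∧ d.b l ≤ d.b₀ + d.w
  sep : ∀ l l', l ≠ l' → 2 * d.ρ < |(d.b l : ℝ) - d.b l'|
  big : (2 * d.H * ((d.w : ℝ) + d.ρ + 2)) ^ E ≤ (d.b₀ : ℝ)
  lie : ∀ l, IsLie (d.𝔤 l)
  cf : ∀ l, CF (d.𝔤 l)
  cod : ∀ l, Cod r (d.𝔤 l)
  inf : ∀ l, ∀ X : Fin N → Matrix (Fin n) (Fin n) ℂ, (∀ j, X j ∈ d.𝔤 l) → InfT (d.Z l) X
  fd : ∀ l, FiniteDimensional ℚ (d.K l)
  deg : ∀ l, finrank ℚ (d.K l) ≤ D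
  tor : ∀ l, IsSubtorsor (d.K l) (d.S l)
  mem_tor : ∀ l, fromBlocks C₀ 0 0 (blockDiagonal fun j => C * Hv (d.Z l j) (d.b l)) ∈ d.S l

/-- **One of several separated points is not exceptional.** -/
theorem uniformL (n N q D r₀ s r L : ℕ) (hn : 0 < n) (hLr : s < L * (r + 1)) (C₀ : Matrix (Fin r₀) (Fin r₀) ℂ)
    (C : Matrix (Fin n) (Fin n) ℂ) (hfew : Few s C₀ C) : ∃ E : ℕ, ∀ d : Dat L n N r₀, d.OK C₀ C q D r E →
    ∃ l, ∀ Y : Fin N → Matrix (Fin n) (Fin n) ℂ, (∀ j, Y j ∈ d.𝔤 l) → ∀ x ∈ d.S l,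
      Zm (fun j => NormedSpace.exp (C * Y j * C⁻¹)) * x ∈ d.S l := by
  classical
  by_contra hcon
  simp only [not_exists] at hcon
  have h1 : ∀ k : ℕ, ∃ d : Dat L n N r₀, d.OK C₀ C q D r k ∧
      ∀ l, ¬ ∀ Y : Fin N → Matrix (Fin n) (Fin n) ℂ, (∀ j, Y j ∈ d.𝔤 l) → ∀ x ∈ d.S l,
        Zm (fun j => NormedSpace.exp (C * Y j * C⁻¹)) * x ∈ d.S l := by
    intro k
    have h2 := hcon k
    push Not at h2
    obtain ⟨d, hd1, hd2⟩ := h2
    refine ⟨d, hd1, fun l hl => ?_⟩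
    obtain ⟨Y, hY, x, hx, hx2⟩ := hd2 l
    exact hx2 (hl Y hY x hx)
  choose d hd hbad using h1
  have hL0 : 0 < L := by
    rcases Nat.eq_zero_or_pos L with h | h
    · subst h
      simp at hLr
    · exact h
  set z : ℕ → Fin L → Fin N → Matrix (Fin n) (Fin n) ℂ := fun k l j => Hv ((d k).Z l j) ((d k).b l) with hz
  -- the derivations
  have hder : ∀ l i, ∀ A ∈ GUs (fun k => (d k).𝔤 l), ∃ δ : Derivation (U ℚ) (U ℂ) (U ℂ),
      dm δ (gm fun k => z k l i) = A * (gm fun k => z k l i) ∧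
      ∀ l' j, (l', j) ≠ (l, i) → dm δ (gm fun k => z k l' j) = 0 := by
    rintro l i A ⟨F, hF, hF𝔤⟩
    set X : ℕ → Fin L → Fin N → Matrix (Fin n) (Fin n) ℂ := fun k l' j => if (l', j) = (l, i) then F k else 0 with hX
    have hXI : ∀ k l', InfT ((d k).Z l') (X k l') := by
      intro k l'
      refine (hd k).inf l' _ fun j => ?_
      rw [hX]
      simp only
      split_ifs with h
      · have h3 : l' = l := (Prod.ext_iff.1 h).1
        subst h3
        exact hF𝔤 k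
      · exact ((d k).𝔤 l').zero_mem
    obtain ⟨δ, hδ⟩ := hder_gen (z := fun k (i : Fin (L * N)) => z k (fs i) (sn i)) (X := fun k i => X k (fs i) (sn i))
      (fun e => by
        obtain ⟨E, hE⟩ := curveL L N n q e
        filter_upwards [ev_ge E] with k hk P hPd hP s
        have hH := (hd k).one_le
        have hw0 : (0 : ℝ) ≤ (d k).w := by positivity
        have hρ := (hd k).ρ_pos
        refine hE (d k).H hH (d k).T (d k).B (d k).Z (d k).W (hd k).sys (hd k).T_ne (d k).ρ hρ (hd k).mem (d k).w (d k).b₀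
          (d k).b (hd k).b_mem (hd k).sep ((pow_le_pow_right₀ (by nlinarith) hk).trans (hd k).big) (X k) (hXI k) P hPd hP s)
    have hfs : ∀ l' j, fs (finProdFinEquiv (l', j) : Fin (L * N)) = l' := fun l' j => by
      unfold fs
      rw [Equiv.symm_apply_apply]
    have hsn : ∀ l' j, sn (finProdFinEquiv (l', j) : Fin (L * N)) = j := fun l' j => by
      unfold sn
      rw [Equiv.symm_apply_apply]
    have hδ' : ∀ l' j, dm δ (gm fun k => z k l' j) = gm fun k => X k l' j * z k l' j := by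
      intro l' j
      have h3 := hδ (finProdFinEquiv (l', j))
      simp only [hfs, hsn] at h3
      exact h3
    refine ⟨δ, ?_, fun l' j hj => ?_⟩
    · rw [hδ', ← hF, ← gm_mul]
      congr 1
      funext k
      rw [hX]
      simp only [if_true]
    · rw [hδ']
      have h3 : (fun k => X k l' j * z k l' j) = fun _ => 0 := by
        funext k
        rw [hX]
        simp only [if_neg hj, Matrix.zero_mul]
      rw [h3, gm_zero]
  -- the period matrices
  have hcT : ∀ k l, (Cb C₀ C : Matrix (Ix r₀ n N) (Ix r₀ n N) ℂ) * Zm (z k l) ∈ (d k).S l := by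
    intro k l
    have h2 : fromBlocks C₀ 0 0 (blockDiagonal fun j => C * Hv ((d k).Z l j) ((d k).b l)) =
        (Cb C₀ C : Matrix (Ix r₀ n N) (Ix r₀ n N) ℂ) * Zm (z k l) := by
      rw [Cb_Zm]
    rw [← h2]
    exact (hd k).mem_tor l
  have hdet : ∀ k l, (Cb (N := N) C₀ C).det ≠ 0 ∧ (Zm (r₀ := r₀) (z k l)).det ≠ 0 := by
    intro k l
    have h1 := (Matrix.isUnit_iff_isUnit_det _).1 (((hd k).tor l).isUnit _ (hcT k l))
    rw [Matrix.det_mul] at h1
    have h2 := h1.ne_zero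
    exact ⟨left_ne_zero_of_mul h2, right_ne_zero_of_mul h2⟩
  have hz0 : ∀ k l j, (z k l j).det ≠ 0 := by
    intro k l j
    have h1 := (hdet k l).2
    rw [Zm_det, Finset.prod_ne_zero_iff] at h1
    exact h1 j (Finset.mem_univ j)
  obtain ⟨𝒩, h𝒩1, h𝒩2, h𝒩3⟩ := few_dim (hdet 0 ⟨0, hL0⟩).1 (hfew.few (N := N))
  obtain ⟨l, hmain⟩ := coreL hn hLr (fun k => (hd k).lie) (fun k => (hd k).cod) (fun k => (hd k).cf) hz0 hder
    (fun k => (hd k).fd) (fun k => (hd k).deg) (C := fun _ => Cb C₀ C) (fun k => (hdet 0 ⟨0, hL0⟩).1) 𝒩 h𝒩1 h𝒩2 h𝒩3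
    (fun k => (hd k).tor) hcT
  obtain ⟨k, hk⟩ := hmain.exists
  refine hbad k l fun Y hY x hx => ?_
  -- the case without points
  by_cases hN : N = 0
  · subst hN
    have h1 : Zm (r₀ := r₀) (fun j : Fin 0 => NormedSpace.exp (C * Y j * C⁻¹)) = 1 := by
      have : (fun j : Fin 0 => NormedSpace.exp (C * Y j * C⁻¹)) = fun _ => 1 := funext fun j => j.elim0
      rw [this, Zm_one]
    rw [h1, Matrix.one_mul]
    exact hx
  have hCd : C.det ≠ 0 := by
    have h1 := (hdet k l).1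
    unfold Cb at h1
    rw [Matrix.det_fromBlocks_zero₂₁, Matrix.det_blockDiagonal] at h1
    have h2 := right_ne_zero_of_mul h1
    rw [Finset.prod_ne_zero_iff] at h2
    exact h2 ⟨0, Nat.pos_of_ne_zero hN⟩ (Finset.mem_univ _)
  have hCu : IsUnit C.det := isUnit_iff_ne_zero.2 hCd
  have h2 : ∀ i, fl (ib (r₀ := r₀) i (C * Y i * C⁻¹)) ∈ LL ((d k).S l) := by
    intro i
    have h4 := hk i _ (hY i)
    have h5 : ib (r₀ := r₀) i (C * Y i * C⁻¹) = (Cb C₀ C : Matrix (Ix r₀ n N) (Ix r₀ n N) ℂ) * ib i (Y i) * (Cb C₀ C)⁻¹ := by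
      have h6 : IsUnit (Cb C₀ C : Matrix (Ix r₀ n N) (Ix r₀ n N) ℂ).det := isUnit_iff_ne_zero.2 (hdet k l).1
      have h7 : ib (r₀ := r₀) i (C * Y i * C⁻¹) * (Cb C₀ C : Matrix (Ix r₀ n N) (Ix r₀ n N) ℂ) = Cb C₀ C * ib i (Y i) := by
        unfold Cb
        rw [ib_apply, ib_apply, fromBlocks_multiply, fromBlocks_multiply, ← blockDiagonal_mul, ← blockDiagonal_mul]
        have h9 : (fun j => (Pi.single i (C * Y i * C⁻¹) : Fin N → Matrix (Fin n) (Fin n) ℂ) j * C) =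
            fun j => C * (Pi.single i (Y i) : Fin N → Matrix (Fin n) (Fin n) ℂ) j := by
          funext j
          by_cases hj : j = i
          · subst hj
            rw [Pi.single_eq_same, Pi.single_eq_same, Matrix.nonsing_inv_mul_cancel_right _ _ hCu]
          · rw [Pi.single_eq_of_ne hj, Pi.single_eq_of_ne hj, Matrix.zero_mul, Matrix.mul_zero]
        rw [h9]
        simp
      rw [← h7, Matrix.mul_nonsing_inv_cancel_right _ _ h6]
    rw [h5]
    exact h4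
  have h3 : fl (∑ i, ib (r₀ := r₀) i (C * Y i * C⁻¹)) ∈ LL ((d k).S l) := by
    have h4 : ∀ s : Finset (Fin N), fl (∑ i ∈ s, ib (r₀ := r₀) i (C * Y i * C⁻¹)) ∈ LL ((d k).S l) := by
      intro s
      induction s using Finset.induction_on with
      | empty =>
        rw [Finset.sum_empty, fl_zero]
        exact (LL ((d k).S l)).zero_mem
      | insert a s ha ih =>
        rw [Finset.sum_insert ha, fl_add]
        exact (LL ((d k).S l)).add_mem (h2 a) ih
    exact h4 _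
  rw [sum_ib (fun i => C * Y i * C⁻¹)] at h3
  have h4 := exp_stab ((hd k).tor l) h3 hx
  rw [exp_Zm] at h4
  exact h4

end Pool.Agent.H885
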