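import Pool.Agent.H885.CoreP
import Pool.Agent.H885.Joint2
import Pool.Agent.H885.DiscS
import Pool.Agent.H885.UnifL
import Pool.Agent.H885.FewQ

/-!
# Several tuples of points with different denominators: one of them is not exceptional
-/

set_option autoImplicit false
set_option linter.unusedSectionVars false
set_option linter.unusedVariables false

open Matrix Module Filter PowerSeries

namespace Pool.Agent.H885

open Pool.Agent.Y113 (ev Cv GSys ps)
open Pool.Agent.Y118.HV (Hv hh)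
open Pool.Agent.Y120.GH (cx cx_mem Cw sf ou_shift ou_ev)
open Pool.Agent.Helper880_R3 hiding core final
open Pool.Agent.Helper880_LF.NB hiding alg_core
open Pool.Agent.Y118.UL (mk mk_eq mk_eq_zero mk_ne_zero mk_surj ev_ge eval_mk rep qc qc_mk algebraMap_eq U)
open Pool.Agent.TH119.DR Pool.Agent.TH119.MX Pool.Agent.TH127.PT Pool.Agent.Y123.ST Pool.Agent.Y123.GN

variable {n N r₀ L M : ℕ}

/-- subfamilies -/
lemma Sys.comp {q : ℕ} {H : ℝ} {T : Polynomial ℤ} {B : Fin N → Fin n → Fin n → Polynomial ℤ}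
    {Z W : Fin N → Matrix (Fin n) (Fin n) ℚ⟦X⟧} (h : Sys q H T B Z W) (ι : Fin M → Fin N) :
    Sys q H T (fun i => B (ι i)) (fun i => Z (ι i)) (fun i => W (ι i)) :=
  ⟨h.one_le, h.degT, h.sizeT, fun j => h.degB (ι j), fun j => h.sizeB (ι j), fun j => h.ode (ι j), fun j => h.inv (ι j),
    fun j => h.size (ι j), fun m => by
      obtain ⟨d, h1, h2, h3⟩ := h.den m
      exact ⟨d, h1, h2, fun j => h3 (ι j)⟩⟩

/-- **systems with different shifts** -/
theorem sys_pts (L N n q : ℕ) : ∃ q' E₁ : ℕ, ∀ (H : ℝ), 1 ≤ H → ∀ (T : Fin L → Fin N → Polynomial ℤ)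
    (B : Fin L → Fin N → Fin n → Fin n → Polynomial ℤ) (Z W : Fin L → Fin N → Matrix (Fin n) (Fin n) ℚ⟦X⟧),
    (∀ l j, Sys (N := 1) q H (T l j) (fun _ => B l j) (fun _ => Z l j) (fun _ => W l j)) → (∀ l j, T l j ≠ 0) →
    ∀ (G : ℕ) (g : Fin L → Fin N → ℕ), (∀ l j, g l j ≤ G) →
    ∃ (T' : Polynomial ℤ) (B' : Fin (L * N) → Fin n → Fin n → Polynomial ℤ), T' ≠ 0 ∧
      Sys q' ((2 * H * ((G : ℝ) + 2)) ^ E₁) T' B' (combP g Z) (combP g W) := by
  obtain ⟨q', E₁, h1⟩ := sys_shift (L * N) 1 n q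
  refine ⟨q', E₁, fun H hH T B Z W hS hT G g hg => ?_⟩
  obtain ⟨T', B', hT', hS'⟩ := h1 H hH (fun i => T (fs i) (sn i)) (fun i _ => B (fs i) (sn i)) (fun i _ => Z (fs i) (sn i))
    (fun i _ => W (fs i) (sn i)) (fun i => hS (fs i) (sn i)) (fun i => hT (fs i) (sn i)) G (fun i => g (fs i) (sn i))
    (fun i => hg _ _)
  have h2 := hS'.comp (fun i : Fin (L * N) => finProdFinEquiv (i, (0 : Fin 1)))
  simp only [Equiv.symm_apply_apply] at h2
  exact ⟨T', _, hT', h2⟩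

/-- a common denominator of the systems -/
lemma common_ode {T : Fin N → Polynomial ℤ} {B : Fin N → Fin n → Fin n → Polynomial ℤ}
    {Z : Fin N → Matrix (Fin n) (Fin n) ℚ⟦X⟧} (h : ∀ j a b, ps (T j) * d⁄dX ℚ (Z j a b) = ∑ l, Z j a l * ps (B j l b))
    (j : Fin N) (a b : Fin n) : ps (∏ j, T j) * d⁄dX ℚ (Z j a b) =
      ∑ l, Z j a l * ps ((∏ j' ∈ Finset.univ.erase j, T j') * B j l b) := by
  rw [← Finset.prod_erase_mul _ _ (Finset.mem_univ j), Pool.Agent.Y113.ps_mul, mul_assoc, h, Finset.mul_sum]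
  refine Finset.sum_congr rfl fun l _ => ?_
  rw [Pool.Agent.Y113.ps_mul]
  ring

/-- the differential equations of the parts of the family -/
lemma part_ode {T : Polynomial ℤ} {B : Fin N → Fin n → Fin n → Polynomial ℤ}
    {Z : Fin N → Matrix (Fin n) (Fin n) ℚ⟦X⟧} (h : ∀ j a b, ps T * d⁄dX ℚ (Z j a b) = ∑ l, Z j a l * ps (B j l b))
    (g : Fin N → ℕ) (γ : ℕ) (j : Fin N) (a b : Fin n) : ps T * d⁄dX ℚ (part g Z γ j a b) =
      ∑ l, part g Z γ j a l * ps ((if g j = γ then B j else 0) l b) := by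
  unfold part
  by_cases hj : g j = γ
  · rw [if_pos hj, if_pos hj]
    exact h j a b
  · rw [if_neg hj, if_neg hj]
    have h1 : d⁄dX ℚ ((1 : Matrix (Fin n) (Fin n) ℚ⟦X⟧) a b) = 0 := by
      rw [Matrix.one_apply]
      split_ifs
      · exact Derivation.map_one_eq_zero _
      · exact map_zero _
    rw [h1, mul_zero, Finset.sum_eq_zero]
    intro l _
    have h2 : ps (0 : Polynomial ℤ) = 0 := by
      unfold ps
      simp
    show _ * ps (0 : Polynomial ℤ) = 0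
    rw [h2, mul_zero]

lemma part_inv {Z W : Fin N → Matrix (Fin n) (Fin n) ℚ⟦X⟧} (h : ∀ j, W j * Z j = 1) (g : Fin N → ℕ) (γ : ℕ) (j : Fin N) :
    part g W γ j * part g Z γ j = 1 := by
  unfold part
  split_ifs
  · exact h j
  · rw [Matrix.one_mul]

lemma part_mem {ρ : ℝ} {Z : Fin N → Matrix (Fin n) (Fin n) ℚ⟦X⟧} (h : ∀ j a b, cx (Z j a b) ∈ Cw ρ) (g : Fin N → ℕ) (γ : ℕ)
    (j : Fin N) (a b : Fin n) : cx (part g Z γ j a b) ∈ Cw ρ := by
  unfold part
  split_ifs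
  · exact h j a b
  · rw [Matrix.one_apply]
    split_ifs
    · rw [map_one]
      exact (Cw ρ).one_mem
    · rw [map_zero]
      exact (Cw ρ).zero_mem

/-- **exponential curves for several tuples of points** -/
theorem curveP (L N n q d : ℕ) : ∃ E : ℕ, ∀ (H : ℝ), 1 ≤ H → ∀ (T : Fin L → Fin N → Polynomial ℤ)
    (B : Fin L → Fin N → Fin n → Fin n → Polynomial ℤ) (Z W : Fin L → Fin N → Matrix (Fin n) (Fin n) ℚ⟦X⟧),
    (∀ l j, Sys (N := 1) q H (T l j) (fun _ => B l j) (fun _ => Z l j) (fun _ => W l j)) → (∀ l j, T l j ≠ 0) → ∀ ρ : ℝ, 0 < ρ → (∀ l j a b, cx (Z l j a b) ∈ Cw ρ) →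
    ∀ (w b₀ : ℕ) (b : Fin L → Fin N → ℕ), (∀ l j, b₀ ≤ b l j ∧ b l j ≤ b₀ + w) →
    (∀ l j l' j', ¬ (l = l' ∧ b l j = b l' j') → 2 * ρ < |(b l j : ℝ) - b l' j'|) →
    (2 * H * ((w : ℝ) + ρ + 2)) ^ E ≤ (b₀ : ℝ) →
    ∀ X : Fin L → Fin N → Matrix (Fin n) (Fin n) ℂ,
    (∀ l β, InfT (part (b l) (Z l) β) (fun j => if b l j = β then X l j else 0)) →
    ∀ P : MvPolynomial (Fin (L * N) × Fin n × Fin n) ℚ, P.totalDegree ≤ d →
    MvPolynomial.aeval (vz fun i : Fin (L * N) => Hv (Z (fs i) (sn i)) (b (fs i) (sn i))) P = 0 → ∀ s : ℂ,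
    MvPolynomial.aeval (vz fun i : Fin (L * N) => NormedSpace.exp (s • X (fs i) (sn i)) * Hv (Z (fs i) (sn i)) (b (fs i) (sn i)))
      P = 0 := by
  classical
  obtain ⟨q', E₁, h1⟩ := sys_pts L N n q
  obtain ⟨E₂, h2⟩ := rel_curve q' n (L * N) d
  refine ⟨(2 * E₁ + 1) * E₂ + 1, fun H hH T B Z W hS hT ρ hρ hmem w b₀ b hb hsep hbig X hX P hP hP0 s => ?_⟩
  set x : ℝ := 2 * H * ((w : ℝ) + ρ + 2) with hx
  have hw0 : (0 : ℝ) ≤ w := by positivity
  have hx4 : 4 * H ≤ x := by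
    rw [hx]
    nlinarith
  have hx2 : 2 ≤ x := by linarith
  have hx1 : 1 ≤ x := by linarith
  set f : ℕ := ⌊ρ⌋₊ with hf
  have hf1 : (f : ℝ) ≤ ρ := Nat.floor_le hρ.le
  have hf2 : ρ < f + 1 := Nat.lt_floor_add_one ρ
  set t : ℕ := b₀ + w + f + 2 with ht
  set g : Fin L → Fin N → ℕ := fun l j => t - b l j with hg
  have hgt : ∀ l j, g l j + b l j = t := fun l j => by
    have := hb l j
    rw [hg]
    simp only
    omega
  have hgt' : ∀ l j, (g l j : ℝ) + b l j = t := fun l j => by exact_mod_cast hgt l j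
  have hb₀x : x ≤ (b₀ : ℝ) := by
    have h4 : x ^ 1 ≤ x ^ ((2 * E₁ + 1) * E₂ + 1) := pow_le_pow_right₀ hx1 (by omega)
    rw [pow_one] at h4
    linarith
  have hb₀pos : 0 < b₀ := by
    have : (0 : ℝ) < b₀ := by linarith
    exact_mod_cast this
  have hbx : ∀ l j, x ≤ (b l j : ℝ) := by
    intro l j
    have h3 : (b₀ : ℝ) ≤ b l j := by exact_mod_cast (hb l j).1
    linarith
  have hval : ∀ i : Fin (L * N), Hv (combP g Z i) t = Hv (Z (fs i) (sn i)) (b (fs i) (sn i)) := by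
    intro i
    have h3 : Hv (sfM (g (fs i) (sn i)) (Z (fs i) (sn i))) t = Hv (Z (fs i) (sn i)) (t - g (fs i) (sn i)) :=
      Hv_sf hH ((hS (fs i) (sn i)).size 0) (by
        have h4 := hgt' (fs i) (sn i)
        have h5 := hbx (fs i) (sn i)
        linarith)
    have h6 : t - g (fs i) (sn i) = b (fs i) (sn i) := by
      have := hgt (fs i) (sn i)
      omega
    rw [h6] at h3
    exact h3
  have hpart : ∀ l γ, (∀ j, g l j = γ ↔ b l j = t - γ) := by
    intro l γ j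
    have h3 := hgt l j
    have h4 := (hb l j).1
    omega
  obtain ⟨T', B', hT', hS'⟩ := h1 H hH T B Z W hS hT (w + f + 2) g (fun l j => by
    have := hb l j
    rw [hg]
    simp only
    omega)
  -- the larger radius
  obtain ⟨ρ', hρρ, hρg, hρsep⟩ : ∃ ρ' : ℝ, ρ < ρ' ∧ (∀ l j, ρ' < g l j) ∧
      ∀ l j l' j', ¬ (l = l' ∧ g l j = g l' j') → ρ + ρ' < |(g l j : ℝ) - g l' j'| := by
    have e1 : ∀ᶠ ρ' in nhdsWithin ρ (Set.Ioi ρ), ρ < ρ' := self_mem_nhdsWithin
    have e2 : ∀ᶠ ρ' in nhdsWithin ρ (Set.Ioi ρ), ∀ l j, ρ' < (g l j : ℝ) := by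
      refine Filter.eventually_all.2 fun l => Filter.eventually_all.2 fun j => nhdsWithin_le_nhds (eventually_lt_nhds ?_)
      have h3 : f + 2 ≤ g l j := by
        have := hb l j
        rw [hg]
        simp only
        omega
      have h4 : ((f : ℝ) + 2) ≤ g l j := by exact_mod_cast h3
      linarith
    have e3 : ∀ᶠ ρ' in nhdsWithin ρ (Set.Ioi ρ), ∀ l j l' j', ¬ (l = l' ∧ g l j = g l' j') →
        ρ + ρ' < |(g l j : ℝ) - g l' j'| := by
      refine Filter.eventually_all.2 fun l => Filter.eventually_all.2 fun j => Filter.eventually_all.2 fun l' =>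
        Filter.eventually_all.2 fun j' => ?_
      by_cases hll : l = l' ∧ g l j = g l' j'
      · exact Filter.Eventually.of_forall fun _ h => absurd hll h
      · have h3 := hsep l j l' j' (fun h => hll ⟨h.1, by
          have h5 := hgt l j
          have h6 := hgt l' j'
          have h7 := h.2
          omega⟩)
        have h4 : (g l j : ℝ) - g l' j' = (b l' j' : ℝ) - b l j := by
          have h5 := hgt' l j
          have h6 := hgt' l' j'
          linarith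
        rw [h4, abs_sub_comm]
        have h7 : ρ < |(b l j : ℝ) - b l' j'| - ρ := by linarith
        filter_upwards [nhdsWithin_le_nhds (eventually_lt_nhds h7)] with y hy _
        linarith
    obtain ⟨ρ', h3, h4, h5⟩ := (e1.and (e2.and e3)).exists
    exact ⟨ρ', h3, h4, h5⟩
  have hI : InfT (combP g Z) (fun i => X (fs i) (sn i)) := by
    refine inf_pts hρ hρρ hH (fun l j a b m => (hS l j).size 0 a b m) hmem g hρg hρsep (fun l₀ γ δ S _ hLI => ?_) fun l γ => ?_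
    · exact disc_wd hρ (hρ.trans hρρ) (Finset.prod_ne_zero_iff.2 fun j _ => hT l₀ j)
        (part_ode (common_ode fun j => (hS l₀ j).ode 0) (g l₀) γ) (part_inv (fun j => (hS l₀ j).inv 0) (g l₀) γ)
        (part_mem (hmem l₀) (g l₀) γ) S hLI
    · have h3 := hX l (t - γ)
      have h4 : part (b l) (Z l) (t - γ) = part (g l) (Z l) γ := by
        unfold part
        funext j
        simp only [hpart l γ j]
      have h5 : (fun j => if b l j = t - γ then X l j else 0) = fun j => if g l j = γ then X l j else 0 := by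
        funext j
        simp only [hpart l γ j]
      rw [h4, h5] at h3
      exact h3
  have h3 := h2 _ T' B' _ _ hS' hT' t ?_ _ hI P hP ?_ s
  · have h4 : (vz fun i : Fin (L * N) => NormedSpace.exp (s • X (fs i) (sn i)) * Hv (combP g Z i) t) =
        vz fun i : Fin (L * N) => NormedSpace.exp (s • X (fs i) (sn i)) * Hv (Z (fs i) (sn i)) (b (fs i) (sn i)) := by
      congr 1
      funext i
      rw [hval]
    rw [← h4]
    exact h3
  · have h5 : (b₀ : ℝ) ≤ t := by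
      rw [ht]
      push_cast
      linarith [(Nat.cast_nonneg f : (0 : ℝ) ≤ f)]
    refine le_trans ?_ (hbig.trans h5)
    have h6 : 2 * H * (((w + f + 2 : ℕ) : ℝ) + 2) ≤ x ^ 2 := by
      push_cast
      have h7 : 2 * H * ((w : ℝ) + f + 2 + 2) ≤ 2 * x := by
        rw [hx]
        have : (w : ℝ) + f + 2 + 2 ≤ 2 * ((w : ℝ) + ρ + 2) := by linarith
        nlinarith
      nlinarith
    calc (2 * (2 * H * (((w + f + 2 : ℕ) : ℝ) + 2)) ^ E₁) ^ E₂ ≤ (x * (x ^ 2) ^ E₁) ^ E₂ := by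
          refine pow_le_pow_left₀ (by positivity) (mul_le_mul hx2 (pow_le_pow_left₀ (by positivity) h6 _) (by positivity)
            (by linarith)) _
      _ = x ^ ((2 * E₁ + 1) * E₂) := by rw [← pow_mul, ← pow_succ', ← pow_mul]
      _ ≤ x ^ ((2 * E₁ + 1) * E₂ + 1) := pow_le_pow_right₀ hx1 (by omega)
  · have h4 : (vz fun i : Fin (L * N) => Hv (combP g Z i) t) =
        vz fun i : Fin (L * N) => Hv (Z (fs i) (sn i)) (b (fs i) (sn i)) := by
      congr 1
      funext i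
      rw [hval]
    have h5 : MvPolynomial.aeval (vz fun i : Fin (L * N) => Hv (combP g Z i) t) P = 0 := by
      rw [h4]
      exact hP0
    exact h5

/-- the data for several tuples of points -/
structure DatP (L n N r₀ : ℕ) where
  C₀ : Matrix (Fin r₀) (Fin r₀) ℂ
  C : Matrix (Fin n) (Fin n) ℂ
  H : ℝ
  T : Fin L → Fin N → Polynomial ℤ
  B : Fin L → Fin N → Fin n → Fin n → Polynomial ℤ
  Z : Fin L → Fin N → Matrix (Fin n) (Fin n) ℚ⟦X⟧
  W : Fin L → Fin N → Matrix (Fin n) (Fin n) ℚ⟦X⟧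
  ρ : ℝ
  w : ℕ
  b₀ : ℕ
  b : Fin L → Fin N → ℕ
  𝔤 : Fin L → Fin N → Submodule ℂ (Matrix (Fin n) (Fin n) ℂ)
  K : Fin L → Subfield ℂ
  S : Fin L → Set (Matrix (Ix r₀ n N) (Ix r₀ n N) ℂ)

/-- the conditions -/
structure DatP.OK (q D r s e E : ℕ) (d : DatP L n N r₀) : Prop where
  few : FewD s e d.C₀ d.C
  one_le : 1 ≤ d.H
  sys : ∀ l j, Sys (N := 1) q d.H (d.T l j) (fun _ => d.B l j) (fun _ => d.Z l j) (fun _ => d.W l j)
  T_ne : ∀ l j, d.T l j ≠ 0
  ρ_pos : 0 < d.ρ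
  mem : ∀ l j a b, cx (d.Z l j a b) ∈ Cw d.ρ
  b_mem : ∀ l j, d.b₀ ≤ d.b l j ∧ d.b l j ≤ d.b₀ + d.w
  sep : ∀ l j l' j', ¬ (l = l' ∧ d.b l j = d.b l' j') → 2 * d.ρ < |(d.b l j : ℝ) - d.b l' j'|
  big : (2 * d.H * ((d.w : ℝ) + d.ρ + 2)) ^ E ≤ (d.b₀ : ℝ)
  lie : ∀ l j, IsLie (d.𝔤 l j)
  cf : ∀ l j, CF (d.𝔤 l j)
  cod : ∀ l j, Cod r (d.𝔤 l j)
  inf : ∀ l, ∀ X : Fin N → Matrix (Fin n) (Fin n) ℂ, (∀ j, X j ∈ d.𝔤 l j) → ∀ β,
    InfT (part (d.b l) (d.Z l) β) (fun j => if d.b l j = β then X j else 0)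
  fd : ∀ l, FiniteDimensional ℚ (d.K l)
  deg : ∀ l, finrank ℚ (d.K l) ≤ D
  tor : ∀ l, IsSubtorsor (d.K l) (d.S l)
  mem_tor : ∀ l, fromBlocks d.C₀ 0 0 (blockDiagonal fun j => d.C * Hv (d.Z l j) (d.b l j)) ∈ d.S l

/-- **One of several separated tuples is not exceptional.** -/
theorem uniformP (n N q D r₀ s e r L : ℕ) (hn : 0 < n) (hLr : s < L * (r + 1)) : ∃ E : ℕ, ∀ d : DatP L n N r₀,
    d.OK q D r s e E → ∃ l, ∀ Y : Fin N → Matrix (Fin n) (Fin n) ℂ, (∀ j, Y j ∈ d.𝔤 l j) → ∀ x ∈ d.S l,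
      Zm (fun j => NormedSpace.exp (d.C * Y j * d.C⁻¹)) * x ∈ d.S l := by
  classical
  by_contra hcon
  simp only [not_exists] at hcon
  have h1 : ∀ k : ℕ, ∃ d : DatP L n N r₀, d.OK q D r s e k ∧
      ∀ l, ¬ ∀ Y : Fin N → Matrix (Fin n) (Fin n) ℂ, (∀ j, Y j ∈ d.𝔤 l j) → ∀ x ∈ d.S l,
        Zm (fun j => NormedSpace.exp (d.C * Y j * d.C⁻¹)) * x ∈ d.S l := by
    intro k
    have h2 := hcon k
    push Not at h2
    obtain ⟨d, hd1, hd2⟩ := h2
    refine ⟨d, hd1, fun l hl => ?_⟩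
    obtain ⟨Y, hY, x, hx, hx2⟩ := hd2 l
    exact hx2 (hl Y hY x hx)
  choose d hd hbad using h1
  have hL0 : 0 < L := by
    rcases Nat.eq_zero_or_pos L with h | h
    · subst h
      simp at hLr
    · exact h
  set z : ℕ → Fin L → Fin N → Matrix (Fin n) (Fin n) ℂ := fun k l j => Hv ((d k).Z l j) ((d k).b l j) with hz
  -- the derivations
  have hder : ∀ l i, ∀ A ∈ GUs (fun k => (d k).𝔤 l i), ∃ δ : Derivation (U ℚ) (U ℂ) (U ℂ),
      dm δ (gm fun k => z k l i) = A * (gm fun k => z k l i) ∧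
      ∀ l' j, (l', j) ≠ (l, i) → dm δ (gm fun k => z k l' j) = 0 := by
    rintro l i A ⟨F, hF, hF𝔤⟩
    set X : ℕ → Fin L → Fin N → Matrix (Fin n) (Fin n) ℂ := fun k l' j => if (l', j) = (l, i) then F k else 0 with hX
    have hX𝔤 : ∀ k l' j, X k l' j ∈ (d k).𝔤 l' j := by
      intro k l' j
      rw [hX]
      simp only
      split_ifs with h
      · obtain ⟨h3, h4⟩ := Prod.ext_iff.1 h
        simp only at h3 h4
        subst h3
        subst h4
        exact hF𝔤 k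
      · exact ((d k).𝔤 l' j).zero_mem
    obtain ⟨δ, hδ⟩ := hder_gen (z := fun k (i : Fin (L * N)) => z k (fs i) (sn i)) (X := fun k i => X k (fs i) (sn i))
      (fun e' => by
        obtain ⟨E, hE⟩ := curveP L N n q e' 
        filter_upwards [ev_ge E] with k hk P hPd hP s
        have hH := (hd k).one_le
        have hw0 : (0 : ℝ) ≤ (d k).w := by positivity
        have hρ := (hd k).ρ_pos
        refine hE (d k).H hH (d k).T (d k).B (d k).Z (d k).W (hd k).sys (hd k).T_ne (d k).ρ hρ (hd k).mem (d k).w (d k).b₀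
          (d k).b (hd k).b_mem (hd k).sep ((pow_le_pow_right₀ (by nlinarith) hk).trans (hd k).big) (X k)
          (fun l' β => (hd k).inf l' (X k l') (hX𝔤 k l') β) P hPd hP s)
    have hfs : ∀ l' j, fs (finProdFinEquiv (l', j) : Fin (L * N)) = l' := fun l' j => by
      unfold fs
      rw [Equiv.symm_apply_apply]
    have hsn : ∀ l' j, sn (finProdFinEquiv (l', j) : Fin (L * N)) = j := fun l' j => by
      unfold sn
      rw [Equiv.symm_apply_apply]
    have hδ' : ∀ l' j, dm δ (gm fun k => z k l' j) = gm fun k => X k l' j * z k l' j := by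
      intro l' j
      have h3 := hδ (finProdFinEquiv (l', j))
      simp only [hfs, hsn] at h3
      exact h3
    refine ⟨δ, ?_, fun l' j hj => ?_⟩
    · rw [hδ', ← hF, ← gm_mul]
      congr 1
      funext k
      rw [hX]
      simp only [if_true]
    · rw [hδ']
      have h3 : (fun k => X k l' j * z k l' j) = fun _ => 0 := by
        funext k
        rw [hX]
        simp only [if_neg hj, Matrix.zero_mul]
      rw [h3, gm_zero]
  -- the period matrices
  have hcT : ∀ k l, (Cb (d k).C₀ (d k).C : Matrix (Ix r₀ n N) (Ix r₀ n N) ℂ) * Zm (z k l) ∈ (d k).S l := by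
    intro k l
    have h2 : fromBlocks (d k).C₀ 0 0 (blockDiagonal fun j => (d k).C * Hv ((d k).Z l j) ((d k).b l j)) =
        (Cb (d k).C₀ (d k).C : Matrix (Ix r₀ n N) (Ix r₀ n N) ℂ) * Zm (z k l) := by
      rw [Cb_Zm]
    rw [← h2]
    exact (hd k).mem_tor l
  have hdet : ∀ k l, (Cb (N := N) (d k).C₀ (d k).C).det ≠ 0 ∧ (Zm (r₀ := r₀) (z k l)).det ≠ 0 := by
    intro k l
    have h1 := (Matrix.isUnit_iff_isUnit_det _).1 (((hd k).tor l).isUnit _ (hcT k l))
    rw [Matrix.det_mul] at h1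
    have h2 := h1.ne_zero
    exact ⟨left_ne_zero_of_mul h2, right_ne_zero_of_mul h2⟩
  have hz0 : ∀ k l j, (z k l j).det ≠ 0 := by
    intro k l j
    have h1 := (hdet k l).2
    rw [Zm_det, Finset.prod_ne_zero_iff] at h1
    exact h1 j (Finset.mem_univ j)
  obtain ⟨𝒩, h𝒩1, h𝒩2, h𝒩3⟩ := few_seq (N := N) (fun k => (hdet k ⟨0, hL0⟩).1) (fun k => (hd k).few)
  obtain ⟨l, hmain⟩ := coreP hn hLr (fun k => (hd k).lie) (fun k => (hd k).cod) (fun k => (hd k).cf) hz0 hder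
    (fun k => (hd k).fd) (fun k => (hd k).deg) (C := fun k => Cb (d k).C₀ (d k).C) (fun k => (hdet k ⟨0, hL0⟩).1) 𝒩 h𝒩1 h𝒩2 h𝒩3
    (fun k => (hd k).tor) hcT
  obtain ⟨k, hk⟩ := hmain.exists
  refine hbad k l fun Y hY x hx => ?_
  -- the case without points
  by_cases hN : N = 0
  · subst hN
    have h1 : Zm (r₀ := r₀) (fun j : Fin 0 => NormedSpace.exp ((d k).C * Y j * (d k).C⁻¹)) = 1 := by
      have : (fun j : Fin 0 => NormedSpace.exp ((d k).C * Y j * (d k).C⁻¹)) = fun _ => 1 := funext fun j => j.elim0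
      rw [this, Zm_one]
    rw [h1, Matrix.one_mul]
    exact hx
  have hCd : (d k).C.det ≠ 0 := by
    have h1 := (hdet k l).1
    unfold Cb at h1
    rw [Matrix.det_fromBlocks_zero₂₁, Matrix.det_blockDiagonal] at h1
    have h2 := right_ne_zero_of_mul h1
    rw [Finset.prod_ne_zero_iff] at h2
    exact h2 ⟨0, Nat.pos_of_ne_zero hN⟩ (Finset.mem_univ _)
  have hCu : IsUnit (d k).C.det := isUnit_iff_ne_zero.2 hCd
  have h2 : ∀ i, fl (ib (r₀ := r₀) i ((d k).C * Y i * (d k).C⁻¹)) ∈ LL ((d k).S l) := by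
    intro i
    have h4 := hk i _ (hY i)
    have h5 : ib (r₀ := r₀) i ((d k).C * Y i * (d k).C⁻¹) = (Cb (d k).C₀ (d k).C : Matrix (Ix r₀ n N) (Ix r₀ n N) ℂ) * ib i (Y i) * (Cb (d k).C₀ (d k).C)⁻¹ := by
      have h6 : IsUnit (Cb (d k).C₀ (d k).C : Matrix (Ix r₀ n N) (Ix r₀ n N) ℂ).det := isUnit_iff_ne_zero.2 (hdet k l).1
      have h7 : ib (r₀ := r₀) i ((d k).C * Y i * (d k).C⁻¹) * (Cb (d k).C₀ (d k).C : Matrix (Ix r₀ n N) (Ix r₀ n N) ℂ) = Cb (d k).C₀ (d k).C * ib i (Y i) := by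
        unfold Cb
        rw [ib_apply, ib_apply, fromBlocks_multiply, fromBlocks_multiply, ← blockDiagonal_mul, ← blockDiagonal_mul]
        have h9 : (fun j => (Pi.single i ((d k).C * Y i * (d k).C⁻¹) : Fin N → Matrix (Fin n) (Fin n) ℂ) j * (d k).C) =
            fun j => (d k).C * (Pi.single i (Y i) : Fin N → Matrix (Fin n) (Fin n) ℂ) j := by
          funext j
          by_cases hj : j = i
          · subst hj
            rw [Pi.single_eq_same, Pi.single_eq_same, Matrix.nonsing_inv_mul_cancel_right _ _ hCu]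
          · rw [Pi.single_eq_of_ne hj, Pi.single_eq_of_ne hj, Matrix.zero_mul, Matrix.mul_zero]
        rw [h9]
        simp
      rw [← h7, Matrix.mul_nonsing_inv_cancel_right _ _ h6]
    rw [h5]
    exact h4
  have h3 : fl (∑ i, ib (r₀ := r₀) i ((d k).C * Y i * (d k).C⁻¹)) ∈ LL ((d k).S l) := by
    have h4 : ∀ s : Finset (Fin N), fl (∑ i ∈ s, ib (r₀ := r₀) i ((d k).C * Y i * (d k).C⁻¹)) ∈ LL ((d k).S l) := by
      intro s
      induction s using Finset.induction_on with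
      | empty =>
        rw [Finset.sum_empty, fl_zero]
        exact (LL ((d k).S l)).zero_mem
      | insert a s ha ih =>
        rw [Finset.sum_insert ha, fl_add]
        exact (LL ((d k).S l)).add_mem (h2 a) ih
    exact h4 _
  rw [sum_ib (fun i => (d k).C * Y i * (d k).C⁻¹)] at h3
  have h4 := exp_stab ((hd k).tor l) h3 hx
  rw [exp_Zm] at h4
  exact h4

end Pool.Agent.H885
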