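import Pool.Agent.H885.GN
import Pool.Agent.H885.UnifQ
import Pool.Graph.R_seed8.Y119.J.Gen

/-!
# Independence of the words of a system with nilpotent residues over the functions which are holomorphic in a disc
-/

set_option autoImplicit false
set_option linter.unusedSectionVars false
set_option linter.unusedVariables false

open PowerSeries Matrix
open scoped Kronecker

namespace Pool.Agent.H885

open Pool.Agent.Y113
open Pool.Agent.Y120.GH (cx cx_ps cx_der Cw ou Disc QU AT A1 qu_tens qu_one tens_der AT_map disc_of_qu det_ne_of_mul C_mem coeff_cx)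
open Pool.Agent.Y119.HZ (A3 sum_A3 ode_A3 Phj Phj_coeff Phj_ode cxR cxR_apply rho psR psR_apply)
open Pool.Agent.Y119.HY (cm)

variable {n N : ℕ}

section qu
variable {ρ : ℝ} {T : Fin N → Polynomial ℤ} {A : Fin N → Fin n → Fin n → Polynomial ℤ} {R : Fin N → Matrix (Fin n) (Fin n) ℤ}
  {Z W : Fin N → Matrix (Fin n) (Fin n) ℚ⟦X⟧}

/-- the matrix of the system of all entries -/
noncomputable def AN (T : Fin N → Polynomial ℤ) (A : Fin N → Fin n → Fin n → Polynomial ℤ) (R : Fin N → Matrix (Fin n) (Fin n) ℤ)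
    (σ τ : Fin N × Fin n × Fin n) : Polynomial ℤ :=
  if σ.1 = τ.1 then (∏ j ∈ Finset.univ.erase σ.1, Polynomial.X * T j) *
    A3 (T σ.1) (fun i k => A σ.1 k i) (fun i j => R σ.1 j i) σ.2.swap τ.2.swap else 0

/-- the fundamental matrix -/
noncomputable def FN (R : Fin N → Matrix (Fin n) (Fin n) ℤ) (Z : Fin N → Matrix (Fin n) (Fin n) ℚ⟦X⟧) :
    Matrix (Fin N × Fin n × Fin n) (Fin N × Fin n × Fin n) (Polynomial (PowerSeries ℂ)) := fun σ τ =>
  if σ.1 = τ.1 then Phj (Z σ.1)ᵀ (resQ (R σ.1)) σ.2.swap τ.2.swap else 0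

lemma cxR_X : cxR Polynomial.X = (X : PowerSeries ℂ) := by
  rw [cxR_apply, Polynomial.map_X, Polynomial.coe_X]

/-- the differential equations in the form of the entries of the transposed matrix -/
lemma odeT {T : Polynomial ℤ} {A : Fin n → Fin n → Polynomial ℤ} {R : Matrix (Fin n) (Fin n) ℤ} {Z : Matrix (Fin n) (Fin n) ℚ⟦X⟧}
    (h : ∀ a b, ps T * (X * d⁄dX ℚ (Z a b) + ∑ c, C (R a c : ℚ) * Z c b) = ∑ l, Z a l * ps (A l b)) (i j : Fin n) :
    ps T * (X * d⁄dX ℚ (Zᵀ i j) + ∑ k, Zᵀ i k * C (resQ R k j)) =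
      ∑ k, ps ((fun i k => A k i) i k) * Zᵀ k j := by
  have h1 := h j i
  have h2 : ∑ k, Zᵀ i k * C (resQ R k j) = ∑ k, C (R j k : ℚ) * Z k i :=
    Finset.sum_congr rfl fun k _ => mul_comm _ _
  have h3 : ∑ k, ps ((fun i k => A k i) i k) * Zᵀ k j = ∑ k, Z j k * ps (A k i) :=
    Finset.sum_congr rfl fun k _ => mul_comm _ _
  rw [h2, h3, ← h1]
  rfl

/-- the equations of the entries -/
theorem sum_AN (σ : Fin N × Fin n × Fin n) (f : Fin N × Fin n × Fin n → PowerSeries ℂ) :
    ∑ τ, cxR (AN T A R σ τ) * f τ = cxR (∏ j ∈ Finset.univ.erase σ.1, Polynomial.X * T j) *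
      ∑ q : Fin n × Fin n, cxR (A3 (T σ.1) (fun i k => A σ.1 k i) (fun i j => R σ.1 j i) σ.2.swap q) * f (σ.1, q.swap) := by
  rw [Fintype.sum_prod_type, Finset.sum_eq_single σ.1]
  · rw [Finset.mul_sum, ← Equiv.sum_comp (Equiv.prodComm (Fin n) (Fin n))]
    refine Finset.sum_congr rfl fun l _ => ?_
    unfold AN
    rw [if_pos rfl, map_mul, mul_assoc]
    rfl
  · intro j _ hj
    refine Finset.sum_eq_zero fun l _ => ?_
    unfold AN
    rw [if_neg (fun h => hj h.symm), map_zero, zero_mul]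
  · intro h
    exact absurd (Finset.mem_univ _) h

lemma FN_det (hinv : ∀ j, W j * Z j = 1) (hnil : ∀ j, R j ^ n = 0) : (FN R Z).det ≠ 0 := by
  classical
  -- the blocks
  have h1 : ∀ j, (Matrix.of fun p q : Fin n × Fin n => Phj (Z j)ᵀ (resQ (R j)) p.swap q.swap).det ≠ 0 := by
    intro j h0
    have h2 : (Matrix.of fun p q : Fin n × Fin n => Phj (Z j)ᵀ (resQ (R j)) p q).det = 0 := by
      rw [← h0]
      exact (Matrix.det_submatrix_equiv_self (Equiv.prodComm (Fin n) (Fin n))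
        (Matrix.of fun p q : Fin n × Fin n => Phj (Z j)ᵀ (resQ (R j)) p q)).symm
    have h3 := congrArg rho h2
    rw [RingHom.map_det, map_zero] at h3
    set z : Matrix (Fin n) (Fin n) ℂ := Matrix.of fun a b => constantCoeff (cx ((Z j)ᵀ a b)) with hz
    set w : Matrix (Fin n) (Fin n) ℂ := Matrix.of fun a b => constantCoeff (cx ((W j)ᵀ a b)) with hw
    have h4 : rho.mapMatrix (Matrix.of fun p q : Fin n × Fin n => Phj (Z j)ᵀ (resQ (R j)) p q) = z ⊗ₖ 1 := by
      have hN : cm (resQ (R j)) ^ n = 0 := by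
        rw [← Pool.Agent.Y119.HY.cm_pow, resQ_pow (hnil j), Pool.Agent.Y119.HY.cm_zero]
      have hN' : (-cm (resQ (R j))) ^ n = 0 := by rw [neg_pow, hN, mul_zero]
      ext1 p q
      rw [RingHom.mapMatrix_apply, Matrix.map_apply, Matrix.of_apply, Matrix.kroneckerMap_apply]
      unfold Phj
      rw [map_sum]
      have h5 : ∀ c, rho (Polynomial.C (cx ((Z j)ᵀ p.1 c)) *
          (Pool.Agent.Y119.HZ.pE (cm (resQ (R j))) c q.1 q.2 p.2).map (C (R := ℂ))) =
          constantCoeff (cx ((Z j)ᵀ p.1 c)) * ((if c = q.1 then 1 else 0) * (if q.2 = p.2 then 1 else 0)) := by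
        intro c
        unfold rho
        rw [map_mul, RingHom.comp_apply, RingHom.comp_apply, Polynomial.coe_evalRingHom, Polynomial.eval_C]
        congr 1
        have h3 : Polynomial.eval 0 ((Pool.Agent.Y119.HZ.pE (cm (resQ (R j))) c q.1 q.2 p.2).map (C (R := ℂ))) =
            C ((Pool.Agent.Y119.HZ.pE (cm (resQ (R j))) c q.1 q.2 p.2).eval 0) := by
          have := Polynomial.eval_map_apply (p := Pool.Agent.Y119.HZ.pE (cm (resQ (R j))) c q.1 q.2 p.2) (C (R := ℂ)) 0
          rw [map_zero] at this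
          exact this
        rw [h3]
        unfold Pool.Agent.Y119.HZ.pE
        rw [Polynomial.eval_mul, Pool.Agent.Y119.HZ.Ep_eval_zero hN, Pool.Agent.Y119.HZ.Ep_eval_zero hN']
        simp
      simp only [h5]
      rw [Finset.sum_eq_single q.1]
      · rw [if_pos rfl, one_mul, Matrix.one_apply]
        simp only [hz, Matrix.of_apply]
        by_cases h6 : q.2 = p.2
        · rw [if_pos h6, if_pos h6.symm]
        · rw [if_neg h6, if_neg fun h => h6 h.symm]
      · intro c _ hc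
        rw [if_neg hc, zero_mul, mul_zero]
      · intro h
        exact absurd (Finset.mem_univ _) h
    have h5 : z * w = 1 := by
      have h6 : (Z j)ᵀ * (W j)ᵀ = 1 := by rw [← Matrix.transpose_mul, hinv, Matrix.transpose_one]
      let f : ℚ⟦X⟧ →+* ℂ := (constantCoeff (R := ℂ)).comp cx
      have h7 := congrArg f.mapMatrix h6
      rw [map_mul, map_one] at h7
      exact h7
    have h6 : (z ⊗ₖ (1 : Matrix (Fin n) (Fin n) ℂ)) * (w ⊗ₖ (1 : Matrix (Fin n) (Fin n) ℂ)) = 1 := by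
      rw [← Matrix.mul_kronecker_mul, h5, Matrix.one_mul, Matrix.one_kronecker_one]
    rw [h4] at h3
    have h7 := congrArg Matrix.det h6
    rw [Matrix.det_mul, h3, zero_mul, Matrix.det_one] at h7
    exact zero_ne_one h7
  have h2 : FN R Z = (Matrix.blockDiagonal fun j => Matrix.of fun p q : Fin n × Fin n =>
      Phj (Z j)ᵀ (resQ (R j)) p.swap q.swap).submatrix (Equiv.prodComm (Fin N) (Fin n × Fin n))
        (Equiv.prodComm (Fin N) (Fin n × Fin n)) := by
    ext1 σ τ
    rw [Matrix.submatrix_apply, Matrix.blockDiagonal_apply]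
    unfold FN
    rfl
  rw [h2, Matrix.det_submatrix_equiv_self, Matrix.det_blockDiagonal]
  exact Finset.prod_ne_zero_iff.2 fun j _ => h1 j

theorem qu_sysN (hode : ∀ j a b, ps (T j) * (X * d⁄dX ℚ (Z j a b) + ∑ c, C (R j a c : ℚ) * Z j c b) =
      ∑ l, Z j a l * ps (A j l b)) (hinv : ∀ j, W j * Z j = 1) (hnil : ∀ j, R j ^ n = 0)
    (hmem : ∀ j a b, cx (Z j a b) ∈ Cw ρ) :
    QU one_ne_zero ρ ((∏ j, Polynomial.X * T j).map (Int.castRingHom ℂ))
      (fun σ τ => (AN T A R σ τ).map (Int.castRingHom ℂ)) := by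
  classical
  have hNz : ∀ j (a b : Fin n), (((fun i j' => R j j' i) a b : ℤ) : ℚ) = resQ (R j) a b := fun j a b => rfl
  refine ⟨0, FN R Z, fun σ τ k => ?_, fun σ τ k => ?_, FN_det hinv hnil⟩
  · unfold FN
    split_ifs
    · rw [Phj_coeff]
      exact (Cw ρ).sum_mem fun c _ => (Cw ρ).mul_mem (hmem _ _ _) (C_mem _)
    · rw [Polynomial.coeff_zero]
      exact (Cw ρ).zero_mem
  · simp only [expand_one_apply, Nat.cast_one, one_mul, pow_one, Nat.cast_zero, zero_mul, sub_zero]
    simp only [← cxR_apply]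
    rw [sum_AN]
    by_cases hc : σ.1 = τ.1
    · have h1 := Phj_ode (resQ_pow (hnil σ.1)) (hNz σ.1) (odeT (hode σ.1)) σ.2.swap τ.2.swap k
      have h2 : ∀ q : Fin n × Fin n, (FN R Z (σ.1, q.swap) τ).coeff k =
          (Phj (Z σ.1)ᵀ (resQ (R σ.1)) q τ.2.swap).coeff k := by
        intro q
        unfold FN
        rw [if_pos hc, Prod.swap_swap]
      simp only [h2]
      rw [← h1, ← Finset.prod_erase_mul _ _ (Finset.mem_univ σ.1), map_mul, map_mul cxR Polynomial.X, cxR_X]
      have h3 : ∀ k, (FN R Z σ τ).coeff k = (Phj (Z σ.1)ᵀ (resQ (R σ.1)) σ.2.swap τ.2.swap).coeff k := by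
        intro k
        unfold FN
        rw [if_pos hc]
      rw [h3, h3]
      ring
    · have h2 : ∀ q : Fin n × Fin n, (FN R Z (σ.1, q.swap) τ).coeff k = 0 := by
        intro q
        unfold FN
        rw [if_neg hc, Polynomial.coeff_zero]
      have h3 : ∀ k, (FN R Z σ τ).coeff k = 0 := by
        intro k
        unfold FN
        rw [if_neg hc, Polynomial.coeff_zero]
      simp only [h2, h3, mul_zero, Finset.sum_const_zero, map_zero, add_zero]

/-- **the words are independent over the functions which are holomorphic in a disc** -/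
theorem disc_wdN {ρ' : ℝ} (hρ : 0 < ρ) (hρ' : 0 < ρ') (hT : ∀ j, T j ≠ 0)
    (hode : ∀ j a b, ps (T j) * (X * d⁄dX ℚ (Z j a b) + ∑ c, C (R j a c : ℚ) * Z j c b) =
      ∑ l, Z j a l * ps (A j l b)) (hinv : ∀ j, W j * Z j = 1) (hnil : ∀ j, R j ^ n = 0)
    (hmem : ∀ j a b, cx (Z j a b) ∈ Cw ρ) {δ : ℕ} (S : Set (Fin δ → Option (Fin N × Fin n × Fin n))) [Fintype S]
    (hLI : ∀ G : S → Polynomial ℂ, ∑ i, (G i : PowerSeries ℂ) * wd (fun σ => cx (ent Z σ)) i.1 = 0 → ∀ i, G i = 0) :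
    Disc ρ ρ' fun b : S => wd (fun σ => cx (ent Z σ)) b.1 := by
  classical
  have hNz : ∀ j (a b : Fin n), (((fun i j' => R j j' i) a b : ℤ) : ℚ) = resQ (R j) a b := fun j a b => rfl
  set y : Fin N × Fin n × Fin n → PowerSeries ℂ := fun σ => cx (ent Z σ) with hy
  set Tt : Polynomial ℤ := ∏ j, Polynomial.X * T j with hTt
  set Ac : Fin N × Fin n × Fin n → Fin N × Fin n × Fin n → Polynomial ℂ :=
    fun σ τ => (AN T A R σ τ).map (Int.castRingHom ℂ) with hAc
  have hQU := qu_tens one_ne_zero δ (qu_one one_ne_zero (qu_sysN hode hinv hnil hmem))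
  have hTt0 : Tt ≠ 0 := Finset.prod_ne_zero_iff.2 fun j _ => mul_ne_zero Polynomial.X_ne_zero (hT j)
  have hTc0 : Tt.map (Int.castRingHom ℂ) ≠ 0 := (Polynomial.map_ne_zero_iff (Int.castRingHom ℂ).injective_int).2 hTt0
  have hmem' : ∀ b : Fin δ → Option (Fin N × Fin n × Fin n), wd y b ∈ Cw (ρ ^ 1) := by
    intro b
    rw [pow_one]
    refine (Cw ρ).prod_mem fun l _ => ?_
    rcases b l with _ | σ
    · exact (Cw ρ).one_mem
    · exact hmem _ _ _
  have hodeC : ∀ σ, ((Tt.map (Int.castRingHom ℂ) : Polynomial ℂ) : PowerSeries ℂ) * PowerSeries.derivative ℂ (y σ) =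
      ∑ τ, (Ac σ τ : PowerSeries ℂ) * y τ := by
    intro σ
    have h1 : ∑ τ, (Ac σ τ : PowerSeries ℂ) * y τ = ∑ τ, cxR (AN T A R σ τ) * y τ :=
      Finset.sum_congr rfl fun τ _ => by rw [cxR_apply]
    rw [h1, sum_AN, ← cxR_apply]
    have h4 := congrArg cx (ode_A3 (hNz σ.1) (odeT (hode σ.1)) σ.2.swap)
    rw [map_mul, map_sum, cx_der, cx_ps, ← cxR_apply] at h4
    have h5 : ∑ q : Fin n × Fin n, cxR (A3 (T σ.1) (fun i k => A σ.1 k i) (fun i j => R σ.1 j i) σ.2.swap q) * y (σ.1, q.swap) =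
        cxR (Polynomial.X * T σ.1) * PowerSeries.derivative ℂ (y σ) := by
      refine Eq.trans ?_ h4.symm
      refine Finset.sum_congr rfl fun q _ => ?_
      rw [map_mul, cx_ps, ← cxR_apply]
      rfl
    rw [h5, hTt, ← Finset.prod_erase_mul _ _ (Finset.mem_univ σ.1), map_mul, mul_assoc]
  have hodeT : ∀ b : Fin δ → Option (Fin N × Fin n × Fin n), ((Tt.map (Int.castRingHom ℂ) : Polynomial ℂ) : PowerSeries ℂ) *
      PowerSeries.derivative ℂ (wd y b) = ∑ b', ((AT (δ := δ) (A1 Ac) b b' : Polynomial ℂ) : PowerSeries ℂ) * wd y b' := by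
    intro b
    have h1 := tens_der (δ := δ) (fun f : PowerSeries ℂ => PowerSeries.derivative ℂ f) (Derivation.map_one_eq_zero _)
      (fun f g => by
        rw [Derivation.leibniz]
        rfl) ((Tt.map (Int.castRingHom ℂ) : Polynomial ℂ) : PowerSeries ℂ) 0
      (fun i l : Option (Fin N × Fin n × Fin n) => ((A1 Ac i l : Polynomial ℂ) : PowerSeries ℂ))
      (fun _ o => o.elim 1 y) (fun j o => by
        rw [zero_mul, zero_add, Fintype.sum_option]
        rcases o with _ | i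
        · show _ * PowerSeries.derivative ℂ 1 = ((0 : Polynomial ℂ) : PowerSeries ℂ) * _ +
            ∑ j, ((0 : Polynomial ℂ) : PowerSeries ℂ) * _
          rw [Derivation.map_one_eq_zero]
          simp
        · show _ = ((0 : Polynomial ℂ) : PowerSeries ℂ) * _ + ∑ j, (Ac i j : PowerSeries ℂ) * y j
          rw [← hodeC i]
          simp) b
    refine h1.trans ?_
    rw [mul_zero, zero_mul, zero_add]
    refine Finset.sum_congr rfl fun b' _ => ?_
    have h2 : AT (δ := δ) (fun i l => ((A1 Ac i l : Polynomial ℂ) : PowerSeries ℂ)) b b' =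
        ((AT (δ := δ) (A1 Ac) b b' : Polynomial ℂ) : PowerSeries ℂ) := by
      let f : Polynomial ℂ →+ PowerSeries ℂ := (Polynomial.coeToPowerSeries.ringHom (R := ℂ)).toAddMonoidHom
      exact (AT_map f (A1 Ac) b b').symm
    rw [h2]
    rfl
  have h := disc_of_qu one_ne_zero hρ hρ' (fun b => wd y b) hmem' _ hTc0 _ hodeT hQU S hLI
  rw [pow_one, pow_one] at h
  exact h

end qu

/-- the differential equations of the parts of the family -/
lemma partN_ode {T : Fin N → Polynomial ℤ} {A : Fin N → Fin n → Fin n → Polynomial ℤ} {R : Fin N → Matrix (Fin n) (Fin n) ℤ}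
    {Z : Fin N → Matrix (Fin n) (Fin n) ℚ⟦X⟧}
    (h : ∀ j a b, ps (T j) * (X * d⁄dX ℚ (Z j a b) + ∑ c, C (R j a c : ℚ) * Z j c b) = ∑ l, Z j a l * ps (A j l b))
    (g : Fin N → ℕ) (γ : ℕ) (j : Fin N) (a b : Fin n) :
    ps (T j) * (X * d⁄dX ℚ (part g Z γ j a b) + ∑ c, C ((if g j = γ then R j else 0 : Matrix (Fin n) (Fin n) ℤ) a c : ℚ) *
      part g Z γ j c b) = ∑ l, part g Z γ j a l * ps ((if g j = γ then A j else 0) l b) := by
  unfold part
  by_cases hj : g j = γ
  · simp only [if_pos hj]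
    exact h j a b
  · simp only [if_neg hj]
    have h1 : d⁄dX ℚ ((1 : Matrix (Fin n) (Fin n) ℚ⟦X⟧) a b) = 0 := by
      rw [Matrix.one_apply]
      split_ifs
      · exact Derivation.map_one_eq_zero _
      · exact map_zero _
    have h2 : ps (0 : Polynomial ℤ) = 0 := by
      unfold ps
      simp
    rw [h1, mul_zero, zero_add, Finset.sum_eq_zero, mul_zero, Finset.sum_eq_zero]
    · intro l _
      show _ * ps (0 : Polynomial ℤ) = 0
      rw [h2, mul_zero]
    · intro c _
      simp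

lemma partN_nil {R : Fin N → Matrix (Fin n) (Fin n) ℤ} (h : ∀ j, R j ^ n = 0) (g : Fin N → ℕ) (γ : ℕ) (j : Fin N) :
    (if g j = γ then R j else 0 : Matrix (Fin n) (Fin n) ℤ) ^ n = 0 := by
  split_ifs
  · exact h j
  · rcases Nat.eq_zero_or_pos n with h0 | h0
    · subst h0
      exact Subsingleton.elim _ _
    · exact zero_pow h0.ne'

end Pool.Agent.H885
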