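import Pool.Agent.H885.FewQ
import Pool.Agent.H885.OutC

/-!
# Few periods for tuples of matrices
-/

set_option autoImplicit false
set_option linter.unusedSectionVars false
set_option linter.unusedVariables false

open Matrix Module Filter

namespace Pool.Agent.H885

open Pool.Agent.Helper880_R3 hiding core final
open Pool.Agent.Helper880_LF.NB hiding alg_core
open Pool.Agent.Y118.UL (mk mk_eq mk_eq_zero mk_ne_zero mk_surj ev_ge eval_mk rep qc qc_mk algebraMap_eq U)
open Pool.Agent.TH119.DR Pool.Agent.TH119.MX Pool.Agent.TH127.PT Pool.Agent.Y123.ST Pool.Agent.Y123.GN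

/-- few periods, for several matrices -/
def FewS (s e : ℕ) {r₀ n N : ℕ} (C₀ : Matrix (Fin r₀) (Fin r₀) ℂ) (C : Fin N → Matrix (Fin n) (Fin n) ℂ) : Prop :=
  ∃ (b : Fin s → ℂ) (κ : ℂ), κ ≠ 0 ∧ (∀ i j, AlgD e b (κ * C₀ i j)) ∧ ∀ l i j, AlgD e b (κ * C l i j)

variable {n N r₀ : ℕ}

/-- **the space of the logarithmic derivatives of a sequence of matrices with few periods is small** -/
theorem few_seqS {s e : ℕ} {C₀ : ℕ → Matrix (Fin r₀) (Fin r₀) ℂ} {C : ℕ → Fin N → Matrix (Fin n) (Fin n) ℂ}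
    (hdet : ∀ k, (Tot (C₀ k) (C k)).det ≠ 0) (h : ∀ k, FewS s e (C₀ k) (C k)) :
    ∃ 𝒩 : Submodule (U ℂ) (Matrix (Ix r₀ n N) (Ix r₀ n N) (U ℂ)), (1 : Matrix (Ix r₀ n N) (Ix r₀ n N) (U ℂ)) ∈ 𝒩 ∧
      finrank (U ℂ) 𝒩 ≤ s + 1 ∧ ∀ δ : Derivation (U ℚ) (U ℂ) (U ℂ),
        (gm fun k => Tot (C₀ k) (C k))⁻¹ * dm δ (gm fun k => Tot (C₀ k) (C k)) ∈ 𝒩 := by
  classical
  choose b κ hκ h1 h2 using h
  set C' : ℕ → Matrix (Ix r₀ n N) (Ix r₀ n N) ℂ := fun k => κ k • Tot (C₀ k) (C k) with hC'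
  have hC'd : ∀ k, (C' k).det ≠ 0 := by
    intro k
    rw [hC']
    simp only
    rw [Matrix.det_smul]
    exact mul_ne_zero (pow_ne_zero _ (hκ k)) (hdet k)
  set Cs : Matrix (Ix r₀ n N) (Ix r₀ n N) (U ℂ) := gm C' with hCs
  have hCu : IsUnit Cs.det := gm_unit hC'd
  let R : Derivation (U ℚ) (U ℂ) (U ℂ) →ₗ[U ℂ] (Fin s → U ℂ) :=
    { toFun := fun δ i => δ (mk ℂ fun k => b k i)
      map_add' := fun δ δ' => rfl
      map_smul' := fun z δ => rfl }
  let E : Derivation (U ℚ) (U ℂ) (U ℂ) →ₗ[U ℂ] Matrix (Ix r₀ n N) (Ix r₀ n N) (U ℂ) :=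
    { toFun := fun δ => Cs⁻¹ * dm δ Cs
      map_add' := fun δ δ' => by
        have h1 : dm (δ + δ') Cs = dm δ Cs + dm δ' Cs := by
          refine Matrix.ext fun i j => ?_
          simp [dm]
        rw [h1, Matrix.mul_add]
      map_smul' := fun z δ => by
        have h1 : dm (z • δ) Cs = z • dm δ Cs := by
          refine Matrix.ext fun i j => ?_
          simp [dm]
        rw [h1, Matrix.mul_smul]
        rfl }
  have hzero : ∀ δ : Derivation (U ℚ) (U ℂ) (U ℂ), δ (mk ℂ fun _ => 0) = 0 := by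
    intro δ
    have : (mk ℂ fun _ => (0 : ℂ)) = 0 := map_zero (mk ℂ)
    rw [this, map_zero]
  have hker : LinearMap.ker R ≤ LinearMap.ker E := by
    intro δ hδ
    rw [LinearMap.mem_ker] at hδ ⊢
    have hδ' : ∀ i, δ (mk ℂ fun k => b k i) = 0 := fun i => congrFun hδ i
    have h2 : dm δ Cs = 0 := by
      refine Matrix.ext fun i j => ?_
      show δ (mk ℂ fun k => C' k i j) = 0
      rcases i with i | ⟨i, a⟩ <;> rcases j with j | ⟨j, a'⟩
      · exact der_algD (fun k => h1 k i j) hδ'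
      · have h3 : (fun k => C' k (Sum.inl i) (Sum.inr (j, a'))) = fun _ => 0 := by
          funext k
          show κ k * 0 = 0
          rw [mul_zero]
        rw [h3]
        exact hzero δ
      · have h3 : (fun k => C' k (Sum.inr (i, a)) (Sum.inl j)) = fun _ => 0 := by
          funext k
          show κ k * 0 = 0
          rw [mul_zero]
        rw [h3]
        exact hzero δ
      · by_cases ha : a = a'
        · subst ha
          have h3 : (fun k => C' k (Sum.inr (i, a)) (Sum.inr (j, a))) = fun k => κ k * C k a i j := by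
            funext k
            show κ k * blockDiagonal (C k) (i, a) (j, a) = _
            rw [blockDiagonal_apply, if_pos rfl]
          rw [h3]
          exact der_algD (fun k => h2 k a i j) hδ'
        · have h3 : (fun k => C' k (Sum.inr (i, a)) (Sum.inr (j, a'))) = fun _ => 0 := by
            funext k
            show κ k * blockDiagonal (C k) (i, a) (j, a') = _
            rw [blockDiagonal_apply, if_neg ha, mul_zero]
          rw [h3]
          exact hzero δ
    show Cs⁻¹ * dm δ Cs = 0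
    rw [h2, Matrix.mul_zero]
  obtain ⟨hfd, hle⟩ := rank_le R E hker
  refine ⟨Submodule.span (U ℂ) {1} ⊔ LinearMap.range E, Submodule.mem_sup_left (Submodule.mem_span_singleton_self _), ?_, ?_⟩
  · have h1 := Submodule.finrank_add_le_finrank_add_finrank
      (Submodule.span (U ℂ) {(1 : Matrix (Ix r₀ n N) (Ix r₀ n N) (U ℂ))}) (LinearMap.range E)
    have h2 : finrank (U ℂ) (Submodule.span (U ℂ) {(1 : Matrix (Ix r₀ n N) (Ix r₀ n N) (U ℂ))}) ≤ 1 := by
      have := finrank_span_le_card (R := U ℂ) ({1} : Set (Matrix (Ix r₀ n N) (Ix r₀ n N) (U ℂ)))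
      simpa using this
    rw [Module.finrank_fin_fun] at hle
    omega
  · intro δ
    have hκ0 : mk ℂ κ ≠ 0 := mk_ne_zero.2 (Filter.Eventually.of_forall hκ)
    have h1 : (gm fun k => Tot (C₀ k) (C k)) = (mk ℂ κ)⁻¹ • Cs := by
      have h3 : Cs = mk ℂ κ • gm fun k => Tot (C₀ k) (C k) := gm_smul κ _
      rw [h3, smul_smul, inv_mul_cancel₀ hκ0, one_smul]
    have hz : (mk ℂ κ)⁻¹ ≠ 0 := inv_ne_zero hκ0
    rw [h1, dm_smul]
    have h2 : ((mk ℂ κ)⁻¹ • Cs)⁻¹ = mk ℂ κ • Cs⁻¹ := by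
      refine Matrix.inv_eq_right_inv ?_
      rw [Matrix.smul_mul, Matrix.mul_smul, smul_smul, inv_mul_cancel₀ hκ0, one_smul, Matrix.mul_nonsing_inv _ hCu]
    rw [h2, Matrix.mul_add, Matrix.mul_smul, Matrix.smul_mul, Matrix.mul_smul, Matrix.smul_mul,
      Matrix.nonsing_inv_mul _ hCu, smul_smul, smul_smul, inv_mul_cancel₀ hκ0, one_smul]
    exact Submodule.add_mem _ (Submodule.mem_sup_left (Submodule.smul_mem _ _ (Submodule.mem_span_singleton_self _)))
      (Submodule.mem_sup_right ⟨δ, rfl⟩)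

end Pool.Agent.H885
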