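import Pool.Agent.H885.UnifQ
import Pool.Agent.H885.FewS
import Pool.Agent.H885.CoreT

/-!
# Several tuples of points with different denominators, the constants depend on the tuples
-/

set_option autoImplicit false
set_option linter.unusedSectionVars false
set_option linter.unusedVariables false

open Matrix Module Filter PowerSeries

namespace Pool.Agent.H885

open Pool.Agent.Y113 (ev Cv GSys ps)
open Pool.Agent.Y118.HV (Hv hh)
open Pool.Agent.Y120.GH (cx cx_mem Cw sf ou_shift ou_ev)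
open Pool.Agent.Helper880_R3 hiding core final
open Pool.Agent.Helper880_LF.NB hiding alg_core
open Pool.Agent.Y118.UL (mk mk_eq mk_eq_zero mk_ne_zero mk_surj ev_ge eval_mk rep qc qc_mk algebraMap_eq U)
open Pool.Agent.TH119.DR Pool.Agent.TH119.MX Pool.Agent.TH127.PT Pool.Agent.Y123.ST Pool.Agent.Y123.GN

variable {n N r₀ L M s ℓ : ℕ}

/-- the data for several tuples of points -/
structure DatT (L n N r₀ s ℓ : ℕ) where
  bs : Fin s → ℂ
  cs : Fin L → Fin ℓ → ℂ
  κ : Fin L → ℂ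
  C₀ : Fin L → Matrix (Fin r₀) (Fin r₀) ℂ
  C : Fin L → Fin N → Matrix (Fin n) (Fin n) ℂ
  H : ℝ
  T : Fin L → Fin N → Polynomial ℤ
  B : Fin L → Fin N → Fin n → Fin n → Polynomial ℤ
  Z : Fin L → Fin N → Matrix (Fin n) (Fin n) ℚ⟦X⟧
  W : Fin L → Fin N → Matrix (Fin n) (Fin n) ℚ⟦X⟧
  ρ : ℝ
  w : ℕ
  b₀ : ℕ
  b : Fin L → Fin N → ℕ
  𝔤 : Fin L → Fin N → Submodule ℂ (Matrix (Fin n) (Fin n) ℂ)
  K : Fin L → Subfield ℂ
  S : Fin L → Set (Matrix (Ix r₀ n N) (Ix r₀ n N) ℂ)

/-- the conditions -/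
structure DatT.OK (q D r e E : ℕ) (d : DatT L n N r₀ s ℓ) : Prop where
  κ_ne : ∀ l, d.κ l ≠ 0
  few₀ : ∀ l i j, AlgD e (Fin.append d.bs (d.cs l)) (d.κ l * d.C₀ l i j)
  few : ∀ l a i j, AlgD e (Fin.append d.bs (d.cs l)) (d.κ l * d.C l a i j)
  one_le : 1 ≤ d.H
  sys : ∀ l j, Sys (N := 1) q d.H (d.T l j) (fun _ => d.B l j) (fun _ => d.Z l j) (fun _ => d.W l j)
  T_ne : ∀ l j, d.T l j ≠ 0
  ρ_pos : 0 < d.ρ
  mem : ∀ l j a b, cx (d.Z l j a b) ∈ Cw d.ρ
  b_mem : ∀ l j, d.b₀ ≤ d.b l j ∧ d.b l j ≤ d.b₀ + d.w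
  sep : ∀ l j l' j', ¬ (l = l' ∧ d.b l j = d.b l' j') → 2 * d.ρ < |(d.b l j : ℝ) - d.b l' j'|
  big : (2 * d.H * ((d.w : ℝ) + d.ρ + 2)) ^ E ≤ (d.b₀ : ℝ)
  lie : ∀ l j, IsLie (d.𝔤 l j)
  cf : ∀ l j, CF (d.𝔤 l j)
  cod : ∀ l j, Cod r (d.𝔤 l j)
  inf : ∀ l, ∀ X : Fin N → Matrix (Fin n) (Fin n) ℂ, (∀ j, X j ∈ d.𝔤 l j) → ∀ β,
    InfT (part (d.b l) (d.Z l) β) (fun j => if d.b l j = β then X j else 0)
  fd : ∀ l, FiniteDimensional ℚ (d.K l)
  deg : ∀ l, finrank ℚ (d.K l) ≤ D
  tor : ∀ l, IsSubtorsor (d.K l) (d.S l)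
  mem_tor : ∀ l, fromBlocks (d.C₀ l) 0 0 (blockDiagonal fun j => d.C l j * Hv (d.Z l j) (d.b l j)) ∈ d.S l

/-- **One of several separated tuples is not exceptional.** -/
theorem uniformT (n N q D r₀ s e r ℓ L : ℕ) (hn : 0 < n) (hLr : s + L * ℓ < L * (r + 1)) : ∃ E : ℕ, ∀ d : DatT L n N r₀ s ℓ,
    d.OK q D r e E → ∃ l, ∀ Y : Fin N → Matrix (Fin n) (Fin n) ℂ, (∀ j, Y j ∈ d.𝔤 l j) → ∀ x ∈ d.S l,
      Zm (fun j => NormedSpace.exp (d.C l j * Y j * (d.C l j)⁻¹)) * x ∈ d.S l := by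
  classical
  by_contra hcon
  simp only [not_exists] at hcon
  have h1 : ∀ k : ℕ, ∃ d : DatT L n N r₀ s ℓ, d.OK q D r e k ∧
      ∀ l, ¬ ∀ Y : Fin N → Matrix (Fin n) (Fin n) ℂ, (∀ j, Y j ∈ d.𝔤 l j) → ∀ x ∈ d.S l,
        Zm (fun j => NormedSpace.exp (d.C l j * Y j * (d.C l j)⁻¹)) * x ∈ d.S l := by
    intro k
    have h2 := hcon k
    push Not at h2
    obtain ⟨d, hd1, hd2⟩ := h2
    refine ⟨d, hd1, fun l hl => ?_⟩
    obtain ⟨Y, hY, x, hx, hx2⟩ := hd2 l
    exact hx2 (hl Y hY x hx)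
  choose d hd hbad using h1
  have hL0 : 0 < L := by
    rcases Nat.eq_zero_or_pos L with h | h
    · subst h
      simp at hLr
    · exact h
  set z : ℕ → Fin L → Fin N → Matrix (Fin n) (Fin n) ℂ := fun k l j => Hv ((d k).Z l j) ((d k).b l j) with hz
  -- the derivations
  have hder : ∀ l i, ∀ A ∈ GUs (fun k => (d k).𝔤 l i), ∃ δ : Derivation (U ℚ) (U ℂ) (U ℂ),
      dm δ (gm fun k => z k l i) = A * (gm fun k => z k l i) ∧
      ∀ l' j, (l', j) ≠ (l, i) → dm δ (gm fun k => z k l' j) = 0 := by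
    rintro l i A ⟨F, hF, hF𝔤⟩
    set X : ℕ → Fin L → Fin N → Matrix (Fin n) (Fin n) ℂ := fun k l' j => if (l', j) = (l, i) then F k else 0 with hX
    have hX𝔤 : ∀ k l' j, X k l' j ∈ (d k).𝔤 l' j := by
      intro k l' j
      rw [hX]
      simp only
      split_ifs with h
      · obtain ⟨h3, h4⟩ := Prod.ext_iff.1 h
        simp only at h3 h4
        subst h3
        subst h4
        exact hF𝔤 k
      · exact ((d k).𝔤 l' j).zero_mem
    obtain ⟨δ, hδ⟩ := hder_gen (z := fun k (i : Fin (L * N)) => z k (fs i) (sn i)) (X := fun k i => X k (fs i) (sn i))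
      (fun e' => by
        obtain ⟨E, hE⟩ := curveP L N n q e' 
        filter_upwards [ev_ge E] with k hk P hPd hP s
        have hH := (hd k).one_le
        have hw0 : (0 : ℝ) ≤ (d k).w := by positivity
        have hρ := (hd k).ρ_pos
        refine hE (d k).H hH (d k).T (d k).B (d k).Z (d k).W (hd k).sys (hd k).T_ne (d k).ρ hρ (hd k).mem (d k).w (d k).b₀
          (d k).b (hd k).b_mem (hd k).sep ((pow_le_pow_right₀ (by nlinarith) hk).trans (hd k).big) (X k)
          (fun l' β => (hd k).inf l' (X k l') (hX𝔤 k l') β) P hPd hP s)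
    have hfs : ∀ l' j, fs (finProdFinEquiv (l', j) : Fin (L * N)) = l' := fun l' j => by
      unfold fs
      rw [Equiv.symm_apply_apply]
    have hsn : ∀ l' j, sn (finProdFinEquiv (l', j) : Fin (L * N)) = j := fun l' j => by
      unfold sn
      rw [Equiv.symm_apply_apply]
    have hδ' : ∀ l' j, dm δ (gm fun k => z k l' j) = gm fun k => X k l' j * z k l' j := by
      intro l' j
      have h3 := hδ (finProdFinEquiv (l', j))
      simp only [hfs, hsn] at h3
      exact h3
    refine ⟨δ, ?_, fun l' j hj => ?_⟩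
    · rw [hδ', ← hF, ← gm_mul]
      congr 1
      funext k
      rw [hX]
      simp only [if_true]
    · rw [hδ']
      have h3 : (fun k => X k l' j * z k l' j) = fun _ => 0 := by
        funext k
        rw [hX]
        simp only [if_neg hj, Matrix.zero_mul]
      rw [h3, gm_zero]
  -- the period matrices
  have hcT : ∀ k l, (Tot ((d k).C₀ l) ((d k).C l) : Matrix (Ix r₀ n N) (Ix r₀ n N) ℂ) * Zm (z k l) ∈ (d k).S l := by
    intro k l
    have h2 : fromBlocks ((d k).C₀ l) 0 0 (blockDiagonal fun j => (d k).C l j * Hv ((d k).Z l j) ((d k).b l j)) =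
        (Tot ((d k).C₀ l) ((d k).C l) : Matrix (Ix r₀ n N) (Ix r₀ n N) ℂ) * Zm (z k l) := by
      have h3 := Tot_mul ((d k).C₀ l) 1 ((d k).C l) (z k l)
      rw [Matrix.mul_one] at h3
      exact h3.symm
    rw [← h2]
    exact (hd k).mem_tor l
  have hdet : ∀ k l, (Tot ((d k).C₀ l) ((d k).C l)).det ≠ 0 ∧ (Zm (r₀ := r₀) (z k l)).det ≠ 0 := by
    intro k l
    have h1 := (Matrix.isUnit_iff_isUnit_det _).1 (((hd k).tor l).isUnit _ (hcT k l))
    rw [Matrix.det_mul] at h1
    have h2 := h1.ne_zero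
    exact ⟨left_ne_zero_of_mul h2, right_ne_zero_of_mul h2⟩
  have hz0 : ∀ k l j, (z k l j).det ≠ 0 := by
    intro k l j
    have h1 := (hdet k l).2
    rw [Zm_det, Finset.prod_ne_zero_iff] at h1
    exact h1 j (Finset.mem_univ j)
  have hzero : ∀ δ : Derivation (U ℚ) (U ℂ) (U ℂ), δ (mk ℂ fun _ => 0) = 0 := by
    intro δ
    have : (mk ℂ fun _ => (0 : ℂ)) = 0 := map_zero (mk ℂ)
    rw [this, map_zero]
  obtain ⟨l, hmain⟩ := coreT hn hLr (fun k => (hd k).lie) (fun k => (hd k).cod) (fun k => (hd k).cf) hz0 hder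
    (fun k => (hd k).fd) (fun k => (hd k).deg) (C := fun k l => Tot ((d k).C₀ l) ((d k).C l)) (fun k l => (hdet k l).1)
    (β := fun i => mk ℂ fun k => (d k).bs i) (γ := fun l i => mk ℂ fun k => (d k).cs l i) (κ := fun k l => (d k).κ l)
    (fun k l => (hd k).κ_ne l) (fun l δ h1 h2 => by
      have hap : ∀ i, δ (mk ℂ fun k => Fin.append (d k).bs ((d k).cs l) i) = 0 := by
        intro i
        refine Fin.addCases (fun i => ?_) (fun i => ?_) i
        · have h3 : (fun k => Fin.append (d k).bs ((d k).cs l) (Fin.castAdd ℓ i)) = fun k => (d k).bs i := by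
            funext k
            rw [Fin.append_left]
          rw [h3]
          exact h1 i
        · have h3 : (fun k => Fin.append (d k).bs ((d k).cs l) (Fin.natAdd s i)) = fun k => (d k).cs l i := by
            funext k
            rw [Fin.append_right]
          rw [h3]
          exact h2 i
      refine Matrix.ext fun i j => ?_
      show δ (mk ℂ fun k => ((d k).κ l • Tot ((d k).C₀ l) ((d k).C l)) i j) = 0
      rcases i with i | ⟨i, a⟩ <;> rcases j with j | ⟨j, a'⟩
      · exact der_algD (fun k => (hd k).few₀ l i j) hap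
      · have h3 : (fun k => ((d k).κ l • Tot ((d k).C₀ l) ((d k).C l)) (Sum.inl i) (Sum.inr (j, a'))) = fun _ => 0 := by
          funext k
          show (d k).κ l * 0 = 0
          rw [mul_zero]
        rw [h3]
        exact hzero δ
      · have h3 : (fun k => ((d k).κ l • Tot ((d k).C₀ l) ((d k).C l)) (Sum.inr (i, a)) (Sum.inl j)) = fun _ => 0 := by
          funext k
          show (d k).κ l * 0 = 0
          rw [mul_zero]
        rw [h3]
        exact hzero δ
      · by_cases ha : a = a'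
        · subst ha
          have h3 : (fun k => ((d k).κ l • Tot ((d k).C₀ l) ((d k).C l)) (Sum.inr (i, a)) (Sum.inr (j, a))) =
              fun k => (d k).κ l * (d k).C l a i j := by
            funext k
            show (d k).κ l * blockDiagonal ((d k).C l) (i, a) (j, a) = _
            rw [blockDiagonal_apply, if_pos rfl]
          rw [h3]
          exact der_algD (fun k => (hd k).few l a i j) hap
        · have h3 : (fun k => ((d k).κ l • Tot ((d k).C₀ l) ((d k).C l)) (Sum.inr (i, a)) (Sum.inr (j, a'))) =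
              fun _ => 0 := by
            funext k
            show (d k).κ l * blockDiagonal ((d k).C l) (i, a) (j, a') = _
            rw [blockDiagonal_apply, if_neg ha, mul_zero]
          rw [h3]
          exact hzero δ) (fun k => (hd k).tor) hcT
  obtain ⟨k, hk⟩ := hmain.exists
  refine hbad k l fun Y hY x hx => ?_
  -- the case without points
  by_cases hN : N = 0
  · subst hN
    have h1 : Zm (r₀ := r₀) (fun j : Fin 0 => NormedSpace.exp ((d k).C l j * Y j * ((d k).C l j)⁻¹)) = 1 := by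
      have : (fun j : Fin 0 => NormedSpace.exp ((d k).C l j * Y j * ((d k).C l j)⁻¹)) = fun _ => 1 := funext fun j => j.elim0
      rw [this, Zm_one]
    rw [h1, Matrix.one_mul]
    exact hx
  have hCu : ∀ i, IsUnit ((d k).C l i).det := fun i => by
    have h1 := (Tot_unit ((Matrix.isUnit_iff_isUnit_det _).2 (isUnit_iff_ne_zero.2 (hdet k l).1))).2 i
    exact (Matrix.isUnit_iff_isUnit_det _).1 h1
  have h2 : ∀ i, fl (ib (r₀ := r₀) i ((d k).C l i * Y i * ((d k).C l i)⁻¹)) ∈ LL ((d k).S l) := by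
    intro i
    have h4 := hk i _ (hY i)
    have h5 : ib (r₀ := r₀) i ((d k).C l i * Y i * ((d k).C l i)⁻¹) =
        (Tot ((d k).C₀ l) ((d k).C l) : Matrix (Ix r₀ n N) (Ix r₀ n N) ℂ) * ib i (Y i) * (Tot ((d k).C₀ l) ((d k).C l))⁻¹ := by
      have h6 : IsUnit (Tot ((d k).C₀ l) ((d k).C l) : Matrix (Ix r₀ n N) (Ix r₀ n N) ℂ).det := isUnit_iff_ne_zero.2 (hdet k l).1
      have h7 : ib (r₀ := r₀) i ((d k).C l i * Y i * ((d k).C l i)⁻¹) * (Tot ((d k).C₀ l) ((d k).C l) : Matrix (Ix r₀ n N) (Ix r₀ n N) ℂ) =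
          Tot ((d k).C₀ l) ((d k).C l) * ib i (Y i) := by
        unfold Tot
        rw [ib_apply, ib_apply, fromBlocks_multiply, fromBlocks_multiply, ← blockDiagonal_mul, ← blockDiagonal_mul]
        have h9 : (fun j => (Pi.single i ((d k).C l i * Y i * ((d k).C l i)⁻¹) : Fin N → Matrix (Fin n) (Fin n) ℂ) j * (d k).C l j) =
            fun j => (d k).C l j * (Pi.single i (Y i) : Fin N → Matrix (Fin n) (Fin n) ℂ) j := by
          funext j
          by_cases hj : j = i
          · subst hj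
            rw [Pi.single_eq_same, Pi.single_eq_same, Matrix.nonsing_inv_mul_cancel_right _ _ (hCu j)]
          · rw [Pi.single_eq_of_ne hj, Pi.single_eq_of_ne hj, Matrix.zero_mul, Matrix.mul_zero]
        rw [h9]
        simp
      rw [← h7, Matrix.mul_nonsing_inv_cancel_right _ _ h6]
    rw [h5]
    exact h4
  have h3 : fl (∑ i, ib (r₀ := r₀) i ((d k).C l i * Y i * ((d k).C l i)⁻¹)) ∈ LL ((d k).S l) := by
    have h4 : ∀ s : Finset (Fin N), fl (∑ i ∈ s, ib (r₀ := r₀) i ((d k).C l i * Y i * ((d k).C l i)⁻¹)) ∈ LL ((d k).S l) := by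
      intro s
      induction s using Finset.induction_on with
      | empty =>
        rw [Finset.sum_empty, fl_zero]
        exact (LL ((d k).S l)).zero_mem
      | insert a s ha ih =>
        rw [Finset.sum_insert ha, fl_add]
        exact (LL ((d k).S l)).add_mem (h2 a) ih
    exact h4 _
  rw [sum_ib (fun i => (d k).C l i * Y i * ((d k).C l i)⁻¹)] at h3
  have h4 := exp_stab ((hd k).tor l) h3 hx
  rw [exp_Zm] at h4
  exact h4

end Pool.Agent.H885
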