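import Pool.Agent.H885.JointN2
import Pool.Agent.H885.CurN

/-!
# Several tuples of points near degenerate central fibres: twisted shifts
-/

set_option autoImplicit false
set_option linter.unusedSectionVars false
set_option linter.unusedVariables false

open Matrix Module Filter PowerSeries

namespace Pool.Agent.H885

open Pool.Agent.Y113 (ev Cv GSys ps lg)
open Pool.Agent.Y118.HV (Hv hh)
open Pool.Agent.Y120.GH (cx cx_mem Cw sf ou_shift ou_ev ou ou_mul ou_sum Cw_mono cx_lg_mem ou_lg Pg Hm)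
open Pool.Agent.Helper880_R3 hiding core final
open Pool.Agent.Helper880_LF.NB hiding alg_core
open Pool.Agent.Y118.UL (mk mk_eq mk_eq_zero mk_ne_zero mk_surj ev_ge eval_mk rep qc qc_mk algebraMap_eq U)
open Pool.Agent.TH119.DR Pool.Agent.TH119.MX Pool.Agent.TH127.PT Pool.Agent.Y123.ST Pool.Agent.Y123.GN

variable {n N r₀ L M s ℓ : ℕ}

/-- conjugation by one parameter groups -/
theorem conj_mem {𝔤 : Submodule ℂ (Matrix (Fin n) (Fin n) ℂ)} {V : Matrix (Fin n) (Fin n) ℂ}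
    (h : ∀ Y ∈ 𝔤, V * Y - Y * V ∈ 𝔤) {Y : Matrix (Fin n) (Fin n) ℂ} (hY : Y ∈ 𝔤) (u : ℂ) :
    NormedSpace.exp (u • V) * Y * NormedSpace.exp (u • -V) ∈ 𝔤 := by
  by_contra hcon
  obtain ⟨f, hf1, hf2⟩ := Submodule.exists_le_ker_of_notMem hcon
  refine hf1 ?_
  have hfe : ∀ M : Matrix (Fin n) (Fin n) ℂ, f M = ∑ i, ∑ j, M i j * f (Matrix.single i j 1) := by
    intro M
    conv_lhs => rw [Matrix.matrix_eq_sum_single M]
    rw [map_sum]
    refine Finset.sum_congr rfl fun i _ => ?_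
    rw [map_sum]
    refine Finset.sum_congr rfl fun j _ => ?_
    have h1 : Matrix.single i j (M i j) = M i j • Matrix.single i j (1 : ℂ) := by
      rw [Matrix.smul_single, smul_eq_mul, mul_one]
    rw [h1, map_smul, smul_eq_mul]
  refine entire_zero (ι := Matrix (Fin n) (Fin n) ℂ) (fun Y => Y ∈ 𝔤)
    (fun Y u => f (NormedSpace.exp (u • V) * Y * NormedSpace.exp (u • -V))) (fun Y => V * Y - Y * V) h (fun Y hY => ?_)
    (fun Y hY u => ?_) Y hY u
  · have h1 : NormedSpace.exp ((0 : ℂ) • V) * Y * NormedSpace.exp ((0 : ℂ) • -V) = Y := by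
      rw [zero_smul, zero_smul, Pool.Agent.Helper880_R3.exp_zero', Matrix.one_mul, Matrix.mul_one]
    show f _ = 0
    rw [h1]
    exact LinearMap.mem_ker.1 (hf2 hY)
  · have h1 : ∀ i j, HasDerivAt (fun u : ℂ => (NormedSpace.exp (u • V) * Y * NormedSpace.exp (u • -V)) i j)
        ((NormedSpace.exp (u • V) * (V * Y - Y * V) * NormedSpace.exp (u • -V)) i j) u := by
      intro i j
      have e1 : (fun u : ℂ => (NormedSpace.exp (u • V) * Y * NormedSpace.exp (u • -V)) i j) =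
          fun u => ∑ a, (∑ b, NormedSpace.exp (u • V) i b * Y b a) * NormedSpace.exp (u • -V) a j := by
        funext u
        rw [Matrix.mul_apply]
        refine Finset.sum_congr rfl fun a _ => ?_
        rw [Matrix.mul_apply]
      rw [e1]
      have e2 : ∀ a, HasDerivAt (fun u : ℂ => (∑ b, NormedSpace.exp (u • V) i b * Y b a) * NormedSpace.exp (u • -V) a j)
          ((∑ b, (V * NormedSpace.exp (u • V)) i b * Y b a) * NormedSpace.exp (u • -V) a j +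
            (∑ b, NormedSpace.exp (u • V) i b * Y b a) * (-V * NormedSpace.exp (u • -V)) a j) u := fun a =>
        (HasDerivAt.fun_sum fun b _ => (exp_HD V u i b).mul_const (Y b a)).mul (exp_HD (-V) u a j)
      refine (HasDerivAt.fun_sum fun a _ => e2 a).congr_deriv ?_
      have hcm : V * NormedSpace.exp (u • V) = NormedSpace.exp (u • V) * V :=
        (((Commute.refl V).smul_right u).exp_right).eq
      have e3 : NormedSpace.exp (u • V) * (V * Y - Y * V) * NormedSpace.exp (u • -V) =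
          (V * NormedSpace.exp (u • V)) * Y * NormedSpace.exp (u • -V) +
            NormedSpace.exp (u • V) * Y * (-V * NormedSpace.exp (u • -V)) := by
        rw [hcm]
        noncomm_ring
      rw [e3, Finset.sum_add_distrib, Matrix.add_apply]
      congr 1
    simp only [hfe (NormedSpace.exp _ * _ * NormedSpace.exp _)]
    exact HasDerivAt.fun_sum fun i _ => HasDerivAt.fun_sum fun j _ => (h1 i j).mul_const _

lemma eP_conj_mem {R : Matrix (Fin n) (Fin n) ℤ} (hR : R ^ n = 0) {𝔤 : Submodule ℂ (Matrix (Fin n) (Fin n) ℂ)}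
    (h : ∀ Y ∈ 𝔤, R.map (Int.castRingHom ℂ) * Y - Y * R.map (Int.castRingHom ℂ) ∈ 𝔤) {Y : Matrix (Fin n) (Fin n) ℂ} (hY : Y ∈ 𝔤)
    (u : ℂ) : eP R (-u) * Y * eP R u ∈ 𝔤 := by
  have h1 := conj_mem h hY u
  rw [eP_nexp hR, eP_nexp hR, neg_smul, neg_neg]
  rw [smul_neg] at h1
  exact h1

/-- **systems of twisted shifts** -/
theorem gsysT_pts (L N n q : ℕ) : ∃ q' E₁ : ℕ, ∀ (H : ℝ), 1 ≤ H → ∀ (T : Fin L → Fin N → Polynomial ℤ)
    (A : Fin L → Fin N → Fin n → Fin n → Polynomial ℤ) (R : Fin L → Fin N → Matrix (Fin n) (Fin n) ℤ)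
    (Z W : Fin L → Fin N → Matrix (Fin n) (Fin n) ℚ⟦X⟧),
    (∀ l j, SysN q H (T l j) (A l j) (R l j) (Z l j) (W l j)) → (∀ l j, T l j ≠ 0) →
    ∀ (G : ℕ) (g : Fin L → Fin N → ℕ), (∀ l j, g l j ≤ G) →
    ∃ T' : Polynomial ℤ, T' ≠ 0 ∧ GSys q' ((2 * H * ((G : ℝ) + 2)) ^ E₁) T' (ent (combT g R Z)) := by
  classical
  obtain ⟨E, hE⟩ := sysN_tw n q
  obtain ⟨E₀, hE₀⟩ := sysN_gsys n (q + 1)
  obtain ⟨q', E', hE'⟩ := gsys_pi (L * N) (q + 1 + 1)
  refine ⟨q', ((E + 1) * E₀ + 1) * E', fun H hH T A R Z W hS hT G g hg => ?_⟩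
  have hG0 : (0 : ℝ) ≤ G := by positivity
  set x : ℝ := 2 * H * ((G : ℝ) + 2) with hx
  have hx2 : 2 ≤ x := by
    rw [hx]
    nlinarith
  have hx1 : 1 ≤ x := by linarith
  have h1 : ∀ k : Fin (L * N), GSys (q + 1 + 1) (x ^ ((E + 1) * E₀))
      (Polynomial.X * (Pg (g (fs k) (sn k)) * Hm (g (fs k) (sn k)) q (T (fs k) (sn k))))
      (fun p : Fin n × Fin n => tsf (g (fs k) (sn k)) (R (fs k) (sn k)) (Z (fs k) (sn k)) p.1 p.2) := by
    intro k
    refine (hE₀ _ _ _ _ _ _ (hE H _ _ _ _ _ (hS (fs k) (sn k)) G (g (fs k) (sn k)) (hg _ _))).mono le_rfl ?_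
    calc (2 * x ^ E) ^ E₀ ≤ (x * x ^ E) ^ E₀ := by
          refine pow_le_pow_left₀ (by positivity) (mul_le_mul_of_nonneg_right hx2 (by positivity)) _
      _ = x ^ ((E + 1) * E₀) := by rw [← pow_succ', ← pow_mul]
  refine ⟨∏ k : Fin (L * N), Polynomial.X * (Pg (g (fs k) (sn k)) * Hm (g (fs k) (sn k)) q (T (fs k) (sn k))),
    Finset.prod_ne_zero_iff.2 fun k _ => mul_ne_zero Polynomial.X_ne_zero fun h0 => ?_, ?_⟩
  · refine PgHm_ne (g (fs k) (sn k)) (hS (fs k) (sn k)).degT (hT (fs k) (sn k)) ?_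
    rw [pow_two, mul_assoc, h0, mul_zero]
  · refine (hE' (Fin n × Fin n) _ _ _ (one_le_pow₀ hx1) h1).mono le_rfl ?_
    calc (2 * x ^ ((E + 1) * E₀)) ^ E' ≤ (x * x ^ ((E + 1) * E₀)) ^ E' := by
          refine pow_le_pow_left₀ (by positivity) (mul_le_mul_of_nonneg_right hx2 (by positivity)) _
      _ = x ^ (((E + 1) * E₀ + 1) * E') := by rw [← pow_succ', ← pow_mul]

/-- the values of twisted shifts -/
lemma Hv_tsf {R : Matrix (Fin n) (Fin n) ℤ} {Z : Matrix (Fin n) (Fin n) ℚ⟦X⟧} {C : ℝ} (hC : 1 ≤ C)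
    (hsz : ∀ a b m, |((coeff m (Z a b) : ℚ) : ℝ)| ≤ C ^ (m + 1)) {t g b : ℕ} (hgb : g + b = t) (hb : 0 < b)
    (ht : 2 ^ 3 * C * ((g : ℝ) + 1) < t) : Hv (tsf g R Z) t = eP R (Complex.log ((b : ℝ) / (t : ℝ))) * Hv Z b := by
  have hg0 : (0 : ℝ) ≤ g := by positivity
  have hlt : (g : ℝ) + C < t := by nlinarith
  set ρ₁ : ℝ := 2 ^ 3 * C * ((g : ℝ) + 1) with hρ₁
  have hρ₁0 : 0 ≤ ρ₁ := by positivity
  have hlgm : cx (lg g) ∈ Cw ρ₁ := Cw_mono (by rw [hρ₁]; nlinarith) (cx_lg_mem g)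
  have hsfm : ∀ c b, cx (sf g (Z c b)) ∈ Cw ρ₁ := fun c b =>
    cx_mem (C := 2 ^ 3 * C * ((g : ℝ) + 1)) (by positivity) (sf_size hC (hsz c b) g)
  have htn : ‖((t : ℝ) : ℂ)‖ = t := by
    rw [Complex.norm_real, Real.norm_of_nonneg (by positivity)]
  have htb : (t : ℝ) = g + b := by
    rw [← hgb]
    push_cast
    rfl
  have ht0 : (0 : ℝ) < t := by
    rw [htb]
    have : (0 : ℝ) < b := by exact_mod_cast hb
    linarith
  ext a c
  show ((ev (t : ℝ) (tsf g R Z a c) : ℝ) : ℂ) = _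
  rw [← ou_ev]
  have h1 : cx (tsf g R Z a c) = ∑ e, eP R (cx (lg g)) a e * cx (sf g (Z e c)) := by
    unfold tsf
    rw [Matrix.mul_apply, map_sum]
    refine Finset.sum_congr rfl fun e _ => ?_
    rw [map_mul, eP_map]
    rfl
  have ht1 : ρ₁ < ‖((t : ℝ) : ℂ)‖ := by
    rw [htn]
    exact ht
  rw [h1, ou_sum hρ₁0 _ (fun e _ => (Cw ρ₁).mul_mem (eP_Cw hlgm _ _) (hsfm _ _)) ht1, Matrix.mul_apply]
  refine Finset.sum_congr rfl fun e _ => ?_
  have h2 := ou_shift (by linarith) (hsz e c) g (t := ((t : ℝ) : ℂ)) (by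
    rw [htn]
    exact hlt)
  rw [ou_mul hρ₁0 (eP_Cw hlgm _ _) (hsfm _ _) ht1, ou_eP hρ₁0 hlgm ht1, h2, ou_lg _ (by
    rw [htn]
    linarith)]
  have h3 : (((t : ℝ) : ℂ) - (g : ℂ)) = ((b : ℝ) : ℂ) := by
    rw [htb]
    push_cast
    ring
  have h4 : (1 : ℂ) - (g : ℂ) / ((t : ℝ) : ℂ) = ((b : ℝ) : ℂ) / ((t : ℝ) : ℂ) := by
    have h5 : ((t : ℝ) : ℂ) ≠ 0 := by exact_mod_cast ht0.ne'
    rw [← h3]
    field_simp
  rw [h3, h4]
  congr 1
  exact ou_ev _ _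

end Pool.Agent.H885
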