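import Pool.Agent.H885.CurTw

/-!
# Several tuples of points near degenerate central fibres, with one logarithm
-/

set_option autoImplicit false
set_option linter.unusedSectionVars false
set_option linter.unusedVariables false

open Matrix Module Filter PowerSeries

namespace Pool.Agent.H885

open Pool.Agent.Y113 (ev Cv GSys ps)
open Pool.Agent.Y118.HV (Hv hh)
open Pool.Agent.Y120.GH (cx cx_mem Cw sf ou_shift ou_ev)
open Pool.Agent.Helper880_R3 hiding core final
open Pool.Agent.Helper880_LF.NB hiding alg_core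
open Pool.Agent.Y118.UL (mk mk_eq mk_eq_zero mk_ne_zero mk_surj ev_ge eval_mk rep qc qc_mk algebraMap_eq U)
open Pool.Agent.TH119.DR Pool.Agent.TH119.MX Pool.Agent.TH127.PT Pool.Agent.Y123.ST Pool.Agent.Y123.GN

variable {n N r₀ L M s ℓ : ℕ}

/-- the value, up to one logarithm -/
noncomputable def zT (t : ℕ) (R : Matrix (Fin n) (Fin n) ℤ) (Z : Matrix (Fin n) (Fin n) ℚ⟦X⟧) (b : ℕ) : Matrix (Fin n) (Fin n) ℂ :=
  eP R (Complex.log ((b : ℝ) / (t : ℝ))) * Hv Z b

/-- **exponential curves for several tuples of points** -/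
theorem curveTw (L N n q d : ℕ) : ∃ E : ℕ, ∀ (H : ℝ), 1 ≤ H → ∀ (T : Fin L → Fin N → Polynomial ℤ)
    (A : Fin L → Fin N → Fin n → Fin n → Polynomial ℤ) (R : Fin L → Fin N → Matrix (Fin n) (Fin n) ℤ)
    (Z W : Fin L → Fin N → Matrix (Fin n) (Fin n) ℚ⟦X⟧),
    (∀ l j, SysN q H (T l j) (A l j) (R l j) (Z l j) (W l j)) → (∀ l j, T l j ≠ 0) → ∀ ρ : ℝ, 0 < ρ → (∀ l j a b, cx (Z l j a b) ∈ Cw ρ) →
    ∀ (w b₀ : ℕ) (b : Fin L → Fin N → ℕ), (∀ l j, b₀ ≤ b l j ∧ b l j ≤ b₀ + w) →
    (∀ l j l' j', ¬ (l = l' ∧ b l j = b l' j') → 2 * ρ < |(b l j : ℝ) - b l' j'|) →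
    (2 * H * ((w : ℝ) + ρ + 2)) ^ E ≤ (b₀ : ℝ) →
    ∀ X : Fin L → Fin N → Matrix (Fin n) (Fin n) ℂ,
    (∀ l β, ∀ lam : ℂ, InfT (part (b l) (Z l) β)
      (fun j => if b l j = β then eP (R l j) (-lam) * X l j * eP (R l j) lam else 0)) →
    ∀ P : MvPolynomial (Fin (L * N) × Fin n × Fin n) ℚ, P.totalDegree ≤ d →
    MvPolynomial.aeval (vz fun i : Fin (L * N) =>
      zT (b₀ + w + ⌊ρ⌋₊ + 2) (R (fs i) (sn i)) (Z (fs i) (sn i)) (b (fs i) (sn i))) P = 0 → ∀ s : ℂ,
    MvPolynomial.aeval (vz fun i : Fin (L * N) => NormedSpace.exp (s • X (fs i) (sn i)) *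
      zT (b₀ + w + ⌊ρ⌋₊ + 2) (R (fs i) (sn i)) (Z (fs i) (sn i)) (b (fs i) (sn i))) P = 0 := by
  classical
  obtain ⟨q', E₁, h1⟩ := gsysT_pts L N n q
  obtain ⟨E₂, h2⟩ := rel_curve' q' n (L * N) d
  refine ⟨(2 * E₁ + 1) * E₂ + 4, fun H hH T A R Z W hS hT ρ hρ hmem w b₀ b hb hsep hbig X hX P hP hP0 s => ?_⟩
  set x : ℝ := 2 * H * ((w : ℝ) + ρ + 2) with hx
  have hw0 : (0 : ℝ) ≤ w := by positivity
  have hx4 : 4 * H ≤ x := by
    rw [hx]
    nlinarith
  have hx2 : 2 ≤ x := by linarith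
  have hx1 : 1 ≤ x := by linarith
  set f : ℕ := ⌊ρ⌋₊ with hf
  have hf1 : (f : ℝ) ≤ ρ := Nat.floor_le hρ.le
  have hf2 : ρ < f + 1 := Nat.lt_floor_add_one ρ
  set t : ℕ := b₀ + w + f + 2 with ht
  set g : Fin L → Fin N → ℕ := fun l j => t - b l j with hg
  have hgt : ∀ l j, g l j + b l j = t := fun l j => by
    have := hb l j
    rw [hg]
    simp only
    omega
  have hgt' : ∀ l j, (g l j : ℝ) + b l j = t := fun l j => by exact_mod_cast hgt l j
  have hb₀x : x ≤ (b₀ : ℝ) := by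
    have h4 : x ^ 1 ≤ x ^ ((2 * E₁ + 1) * E₂ + 4) := pow_le_pow_right₀ hx1 (by omega)
    rw [pow_one] at h4
    linarith
  have hb₀pos : 0 < b₀ := by
    have : (0 : ℝ) < b₀ := by linarith
    exact_mod_cast this
  have hbx : ∀ l j, x ≤ (b l j : ℝ) := by
    intro l j
    have h3 : (b₀ : ℝ) ≤ b l j := by exact_mod_cast (hb l j).1
    linarith
  have hx4b : x ^ 4 ≤ (b₀ : ℝ) := (pow_le_pow_right₀ hx1 (by omega)).trans hbig
  have hval : ∀ i : Fin (L * N), Hv (combT g R Z i) t = zT t (R (fs i) (sn i)) (Z (fs i) (sn i)) (b (fs i) (sn i)) := by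
    intro i
    refine Hv_tsf hH (hS (fs i) (sn i)).size (hgt _ _) ?_ ?_
    · have h3 := hbx (fs i) (sn i)
      have : (0 : ℝ) < b (fs i) (sn i) := by linarith
      exact_mod_cast this
    · have h4 : (g (fs i) (sn i) : ℝ) ≤ w + ρ + 2 := by
        have h5 : g (fs i) (sn i) ≤ w + f + 2 := by
          have := hb (fs i) (sn i)
          rw [hg]
          simp only
          omega
        have h6 : (g (fs i) (sn i) : ℝ) ≤ w + f + 2 := by exact_mod_cast h5
        linarith
      have h5 : 2 ^ 3 * H * ((g (fs i) (sn i) : ℝ) + 1) ≤ 8 * x := by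
        have h6 : 2 ^ 3 * H * ((g (fs i) (sn i) : ℝ) + 1) ≤ 2 ^ 3 * H * (2 * ((w : ℝ) + ρ + 2)) :=
          mul_le_mul_of_nonneg_left (by linarith) (by positivity)
        refine h6.trans (le_of_eq ?_)
        rw [hx]
        ring
      have h6 : 8 * x ≤ x ^ 4 := by
        have h7 : (2 : ℝ) ^ 3 ≤ x ^ 3 := pow_le_pow_left₀ (by norm_num) hx2 _
        calc 8 * x = 2 ^ 3 * x := by norm_num
          _ ≤ x ^ 3 * x := mul_le_mul_of_nonneg_right h7 (by linarith)
          _ = x ^ 4 := (pow_succ _ _).symm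
      have h7 : (b₀ : ℝ) < t := by
        rw [ht]
        push_cast
        have : (0 : ℝ) ≤ f := by positivity
        linarith
      linarith
  have hpart : ∀ l γ, (∀ j, g l j = γ ↔ b l j = t - γ) := by
    intro l γ j
    have h3 := hgt l j
    have h4 := (hb l j).1
    omega
  obtain ⟨T', hT', hS'⟩ := h1 H hH T A R Z W hS hT (w + f + 2) g (fun l j => by
    have := hb l j
    rw [hg]
    simp only
    omega)
  -- the larger radius
  obtain ⟨ρ', hρρ, hρg, hρsep⟩ : ∃ ρ' : ℝ, ρ < ρ' ∧ (∀ l j, ρ' < g l j) ∧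
      ∀ l j l' j', ¬ (l = l' ∧ g l j = g l' j') → ρ + ρ' < |(g l j : ℝ) - g l' j'| := by
    have e1 : ∀ᶠ ρ' in nhdsWithin ρ (Set.Ioi ρ), ρ < ρ' := self_mem_nhdsWithin
    have e2 : ∀ᶠ ρ' in nhdsWithin ρ (Set.Ioi ρ), ∀ l j, ρ' < (g l j : ℝ) := by
      refine Filter.eventually_all.2 fun l => Filter.eventually_all.2 fun j => nhdsWithin_le_nhds (eventually_lt_nhds ?_)
      have h3 : f + 2 ≤ g l j := by
        have := hb l j
        rw [hg]
        simp only
        omega
      have h4 : ((f : ℝ) + 2) ≤ g l j := by exact_mod_cast h3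
      linarith
    have e3 : ∀ᶠ ρ' in nhdsWithin ρ (Set.Ioi ρ), ∀ l j l' j', ¬ (l = l' ∧ g l j = g l' j') →
        ρ + ρ' < |(g l j : ℝ) - g l' j'| := by
      refine Filter.eventually_all.2 fun l => Filter.eventually_all.2 fun j => Filter.eventually_all.2 fun l' =>
        Filter.eventually_all.2 fun j' => ?_
      by_cases hll : l = l' ∧ g l j = g l' j'
      · exact Filter.Eventually.of_forall fun _ h => absurd hll h
      · have h3 := hsep l j l' j' (fun h => hll ⟨h.1, by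
          have h5 := hgt l j
          have h6 := hgt l' j'
          have h7 := h.2
          omega⟩)
        have h4 : (g l j : ℝ) - g l' j' = (b l' j' : ℝ) - b l j := by
          have h5 := hgt' l j
          have h6 := hgt' l' j'
          linarith
        rw [h4, abs_sub_comm]
        have h7 : ρ < |(b l j : ℝ) - b l' j'| - ρ := by linarith
        filter_upwards [nhdsWithin_le_nhds (eventually_lt_nhds h7)] with y hy _
        linarith
    obtain ⟨ρ', h3, h4, h5⟩ := (e1.and (e2.and e3)).exists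
    exact ⟨ρ', h3, h4, h5⟩
  have hI : InfT (combT g R Z) (fun i => X (fs i) (sn i)) := by
    refine inf_ptsN hρ hρρ (fun l j => (hS l j).nil) hH (fun l j a b m => (hS l j).size a b m) hmem g hρg hρsep (fun l₀ γ δ S _ hLI => ?_) fun l γ lam => ?_
    · exact disc_wdN hρ (hρ.trans hρρ) (hT l₀) (partN_ode (fun j => (hS l₀ j).ode) (g l₀) γ)
        (part_inv (fun j => (hS l₀ j).inv) (g l₀) γ) (partN_nil (fun j => (hS l₀ j).nil) (g l₀) γ)
        (part_mem (hmem l₀) (g l₀) γ) S hLI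
    · have h3 := hX l (t - γ) lam
      have h4 : part (b l) (Z l) (t - γ) = part (g l) (Z l) γ := by
        unfold part
        funext j
        simp only [hpart l γ j]
      have h5 : (fun j => if b l j = t - γ then eP (R l j) (-lam) * X l j * eP (R l j) lam else 0) =
          fun j => if g l j = γ then eP (R l j) (-lam) * X l j * eP (R l j) lam else 0 := by
        funext j
        simp only [hpart l γ j]
      rw [h4, h5] at h3
      exact h3
  have h3 := h2 _ T' _ hS' hT' t ?_ _ hI P hP ?_ s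
  · have h4 : (vz fun i : Fin (L * N) => NormedSpace.exp (s • X (fs i) (sn i)) * Hv (combT g R Z i) t) =
        vz fun i : Fin (L * N) => NormedSpace.exp (s • X (fs i) (sn i)) *
          zT t (R (fs i) (sn i)) (Z (fs i) (sn i)) (b (fs i) (sn i)) := by
      congr 1
      funext i
      rw [hval]
    rw [← h4]
    exact h3
  · have h5 : (b₀ : ℝ) ≤ t := by
      rw [ht]
      push_cast
      linarith [(Nat.cast_nonneg f : (0 : ℝ) ≤ f)]
    refine le_trans ?_ (hbig.trans h5)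
    have h6 : 2 * H * (((w + f + 2 : ℕ) : ℝ) + 2) ≤ x ^ 2 := by
      push_cast
      have h7 : 2 * H * ((w : ℝ) + f + 2 + 2) ≤ 2 * x := by
        rw [hx]
        have : (w : ℝ) + f + 2 + 2 ≤ 2 * ((w : ℝ) + ρ + 2) := by linarith
        nlinarith
      nlinarith
    calc (2 * (2 * H * (((w + f + 2 : ℕ) : ℝ) + 2)) ^ E₁) ^ E₂ ≤ (x * (x ^ 2) ^ E₁) ^ E₂ := by
          refine pow_le_pow_left₀ (by positivity) (mul_le_mul hx2 (pow_le_pow_left₀ (by positivity) h6 _) (by positivity)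
            (by linarith)) _
      _ = x ^ ((2 * E₁ + 1) * E₂) := by rw [← pow_mul, ← pow_succ', ← pow_mul]
      _ ≤ x ^ ((2 * E₁ + 1) * E₂ + 4) := pow_le_pow_right₀ hx1 (by omega)
  · have h4 : (vz fun i : Fin (L * N) => Hv (combT g R Z i) t) =
        vz fun i : Fin (L * N) => zT t (R (fs i) (sn i)) (Z (fs i) (sn i)) (b (fs i) (sn i)) := by
      congr 1
      funext i
      rw [hval]
    have h5 : MvPolynomial.aeval (vz fun i : Fin (L * N) => Hv (combT g R Z i) t) P = 0 := by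
      rw [h4]
      exact hP0
    exact h5

end Pool.Agent.H885
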