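import Pool.Agent.H885.RatF

/-!
# The space of the infinitesimal symmetries over a number field is spanned by algebraic matrices: conclusion
-/

set_option autoImplicit false
set_option linter.unusedSectionVars false
set_option linter.unusedVariables false

open PowerSeries NumberField Module

namespace Pool.Agent.H885

section lin
variable {σ : Type} [Fintype σ] [DecidableEq σ]

theorem Tg_zero (Y : σ → ℂ⟦X⟧) : Tg Y 0 := by
  intro P _
  unfold dlO
  simp

theorem Tg_add {Y w w' : σ → ℂ⟦X⟧} (h : Tg Y w) (h' : Tg Y w') : Tg Y (w + w') := by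
  intro P hP
  have h1 : dlO Y (w + w') P = dlO Y w P + dlO Y w' P := by
    unfold dlO
    rw [← Finset.sum_add_distrib]
    exact Finset.sum_congr rfl fun s _ => by rw [Pi.add_apply, mul_add]
  rw [h1, h P hP, h' P hP, add_zero]

theorem Tg_smul {Y w : σ → ℂ⟦X⟧} (c : ℂ⟦X⟧) (h : Tg Y w) : Tg Y (c • w) := by
  intro P hP
  have h1 : dlO Y (c • w) P = c * dlO Y w P := by
    unfold dlO
    rw [Finset.mul_sum]
    exact Finset.sum_congr rfl fun s _ => by
      rw [Pi.smul_apply, smul_eq_mul]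
      ring
  rw [h1, h P hP, mul_zero]

end lin

variable {m n N L : ℕ} {F : Type} [Field F] [NumberField F]

/-- the space of the symmetries of the embedded matrices -/
def symF (b : Fin N → ℕ) (φ : Fin N → F →+* ℂ) (Z : Fin N → Matrix (Fin n) (Fin n) F⟦X⟧) :
    Submodule ℂ (Fin N → Matrix (Fin n) (Fin n) ℂ) where
  carrier := {X | SymF b φ Z X}
  zero_mem' := by
    intro c
    have h1 : (fun s : Fin N × Fin n × Fin n => ((if b s.1 = c then (0 : Fin N → Matrix (Fin n) (Fin n) ℂ) s.1 else 0 :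
        Matrix (Fin n) (Fin n) ℂ).map (PowerSeries.C (R := ℂ)) * embY b φ Z c s.1) s.2.1 s.2.2) = 0 := by
      funext s
      have h2 : (if b s.1 = c then (0 : Fin N → Matrix (Fin n) (Fin n) ℂ) s.1 else 0 : Matrix (Fin n) (Fin n) ℂ) = 0 := by
        split_ifs <;> rfl
      have h3 : (0 : Matrix (Fin n) (Fin n) ℂ).map (PowerSeries.C (R := ℂ)) = 0 := Matrix.map_zero _ (map_zero _)
      rw [h2, h3, Matrix.zero_mul]
      rfl
    rw [h1]
    exact Tg_zero _
  add_mem' := by
    intro X X' hX hX' c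
    have h1 : (fun s : Fin N × Fin n × Fin n => ((if b s.1 = c then (X + X') s.1 else 0 :
        Matrix (Fin n) (Fin n) ℂ).map (PowerSeries.C (R := ℂ)) * embY b φ Z c s.1) s.2.1 s.2.2) =
        (fun s : Fin N × Fin n × Fin n => ((if b s.1 = c then X s.1 else 0 :
        Matrix (Fin n) (Fin n) ℂ).map (PowerSeries.C (R := ℂ)) * embY b φ Z c s.1) s.2.1 s.2.2) +
        fun s : Fin N × Fin n × Fin n => ((if b s.1 = c then X' s.1 else 0 :
        Matrix (Fin n) (Fin n) ℂ).map (PowerSeries.C (R := ℂ)) * embY b φ Z c s.1) s.2.1 s.2.2 := by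
      funext s
      have h2 : (if b s.1 = c then (X + X') s.1 else 0 : Matrix (Fin n) (Fin n) ℂ) =
          (if b s.1 = c then X s.1 else 0) + (if b s.1 = c then X' s.1 else 0) := by
        split_ifs
        · rfl
        · rw [add_zero]
      rw [h2, Matrix.map_add _ (map_add _), Matrix.add_mul]
      rfl
    rw [h1]
    exact Tg_add (hX c) (hX' c)
  smul_mem' := by
    intro a X hX c
    have h1 : (fun s : Fin N × Fin n × Fin n => ((if b s.1 = c then (a • X) s.1 else 0 :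
        Matrix (Fin n) (Fin n) ℂ).map (PowerSeries.C (R := ℂ)) * embY b φ Z c s.1) s.2.1 s.2.2) =
        PowerSeries.C a • (fun s : Fin N × Fin n × Fin n => ((if b s.1 = c then X s.1 else 0 :
        Matrix (Fin n) (Fin n) ℂ).map (PowerSeries.C (R := ℂ)) * embY b φ Z c s.1) s.2.1 s.2.2) := by
      funext s
      have h2 : (if b s.1 = c then (a • X) s.1 else 0 : Matrix (Fin n) (Fin n) ℂ) = a • (if b s.1 = c then X s.1 else 0) := by
        split_ifs
        · rfl
        · rw [smul_zero]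
      have h3 : (a • (if b s.1 = c then X s.1 else 0 : Matrix (Fin n) (Fin n) ℂ)).map (PowerSeries.C (R := ℂ)) =
          PowerSeries.C a • (if b s.1 = c then X s.1 else 0 : Matrix (Fin n) (Fin n) ℂ).map (PowerSeries.C (R := ℂ)) := by
        ext1 i j
        rw [Matrix.map_apply, Matrix.smul_apply, Matrix.smul_apply, Matrix.map_apply, smul_eq_mul, smul_eq_mul, map_mul]
      rw [h2, h3, Matrix.smul_mul]
      rfl
    rw [h1]
    exact Tg_smul _ (hX c)

/-- the descent of the symmetries -/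
noncomputable def dwn (φ : Fin N → F →+* ℂ) : (Fin N → Matrix (Fin (n * dg F)) (Fin (n * dg F)) ℂ) →ₗ[ℂ]
    (Fin N → Matrix (Fin n) (Fin n) ℂ) where
  toFun X' := fun j => Matrix.of fun a c => ∑ τ, ∑ υ, ((one₁ F τ : ℚ) : ℂ) *
    (Om F (φ j) υ * X' j (finProdFinEquiv (a, υ)) (finProdFinEquiv (c, τ)))
  map_add' := by
    intro X X'
    funext j
    refine Matrix.ext fun a c => ?_
    show ∑ τ, ∑ υ, ((one₁ F τ : ℚ) : ℂ) * (Om F (φ j) υ * (X j (finProdFinEquiv (a, υ)) (finProdFinEquiv (c, τ)) +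
      X' j (finProdFinEquiv (a, υ)) (finProdFinEquiv (c, τ)))) =
      (∑ τ, ∑ υ, ((one₁ F τ : ℚ) : ℂ) * (Om F (φ j) υ * X j (finProdFinEquiv (a, υ)) (finProdFinEquiv (c, τ)))) +
      ∑ τ, ∑ υ, ((one₁ F τ : ℚ) : ℂ) * (Om F (φ j) υ * X' j (finProdFinEquiv (a, υ)) (finProdFinEquiv (c, τ)))
    rw [← Finset.sum_add_distrib]
    refine Finset.sum_congr rfl fun τ _ => ?_
    rw [← Finset.sum_add_distrib]
    refine Finset.sum_congr rfl fun υ _ => ?_
    ring
  map_smul' := by
    intro r X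
    funext j
    refine Matrix.ext fun a c => ?_
    show ∑ τ, ∑ υ, ((one₁ F τ : ℚ) : ℂ) * (Om F (φ j) υ * (r * X j (finProdFinEquiv (a, υ)) (finProdFinEquiv (c, τ)))) =
      r * ∑ τ, ∑ υ, ((one₁ F τ : ℚ) : ℂ) * (Om F (φ j) υ * X j (finProdFinEquiv (a, υ)) (finProdFinEquiv (c, τ)))
    rw [Finset.mul_sum]
    refine Finset.sum_congr rfl fun τ _ => ?_
    rw [Finset.mul_sum]
    refine Finset.sum_congr rfl fun υ _ => ?_
    ring

theorem dwn_eq {φ : Fin N → F →+* ℂ} {X' : Fin N → Matrix (Fin (n * dg F)) (Fin (n * dg F)) ℂ}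
    {X : Fin N → Matrix (Fin n) (Fin n) ℂ} (h : ∀ j, omM n (φ j) * X' j = X j * omM n (φ j)) : dwn φ X' = X := by
  funext j
  refine Matrix.ext fun a c => ?_
  exact (entry_eq (h j) a c).symm

/-- **the descent of a symmetry is a symmetry** -/
theorem dwn_mem {b : Fin N → ℕ} (φ : Fin N → F →+* ℂ) {Z W : Fin N → Matrix (Fin n) (Fin n) F⟦X⟧} (hWZ : ∀ j, W j * Z j = 1)
    {X' : Fin N → Matrix (Fin (n * dg F)) (Fin (n * dg F)) ℂ} (hX : X' ∈ symS b (fun j => rsM (Z j))) :
    dwn φ X' ∈ symF b φ Z := by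
  classical
  choose X hXX using om_X φ hWZ hX
  rw [dwn_eq hXX]
  intro c
  have hc : ∀ j, (omM n (φ j)).map (PowerSeries.C (R := ℂ)) *
      (if b j = c then X' j else 0 : Matrix (Fin (n * dg F)) (Fin (n * dg F)) ℂ).map (PowerSeries.C (R := ℂ)) =
      (if b j = c then X j else 0 : Matrix (Fin n) (Fin n) ℂ).map (PowerSeries.C (R := ℂ)) *
        (omM n (φ j)).map (PowerSeries.C (R := ℂ)) := by
    intro j
    rw [← Matrix.map_mul, ← Matrix.map_mul]
    congr 1
    by_cases hj : b j = c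
    · rw [if_pos hj, if_pos hj]
      exact hXX j
    · rw [if_neg hj, if_neg hj, Matrix.mul_zero, Matrix.zero_mul]
  refine Tg_comp (fun s : Fin N × Fin n × Fin n => ∑ p : Fin (dg F) × Fin (dg F),
    MvPolynomial.C (((one₁ F p.1 : ℚ) : ℂ) * Om F (φ s.1) p.2) *
      MvPolynomial.X (some (s.1, finProdFinEquiv (s.2.1, p.2), finProdFinEquiv (s.2.2, p.1)))) (fun s => ?_) (fun s => ?_)
    (tg_of_inf (hX c))
  · rw [lin_ev Finset.univ (fun p : Fin (dg F) × Fin (dg F) => ((one₁ F p.1 : ℚ) : ℂ) * Om F (φ s.1) p.2)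
      (fun p => (s.1, finProdFinEquiv (s.2.1, p.2), finProdFinEquiv (s.2.2, p.1)))]
    exact (entry_ps (cpart_om b φ Z c s.1) s.2.1 s.2.2).symm
  · rw [lin_dl Finset.univ (fun p : Fin (dg F) × Fin (dg F) => ((one₁ F p.1 : ℚ) : ℂ) * Om F (φ s.1) p.2)
      (fun p => (s.1, finProdFinEquiv (s.2.1, p.2), finProdFinEquiv (s.2.2, p.1)))]
    refine (entry_ps (φ := φ s.1) (V := (if b s.1 = c then X s.1 else 0 : Matrix (Fin n) (Fin n) ℂ).map (PowerSeries.C (R := ℂ)) *
      embY b φ Z c s.1) (M := (if b s.1 = c then X' s.1 else 0 : Matrix (Fin (n * dg F)) (Fin (n * dg F)) ℂ).map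
        (PowerSeries.C (R := ℂ)) * cpart b Z c s.1) ?_ s.2.1 s.2.2).symm
    rw [← Matrix.mul_assoc, hc, Matrix.mul_assoc, cpart_om, Matrix.mul_assoc]

theorem totalDegree_aeval_X {s : ℕ} (p : Polynomial ℚ) :
    (Polynomial.aeval (MvPolynomial.X none : MvPolynomial (Option (Fin s)) ℚ) p).totalDegree ≤ p.natDegree := by
  rw [Polynomial.aeval_eq_sum_range]
  refine MvPolynomial.totalDegree_finsetSum_le fun i hi => ?_
  rw [Finset.mem_range] at hi
  refine (MvPolynomial.totalDegree_smul_le _ _).trans ?_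
  refine (MvPolynomial.totalDegree_pow _ _).trans ?_
  rw [MvPolynomial.totalDegree_X]
  omega

/-- the elements of the number field are algebraic of bounded degree -/
theorem alg_phi {s : ℕ} (bs : Fin s → ℂ) (φ : F →+* ℂ) (x : F) : AlgD (dg F) bs (φ x) := by
  classical
  have hx : IsIntegral ℚ x := Algebra.IsIntegral.isIntegral x
  have h0 : minpoly ℚ x ≠ 0 := minpoly.ne_zero hx
  have hev : ∀ y : ℂ, MvPolynomial.aeval (fun o : Option (Fin s) => o.elim y bs)
      (Polynomial.aeval (MvPolynomial.X none : MvPolynomial (Option (Fin s)) ℚ) (minpoly ℚ x)) = Polynomial.aeval y (minpoly ℚ x) := by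
    intro y
    rw [← Polynomial.aeval_algHom_apply, MvPolynomial.aeval_X]
    rfl
  refine ⟨Polynomial.aeval (MvPolynomial.X none) (minpoly ℚ x), (totalDegree_aeval_X _).trans (minpoly.natDegree_le x), ?_, ?_⟩
  · rw [hev]
    have h1 : Polynomial.aeval (φ.toRatAlgHom x) (minpoly ℚ x) = φ.toRatAlgHom (Polynomial.aeval x (minpoly ℚ x)) :=
      Polynomial.aeval_algHom_apply _ _ _
    rw [minpoly.aeval, map_zero] at h1
    exact h1
  · have h1 : (minpoly ℚ x).map (algebraMap ℚ ℂ) ≠ 0 := (Polynomial.map_ne_zero_iff (algebraMap ℚ ℂ).injective).2 h0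
    obtain ⟨y, hy⟩ : ∃ y, ((minpoly ℚ x).map (algebraMap ℚ ℂ)).eval y ≠ 0 := by
      by_contra hcon
      push Not at hcon
      exact h1 (Polynomial.funext fun y => by rw [hcon y, Polynomial.eval_zero])
    refine ⟨y, ?_⟩
    rw [hev]
    rwa [Polynomial.aeval_def, ← Polynomial.eval_map]

/-- **the space of the symmetries is spanned by algebraic matrices** -/
theorem symF_rat {q : ℕ} {H : ℝ} {b : Fin N → ℕ} {φ : Fin N → F →+* ℂ} {Z W : Fin N → Matrix (Fin n) (Fin n) F⟦X⟧}
    {T : Fin N → Polynomial ℤ} {B : Fin N → Fin (n * dg F) → Fin (n * dg F) → Polynomial ℤ}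
    (hS : ∀ j, Sys (N := 1) q H (T j) (fun _ => B j) (fun _ => rsM (Z j)) (fun _ => rsM (W j))) (hT : ∀ j, T j ≠ 0)
    (hWZ : ∀ j, W j * Z j = 1) {s : ℕ} (bs : Fin s → ℂ) {e : ℕ} (he : dg F ≤ e) :
    symF b φ Z ≤ Submodule.span ℂ (algP e bs (symF b φ Z)) := by
  classical
  intro X hX
  obtain ⟨X', hX'1, hX'2⟩ := inf_lift hS hT hX
  have h1 : X' ∈ symS b (fun j => rsM (Z j)) := hX'1
  have h2 := symS_rat b (fun j => rsM (Z j)) h1
  rw [← dwn_eq hX'2]
  have h3 : Submodule.span ℂ (ratP (symS b fun j => rsM (Z j))) ≤ (Submodule.span ℂ (algP e bs (symF b φ Z))).comap (dwn φ) := by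
    rw [Submodule.span_le]
    intro Y hY
    refine Submodule.subset_span ⟨dwn_mem φ hWZ hY.1, fun j a c => ?_⟩
    choose r hr using hY.2
    have h4 : dwn φ Y j a c = φ j (∑ τ, ∑ υ, (one₁ F τ : F) * (BB F υ * (r j (finProdFinEquiv (a, υ)) (finProdFinEquiv (c, τ)) : F))) := by
      show ∑ τ, ∑ υ, ((one₁ F τ : ℚ) : ℂ) * (Om F (φ j) υ * Y j (finProdFinEquiv (a, υ)) (finProdFinEquiv (c, τ))) = _
      rw [map_sum (φ j)]
      refine Finset.sum_congr rfl fun τ _ => ?_
      rw [map_sum (φ j)]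
      refine Finset.sum_congr rfl fun υ _ => ?_
      rw [map_mul, map_mul, map_ratCast, map_ratCast, hr]
      rfl
    rw [h4]
    exact (alg_phi bs (φ j) _).mono he
  exact h3 h2

end Pool.Agent.H885
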