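import Pool.Agent.H885.UnifF
import Pool.Agent.H885.RatF2
import Mathlib.RingTheory.AlgebraicIndependent.AlgebraicClosure

/-!
# Tools for the uniform theorems over number fields
-/

set_option autoImplicit false
set_option linter.unusedSectionVars false
set_option linter.unusedVariables false

open Matrix Module Filter PowerSeries NumberField

namespace Pool.Agent.H885

variable {n N : ℕ} {F : Type} [Field F] [NumberField F]

/-- the space of the symmetries of families over a number field is spanned by algebraic matrices -/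
theorem symF_fam {q : ℕ} {H : ℝ} (hH : 1 ≤ H) {b : Fin N → ℕ} {φ : Fin N → F →+* ℂ}
    {Z W : Fin N → Matrix (Fin n) (Fin n) F⟦X⟧}
    {T : Fin N → Polynomial (𝓞 F)} {A : Fin N → Fin n → Fin n → Polynomial (𝓞 F)}
    (hS : ∀ j, FamF q H (T j) (A j) (Z j) (W j)) {s : ℕ} (bs : Fin s → ℂ) {e : ℕ} (he : dg F ≤ e) :
    symF b φ Z ≤ Submodule.span ℂ (algP e bs (symF b φ Z)) := by
  obtain ⟨q', E₀, h⟩ := sysF F n q
  exact symF_rat (fun j => (h H hH _ _ _ _ (hS j)).2) (fun j => (h H hH _ _ _ _ (hS j)).1) (fun j => (hS j).inv) bs he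

/-- algebraic independence over the field generated by the empty family -/
theorem ind_empty {a : ℕ} {θ : Fin a → ℂ} (h : AlgebraicIndependent ℚ θ) (η : Fin 0 → ℂ) :
    AlgebraicIndependent (IntermediateField.adjoin ℚ (Set.range η)) θ := by
  have h1 : Algebra.IsAlgebraic ℚ (IntermediateField.adjoin ℚ (Set.range η)) := by
    rw [Set.range_eq_empty, IntermediateField.adjoin_empty]
    infer_instance
  exact h.extendScalars _

/-- algebraic numbers of bounded degree -/
def AlgN (e : ℕ) (y : ℂ) : Prop := ∃ p : Polynomial ℚ, p ≠ 0 ∧ p.natDegree ≤ e ∧ Polynomial.aeval y p = 0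

theorem AlgN.toD {e : ℕ} {y : ℂ} (h : AlgN e y) {s : ℕ} (bs : Fin s → ℂ) : AlgD e bs y := by
  classical
  obtain ⟨p, hp0, hpe, hp⟩ := h
  have hev : ∀ y : ℂ, MvPolynomial.aeval (fun o : Option (Fin s) => o.elim y bs)
      (Polynomial.aeval (MvPolynomial.X none : MvPolynomial (Option (Fin s)) ℚ) p) = Polynomial.aeval y p := by
    intro y
    rw [← Polynomial.aeval_algHom_apply, MvPolynomial.aeval_X]
    rfl
  refine ⟨Polynomial.aeval (MvPolynomial.X none) p, (totalDegree_aeval_X _).trans hpe, ?_, ?_⟩
  · rw [hev]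
    exact hp
  · have h1 : p.map (algebraMap ℚ ℂ) ≠ 0 := (Polynomial.map_ne_zero_iff (algebraMap ℚ ℂ).injective).2 hp0
    obtain ⟨y, hy⟩ : ∃ y, (p.map (algebraMap ℚ ℂ)).eval y ≠ 0 := by
      by_contra hcon
      push Not at hcon
      exact h1 (Polynomial.funext fun y => by rw [hcon y, Polynomial.eval_zero])
    refine ⟨y, ?_⟩
    rw [hev]
    rwa [Polynomial.aeval_def, ← Polynomial.eval_map]

/-- the numbers `b i` are algebraic of degree one over themselves -/
theorem algD_self {s : ℕ} (b : Fin s → ℂ) (i : Fin s) : AlgD 1 b (b i) := by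
  have hev : ∀ y : ℂ, MvPolynomial.aeval (fun o : Option (Fin s) => o.elim y b)
      (MvPolynomial.X none - MvPolynomial.X (some i) : MvPolynomial (Option (Fin s)) ℚ) = y - b i := by
    intro y
    rw [map_sub, MvPolynomial.aeval_X, MvPolynomial.aeval_X]
    rfl
  refine ⟨MvPolynomial.X none - MvPolynomial.X (some i), ?_, ?_, b i + 1, ?_⟩
  · refine (MvPolynomial.totalDegree_sub _ _).trans ?_
    rw [MvPolynomial.totalDegree_X, MvPolynomial.totalDegree_X]
    exact le_of_eq (max_self 1)
  · rw [hev, sub_self]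
  · rw [hev]
    simp

/-- the empty family is algebraically independent -/
theorem ind_zero {u : ℕ} (η : Fin u → ℂ) (θ : Fin 0 → ℂ) :
    AlgebraicIndependent (IntermediateField.adjoin ℚ (Set.range η)) θ := by
  rw [algebraicIndependent_empty_type_iff]
  exact FaithfulSMul.algebraMap_injective _ _

end Pool.Agent.H885
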