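import Pool.Agent.H885.UnifZW
import Pool.Agent.H885.UnifG

/-!
# de Rham–Betti classes and derivations of the ultrapower
-/

set_option autoImplicit false
set_option linter.unusedSectionVars false
set_option linter.unusedVariables false

open Matrix Module Filter

namespace Pool.Agent.H885.DRB

open Pool.Agent.Helper880_R3 (Ix)
open Pool.Agent.Helper880_LF.NB (gm gm_mul gm_add gm_sub gm_smul gm_zero gm_ev gm_eq gm_surj gm_neg gm_apply gm_one gm_unit
  dm dm_mul dm_smul)
open Pool.Agent.Y118.UL (mk mk_eq mk_eq_zero mk_ne_zero mk_surj ev_ge U)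
open Pool.Agent.Helper880_ZP (Us mem_Us mem_Us_of Compat)

section
variable {B : Type} [Fintype B] [DecidableEq B]

/-- the infinitesimal action of matrices on tensors -/
def act {F : Type} [CommRing F] {d : ℕ} (X : Matrix B B F) (v : (Fin d → B) → F) : (Fin d → B) → F :=
  fun i => ∑ l, ∑ b, X (i l) b * v (Function.update i l b)

theorem act_add {F : Type} [CommRing F] {d : ℕ} (X Y : Matrix B B F) (v : (Fin d → B) → F) (i : Fin d → B) :
    act (X + Y) v i = act X v i + act Y v i := by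
  unfold act
  simp only [Matrix.add_apply, add_mul, Finset.sum_add_distrib]

theorem act_smul {F : Type} [CommRing F] {d : ℕ} (c : F) (X : Matrix B B F) (v : (Fin d → B) → F) (i : Fin d → B) :
    act (c • X) v i = c * act X v i := by
  unfold act
  simp only [Matrix.smul_apply, smul_eq_mul, mul_assoc, Finset.mul_sum]

theorem act_one {F : Type} [CommRing F] {d : ℕ} (v : (Fin d → B) → F) (i : Fin d → B) :
    act (1 : Matrix B B F) v i = (d : F) * v i := by
  unfold act
  have h1 : ∀ l : Fin d, ∑ b, (1 : Matrix B B F) (i l) b * v (Function.update i l b) = v i := by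
    intro l
    rw [Finset.sum_eq_single (i l)]
    · rw [Matrix.one_apply_eq, one_mul, Function.update_eq_self]
    · intro b _ hb
      rw [Matrix.one_apply_ne (Ne.symm hb), zero_mul]
    · intro h
      exact absurd (Finset.mem_univ _) h
  rw [Finset.sum_congr rfl fun l _ => h1 l, Finset.sum_const, Finset.card_univ, Fintype.card_fin, nsmul_eq_mul]

/-- the comparison isomorphism `P` maps the tensor `α` to `τ β`; the coordinates are algebraic numbers -/
structure Cls (e d : ℕ) (P : Matrix B B ℂ) (α β : (Fin d → B) → ℂ) (τ : ℂ) : Prop where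
  ne : τ ≠ 0
  algα : ∀ k, AlgN e (α k)
  algβ : ∀ i, AlgN e (β i)
  cmp : ∀ i, ∑ k : Fin d → B, (∏ l, P (i l) (k l)) * α k = τ * β i

/-- the Lie algebra of all matrices which preserve the lines spanned by the classes of degree at most `D` -/
def dRB (e D : ℕ) (P : Matrix B B ℂ) : Submodule ℂ (Matrix B B ℂ) where
  carrier := {X | ∀ d ≤ D, ∀ (α β : (Fin d → B) → ℂ) (τ : ℂ), Cls e d P α β τ → ∃ c : ℂ, ∀ i, act X β i = c * β i}
  zero_mem' := by
    intro d _ α β τ _
    refine ⟨0, fun i => ?_⟩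
    have h1 := act_smul (0 : ℂ) (0 : Matrix B B ℂ) β i
    rw [zero_smul, zero_mul] at h1
    rw [h1, zero_mul]
  add_mem' := by
    intro X Y hX hY d hd α β τ h
    obtain ⟨c, hc⟩ := hX d hd α β τ h
    obtain ⟨c', hc'⟩ := hY d hd α β τ h
    exact ⟨c + c', fun i => by rw [act_add, hc, hc', add_mul]⟩
  smul_mem' := by
    intro a X hX d hd α β τ h
    obtain ⟨c, hc⟩ := hX d hd α β τ h
    exact ⟨a * c, fun i => by rw [act_smul, hc, mul_assoc]⟩

theorem one_mem (e D : ℕ) (P : Matrix B B ℂ) : 1 ∈ dRB e D P :=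
  fun d _ _ β _ _ => ⟨d, fun i => act_one β i⟩

theorem der_prod {k Ω : Type} [Field k] [Field Ω] [Algebra k Ω] (δ : Derivation k Ω Ω) {ι : Type} [DecidableEq ι]
    (s : Finset ι) (f : ι → Ω) : δ (∏ l ∈ s, f l) = ∑ l ∈ s, (∏ l' ∈ s.erase l, f l') * δ (f l) := by
  induction s using Finset.induction_on with
  | empty => simp
  | insert a s ha ih =>
    rw [Finset.prod_insert ha, Derivation.leibniz, ih, Finset.sum_insert ha, Finset.erase_insert ha, smul_eq_mul,
      smul_eq_mul, Finset.mul_sum, add_comm]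
    congr 1
    refine Finset.sum_congr rfl fun l hl => ?_
    have h1 : l ≠ a := fun h => ha (h ▸ hl)
    rw [Finset.erase_insert_of_ne (Ne.symm h1), Finset.prod_insert (fun h => ha (Finset.mem_of_mem_erase h)), mul_assoc]

/-- the action of the logarithmic derivative of `P` on a class -/
theorem der_act {k Ω : Type} [Field k] [Field Ω] [Algebra k Ω] (δ : Derivation k Ω Ω) {P : Matrix B B Ω}
    (hP : IsUnit P.det) {d : ℕ} {α β : (Fin d → B) → Ω} {τ : Ω} (hα : ∀ i, δ (α i) = 0) (hβ : ∀ i, δ (β i) = 0) (hτ : τ ≠ 0)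
    (h : ∀ i, ∑ K : Fin d → B, (∏ l, P (i l) (K l)) * α K = τ * β i) (i : Fin d → B) :
    act (dm δ P * P⁻¹) β i = τ⁻¹ * δ τ * β i := by
  classical
  set A := dm δ P * P⁻¹ with hA
  have h0 : A * P = dm δ P := by rw [hA, Matrix.nonsing_inv_mul_cancel_right _ _ hP]
  have h1 : ∀ a b, δ (P a b) = ∑ c, A a c * P c b := by
    intro a b
    have h2 := congrFun (congrFun h0 a) b
    rw [Matrix.mul_apply] at h2
    rw [h2]
    rfl
  have h2 := congrArg δ (h i)
  rw [Derivation.leibniz, hβ, smul_zero, zero_add, smul_eq_mul, map_sum] at h2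
  have h3 : ∀ K : Fin d → B, δ ((∏ l, P (i l) (K l)) * α K) =
      ∑ l, ∑ c, A (i l) c * ((∏ l', P (Function.update i l c l') (K l')) * α K) := by
    intro K
    rw [Derivation.leibniz, hα, smul_zero, zero_add, smul_eq_mul, der_prod, Finset.mul_sum]
    refine Finset.sum_congr rfl fun l _ => ?_
    rw [h1, Finset.mul_sum, Finset.mul_sum]
    refine Finset.sum_congr rfl fun c _ => ?_
    have h4 : ∏ l', P (Function.update i l c l') (K l') = P c (K l) * ∏ l' ∈ Finset.univ.erase l, P (i l') (K l') := by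
      rw [← Finset.mul_prod_erase _ _ (Finset.mem_univ l), Function.update_self]
      congr 1
      refine Finset.prod_congr rfl fun l' hl' => ?_
      rw [Function.update_of_ne (Finset.ne_of_mem_erase hl')]
    rw [h4]
    ring
  rw [Finset.sum_congr rfl fun K _ => h3 K, Finset.sum_comm] at h2
  have h5 : ∀ l : Fin d, ∑ K : Fin d → B, ∑ c, A (i l) c * ((∏ l', P (Function.update i l c l') (K l')) * α K) =
      ∑ c, A (i l) c * (τ * β (Function.update i l c)) := by
    intro l
    rw [Finset.sum_comm]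
    refine Finset.sum_congr rfl fun c _ => ?_
    rw [← Finset.mul_sum, h]
  rw [Finset.sum_congr rfl fun l _ => h5 l] at h2
  have h6 : τ * act A β i = β i * δ τ := by
    rw [← h2]
    unfold act
    rw [Finset.mul_sum]
    refine Finset.sum_congr rfl fun l _ => ?_
    rw [Finset.mul_sum]
    refine Finset.sum_congr rfl fun c _ => ?_
    ring
  have h7 : act A β i = τ⁻¹ * (τ * act A β i) := by rw [inv_mul_cancel_left₀ hτ]
  rw [h7, h6]
  ring

theorem mk_tensor {d : ℕ} (P : ℕ → Matrix B B ℂ) (α : ℕ → (Fin d → B) → ℂ) (i : Fin d → B) :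
    ∑ K : Fin d → B, (∏ l, gm P (i l) (K l)) * mk ℂ (fun k => α k K) =
      mk ℂ fun k => ∑ K : Fin d → B, (∏ l, P k (i l) (K l)) * α k K := by
  have h1 : (fun k => ∑ K : Fin d → B, (∏ l, P k (i l) (K l)) * α k K) =
      ∑ K : Fin d → B, (∏ l, fun k => P k (i l) (K l)) * fun k => α k K := by
    funext k
    rw [Finset.sum_apply]
    refine Finset.sum_congr rfl fun K _ => ?_
    rw [Pi.mul_apply, Finset.prod_apply]
  rw [h1, map_sum]
  refine Finset.sum_congr rfl fun K _ => ?_
  rw [map_mul, map_prod]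
  rfl

theorem mk_act {d : ℕ} (F : ℕ → Matrix B B ℂ) (β : ℕ → (Fin d → B) → ℂ) (i : Fin d → B) :
    act (gm F) (fun i => mk ℂ fun k => β k i) i = mk ℂ fun k => act (F k) (β k) i := by
  have h1 : (fun k => act (F k) (β k) i) =
      ∑ l, ∑ b, (fun k => F k (i l) b) * fun k => β k (Function.update i l b) := by
    funext k
    rw [Finset.sum_apply]
    refine Finset.sum_congr rfl fun l _ => ?_
    rw [Finset.sum_apply]
    rfl
  rw [h1, map_sum]
  unfold act
  refine Finset.sum_congr rfl fun l _ => ?_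
  rw [map_sum]
  refine Finset.sum_congr rfl fun b _ => ?_
  rw [map_mul]
  rfl

/-- **Logarithmic derivatives preserve the classes.** -/
theorem der_mem {e D : ℕ} {P : ℕ → Matrix B B ℂ} (hP : ∀ k, (P k).det ≠ 0) (δ : Derivation (U ℚ) (U ℂ) (U ℂ)) :
    dm δ (gm P) * (gm P)⁻¹ ∈ Us fun k => dRB e D (P k) := by
  classical
  obtain ⟨F, hF⟩ := gm_surj (dm δ (gm P) * (gm P)⁻¹)
  rw [← hF, mem_Us]
  by_contra hcon
  have h1 := Ultrafilter.eventually_not.2 hcon
  set Q : ℕ → ℕ → Prop := fun d k => ∃ (α β : (Fin d → B) → ℂ) (τ : ℂ), Cls e d (P k) α β τ ∧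
    ¬ ∃ c : ℂ, ∀ i, act (F k) β i = c * β i with hQ
  have h2 : ∀ᶠ k in (hyperfilter ℕ : Filter ℕ), ∃ d : Fin (D + 1), Q d k := by
    filter_upwards [h1] with k hk
    have h3 : ¬ ∀ d ≤ D, ∀ (α β : (Fin d → B) → ℂ) (τ : ℂ), Cls e d (P k) α β τ → ∃ c : ℂ, ∀ i, act (F k) β i = c * β i := hk
    push Not at h3
    obtain ⟨d, hd, α, β, τ, h4, h5⟩ := h3
    refine ⟨⟨d, by omega⟩, α, β, τ, h4, ?_⟩
    push Not
    exact h5
  obtain ⟨d, hd⟩ : ∃ d : Fin (D + 1), ∀ᶠ k in (hyperfilter ℕ : Filter ℕ), Q d k := by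
    by_contra hno
    push Not at hno
    have h3 : ∀ᶠ k in (hyperfilter ℕ : Filter ℕ), ∀ d : Fin (D + 1), ¬ Q d k :=
      Filter.eventually_all.2 hno
    obtain ⟨k, ⟨d, hk1⟩, hk2⟩ := (h2.and h3).exists
    exact hk2 d hk1
  obtain ⟨k₀, hk₀⟩ := hd.exists
  set g : ℕ → ℕ := fun k => if Q d k then k else k₀ with hg
  have hgQ : ∀ k, Q d (g k) := by
    intro k
    rw [hg]
    simp only
    split_ifs with h
    · exact h
    · exact hk₀
  have hgk : ∀ᶠ k in (hyperfilter ℕ : Filter ℕ), g k = k := by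
    filter_upwards [hd] with k hk
    rw [hg]
    exact if_pos hk
  choose α β τ hcl hno using hgQ
  have hPg : gm P = gm fun k => P (g k) := gm_ev.2 (by
    filter_upwards [hgk] with k hk
    rw [hk])
  have hFg : gm F = gm fun k => F (g k) := gm_ev.2 (by
    filter_upwards [hgk] with k hk
    rw [hk])
  have hu : IsUnit (gm P).det := gm_unit hP
  have hτ : mk ℂ τ ≠ 0 := mk_ne_zero.2 (Filter.Eventually.of_forall fun k => (hcl k).ne)
  have halg : ∀ y : ℕ → ℂ, (∀ k, AlgN e (y k)) → δ (mk ℂ y) = 0 := fun y hy =>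
    der_algD (s := 0) (e := e) (b := fun _ i => i.elim0) (fun k => (hy k).toD _) fun i => i.elim0
  have h3 : ∀ i, ∑ K : Fin d → B, (∏ l, gm P (i l) (K l)) * mk ℂ (fun k => α k K) = mk ℂ τ * mk ℂ fun k => β k i := by
    intro i
    rw [hPg, mk_tensor, ← map_mul]
    congr 1
    funext k
    exact (hcl k).cmp i
  obtain ⟨c, hc⟩ := mk_surj ((mk ℂ τ)⁻¹ * δ (mk ℂ τ))
  have h4 : ∀ i, mk ℂ (fun k => act (F (g k)) (β k) i) = mk ℂ fun k => c k * β k i := by
    intro i
    have h5 := der_act δ hu (fun K => halg _ fun k => (hcl k).algα K) (fun i => halg _ fun k => (hcl k).algβ i) hτ h3 i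
    rw [← hF, hFg, mk_act, ← hc, ← map_mul] at h5
    exact h5
  have h5 : ∀ᶠ k in (hyperfilter ℕ : Filter ℕ), ∀ i, act (F (g k)) (β k) i = c k * β k i :=
    Filter.eventually_all.2 fun i => mk_eq.1 (h4 i)
  obtain ⟨k, hk⟩ := h5.exists
  exact hno k ⟨c k, hk⟩

end

theorem compat_dRB (r₀ n N e D : ℕ) : Compat (r₀ := r₀) (n := n) (N := N) fun P R => R = dRB e D P :=
  ⟨fun P R h => h ▸ one_mem e D P, fun P R hP hR δ => by
    have h1 : R = fun k => dRB e D (P k) := funext hR
    rw [h1]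
    exact der_mem hP δ⟩

end Pool.Agent.H885.DRB
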