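import Pool.Agent.H885.DRB

/-!
# Orbits of vectors under big Lie algebras
-/

set_option autoImplicit false

open Module
open scoped Matrix

namespace Pool.Agent.H885.DRB

theorem rn {V W : Type} [AddCommGroup V] [Module ℂ V] [FiniteDimensional ℂ V] [AddCommGroup W] [Module ℂ W]
    (f : V →ₗ[ℂ] W) (p : Submodule ℂ V) :
    finrank ℂ (p.map f) + finrank ℂ (p ⊓ LinearMap.ker f : Submodule ℂ V) = finrank ℂ p := by
  have h := LinearMap.finrank_range_add_finrank_ker (f.domRestrict p)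
  rw [LinearMap.range_domRestrict] at h
  have h2 : finrank ℂ (LinearMap.ker (f.domRestrict p)) = finrank ℂ (p ⊓ LinearMap.ker f : Submodule ℂ V) := by
    have h3 : (LinearMap.ker (f.domRestrict p)).map p.subtype = p ⊓ LinearMap.ker f := by
      ext y
      constructor
      · rintro ⟨z, hz, rfl⟩
        exact ⟨z.2, hz⟩
      · rintro ⟨h4, h5⟩
        exact ⟨⟨y, h4⟩, h5, rfl⟩
    rw [← h3]
    exact (Submodule.equivMapOfInjective p.subtype p.injective_subtype _).finrank_eq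
  omega

/-- the orbit of a vector under the Lie algebra of an orthogonal group -/
theorem so_orbit {n : ℕ} {B C : Matrix (Fin n) (Fin n) ℂ} (hB : IsUnit B) (hBs : Bᵀ = B) (hC : IsUnit C.det)
    {β : Fin n → ℂ} (hβ : β ≠ 0) (W : Submodule ℂ (Fin n → ℂ))
    (hW : ∀ X : Matrix (Fin n) (Fin n) ℂ, X * B + B * Xᵀ = 0 → (C * X * C⁻¹) *ᵥ β ∈ W) : n ≤ finrank ℂ W + 1 := by
  classical
  have hBd := (Matrix.isUnit_iff_isUnit_det _).1 hB
  set v := C⁻¹ *ᵥ β with hv
  set u := B⁻¹ *ᵥ v with hu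
  have hCv : C *ᵥ v = β := by rw [hv, Matrix.mulVec_mulVec, Matrix.mul_nonsing_inv _ hC, Matrix.one_mulVec]
  have hBu : B *ᵥ u = v := by rw [hu, Matrix.mulVec_mulVec, Matrix.mul_nonsing_inv _ hBd, Matrix.one_mulVec]
  have hu0 : u ≠ 0 := by
    intro h
    rw [h, Matrix.mulVec_zero] at hBu
    rw [← hBu, Matrix.mulVec_zero] at hCv
    exact hβ hCv.symm
  obtain ⟨i, hi⟩ := Function.ne_iff.1 hu0
  rw [Pi.zero_apply] at hi
  let φ : (Fin n → ℂ) →ₗ[ℂ] ℂ :=
    { toFun := fun w => u ⬝ᵥ w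
      map_add' := fun w w' => dotProduct_add u w w'
      map_smul' := fun c w => dotProduct_smul c u w }
  have hker : n ≤ finrank ℂ (LinearMap.ker φ) + 1 := by
    have h1 := LinearMap.finrank_range_add_finrank_ker φ
    rw [finrank_fin_fun] at h1
    have h2 : finrank ℂ (LinearMap.range φ) ≤ 1 := (Submodule.finrank_le _).trans (by rw [finrank_self])
    omega
  have hinj : Function.Injective C.mulVecLin := by
    intro a b hab
    have h1 : C *ᵥ a = C *ᵥ b := hab
    have h2 := congrArg (fun w => C⁻¹ *ᵥ w) h1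
    simp only [Matrix.mulVec_mulVec, Matrix.nonsing_inv_mul _ hC, Matrix.one_mulVec] at h2
    exact h2
  have hle : (LinearMap.ker φ).map C.mulVecLin ≤ W := by
    rintro _ ⟨w, hw, rfl⟩
    have hw' : u ⬝ᵥ w = 0 := hw
    set S : Matrix (Fin n) (Fin n) ℂ := (u i)⁻¹ • (Matrix.vecMulVec w (Pi.single i 1) - Matrix.vecMulVec (Pi.single i 1) w) with hS
    have hSt : Sᵀ = -S := by
      rw [hS, Matrix.transpose_smul, Matrix.transpose_sub, Matrix.transpose_vecMulVec, Matrix.transpose_vecMulVec, ← smul_neg,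
        neg_sub]
    have hSu : S *ᵥ u = w := by
      funext a
      have h1 : (S *ᵥ u) a = (u i)⁻¹ * (w a * u i - (Pi.single i 1 : Fin n → ℂ) a * (w ⬝ᵥ u)) := by
        rw [hS, Matrix.smul_mulVec, Pi.smul_apply, smul_eq_mul, Matrix.sub_mulVec, Pi.sub_apply]
        congr 2
        · show ∑ b, w a * (Pi.single i 1 : Fin n → ℂ) b * u b = _
          rw [Finset.sum_eq_single i]
          · rw [Pi.single_eq_same, mul_one]
          · intro b _ hb
            rw [Pi.single_eq_of_ne hb, mul_zero, zero_mul]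
          · intro h
            exact absurd (Finset.mem_univ _) h
        · show ∑ b, (Pi.single i 1 : Fin n → ℂ) a * w b * u b = _
          rw [dotProduct, Finset.mul_sum]
          exact Finset.sum_congr rfl fun b _ => by rw [mul_assoc]
      rw [h1, dotProduct_comm, hw', mul_zero, sub_zero, mul_comm (w a), inv_mul_cancel_left₀ hi]
    have h1 := hW (S * B⁻¹) (by
      rw [Matrix.transpose_mul, Matrix.transpose_nonsing_inv, hBs, hSt, Matrix.nonsing_inv_mul_cancel_right _ _ hBd,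
        ← Matrix.mul_assoc, Matrix.mul_nonsing_inv _ hBd, Matrix.one_mul, add_neg_cancel])
    have h2 : (C * (S * B⁻¹) * C⁻¹) *ᵥ β = C.mulVecLin w := by
      rw [← Matrix.mulVec_mulVec, ← hv, ← Matrix.mulVec_mulVec, ← Matrix.mulVec_mulVec, ← hu, hSu]
      rfl
    rw [← h2]
    exact h1
  have h3 := Submodule.finrank_mono hle
  have h4 := (Submodule.equivMapOfInjective C.mulVecLin hinj (LinearMap.ker φ)).finrank_eq
  omega

/-- spaces of tuples which preserve the line of a vector in one component -/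
theorem line_orbit {n N r : ℕ} (j : Fin N) {B C : Matrix (Fin n) (Fin n) ℂ} (hB : IsUnit B) (hBs : Bᵀ = B) (hC : IsUnit C.det)
    {β : Fin n → ℂ} (hβ : β ≠ 0) (S K : Submodule ℂ (Fin N → Matrix (Fin n) (Fin n) ℂ)) (hKS : K ≤ S)
    (hS : ∀ X : Matrix (Fin n) (Fin n) ℂ, X * B + B * Xᵀ = 0 →
      (Pi.single j (C * X * C⁻¹) : Fin N → Matrix (Fin n) (Fin n) ℂ) ∈ S)
    (hK : ∀ Y ∈ K, ∃ c : ℂ, Y j *ᵥ β = c • β) (h : finrank ℂ S ≤ finrank ℂ K + r) : n ≤ r + 2 := by
  classical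
  let ψ : (Fin N → Matrix (Fin n) (Fin n) ℂ) →ₗ[ℂ] (Fin n → ℂ) :=
    { toFun := fun Y => Y j *ᵥ β
      map_add' := fun Y Y' => by rw [Pi.add_apply, Matrix.add_mulVec]
      map_smul' := fun c Y => by rw [Pi.smul_apply, Matrix.smul_mulVec, RingHom.id_apply] }
  have h1 := rn ψ S
  have h2 := rn ψ K
  have h3 : finrank ℂ (K.map ψ) ≤ 1 := by
    have h4 : K.map ψ ≤ Submodule.span ℂ {β} := by
      rintro _ ⟨Y, hY, rfl⟩
      obtain ⟨c, hc⟩ := hK Y hY
      exact Submodule.mem_span_singleton.2 ⟨c, hc.symm⟩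
    exact (Submodule.finrank_mono h4).trans (finrank_span_singleton hβ).le
  have h4 : finrank ℂ (K ⊓ LinearMap.ker ψ : Submodule ℂ (Fin N → Matrix (Fin n) (Fin n) ℂ)) ≤
      finrank ℂ (S ⊓ LinearMap.ker ψ : Submodule ℂ (Fin N → Matrix (Fin n) (Fin n) ℂ)) :=
    Submodule.finrank_mono (inf_le_inf_right _ hKS)
  have h5 : n ≤ finrank ℂ (S.map ψ) + 1 := so_orbit hB hBs hC hβ _ fun X hX => by
    refine ⟨_, hS X hX, ?_⟩
    show (Pi.single j (C * X * C⁻¹) : Fin N → Matrix (Fin n) (Fin n) ℂ) j *ᵥ β = _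
    rw [Pi.single_eq_same]
  omega

end Pool.Agent.H885.DRB
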