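import Pool.Agent.H885.OrbU

/-!
# Relations of bounded degree between the values at one of several tuples of points
-/

set_option autoImplicit false
set_option linter.unusedSectionVars false
set_option linter.unusedVariables false

open Matrix Module Filter PowerSeries

namespace Pool.Agent.H885

open Pool.Agent.Y113 (ev Cv GSys ps)
open Pool.Agent.Y118.HV (Hv hh)
open Pool.Agent.Y120.GH (cx cx_mem Cw sf ou_shift ou_ev)
open Pool.Agent.Helper880_R3 hiding core final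
open Pool.Agent.Helper880_LF.NB hiding alg_core
open Pool.Agent.Y118.UL (mk mk_eq mk_eq_zero mk_ne_zero mk_surj ev_ge eval_mk rep qc qc_mk algebraMap_eq U)

variable {n N L s : ℕ}

/-- the data for several tuples of points -/
structure DatO (L n N s : ℕ) where
  bs : Fin s → ℂ
  C : Fin L → Fin N → Matrix (Fin n) (Fin n) ℂ
  H : ℝ
  T : Fin L → Fin N → Polynomial ℤ
  B : Fin L → Fin N → Fin n → Fin n → Polynomial ℤ
  Z : Fin L → Fin N → Matrix (Fin n) (Fin n) ℚ⟦X⟧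
  W : Fin L → Fin N → Matrix (Fin n) (Fin n) ℚ⟦X⟧
  ρ : ℝ
  w : ℕ
  b₀ : ℕ
  b : Fin L → Fin N → ℕ
  𝔤 : Fin L → Submodule ℂ (Fin N → Matrix (Fin n) (Fin n) ℂ)

/-- the rational elements -/
def ratP (𝔤 : Submodule ℂ (Fin N → Matrix (Fin n) (Fin n) ℂ)) : Set (Fin N → Matrix (Fin n) (Fin n) ℂ) :=
  {X | X ∈ 𝔤 ∧ ∀ j a b, ∃ q : ℚ, X j a b = q}

/-- the conditions -/
structure DatO.OK (q e E : ℕ) (d : DatO L n N s) : Prop where
  few : ∀ l a i j, AlgD e d.bs (d.C l a i j)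
  one_le : 1 ≤ d.H
  sys : ∀ l j, Sys (N := 1) q d.H (d.T l j) (fun _ => d.B l j) (fun _ => d.Z l j) (fun _ => d.W l j)
  T_ne : ∀ l j, d.T l j ≠ 0
  ρ_pos : 0 < d.ρ
  mem : ∀ l j a b, cx (d.Z l j a b) ∈ Cw d.ρ
  b_mem : ∀ l j, d.b₀ ≤ d.b l j ∧ d.b l j ≤ d.b₀ + d.w
  sep : ∀ l j l' j', ¬ (l = l' ∧ d.b l j = d.b l' j') → 2 * d.ρ < |(d.b l j : ℝ) - d.b l' j'|
  big : (2 * d.H * ((d.w : ℝ) + d.ρ + 2)) ^ E ≤ (d.b₀ : ℝ)
  inf : ∀ l, ∀ X ∈ d.𝔤 l, ∀ β, InfT (part (d.b l) (d.Z l) β) (fun j => if d.b l j = β then X j else 0)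
  rat : ∀ l, d.𝔤 l ≤ Submodule.span ℂ (ratP (d.𝔤 l))

/-- **The relations of bounded degree hold on the orbits.** -/
theorem uniformO (n N q s e δ L : ℕ) (hL : s < L) : ∃ E : ℕ, ∀ d : DatO L n N s, d.OK q e E → ∃ l,
    ∀ S : MvPolynomial (Fin N × Fin n × Fin n) ℂ, S.totalDegree ≤ δ → (∀ ν, AlgD e d.bs (S.coeff ν)) →
      MvPolynomial.eval (fun σ => (d.C l σ.1 * Hv (d.Z l σ.1) (d.b l σ.1)) σ.2.1 σ.2.2) S = 0 →
      ∀ g ∈ expG (d.𝔤 l : Set (Fin N → Matrix (Fin n) (Fin n) ℂ)),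
        MvPolynomial.eval (fun σ => (d.C l σ.1 * (g σ.1 * Hv (d.Z l σ.1) (d.b l σ.1))) σ.2.1 σ.2.2) S = 0 := by
  classical
  by_contra hcon
  simp only [not_exists] at hcon
  have h1 : ∀ k : ℕ, ∃ d : DatO L n N s, d.OK q e k ∧ ∀ l,
      ∃ S : MvPolynomial (Fin N × Fin n × Fin n) ℂ, S.totalDegree ≤ δ ∧ (∀ ν, AlgD e d.bs (S.coeff ν)) ∧
      MvPolynomial.eval (fun σ => (d.C l σ.1 * Hv (d.Z l σ.1) (d.b l σ.1)) σ.2.1 σ.2.2) S = 0 ∧
      ∃ g ∈ expG (d.𝔤 l : Set (Fin N → Matrix (Fin n) (Fin n) ℂ)),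
        MvPolynomial.eval (fun σ => (d.C l σ.1 * (g σ.1 * Hv (d.Z l σ.1) (d.b l σ.1))) σ.2.1 σ.2.2) S ≠ 0 := by
    intro k
    have h2 := hcon k
    push Not at h2
    obtain ⟨d, hd1, hd2⟩ := h2
    exact ⟨d, hd1, hd2⟩
  choose d hd S hS1 hS2 hS3 g hg1 hg2 using h1
  set z : ℕ → Fin L → Fin N → Matrix (Fin n) (Fin n) ℂ := fun k l j => Hv ((d k).Z l j) ((d k).b l j) with hz
  -- the derivations
  have hder : ∀ l, ∀ F : ℕ → Fin N → Matrix (Fin n) (Fin n) ℂ, (∀ k, F k ∈ (d k).𝔤 l) →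
      ∃ δ : Derivation (U ℚ) (U ℂ) (U ℂ), (∀ j, dm δ (gm fun k => z k l j) = gm fun k => F k j * z k l j) ∧
      ∀ l', l' ≠ l → ∀ j, dm δ (gm fun k => z k l' j) = 0 := by
    intro l F hF𝔤
    set X : ℕ → Fin L → Fin N → Matrix (Fin n) (Fin n) ℂ := fun k l' => if l' = l then F k else 0 with hX
    have hX𝔤 : ∀ k l', X k l' ∈ (d k).𝔤 l' := by
      intro k l'
      rw [hX]
      simp only
      split_ifs with h
      · subst h
        exact hF𝔤 k
      · exact ((d k).𝔤 l').zero_mem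
    obtain ⟨δ, hδ⟩ := hder_gen (z := fun k (i : Fin (L * N)) => z k (fs i) (sn i)) (X := fun k i => X k (fs i) (sn i))
      (fun e' => by
        obtain ⟨E, hE⟩ := curveP L N n q e' 
        filter_upwards [ev_ge E] with k hk P hPd hP s
        have hH := (hd k).one_le
        have hw0 : (0 : ℝ) ≤ (d k).w := by positivity
        have hρ := (hd k).ρ_pos
        refine hE (d k).H hH (d k).T (d k).B (d k).Z (d k).W (hd k).sys (hd k).T_ne (d k).ρ hρ (hd k).mem (d k).w (d k).b₀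
          (d k).b (hd k).b_mem (hd k).sep ((pow_le_pow_right₀ (by nlinarith) hk).trans (hd k).big) (X k)
          (fun l' β => (hd k).inf l' (X k l') (hX𝔤 k l') β) P hPd hP s)
    have hfs : ∀ l' j, fs (finProdFinEquiv (l', j) : Fin (L * N)) = l' := fun l' j => by
      unfold fs
      rw [Equiv.symm_apply_apply]
    have hsn : ∀ l' j, sn (finProdFinEquiv (l', j) : Fin (L * N)) = j := fun l' j => by
      unfold sn
      rw [Equiv.symm_apply_apply]
    have hδ' : ∀ l' j, dm δ (gm fun k => z k l' j) = gm fun k => X k l' j * z k l' j := by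
      intro l' j
      have h3 := hδ (finProdFinEquiv (l', j))
      simp only [hfs, hsn] at h3
      exact h3
    refine ⟨δ, fun j => ?_, fun l' hl' j => ?_⟩
    · rw [hδ']
      congr 1
      funext k
      rw [hX]
      simp only [if_true]
    · rw [hδ']
      have h3 : (fun k => X k l' j * z k l' j) = fun _ => 0 := by
        funext k
        rw [hX]
        simp only [if_neg hl', Pi.zero_apply, Matrix.zero_mul]
      rw [h3, gm_zero]
  let yz : Fin L → Fin N × Fin n × Fin n → U ℂ := fun l σ => mk ℂ fun k => z k l σ.1 σ.2.1 σ.2.2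
  -- the tangent spaces
  let 𝒱 : Fin L → Submodule (U ℂ) (Fin N × Fin n × Fin n → U ℂ) := fun l =>
    { carrier := {v | ∃ F : ℕ → Fin N → Matrix (Fin n) (Fin n) ℂ, (∀ k, F k ∈ (d k).𝔤 l) ∧
        ∀ σ, v σ = mk ℂ fun k => (F k σ.1 * z k l σ.1) σ.2.1 σ.2.2}
      zero_mem' := ⟨fun _ => 0, fun k => Submodule.zero_mem _, fun σ => by
        have h3 : (fun k => ((0 : Fin N → Matrix (Fin n) (Fin n) ℂ) σ.1 * z k l σ.1) σ.2.1 σ.2.2) = 0 := by
          funext k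
          rw [Pi.zero_apply, Matrix.zero_mul]
          rfl
        rw [h3, map_zero]
        rfl⟩
      add_mem' := by
        rintro v v' ⟨F, hF, h⟩ ⟨F', hF', h'⟩
        refine ⟨fun k => F k + F' k, fun k => Submodule.add_mem _ (hF k) (hF' k), fun σ => ?_⟩
        rw [Pi.add_apply, h, h', ← map_add]
        congr 1
        funext k
        show (F k σ.1 * z k l σ.1) σ.2.1 σ.2.2 + (F' k σ.1 * z k l σ.1) σ.2.1 σ.2.2 =
          ((F k σ.1 + F' k σ.1) * z k l σ.1) σ.2.1 σ.2.2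
        rw [Matrix.add_mul, Matrix.add_apply]
      smul_mem' := by
        rintro c v ⟨F, hF, h⟩
        obtain ⟨c, rfl⟩ := mk_surj c
        refine ⟨fun k => c k • F k, fun k => Submodule.smul_mem _ _ (hF k), fun σ => ?_⟩
        rw [Pi.smul_apply, h, smul_eq_mul, ← map_mul]
        congr 1
        funext k
        show c k * (F k σ.1 * z k l σ.1) σ.2.1 σ.2.2 = ((c k • F k σ.1) * z k l σ.1) σ.2.1 σ.2.2
        rw [Matrix.smul_mul, Matrix.smul_apply, smul_eq_mul] }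
  let 𝒲 : Submodule (U ℂ) (Derivation (U ℚ) (U ℂ) (U ℂ)) := ⨅ l, (𝒱 l).comap (evD (k := U ℚ) (yz l))
  have h𝒲 : ∀ δ, δ ∈ 𝒲 ↔ ∀ l, evD (k := U ℚ) (yz l) δ ∈ 𝒱 l := fun δ => Submodule.mem_iInf _
  let ev : Fin L → 𝒲 →ₗ[U ℂ] (Fin N × Fin n × Fin n → U ℂ) := fun l => (evD (k := U ℚ) (yz l)).comp 𝒲.subtype
  let yb : Fin s → U ℂ := fun i => mk ℂ fun k => (d k).bs i
  let Φ : 𝒲 →ₗ[U ℂ] (Fin s → U ℂ) := (evD (k := U ℚ) yb).comp 𝒲.subtype
  let Ψ : Fin L → 𝒲 →ₗ[U ℂ] (Fin 0 → U ℂ) := fun l => 0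
  have hdim : ∀ l, finrank (U ℂ) (𝒱 l) ≤
      finrank (U ℂ) ((⨅ l' : {l' : Fin L // l' ≠ l}, LinearMap.ker (ev l'.1)).map (ev l)) := by
    intro l
    refine Submodule.finrank_mono ?_
    rintro v ⟨F, hF1, hF2⟩
    obtain ⟨δ, hδ1, hδ2⟩ := hder l F hF1
    have h0 : ∀ l', l' ≠ l → evD (k := U ℚ) (yz l') δ = 0 := by
      intro l' hl'
      funext σ
      exact congrFun (congrFun (hδ2 l' hl' σ.1) σ.2.1) σ.2.2
    have h1 : evD (k := U ℚ) (yz l) δ = v := by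
      funext σ
      rw [hF2]
      exact congrFun (congrFun (hδ1 σ.1) σ.2.1) σ.2.2
    have hδ : δ ∈ 𝒲 := by
      rw [h𝒲]
      intro l'
      by_cases hl' : l' = l
      · subst hl'
        rw [h1]
        exact ⟨F, hF1, hF2⟩
      · rw [h0 l' hl']
        exact Submodule.zero_mem _
    refine ⟨⟨δ, hδ⟩, ?_, h1⟩
    rw [SetLike.mem_coe, Submodule.mem_iInf]
    intro l'
    rw [LinearMap.mem_ker]
    exact h0 l'.1 l'.2
  obtain ⟨ρ, hρ, hρ'⟩ := pigeonS ev Φ (by rw [Module.finrank_fin_fun]) Ψ (by rw [Module.finrank_fin_fun]) hdim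
  obtain ⟨l, hl⟩ : ∃ l, ρ l = 0 := by
    by_contra hne
    push Not at hne
    have h1 : ∑ l : Fin L, 1 ≤ ∑ l, ρ l := Finset.sum_le_sum fun l _ => Nat.one_le_iff_ne_zero.2 (hne l)
    rw [Finset.sum_const, Finset.card_univ, Fintype.card_fin, smul_eq_mul, mul_one] at h1
    omega
  -- derivations over the constants
  have hreal : ∀ F : ℕ → Fin N → Matrix (Fin n) (Fin n) ℂ, (∀ k, F k ∈ (d k).𝔤 l) →
      ∃ δ : Derivation (U ℚ) (U ℂ) (U ℂ), (∀ i, δ (yb i) = 0) ∧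
        ∀ σ : Fin N × Fin n × Fin n, δ (yz l σ) = mk ℂ fun k => (F k σ.1 * z k l σ.1) σ.2.1 σ.2.2 := by
    intro F hF
    have h1 := hρ' l
    rw [hl] at h1
    have h2 : (LinearMap.ker Φ ⊓ LinearMap.ker (Ψ l)).map (ev l) ≤ 𝒱 l := by
      rintro _ ⟨⟨δ, hδ⟩, -, rfl⟩
      exact (h𝒲 δ).1 hδ l
    have h3 : (LinearMap.ker Φ ⊓ LinearMap.ker (Ψ l)).map (ev l) = 𝒱 l :=
      Submodule.eq_of_le_of_finrank_le h2 (by omega)
    have h4 : (fun σ : Fin N × Fin n × Fin n => mk ℂ fun k => (F k σ.1 * z k l σ.1) σ.2.1 σ.2.2) ∈ 𝒱 l :=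
      ⟨F, hF, fun σ => rfl⟩
    rw [← h3] at h4
    obtain ⟨⟨δ, hδ⟩, hδ1, hδ2⟩ := h4
    exact ⟨δ, fun i => congrFun (LinearMap.mem_ker.1 hδ1.1) i, fun σ => congrFun hδ2 σ⟩
  set K : Subfield (U ℂ) := consF (LinearMap.ker (evD (k := U ℚ) yb)) with hK
  have hKδ : ∀ δ : Derivation (U ℚ) (U ℂ) (U ℂ), (∀ i, δ (yb i) = 0) → ∀ x ∈ K, δ x = 0 := by
    intro δ hδ x hx
    refine hx δ ?_
    rw [LinearMap.mem_ker]
    funext i
    exact hδ i
  have hKA : ∀ y : ℕ → ℂ, (∀ k, AlgD e (d k).bs (y k)) → mk ℂ y ∈ K := by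
    intro y hy δ hδ
    exact der_algD hy fun i => congrFun (LinearMap.mem_ker.1 hδ) i
  let P₀ : ℕ → MvPolynomial (Fin N × Fin n × Fin n) ℂ := fun k => MvPolynomial.bind₁
    (fun σ : Fin N × Fin n × Fin n => ∑ a, MvPolynomial.C ((d k).C l σ.1 σ.2.1 a) * MvPolynomial.X (σ.1, a, σ.2.2)) (S k l)
  have hP₀ : P₀ ∈ PS K _ := by
    refine PS_bind (fun k => hS1 k l) (fun ν => hKA _ fun k => hS2 k l ν) fun σ => ?_
    have h1 : (fun k => ∑ a, MvPolynomial.C ((d k).C l σ.1 σ.2.1 a) *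
        (MvPolynomial.X (σ.1, a, σ.2.2) : MvPolynomial (Fin N × Fin n × Fin n) ℂ)) =
        ∑ a, (fun k => MvPolynomial.C ((d k).C l σ.1 σ.2.1 a)) * fun _ => MvPolynomial.X (σ.1, a, σ.2.2) := by
      funext k
      rw [Finset.sum_apply]
      rfl
    rw [h1]
    exact (PS K _).sum_mem fun a _ => (PS K _).mul_mem (PS_C (hKA _ fun k => (hd k).few l σ.1 σ.2.1 a)) (PS_X _)
  have hP₀d : ∀ k, (P₀ k).totalDegree ≤ δ := by
    intro k
    refine (bind_deg fun σ => ?_).trans (hS1 k l)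
    refine MvPolynomial.totalDegree_finsetSum_le fun a _ => ?_
    refine (MvPolynomial.totalDegree_mul _ _).trans ?_
    rw [MvPolynomial.totalDegree_C, zero_add, MvPolynomial.totalDegree_X]
  have hP₀e : ∀ k (y : Fin N → Matrix (Fin n) (Fin n) ℂ), MvPolynomial.eval (fun σ => y σ.1 σ.2.1 σ.2.2) (P₀ k) =
      MvPolynomial.eval (fun σ => ((d k).C l σ.1 * y σ.1) σ.2.1 σ.2.2) (S k l) := by
    intro k y
    show MvPolynomial.eval _ (MvPolynomial.bind₁ _ _) = _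
    rw [← MvPolynomial.coe_aeval_eq_eval, ← MvPolynomial.coe_aeval_eq_eval]
    show MvPolynomial.aeval _ (MvPolynomial.bind₁ _ _) = MvPolynomial.aeval _ _
    rw [MvPolynomial.aeval_bind₁]
    congr 2
    funext σ
    rw [map_sum, Matrix.mul_apply]
    refine Finset.sum_congr rfl fun a _ => ?_
    rw [map_mul, MvPolynomial.aeval_C, MvPolynomial.aeval_X]
    rfl
  -- the words
  have hword : ∀ r, ∀ P : ℕ → MvPolynomial (Fin N × Fin n × Fin n) ℂ, (∀ k, Wp (ratP ((d k).𝔤 l)) (P₀ k) r (P k)) →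
      P ∈ PS K _ ∧ (mk ℂ fun k => MvPolynomial.eval (fun σ => z k l σ.1 σ.2.1 σ.2.2) (P k)) = 0 := by
    intro r
    induction r with
    | zero =>
      intro P hP
      have h1 : P = P₀ := by
        funext k
        have h2 := hP k
        generalize hPk : P k = Pk at h2
        generalize P₀ k = Q at h2
        cases h2
        rfl
      subst h1
      refine ⟨hP₀, ?_⟩
      refine mk_eq_zero.2 (Filter.Eventually.of_forall fun k => ?_)
      rw [hP₀e]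
      exact hS3 k l
    | succ r ih =>
      intro P hP
      have h1 : ∀ k, ∃ (Q : MvPolynomial (Fin N × Fin n × Fin n) ℂ) (X : Fin N → Matrix (Fin n) (Fin n) ℂ),
          Wp (ratP ((d k).𝔤 l)) (P₀ k) r Q ∧ X ∈ ratP ((d k).𝔤 l) ∧ P k = DVT X Q := by
        intro k
        have h2 := hP k
        generalize hPk : P k = Pk at h2
        cases h2 with
        | succ h3 h4 => exact ⟨_, _, h3, h4, rfl⟩
      choose Q X hQ hX hPQ using h1
      obtain ⟨h2, h3⟩ := ih Q hQ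
      have hP' : P = fun k => DVT (X k) (Q k) := funext hPQ
      have hXK : ∀ j a b, mk ℂ (fun k => X k j a b) ∈ K := by
        intro j a b
        choose q hq using fun k => (hX k).2 j a b
        intro δ _
        have h4 : (mk ℂ fun k => X k j a b) = algebraMap (U ℚ) (U ℂ) (mk ℚ q) := by
          rw [Pool.Agent.Y118.UL.algebraMap_eq, qc_mk]
          congr 1
          funext k
          exact hq k
        rw [h4]
        exact δ.map_algebraMap _
      refine ⟨?_, ?_⟩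
      · rw [hP']
        exact PS_DVT h2 hXK
      · obtain ⟨δ', hδ1, hδ2⟩ := hreal X fun k => (hX k).1
        have hQd : ∀ k, (Q k).totalDegree ≤ δ := fun k => (Wp_deg (hQ k)).trans (hP₀d k)
        have h4 := der_seq (hKδ δ' hδ1) hQd h2 (fun k σ => z k l σ.1 σ.2.1 σ.2.2)
        rw [h3, map_zero] at h4
        rw [hP']
        have h5 : (fun k => MvPolynomial.eval (fun σ => z k l σ.1 σ.2.1 σ.2.2) (DVT (X k) (Q k))) =
            ∑ σ : Fin N × Fin n × Fin n, (fun k => MvPolynomial.eval (fun σ => z k l σ.1 σ.2.1 σ.2.2) (MvPolynomial.pderiv σ (Q k))) *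
              fun k => (X k σ.1 * z k l σ.1) σ.2.1 σ.2.2 := by
          funext k
          rw [eval_DVT, Finset.sum_apply]
          rfl
        rw [h5, map_sum, h4]
        refine Finset.sum_congr rfl fun σ _ => ?_
        rw [map_mul, ← hδ2]
  have hev : ∀ r, ∀ᶠ k in (hyperfilter ℕ : Filter ℕ), ∀ P, Wp (ratP ((d k).𝔤 l)) (P₀ k) r P →
      MvPolynomial.eval (fun σ => z k l σ.1 σ.2.1 σ.2.2) P = 0 := by
    intro r
    have h0 : ∀ k r, ∃ P, Wp (ratP ((d k).𝔤 l)) (P₀ k) r P := by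
      intro k r
      induction r with
      | zero => exact ⟨_, Wp.zero⟩
      | succ r ih =>
        obtain ⟨P, hP⟩ := ih
        exact ⟨_, Wp.succ (X := 0) hP ⟨Submodule.zero_mem _, fun j a b => ⟨0, by
          rw [Pi.zero_apply, Matrix.zero_apply, Rat.cast_zero]⟩⟩⟩
    have h1 : ∀ k, ∃ P, Wp (ratP ((d k).𝔤 l)) (P₀ k) r P ∧ ((∃ P, Wp (ratP ((d k).𝔤 l)) (P₀ k) r P ∧
        MvPolynomial.eval (fun σ => z k l σ.1 σ.2.1 σ.2.2) P ≠ 0) →
        MvPolynomial.eval (fun σ => z k l σ.1 σ.2.1 σ.2.2) P ≠ 0) := by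
      intro k
      by_cases h : ∃ P, Wp (ratP ((d k).𝔤 l)) (P₀ k) r P ∧ MvPolynomial.eval (fun σ => z k l σ.1 σ.2.1 σ.2.2) P ≠ 0
      · obtain ⟨P, hP1, hP2⟩ := h
        exact ⟨P, hP1, fun _ => hP2⟩
      · obtain ⟨P, hP⟩ := h0 k r
        exact ⟨P, hP, fun h' => absurd h' h⟩
    choose P hP1 hP2 using h1
    have h2 := mk_eq_zero.1 (hword r P hP1).2
    filter_upwards [h2] with k hk P' hP'
    by_contra hne
    exact hP2 k ⟨P', hP', hne⟩ hk
  have hall : ∀ᶠ k in (hyperfilter ℕ : Filter ℕ), ∀ r ∈ Finset.range (dimP n N δ + 1), ∀ P,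
      Wp (ratP ((d k).𝔤 l)) (P₀ k) r P → MvPolynomial.eval (fun σ => z k l σ.1 σ.2.1 σ.2.2) P = 0 :=
    (Filter.eventually_all_finset _).2 fun r _ => hev r
  obtain ⟨k, hk⟩ := hall.exists
  obtain ⟨W, hW1, hW2, hW3⟩ := exists_stable (hP₀d k) (fun r hr P hP => hk r (Finset.mem_range.2 (by omega)) P hP)
  have h5 := orbit_zero (𝔤 := ((d k).𝔤 l : Set (Fin N → Matrix (Fin n) (Fin n) ℂ))) (fun X hX P hP =>
    hW2 X ((hd k).rat l hX) P hP) hW3 (hg1 k l) (P₀ k) hW1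
  rw [hP₀e k fun j => g k l j * z k l j] at h5
  exact hg2 k l h5

end Pool.Agent.H885
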