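import Pool.Agent.H885.ValF
import Pool.Agent.H885.UnifO

/-!
# Derivations which move the values of families over number fields
-/

set_option autoImplicit false
set_option linter.unusedSectionVars false
set_option linter.unusedVariables false

open PowerSeries NumberField Module Filter

namespace Pool.Agent.H885

open Pool.Agent.Y113
open Pool.Agent.Y118.HV (Hv hh)
open Pool.Agent.Y120.GH (L1 cx Cw norm_coeff_cx)
open Pool.Agent.Helper880_R3 hiding core final
open Pool.Agent.Helper880_LF.NB hiding alg_core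
open Pool.Agent.Y118.UL (mk_eq mk_eq_zero mk_ne_zero mk_surj ev_ge eval_mk rep qc qc_mk U)

variable {m n N L : ℕ} {F : Type} [Field F] [NumberField F]

theorem map_ps (P : Polynomial ℤ) : PowerSeries.map (algebraMap ℚ ℂ) (ps P) =
    ((P.map (Int.castRingHom ℂ) : Polynomial ℂ) : ℂ⟦X⟧) := by
  ext k
  unfold ps
  rw [PowerSeries.coeff_map, Polynomial.coeff_coe, Polynomial.coeff_coe, Polynomial.coeff_map, Polynomial.coeff_map]
  simp

theorem map_der (f : ℚ⟦X⟧) : PowerSeries.map (algebraMap ℚ ℂ) (d⁄dX ℚ f) = d⁄dX ℂ (PowerSeries.map (algebraMap ℚ ℂ) f) := by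
  ext k
  rw [PowerSeries.coeff_map, PowerSeries.coeff_derivative, PowerSeries.coeff_derivative, PowerSeries.coeff_map, map_mul]
  simp

/-- the matrices with the embedded coefficients which belong to one denominator -/
noncomputable def embY (b : Fin N → ℕ) (φ : Fin N → F →+* ℂ) (Z : Fin N → Matrix (Fin n) (Fin n) F⟦X⟧) (c : ℕ) (j : Fin N) :
    Matrix (Fin n) (Fin n) ℂ⟦X⟧ := if b j = c then (Z j).map (PowerSeries.map (φ j)) else 1

/-- infinitesimal symmetries of the embedded matrices -/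
def SymF (b : Fin N → ℕ) (φ : Fin N → F →+* ℂ) (Z : Fin N → Matrix (Fin n) (Fin n) F⟦X⟧) (X : Fin N → Matrix (Fin n) (Fin n) ℂ) :
    Prop := ∀ c, Tg (fun s : Fin N × Fin n × Fin n => embY b φ Z c s.1 s.2.1 s.2.2)
      (fun s => ((if b s.1 = c then X s.1 else 0 : Matrix (Fin n) (Fin n) ℂ).map (PowerSeries.C (R := ℂ)) * embY b φ Z c s.1) s.2.1 s.2.2)

/-- **lifting to the restriction of scalars** -/
theorem inf_lift {q : ℕ} {H : ℝ} {b : Fin N → ℕ} {φ : Fin N → F →+* ℂ} {Z W : Fin N → Matrix (Fin n) (Fin n) F⟦X⟧}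
    {T : Fin N → Polynomial ℤ} {B : Fin N → Fin (n * dg F) → Fin (n * dg F) → Polynomial ℤ}
    (hS : ∀ j, Sys (N := 1) q H (T j) (fun _ => B j) (fun _ => rsM (Z j)) (fun _ => rsM (W j))) (hT : ∀ j, T j ≠ 0)
    {X : Fin N → Matrix (Fin n) (Fin n) ℂ} (hX : SymF b φ Z X) :
    ∃ X' : Fin N → Matrix (Fin (n * dg F)) (Fin (n * dg F)) ℂ,
      (∀ β, InfT (part b (fun j => rsM (Z j)) β) (fun j => if b j = β then X' j else 0)) ∧
      ∀ j, omM n (φ j) * X' j = X j * omM n (φ j) := by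
  classical
  have hcom := common_ode (B := B) (fun j => (hS j).ode 0)
  have hpone : ∀ c d : Fin (n * dg F), PowerSeries.map (algebraMap ℚ ℂ) ((1 : Matrix (Fin (n * dg F)) (Fin (n * dg F)) ℚ⟦X⟧) c d) =
      (1 : Matrix (Fin (n * dg F)) (Fin (n * dg F)) ℂ⟦X⟧) c d := by
    intro c d
    rw [Matrix.one_apply, Matrix.one_apply]
    split_ifs
    · exact map_one _
    · exact map_zero _
  have hlift : ∀ c, ∃ x' : Fin N → Matrix (Fin (n * dg F)) (Fin (n * dg F)) ℂ,
      Tg (fun s : Fin N × Fin (n * dg F) × Fin (n * dg F) =>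
          ((part b (fun j => rsM (Z j)) c s.1).map (PowerSeries.map (algebraMap ℚ ℂ))) s.2.1 s.2.2)
        (fun s => ((x' s.1).map (PowerSeries.C (R := ℂ)) *
          (part b (fun j => rsM (Z j)) c s.1).map (PowerSeries.map (algebraMap ℚ ℂ))) s.2.1 s.2.2) ∧
      (∀ j, omM n (φ j) * x' j = (if b j = c then X j else 0) * omM n (φ j)) ∧
      ∀ j, (part b (fun j => rsM (Z j)) c j).map (PowerSeries.map (algebraMap ℚ ℂ)) = 1 → x' j = 0 := by
    intro c
    refine sym_lift (fun j => omM n (φ j)) (embY b φ Z c) (fun j => (part b (fun j => rsM (Z j)) c j).map (PowerSeries.map (algebraMap ℚ ℂ)))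
      (fun j => (part b (fun j => rsM (W j)) c j).map (PowerSeries.map (algebraMap ℚ ℂ)))
      (T := (∏ j, T j).map (Int.castRingHom ℂ)) ?_
      (fun j l b' => ((if b j = c then (fun l b' => (∏ j' ∈ Finset.univ.erase j, T j') * B j l b') else 0 :
        Fin (n * dg F) → Fin (n * dg F) → Polynomial ℤ) l b').map (Int.castRingHom ℂ)) ?_ ?_ ?_ (hX c)
    · rw [Polynomial.map_ne_zero_iff (RingHom.injective_int _)]
      exact Finset.prod_ne_zero_iff.2 fun j _ => hT j
    · intro j a b'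
      have h1 := part_ode hcom b c j a b'
      have h2 := congrArg (PowerSeries.map (algebraMap ℚ ℂ)) h1
      rw [map_mul, map_ps, map_der, map_sum] at h2
      rw [Matrix.map_apply, h2]
      refine Finset.sum_congr rfl fun l _ => ?_
      rw [map_mul, map_ps, Matrix.map_apply]
    · intro j
      have h1 := part_inv (fun j => (hS j).inv 0) b c j
      have h2 : ∀ M : Matrix (Fin (n * dg F)) (Fin (n * dg F)) ℚ⟦X⟧, M.map (PowerSeries.map (algebraMap ℚ ℂ)) =
          (PowerSeries.map (algebraMap ℚ ℂ)).mapMatrix M := fun M => rfl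
      show (part b (fun j => rsM (W j)) c j).map (PowerSeries.map (algebraMap ℚ ℂ)) *
        (part b (fun j => rsM (Z j)) c j).map (PowerSeries.map (algebraMap ℚ ℂ)) = 1
      rw [h2, h2, ← map_mul, h1, map_one]
    · intro j
      unfold part embY
      by_cases hj : b j = c
      · rw [if_pos hj, if_pos hj]
        exact om_ps _ _
      · rw [if_neg hj, if_neg hj]
        have h2 : ((1 : Matrix (Fin (n * dg F)) (Fin (n * dg F)) ℚ⟦X⟧).map (PowerSeries.map (algebraMap ℚ ℂ))) = 1 := by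
          ext1 c d
          rw [Matrix.map_apply]
          exact hpone c d
        rw [h2, Matrix.mul_one, Matrix.one_mul]
  choose x' hx1 hx2 hx3 using hlift
  refine ⟨fun j => x' (b j) j, fun β => ?_, fun j => ?_⟩
  · have h1 : (fun j => if b j = β then x' (b j) j else 0) = x' β := by
      funext j
      by_cases hj : b j = β
      · rw [if_pos hj, hj]
      · rw [if_neg hj]
        refine (hx3 β j ?_).symm
        unfold part
        rw [if_neg hj]
        ext1 c d
        rw [Matrix.map_apply]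
        exact hpone c d
    rw [h1]
    have h2 := Tg_iff.1 (hx1 β)
    intro R hR
    have h3 := h2 R hR
    refine Eq.trans (Finset.sum_congr rfl fun s _ => ?_) h3
    rw [Matrix.mul_apply]
    rfl
  · have h1 := hx2 (b j) j
    rw [if_pos rfl] at h1
    exact h1

/-- the data for several tuples of families over a number field -/
structure DatF (F : Type) [Field F] [NumberField F] (L n N : ℕ) where
  φ : Fin L → Fin N → F →+* ℂ
  H : ℝ
  T : Fin L → Fin N → Polynomial (𝓞 F)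
  A : Fin L → Fin N → Fin n → Fin n → Polynomial (𝓞 F)
  Z : Fin L → Fin N → Matrix (Fin n) (Fin n) F⟦X⟧
  W : Fin L → Fin N → Matrix (Fin n) (Fin n) F⟦X⟧
  ρ : ℝ
  w : ℕ
  b₀ : ℕ
  b : Fin L → Fin N → ℕ
  𝔤 : Fin L → Submodule ℂ (Fin N → Matrix (Fin n) (Fin n) ℂ)

/-- the conditions -/
structure DatF.OK (q E : ℕ) (d : DatF F L n N) : Prop where
  one_le : 1 ≤ d.H
  fam : ∀ l j, FamF q d.H (d.T l j) (d.A l j) (d.Z l j) (d.W l j)
  ρ_pos : 0 < d.ρ
  rad : ∀ l j a b k, house (coeff k (d.Z l j a b)) ≤ d.ρ ^ (k + 1)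
  b_mem : ∀ l j, d.b₀ ≤ d.b l j ∧ d.b l j ≤ d.b₀ + d.w
  sep : ∀ l j l' j', ¬ (l = l' ∧ d.b l j = d.b l' j') → 2 * d.ρ < |(d.b l j : ℝ) - d.b l' j'|
  big : (2 * d.H * ((d.w : ℝ) + d.ρ + 2)) ^ E ≤ (d.b₀ : ℝ)
  inf : ∀ l, ∀ X ∈ d.𝔤 l, SymF (d.b l) (d.φ l) (d.Z l) X

/-- the values -/
noncomputable def DatF.z (d : DatF F L n N) (l : Fin L) (j : Fin N) : Matrix (Fin n) (Fin n) ℂ :=
  valF (d.φ l j) (d.Z l j) (d.b l j)

/-- **derivations which move the values at one tuple by symmetries** -/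
theorem derF {q : ℕ} (d : ℕ → DatF F L n N) (hd : ∀ k, (d k).OK q (k + 1)) (l : Fin L)
    (G : ℕ → Fin N → Matrix (Fin n) (Fin n) ℂ) (hG : ∀ k, G k ∈ (d k).𝔤 l) :
    ∃ δ : Derivation (U ℚ) (U ℂ) (U ℂ), (∀ j, dm δ (gm fun k => (d k).z l j) = gm fun k => G k j * (d k).z l j) ∧
      ∀ l', l' ≠ l → ∀ j, dm δ (gm fun k => (d k).z l' j) = 0 := by
  classical
  obtain ⟨q', E₀, hsys⟩ := sysF F n q
  set X : ℕ → Fin L → Fin N → Matrix (Fin n) (Fin n) ℂ := fun k l' => if l' = l then G k else 0 with hX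
  have hX𝔤 : ∀ k l', X k l' ∈ (d k).𝔤 l' := by
    intro k l'
    rw [hX]
    simp only
    split_ifs with h
    · subst h
      exact hG k
    · exact ((d k).𝔤 l').zero_mem
  have hS : ∀ k l' j, (RP ((d k).T l' j)).det ≠ 0 ∧ Sys (N := 1) q' ((2 * (d k).H) ^ E₀) (RP ((d k).T l' j)).det
      (fun _ => BRP ((d k).T l' j) ((d k).A l' j)) (fun _ => rsM ((d k).Z l' j)) (fun _ => rsM ((d k).W l' j)) := fun k l' j =>
    hsys _ (hd k).one_le _ _ _ _ ((hd k).fam l' j)
  choose X' hX'1 hX'2 using fun (k : ℕ) (l' : Fin L) => inf_lift (φ := (d k).φ l') (fun j => (hS k l' j).2) (fun j => (hS k l' j).1)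
    ((hd k).inf l' (X k l') (hX𝔤 k l'))
  -- sizes
  have hx : ∀ k, 2 ≤ 2 * (d k).H * (((d k).w : ℝ) + (d k).ρ + 2) ∧ (d k).ρ < 2 * (d k).H * (((d k).w : ℝ) + (d k).ρ + 2) := by
    intro k
    have h1 := (hd k).one_le
    have h2 := (hd k).ρ_pos
    have h3 : (0 : ℝ) ≤ (d k).w := by positivity
    constructor
    · nlinarith
    · nlinarith
  have hρb : ∀ k l' j, (d k).ρ < (d k).b l' j := by
    intro k l' j
    have h1 := (hd k).big
    have h2 : (2 * (d k).H * (((d k).w : ℝ) + (d k).ρ + 2)) ≤ (2 * (d k).H * (((d k).w : ℝ) + (d k).ρ + 2)) ^ (k + 1) :=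
      le_self_pow₀ (by linarith [(hx k).1]) (by omega)
    have h3 : ((d k).b₀ : ℝ) ≤ (d k).b l' j := by exact_mod_cast ((hd k).b_mem l' j).1
    linarith [(hx k).2]
  obtain ⟨δ, hδ⟩ := hder_gen (z := fun k (i : Fin (L * N)) => Hv (rsM ((d k).Z (fs i) (sn i))) ((d k).b (fs i) (sn i)))
    (X := fun k i => X' k (fs i) (sn i))
    (fun e' => by
      obtain ⟨E, hE⟩ := curveP L N (n * dg F) q' e'
      filter_upwards [ev_ge ((E₀ + 1) * E)] with k hk P hPd hP s
      have hH := (hd k).one_le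
      have hw0 : (0 : ℝ) ≤ (d k).w := by positivity
      have hρ := (hd k).ρ_pos
      refine hE ((2 * (d k).H) ^ E₀) (one_le_pow₀ (by linarith)) (fun l' j => (RP ((d k).T l' j)).det)
        (fun l' j => BRP ((d k).T l' j) ((d k).A l' j)) (fun l' j => rsM ((d k).Z l' j)) (fun l' j => rsM ((d k).W l' j))
        (fun l' j => (hS k l' j).2) (fun l' j => (hS k l' j).1) (d k).ρ hρ
        (fun l' j a b => rs_mem hρ.le ((hd k).rad l' j) a b) (d k).w (d k).b₀ (d k).b (hd k).b_mem (hd k).sep ?_ (X' k)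
        (fun l' β => hX'1 k l' β) P hPd hP s
      refine le_trans ?_ (hd k).big
      set x := 2 * (d k).H * (((d k).w : ℝ) + (d k).ρ + 2) with hxdef
      have hx2 : 2 ≤ x := (hx k).1
      have h1 : 2 * (2 * (d k).H) ^ E₀ * (((d k).w : ℝ) + (d k).ρ + 2) ≤ x ^ (E₀ + 1) := by
        have h2 : (2 * (d k).H) ^ E₀ ≤ x ^ E₀ := pow_le_pow_left₀ (by linarith) (by
          rw [hxdef]
          nlinarith) _
        have h3 : 2 * (((d k).w : ℝ) + (d k).ρ + 2) ≤ x := by
          rw [hxdef]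
          nlinarith
        calc 2 * (2 * (d k).H) ^ E₀ * (((d k).w : ℝ) + (d k).ρ + 2) = (2 * (d k).H) ^ E₀ * (2 * (((d k).w : ℝ) + (d k).ρ + 2)) := by ring
          _ ≤ x ^ E₀ * x := mul_le_mul h2 h3 (by positivity) (by positivity)
          _ = x ^ (E₀ + 1) := (pow_succ _ _).symm
      calc (2 * (2 * (d k).H) ^ E₀ * (((d k).w : ℝ) + (d k).ρ + 2)) ^ E ≤ (x ^ (E₀ + 1)) ^ E :=
            pow_le_pow_left₀ (by positivity) h1 _
        _ = x ^ ((E₀ + 1) * E) := (pow_mul _ _ _).symm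
        _ ≤ x ^ (k + 1) := pow_le_pow_right₀ (by linarith) (by omega))
  have hfs : ∀ l' j, fs (finProdFinEquiv (l', j) : Fin (L * N)) = l' := fun l' j => by
    unfold fs
    rw [Equiv.symm_apply_apply]
  have hsn : ∀ l' j, sn (finProdFinEquiv (l', j) : Fin (L * N)) = j := fun l' j => by
    unfold sn
    rw [Equiv.symm_apply_apply]
  have hδ' : ∀ l' j p p', δ (Pool.Agent.Y118.UL.mk ℂ fun k => Hv (rsM ((d k).Z l' j)) ((d k).b l' j) p p') =
      Pool.Agent.Y118.UL.mk ℂ fun k => (X' k l' j * Hv (rsM ((d k).Z l' j)) ((d k).b l' j)) p p' := by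
    intro l' j p p'
    have h3 := hδ (finProdFinEquiv (l', j))
    simp only [hfs, hsn] at h3
    exact congrFun (congrFun h3 p) p'
  have hδz : ∀ l' j, dm δ (gm fun k => (d k).z l' j) = gm fun k => X k l' j * (d k).z l' j := by
    intro l' j
    refine Matrix.ext fun a c => ?_
    refine der_entry (F := F) (φ := fun k => (d k).φ l' j) (fun k => om_val (hd k).ρ_pos.le (hρb k l' j) ((hd k).rad l' j) _) (fun k => ?_)
      (hδ' l' j) a c
    rw [← Matrix.mul_assoc, hX'2, Matrix.mul_assoc, om_val (hd k).ρ_pos.le (hρb k l' j) ((hd k).rad l' j), ← Matrix.mul_assoc]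
  refine ⟨δ, fun j => ?_, fun l' hl' j => ?_⟩
  · rw [hδz]
    congr 1
    funext k
    rw [hX]
    simp only [if_true]
  · rw [hδz]
    have h3 : (fun k => X k l' j * (d k).z l' j) = fun _ => 0 := by
      funext k
      rw [hX]
      simp only [if_neg hl', Pi.zero_apply, Matrix.zero_mul]
    rw [h3, gm_zero]

end Pool.Agent.H885
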