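import Pool.Agent.H885.GN
import Pool.Agent.H885.Tang

/-!
# The matrices `exp (-λ R)` as polynomials in `λ`
-/

set_option autoImplicit false
set_option linter.unusedSectionVars false
set_option linter.unusedVariables false

namespace Pool.Agent.H885

variable {n : ℕ}

/-- the matrix `exp (-λ R)` as a matrix of polynomials in `λ` -/
noncomputable def EP (R : Matrix (Fin n) (Fin n) ℤ) (a c : Fin n) : Polynomial ℚ :=
  ∑ k ∈ Finset.range n, Polynomial.C ((-1 : ℚ) ^ k * (k.factorial : ℚ)⁻¹ * ((R ^ k) a c : ℚ)) * Polynomial.X ^ k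

section alg
variable {S : Type} [CommRing S] [Algebra ℚ S]

/-- the matrix `R` over `S` -/
def RS' (S : Type) [CommRing S] [Algebra ℚ S] (R : Matrix (Fin n) (Fin n) ℤ) : Matrix (Fin n) (Fin n) S :=
  R.map fun z => algebraMap ℚ S (z : ℚ)

/-- the matrix `exp (-u R)` -/
noncomputable def eP (R : Matrix (Fin n) (Fin n) ℤ) (u : S) : Matrix (Fin n) (Fin n) S :=
  Matrix.of fun a c => Polynomial.aeval u (EP R a c)

lemma RS'_eq (R : Matrix (Fin n) (Fin n) ℤ) : RS' S R = ((algebraMap ℚ S).comp (Int.castRingHom ℚ)).mapMatrix R := rfl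

lemma RS'_pow (R : Matrix (Fin n) (Fin n) ℤ) (k : ℕ) : RS' S R ^ k = RS' S (R ^ k) := by
  rw [RS'_eq, RS'_eq, map_pow]

lemma eP_apply (R : Matrix (Fin n) (Fin n) ℤ) (u : S) (a c : Fin n) : eP R u a c =
    ∑ k ∈ Finset.range n, algebraMap ℚ S ((-1 : ℚ) ^ k * (k.factorial : ℚ)⁻¹ * ((R ^ k) a c : ℚ)) * u ^ k := by
  unfold eP EP
  rw [Matrix.of_apply, map_sum]
  refine Finset.sum_congr rfl fun k _ => ?_
  rw [map_mul, Polynomial.aeval_C, map_pow, Polynomial.aeval_X]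

lemma nil_smul {R : Matrix (Fin n) (Fin n) ℤ} (hR : R ^ n = 0) (u : S) : (-(u • RS' S R)) ^ n = 0 := by
  rw [neg_pow, smul_pow, RS'_pow, hR]
  have h1 : RS' S (0 : Matrix (Fin n) (Fin n) ℤ) = 0 := by
    rw [RS'_eq, map_zero]
  rw [h1, smul_zero, mul_zero]

lemma eP_exp {R : Matrix (Fin n) (Fin n) ℤ} (hR : R ^ n = 0) (u : S) : eP R u = IsNilpotent.exp (-(u • RS' S R)) := by
  rw [IsNilpotent.exp_eq_sum (nil_smul hR u)]
  ext a c
  rw [eP_apply, Matrix.sum_apply]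
  refine Finset.sum_congr rfl fun k _ => ?_
  have h1 : (-(u • RS' S R)) ^ k = ((-1) ^ k * u ^ k) • RS' S (R ^ k) := by
    rw [← RS'_pow, ← neg_smul, smul_pow, neg_pow]
  rw [h1, Matrix.smul_apply, Matrix.smul_apply, Algebra.smul_def, map_mul, map_mul, map_pow, map_neg, map_one]
  show _ = _ * (((-1) ^ k * u ^ k) * algebraMap ℚ S (((R ^ k) a c : ℤ) : ℚ))
  ring

lemma eP_inv {R : Matrix (Fin n) (Fin n) ℤ} (hR : R ^ n = 0) (u : S) : eP R (-u) * eP R u = 1 := by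
  have h0 : IsNilpotent (-(u • RS' S R)) := ⟨n, nil_smul hR u⟩
  rw [eP_exp hR, eP_exp hR]
  have h1 : -(-u • RS' S R) = -(-(u • RS' S R)) := by rw [neg_smul]
  rw [h1]
  exact IsNilpotent.exp_neg_mul_exp_self h0

lemma eP_comm (R : Matrix (Fin n) (Fin n) ℤ) (hR : R ^ n = 0) (u : S) : RS' S R * eP R u = eP R u * RS' S R := by
  rw [eP_exp hR, IsNilpotent.exp_eq_sum (nil_smul hR u), Finset.mul_sum, Finset.sum_mul]
  refine Finset.sum_congr rfl fun k _ => ?_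
  rw [Matrix.mul_smul, Matrix.smul_mul]
  congr 1
  have h1 : Commute (RS' S R) (-(u • RS' S R)) := ((Commute.refl _).smul_right u).neg_right
  exact (h1.pow_right k).eq

/-- the derivative -/
lemma eP_der {R : Matrix (Fin n) (Fin n) ℤ} (hR : R ^ n = 0) (d : Derivation ℚ S S) (u : S) (a c : Fin n) :
    d (eP R u a c) = -(d u * (RS' S R * eP R u) a c) := by
  rcases Nat.eq_zero_or_pos n with h0 | h0
  · subst h0
    exact a.elim0
  obtain ⟨m, rfl⟩ := Nat.exists_eq_succ_of_ne_zero h0.ne'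
  have h1 : (RS' S R * eP R u) a c = ∑ k ∈ Finset.range (m + 1),
      algebraMap ℚ S ((-1 : ℚ) ^ k * (k.factorial : ℚ)⁻¹ * ((R ^ (k + 1)) a c : ℚ)) * u ^ k := by
    rw [Matrix.mul_apply]
    simp only [eP_apply, Finset.mul_sum]
    rw [Finset.sum_comm]
    refine Finset.sum_congr rfl fun k _ => ?_
    have h2 : (((R ^ (k + 1)) a c : ℤ) : ℚ) = ∑ e, (R a e : ℚ) * ((R ^ k) e c : ℚ) := by
      rw [pow_succ', Matrix.mul_apply]
      push_cast
      rfl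
    rw [h2, Finset.mul_sum, map_sum, Finset.sum_mul]
    refine Finset.sum_congr rfl fun e _ => ?_
    have h3 : RS' S R a e = algebraMap ℚ S (R a e : ℚ) := rfl
    rw [h3]
    simp only [map_mul]
    ring
  rw [h1, eP_apply, map_sum, Finset.sum_range_succ', Finset.sum_range_succ, hR]
  have h2 : d (algebraMap ℚ S ((-1 : ℚ) ^ 0 * ((0 : ℕ).factorial : ℚ)⁻¹ * ((R ^ 0) a c : ℚ)) * u ^ 0) = 0 := by
    rw [pow_zero u, mul_one, Derivation.map_algebraMap]
  rw [h2, add_zero]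
  have h3 : algebraMap ℚ S ((-1 : ℚ) ^ m * (m.factorial : ℚ)⁻¹ * (((0 : Matrix (Fin (m + 1)) (Fin (m + 1)) ℤ) a c : ℤ) : ℚ)) * u ^ m
      = 0 := by
    have : (((0 : Matrix (Fin (m + 1)) (Fin (m + 1)) ℤ) a c : ℤ) : ℚ) = 0 := by simp
    rw [this, mul_zero, map_zero, zero_mul]
  rw [h3, add_zero, Finset.mul_sum, ← Finset.sum_neg_distrib]
  refine Finset.sum_congr rfl fun k _ => ?_
  rw [Derivation.leibniz, Derivation.map_algebraMap, smul_zero, add_zero, Derivation.leibniz_pow]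
  have h4 : (((k + 1).factorial : ℕ) : ℚ)⁻¹ = (k.factorial : ℚ)⁻¹ * ((k : ℚ) + 1)⁻¹ := by
    rw [Nat.factorial_succ]
    push_cast
    rw [mul_inv, mul_comm]
  have h5 : ((k + 1 : ℕ) : S) = algebraMap ℚ S ((k : ℚ) + 1) := by
    rw [map_add, map_natCast, map_one]
    push_cast
    rfl
  have h6 : ((k : ℚ) + 1) ≠ 0 := by positivity
  simp only [smul_eq_mul, nsmul_eq_mul, Nat.add_sub_cancel]
  rw [h4, h5]
  have h7 : algebraMap ℚ S ((-1 : ℚ) ^ (k + 1) * ((k.factorial : ℚ)⁻¹ * ((k : ℚ) + 1)⁻¹) * ((R ^ (k + 1)) a c : ℚ)) *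
      (algebraMap ℚ S ((k : ℚ) + 1) * (u ^ k * d u)) =
      algebraMap ℚ S ((-1 : ℚ) ^ (k + 1) * ((k.factorial : ℚ)⁻¹ * ((k : ℚ) + 1)⁻¹) * ((R ^ (k + 1)) a c : ℚ) * ((k : ℚ) + 1)) *
      (u ^ k * d u) := by
    rw [map_mul _ _ ((k : ℚ) + 1)]
    ring
  rw [h7]
  have h8 : (-1 : ℚ) ^ (k + 1) * ((k.factorial : ℚ)⁻¹ * ((k : ℚ) + 1)⁻¹) * ((R ^ (k + 1)) a c : ℚ) * ((k : ℚ) + 1) =
      -((-1 : ℚ) ^ k * (k.factorial : ℚ)⁻¹ * ((R ^ (k + 1)) a c : ℚ)) := by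
    rw [pow_succ (-1 : ℚ)]
    field_simp
  rw [h8, map_neg]
  ring

/-- ring homomorphisms -/
lemma eP_map {S' : Type} [CommRing S'] [Algebra ℚ S'] (f : S →+* S') (R : Matrix (Fin n) (Fin n) ℤ) (u : S) (a c : Fin n) :
    f (eP R u a c) = eP R (f u) a c := by
  rw [eP_apply, eP_apply, map_sum]
  refine Finset.sum_congr rfl fun k _ => ?_
  rw [map_mul, map_pow]
  congr 1
  exact RingHom.congr_fun (Subsingleton.elim (f.comp (algebraMap ℚ S)) (algebraMap ℚ S')) _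

end alg

/-- the exponential function -/
lemma eP_nexp {R : Matrix (Fin n) (Fin n) ℤ} (hR : R ^ n = 0) (u : ℂ) :
    eP R u = NormedSpace.exp (-(u • R.map (Int.castRingHom ℂ))) := by
  have h0 : RS' ℂ R = R.map (Int.castRingHom ℂ) := by
    ext a c
    show algebraMap ℚ ℂ (R a c : ℚ) = ((R a c : ℤ) : ℂ)
    simp
  have h1 := nil_smul (S := ℂ) hR u
  rw [h0] at h1
  rw [exp_nil h1, eP_exp hR, IsNilpotent.exp_eq_sum (nil_smul hR u), h0]
  refine Finset.sum_congr rfl fun k _ => ?_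
  ext a c
  rw [Matrix.smul_apply, Matrix.smul_apply, Algebra.smul_def, smul_eq_mul]
  congr 1
  simp

end Pool.Agent.H885
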