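import Pool.Agent.H885.DRB2
import Pool.Graph.R_pool_sql_team_seeded_620a6dc7.Helper880_R3.Res
import Pool.Graph.R_pool_sql_team_seeded_620a6dc7.Helper880_R3.ClCod

/-!
# Endomorphisms and derivations of the ultrapower
-/

set_option autoImplicit false
set_option linter.unusedSectionVars false
set_option linter.unusedVariables false

open Matrix Module Filter

namespace Pool.Agent.H885.ENR

open Pool.Agent.Helper880_R3 (Ix Tot lieB)
open Pool.Agent.Helper880_LF.NB (gm gm_mul gm_add gm_sub gm_smul gm_zero gm_ev gm_eq gm_surj gm_neg gm_apply gm_one gm_unit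
  dm dm_mul dm_smul)
open Pool.Agent.Y118.UL (mk mk_eq mk_eq_zero mk_ne_zero mk_surj ev_ge U)
open Pool.Agent.Helper880_ZP (Us mem_Us mem_Us_of Compat)

section
variable {B : Type} [Fintype B] [DecidableEq B]

/-- an endomorphism: `X` on Betti cohomology, `Y` on de Rham cohomology -/
structure En (e : ℕ) (P X Y : Matrix B B ℂ) : Prop where
  algX : ∀ i j, AlgN e (X i j)
  algY : ∀ i j, AlgN e (Y i j)
  eq : X * P = P * Y

/-- the matrices which commute with all endomorphisms -/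
def cen (e : ℕ) (P : Matrix B B ℂ) : Submodule ℂ (Matrix B B ℂ) where
  carrier := {A | ∀ X Y, En e P X Y → A * X = X * A}
  zero_mem' := fun X Y _ => by rw [Matrix.zero_mul, Matrix.mul_zero]
  add_mem' := by
    intro A A' hA hA' X Y h
    rw [Matrix.add_mul, Matrix.mul_add, hA X Y h, hA' X Y h]
  smul_mem' := by
    intro c A hA X Y h
    rw [Matrix.smul_mul, Matrix.mul_smul, hA X Y h]

theorem one_mem (e : ℕ) (P : Matrix B B ℂ) : 1 ∈ cen e P := fun X Y _ => by rw [Matrix.one_mul, Matrix.mul_one]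

theorem lie_mem {e : ℕ} {P A A' : Matrix B B ℂ} (hA : A ∈ cen e P) (hA' : A' ∈ cen e P) : A * A' - A' * A ∈ cen e P := by
  intro X Y h
  have h1 := hA X Y h
  have h2 := hA' X Y h
  rw [Matrix.sub_mul, Matrix.mul_sub, Matrix.mul_assoc, h2, ← Matrix.mul_assoc, h1, Matrix.mul_assoc, Matrix.mul_assoc A', h1,
    ← Matrix.mul_assoc A', h2, Matrix.mul_assoc X A']

theorem der_com {k Ω : Type} [Field k] [Field Ω] [Algebra k Ω] (δ : Derivation k Ω Ω) {P X Y : Matrix B B Ω}
    (hP : IsUnit P.det) (hX : dm δ X = 0) (hY : dm δ Y = 0) (h : X * P = P * Y) :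
    dm δ P * P⁻¹ * X = X * (dm δ P * P⁻¹) := by
  have h1 := congrArg (dm δ) h
  rw [dm_mul, dm_mul, hX, hY, Matrix.zero_mul, zero_add, Matrix.mul_zero, add_zero] at h1
  have h2 : P⁻¹ * X = Y * P⁻¹ := by
    have h3 : P⁻¹ * (X * P) * P⁻¹ = P⁻¹ * (P * Y) * P⁻¹ := by rw [h]
    rw [← Matrix.mul_assoc, Matrix.mul_nonsing_inv_cancel_right _ _ hP, ← Matrix.mul_assoc, Matrix.nonsing_inv_mul _ hP,
      Matrix.one_mul] at h3
    exact h3
  rw [Matrix.mul_assoc, h2, ← Matrix.mul_assoc, ← h1, Matrix.mul_assoc]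

theorem der_mem {e : ℕ} {P : ℕ → Matrix B B ℂ} (hP : ∀ k, (P k).det ≠ 0) (δ : Derivation (U ℚ) (U ℂ) (U ℂ)) :
    dm δ (gm P) * (gm P)⁻¹ ∈ Us fun k => cen e (P k) := by
  classical
  obtain ⟨F, hF⟩ := gm_surj (dm δ (gm P) * (gm P)⁻¹)
  rw [← hF, mem_Us]
  by_contra hcon
  have h1 := Ultrafilter.eventually_not.2 hcon
  set Q : ℕ → Prop := fun k => ∃ X Y : Matrix B B ℂ, En e (P k) X Y ∧ F k * X ≠ X * F k with hQ
  have hd : ∀ᶠ k in (hyperfilter ℕ : Filter ℕ), Q k := by
    filter_upwards [h1] with k hk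
    have h3 : ¬ ∀ X Y, En e (P k) X Y → F k * X = X * F k := hk
    push Not at h3
    exact h3
  obtain ⟨k₀, hk₀⟩ := hd.exists
  set g : ℕ → ℕ := fun k => if Q k then k else k₀ with hg
  have hgQ : ∀ k, Q (g k) := by
    intro k
    rw [hg]
    simp only
    split_ifs with h
    · exact h
    · exact hk₀
  have hgk : ∀ᶠ k in (hyperfilter ℕ : Filter ℕ), g k = k := by
    filter_upwards [hd] with k hk
    rw [hg]
    exact if_pos hk
  choose X Y hen hno using hgQ
  have hPg : gm P = gm fun k => P (g k) := gm_ev.2 (by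
    filter_upwards [hgk] with k hk
    rw [hk])
  have hFg : gm F = gm fun k => F (g k) := gm_ev.2 (by
    filter_upwards [hgk] with k hk
    rw [hk])
  have hu : IsUnit (gm P).det := gm_unit hP
  have halg : ∀ y : ℕ → ℂ, (∀ k, AlgN e (y k)) → δ (mk ℂ y) = 0 := fun y hy =>
    der_algD (s := 0) (e := e) (b := fun _ i => i.elim0) (fun k => (hy k).toD _) fun i => i.elim0
  have h3 : gm X * gm P = gm P * gm Y := by
    rw [hPg, ← gm_mul, ← gm_mul]
    congr 1
    funext k
    exact (hen k).eq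
  have hX0 : dm δ (gm X) = 0 := Matrix.ext fun i j => halg _ fun k => (hen k).algX i j
  have hY0 : dm δ (gm Y) = 0 := Matrix.ext fun i j => halg _ fun k => (hen k).algY i j
  have h4 := der_com δ hu hX0 hY0 h3
  rw [← hF, hFg, ← gm_mul, ← gm_mul] at h4
  obtain ⟨k, hk⟩ := (gm_ev.1 h4).exists
  exact hno k hk

end

theorem compat_cen (r₀ n N e : ℕ) : Compat (r₀ := r₀) (n := n) (N := N) fun P R => R = cen e P :=
  ⟨fun P R h => h ▸ one_mem e P, fun P R hP hR δ => by
    have h1 : R = fun k => cen e (P k) := funext hR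
    rw [h1]
    exact der_mem hP δ⟩

/-- codimensions of intersections -/
theorem cod_inter {V W : Type} [AddCommGroup V] [Module ℂ V] [FiniteDimensional ℂ V] [AddCommGroup W] [Module ℂ W]
    [FiniteDimensional ℂ W] (f : V →ₗ[ℂ] W) (hf : Function.Injective f) {p : Submodule ℂ V} {S K : Submodule ℂ W} {r : ℕ}
    (hp : p.map f ≤ S) (hK : K ≤ S) (h : finrank ℂ S ≤ finrank ℂ K + r) :
    finrank ℂ p ≤ finrank ℂ (p ⊓ K.comap f : Submodule ℂ V) + r := by
  have h1 := Submodule.finrank_sup_add_finrank_inf_eq (p.map f) K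
  have h2 : finrank ℂ (p.map f ⊔ K : Submodule ℂ W) ≤ finrank ℂ S := Submodule.finrank_mono (sup_le hp hK)
  have h3 : p.map f ⊓ K = (p ⊓ K.comap f).map f := Submodule.map_inf_eq_map_inf_comap
  have h4 := (Submodule.equivMapOfInjective f hf p).finrank_eq
  have h5 := (Submodule.equivMapOfInjective f hf (p ⊓ K.comap f)).finrank_eq
  rw [h3] at h1
  omega

section classical
variable {n : ℕ} {J : Matrix (Fin n) (Fin n) ℂ}

/-- the rank one elements of the symplectic Lie algebra -/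
theorem sp_elt {B : Matrix (Fin n) (Fin n) ℂ} (hB : IsUnit B.det) (hBt : Bᵀ = -B) (v : Fin n → ℂ) :
    vecMulVec v v * B⁻¹ ∈ lieB B := by
  have hJt : (B⁻¹)ᵀ = -B⁻¹ := by
    rw [transpose_nonsing_inv, hBt]
    refine inv_eq_right_inv ?_
    rw [neg_mul_neg, mul_nonsing_inv _ hB]
  have h1 : (vecMulVec v v * B⁻¹) * B + B * (vecMulVec v v * B⁻¹)ᵀ = 0 := by
    rw [Matrix.transpose_mul, hJt, transpose_vecMulVec, nonsing_inv_mul_cancel_right _ _ hB, ← Matrix.mul_assoc, Matrix.mul_neg,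
      mul_nonsing_inv _ hB, Matrix.neg_mul, Matrix.one_mul, add_neg_cancel]
  refine ⟨?_, h1⟩
  have h2 : (vecMulVec v v * B⁻¹).trace = -(vecMulVec v v * B⁻¹).trace := by
    conv_lhs => rw [← Matrix.trace_transpose, Matrix.transpose_mul, hJt, transpose_vecMulVec, Matrix.neg_mul, Matrix.trace_neg,
      Matrix.trace_mul_comm]
  exact self_eq_neg.1 h2

/-- vectors which are killed by the symplectic Lie algebra -/
theorem kill_right {B : Matrix (Fin n) (Fin n) ℂ} (hB : IsUnit B.det) (hBt : Bᵀ = -B) {x : Fin n → ℂ}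
    (h : ∀ H ∈ lieB B, H *ᵥ x = 0) : x = 0 := by
  have h1 : ∀ v : Fin n → ℂ, v ⬝ᵥ (B⁻¹ *ᵥ x) = 0 ∨ v = 0 := by
    intro v
    have h2 := h _ (sp_elt hB hBt v)
    rw [← Matrix.mulVec_mulVec] at h2
    by_cases hv : v = 0
    · exact Or.inr hv
    · left
      obtain ⟨i, hi⟩ := Function.ne_iff.1 hv
      have h3 := congrFun h2 i
      have h4 : (vecMulVec v v *ᵥ (B⁻¹ *ᵥ x)) i = v i * (v ⬝ᵥ (B⁻¹ *ᵥ x)) := by
        show ∑ b, v i * v b * (B⁻¹ *ᵥ x) b = _
        rw [dotProduct, Finset.mul_sum]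
        exact Finset.sum_congr rfl fun b _ => by rw [mul_assoc]
      rw [h4] at h3
      exact (mul_eq_zero.1 h3).resolve_left hi
  have h5 : B⁻¹ *ᵥ x = 0 := by
    funext i
    rcases h1 (Pi.single i 1) with h6 | h6
    · rw [single_dotProduct, one_mul] at h6
      exact h6
    · exfalso
      have h7 := congrFun h6 i
      rw [Pi.single_eq_same] at h7
      exact one_ne_zero h7
  have h8 := congrArg (fun w => B *ᵥ w) h5
  simp only [Matrix.mulVec_mulVec, mul_nonsing_inv _ hB, Matrix.one_mulVec, Matrix.mulVec_zero] at h8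
  exact h8

/-- covectors which are killed by the symplectic Lie algebra -/
theorem kill_left {B : Matrix (Fin n) (Fin n) ℂ} (hB : IsUnit B.det) (hBt : Bᵀ = -B) {y : Fin n → ℂ}
    (h : ∀ H ∈ lieB B, y ᵥ* H = 0) : y = 0 := by
  have hz : B *ᵥ y = 0 := kill_right hB hBt fun H hH => by
    have h1 : H * B = -(B * Hᵀ) := eq_neg_of_add_eq_zero_left hH.2
    rw [Matrix.mulVec_mulVec, h1, Matrix.neg_mulVec, ← Matrix.mulVec_mulVec, Matrix.mulVec_transpose, h H hH,
      Matrix.mulVec_zero, neg_zero]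
  have h8 := congrArg (fun w => B⁻¹ *ᵥ w) hz
  simp only [Matrix.mulVec_mulVec, nonsing_inv_mul _ hB, Matrix.one_mulVec, Matrix.mulVec_zero] at h8
  exact h8

/-- Schur's lemma for the symplectic Lie algebra -/
theorem scalar_of {B : Matrix (Fin n) (Fin n) ℂ} (hB : IsUnit B.det) (hBt : Bᵀ = -B) {X : Matrix (Fin n) (Fin n) ℂ}
    (h : ∀ H ∈ lieB B, H * X = X * H) : ∃ c : ℂ, X = c • 1 := by
  classical
  have hJ : ∀ v : Fin n → ℂ, v ≠ 0 → ∃ c : ℂ, X *ᵥ v = c • v := by
    intro v hv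
    have hw : ∃ w : Fin n → ℂ, v ⬝ᵥ (B⁻¹ *ᵥ w) ≠ 0 := by
      by_contra hcon
      push Not at hcon
      obtain ⟨i, hi⟩ := Function.ne_iff.1 hv
      have h2 := hcon (B *ᵥ Pi.single i 1)
      rw [Matrix.mulVec_mulVec, nonsing_inv_mul _ hB, Matrix.one_mulVec, dotProduct_single, mul_one] at h2
      exact hi h2
    obtain ⟨w, hw⟩ := hw
    have h1 : (vecMulVec v v * B⁻¹ * X) *ᵥ w = (X * (vecMulVec v v * B⁻¹)) *ᵥ w := by rw [h _ (sp_elt hB hBt v)]
    have h4 : ∀ z : Fin n → ℂ, (vecMulVec v v * B⁻¹) *ᵥ z = (v ⬝ᵥ (B⁻¹ *ᵥ z)) • v := by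
      intro z
      rw [← Matrix.mulVec_mulVec]
      funext i
      show ∑ b, v i * v b * (B⁻¹ *ᵥ z) b = (v ⬝ᵥ (B⁻¹ *ᵥ z)) * v i
      rw [dotProduct, Finset.sum_mul]
      exact Finset.sum_congr rfl fun b _ => by ring
    rw [← Matrix.mulVec_mulVec, h4, ← Matrix.mulVec_mulVec, h4, Matrix.mulVec_smul] at h1
    refine ⟨(v ⬝ᵥ (B⁻¹ *ᵥ w))⁻¹ * (v ⬝ᵥ (B⁻¹ *ᵥ (X *ᵥ w))), ?_⟩
    rw [mul_smul, h1, smul_smul, inv_mul_cancel₀ hw, one_smul]
  by_cases hn : n = 0
  · subst hn
    exact ⟨0, Matrix.ext fun i => i.elim0⟩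
  have hcol : ∀ i k, k ≠ i → X k i = 0 := by
    intro i k hk
    obtain ⟨c, hc⟩ := hJ (Pi.single i 1) (fun h => by
      have h7 := congrFun h i
      rw [Pi.single_eq_same] at h7
      exact one_ne_zero h7)
    have h1 := congrFun hc k
    rw [Matrix.mulVec_single_one, Pi.smul_apply, Pi.single_eq_of_ne hk, smul_zero] at h1
    exact h1
  have hdiag : ∀ i k, X i i = X k k := by
    intro i k
    by_cases hik : i = k
    · rw [hik]
    obtain ⟨c, hc⟩ := hJ (Pi.single i 1 + Pi.single k 1) (fun h => by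
      have h7 := congrFun h i
      rw [Pi.add_apply, Pi.single_eq_same, Pi.single_eq_of_ne hik, add_zero, Pi.zero_apply] at h7
      exact one_ne_zero h7)
    rw [Matrix.mulVec_add, Matrix.mulVec_single_one, Matrix.mulVec_single_one] at hc
    have h1 := congrFun hc i
    have h2 := congrFun hc k
    rw [Pi.add_apply, Pi.smul_apply, Pi.add_apply, Pi.single_eq_same, Pi.single_eq_of_ne hik, add_zero, smul_eq_mul,
      mul_one] at h1
    rw [Pi.add_apply, Pi.smul_apply, Pi.add_apply, Pi.single_eq_same, Pi.single_eq_of_ne (Ne.symm hik), zero_add, smul_eq_mul,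
      mul_one] at h2
    have h3 : X i i + X i k = c := h1
    have h4 : X k i + X k k = c := h2
    rw [hcol k i hik, add_zero] at h3
    rw [hcol i k (Ne.symm hik), zero_add] at h4
    rw [h3, h4]
  refine ⟨X ⟨0, Nat.pos_of_ne_zero hn⟩ ⟨0, Nat.pos_of_ne_zero hn⟩, ?_⟩
  ext i k
  rw [Matrix.smul_apply, smul_eq_mul]
  by_cases hik : i = k
  · subst hik
    rw [Matrix.one_apply_eq, mul_one]
    exact hdiag _ _
  · rw [Matrix.one_apply_ne hik, mul_zero]
    exact hcol k i hik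

end classical

end Pool.Agent.H885.ENR
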