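import Pool.Agent.H885.FewQ

/-!
# Few periods have a bounded degree
-/

set_option autoImplicit false
set_option linter.unusedSectionVars false
set_option linter.unusedVariables false

open Matrix Module Filter

namespace Pool.Agent.H885

lemma AlgD.mono {e e' s : ℕ} (h : e ≤ e') {b : Fin s → ℂ} {y : ℂ} (hy : AlgD e b y) : AlgD e' b y := by
  obtain ⟨P, h1, h2⟩ := hy
  exact ⟨P, h1.trans h, h2⟩

theorem algD_of_alg {s : ℕ} {b : Fin s → ℂ} {y : ℂ}
    (h : IsAlgebraic (IntermediateField.adjoin ℚ (Set.range b)) y) : ∃ e, AlgD e b y := by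
  classical
  rw [IntermediateField.isAlgebraic_adjoin_iff] at h
  obtain ⟨p, hp0, hp⟩ := h
  have h1 : ∀ i, ∃ q : MvPolynomial (Fin s) ℚ, MvPolynomial.aeval b q = (p.coeff i : ℂ) := by
    intro i
    obtain ⟨c, hc⟩ := p.coeff i
    have h2 : c ∈ (MvPolynomial.aeval (R := ℚ) b).range := by
      rw [← Algebra.adjoin_range_eq_range_aeval]
      exact hc
    exact h2
  choose q hq using h1
  set P : MvPolynomial (Option (Fin s)) ℚ := ∑ i ∈ Finset.range (p.natDegree + 1),
    MvPolynomial.rename some (q i) * MvPolynomial.X none ^ i with hP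
  have hev : ∀ x : ℂ, MvPolynomial.aeval (fun o : Option (Fin s) => o.elim x b) P = Polynomial.aeval x p := by
    intro x
    rw [hP, map_sum, Polynomial.aeval_eq_sum_range]
    refine Finset.sum_congr rfl fun i _ => ?_
    rw [map_mul, map_pow, MvPolynomial.aeval_X, MvPolynomial.aeval_rename]
    have h2 : ((fun o : Option (Fin s) => o.elim x b) ∘ some) = b := rfl
    rw [h2, hq]
    rfl
  refine ⟨P.totalDegree, P, le_rfl, ?_, ?_⟩
  · rw [hev, hp]
  · by_contra hcon
    push Not at hcon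
    apply hp0
    have h2 : p.map (algebraMap (Algebra.adjoin ℚ (Set.range b)) ℂ) = 0 := by
      refine Polynomial.funext fun x => ?_
      rw [Polynomial.eval_zero, Polynomial.eval_map, ← Polynomial.aeval_def, ← hev]
      exact hcon x
    exact (Polynomial.map_eq_zero_iff (f := algebraMap (Algebra.adjoin ℚ (Set.range b)) ℂ) (by
      intro x y hxy
      exact Subtype.ext hxy)).1 h2

theorem fewD_of_few {s r₀ n : ℕ} {C₀ : Matrix (Fin r₀) (Fin r₀) ℂ} {C : Matrix (Fin n) (Fin n) ℂ} {b : Fin s → ℂ} {κ : ℂ}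
    (hκ : κ ≠ 0) (h1 : ∀ i j, IsAlgebraic (IntermediateField.adjoin ℚ (Set.range b)) (κ * C₀ i j))
    (h2 : ∀ i j, IsAlgebraic (IntermediateField.adjoin ℚ (Set.range b)) (κ * C i j)) : ∃ e, FewD s e C₀ C := by
  classical
  choose e₁ he₁ using fun i j => algD_of_alg (h1 i j)
  choose e₂ he₂ using fun i j => algD_of_alg (h2 i j)
  refine ⟨(∑ i, ∑ j, e₁ i j) + ∑ i, ∑ j, e₂ i j, b, κ, hκ, fun i j => (he₁ i j).mono ?_, fun i j => (he₂ i j).mono ?_⟩
  · have h3 := Finset.single_le_sum (f := fun j => e₁ i j) (fun _ _ => Nat.zero_le _) (Finset.mem_univ j)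
    have h4 := Finset.single_le_sum (f := fun i => ∑ j, e₁ i j) (fun _ _ => Nat.zero_le _) (Finset.mem_univ i)
    omega
  · have h3 := Finset.single_le_sum (f := fun j => e₂ i j) (fun _ _ => Nat.zero_le _) (Finset.mem_univ j)
    have h4 := Finset.single_le_sum (f := fun i => ∑ j, e₂ i j) (fun _ _ => Nat.zero_le _) (Finset.mem_univ i)
    omega

end Pool.Agent.H885
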