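import Pool.Agent.H885.FewR

/-!
# Few periods have a bounded degree, tuples of matrices
-/

set_option autoImplicit false
set_option linter.unusedSectionVars false
set_option linter.unusedVariables false

open Matrix Module Filter

namespace Pool.Agent.H885

theorem fewT_of_alg {s r₀ n N : ℕ} {C₀ : Matrix (Fin r₀) (Fin r₀) ℂ} {C : Fin N → Matrix (Fin n) (Fin n) ℂ} {b : Fin s → ℂ} {κ : ℂ}
    (h1 : ∀ i j, IsAlgebraic (IntermediateField.adjoin ℚ (Set.range b)) (κ * C₀ i j))
    (h2 : ∀ l i j, IsAlgebraic (IntermediateField.adjoin ℚ (Set.range b)) (κ * C l i j)) :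
    ∃ e, (∀ i j, AlgD e b (κ * C₀ i j)) ∧ ∀ l i j, AlgD e b (κ * C l i j) := by
  classical
  choose e₁ he₁ using fun i j => algD_of_alg (h1 i j)
  choose e₂ he₂ using fun l i j => algD_of_alg (h2 l i j)
  refine ⟨(∑ i, ∑ j, e₁ i j) + ∑ l, ∑ i, ∑ j, e₂ l i j, fun i j => (he₁ i j).mono ?_, fun l i j => (he₂ l i j).mono ?_⟩
  · have h3 := Finset.single_le_sum (f := fun j => e₁ i j) (fun _ _ => Nat.zero_le _) (Finset.mem_univ j)
    have h4 := Finset.single_le_sum (f := fun i => ∑ j, e₁ i j) (fun _ _ => Nat.zero_le _) (Finset.mem_univ i)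
    omega
  · have h3 := Finset.single_le_sum (f := fun j => e₂ l i j) (fun _ _ => Nat.zero_le _) (Finset.mem_univ j)
    have h4 := Finset.single_le_sum (f := fun i => ∑ j, e₂ l i j) (fun _ _ => Nat.zero_le _) (Finset.mem_univ i)
    have h5 := Finset.single_le_sum (f := fun l => ∑ i, ∑ j, e₂ l i j) (fun _ _ => Nat.zero_le _) (Finset.mem_univ l)
    omega

end Pool.Agent.H885
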