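import Pool.Agent.H885.Rk

/-!
# Linear independence of values of G-functions with a rate only: the estimates
-/

set_option autoImplicit false

open PowerSeries Finset.HasAntidiagonal

namespace Pool.Agent.H885

open Pool.Agent.Y113

/-- the exponent -/
def expo (N q : ℕ) : ℕ :=
  let L := 2 * q * N + 4
  let a1 := (L + 2 * (N * L)) * (N * L)
  let b1 := 2 * (2 * q + 3) + 2 * L + a1
  let c1 := 2 + 2 * (q + 1) + L + a1 + 2 * (N * L)
  b1 * (N - 2) + c1 + 3

/-- the inequality of the method for one value of the parameter `ν` -/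
def Ineq (N q t : ℕ) (C A : ℝ) (ν : ℕ) : Prop :=
  let L := 2 * q * N + 4
  1 ≤ (N : ℝ) * (N.factorial * (A *
      ((t : ℝ) ^ (L * ν + q * (2 * ν)) * ((2 * C) ^ ((2 * q + 3) * (2 * ν) + 2 * (L * ν) + N + 1) *
        ((N * (L * ν + 1) : ℕ) * C ^ (2 * ((N * L - 1) * ν) + 1)) ^ (N * L))) ^ (N - 2)) *
      ((t : ℝ) ^ (L * ν + q * (2 * ν)) * ((2 * C) ^ (2 * ν + 1) * ((2 * C) ^ ((q + 1) * (2 * ν)) *
        (2 * ((N * ((L * ν : ℕ) + 1) * ((N * (L * ν + 1) : ℕ) * C ^ (2 * ((N * L - 1) * ν) + 1)) ^ (N * L) * C) *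
          (4 * C) ^ ((N * L - 1) * ν) * (1 / (t : ℝ)) ^ ((N * L - 1) * ν - 2 * ν)))))))

theorem ineq_false {N q t : ℕ} (hN : 2 ≤ N) {C : ℝ} (hC : 1 ≤ C) (ht : (2 * C) ^ expo N q ≤ (t : ℝ)) {A : ℝ} (hA0 : 0 ≤ A)
    {c₁ : ℕ} (hcore : ∀ ν, c₁ < ν → Ineq N q t C A ν) : False := by
  set L : ℕ := 2 * q * N + 4 with hL
  set a1 : ℕ := (L + 2 * (N * L)) * (N * L) with ha1
  set a0 : ℕ := (N + 1) * (N * L) with ha0
  set b1 : ℕ := 2 * (2 * q + 3) + 2 * L + a1 with hb1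
  set b0 : ℕ := N + 1 + a0 with hb0
  set c1 : ℕ := 2 + 2 * (q + 1) + L + a1 + 2 * (N * L) with hc1
  set c0 : ℕ := N + 3 + a0 with hc0
  set e1 : ℕ := b1 * (N - 2) + c1 with he1
  set e0 : ℕ := b0 * (N - 2) + c0 with he0
  have hexpo : expo N q = e1 + 3 := rfl
  rw [hexpo] at ht
  have hD2 : 2 ≤ 2 * C := by linarith
  have hD1 : 1 ≤ 2 * C := by linarith
  have hNpos : 0 < N := by omega
  have ht8 : 8 * C ≤ (t : ℝ) := by
    have h2 : (2 * C) ^ 3 ≤ (2 * C) ^ (e1 + 3) := pow_le_pow_right₀ hD1 (by omega)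
    have h3 : 8 * C ≤ (2 * C) ^ 3 := by
      have : 1 ≤ C ^ 2 := one_le_pow₀ hC
      nlinarith
    linarith
  have htpos : (0 : ℝ) < t := by linarith
  have htnat : 0 < t := by exact_mod_cast htpos
  -- the simplified inequality
  have hkey : ∀ ν : ℕ, c₁ < ν → (2 * C) ^ ν ≤ N * (N.factorial * A) * (2 * C) ^ e0 := by
    intro ν hν
    have h := hcore ν hν
    unfold Ineq at h
    simp only [← hL] at h
    have hNL : 4 ≤ N * L := le_trans (by omega) (Nat.le_mul_of_pos_left L hNpos)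
    have hm₀ : (N * L - 1) * ν ≤ N * L * ν := Nat.mul_le_mul_right _ (Nat.sub_le _ _)
    have hA₀ := A0_bound hC N L ν ((N * L - 1) * ν) hm₀
    rw [← ha1, ← ha0] at hA₀
    set A₀ : ℝ := ((N * (L * ν + 1) : ℕ) * C ^ (2 * ((N * L - 1) * ν) + 1)) ^ (N * L) with hA₀d
    have hA₀0 : 0 ≤ A₀ := by positivity
    set p : ℕ := (L + 2 * q) * ν with hp
    have hpe : L * ν + q * (2 * ν) = p := by rw [hp]; ring
    have hX : (t : ℝ) ^ (L * ν + q * (2 * ν)) * ((2 * C) ^ ((2 * q + 3) * (2 * ν) + 2 * (L * ν) + N + 1) * A₀) ≤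
        (t : ℝ) ^ p * (2 * C) ^ (b1 * ν + b0) := by
      rw [hpe]
      refine mul_le_mul_of_nonneg_left ?_ (by positivity)
      calc (2 * C) ^ ((2 * q + 3) * (2 * ν) + 2 * (L * ν) + N + 1) * A₀
          ≤ (2 * C) ^ ((2 * q + 3) * (2 * ν) + 2 * (L * ν) + N + 1) * (2 * C) ^ (a1 * ν + a0) :=
            mul_le_mul_of_nonneg_left hA₀ (by positivity)
        _ = (2 * C) ^ (b1 * ν + b0) := by
            rw [← pow_add]; congr 1; rw [hb1, hb0]; ring
    have hm₀e : (N * L - 1) * ν - 2 * ν = p * (N - 1) + (1 + 2 * q) * ν := by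
      have h2 : (N * L - 1) = (L + 2 * q) * (N - 1) + (1 + 2 * q) + 2 := by
        obtain ⟨M, rfl⟩ : ∃ M, N = M + 1 := ⟨N - 1, by omega⟩
        rw [Nat.add_sub_cancel]
        have : (M + 1) * L = M * L + L := by ring
        rw [this]
        have h3 : L = 2 * q * M + 2 * q + 4 := by rw [hL]; ring
        have h4 : (L + 2 * q) * M = M * L + 2 * q * M := by ring
        rw [h4]
        omega
      rw [h2, hp]
      have h5 : ((L + 2 * q) * (N - 1) + (1 + 2 * q) + 2) * ν = (L + 2 * q) * ν * (N - 1) + (1 + 2 * q) * ν + 2 * ν := by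
        ring
      rw [h5]
      omega
    have hLLb : (t : ℝ) ^ (L * ν + q * (2 * ν)) * ((2 * C) ^ (2 * ν + 1) * ((2 * C) ^ ((q + 1) * (2 * ν)) *
        (2 * ((N * ((L * ν : ℕ) + 1) * A₀ * C) *
          (4 * C) ^ ((N * L - 1) * ν) * (1 / (t : ℝ)) ^ ((N * L - 1) * ν - 2 * ν))))) ≤
        (t : ℝ) ^ p * ((2 * C) ^ (c1 * ν + c0) * (1 / (t : ℝ)) ^ ((N * L - 1) * ν - 2 * ν)) := by
      rw [hpe]
      refine mul_le_mul_of_nonneg_left ?_ (by positivity)
      have h2 : (N : ℝ) * (((L * ν : ℕ) : ℝ) + 1) ≤ (2 * C) ^ (N + L * ν) := by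
        rw [pow_add]
        have h2 := nat_le_pow hD2 N
        have h3 := nat_le_pow hD2 (L * ν)
        exact mul_le_mul (by linarith) h3 (by positivity) (by positivity)
      have h3 : (4 * C) ^ ((N * L - 1) * ν) ≤ (2 * C) ^ (2 * (N * L * ν)) := by
        calc (4 * C) ^ ((N * L - 1) * ν) ≤ ((2 * C) ^ 2) ^ ((N * L - 1) * ν) := by
              apply pow_le_pow_left₀ (by positivity)
              nlinarith
          _ = (2 * C) ^ (2 * ((N * L - 1) * ν)) := by rw [← pow_mul]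
          _ ≤ _ := pow_le_pow_right₀ hD1 (by omega)
      have h4 : N * (((L * ν : ℕ) : ℝ) + 1) * A₀ * C * (4 * C) ^ ((N * L - 1) * ν) ≤
          (2 * C) ^ (N + L * ν) * (2 * C) ^ (a1 * ν + a0) * (2 * C) ^ 1 * (2 * C) ^ (2 * (N * L * ν)) := by
        refine mul_le_mul (mul_le_mul (mul_le_mul h2 hA₀ hA₀0 (by positivity)) (by rw [pow_one]; linarith)
          (by positivity) (by positivity)) h3 (by positivity) (by positivity)
      calc (2 * C) ^ (2 * ν + 1) * ((2 * C) ^ ((q + 1) * (2 * ν)) *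
            (2 * ((N * (((L * ν : ℕ) : ℝ) + 1) * A₀ * C) * (4 * C) ^ ((N * L - 1) * ν) *
              (1 / (t : ℝ)) ^ ((N * L - 1) * ν - 2 * ν))))
          ≤ (2 * C) ^ (2 * ν + 1) * ((2 * C) ^ ((q + 1) * (2 * ν)) *
            ((2 * C) ^ 1 * (((2 * C) ^ (N + L * ν) * (2 * C) ^ (a1 * ν + a0) * (2 * C) ^ 1 * (2 * C) ^ (2 * (N * L * ν))) *
              (1 / (t : ℝ)) ^ ((N * L - 1) * ν - 2 * ν)))) := by
            refine mul_le_mul_of_nonneg_left (mul_le_mul_of_nonneg_left ?_ (by positivity)) (by positivity)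
            refine mul_le_mul (by rw [pow_one]; exact hD2) (mul_le_mul_of_nonneg_right h4 (by positivity)) (by positivity)
              (by positivity)
        _ = (2 * C) ^ (c1 * ν + c0) * (1 / (t : ℝ)) ^ ((N * L - 1) * ν - 2 * ν) := by
            have : c1 * ν + c0 = (2 * ν + 1) + ((q + 1) * (2 * ν) + (1 + ((N + L * ν) + (a1 * ν + a0) + 1 +
              2 * (N * L * ν)))) := by
              rw [hc1, hc0]; ring
            rw [this, pow_add, pow_add, pow_add, pow_add, pow_add, pow_add]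
            ring
    -- combine
    have hcomb : (N : ℝ) * (N.factorial * (A * ((t : ℝ) ^ p * (2 * C) ^ (b1 * ν + b0)) ^ (N - 2)) *
        ((t : ℝ) ^ p * ((2 * C) ^ (c1 * ν + c0) * (1 / (t : ℝ)) ^ ((N * L - 1) * ν - 2 * ν)))) ≤
        N * (N.factorial * A) * (2 * C) ^ (e1 * ν + e0) * (1 / (t : ℝ)) ^ ν := by
      rw [hm₀e, mul_pow, ← pow_mul, ← pow_mul]
      have h2 : (t : ℝ) ^ (p * (N - 2)) * (t : ℝ) ^ p * (1 / (t : ℝ)) ^ (p * (N - 1) + (1 + 2 * q) * ν) ≤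
          (1 / (t : ℝ)) ^ ν := by
        have h3 : p * (N - 1) = p * (N - 2) + p := by
          obtain ⟨M, rfl⟩ : ∃ M, N = M + 2 := ⟨N - 2, by omega⟩
          simp only [Nat.add_sub_cancel]
          rw [show M + 2 - 1 = M + 1 by omega]; ring
        rw [h3, ← pow_add, pow_add (1 / (t : ℝ)), ← mul_assoc, ← mul_pow, mul_one_div_cancel htpos.ne', one_pow, one_mul]
        apply pow_le_pow_of_le_one (by positivity)
        · rw [div_le_one htpos]; linarith
        · calc ν = 1 * ν := (one_mul ν).symm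
            _ ≤ (1 + 2 * q) * ν := Nat.mul_le_mul_right _ (by omega)
      have h4 : (N : ℝ) * (N.factorial * (A * ((t : ℝ) ^ (p * (N - 2)) * (2 * C) ^ ((b1 * ν + b0) * (N - 2)))) *
          ((t : ℝ) ^ p * ((2 * C) ^ (c1 * ν + c0) * (1 / (t : ℝ)) ^ (p * (N - 1) + (1 + 2 * q) * ν)))) =
          N * (N.factorial * A) * (2 * C) ^ (e1 * ν + e0) *
          ((t : ℝ) ^ (p * (N - 2)) * (t : ℝ) ^ p * (1 / (t : ℝ)) ^ (p * (N - 1) + (1 + 2 * q) * ν)) := by
        have : e1 * ν + e0 = (b1 * ν + b0) * (N - 2) + (c1 * ν + c0) := by rw [he1, he0]; ring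
        rw [this, pow_add (2 * C)]
        ring
      rw [h4]
      exact mul_le_mul_of_nonneg_left h2 (by positivity)
    have hfin : 1 ≤ N * (N.factorial * A) * (2 * C) ^ (e1 * ν + e0) * (1 / (t : ℝ)) ^ ν := by
      refine (h.trans ?_).trans hcomb
      refine mul_le_mul_of_nonneg_left ?_ (by positivity)
      refine mul_le_mul ?_ hLLb (by positivity) (by positivity)
      refine mul_le_mul_of_nonneg_left ?_ (by positivity)
      refine mul_le_mul_of_nonneg_left ?_ hA0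
      exact pow_le_pow_left₀ (by positivity) hX _
    have ht2 : (2 * C) ^ (e1 + 1) ≤ (t : ℝ) := (pow_le_pow_right₀ hD1 (by omega)).trans ht
    have ht3 : (2 * C) ^ ((e1 + 1) * ν) ≤ (t : ℝ) ^ ν := by
      rw [pow_mul]; exact pow_le_pow_left₀ (by positivity) ht2 ν
    have h5 : (t : ℝ) ^ ν ≤ N * (N.factorial * A) * (2 * C) ^ (e1 * ν + e0) := by
      have h6 := mul_le_mul_of_nonneg_right hfin (pow_nonneg htpos.le ν)
      rw [one_mul, mul_assoc, ← mul_pow, one_div_mul_cancel htpos.ne', one_pow, mul_one] at h6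
      exact h6
    have h7 : (2 * C) ^ (e1 * ν) * (2 * C) ^ ν ≤ (2 * C) ^ (e1 * ν) * (N * (N.factorial * A) * (2 * C) ^ e0) := by
      calc (2 * C) ^ (e1 * ν) * (2 * C) ^ ν = (2 * C) ^ ((e1 + 1) * ν) := by rw [← pow_add]; congr 1; ring
        _ ≤ (t : ℝ) ^ ν := ht3
        _ ≤ N * (N.factorial * A) * (2 * C) ^ (e1 * ν + e0) := h5
        _ = _ := by rw [pow_add]; ring
    exact le_of_mul_le_mul_left h7 (by positivity)
  -- contradiction
  have htend := tendsto_pow_atTop_atTop_of_one_lt (show (1 : ℝ) < 2 * C by linarith)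
  obtain ⟨ν, hν1, hν2⟩ := ((htend.eventually_gt_atTop (N * (N.factorial * A) * (2 * C) ^ e0)).and
    (Filter.eventually_gt_atTop c₁)).exists
  exact absurd (hkey ν hν2) (not_le.2 hν1)

/-- A G-system in which the derivatives are only expressed after multiplication with `α`, with bounds in which
only the rate is important. -/
structure GSysR {N : ℕ} (q : ℕ) (C : ℝ) (T α : Polynomial ℤ) (q₁ : ℕ) (C₁ : ℝ) (y : Fin N → ℚ⟦X⟧) : Prop where
  one_le : 1 ≤ C
  degT : T.natDegree ≤ q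
  sizeT : ∀ l, |((T.coeff l : ℤ) : ℝ)| ≤ C
  size : ∀ i m, |((coeff m (y i) : ℚ) : ℝ)| ≤ C ^ (m + 1)
  den : ∀ m, ∃ d : ℕ, 0 < d ∧ (d : ℝ) ≤ C ^ (m + 1) ∧ ∀ i, ∀ j ≤ m, ∃ a : ℤ, (d : ℚ) * coeff j (y i) = a
  one_le₁ : 1 ≤ C₁
  der : ∀ k, ∃ g : ℕ, 0 < g ∧ (g : ℝ) ≤ C ^ (k + 1) ∧ ∀ s ≤ k, ∃ G : Fin N → Fin N → Polynomial ℤ,
    (∀ i j, (G i j).natDegree ≤ q * s + q₁) ∧ (∀ i j l, |(((G i j).coeff l : ℤ) : ℝ)| ≤ C₁ * C ^ (k + 1)) ∧
    ∀ i, (g : ℚ⟦X⟧) * (ps α * (ps T ^ s * hd s (y i))) = ∑ j, ps (G i j) * y j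

section Est

variable {N q : ℕ} {C : ℝ} {T : Polynomial ℤ}

lemma natDegree_PdZ' {G : ℕ → Fin N → Fin N → Polynomial ℤ} {P : Fin N → Polynomial ℤ} {n K q₁ : ℕ}
    (hT : T.natDegree ≤ q) (hP : ∀ i, (P i).natDegree ≤ n) (hG : ∀ s ≤ K, ∀ i j, (G s i j).natDegree ≤ q * s + q₁) {k : ℕ}
    (hk : k ≤ K) (j : Fin N) : (PdZ T G P k j).natDegree ≤ n + q * K + q₁ := by
  unfold PdZ
  refine Polynomial.natDegree_sum_le_of_forall_le _ _ fun p hp => ?_
  rw [Finset.HasAntidiagonal.mem_antidiagonal] at hp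
  refine Polynomial.natDegree_sum_le_of_forall_le _ _ fun i _ => ?_
  refine Polynomial.natDegree_mul_le.trans ?_
  have h1 := hG p.2 (by omega) i j
  have h2 : (T ^ p.1 * Polynomial.hasseDeriv p.1 (P i)).natDegree ≤ q * p.1 + n := by
    refine Polynomial.natDegree_mul_le.trans ?_
    have h3 : (T ^ p.1).natDegree ≤ q * p.1 := by
      refine Polynomial.natDegree_pow_le.trans ?_
      rw [mul_comm]
      exact Nat.mul_le_mul_right _ hT
    have h4 : (Polynomial.hasseDeriv p.1 (P i)).natDegree ≤ n :=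
      (Polynomial.natDegree_hasseDeriv_le _ _).trans ((Nat.sub_le _ _).trans (hP i))
    omega
  have h5 : q * p.1 + q * p.2 ≤ q * K := by
    rw [← Nat.mul_add]
    exact Nat.mul_le_mul_left _ (by omega)
  omega

/-- value of the derived vector -/
lemma PdZ_bound' {G : ℕ → Fin N → Fin N → Polynomial ℤ} {P : Fin N → Polynomial ℤ} {n K q₁ : ℕ} {A D x C₁ : ℝ}
    (hD2 : 2 ≤ D) (hCD : C ≤ D) (hC : 1 ≤ C) (hA : 0 ≤ A) (hx0 : 0 ≤ x) (hx1 : x ≤ 1) (hC₁ : 1 ≤ C₁)
    (hT : T.natDegree ≤ q) (hTc : ∀ l, |((T.coeff l : ℤ) : ℝ)| ≤ C)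
    (hP : ∀ i, (P i).natDegree ≤ n) (hPc : ∀ i l, |(((P i).coeff l : ℤ) : ℝ)| ≤ A)
    (hG : ∀ s ≤ K, ∀ i j, (G s i j).natDegree ≤ q * s + q₁)
    (hGc : ∀ s ≤ K, ∀ i j l, |(((G s i j).coeff l : ℤ) : ℝ)| ≤ C₁ * C ^ (K + 1)) {k : ℕ} (hk : k ≤ K) (j : Fin N) :
    |Polynomial.aeval x (PdZ T G P k j)| ≤ ((q₁ + 1) * C₁) * (D ^ ((2 * q + 3) * K + 2 * n + N + 1) * A) := by
  have hD0 : 0 ≤ D := by linarith
  have hD1 : 1 ≤ D := by linarith
  have hnat : ∀ a : ℕ, (a : ℝ) + 1 ≤ D ^ a := by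
    intro a
    calc (a : ℝ) + 1 ≤ 2 ^ a := by
          have : a + 1 ≤ 2 ^ a := Nat.lt_two_pow_self
          exact_mod_cast this
      _ ≤ D ^ a := pow_le_pow_left₀ (by norm_num) hD2 a
  have hTx : |Polynomial.aeval x T| ≤ D ^ (q + 1) := by
    refine (aeval_bound hx0 hx1 hT hTc).trans ?_
    rw [pow_succ]
    exact mul_le_mul (hnat q) hCD (by linarith) (by positivity)
  have hPx : ∀ i, ∀ a, |Polynomial.aeval x (Polynomial.hasseDeriv a (P i))| ≤ D ^ (2 * n) * A := by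
    intro i a
    have h1 : (Polynomial.hasseDeriv a (P i)).natDegree ≤ n :=
      (Polynomial.natDegree_hasseDeriv_le _ _).trans ((Nat.sub_le _ _).trans (hP i))
    have h2 : ∀ l, |(((Polynomial.hasseDeriv a (P i)).coeff l : ℤ) : ℝ)| ≤ 2 ^ n * A := by
      intro l
      rw [Polynomial.hasseDeriv_coeff]
      rcases le_or_gt (l + a) n with h | h
      · push_cast
        rw [abs_mul, Nat.abs_cast]
        have h3 : (((l + a).choose a : ℕ) : ℝ) ≤ 2 ^ n := by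
          calc (((l + a).choose a : ℕ) : ℝ) ≤ 2 ^ (l + a) := by exact_mod_cast Nat.choose_le_two_pow _ _
            _ ≤ 2 ^ n := pow_le_pow_right₀ (by norm_num) h
        exact mul_le_mul h3 (hPc _ _) (abs_nonneg _) (by positivity)
      · rw [Polynomial.coeff_eq_zero_of_natDegree_lt (lt_of_le_of_lt (hP i) h)]
        simp only [mul_zero, Int.cast_zero, abs_zero]
        positivity
    refine (aeval_bound hx0 hx1 h1 h2).trans ?_
    have h4 : (2 : ℝ) ^ n ≤ D ^ n := pow_le_pow_left₀ (by norm_num) hD2 n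
    calc ((n : ℝ) + 1) * (2 ^ n * A) ≤ D ^ n * (D ^ n * A) :=
          mul_le_mul (hnat n) (mul_le_mul_of_nonneg_right h4 hA) (by positivity) (by positivity)
      _ = D ^ (2 * n) * A := by rw [two_mul, pow_add]; ring
  have hGx : ∀ s ≤ K, ∀ i j, |Polynomial.aeval x (G s i j)| ≤ ((q₁ + 1) * C₁) * D ^ (q * K + K + 1) := by
    intro s hs i j
    have h1 : (G s i j).natDegree ≤ q * K + q₁ := (hG s hs i j).trans (Nat.add_le_add_right (Nat.mul_le_mul_left _ hs) _)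
    refine (aeval_bound hx0 hx1 h1 (hGc s hs i j)).trans ?_
    have h2 : C ^ (K + 1) ≤ D ^ (K + 1) := pow_le_pow_left₀ (by linarith) hCD _
    have h3 : (((q * K + q₁ : ℕ) : ℝ) + 1) ≤ (q₁ + 1) * D ^ (q * K) := by
      have h4 := hnat (q * K)
      have h5 : (0 : ℝ) ≤ ((q * K : ℕ) : ℝ) := by positivity
      have h6 : (0 : ℝ) ≤ (q₁ : ℝ) := by positivity
      push_cast at h4 h5 ⊢
      nlinarith
    calc (((q * K + q₁ : ℕ) : ℝ) + 1) * (C₁ * C ^ (K + 1)) ≤ ((q₁ + 1) * D ^ (q * K)) * (C₁ * D ^ (K + 1)) :=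
          mul_le_mul h3 (mul_le_mul_of_nonneg_left h2 (by linarith)) (by positivity) (by positivity)
      _ = ((q₁ + 1) * C₁) * D ^ (q * K + K + 1) := by
          have : q * K + K + 1 = q * K + (K + 1) := by ring
          rw [this, pow_add]; ring
  unfold PdZ
  rw [map_sum]
  refine (Finset.abs_sum_le_sum_abs _ _).trans ?_
  have hκ : 0 ≤ ((q₁ : ℝ) + 1) * C₁ := by positivity
  have hterm : ∀ p ∈ antidiagonal k, |Polynomial.aeval x (∑ i, T ^ p.1 * Polynomial.hasseDeriv p.1 (P i) * G p.2 i j)| ≤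
      N * (D ^ ((q + 1) * K) * (D ^ (2 * n) * A) * (((q₁ + 1) * C₁) * D ^ (q * K + K + 1))) := by
    intro p hp
    rw [Finset.HasAntidiagonal.mem_antidiagonal] at hp
    rw [map_sum]
    refine (Finset.abs_sum_le_sum_abs _ _).trans ?_
    have h1 : ∀ i : Fin N, |Polynomial.aeval x (T ^ p.1 * Polynomial.hasseDeriv p.1 (P i) * G p.2 i j)| ≤
        D ^ ((q + 1) * K) * (D ^ (2 * n) * A) * (((q₁ + 1) * C₁) * D ^ (q * K + K + 1)) := by
      intro i
      rw [map_mul, map_mul, map_pow, abs_mul, abs_mul, abs_pow]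
      have h2 : |Polynomial.aeval x T| ^ p.1 ≤ D ^ ((q + 1) * K) := by
        calc |Polynomial.aeval x T| ^ p.1 ≤ (D ^ (q + 1)) ^ p.1 := pow_le_pow_left₀ (abs_nonneg _) hTx _
          _ = D ^ ((q + 1) * p.1) := by rw [← pow_mul]
          _ ≤ D ^ ((q + 1) * K) := pow_le_pow_right₀ hD1 (Nat.mul_le_mul_left _ (by omega))
      exact mul_le_mul (mul_le_mul h2 (hPx i _) (abs_nonneg _) (by positivity)) (hGx _ (by omega) _ _) (abs_nonneg _)
        (by positivity)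
    refine (Finset.sum_le_sum fun i _ => h1 i).trans ?_
    simp
  refine (Finset.sum_le_sum hterm).trans ?_
  rw [Finset.sum_const, Finset.Nat.card_antidiagonal, nsmul_eq_mul]
  have h3 : (((k + 1 : ℕ)) : ℝ) ≤ D ^ K := by
    push_cast
    calc (k : ℝ) + 1 ≤ (K : ℝ) + 1 := by have : (k : ℝ) ≤ K := by exact_mod_cast hk
                                         linarith
      _ ≤ D ^ K := hnat K
  have h4 : (N : ℝ) ≤ D ^ N := by
    have := hnat N
    linarith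
  calc (((k + 1 : ℕ)) : ℝ) * (N * (D ^ ((q + 1) * K) * (D ^ (2 * n) * A) * (((q₁ + 1) * C₁) * D ^ (q * K + K + 1))))
      ≤ D ^ K * (D ^ N * (D ^ ((q + 1) * K) * (D ^ (2 * n) * A) * (((q₁ + 1) * C₁) * D ^ (q * K + K + 1)))) := by
        refine mul_le_mul h3 (mul_le_mul_of_nonneg_right h4 (by positivity)) (by positivity) (by positivity)
    _ = ((q₁ + 1) * C₁) * (D ^ ((2 * q + 3) * K + 2 * n + N + 1) * A) := by
        have : (2 * q + 3) * K + 2 * n + N + 1 = K + (N + ((q + 1) * K + (2 * n + (q * K + K + 1)))) := by ring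
        rw [this, pow_add, pow_add, pow_add, pow_add]
        ring

end Est

end Pool.Agent.H885
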