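import Pool.Agent.H885.ShU
import Pool.Agent.H885.UnifQ

/-!
# Systems with nilpotent residues at the origin, with different shifts
-/

set_option autoImplicit false
set_option linter.unusedSectionVars false
set_option linter.unusedVariables false

open PowerSeries

namespace Pool.Agent.H885

open Pool.Agent.Y113
open Pool.Agent.Y120.GH (L1 L1_Pg L1_Hm Pg Hm ps_Hm ps_Pg sf sf_mul sf_sum sf_der sf_pow sf_nat gsys_opt)

variable {n N L : ℕ}

/-- the transformed denominator does not vanish -/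
lemma PgHm_ne (g : ℕ) {q : ℕ} {T : Polynomial ℤ} (hd : T.natDegree ≤ q) (hT : T ≠ 0) : Pg g ^ 2 * Hm g q T ≠ 0 := by
  intro h0
  -- the transformed polynomial does not vanish
  have h1 : ps (Pg g ^ 2 * Hm g q T) = 0 := by
    rw [h0]
    unfold ps
    simp
  rw [ps_mul, ps_pow, ps_Hm g hd] at h1
  have hP : ps (Pg g) ≠ 0 := by
    intro h
    have h2 := congrArg (constantCoeff (R := ℚ)) h
    rw [ps_Pg] at h2
    simp at h2
  rcases mul_eq_zero.1 h1 with h2 | h2
  · exact pow_ne_zero _ hP h2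
  · rcases mul_eq_zero.1 h2 with h3 | h3
    · exact pow_ne_zero _ hP h3
    · -- the substitution is injective on polynomials: the lowest coefficient
      have h4 : ps T ≠ 0 := Pool.Agent.Y120.GH.ps_ne hT
      have h5 : (sh g) ≠ 0 := by
        intro h
        have h6 := congrArg (coeff (R := ℚ) 1) h
        simp [sh] at h6
      obtain ⟨k, hk, hk'⟩ : ∃ k, coeff k (ps T) ≠ 0 ∧ ∀ d < k, coeff d (ps T) = 0 := by
        have h6 : ∃ k, coeff k (ps T) ≠ 0 := by
          by_contra hcon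
          push Not at hcon
          exact h4 (PowerSeries.ext hcon)
        exact ⟨Nat.find h6, Nat.find_spec h6, fun d hd => not_not.1 (Nat.find_min h6 hd)⟩
      have h7 := congrArg (coeff (R := ℚ) k) h3
      rw [coeff_subst_sh, Finset.sum_range_succ, Finset.sum_eq_zero, zero_add, map_zero] at h7
      · have h8 : coeff k ((sh g) ^ k) = 1 := by
          have h9 : ∀ j : ℕ, coeff j ((sh g) ^ j) = 1 := by
            intro j
            induction j with
            | zero => simp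
            | succ j ih =>
              have h10 : sh g = X * PowerSeries.mk fun m => ((g : ℚ)) ^ m := by
                ext m
                rcases m with _ | m
                · simp [sh]
                · rw [coeff_succ_X_mul, sh, coeff_mk, coeff_mk]
                  simp
              have h11 : ∀ j : ℕ, (sh g) ^ j = X ^ j * (PowerSeries.mk fun m => ((g : ℚ)) ^ m) ^ j := by
                intro j
                rw [h10, mul_pow]
              rw [h11]
              have h12 : coeff (j + 1) (X ^ (j + 1) * (PowerSeries.mk fun m => ((g : ℚ)) ^ m) ^ (j + 1)) =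
                  coeff 0 ((PowerSeries.mk fun m => ((g : ℚ)) ^ m) ^ (j + 1)) := by
                have := PowerSeries.coeff_X_pow_mul ((PowerSeries.mk fun m => ((g : ℚ)) ^ m) ^ (j + 1)) (j + 1) 0
                rw [zero_add] at this
                exact this
              rw [h12, coeff_zero_eq_constantCoeff_apply, map_pow, ← coeff_zero_eq_constantCoeff_apply, coeff_mk]
              simp
          exact h9 k
        rw [h8, mul_one] at h7
        exact hk h7
      · intro d hd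
        rw [Finset.mem_range] at hd
        rw [hk' d hd, zero_mul]

/-- families with the same denominator -/
theorem gsys_blk {K : ℕ} {ι : Type} [Fintype ι] {q : ℕ} {C : ℝ} {T : Polynomial ℤ} {y : Fin K → ι → ℚ⟦X⟧} (hC : 1 ≤ C)
    (hTd : T.natDegree ≤ q) (hTs : ∀ l, |((T.coeff l : ℤ) : ℝ)| ≤ C) (h : ∀ k, GSys q C T (y k)) :
    GSys q (C ^ (K + 1)) T (fun p : Fin K × ι => y p.1 p.2) := by
  classical
  have hC0 : 0 < C := by linarith
  have hCK : C ≤ C ^ (K + 1) := le_self_pow₀ hC (by omega)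
  refine ⟨one_le_pow₀ hC, hTd, fun l => (hTs l).trans hCK, fun p m => ((h p.1).size p.2 m).trans
    (pow_le_pow_left₀ hC0.le hCK _), fun m => ?_, fun k => ?_⟩
  · choose d hd0 hd hd' using fun l => (h l).den m
    refine ⟨∏ l, d l, Finset.prod_pos fun l _ => hd0 l, ?_, fun p j hj => ?_⟩
    · push_cast
      calc ∏ l, (d l : ℝ) ≤ ∏ _l : Fin K, C ^ (m + 1) :=
            Finset.prod_le_prod (fun l _ => by positivity) fun l _ => hd l
        _ = (C ^ K) ^ (m + 1) := by
            rw [Finset.prod_const, Finset.card_univ, Fintype.card_fin, ← pow_mul, ← pow_mul, mul_comm]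
        _ ≤ (C ^ (K + 1)) ^ (m + 1) :=
            pow_le_pow_left₀ (by positivity) (pow_le_pow_right₀ hC (by omega)) _
    · obtain ⟨z, hz⟩ := hd' p.1 p.2 j hj
      refine ⟨(∏ l' ∈ Finset.univ.erase p.1, d l' : ℕ) * z, ?_⟩
      rw [← Finset.prod_erase_mul _ _ (Finset.mem_univ p.1)]
      push_cast
      rw [← hz]
      ring
  · choose d hd0 hd hd' using fun l => (h l).der k
    have hprod : ∀ s : Finset (Fin K), ((∏ l ∈ s, d l : ℕ) : ℝ) ≤ (C ^ s.card) ^ (k + 1) := by
      intro s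
      push_cast
      calc ∏ l ∈ s, (d l : ℝ) ≤ ∏ _l ∈ s, C ^ (k + 1) :=
            Finset.prod_le_prod (fun l _ => by positivity) fun l _ => hd l
        _ = _ := by
            rw [Finset.prod_const, ← pow_mul, ← pow_mul, mul_comm]
    refine ⟨∏ l, d l, Finset.prod_pos fun l _ => hd0 l, ?_, fun s hs => ?_⟩
    · refine (hprod _).trans (pow_le_pow_left₀ (by positivity) (pow_le_pow_right₀ hC ?_) _)
      rw [Finset.card_univ, Fintype.card_fin]
      omega
    choose G h1 h2 h3 using fun l => hd' l s hs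
    refine ⟨fun p p' => if p.1 = p'.1 then Polynomial.C ((∏ l ∈ Finset.univ.erase p.1, d l : ℕ) : ℤ) * G p.1 p.2 p'.2 else 0,
      fun p p' => ?_, fun p p' l => ?_, fun p => ?_⟩
    · beta_reduce
      split_ifs
      · exact (Polynomial.natDegree_C_mul_le _ _).trans (h1 _ _ _)
      · simp
    · beta_reduce
      split_ifs
      · rw [Polynomial.coeff_C_mul]
        push_cast
        rw [abs_mul, abs_of_nonneg (by positivity)]
        have e1 := hprod (Finset.univ.erase p.1)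
        push_cast at e1
        have e2 : (Finset.univ.erase p.1).card + 1 ≤ K + 1 := by
          rw [Finset.card_erase_of_mem (Finset.mem_univ _), Finset.card_univ, Fintype.card_fin]
          omega
        calc (∏ l ∈ Finset.univ.erase p.1, (d l : ℝ)) * |(((G p.1 p.2 p'.2).coeff l : ℤ) : ℝ)| ≤
            (C ^ (Finset.univ.erase p.1).card) ^ (k + 1) * C ^ (k + 1) :=
              mul_le_mul e1 (h2 _ _ _ _) (abs_nonneg _) (by positivity)
          _ = (C ^ ((Finset.univ.erase p.1).card + 1)) ^ (k + 1) := by rw [← mul_pow, ← pow_succ]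
          _ ≤ _ := pow_le_pow_left₀ (by positivity) (pow_le_pow_right₀ hC e2) _
      · simp only [Polynomial.coeff_zero, Int.cast_zero, abs_zero]
        positivity
    · rw [Fintype.sum_prod_type, Finset.sum_eq_single p.1]
      · have e3 : ((∏ l, d l : ℕ) : ℚ⟦X⟧) = ((∏ l ∈ Finset.univ.erase p.1, d l : ℕ) : ℚ⟦X⟧) * (d p.1 : ℚ⟦X⟧) := by
          rw [← Finset.prod_erase_mul _ _ (Finset.mem_univ p.1)]
          push_cast
          rfl
        rw [e3, mul_assoc, h3 p.1 p.2, Finset.mul_sum]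
        refine Finset.sum_congr rfl fun j _ => ?_
        beta_reduce
        rw [if_pos rfl, ps_mul, ps_C]
        push_cast
        ring
      · intro j _ hj
        refine Finset.sum_eq_zero fun a _ => ?_
        beta_reduce
        rw [if_neg (fun h => hj h.symm), ps_zero, zero_mul]
      · intro h
        exact absurd (Finset.mem_univ _) h

/-- families with different denominators -/
theorem gsys_pi (K q : ℕ) : ∃ q' E : ℕ, ∀ (ι : Type) [Fintype ι] (C : ℝ) (T : Fin K → Polynomial ℤ) (y : Fin K → ι → ℚ⟦X⟧),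
    1 ≤ C → (∀ k, GSys q C (T k) (y k)) → GSys q' ((2 * C) ^ E) (∏ k, T k) (fun p : Fin K × ι => y p.1 p.2) := by
  classical
  obtain ⟨E₀, hE₀⟩ := t_enl q (q * K)
  refine ⟨q + q * K, (((q + 1) * (K + 1) + 1) * E₀ + (q + 1) * (K + 1)) * (K + 1), fun ι _ C T y hC h => ?_⟩
  have hC0 : 0 < C := by linarith
  have hD1 : 1 ≤ 2 * C := by linarith
  -- the products
  have hq1 : ((q : ℝ) + 1) * C ≤ (2 * C) ^ (q + 1) := by
    have h1 := succ_le_two_pow q
    calc ((q : ℝ) + 1) * C ≤ 2 ^ q * C := mul_le_mul_of_nonneg_right h1 hC0.le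
      _ ≤ (2 * C) ^ q * (2 * C) := by
          refine mul_le_mul (pow_le_pow_left₀ (by norm_num) (by linarith) _) (by linarith) (by positivity) (by positivity)
      _ = _ := (pow_succ _ _).symm
  have hL : ∀ k, L1 q ((2 * C) ^ (q + 1)) (T k) := fun k => (L1.ofBd ⟨(h k).degT, (h k).sizeT⟩).mono le_rfl hq1
  have hprod : ∀ s : Finset (Fin K), L1 (q * s.card) (((2 * C) ^ (q + 1)) ^ s.card) (∏ l ∈ s, T l) := by
    intro s
    induction s using Finset.induction_on with
    | empty => simpa using Pool.Agent.Y120.GH.L1.one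
    | insert j s hj ih =>
      rw [Finset.prod_insert hj, Finset.card_insert_of_notMem hj]
      refine ((hL j).mul ih).mono ?_ ?_
      · ring_nf
        omega
      · exact (le_of_eq (by ring))
  set C₁ : ℝ := (2 * C) ^ ((q + 1) * (K + 1)) with hC₁
  have hC₁1 : 1 ≤ C₁ := one_le_pow₀ hD1
  have hCC₁ : C ≤ C₁ := by
    calc C ≤ 2 * C := by linarith
      _ ≤ C₁ := le_self_pow₀ hD1 (Nat.mul_pos (by omega) (by omega)).ne'
  have hprod' : ∀ s : Finset (Fin K), L1 (q * K) C₁ (∏ l ∈ s, T l) := by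
    intro s
    have h1 : s.card ≤ K := by simpa using s.card_le_univ
    refine (hprod s).mono (Nat.mul_le_mul_left _ h1) ?_
    rw [hC₁, ← pow_mul]
    exact pow_le_pow_right₀ hD1 (Nat.mul_le_mul_left _ (by omega))
  have h1 : ∀ k, GSys (q + q * K) ((2 * C₁) ^ E₀) (∏ k, T k) (y k) := by
    intro k
    have h2 := hE₀ ι C₁ (T k) (∏ l ∈ Finset.univ.erase k, T l) (y k) ((h k).mono le_rfl hCC₁) (hprod' _).1
      fun l => (hprod' _).coeff_le l
    rw [Finset.mul_prod_erase _ _ (Finset.mem_univ k)] at h2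
    exact h2
  set C₂ : ℝ := (2 * C) ^ (((q + 1) * (K + 1) + 1) * E₀ + (q + 1) * (K + 1)) with hC₂
  have hC₂1 : 1 ≤ C₂ := one_le_pow₀ hD1
  have hle : (2 * C₁) ^ E₀ ≤ C₂ := by
    have h2 : 2 * C₁ ≤ (2 * C) ^ ((q + 1) * (K + 1) + 1) := by
      rw [pow_succ, mul_comm]
      exact mul_le_mul_of_nonneg_left (by linarith) (by positivity)
    calc (2 * C₁) ^ E₀ ≤ ((2 * C) ^ ((q + 1) * (K + 1) + 1)) ^ E₀ := pow_le_pow_left₀ (by positivity) h2 _
      _ = (2 * C) ^ (((q + 1) * (K + 1) + 1) * E₀) := (pow_mul _ _ _).symm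
      _ ≤ _ := pow_le_pow_right₀ hD1 (by omega)
  have hle' : C₁ ≤ C₂ := pow_le_pow_right₀ hD1 (by omega)
  have h3 := gsys_blk (K := K) (y := y) hC₂1 ((hprod' Finset.univ).1.trans (by omega))
    (fun l => ((hprod' Finset.univ).coeff_le l).trans hle') fun k => (h1 k).mono le_rfl hle
  rw [hC₂, ← pow_mul] at h3
  exact h3

/-- **systems with nilpotent residues, with different shifts** -/
theorem gsysN_pts (L N n q : ℕ) : ∃ q' E₁ : ℕ, ∀ (H : ℝ), 1 ≤ H → ∀ (T : Fin L → Fin N → Polynomial ℤ)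
    (A : Fin L → Fin N → Fin n → Fin n → Polynomial ℤ) (R : Fin L → Fin N → Matrix (Fin n) (Fin n) ℤ)
    (Z W : Fin L → Fin N → Matrix (Fin n) (Fin n) ℚ⟦X⟧),
    (∀ l j, SysN q H (T l j) (A l j) (R l j) (Z l j) (W l j)) → (∀ l j, T l j ≠ 0) →
    ∀ (G : ℕ) (g : Fin L → Fin N → ℕ), (∀ l j, g l j ≤ G) →
    ∃ T' : Polynomial ℤ, T' ≠ 0 ∧ GSys q' ((2 * H * ((G : ℝ) + 2)) ^ E₁) T' (ent (combP g Z)) := by
  classical
  obtain ⟨E₀, hE₀⟩ := sysN_gsys n q
  obtain ⟨q', E, hE⟩ := gsys_pi (L * N) (q + 1 + 2)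
  obtain ⟨e₁, he₁⟩ := pow_absorb (c := (((q + 1 : ℕ) : ℝ) + 1) ^ 2) (by
    have : (1 : ℝ) ≤ ((q + 1 : ℕ) : ℝ) + 1 := by
      push_cast
      have : (0 : ℝ) ≤ q := by positivity
      linarith
    exact one_le_pow₀ this)
  refine ⟨q', (3 + e₁ + E₀ * 2 + (2 + 2 * (q + 1)) + 1) * E, fun H hH T A R Z W hS hT G g hg => ?_⟩
  have hG0 : (0 : ℝ) ≤ G := by positivity
  set x : ℝ := 2 * H * ((G : ℝ) + 2) with hx
  have hHx : 2 * H ≤ x := by
    rw [hx]
    nlinarith
  have hx2 : 2 ≤ x := by linarith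
  have hx1 : 1 ≤ x := by linarith
  have hgG : ∀ l j, (g l j : ℝ) + 1 ≤ x := by
    intro l j
    have h1 : (g l j : ℝ) ≤ (G : ℝ) := by exact_mod_cast hg l j
    rw [hx]
    nlinarith
  set C : ℝ := x ^ (3 + e₁ + E₀ * 2 + (2 + 2 * (q + 1))) with hC
  have hC1 : 1 ≤ C := one_le_pow₀ hx1
  have h1 : ∀ k : Fin (L * N), GSys (q + 1 + 2) C (Pg (g (fs k) (sn k)) ^ 2 * Hm (g (fs k) (sn k)) (q + 1) (Polynomial.X * T (fs k) (sn k)))
      (fun p : Fin n × Fin n => sf (g (fs k) (sn k)) (Z (fs k) (sn k) p.1 p.2)) := by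
    intro k
    refine (gsys_shiftU (hE₀ _ _ _ _ _ _ (hS (fs k) (sn k))) (g (fs k) (sn k))).mono le_rfl ?_
    have h2 : (8 : ℝ) ≤ x ^ 3 := by
      calc (8 : ℝ) = 2 ^ 3 := by norm_num
        _ ≤ x ^ 3 := pow_le_pow_left₀ (by norm_num) hx2 _
    have h3 := he₁ x hx2
    have h4 : ((2 * H) ^ E₀) ^ 2 ≤ x ^ (E₀ * 2) := by
      rw [← pow_mul]
      exact pow_le_pow_left₀ (by positivity) hHx _
    have h5 : ((g (fs k) (sn k) : ℝ) + 1) ^ 2 * ((g (fs k) (sn k) : ℝ) + 1) ^ (2 * (q + 1)) ≤ x ^ (2 + 2 * (q + 1)) := by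
      rw [← pow_add]
      exact pow_le_pow_left₀ (by positivity) (hgG _ _) _
    rw [hC, pow_add x (3 + e₁ + E₀ * 2), pow_add x (3 + e₁), pow_add x 3]
    gcongr
  refine ⟨∏ k : Fin (L * N), Pg (g (fs k) (sn k)) ^ 2 * Hm (g (fs k) (sn k)) (q + 1) (Polynomial.X * T (fs k) (sn k)),
    Finset.prod_ne_zero_iff.2 fun k _ => PgHm_ne _ (natDegree_X_mul_le' (hS _ _).degT)
      (mul_ne_zero Polynomial.X_ne_zero (hT _ _)), ?_⟩
  refine (hE (Fin n × Fin n) C _ _ hC1 h1).mono le_rfl ?_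
  calc (2 * C) ^ E ≤ (x ^ (3 + e₁ + E₀ * 2 + (2 + 2 * (q + 1)) + 1)) ^ E := by
        refine pow_le_pow_left₀ (by positivity) ?_ _
        rw [pow_succ x, mul_comm]
        exact mul_le_mul_of_nonneg_left hx2 (by positivity)
    _ = _ := (pow_mul _ _ _).symm

/-- **Polynomial relations between the values are specialisations of functional relations.** -/
theorem rel_lift' (q n N d : ℕ) : ∃ E : ℕ, ∀ (C : ℝ) (T : Polynomial ℤ) (Z : Fin N → Matrix (Fin n) (Fin n) ℚ⟦X⟧),
    GSys q C T (ent Z) → ∀ t : ℕ, (2 * C) ^ E ≤ (t : ℝ) →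
    Polynomial.aeval (1 / (t : ℝ)) T ≠ 0 →
    (0 < t ∧ ∀ j a b, Cv (t : ℝ) (Z j a b)) ∧
    ∀ P : MvPolynomial (Fin N × Fin n × Fin n) ℚ, P.totalDegree ≤ d →
    MvPolynomial.aeval (fun σ => ((ev (t : ℝ) (ent Z σ) : ℝ) : ℂ)) P = 0 →
    ∃ R : MvPolynomial (Fin N × Fin n × Fin n) (Polynomial ℚ), MvPolynomial.aeval (ent Z) R = 0 ∧
      MvPolynomial.map (Polynomial.evalRingHom (1 / (t : ℚ))) R = P := by
  classical
  obtain ⟨E₁, hE₁1, hE₁⟩ := gsys_tens' q d
  set M : ℕ := Fintype.card (Fin d → Option (Fin N × Fin n × Fin n)) with hM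
  refine ⟨(E₁ + 1) * (expoM M q + 1), ?_⟩
  intro C T Z hg2 t ht hT
  have hH := hg2.one_le
  have hD1 : 1 ≤ 2 * C := by linarith
  have hg3 := gsys_opt hg2
  have hg4 := hE₁ _ _ _ _ hg3
  set C' : ℝ := (2 * C) ^ E₁ with hC'
  have hC'1 : 1 ≤ C' := hg4.one_le
  have h2C' : 2 * C' ≤ (2 * C) ^ (E₁ + 1) := by
    rw [pow_succ, mul_comm]
    exact mul_le_mul le_rfl (by linarith) (by norm_num) (by positivity)
  have h2C'1 : 1 ≤ 2 * C' := by linarith
  have hbd : (2 * C') ^ (expoM M q + 1) ≤ (t : ℝ) := by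
    calc (2 * C') ^ (expoM M q + 1) ≤ ((2 * C) ^ (E₁ + 1)) ^ (expoM M q + 1) :=
          pow_le_pow_left₀ (by linarith) h2C' _
      _ = (2 * C) ^ ((E₁ + 1) * (expoM M q + 1)) := (pow_mul _ _ _).symm
      _ ≤ t := ht
  have hbd' : (2 * C') ^ expoM M q ≤ (t : ℝ) := (pow_le_pow_right₀ h2C'1 (by omega)).trans hbd
  have hC't : C' < t := by
    have : 2 * C' ≤ (t : ℝ) := by
      calc 2 * C' = (2 * C') ^ 1 := (pow_one _).symm
        _ ≤ (2 * C') ^ (expoM M q + 1) := pow_le_pow_right₀ h2C'1 (by omega)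
        _ ≤ t := hbd
    linarith
  have htpos : (0 : ℝ) < t := by linarith
  have htnat : 0 < t := by exact_mod_cast htpos
  -- convergence
  have hcv : ∀ σ, Cv (t : ℝ) (ent Z σ) := by
    intro σ
    refine Cv.of_bound htpos (A := C) (B := C) (by linarith) ?_
      (fun m => by rw [← pow_succ']; exact hg2.size σ m)
    have h6 : C ≤ C' := by
      rw [hC']
      calc C ≤ 2 * C := by linarith
        _ = (2 * C) ^ 1 := (pow_one _).symm
        _ ≤ _ := pow_le_pow_right₀ hD1 hE₁1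
    linarith
  refine ⟨⟨htnat, fun j a b => hcv (j, a, b)⟩, fun P hP hP0 => ?_⟩
  obtain ⟨c, hc⟩ := exists_coef P hP
  set y : (Fin d → Option (Fin N × Fin n × Fin n)) → ℚ⟦X⟧ := fun b => ∏ l, (b l).elim 1 (ent Z) with hy
  have hev : ∀ b, ((ev (t : ℝ) (y b) : ℝ) : ℂ) = MvPolynomial.aeval (fun σ => ((ev (t : ℝ) (ent Z σ) : ℝ) : ℂ)) (monO ℚ b) := by
    intro b
    have hcvo : ∀ o : Option (Fin N × Fin n × Fin n), Cv (t : ℝ) (o.elim 1 (ent Z)) := by
      rintro (_ | σ)
      · exact Cv.one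
      · exact hcv σ
    rw [hy]
    simp only
    rw [Cv.ev_prod htpos Finset.univ (fun l => (b l).elim 1 (ent Z)) fun l _ => hcvo _]
    unfold monO
    rw [map_prod, Complex.ofReal_prod]
    refine Finset.prod_congr rfl fun l _ => ?_
    rcases b l with _ | σ
    · show ((ev (t : ℝ) (1 : ℚ⟦X⟧) : ℝ) : ℂ) = MvPolynomial.aeval _ (1 : MvPolynomial _ ℚ)
      rw [ev_one, map_one]
      simp
    · show _ = MvPolynomial.aeval _ (MvPolynomial.X σ)
      rw [MvPolynomial.aeval_X]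
      rfl
  have hrel : ∑ b, ((c b : ℚ) : ℝ) * ev (t : ℝ) (y b) = 0 := by
    have h7 : ((∑ b, ((c b : ℚ) : ℝ) * ev (t : ℝ) (y b) : ℝ) : ℂ) = 0 := by
      rw [← hP0, hc, map_sum]
      push_cast
      refine Finset.sum_congr rfl fun b _ => ?_
      rw [hev, map_mul, MvPolynomial.aeval_C]
      rfl
    exact_mod_cast h7
  obtain ⟨R, hR1, hR2⟩ := lift (N := M) le_rfl hg4 (fun _ => none) (Finset.prod_eq_one fun _ _ => rfl) t hbd' hT c hrel
  refine ⟨∑ b, MvPolynomial.C (R b) * monO (Polynomial ℚ) b, ?_, ?_⟩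
  · rw [map_sum]
    refine Eq.trans (Finset.sum_congr rfl fun b _ => ?_) hR2
    rw [map_mul, MvPolynomial.aeval_C]
    have h8 : MvPolynomial.aeval (ent Z) (monO (Polynomial ℚ) b) = ∏ j, (b j).elim 1 (ent Z) := by
      unfold monO
      rw [map_prod]
      refine Finset.prod_congr rfl fun l _ => ?_
      rcases b l with _ | σ
      · show MvPolynomial.aeval _ (1 : MvPolynomial _ (Polynomial ℚ)) = 1
        rw [map_one]
      · show MvPolynomial.aeval _ (MvPolynomial.X σ) = ent Z σ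
        rw [MvPolynomial.aeval_X]
    rw [h8]
    rfl
  · rw [map_sum, hc]
    refine Finset.sum_congr rfl fun b _ => ?_
    rw [map_mul, MvPolynomial.map_C]
    have h9 : MvPolynomial.map (Polynomial.evalRingHom (1 / (t : ℚ))) (monO (Polynomial ℚ) b) = monO ℚ b := by
      unfold monO
      rw [map_prod]
      refine Finset.prod_congr rfl fun l _ => ?_
      rcases b l with _ | σ
      · show MvPolynomial.map _ (1 : MvPolynomial _ (Polynomial ℚ)) = 1
        rw [map_one]
      · show MvPolynomial.map _ (MvPolynomial.X σ) = MvPolynomial.X σ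
        rw [MvPolynomial.map_X]
    rw [h9]
    congr 2
    exact hR1 b

open Pool.Agent.Y118.HV (Hv hh)
open Pool.Agent.Helper880_R3 (ec Cc ec_rel Cc_map ec_map entire_zero eval_HD curve_HD exp_zero')

/-- **relations between the values are preserved by exponential curves** -/
theorem rel_curve' (q n N d : ℕ) : ∃ E : ℕ, ∀ (H : ℝ) (T : Polynomial ℤ) (Z : Fin N → Matrix (Fin n) (Fin n) ℚ⟦X⟧),
    GSys q H T (ent Z) → T ≠ 0 → ∀ t : ℕ, (2 * H) ^ E ≤ (t : ℝ) →
    ∀ X : Fin N → Matrix (Fin n) (Fin n) ℂ, InfT Z X →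
    ∀ P : MvPolynomial (Fin N × Fin n × Fin n) ℚ, P.totalDegree ≤ d →
    MvPolynomial.aeval (vz fun j => Hv (Z j) t) P = 0 →
    ∀ s : ℂ, MvPolynomial.aeval (vz fun j => NormedSpace.exp (s • X j) * Hv (Z j) t) P = 0 := by
  obtain ⟨E, hE⟩ := rel_lift' q n N d
  refine ⟨E + (q + 3), fun H T Z hS hT0 t ht X hX P hP hP0 s => ?_⟩
  have hH := hS.one_le
  have hD1 : 1 ≤ 2 * H := by linarith
  have hTt : Polynomial.aeval (1 / (t : ℝ)) T ≠ 0 := by
    refine T_ne hT0 hH hS.degT hS.sizeT ?_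
    have h1 : ((q + 2 : ℕ) : ℝ) * H ^ 1 ≤ (2 * H) ^ (q + 2 + 1) := const_le hH 1
    have h2 : (2 * H) ^ (q + 3) ≤ (2 * H) ^ (E + (q + 3)) := pow_le_pow_right₀ hD1 (by omega)
    push_cast at h1
    rw [pow_one] at h1
    nlinarith
  obtain ⟨⟨ht0, hcv⟩, hrel⟩ := hE H T Z hS t ((pow_le_pow_right₀ hD1 (by omega)).trans ht) hTt
  obtain ⟨R, hR1, hR2⟩ := hrel P hP hP0
  set R' : MvPolynomial (Fin N × Fin n × Fin n) (Polynomial ℂ) :=
    MvPolynomial.map (Polynomial.mapRingHom (algebraMap ℚ ℂ)) R with hR'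
  have h1 : MvPolynomial.aeval (cent Z) R' = 0 := by
    rw [hR', aeval_cent, hR1, map_zero]
  have h2 := curveT hX ht0 hcv h1 s
  rw [hR', MvPolynomial.map_map] at h2
  have h3 : (Polynomial.evalRingHom (((1 / (t : ℝ) : ℝ)) : ℂ)).comp (Polynomial.mapRingHom (algebraMap ℚ ℂ)) =
      (algebraMap ℚ ℂ).comp (Polynomial.evalRingHom (1 / (t : ℚ))) := by
    refine Polynomial.ringHom_ext (fun a => ?_) ?_
    · simp
    · simp
  rw [h3, ← MvPolynomial.map_map, hR2, MvPolynomial.eval_map] at h2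
  exact h2

end Pool.Agent.H885
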