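import Pool.Agent.H885.Co
import Pool.Graph.R_seed8.Y120.H.Sub
import Pool.Graph.R_seed8.Y141.GF.Shid

/-!
# Linear independence of values of G-functions with a rate only
-/

set_option autoImplicit false

open PowerSeries

namespace Pool.Agent.H885

open Pool.Agent.Y113

/-- **Linear independence of the values**; the exponent only depends on the number `N` of functions and on the degree
`q` of `T`, and the lower bound for `t` only on the rate `C`. -/
theorem t_GR {N q q₁ : ℕ} {C C₁ : ℝ} {T α : Polynomial ℤ} {y : Fin N → ℚ⟦X⟧} (hG : GSysR q C T α q₁ C₁ y)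
    (i₀ : Fin N) (h1 : y i₀ = 1) (hLI : LinearIndependent (Polynomial ℚ) y) (t : ℕ) (ht : (2 * C) ^ expo N q ≤ (t : ℝ))
    (hT : Polynomial.aeval (1 / (t : ℝ)) T ≠ 0) (hα : Polynomial.aeval (1 / (t : ℝ)) α ≠ 0)
    (a : Fin N → ℤ) (ha : ∑ i, (a i : ℝ) * ev t (y i) = 0) : a = 0 := by
  by_contra hane
  have hC := hG.one_le
  have hD1 : 1 ≤ 2 * C := by linarith
  have hNpos : 0 < N := i₀.pos
  -- the case N = 1
  rcases Nat.lt_or_ge N 2 with hN | hN
  · have hN1 : N = 1 := by omega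
    apply hane
    subst hN1
    funext i
    have hi : ∀ j : Fin 1, j = i₀ := fun j => Subsingleton.elim _ _
    have h2 : ∑ i, (a i : ℝ) * ev t (y i) = (a i : ℝ) := by
      rw [Fin.sum_univ_one]
      rw [hi 0, h1, ev_one, mul_one, hi i]
    rw [ha] at h2
    simp only [Pi.zero_apply]
    exact_mod_cast h2.symm
  have hexp3 : 3 ≤ expo N q := by
    unfold expo
    simp only
    omega
  have ht8 : 8 * C ≤ (t : ℝ) := by
    have h2 : (2 * C) ^ 3 ≤ (2 * C) ^ expo N q := pow_le_pow_right₀ hD1 hexp3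
    have h3 : 8 * C ≤ (2 * C) ^ 3 := by
      have : 1 ≤ C ^ 2 := one_le_pow₀ hC
      nlinarith
    linarith
  have htpos : (0 : ℝ) < t := by linarith
  have htnat : 0 < t := by exact_mod_cast htpos
  -- the differential equation
  obtain ⟨g, hg0, hgC, hgG⟩ := hG.der 1
  obtain ⟨G, hGd, hGc, hGe⟩ := hgG 1 le_rfl
  set Tq : Polynomial ℚ := T.map (Int.castRingHom ℚ) with hTq
  set αq : Polynomial ℚ := α.map (Int.castRingHom ℚ) with hαq
  have hode : ∀ i, ((αq * Tq : Polynomial ℚ) : ℚ⟦X⟧) * d⁄dX ℚ (y i) =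
      ∑ j, ((Polynomial.C ((g : ℚ)⁻¹) * (G i j).map (Int.castRingHom ℚ) : Polynomial ℚ) : ℚ⟦X⟧) * y j := by
    intro i
    have h2 := hGe i
    have h3 : hd 1 (y i) = d⁄dX ℚ (y i) := by
      have := fac_hd 1 (y i)
      simpa using this
    rw [h3, pow_one] at h2
    have h4 : (g : ℚ⟦X⟧) = PowerSeries.C (g : ℚ) := by simp
    have h5 : PowerSeries.C ((g : ℚ)⁻¹) * ((g : ℚ⟦X⟧) * (ps α * (ps T * d⁄dX ℚ (y i)))) = ps α * (ps T * d⁄dX ℚ (y i)) := by
      rw [h4, ← mul_assoc, ← map_mul, inv_mul_cancel₀ (by exact_mod_cast hg0.ne'), map_one, one_mul]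
    have h6 : ((αq * Tq : Polynomial ℚ) : ℚ⟦X⟧) = ps α * ps T := by
      rw [Polynomial.coe_mul]
      rfl
    rw [h6, mul_assoc, ← h5, h2, Finset.mul_sum]
    refine Finset.sum_congr rfl fun j _ => ?_
    rw [Polynomial.coe_mul, Polynomial.coe_C, mul_assoc]
    rfl
  have hξ : Tq.eval (1 / (t : ℚ)) ≠ 0 := by
    intro h
    apply hT
    rw [aeval_map_eval, ← hTq, h]
    simp
  have hαξ : αq.eval (1 / (t : ℚ)) ≠ 0 := by
    intro h
    apply hα
    rw [aeval_map_eval, ← hαq, h]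
    simp
  have hξ0 : (1 / (t : ℚ)) ≠ 0 := by
    apply one_div_ne_zero
    exact_mod_cast htnat.ne'
  obtain ⟨c₁, hc₁⟩ := rank_point' Pool.Agent.Y141.GF.t_shid Pool.Agent.Y141.GF.t_loc hode hLI i₀ h1 (1 / (t : ℚ))
    hξ0 hξ hαξ
  set A : ℝ := ∑ i, |(a i : ℝ)| with hA
  have hAi : ∀ i, |(a i : ℝ)| ≤ A := fun i =>
    Finset.single_le_sum (f := fun i => |(a i : ℝ)|) (fun _ _ => abs_nonneg _) (Finset.mem_univ i)
  have hA0 : 0 ≤ A := (abs_nonneg _).trans (hAi i₀)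
  set κ : ℝ := 1 + (t : ℝ) ^ q₁ * ((q₁ + 1) * C₁) + (t : ℝ) ^ q₁ * |Polynomial.aeval (1 / (t : ℝ)) α| with hκ
  have hC₁ := hG.one_le₁
  have hk1 : 0 ≤ (t : ℝ) ^ q₁ * ((q₁ + 1) * C₁) := by positivity
  have hk2 : 0 ≤ (t : ℝ) ^ q₁ * |Polynomial.aeval (1 / (t : ℝ)) α| := by positivity
  have hκ1 : 1 ≤ κ := by linarith
  refine ineq_false (A := A * κ ^ (N - 2) * κ) hN hC ht (by positivity) (c₁ := c₁) fun ν hν => ?_
  exact core' hG i₀ h1 t ht8 c₁ hc₁ a hane ha A hAi κ hκ1 (by linarith) (by linarith) ν hν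

/-- rational coefficients -/
theorem t_GRQ {N q q₁ : ℕ} {C C₁ : ℝ} {T α : Polynomial ℤ} {y : Fin N → ℚ⟦X⟧} (hG : GSysR q C T α q₁ C₁ y)
    (i₀ : Fin N) (h1 : y i₀ = 1) (hLI : LinearIndependent (Polynomial ℚ) y) (t : ℕ) (ht : (2 * C) ^ expo N q ≤ (t : ℝ))
    (hT : Polynomial.aeval (1 / (t : ℝ)) T ≠ 0) (hα : Polynomial.aeval (1 / (t : ℝ)) α ≠ 0)
    (c : Fin N → ℚ) (hc : ∑ i, (c i : ℝ) * ev t (y i) = 0) : c = 0 := by
  classical
  obtain ⟨d, hd⟩ := IsLocalization.exist_integer_multiples_of_finset (nonZeroDivisors ℤ) (Finset.univ.image c)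
  have hd0 : (d : ℤ) ≠ 0 := nonZeroDivisors.ne_zero d.2
  have hint : ∀ i, ∃ z : ℤ, (z : ℚ) = (d : ℤ) * c i := by
    intro i
    obtain ⟨z, hz⟩ := hd (c i) (Finset.mem_image_of_mem c (Finset.mem_univ i))
    refine ⟨z, ?_⟩
    rw [← zsmul_eq_mul]
    simpa using hz
  choose z hz using hint
  have hz0 := t_GR hG i₀ h1 hLI t ht hT hα z (by
    have h3 : ∀ i, (z i : ℝ) * ev t (y i) = ((d : ℤ) : ℝ) * ((c i : ℝ) * ev t (y i)) := by
      intro i
      have : ((z i : ℤ) : ℝ) = ((d : ℤ) : ℝ) * ((c i : ℚ) : ℝ) := by exact_mod_cast hz i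
      rw [this]; ring
    rw [Finset.sum_congr rfl fun i _ => h3 i, ← Finset.mul_sum, hc, mul_zero])
  funext i
  have h4 := congrFun hz0 i
  simp only [Pi.zero_apply] at h4
  have h5 := hz i
  rw [h4] at h5
  simp only [Int.cast_zero] at h5
  rcases mul_eq_zero.1 h5.symm with h6 | h6
  · exact absurd (by exact_mod_cast h6) hd0
  · exact h6

end Pool.Agent.H885
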