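import Pool.Agent.H885.CoreP
import Pool.Agent.H885.FewQ

/-!
# Derivations and algebraic independence
-/

set_option autoImplicit false
set_option linter.unusedSectionVars false
set_option linter.unusedVariables false

open Matrix Module Filter

namespace Pool.Agent.H885

open Pool.Agent.Helper880_R3 hiding core final
open Pool.Agent.Helper880_LF.NB hiding alg_core
open Pool.Agent.Helper880_LF (der_alg)
open Pool.Agent.Y118.UL (mk mk_eq mk_eq_zero mk_ne_zero mk_surj ev_ge eval_mk rep qc qc_mk algebraMap_eq U)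
open Pool.Agent.TH119.DR Pool.Agent.TH119.MX Pool.Agent.TH127.PT Pool.Agent.Y123.ST Pool.Agent.Y123.GN

section lin
variable {F V E P : Type} [Field F] [AddCommGroup V] [Module F V] [AddCommGroup E] [Module F E]
    [AddCommGroup P] [Module F P] [FiniteDimensional F E] [FiniteDimensional F P]

lemma dim_half (f : V →ₗ[F] E) (g : V →ₗ[F] P) :
    finrank F (LinearMap.range f) + finrank F ((LinearMap.ker f).map g) = finrank F (LinearMap.range (f.prod g)) := by
  set R := LinearMap.range (f.prod g) with hR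
  let p1 : R →ₗ[F] E := (LinearMap.fst F E P).comp R.subtype
  have h1 := LinearMap.finrank_range_add_finrank_ker p1
  have h2 : LinearMap.range p1 = LinearMap.range f := by
    ext x
    constructor
    · rintro ⟨⟨y, v, hv⟩, rfl⟩
      subst hv
      exact ⟨v, rfl⟩
    · rintro ⟨v, rfl⟩
      exact ⟨⟨(f v, g v), v, rfl⟩, rfl⟩
  let q : LinearMap.ker p1 →ₗ[F] P := (LinearMap.snd F E P).comp (R.subtype.comp (LinearMap.ker p1).subtype)
  have hq : Function.Injective q := by
    intro x y hxy
    apply Subtype.ext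
    apply Subtype.ext
    refine Prod.ext ?_ hxy
    have h3 : (x : R).1.1 = 0 := x.2
    have h4 : (y : R).1.1 = 0 := y.2
    rw [h3, h4]
  have h3 := LinearMap.finrank_range_of_inj hq
  have h4 : LinearMap.range q = (LinearMap.ker f).map g := by
    ext x
    constructor
    · rintro ⟨⟨⟨y, v, hv⟩, hy⟩, rfl⟩
      subst hv
      exact ⟨v, hy, rfl⟩
    · rintro ⟨v, hv, rfl⟩
      exact ⟨⟨⟨(f v, g v), v, rfl⟩, hv⟩, rfl⟩
  rw [← h2, ← h4, h3, h1]

lemma dim_swap (f : V →ₗ[F] E) (g : V →ₗ[F] P) :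
    finrank F (LinearMap.range f) + finrank F ((LinearMap.ker f).map g) =
      finrank F (LinearMap.range g) + finrank F ((LinearMap.ker g).map f) := by
  rw [dim_half, dim_half]
  let e : (E × P) ≃ₗ[F] (P × E) := LinearEquiv.prodComm F E P
  have h1 : (LinearMap.range (f.prod g)).map e.toLinearMap = LinearMap.range (g.prod f) := by
    ext x
    constructor
    · rintro ⟨_, ⟨v, rfl⟩, rfl⟩
      exact ⟨v, rfl⟩
    · rintro ⟨v, rfl⟩
      exact ⟨_, ⟨v, rfl⟩, rfl⟩
  rw [← h1, LinearEquiv.finrank_map_eq]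

/-- **the pigeonhole principle** -/
theorem pigeon {L r s : ℕ} (hLr : s < L * (r + 1)) (ev : Fin L → V →ₗ[F] E) (Φ : V →ₗ[F] P) (hP : finrank F P ≤ s)
    {d : ℕ} (hd : ∀ l, d ≤ finrank F ((⨅ l' : {l' : Fin L // l' ≠ l}, LinearMap.ker (ev l'.1)).map (ev l))) :
    ∃ l, d ≤ finrank F ((LinearMap.ker Φ).map (ev l)) + r := by
  classical
  let 𝒟 : ℕ → Submodule F V := fun m => ⨅ l : {l : Fin L // (l : ℕ) < m}, LinearMap.ker (ev l.1)
  have h𝒟 : ∀ m v, v ∈ 𝒟 m ↔ ∀ l : Fin L, (l : ℕ) < m → ev l v = 0 := by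
    intro m v
    show v ∈ (⨅ l : {l : Fin L // (l : ℕ) < m}, LinearMap.ker (ev l.1)) ↔ _
    rw [Submodule.mem_iInf]
    exact ⟨fun h l hl => h ⟨l, hl⟩, fun h l => h l.1 l.2⟩
  obtain ⟨l, hl⟩ : ∃ l : Fin L, finrank F ((𝒟 l).map Φ) ≤ finrank F ((𝒟 (l + 1)).map Φ) + r := by
    by_contra hcon
    push Not at hcon
    have h1 : ∀ m, m ≤ L → finrank F ((𝒟 m).map Φ) + m * (r + 1) ≤ finrank F ((𝒟 0).map Φ) := by
      intro m
      induction m with
      | zero => intro _; simp
      | succ m ih =>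
        intro hm
        have h2 := ih (by omega)
        have h3 := hcon ⟨m, by omega⟩
        simp only at h3
        have h4 : (m + 1) * (r + 1) = m * (r + 1) + (r + 1) := by ring
        omega
    have h2 := h1 L le_rfl
    have h3 : finrank F ((𝒟 0).map Φ) ≤ s := (Submodule.finrank_le _).trans hP
    omega
  refine ⟨l, ?_⟩
  let f : 𝒟 l →ₗ[F] E := (ev l).comp (𝒟 l).subtype
  let g : 𝒟 l →ₗ[F] P := Φ.comp (𝒟 l).subtype
  have h1 := dim_swap f g
  have h2 : d ≤ finrank F (LinearMap.range f) := by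
    refine (hd l).trans (Submodule.finrank_mono ?_)
    rintro _ ⟨v, hv, rfl⟩
    have hv' : ∀ l', l' ≠ l → ev l' v = 0 := fun l' hl' => by
      have := (Submodule.mem_iInf _).1 hv ⟨l', hl'⟩
      exact this
    exact ⟨⟨v, (h𝒟 l v).2 fun l' hl' => hv' l' (by
      intro h
      rw [h] at hl'
      omega)⟩, rfl⟩
  have h3' : LinearMap.range g = (𝒟 l).map Φ := by
    rw [LinearMap.range_comp, Submodule.range_subtype]
  have h3 : finrank F (LinearMap.range g) = finrank F ((𝒟 l).map Φ) := by
    rw [h3']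
  have h4 : finrank F ((𝒟 (l + 1)).map Φ) ≤ finrank F ((LinearMap.ker f).map g) := by
    refine Submodule.finrank_mono ?_
    rintro _ ⟨v, hv, rfl⟩
    have hv' := (h𝒟 _ v).1 hv
    exact ⟨⟨v, (h𝒟 l v).2 fun l' hl' => hv' l' (by omega)⟩, hv' l (by omega), rfl⟩
  have h5 : finrank F ((LinearMap.ker g).map f) ≤ finrank F ((LinearMap.ker Φ).map (ev l)) := by
    refine Submodule.finrank_mono ?_
    rintro _ ⟨v, hv, rfl⟩
    exact ⟨v.1, hv, rfl⟩
  omega

end lin

section ind
variable {k Ω : Type} [Field k] [Field Ω] [Algebra k Ω]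

/-- the common constants of a set of derivations -/
def consF (𝒦 : Submodule Ω (Derivation k Ω Ω)) : Subfield Ω where
  carrier := {x | ∀ δ ∈ 𝒦, δ x = 0}
  mul_mem' := by
    intro a b ha hb δ hδ
    rw [δ.leibniz, ha δ hδ, hb δ hδ, smul_zero, smul_zero, add_zero]
  one_mem' := fun δ _ => δ.map_one_eq_zero
  add_mem' := by
    intro a b ha hb δ hδ
    rw [map_add, ha δ hδ, hb δ hδ, add_zero]
  zero_mem' := fun δ _ => map_zero δ
  neg_mem' := by
    intro a ha δ hδ
    rw [map_neg, ha δ hδ, neg_zero]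
  inv_mem' := by
    intro a ha δ hδ
    rw [δ.leibniz_inv, ha δ hδ, smul_zero]

theorem mem_consF {𝒦 : Submodule Ω (Derivation k Ω Ω)} {x : Ω} : x ∈ consF 𝒦 ↔ ∀ δ ∈ 𝒦, δ x = 0 := Iff.rfl

/-- evaluation of derivations -/
def evD {ι : Type} (y : ι → Ω) : Derivation k Ω Ω →ₗ[Ω] (ι → Ω) where
  toFun := fun δ i => δ (y i)
  map_add' := fun δ δ' => rfl
  map_smul' := fun z δ => rfl

/-- **many derivations give many algebraically independent elements** -/
theorem exists_ind [CharZero Ω] {ι : Type} [Finite ι] (y : ι → Ω) (𝒦 : Submodule Ω (Derivation k Ω Ω)) {d : ℕ}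
    (hd : d ≤ finrank Ω (𝒦.map (evD y))) :
    ∃ σ : Fin d → ι, Function.Injective σ ∧ AlgebraicIndependent (consF 𝒦) fun i => y (σ i) := by
  classical
  have := Fintype.ofFinite ι
  set P : ℕ → Prop := fun m => ∃ σ : Fin m → ι, Function.Injective σ ∧ AlgebraicIndependent (consF 𝒦) fun i => y (σ i) with hP
  have hP0 : P 0 := ⟨fun i => i.elim0, fun i => i.elim0, by
    rw [algebraicIndependent_empty_type_iff]
    exact (algebraMap (consF 𝒦) Ω).injective⟩
  have hstep : ∀ m, m < d → P m → P (m + 1) := by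
    rintro m hm ⟨σ, hσ, hind⟩
    by_contra hcon
    have halg : ∀ i, IsAlgebraic (Algebra.adjoin (consF 𝒦) (Set.range fun j => y (σ j))) (y i) := by
      intro i
      by_contra htr
      apply hcon
      have h1 := (hind.option_iff_transcendental (y i)).2 htr
      let e : Fin (m + 1) ≃ Option (Fin m) := finSuccEquiv m
      have h2 : (fun j => y ((Fin.cons i σ : Fin (m + 1) → ι) j)) = (fun o : Option (Fin m) => o.elim (y i) fun j => y (σ j)) ∘ e := by
        funext j
        refine Fin.cases ?_ (fun j => ?_) j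
        · simp [e, finSuccEquiv_zero]
        · simp [e, finSuccEquiv_succ]
      have h3 : AlgebraicIndependent (consF 𝒦) fun j => y ((Fin.cons i σ : Fin (m + 1) → ι) j) := by
        rw [h2]
        exact h1.comp e e.injective
      refine ⟨Fin.cons i σ, ?_, h3⟩
      intro a b hab
      apply h3.injective
      show y _ = y _
      rw [hab]
    -- the derivations which kill the `y (σ j)` kill everything
    have hkill : ∀ δ ∈ 𝒦, (∀ j, δ (y (σ j)) = 0) → ∀ i, δ (y i) = 0 := by
      intro δ hδ h0 i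
      have hle : ∀ x ∈ Algebra.adjoin (consF 𝒦) (Set.range fun j => y (σ j)), x ∈ kerD δ := by
        intro x hx
        induction hx using Algebra.adjoin_induction with
        | mem x hx =>
          obtain ⟨j, rfl⟩ := hx
          exact h0 j
        | algebraMap a => exact a.2 δ hδ
        | add a b _ _ ha hb => exact (kerD δ).add_mem ha hb
        | mul a b _ _ ha hb => exact (kerD δ).mul_mem ha hb
      apply ker_alg
      obtain ⟨p, hp0, hp⟩ := halg i
      let ψ : Algebra.adjoin (consF 𝒦) (Set.range fun j => y (σ j)) →+* kerD δ :=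
        { toFun := fun x => ⟨x.1, hle x.1 x.2⟩
          map_one' := rfl
          map_mul' := fun a b => rfl
          map_zero' := rfl
          map_add' := fun a b => rfl }
      have hψ : Function.Injective ψ := by
        intro a b hab
        have := congrArg Subtype.val hab
        exact Subtype.ext this
      refine ⟨p.map ψ, (Polynomial.map_ne_zero_iff hψ).2 hp0, ?_⟩
      rw [Polynomial.aeval_def, Polynomial.eval₂_map]
      exact hp
    let R : 𝒦 →ₗ[Ω] (Fin m → Ω) := (evD fun j => y (σ j)).comp 𝒦.subtype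
    let E : 𝒦 →ₗ[Ω] (ι → Ω) := (evD y).comp 𝒦.subtype
    have hker : LinearMap.ker R ≤ LinearMap.ker E := by
      intro δ hδ
      rw [LinearMap.mem_ker] at hδ ⊢
      funext i
      exact hkill δ.1 δ.2 (fun j => congrFun hδ j) i
    have h1 := (rank_le R E hker).2
    have h2 : LinearMap.range E = 𝒦.map (evD y) := by
      rw [LinearMap.range_comp, Submodule.range_subtype]
    rw [h2, Module.finrank_fin_fun] at h1
    omega
  have hall : ∀ m, m ≤ d → P m := by
    intro m
    induction m with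
    | zero => exact fun _ => hP0
    | succ m ih => exact fun hm => hstep m (by omega) (ih (by omega))
  exact hall d le_rfl

end ind

/-- **independence of the values of sequences** -/
theorem ind_seq {d δ : ℕ} {𝒦 : Submodule (U ℂ) (Derivation (U ℚ) (U ℂ) (U ℂ))} {y : ℕ → Fin d → ℂ}
    (hind : AlgebraicIndependent (consF 𝒦) fun i => mk ℂ fun k => y k i)
    (S : ℕ → MvPolynomial (Fin d) ℂ) (hdeg : ∀ k, (S k).totalDegree ≤ δ)
    (hcoef : ∀ ν, (mk ℂ fun k => (S k).coeff ν) ∈ consF 𝒦)
    (h0 : ∀ k, MvPolynomial.aeval (y k) (S k) = 0) : ∀ᶠ k in (hyperfilter ℕ : Filter ℕ), S k = 0 := by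
  classical
  let 𝓜 : Finset (Fin d →₀ ℕ) := (Finset.range (δ + 1)).biUnion fun d' => Finset.univ.finsuppAntidiag d'
  have hsup : ∀ k, (S k).support ⊆ 𝓜 := by
    intro k m hm
    rw [Finset.mem_biUnion]
    refine ⟨∑ i, m i, ?_, ?_⟩
    · rw [Finset.mem_range]
      have h2 := MvPolynomial.le_totalDegree hm
      rw [Finsupp.sum_fintype _ _ (fun _ => rfl)] at h2
      have := hdeg k
      omega
    · rw [Finset.mem_finsuppAntidiag]
      exact ⟨rfl, Finset.subset_univ _⟩
  let Q : MvPolynomial (Fin d) (consF 𝒦) := ∑ ν ∈ 𝓜, MvPolynomial.monomial ν ⟨mk ℂ fun k => (S k).coeff ν, hcoef ν⟩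
  have hQ : MvPolynomial.aeval (fun i => mk ℂ fun k => y k i) Q = 0 := by
    have h1 : MvPolynomial.aeval (fun i => mk ℂ fun k => y k i) Q =
        mk ℂ fun k => MvPolynomial.aeval (y k) (S k) := by
      show MvPolynomial.aeval _ (∑ ν ∈ 𝓜, _) = _
      rw [map_sum]
      have h2 : (fun k => MvPolynomial.aeval (y k) (S k)) = ∑ ν ∈ 𝓜, fun k => (S k).coeff ν * ∏ i, y k i ^ ν i := by
        funext k
        rw [Finset.sum_apply, MvPolynomial.aeval_def, MvPolynomial.eval₂_eq']
        refine Finset.sum_subset (hsup k) fun ν _ hν => ?_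
        rw [MvPolynomial.notMem_support_iff.1 hν, map_zero, zero_mul]
      rw [h2, map_sum]
      refine Finset.sum_congr rfl fun ν _ => ?_
      rw [MvPolynomial.aeval_monomial]
      have h3 : (fun k => (S k).coeff ν * ∏ i, y k i ^ ν i) = (fun k => (S k).coeff ν) * ∏ i, (fun k => y k i) ^ ν i := by
        funext k
        simp
      rw [h3, map_mul, map_prod]
      congr 1
      rw [Finsupp.prod_fintype _ _ (fun _ => pow_zero _)]
      refine Finset.prod_congr rfl fun i _ => ?_
      rw [map_pow]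
    rw [h1]
    have h2 : (fun k => MvPolynomial.aeval (y k) (S k)) = fun _ => 0 := funext fun k => h0 k
    rw [h2]
    exact map_zero _
  have hQ0 : Q = 0 := (algebraicIndependent_iff.1 hind) Q hQ
  have hc : ∀ ν ∈ 𝓜, ∀ᶠ k in (hyperfilter ℕ : Filter ℕ), (S k).coeff ν = 0 := by
    intro ν hν
    have h1 : Q.coeff ν = 0 := by rw [hQ0, MvPolynomial.coeff_zero]
    have h2 : Q.coeff ν = ⟨mk ℂ fun k => (S k).coeff ν, hcoef ν⟩ := by
      show MvPolynomial.coeff ν (∑ ν ∈ 𝓜, _) = _
      rw [MvPolynomial.coeff_sum, Finset.sum_eq_single ν]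
      · rw [MvPolynomial.coeff_monomial, if_pos rfl]
      · intro μ _ hμ
        rw [MvPolynomial.coeff_monomial, if_neg hμ]
      · intro h
        exact absurd hν h
    rw [h2] at h1
    have h3 : (mk ℂ fun k => (S k).coeff ν) = 0 := congrArg Subtype.val h1
    exact mk_eq_zero.1 h3
  have hall : ∀ᶠ k in (hyperfilter ℕ : Filter ℕ), ∀ ν ∈ 𝓜, (S k).coeff ν = 0 :=
    (Filter.eventually_all_finset 𝓜).2 hc
  filter_upwards [hall] with k hk
  refine MvPolynomial.ext _ _ fun ν => ?_
  rw [MvPolynomial.coeff_zero]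
  by_cases hν : ν ∈ 𝓜
  · exact hk ν hν
  · exact MvPolynomial.notMem_support_iff.1 fun h => hν (hsup k h)

end Pool.Agent.H885
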