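import Pool.Agent.H885.Ind

/-!
# The sum of the defects
-/

set_option autoImplicit false
set_option linter.unusedSectionVars false
set_option linter.unusedVariables false

open Matrix Module Filter

namespace Pool.Agent.H885

section lin
variable {F V E P P' : Type} [Field F] [AddCommGroup V] [Module F V] [AddCommGroup E] [Module F E]
    [AddCommGroup P] [Module F P] [FiniteDimensional F E] [FiniteDimensional F P]
    [AddCommGroup P'] [Module F P'] [FiniteDimensional F P']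

lemma dim_swapR (W : Submodule F V) (f : V →ₗ[F] E) (g : V →ₗ[F] P) :
    finrank F (W.map f) + finrank F ((W ⊓ LinearMap.ker f).map g) ≤
      finrank F (W.map g) + finrank F ((W ⊓ LinearMap.ker g).map f) := by
  have h1 := dim_swap (f.comp W.subtype) (g.comp W.subtype)
  have e1 : LinearMap.range (f.comp W.subtype) = W.map f := by rw [LinearMap.range_comp, Submodule.range_subtype]
  have e2 : LinearMap.range (g.comp W.subtype) = W.map g := by rw [LinearMap.range_comp, Submodule.range_subtype]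
  have e3 : (LinearMap.ker (f.comp W.subtype)).map (g.comp W.subtype) = (W ⊓ LinearMap.ker f).map g := by
    ext x
    constructor
    · rintro ⟨v, hv, rfl⟩
      exact ⟨v.1, ⟨v.2, hv⟩, rfl⟩
    · rintro ⟨v, ⟨h2, h3⟩, rfl⟩
      exact ⟨⟨v, h2⟩, h3, rfl⟩
  have e4 : (LinearMap.ker (g.comp W.subtype)).map (f.comp W.subtype) = (W ⊓ LinearMap.ker g).map f := by
    ext x
    constructor
    · rintro ⟨v, hv, rfl⟩
      exact ⟨v.1, ⟨v.2, hv⟩, rfl⟩
    · rintro ⟨v, ⟨h2, h3⟩, rfl⟩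
      exact ⟨⟨v, h2⟩, h3, rfl⟩
  rw [e1, e2, e3, e4] at h1
  exact h1.le

/-- **the sum of the defects** -/
theorem pigeonS {L s ℓ : ℕ} (ev : Fin L → V →ₗ[F] E) (Φ : V →ₗ[F] P) (hP : finrank F P ≤ s) (Ψ : Fin L → V →ₗ[F] P')
    (hP' : finrank F P' ≤ ℓ) {d : Fin L → ℕ}
    (hd : ∀ l, d l ≤ finrank F ((⨅ l' : {l' : Fin L // l' ≠ l}, LinearMap.ker (ev l'.1)).map (ev l))) :
    ∃ ρ : Fin L → ℕ, ∑ l, ρ l ≤ s ∧ ∀ l, d l ≤ finrank F ((LinearMap.ker Φ ⊓ LinearMap.ker (Ψ l)).map (ev l)) + (ρ l + ℓ) := by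
  classical
  let 𝒟 : ℕ → Submodule F V := fun m => ⨅ l : {l : Fin L // (l : ℕ) < m}, LinearMap.ker (ev l.1)
  have h𝒟 : ∀ m v, v ∈ 𝒟 m ↔ ∀ l : Fin L, (l : ℕ) < m → ev l v = 0 := by
    intro m v
    show v ∈ (⨅ l : {l : Fin L // (l : ℕ) < m}, LinearMap.ker (ev l.1)) ↔ _
    rw [Submodule.mem_iInf]
    exact ⟨fun h l hl => h ⟨l, hl⟩, fun h l => h l.1 l.2⟩
  have hmono : ∀ m, finrank F ((𝒟 (m + 1)).map Φ) ≤ finrank F ((𝒟 m).map Φ) := fun m =>
    Submodule.finrank_mono (Submodule.map_mono fun v hv => (h𝒟 m v).2 fun l hl => (h𝒟 _ v).1 hv l (by omega))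
  let ρ : ℕ → ℕ := fun m => finrank F ((𝒟 m).map Φ) - finrank F ((𝒟 (m + 1)).map Φ)
  have hsum : ∀ m, ∑ i ∈ Finset.range m, ρ i + finrank F ((𝒟 m).map Φ) = finrank F ((𝒟 0).map Φ) := by
    intro m
    induction m with
    | zero => simp
    | succ m ih =>
      rw [Finset.sum_range_succ, ← ih]
      have := hmono m
      have h2 : ρ m = finrank F ((𝒟 m).map Φ) - finrank F ((𝒟 (m + 1)).map Φ) := rfl
      omega
  refine ⟨fun l => ρ l, ?_, fun l => ?_⟩
  · rw [Fin.sum_univ_eq_sum_range (fun i => ρ i) L]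
    have h1 := hsum L
    have h3 : finrank F ((𝒟 0).map Φ) ≤ s := (Submodule.finrank_le _).trans hP
    omega
  · have h1 := dim_swapR (𝒟 l) (ev l) Φ
    have h2 : d l ≤ finrank F ((𝒟 l).map (ev l)) := by
      refine (hd l).trans (Submodule.finrank_mono (Submodule.map_mono fun v hv => (h𝒟 l v).2 fun l' hl' => ?_))
      have := (Submodule.mem_iInf _).1 hv ⟨l', fun h => by
        rw [h] at hl'
        omega⟩
      exact this
    have h3 : finrank F ((𝒟 (l + 1)).map Φ) ≤ finrank F ((𝒟 l ⊓ LinearMap.ker (ev l)).map Φ) := by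
      refine Submodule.finrank_mono (Submodule.map_mono fun v hv => ⟨?_, ?_⟩)
      · exact (h𝒟 l v).2 fun l' hl' => (h𝒟 _ v).1 hv l' (by omega)
      · exact (h𝒟 _ v).1 hv l (by omega)
    have h4 := dim_swapR (𝒟 l ⊓ LinearMap.ker Φ) (ev l) (Ψ l)
    have h5 : finrank F ((𝒟 l ⊓ LinearMap.ker Φ).map (Ψ l)) ≤ ℓ := (Submodule.finrank_le _).trans hP'
    have h6 : finrank F ((𝒟 l ⊓ LinearMap.ker Φ ⊓ LinearMap.ker (Ψ l)).map (ev l)) ≤
        finrank F ((LinearMap.ker Φ ⊓ LinearMap.ker (Ψ l)).map (ev l)) :=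
      Submodule.finrank_mono (Submodule.map_mono fun v hv => ⟨hv.1.2, hv.2⟩)
    have h7 := hmono l
    have h8 : ρ l = finrank F ((𝒟 l).map Φ) - finrank F ((𝒟 (l + 1)).map Φ) := rfl
    show d l ≤ _ + (ρ l + ℓ)
    omega

end lin

end Pool.Agent.H885
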