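import Pool.Agent.H885.EPm
import Pool.Agent.H885.GPts

/-!
# Twisted shifts of systems with nilpotent residues
-/

set_option autoImplicit false
set_option linter.unusedSectionVars false
set_option linter.unusedVariables false

open PowerSeries

namespace Pool.Agent.H885

open Pool.Agent.Y113 Pool.Agent.Y113.HGG
open Pool.Agent.Y120.GH (L1 L1_Pg L1_Hm Pg Hm ps_Hm ps_Pg sf sf_mul sf_sum sf_der sf_pow sf_nat)

variable {n N L : ℕ}

section sdx
variable {x : ℝ}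

lemma sdx_mul (hx : 2 ≤ x) {e e' : ℕ} {f g : ℚ⟦X⟧} (h : SDp (x ^ e) f) (h' : SDp (x ^ e') g) : SDp (x ^ (e + e' + 1)) (f * g) := by
  refine (h.mul h').mono ?_
  rw [pow_add, pow_add, pow_one]
  have h1 : 0 ≤ x ^ e * x ^ e' := by positivity
  calc 2 * x ^ e * x ^ e' = (x ^ e * x ^ e') * 2 := by ring
    _ ≤ _ := mul_le_mul_of_nonneg_left hx h1

lemma sdx_mono (hx : 2 ≤ x) {e e' : ℕ} {f : ℚ⟦X⟧} (h : SDp (x ^ e) f) (he : e ≤ e') : SDp (x ^ e') f :=
  h.mono (pow_le_pow_right₀ (by linarith) he)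

lemma sdx_pow (hx : 2 ≤ x) {e : ℕ} {f : ℚ⟦X⟧} (h : SDp (x ^ e) f) (k : ℕ) : SDp (x ^ ((e + 1) * k)) (f ^ k) := by
  induction k with
  | zero => simpa using SDp.one
  | succ k ih =>
    rw [pow_succ]
    exact sdx_mono hx (sdx_mul hx ih h) (by ring_nf; omega)

lemma sdp_zero {A : ℝ} (hA : 1 ≤ A) : SDp A (0 : ℚ⟦X⟧) := by
  refine ⟨fun m => ?_, fun m => ⟨1, one_pos, ?_, fun j _ => ⟨0, by simp⟩⟩⟩
  · simp only [map_zero, Rat.cast_zero, abs_zero]
    positivity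
  · simpa using one_le_pow₀ hA

lemma sdx_sum (hx : 2 ≤ x) {κ : Type} (s : Finset κ) {e : ℕ} {f : κ → ℚ⟦X⟧} (h : ∀ k ∈ s, SDp (x ^ e) (f k)) :
    SDp (x ^ ((e + 1) * s.card)) (∑ k ∈ s, f k) := by
  classical
  induction s using Finset.induction_on with
  | empty =>
    rw [Finset.sum_empty, Finset.card_empty, mul_zero, pow_zero]
    exact sdp_zero le_rfl
  | insert a s ha ih =>
    rw [Finset.sum_insert ha, Finset.card_insert_of_notMem ha]
    have h1 := (h a (Finset.mem_insert_self _ _)).add (ih fun k hk => h k (Finset.mem_insert_of_mem hk))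
    refine h1.mono ?_
    have h2 : (e + 1) * (s.card + 1) = e + (e + 1) * s.card + 1 := by ring
    rw [h2, pow_succ x, pow_add]
    have h3 : 0 ≤ x ^ e * x ^ ((e + 1) * s.card) := by positivity
    calc 2 * x ^ e * x ^ ((e + 1) * s.card) = (x ^ e * x ^ ((e + 1) * s.card)) * 2 := by ring
      _ ≤ _ := mul_le_mul_of_nonneg_left hx h3

lemma sdp_C {B : ℝ} (hB : 1 ≤ B) (c : ℚ) {d : ℕ} (hd : 0 < d) (hdB : (d : ℝ) ≤ B) (hdc : ∃ z : ℤ, (d : ℚ) * c = z)
    (hc : |((c : ℚ) : ℝ)| ≤ B) : SDp B (C c) := by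
  refine ⟨fun m => ?_, fun m => ⟨d, hd, hdB.trans (le_self_pow₀ hB (by omega)), fun j _ => ?_⟩⟩
  · rw [coeff_C]
    split_ifs
    · exact hc.trans (le_self_pow₀ hB (by omega))
    · simp only [Rat.cast_zero, abs_zero]
      positivity
  · rw [coeff_C]
    split_ifs
    · exact hdc
    · exact ⟨0, by simp⟩

lemma sdp_neg {A : ℝ} {f : ℚ⟦X⟧} (h : SDp A f) : SDp A (-f) := by
  refine ⟨fun m => ?_, fun m => ?_⟩
  · rw [map_neg]
    push_cast
    rw [abs_neg]
    exact h.1 m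
  · obtain ⟨d, hd0, hd, hd'⟩ := h.2 m
    refine ⟨d, hd0, hd, fun j hj => ?_⟩
    obtain ⟨a, ha⟩ := hd' j hj
    refine ⟨-a, ?_⟩
    rw [map_neg, mul_neg, ha]
    push_cast
    rfl

end sdx

lemma Rpow_le {R : Matrix (Fin n) (Fin n) ℤ} {H : ℝ} (hH : 1 ≤ H) (h : ∀ a b, |((R a b : ℤ) : ℝ)| ≤ H) (k : ℕ) :
    ∀ a b, |(((R ^ k) a b : ℤ) : ℝ)| ≤ ((n : ℝ) * H + 1) ^ k := by
  induction k with
  | zero =>
    intro a b
    rw [pow_zero, pow_zero, Matrix.one_apply]
    split_ifs <;> simp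
  | succ k ih =>
    intro a b
    rw [pow_succ, Matrix.mul_apply]
    push_cast
    refine (Finset.abs_sum_le_sum_abs _ _).trans ?_
    have h1 : ∀ e ∈ (Finset.univ : Finset (Fin n)), |(((R ^ k) a e : ℤ) : ℝ) * ((R e b : ℤ) : ℝ)| ≤
        ((n : ℝ) * H + 1) ^ k * H := by
      intro e _
      rw [abs_mul]
      exact mul_le_mul (ih a e) (h e b) (abs_nonneg _) (by positivity)
    refine (Finset.sum_le_card_nsmul _ _ _ h1).trans ?_
    rw [Finset.card_univ, Fintype.card_fin, nsmul_eq_mul, pow_succ]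
    have h2 : 0 ≤ ((n : ℝ) * H + 1) ^ k := by positivity
    nlinarith

/-- the twisted shift -/
noncomputable def tsf (g : ℕ) (R : Matrix (Fin n) (Fin n) ℤ) (Z : Matrix (Fin n) (Fin n) ℚ⟦X⟧) : Matrix (Fin n) (Fin n) ℚ⟦X⟧ :=
  eP R (lg g) * sfM g Z

/-- the differential equation of twisted shifts -/
lemma tsf_ode {q : ℕ} {T : Polynomial ℤ} {A : Fin n → Fin n → Polynomial ℤ} {R : Matrix (Fin n) (Fin n) ℤ}
    {Z : Matrix (Fin n) (Fin n) ℚ⟦X⟧} (hR : R ^ n = 0) (hT : T.natDegree ≤ q) (hA : ∀ a b, (A a b).natDegree ≤ q)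
    (h : ∀ a b, ps T * (X * d⁄dX ℚ (Z a b) + ∑ c, C (R a c : ℚ) * Z c b) = ∑ l, Z a l * ps (A l b)) (g : ℕ) (a b : Fin n) :
    ps (Pg g * Hm g q T) * (X * d⁄dX ℚ (tsf g R Z a b) + ∑ c, C (R a c : ℚ) * tsf g R Z c b) =
      ∑ l, tsf g R Z a l * ps (Hm g q (A l b)) := by
  set P := ps (Pg g) with hP
  set E := eP R (lg g) with hE
  set Zs := sfM g Z with hZs
  set D := RS' ℚ⟦X⟧ R with hD
  have hPl : P * d⁄dX ℚ (lg g) = -(g : ℚ⟦X⟧) := by
    rw [hP, ps_Pg]
    exact Pool.Agent.Y120.GF.lg_der g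
  have hPX : P * sf g X = X := by
    rw [hP, ps_Pg]
    have h1 : sf g X = sh g := subst_X (Pool.Agent.Y120.GF.sh_sub g)
    rw [h1]
    exact Pool.Agent.Y120.GF.sh_eq g
  have hP1 : (g : ℚ⟦X⟧) * X + P = 1 := by
    rw [hP, ps_Pg]
    ring
  have hDC : ∀ e c, D e c = C (R e c : ℚ) := fun e c => rfl
  -- the equation of the shift
  have h1 : ∀ e, sf g (ps T) * (P * X * d⁄dX ℚ (Zs e b) + ∑ c, D e c * Zs c b) = ∑ l, Zs e l * sf g (ps (A l b)) := by
    intro e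
    have h2 := congrArg (sf g) (h e b)
    have hadd : ∀ f f' : ℚ⟦X⟧, sf g (f + f') = sf g f + sf g f' := fun f f' => by
      have h3 := sf_sum g (Finset.univ : Finset (Fin 2)) ![f, f']
      simpa using h3
    rw [sf_mul, sf_sum, hadd, sf_sum, sf_mul, ← sf_der] at h2
    have h3 : sf g X * (P ^ 2 * d⁄dX ℚ (sf g (Z e b))) = P * X * d⁄dX ℚ (Zs e b) := by
      calc sf g X * (P ^ 2 * d⁄dX ℚ (sf g (Z e b))) = P * (P * sf g X) * d⁄dX ℚ (sf g (Z e b)) := by ring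
        _ = _ := by rw [hPX]; rfl
    have h4 : ∑ c, sf g (C (R e c : ℚ) * Z c b) = ∑ c, D e c * Zs c b := by
      refine Finset.sum_congr rfl fun c _ => ?_
      rw [sf_mul, hDC]
      congr 1
      exact subst_C _
    rw [h3, h4] at h2
    rw [h2]
    refine Finset.sum_congr rfl fun l _ => ?_
    rw [sf_mul]
    rfl
  -- the derivative
  have h2 : P * (X * d⁄dX ℚ (tsf g R Z a b) + ∑ c, C (R a c : ℚ) * tsf g R Z c b) =
      ∑ e, E a e * (P * X * d⁄dX ℚ (Zs e b) + ∑ c, D e c * Zs c b) := by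
    have h3 : d⁄dX ℚ (tsf g R Z a b) = ∑ e, (E a e * d⁄dX ℚ (Zs e b) + Zs e b * -(d⁄dX ℚ (lg g) * (D * E) a e)) := by
      unfold tsf
      rw [Matrix.mul_apply, map_sum]
      refine Finset.sum_congr rfl fun e _ => ?_
      rw [Derivation.leibniz, eP_der hR]
      rfl
    have h4 : ∑ c, C (R a c : ℚ) * tsf g R Z c b = (D * E * Zs) a b := by
      rw [Matrix.mul_assoc, Matrix.mul_apply]
      rfl
    have h5 : P * (X * d⁄dX ℚ (tsf g R Z a b)) = (∑ e, E a e * (P * X * d⁄dX ℚ (Zs e b))) + (g : ℚ⟦X⟧) * X * (D * E * Zs) a b := by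
      rw [h3, Matrix.mul_apply, Finset.mul_sum, Finset.mul_sum, Finset.mul_sum, ← Finset.sum_add_distrib]
      refine Finset.sum_congr rfl fun e _ => ?_
      have h6 : P * (X * (E a e * d⁄dX ℚ (Zs e b) + Zs e b * -(d⁄dX ℚ (lg g) * (D * E) a e))) =
          E a e * (P * X * d⁄dX ℚ (Zs e b)) - X * Zs e b * (D * E) a e * (P * d⁄dX ℚ (lg g)) := by ring
      rw [h6, hPl]
      ring
    have h6 : ∑ e, E a e * (P * X * d⁄dX ℚ (Zs e b) + ∑ c, D e c * Zs c b) =
        (∑ e, E a e * (P * X * d⁄dX ℚ (Zs e b))) + (D * E * Zs) a b := by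
      simp only [mul_add, Finset.sum_add_distrib]
      congr 1
      rw [eP_comm R hR, Matrix.mul_assoc, Matrix.mul_apply]
      rfl
    rw [mul_add, h5, h4, h6, add_assoc, ← add_mul, hP1, one_mul]
  have h3 : ps (Pg g * Hm g q T) = P ^ q * sf g (ps T) * P := by
    rw [ps_mul, ps_Hm g hT, mul_comm]
    rfl
  rw [h3, mul_assoc, h2]
  have h4 : P ^ q * sf g (ps T) * ∑ e, E a e * (P * X * d⁄dX ℚ (Zs e b) + ∑ c, D e c * Zs c b) =
      P ^ q * ∑ e, E a e * ∑ l, Zs e l * sf g (ps (A l b)) := by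
    rw [mul_assoc, Finset.mul_sum]
    congr 1
    refine Finset.sum_congr rfl fun e _ => ?_
    rw [← h1 e]
    ring
  rw [h4]
  have h5 : ∀ l, tsf g R Z a l * ps (Hm g q (A l b)) = P ^ q * ∑ e, E a e * (Zs e l * sf g (ps (A l b))) := by
    intro l
    rw [ps_Hm g (hA l b)]
    unfold tsf
    rw [Matrix.mul_apply, Finset.sum_mul, Finset.mul_sum]
    refine Finset.sum_congr rfl fun e _ => ?_
    show E a e * Zs e l * (P ^ q * sf g (ps (A l b))) = P ^ q * (E a e * (Zs e l * sf g (ps (A l b))))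
    ring
  rw [Finset.sum_congr rfl fun l _ => h5 l, ← Finset.mul_sum]
  congr 1
  rw [Finset.sum_comm]
  exact Finset.sum_congr rfl fun e _ => Finset.mul_sum _ _ _

/-- **twisted shifts of systems with nilpotent residues** -/
theorem sysN_tw (n q : ℕ) : ∃ E : ℕ, ∀ (H : ℝ) (T : Polynomial ℤ) (A : Fin n → Fin n → Polynomial ℤ)
    (R : Matrix (Fin n) (Fin n) ℤ) (Z W : Matrix (Fin n) (Fin n) ℚ⟦X⟧), SysN q H T A R Z W → ∀ G g : ℕ, g ≤ G →
    SysN (q + 1) ((2 * H * ((G : ℝ) + 2)) ^ E) (Pg g * Hm g q T) (fun l b => Hm g q (A l b)) R (tsf g R Z)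
      (sfM g W * eP R (-lg g)) := by
  classical
  obtain ⟨e₁, he₁⟩ := pow_absorb (c := (q : ℝ) + 1) (by
    have : (0 : ℝ) ≤ q := by positivity
    linarith)
  obtain ⟨e₂, he₂⟩ := pow_absorb (c := (n.factorial : ℝ) * ((n : ℝ) + 1) ^ n) (by
    have h1 : (1 : ℝ) ≤ n.factorial := by exact_mod_cast Nat.factorial_pos n
    have h2 : (1 : ℝ) ≤ ((n : ℝ) + 1) ^ n := one_le_pow₀ (by linarith [show (0 : ℝ) ≤ n by positivity])
    nlinarith)
  -- the exponents
  set k₁ : ℕ := ((e₂ + n) + (8 + 1 + 1) * n + 1 + 1) * n with hk₁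
  set k₂ : ℕ := (k₁ + 4 + 1 + 1) * n with hk₂
  set E : ℕ := (e₁ + 1 + q + 1) + (1 + k₂ * (n * n) + k₁ * (n * n)) + k₂ with hE
  refine ⟨E, fun H T A R Z W hS G g hg => ?_⟩
  have hH1 := hS.one_le
  have hG0 : (0 : ℝ) ≤ G := by positivity
  set x : ℝ := 2 * H * ((G : ℝ) + 2) with hx
  have hGx : (G : ℝ) + 2 ≤ x := by
    rw [hx]
    nlinarith
  have hHx : H ≤ x := by
    rw [hx]
    nlinarith
  have hx2 : 2 ≤ x := by linarith
  have hx1 : 1 ≤ x := by linarith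
  have hgG : (g : ℝ) + 1 ≤ x := by
    have : (g : ℝ) ≤ (G : ℝ) := by exact_mod_cast hg
    linarith
  have hg0 : (0 : ℝ) ≤ g := by positivity
  -- polynomials
  have hL : ∀ (P : Polynomial ℤ), P.natDegree ≤ q → (∀ k, |((P.coeff k : ℤ) : ℝ)| ≤ H) → L1 q (x ^ (e₁ + 1 + q)) (Hm g q P) := by
    intro P hP1 hP2
    refine (L1_Hm g (L1.ofBd ⟨hP1, hP2⟩)).mono le_rfl ?_
    rw [pow_add, pow_add, pow_one]
    exact mul_le_mul (mul_le_mul (he₁ x hx2) hHx (by linarith) (by positivity))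
      (pow_le_pow_left₀ (by positivity) hgG _) (by positivity) (by positivity)
  have hLT : L1 (q + 1) (x ^ E) (Pg g * Hm g q T) := by
    refine ((L1_Pg g).mul (hL _ hS.degT hS.sizeT)).mono (by omega) ?_
    calc ((g : ℝ) + 1) * x ^ (e₁ + 1 + q) ≤ x * x ^ (e₁ + 1 + q) := mul_le_mul_of_nonneg_right hgG (by positivity)
      _ = x ^ (e₁ + 1 + q + 1) := (pow_succ' _ _).symm
      _ ≤ x ^ E := pow_le_pow_right₀ hx1 (by omega)
  have hLA : ∀ l b, L1 (q + 1) (x ^ E) (Hm g q (A l b)) := fun l b =>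
    (hL _ (hS.degA l b) (hS.sizeA l b)).mono (by omega) (pow_le_pow_right₀ hx1 (by omega))
  -- the entries
  have hZ : ∀ a b, SDp (x ^ 4) (sfM g Z a b) := by
    have hle : (2 : ℝ) ^ 3 * H * ((g : ℝ) + 1) ≤ x ^ 4 := by
      calc (2 : ℝ) ^ 3 * H * ((g : ℝ) + 1) = 2 ^ 2 * (2 * H * ((g : ℝ) + 1)) := by ring
        _ ≤ x ^ 2 * x := by
            refine mul_le_mul (pow_le_pow_left₀ (by norm_num) hx2 _) ?_ (by positivity) (by positivity)
            rw [hx]
            have : (g : ℝ) ≤ (G : ℝ) := by exact_mod_cast hg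
            exact mul_le_mul_of_nonneg_left (by linarith) (by linarith)
        _ = x ^ 3 := by ring
        _ ≤ x ^ 4 := pow_le_pow_right₀ hx1 (by omega)
    intro a b
    refine (SDp.subst_sh (A := H) (f := Z a b) ⟨hS.size a b, fun m => ?_⟩ g).mono hle
    obtain ⟨d, hd0, hd, hd'⟩ := hS.den m
    exact ⟨d, hd0, hd, (hd' a b).1⟩
  have hlg : SDp (x ^ 9) (lg g) := by
    refine (SDp.lg g).mono ?_
    calc (2 : ℝ) ^ 8 * ((g : ℝ) + 1) ≤ x ^ 8 * x :=
          mul_le_mul (pow_le_pow_left₀ (by norm_num) hx2 _) hgG (by positivity) (by positivity)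
      _ = x ^ 9 := (pow_succ _ _).symm
  have hEP : ∀ u : ℚ⟦X⟧, SDp (x ^ 9) u → ∀ a b, SDp (x ^ k₁) (eP R u a b) := by
    intro u hu a b
    rw [eP_apply]
    have h1 : ∀ k ∈ Finset.range n, SDp (x ^ ((e₂ + n) + (8 + 1 + 1) * n + 1))
        (algebraMap ℚ ℚ⟦X⟧ ((-1 : ℚ) ^ k * (k.factorial : ℚ)⁻¹ * ((R ^ k) a b : ℚ)) * u ^ k) := by
      intro k hk
      rw [Finset.mem_range] at hk
      have h2 : SDp (x ^ (e₂ + n)) (C ((-1 : ℚ) ^ k * (k.factorial : ℚ)⁻¹ * ((R ^ k) a b : ℚ))) := by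
        have hxe := he₂ x hx2
        have hfac : (1 : ℝ) ≤ n.factorial := by exact_mod_cast Nat.factorial_pos n
        have hn1 : (1 : ℝ) ≤ ((n : ℝ) + 1) ^ n := one_le_pow₀ (by linarith [show (0 : ℝ) ≤ n by positivity])
        have hxn : (1 : ℝ) ≤ x ^ n := one_le_pow₀ hx1
        refine sdp_C (one_le_pow₀ hx1) _ (d := n.factorial) (Nat.factorial_pos n) ?_ ?_ ?_
        · rw [pow_add]
          calc (n.factorial : ℝ) ≤ (n.factorial : ℝ) * ((n : ℝ) + 1) ^ n := le_mul_of_one_le_right (by positivity) hn1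
            _ ≤ x ^ e₂ := hxe
            _ ≤ x ^ e₂ * x ^ n := le_mul_of_one_le_right (by positivity) hxn
        · obtain ⟨t, ht⟩ := Nat.factorial_dvd_factorial hk.le
          refine ⟨t * ((-1) ^ k * (R ^ k) a b), ?_⟩
          rw [ht]
          have : (k.factorial : ℚ) ≠ 0 := by exact_mod_cast (Nat.factorial_pos k).ne'
          push_cast
          field_simp
        · push_cast
          rw [abs_mul, abs_mul, abs_pow, abs_neg, abs_one, one_pow, one_mul, abs_of_nonneg (by positivity)]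
          have h3 := Rpow_le hH1 hS.sizeR k a b
          have h4 : ((k.factorial : ℝ))⁻¹ ≤ 1 := by
            refine inv_le_one_of_one_le₀ ?_
            exact_mod_cast Nat.factorial_pos k
          have h5 : ((n : ℝ) * H + 1) ^ k ≤ x ^ (e₂ + n) := by
            have h6 : (n : ℝ) * H + 1 ≤ ((n : ℝ) + 1) * H := by nlinarith
            have h7 : 1 ≤ ((n : ℝ) + 1) * H := by nlinarith [show (0 : ℝ) ≤ n by positivity]
            calc ((n : ℝ) * H + 1) ^ k ≤ (((n : ℝ) + 1) * H) ^ k := pow_le_pow_left₀ (by positivity) h6 _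
              _ ≤ (((n : ℝ) + 1) * H) ^ n := pow_le_pow_right₀ h7 hk.le
              _ = ((n : ℝ) + 1) ^ n * H ^ n := mul_pow _ _ _
              _ ≤ x ^ e₂ * x ^ n := by
                  refine mul_le_mul ?_ (pow_le_pow_left₀ (by linarith) hHx _) (by positivity) (by positivity)
                  refine le_trans ?_ hxe
                  exact le_mul_of_one_le_left (by positivity) hfac
              _ = _ := (pow_add _ _ _).symm
          calc ((k.factorial : ℝ))⁻¹ * |(((R ^ k) a b : ℤ) : ℝ)| ≤ 1 * ((n : ℝ) * H + 1) ^ k :=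
                mul_le_mul h4 h3 (abs_nonneg _) (by norm_num)
            _ = ((n : ℝ) * H + 1) ^ k := one_mul _
            _ ≤ _ := h5
      have h3 : SDp (x ^ ((8 + 1 + 1) * n)) (u ^ k) :=
        sdx_mono hx2 (sdx_pow hx2 hu k) (Nat.mul_le_mul_left _ hk.le)
      exact sdx_mul hx2 h2 h3
    have h2 := sdx_sum hx2 (Finset.range n) h1
    rw [Finset.card_range] at h2
    exact h2
  have hZt : ∀ a b, SDp (x ^ k₂) (tsf g R Z a b) := by
    intro a b
    unfold tsf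
    rw [Matrix.mul_apply]
    have h1 := sdx_sum hx2 (Finset.univ : Finset (Fin n)) (e := k₁ + 4 + 1)
      (f := fun e => eP R (lg g) a e * sfM g Z e b) fun e _ => sdx_mul hx2 (hEP _ hlg a e) (hZ e b)
    rw [Finset.card_univ, Fintype.card_fin] at h1
    exact h1
  refine ⟨one_le_pow₀ hx1, hLT.1, fun l => hLT.coeff_le l, fun l b => (hLA l b).1, fun l b k => (hLA l b).coeff_le k,
    hS.nil, fun a b => (hS.sizeR a b).trans ?_, fun a b => tsf_ode hS.nil hS.degT hS.degA hS.ode g a b, ?_,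
    fun a b m => ((hZt a b).1 m).trans ?_, fun m => ?_⟩
  · calc H ≤ x ^ 1 := by rw [pow_one]; exact hHx
      _ ≤ x ^ E := pow_le_pow_right₀ hx1 (by omega)
  · unfold tsf
    rw [Matrix.mul_assoc, ← Matrix.mul_assoc (eP R (-lg g)), eP_inv hS.nil, Matrix.one_mul]
    exact sfM_inv g hS.inv
  · exact pow_le_pow_left₀ (by positivity) (pow_le_pow_right₀ hx1 (by omega)) _
  · obtain ⟨d, hd0, hd, hd'⟩ := hS.den m
    obtain ⟨d₁, hd₁0, hd₁, hd₁'⟩ := common_den hZt m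
    obtain ⟨d₂, hd₂0, hd₂, hd₂'⟩ := common_den (hEP _ (sdp_neg hlg)) m
    have hmul : ∀ {d₀ d' : ℕ} {f : ℚ⟦X⟧}, IU d₀ m f → IU (d' * d₀) m f := by
      intro d₀ d' f hf k hk
      obtain ⟨z, hz⟩ := hf k hk
      refine ⟨d' * z, ?_⟩
      push_cast
      rw [← hz]
      ring
    refine ⟨d * d₂ * d₁, by positivity, ?_, fun a b => ⟨hmul fun j hj => hd₁' a b j hj, ?_⟩⟩
    · push_cast
      calc (d : ℝ) * d₂ * d₁ ≤ x ^ (m + 1) * ((x ^ k₁) ^ (m + 1)) ^ (n * n) * ((x ^ k₂) ^ (m + 1)) ^ (n * n) := by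
            refine mul_le_mul (mul_le_mul (hd.trans (pow_le_pow_left₀ (by linarith) hHx _)) hd₂ (by positivity)
              (by positivity)) hd₁ (by positivity) (by positivity)
        _ = x ^ ((1 + k₂ * (n * n) + k₁ * (n * n)) * (m + 1)) := by
            rw [← pow_mul, ← pow_mul, ← pow_mul, ← pow_mul, ← pow_add, ← pow_add]
            congr 1
            ring
        _ ≤ x ^ (E * (m + 1)) := pow_le_pow_right₀ hx1 (Nat.mul_le_mul_right _ (by omega))
        _ = _ := pow_mul _ _ _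
    · rw [mul_comm]
      refine hmul ?_
      rw [Matrix.mul_apply]
      refine IU.sum _ fun e _ => ?_
      exact (sf_den (hd' a e).2 g).mul fun j hj => hd₂' e b j hj

end Pool.Agent.H885
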