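import Pool.Agent.H885.BlkN
import Pool.Agent.H885.TwS

/-!
# Joint symmetries of twisted families
-/

set_option autoImplicit false
set_option linter.unusedSectionVars false
set_option linter.unusedVariables false

open Filter Topology Metric Set PowerSeries

namespace Pool.Agent.H885

open Pool.Agent.Y113 (ev Cv GSys ps lg)
open Pool.Agent.Y120.GH (An mem_An cx cx_mem Cw ou ou_an ou_mul ou_add ou_C ou_one ou_zero ou_X ou_sum ou_prod ou_poly ou_shift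
  Disc Up Up_open Up_conv Up_norm ou_inj poly_mem Cw_mono rev_eval sf ou_pow C_mem cx_C cx_lg_mem ou_lg Lx Lx_eq Lx_an log_an_up)

variable {n N L : ℕ}

lemma eP_an {R : Matrix (Fin n) (Fin n) ℤ} {f : ℂ → ℂ} {t : ℂ} (hf : AnalyticAt ℂ f t) (a c : Fin n) :
    AnalyticAt ℂ (fun t => eP R (f t) a c) t := by
  simp only [eP_apply]
  exact Finset.analyticAt_fun_sum _ fun k _ => analyticAt_const.mul (hf.pow k)

lemma eP_applyC (R : Matrix (Fin n) (Fin n) ℤ) (u : PowerSeries ℂ) (a c : Fin n) : eP R u a c = ∑ k ∈ Finset.range n,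
    PowerSeries.C (algebraMap ℚ ℂ ((-1 : ℚ) ^ k * (k.factorial : ℚ)⁻¹ * ((R ^ k) a c : ℚ))) * u ^ k := by
  rw [eP_apply]
  refine Finset.sum_congr rfl fun k _ => ?_
  congr 1
  exact RingHom.congr_fun (Subsingleton.elim (algebraMap ℚ (PowerSeries ℂ)) ((PowerSeries.C (R := ℂ)).comp (algebraMap ℚ ℂ))) _

lemma eP_Cw {ρ : ℝ} {R : Matrix (Fin n) (Fin n) ℤ} {u : PowerSeries ℂ} (hu : u ∈ Cw ρ) (a c : Fin n) : eP R u a c ∈ Cw ρ := by
  rw [eP_applyC]
  exact (Cw ρ).sum_mem fun k _ => (Cw ρ).mul_mem (C_mem _) ((Cw ρ).pow_mem hu k)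

lemma ou_eP {ρ : ℝ} (hρ : 0 ≤ ρ) {R : Matrix (Fin n) (Fin n) ℤ} {u : PowerSeries ℂ} (hu : u ∈ Cw ρ) {t : ℂ} (ht : ρ < ‖t‖)
    (a c : Fin n) : ou (eP R u a c) t = eP R (ou u t) a c := by
  rw [eP_applyC, eP_apply, ou_sum hρ _ (fun k _ => (Cw ρ).mul_mem (C_mem _) ((Cw ρ).pow_mem hu k)) ht]
  refine Finset.sum_congr rfl fun k _ => ?_
  rw [ou_mul hρ (C_mem _) ((Cw ρ).pow_mem hu k) ht, ou_C, ou_pow hρ hu ht]

/-- the combined family of twisted shifts -/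
noncomputable def combT (g : Fin L → Fin N → ℕ) (R : Fin L → Fin N → Matrix (Fin n) (Fin n) ℤ)
    (Z : Fin L → Fin N → Matrix (Fin n) (Fin n) ℚ⟦X⟧) : Fin (L * N) → Matrix (Fin n) (Fin n) ℚ⟦X⟧ :=
  fun i => tsf (g (fs i) (sn i)) (R (fs i) (sn i)) (Z (fs i) (sn i))

/-- the evaluation of the relations -/
noncomputable def EhT (g : Fin L → Fin N → ℕ) (R : Fin L → Fin N → Matrix (Fin n) (Fin n) ℤ)
    (Z : Fin L → Fin N → Matrix (Fin n) (Fin n) ℚ⟦X⟧) (t : ℂ) :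
    MvPolynomial (Fin (L * N) × Fin n × Fin n) (Polynomial ℂ) →+* ℂ :=
  MvPolynomial.eval₂Hom (Polynomial.evalRingHom (1 / t)) fun σ =>
    ∑ c, eP (R (fs σ.1) (sn σ.1)) (Complex.log (1 - (g (fs σ.1) (sn σ.1) : ℝ) / t)) σ.2.1 c *
      ou (cx (Z (fs σ.1) (sn σ.1) c σ.2.2)) (t - (g (fs σ.1) (sn σ.1) : ℝ))

/-- the derivation over the evaluation, as a homomorphism to dual numbers -/
noncomputable def DlH {U : Set ℂ} (y : Fin N × Fin n × Fin n → PowerSeries ℂ) (g₀ : ℝ) (X : Fin N → Matrix (Fin n) (Fin n) ℂ)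
    (t : ℂ) : MvPolynomial (Fin N × Fin n × Fin n) (An U) →+* DualNumber ℂ where
  toFun s := (Et U y g₀ t s, Et U y g₀ t (Dv (cS U) X s))
  map_one' := by
    refine TrivSqZeroExt.ext ?_ ?_
    · show Et U y g₀ t 1 = 1
      rw [map_one]
    · show Et U y g₀ t (Dv (cS U) X 1) = 0
      rw [Derivation.map_one_eq_zero, map_zero]
  map_mul' p q := by
    refine TrivSqZeroExt.ext ?_ ?_
    · show Et U y g₀ t (p * q) = Et U y g₀ t p * Et U y g₀ t q
      rw [map_mul]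
    · show Et U y g₀ t (Dv (cS U) X (p * q)) = Et U y g₀ t p * Et U y g₀ t (Dv (cS U) X q) +
        Et U y g₀ t (Dv (cS U) X p) * Et U y g₀ t q
      rw [Dv_mul, map_add, map_mul, map_mul, mul_comm (Et U y g₀ t q)]
  map_zero' := by
    refine TrivSqZeroExt.ext ?_ ?_
    · show Et U y g₀ t 0 = 0
      rw [map_zero]
    · show Et U y g₀ t (Dv (cS U) X 0) = 0
      rw [map_zero, map_zero]
  map_add' p q := by
    refine TrivSqZeroExt.ext ?_ ?_
    · show Et U y g₀ t (p + q) = Et U y g₀ t p + Et U y g₀ t q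
      rw [map_add]
    · show Et U y g₀ t (Dv (cS U) X (p + q)) = Et U y g₀ t (Dv (cS U) X p) + Et U y g₀ t (Dv (cS U) X q)
      rw [map_add, map_add]

lemma DlH_apply {U : Set ℂ} (y : Fin N × Fin n × Fin n → PowerSeries ℂ) (g₀ : ℝ) (X : Fin N → Matrix (Fin n) (Fin n) ℂ)
    (t : ℂ) (s : MvPolynomial (Fin N × Fin n × Fin n) (An U)) :
    DlH y g₀ X t s = TrivSqZeroExt.inl (Et U y g₀ t s) + TrivSqZeroExt.inr (Et U y g₀ t (Dv (cS U) X s)) := by
  refine TrivSqZeroExt.ext ?_ ?_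
  · show Et U y g₀ t s = _
    simp
  · show Et U y g₀ t (Dv (cS U) X s) = _
    simp

lemma dual_fst {U : Set ℂ} (y : Fin N × Fin n × Fin n → PowerSeries ℂ) (g₀ : ℝ) (X : Fin N → Matrix (Fin n) (Fin n) ℂ)
    (t lam : ℂ) (P : Polynomial (MvPolynomial (Fin N × Fin n × Fin n) (An U))) :
    TrivSqZeroExt.fst (Polynomial.eval₂ (DlH y g₀ X t) (TrivSqZeroExt.inl lam) P) =
      ∑ ε ∈ Finset.range (P.natDegree + 1), lam ^ ε * Et U y g₀ t (P.coeff ε) := by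
  rw [Polynomial.eval₂_eq_sum_range, TrivSqZeroExt.fst_sum]
  refine Finset.sum_congr rfl fun ε _ => ?_
  rw [TrivSqZeroExt.fst_mul, TrivSqZeroExt.inl_pow, TrivSqZeroExt.fst_inl, mul_comm]
  rfl

lemma dual_snd {U : Set ℂ} (y : Fin N × Fin n × Fin n → PowerSeries ℂ) (g₀ : ℝ) (X : Fin N → Matrix (Fin n) (Fin n) ℂ)
    (t lam : ℂ) (P : Polynomial (MvPolynomial (Fin N × Fin n × Fin n) (An U))) :
    TrivSqZeroExt.snd (Polynomial.eval₂ (DlH y g₀ X t) (TrivSqZeroExt.inl lam) P) =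
      ∑ ε ∈ Finset.range (P.natDegree + 1), lam ^ ε * Et U y g₀ t (Dv (cS U) X (P.coeff ε)) := by
  rw [Polynomial.eval₂_eq_sum_range, TrivSqZeroExt.snd_sum]
  refine Finset.sum_congr rfl fun ε _ => ?_
  rw [TrivSqZeroExt.snd_mul, TrivSqZeroExt.inl_pow, TrivSqZeroExt.fst_inl, TrivSqZeroExt.snd_inl, smul_zero, zero_add, mul_comm]
  rfl

end Pool.Agent.H885
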