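import Pool.Agent.H885.JointN

/-!
# Joint symmetries of twisted families
-/

set_option autoImplicit false
set_option linter.unusedSectionVars false
set_option linter.unusedVariables false

open Filter Topology Metric Set PowerSeries

namespace Pool.Agent.H885

open Pool.Agent.Y113 (ev Cv GSys ps lg)
open Pool.Agent.Y120.GH (An mem_An cx cx_mem Cw ou ou_an ou_mul ou_add ou_C ou_one ou_zero ou_X ou_sum ou_prod ou_poly ou_shift
  Disc Up Up_open Up_conv Up_norm ou_inj poly_mem Cw_mono rev_eval sf ou_pow C_mem cx_C cx_lg_mem ou_lg Lx Lx_eq Lx_an log_an_up)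

variable {n N L : ℕ}

/-- **one group** -/
theorem inf_grpN {ρ ρ' : ℝ} (hρ : 0 < ρ) (hρρ : ρ < ρ') {R : Fin L → Fin N → Matrix (Fin n) (Fin n) ℤ}
    (hR : ∀ l j, R l j ^ n = 0) {Z : Fin L → Fin N → Matrix (Fin n) (Fin n) ℚ⟦X⟧} {C : ℝ}
    (hC : 1 ≤ C) (hsz : ∀ l j a b m, |((coeff m (Z l j a b) : ℚ) : ℝ)| ≤ C ^ (m + 1))
    (hmem : ∀ l j a b, cx (Z l j a b) ∈ Cw ρ) (g : Fin L → Fin N → ℕ) (hgp : ∀ l j, (0 : ℝ) < g l j)
    (l₀ : Fin L) (γ : ℕ) (hg : ρ' < γ)
    (hsep : ∀ l j, ¬ (l = l₀ ∧ g l₀ j = γ) → ρ + ρ' < |(γ : ℝ) - g l j|)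
    (hD : ∀ (δ : ℕ) (S : Set (Fin δ → Option (Fin N × Fin n × Fin n))) [Fintype S],
      (∀ G : S → Polynomial ℂ, ∑ i, (G i : PowerSeries ℂ) * wd (fun σ => cx (ent (part (g l₀) (Z l₀) γ) σ)) i.1 = 0 →
        ∀ i, G i = 0) → Disc ρ ρ' fun b : S => wd (fun σ => cx (ent (part (g l₀) (Z l₀) γ) σ)) b.1)
    {X : Fin N → Matrix (Fin n) (Fin n) ℂ} (hX : ∀ lam : ℂ, InfT (part (g l₀) (Z l₀) γ)
      (fun j => if g l₀ j = γ then eP (R l₀ j) (-lam) * X j * eP (R l₀ j) lam else 0)) :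
    InfT (combT g R Z) (fun i => if fs i = l₀ ∧ g l₀ (sn i) = γ then X (sn i) else 0) := by
  classical
  rw [infT_iff]
  intro F hF
  set g₀ : ℝ := (γ : ℝ) with hg₀
  have hρ'0 : 0 < ρ' := by linarith
  have hg₀0 : 0 < g₀ := by linarith
  set U := Dom ρ ρ' g₀ with hU
  have hUU : Up ρ ⊆ U := Set.subset_union_left
  have hUb : ball (g₀ : ℂ) ρ' ⊆ U := Set.subset_union_right
  have hU0 : ∀ t ∈ U, t ≠ 0 := by
    rintro t (ht | ht) rfl
    · have h1 : ρ < (0 : ℂ).im := ht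
      simp only [Complex.zero_im] at h1
      linarith
    · rw [mem_ball_iff_norm, zero_sub, norm_neg, Complex.norm_real, Real.norm_of_nonneg (by positivity)] at ht
      linarith
  have hUn : ∀ l j, ¬ (l = l₀ ∧ g l₀ j = γ) → ∀ t ∈ U, ρ < ‖t - ((g l j : ℝ) : ℂ)‖ := by
    rintro l j hl t (ht | ht)
    · exact Up_norm ht _
    · rw [mem_ball_iff_norm] at ht
      have h1 := hsep l j hl
      have h2 : ‖((g₀ - g l j : ℝ) : ℂ)‖ ≤ ‖t - ((g l j : ℝ) : ℂ)‖ + ‖t - (g₀ : ℂ)‖ := by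
        have h3 : ((g₀ - g l j : ℝ) : ℂ) = (t - ((g l j : ℝ) : ℂ)) - (t - (g₀ : ℂ)) := by
          push_cast
          ring
        rw [h3]
        exact norm_sub_le _ _
      rw [Complex.norm_real, Real.norm_eq_abs] at h2
      linarith
  have hLan : ∀ l j, ¬ (l = l₀ ∧ g l₀ j = γ) → ∀ t ∈ U, AnalyticAt ℂ (Lx g₀ (g l j : ℝ)) t := by
    rintro l j hl t (ht | ht)
    · refine (log_an_up hρ ht (hgp l j)).congr ?_
      filter_upwards [Up_open.mem_nhds ht] with z hz
      exact (Lx_eq g₀ (hgp l j) (hρ.trans hz)).symm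
    · rw [mem_ball_iff_norm] at ht
      have h1 := hsep l j hl
      exact Lx_an hg (by linarith) (hgp l j) ht
  -- polynomials as functions
  let polyS : Polynomial ℂ →+* An U :=
    { toFun := fun p => ⟨fun t => p.eval (1 / t), fun t ht => by
        have h1 : AnalyticAt ℂ (fun t : ℂ => 1 / t) t := analyticAt_const.div analyticAt_id (hU0 t ht)
        have h2 : AnalyticAt ℂ (fun z => p.eval z) (1 / t) := p.differentiable.analyticAt _
        exact AnalyticAt.comp (g := fun z => p.eval z) (f := fun t : ℂ => 1 / t) h2 h1⟩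
      map_one' := by
        apply Subtype.ext
        funext t
        exact Polynomial.eval_one
      map_mul' := fun p q => by
        apply Subtype.ext
        funext t
        exact Polynomial.eval_mul
      map_zero' := by
        apply Subtype.ext
        funext t
        exact Polynomial.eval_zero
      map_add' := fun p q => by
        apply Subtype.ext
        funext t
        exact Polynomial.eval_add }
  let Pr : Fin (L * N) → Prop := fun i => fs i = l₀ ∧ g l₀ (sn i) = γ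
  have hUn' : ∀ i, ¬ Pr i → ∀ t ∈ U, ρ < ‖t - ((g (fs i) (sn i) : ℝ) : ℂ)‖ := fun i hi => hUn (fs i) (sn i) hi
  let Fσ : Fin (L * N) × Fin n × Fin n → An U := fun σ =>
    if h : Pr σ.1 then 0 else ⟨fun t => ∑ c, eP (R (fs σ.1) (sn σ.1)) (Lx g₀ (g (fs σ.1) (sn σ.1) : ℝ) t) σ.2.1 c *
      ou (cx (Z (fs σ.1) (sn σ.1) c σ.2.2)) (t - ((g (fs σ.1) (sn σ.1) : ℝ) : ℂ)), fun t ht => by
      refine Finset.analyticAt_fun_sum _ fun c _ => (eP_an (hLan _ _ h t ht) _ _).mul ?_
      have h3 := ou_an hρ.le (hmem (fs σ.1) (sn σ.1) c σ.2.2) (t - ((g (fs σ.1) (sn σ.1) : ℝ) : ℂ)) (hUn' _ h t ht)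
      exact AnalyticAt.comp (g := ou (cx (Z (fs σ.1) (sn σ.1) c σ.2.2))) (f := fun t : ℂ => t - ((g (fs σ.1) (sn σ.1) : ℝ) : ℂ)) h3
        (analyticAt_id.sub analyticAt_const)⟩
  let ιq : ℚ →+* MvPolynomial (Fin N × Fin n × Fin n) (An U) := MvPolynomial.C.comp ((cS U).comp (algebraMap ℚ ℂ))
  let φ : MvPolynomial (Fin (L * N) × Fin n × Fin n) (Polynomial ℂ) →+* Polynomial (MvPolynomial (Fin N × Fin n × Fin n) (An U)) :=
    MvPolynomial.eval₂Hom (Polynomial.C.comp (MvPolynomial.C.comp polyS)) fun σ =>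
      if Pr σ.1 then ∑ c, (EP (R l₀ (sn σ.1)) σ.2.1 c).map ιq * Polynomial.C (MvPolynomial.X (sn σ.1, c, σ.2.2))
      else Polynomial.C (MvPolynomial.C (Fσ σ))
  have hφC : ∀ p, φ (MvPolynomial.C p) = Polynomial.C (MvPolynomial.C (polyS p)) := fun p => by
    show MvPolynomial.eval₂Hom _ _ (MvPolynomial.C p) = _
    rw [MvPolynomial.coe_eval₂Hom, MvPolynomial.eval₂_C]
    rfl
  have hφX : ∀ σ, φ (MvPolynomial.X σ) = if Pr σ.1 then
      ∑ c, (EP (R l₀ (sn σ.1)) σ.2.1 c).map ιq * Polynomial.C (MvPolynomial.X (sn σ.1, c, σ.2.2))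
      else Polynomial.C (MvPolynomial.C (Fσ σ)) := fun σ => by
    show MvPolynomial.eval₂Hom _ _ (MvPolynomial.X σ) = _
    rw [MvPolynomial.coe_eval₂Hom, MvPolynomial.eval₂_X]
  set y : Fin N × Fin n × Fin n → PowerSeries ℂ := fun τ => cx (ent (part (g l₀) (Z l₀) γ) τ) with hy
  have hcxone : ∀ a b : Fin n, cx ((1 : Matrix (Fin n) (Fin n) ℚ⟦X⟧) a b) ∈ Cw ρ := by
    intro a b
    rw [Matrix.one_apply]
    split_ifs
    · rw [map_one]
      exact (Cw ρ).one_mem
    · rw [map_zero]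
      exact (Cw ρ).zero_mem
  have hymem : ∀ τ, y τ ∈ Cw ρ := fun τ => by
    show cx (part (g l₀) (Z l₀) γ τ.1 τ.2.1 τ.2.2) ∈ Cw ρ
    unfold part
    split_ifs
    · exact hmem _ _ _ _
    · exact hcxone _ _
  -- the symmetries at the point
  set X' : ℂ → Fin N → Matrix (Fin n) (Fin n) ℂ := fun lam j =>
    if g l₀ j = γ then eP (R l₀ j) (-lam) * X j * eP (R l₀ j) lam else 0 with hX'
  set Xf : Fin (L * N) → Matrix (Fin n) (Fin n) ℂ := fun i => if fs i = l₀ ∧ g l₀ (sn i) = γ then X (sn i) else 0 with hXf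
  set lt : ℂ → ℂ := fun t => Complex.log (1 - g₀ / t) with hlt
  have hEtC : ∀ t (f : An U), Et U y g₀ t (MvPolynomial.C f) = f.1 t := fun t f => by
    unfold Et
    rw [MvPolynomial.coe_eval₂Hom, MvPolynomial.eval₂_C]
    rfl
  have hEtX : ∀ t τ, Et U y g₀ t (MvPolynomial.X τ) = ou (y τ) (t - g₀) := fun t τ => by
    unfold Et
    rw [MvPolynomial.coe_eval₂Hom, MvPolynomial.eval₂_X]
  have hEhX : ∀ t σ, EhT g R Z t (MvPolynomial.X σ) =
      ∑ c, eP (R (fs σ.1) (sn σ.1)) (Complex.log (1 - (g (fs σ.1) (sn σ.1) : ℝ) / t)) σ.2.1 c *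
      ou (cx (Z (fs σ.1) (sn σ.1) c σ.2.2)) (t - (g (fs σ.1) (sn σ.1) : ℝ)) := fun t σ => by
    unfold EhT
    rw [MvPolynomial.coe_eval₂Hom, MvPolynomial.eval₂_X]
  have hEhC : ∀ t p, EhT g R Z t (MvPolynomial.C p) = p.eval (1 / t) := fun t p => by
    unfold EhT
    rw [MvPolynomial.coe_eval₂Hom, MvPolynomial.eval₂_C]
    rfl
  -- the second homomorphism
  let ΘF : ℂ → MvPolynomial (Fin (L * N) × Fin n × Fin n) (Polynomial ℂ) →+* DualNumber ℂ := fun t =>
    { toFun := fun F => (EhT g R Z t F, EhT g R Z t (Dv Polynomial.C Xf F))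
      map_one' := by
        refine TrivSqZeroExt.ext ?_ ?_
        · show EhT g R Z t 1 = 1
          rw [map_one]
        · show EhT g R Z t (Dv Polynomial.C Xf 1) = 0
          rw [Derivation.map_one_eq_zero, map_zero]
      map_mul' := fun p q => by
        refine TrivSqZeroExt.ext ?_ ?_
        · show EhT g R Z t (p * q) = EhT g R Z t p * EhT g R Z t q
          rw [map_mul]
        · show EhT g R Z t (Dv Polynomial.C Xf (p * q)) = EhT g R Z t p * EhT g R Z t (Dv Polynomial.C Xf q) +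
            EhT g R Z t (Dv Polynomial.C Xf p) * EhT g R Z t q
          rw [Dv_mul, map_add, map_mul, map_mul, mul_comm (EhT g R Z t q)]
      map_zero' := by
        refine TrivSqZeroExt.ext ?_ ?_
        · show EhT g R Z t 0 = 0
          rw [map_zero]
        · show EhT g R Z t (Dv Polynomial.C Xf 0) = 0
          rw [map_zero, map_zero]
      map_add' := fun p q => by
        refine TrivSqZeroExt.ext ?_ ?_
        · show EhT g R Z t (p + q) = EhT g R Z t p + EhT g R Z t q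
          rw [map_add]
        · show EhT g R Z t (Dv Polynomial.C Xf (p + q)) = EhT g R Z t (Dv Polynomial.C Xf p) + EhT g R Z t (Dv Polynomial.C Xf q)
          rw [map_add, map_add] }
  -- the value of the exponential
  have hEPe : ∀ t j a c, Polynomial.eval₂ (DlH (U := U) y g₀ (X' (lt t)) t) (TrivSqZeroExt.inl (lt t)) ((EP (R l₀ j) a c).map ιq) =
      TrivSqZeroExt.inl (eP (R l₀ j) (lt t) a c) := by
    intro t j a c
    rw [Polynomial.eval₂_map]
    have h1 : (DlH (U := U) y g₀ (X' (lt t)) t).comp ιq = (TrivSqZeroExt.inlHom ℂ ℂ).comp (algebraMap ℚ ℂ) := Subsingleton.elim _ _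
    have h2 : (TrivSqZeroExt.inl (lt t) : DualNumber ℂ) = TrivSqZeroExt.inlHom ℂ ℂ (lt t) := rfl
    rw [h1, h2, ← Polynomial.hom_eval₂]
    rfl
  have hΘ : ∀ t ∈ Up ρ, (Polynomial.eval₂RingHom (DlH (U := U) y g₀ (X' (lt t)) t) (TrivSqZeroExt.inl (lt t))).comp φ = ΘF t := by
    intro t ht
    have ht0 : 0 < t.im := hρ.trans ht
    refine MvPolynomial.ringHom_ext (fun p => ?_) fun σ => ?_
    · rw [RingHom.comp_apply, hφC, Polynomial.coe_eval₂RingHom, Polynomial.eval₂_C]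
      refine TrivSqZeroExt.ext ?_ ?_
      · show Et U y g₀ t (MvPolynomial.C (polyS p)) = EhT g R Z t (MvPolynomial.C p)
        rw [hEtC, hEhC]
        rfl
      · show Et U y g₀ t (Dv (cS U) _ (MvPolynomial.C (polyS p))) = EhT g R Z t (Dv Polynomial.C Xf (MvPolynomial.C p))
        rw [Dv_C, Dv_C, map_zero, map_zero]
    · rw [RingHom.comp_apply, hφX, Polynomial.coe_eval₂RingHom]
      by_cases h : Pr σ.1
      · have h' : fs σ.1 = l₀ ∧ g l₀ (sn σ.1) = γ := h
        rw [if_pos h, Polynomial.eval₂_finsetSum]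
        have h1 : ∀ c, Polynomial.eval₂ (DlH (U := U) y g₀ (X' (lt t)) t) (TrivSqZeroExt.inl (lt t))
            ((EP (R l₀ (sn σ.1)) σ.2.1 c).map ιq * Polynomial.C (MvPolynomial.X (sn σ.1, c, σ.2.2))) =
            TrivSqZeroExt.inl (eP (R l₀ (sn σ.1)) (lt t) σ.2.1 c) * DlH (U := U) y g₀ (X' (lt t)) t (MvPolynomial.X (sn σ.1, c, σ.2.2)) := by
          intro c
          rw [Polynomial.eval₂_mul, hEPe, Polynomial.eval₂_C]
        rw [Finset.sum_congr rfl fun c _ => h1 c]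
        -- the values
        have hyv : ∀ c, ou (y (sn σ.1, c, σ.2.2)) (t - g₀) = ou (cx (Z (fs σ.1) (sn σ.1) c σ.2.2)) (t - (g (fs σ.1) (sn σ.1) : ℝ)) := by
          intro c
          rw [h'.1, h'.2]
          show ou (cx (part (g l₀) (Z l₀) γ (sn σ.1) c σ.2.2)) _ = _
          unfold part
          rw [if_pos h'.2]
        have hlog : Complex.log (1 - (g (fs σ.1) (sn σ.1) : ℝ) / t) = lt t := by
          rw [h'.1, h'.2]
        refine TrivSqZeroExt.ext ?_ ?_
        · rw [TrivSqZeroExt.fst_sum]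
          show _ = EhT g R Z t (MvPolynomial.X σ)
          rw [hEhX, hlog]
          refine Finset.sum_congr rfl fun c _ => ?_
          rw [TrivSqZeroExt.fst_mul, TrivSqZeroExt.fst_inl, ← hyv, ← hEtX, h'.1]
          rfl
        · rw [TrivSqZeroExt.snd_sum]
          show _ = EhT g R Z t (Dv Polynomial.C Xf (MvPolynomial.X σ))
          set Yv : Fin n → ℂ := fun c => ou (y (sn σ.1, c, σ.2.2)) (t - g₀) with hYv
          have h2 : ∀ c, TrivSqZeroExt.snd (TrivSqZeroExt.inl (eP (R l₀ (sn σ.1)) (lt t) σ.2.1 c) *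
              DlH (U := U) y g₀ (X' (lt t)) t (MvPolynomial.X (sn σ.1, c, σ.2.2))) =
              eP (R l₀ (sn σ.1)) (lt t) σ.2.1 c * ∑ l, X' (lt t) (sn σ.1) c l * Yv l := by
            intro c
            rw [TrivSqZeroExt.snd_mul, TrivSqZeroExt.fst_inl, TrivSqZeroExt.snd_inl, smul_zero, add_zero, smul_eq_mul]
            congr 1
            show Et U y g₀ t (Dv (cS U) (X' (lt t)) (MvPolynomial.X (sn σ.1, c, σ.2.2))) = _
            rw [Dv_X, map_sum]
            refine Finset.sum_congr rfl fun l _ => ?_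
            rw [map_mul, hEtC, hEtX]
            rfl
          rw [Finset.sum_congr rfl fun c _ => h2 c, Dv_X, map_sum]
          have h3 : ∀ l, EhT g R Z t (MvPolynomial.C (Polynomial.C (Xf σ.1 σ.2.1 l)) * MvPolynomial.X (σ.1, l, σ.2.2)) =
              X (sn σ.1) σ.2.1 l * ∑ c, eP (R l₀ (sn σ.1)) (lt t) l c * Yv c := by
            intro l
            rw [map_mul, hEhC, hEhX, Polynomial.eval_C, hXf]
            simp only
            rw [if_pos h', hlog]
            congr 1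
            refine Finset.sum_congr rfl fun c _ => ?_
            rw [hYv]
            simp only
            rw [hyv, h'.1]
          rw [Finset.sum_congr rfl fun l _ => h3 l]
          -- matrices
          have h4 : eP (R l₀ (sn σ.1)) (lt t) * X' (lt t) (sn σ.1) = X (sn σ.1) * eP (R l₀ (sn σ.1)) (lt t) := by
            rw [hX']
            simp only
            rw [if_pos h'.2]
            have h5 := eP_inv (hR l₀ (sn σ.1)) (-lt t)
            rw [neg_neg] at h5
            rw [← Matrix.mul_assoc, ← Matrix.mul_assoc, h5, Matrix.one_mul]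
          have h5 := congrFun (congrArg (fun M => Matrix.mulVec M Yv) h4) σ.2.1
          simp only [← Matrix.mulVec_mulVec] at h5
          simpa only [Matrix.mulVec, dotProduct] using h5
      · have h' : ¬ (fs σ.1 = l₀ ∧ g l₀ (sn σ.1) = γ) := h
        rw [if_neg h, Polynomial.eval₂_C]
        refine TrivSqZeroExt.ext ?_ ?_
        · show Et U y g₀ t (MvPolynomial.C (Fσ σ)) = EhT g R Z t (MvPolynomial.X σ)
          rw [hEtC, hEhX]
          show (dite (Pr σ.1) (fun _ => (0 : An U)) (fun _ => _) : An U).1 t = _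
          rw [dif_neg h]
          show (∑ c, eP (R (fs σ.1) (sn σ.1)) (Lx g₀ (g (fs σ.1) (sn σ.1) : ℝ) t) σ.2.1 c *
            ou (cx (Z (fs σ.1) (sn σ.1) c σ.2.2)) (t - ((g (fs σ.1) (sn σ.1) : ℝ) : ℂ))) = _
          refine Finset.sum_congr rfl fun c _ => ?_
          rw [Lx_eq g₀ (hgp _ _) ht0]
        · show Et U y g₀ t (Dv (cS U) _ (MvPolynomial.C (Fσ σ))) = EhT g R Z t (Dv Polynomial.C Xf (MvPolynomial.X σ))
          rw [Dv_C, map_zero, Dv_X, map_sum, Finset.sum_eq_zero]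
          intro l _
          rw [hXf]
          simp only
          rw [if_neg h']
          show EhT g R Z t (MvPolynomial.C (Polynomial.C (0 : ℂ)) * MvPolynomial.X (σ.1, l, σ.2.2)) = 0
          rw [map_zero, map_zero, zero_mul, map_zero]
  have hfst : ∀ t ∈ Up ρ, ∀ F, EhT g R Z t F =
      ∑ ε ∈ Finset.range ((φ F).natDegree + 1), lt t ^ ε * Et U y g₀ t ((φ F).coeff ε) := by
    intro t ht F
    have h1 := RingHom.congr_fun (hΘ t ht) F
    rw [RingHom.comp_apply, Polynomial.coe_eval₂RingHom] at h1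
    rw [← dual_fst y g₀ (X' (lt t)), h1]
    rfl
  have hsnd : ∀ t ∈ Up ρ, ∀ F, EhT g R Z t (Dv Polynomial.C Xf F) =
      ∑ ε ∈ Finset.range ((φ F).natDegree + 1), lt t ^ ε * Et U y g₀ t (Dv (cS U) (X' (lt t)) ((φ F).coeff ε)) := by
    intro t ht F
    have h1 := RingHom.congr_fun (hΘ t ht) F
    rw [RingHom.comp_apply, Polynomial.coe_eval₂RingHom] at h1
    rw [← dual_snd, h1]
    rfl
  -- far away
  set G : ℝ := ∑ l, ∑ j, (g l j : ℝ) with hG
  have hG0 : 0 ≤ G := Finset.sum_nonneg fun l _ => Finset.sum_nonneg fun j _ => by positivity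
  have hgG : ∀ l j, (g l j : ℝ) ≤ G := fun l j =>
    (Finset.single_le_sum (f := fun j => (g l j : ℝ)) (fun j _ => by positivity) (Finset.mem_univ j)).trans
      (Finset.single_le_sum (f := fun l => ∑ j, (g l j : ℝ)) (fun l _ => Finset.sum_nonneg fun j _ => by positivity)
        (Finset.mem_univ l))
  set ρ₁ : ℝ := 2 ^ 3 * C * (G + 1) with hρ₁
  have hρ₁0 : 0 < ρ₁ := by positivity
  have hρ₁G : ∀ l j, (g l j : ℝ) + C ≤ ρ₁ := by
    intro l j
    have := hgG l j
    rw [hρ₁]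
    nlinarith
  have hlgm : ∀ l j, cx (lg (g l j)) ∈ Cw ρ₁ := fun l j => Cw_mono (by
    have := hρ₁G l j
    linarith) (cx_lg_mem (g l j))
  have hsfm : ∀ l j c b, cx (sf (g l j) (Z l j c b)) ∈ Cw ρ₁ := by
    intro l j c b
    refine Cw_mono ?_ (cx_mem (C := 2 ^ 3 * C * ((g l j : ℝ) + 1)) (by positivity) (sf_size hC (hsz l j c b) (g l j)))
    rw [hρ₁]
    have := hgG l j
    exact mul_le_mul_of_nonneg_left (by linarith) (by positivity)
  have hcent : ∀ σ : Fin (L * N) × Fin n × Fin n, cent (combT g R Z) σ =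
      ∑ c, eP (R (fs σ.1) (sn σ.1)) (cx (lg (g (fs σ.1) (sn σ.1)))) σ.2.1 c * cx (sf (g (fs σ.1) (sn σ.1)) (Z (fs σ.1) (sn σ.1) c σ.2.2)) := by
    intro σ
    show cx (tsf _ _ _ σ.2.1 σ.2.2) = _
    unfold tsf
    rw [Matrix.mul_apply, map_sum]
    refine Finset.sum_congr rfl fun c _ => ?_
    rw [map_mul, eP_map]
    rfl
  have hm1 : ∀ σ : Fin (L * N) × Fin n × Fin n, cent (combT g R Z) σ ∈ Cw ρ₁ := by
    intro σ
    rw [hcent]
    exact (Cw ρ₁).sum_mem fun c _ => (Cw ρ₁).mul_mem (eP_Cw (hlgm _ _) _ _) (hsfm _ _ _ _)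
  have hfar : ∀ t : ℂ, ρ₁ < ‖t‖ → ∀ F, EhT g R Z t F = ou (MvPolynomial.aeval (cent (combT g R Z)) F) t := by
    intro t ht F
    rw [ou_aeval hρ₁0.le hm1 F ht]
    unfold EhT
    congr 2
    funext σ
    rw [hcent, ou_sum hρ₁0.le _ (fun c _ => (Cw ρ₁).mul_mem (eP_Cw (hlgm _ _) _ _) (hsfm _ _ _ _)) ht]
    refine Finset.sum_congr rfl fun c _ => ?_
    have h1 := ou_shift (by linarith) (hsz (fs σ.1) (sn σ.1) c σ.2.2) (g (fs σ.1) (sn σ.1)) (t := t) (by
      have := hρ₁G (fs σ.1) (sn σ.1)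
      linarith)
    rw [ou_mul hρ₁0.le (eP_Cw (hlgm _ _) _ _) (hsfm _ _ _ _) ht, ou_eP hρ₁0.le (hlgm _ _) ht, h1, ou_lg _ (by
      have := hρ₁G (fs σ.1) (sn σ.1)
      linarith)]
    push_cast
    rfl
  -- the point
  set p : ℂ := ((ρ + ρ₁ + 1 : ℝ) : ℂ) * Complex.I with hp
  have hpn : ‖p‖ = ρ + ρ₁ + 1 := by
    rw [hp, norm_mul, Complex.norm_I, mul_one, Complex.norm_real, Real.norm_of_nonneg (by linarith)]
  have hpU : p ∈ Up ρ := by
    show ρ < p.im
    rw [hp]
    simp only [Complex.mul_im, Complex.ofReal_re, Complex.I_im, mul_one, Complex.ofReal_im, Complex.I_re, mul_zero,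
      add_zero]
    linarith
  have hev : ∀ᶠ z in 𝓝 p, ρ₁ < ‖z‖ := (isOpen_lt continuous_const continuous_norm).mem_nhds (by
    show ρ₁ < ‖p‖
    rw [hpn]
    linarith)
  have hP : ∀ t ∈ Up ρ, ∑ ε ∈ Finset.range ((φ F).natDegree + 1), Complex.log (1 - g₀ / t) ^ ε * Et U y g₀ t ((φ F).coeff ε) = 0 := by
    intro t ht
    have han : AnalyticOnNhd ℂ (fun t => ∑ ε ∈ Finset.range ((φ F).natDegree + 1),
        Complex.log (1 - g₀ / t) ^ ε * Et U y g₀ t ((φ F).coeff ε)) (Up ρ) := by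
      intro z hz
      exact Finset.analyticAt_fun_sum _ fun ε _ => ((log_an_up hρ hz hg₀0).pow _).mul (Et_an hUU hρ hymem _ z hz)
    refine AnalyticOnNhd.eqOn_zero_of_preconnected_of_eventuallyEq_zero han Up_conv.isPreconnected hpU ?_ ht
    filter_upwards [hev, Up_open.mem_nhds hpU] with z hz hz2
    have h1 := hfst z hz2 F
    rw [hfar z hz, hF, ou_zero] at h1
    rw [Pi.zero_apply, h1]
  have hco := block_log hρ hρρ hymem hD (g₀ := g₀) hUU hUb hg ((φ F).natDegree + 1) (fun ε => (φ F).coeff ε) hP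
  refine ou_inj hρ₁0.le (aeval_Cw hm1 _) (p := p) (by rw [hpn]; linarith) ?_
  filter_upwards [hev, Up_open.mem_nhds hpU] with z hz1 hz2
  rw [← hfar z hz1, hsnd z hz2]
  refine Finset.sum_eq_zero fun ε hε => ?_
  rw [Finset.mem_range] at hε
  have hblk := block hρ hρρ hymem hD (X := X' (lt z)) (fun F hF => infT_iff.1 (hX (lt z)) F hF) (g₀ := g₀)
    hUU hUb ((φ F).coeff ε) (hco ε hε)
  rw [hblk z hz2, mul_zero]

/-- **joint symmetries** -/
theorem inf_ptsN {ρ ρ' : ℝ} (hρ : 0 < ρ) (hρρ : ρ < ρ') {R : Fin L → Fin N → Matrix (Fin n) (Fin n) ℤ}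
    (hR : ∀ l j, R l j ^ n = 0) {Z : Fin L → Fin N → Matrix (Fin n) (Fin n) ℚ⟦X⟧} {C : ℝ}
    (hC : 1 ≤ C) (hsz : ∀ l j a b m, |((coeff m (Z l j a b) : ℚ) : ℝ)| ≤ C ^ (m + 1))
    (hmem : ∀ l j a b, cx (Z l j a b) ∈ Cw ρ) (g : Fin L → Fin N → ℕ) (hg : ∀ l j, ρ' < g l j)
    (hsep : ∀ l j l' j', ¬ (l = l' ∧ g l j = g l' j') → ρ + ρ' < |(g l j : ℝ) - g l' j'|)
    (hD : ∀ (l₀ : Fin L) (γ : ℕ) (δ : ℕ) (S : Set (Fin δ → Option (Fin N × Fin n × Fin n))) [Fintype S],
      (∀ G : S → Polynomial ℂ, ∑ i, (G i : PowerSeries ℂ) * wd (fun σ => cx (ent (part (g l₀) (Z l₀) γ) σ)) i.1 = 0 →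
        ∀ i, G i = 0) → Disc ρ ρ' fun b : S => wd (fun σ => cx (ent (part (g l₀) (Z l₀) γ) σ)) b.1)
    {X : Fin L → Fin N → Matrix (Fin n) (Fin n) ℂ}
    (hX : ∀ l γ, ∀ lam : ℂ, InfT (part (g l) (Z l) γ)
      (fun j => if g l j = γ then eP (R l j) (-lam) * X l j * eP (R l j) lam else 0)) :
    InfT (combT g R Z) (fun i => X (fs i) (sn i)) := by
  classical
  have hgp : ∀ l j, (0 : ℝ) < g l j := fun l j => by
    have := hg l j
    linarith
  have h1 : ∀ l, InfT (combT g R Z) (fun i => if fs i = l then X l (sn i) else 0) := by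
    intro l
    have h2 := infT_sum (Finset.univ.image (g l)) (Z := combT g R Z)
      (X := fun γ i => if fs i = l ∧ g l (sn i) = γ then X l (sn i) else 0) fun γ hγ => by
        obtain ⟨j₀, -, hj₀⟩ := Finset.mem_image.1 hγ
        refine inf_grpN hρ hρρ hR hC hsz hmem g hgp l γ ?_ ?_ (hD l γ) (hX l γ)
        · rw [← hj₀]
          exact hg l j₀
        · intro l' j' h
          rw [← hj₀]
          refine hsep l j₀ l' j' fun h3 => h ?_
          refine ⟨h3.1.symm, ?_⟩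
          rw [← hj₀, h3.2, h3.1]
    have h3 : (fun i : Fin (L * N) => ∑ γ ∈ Finset.univ.image (g l), if fs i = l ∧ g l (sn i) = γ then X l (sn i) else 0) =
        fun i => if fs i = l then X l (sn i) else 0 := by
      funext i
      by_cases h : fs i = l
      · rw [if_pos h, Finset.sum_eq_single (g l (sn i))]
        · rw [if_pos ⟨h, rfl⟩]
        · intro γ _ hγ
          rw [if_neg fun h4 => hγ h4.2.symm]
        · intro h4
          exact absurd (Finset.mem_image_of_mem _ (Finset.mem_univ _)) h4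
      · rw [if_neg h, Finset.sum_eq_zero]
        intro γ _
        rw [if_neg fun h4 => h h4.1]
    rw [h3] at h2
    exact h2
  have h4 := infT_sum (Finset.univ : Finset (Fin L)) (Z := combT g R Z) (X := fun l i => if fs i = l then X l (sn i) else 0)
    fun l _ => h1 l
  have h5 : (fun j => ∑ l, if fs j = l then X l (sn j) else 0) = fun i : Fin (L * N) => X (fs i) (sn i) := by
    funext i
    rw [Finset.sum_ite_eq, if_pos (Finset.mem_univ _)]
  rw [h5] at h4
  exact h4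

end Pool.Agent.H885
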