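import Pool.Agent.H885.Sel

/-!
# All relations between values are specialisations of functional relations, uniformly

`lift`: for a G-system with at most `N` functions and constant `C` which contains the function `1`, all linear relations
over `ℚ` between the values at `1 / t` are specialisations of functional relations, as soon as `t ≥ (2 C) ^ E`, where `E` only
depends on `N` and the degree `q` of `T`.
-/

set_option autoImplicit false

open PowerSeries Finset.HasAntidiagonal

namespace Pool.Agent.H885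

open Pool.Agent.Y113
open Pool.Agent.Y120.GH (clear ps_ne)

/-- the exponent for at most `N` functions -/
def expoM (N q : ℕ) : ℕ := ∑ N' ∈ Finset.range (N + 1), expo N' q

lemma expo_le {N' N q : ℕ} (h : N' ≤ N) : expo N' q ≤ expoM N q :=
  Finset.single_le_sum (f := fun N' => expo N' q) (fun _ _ => Nat.zero_le _) (Finset.mem_range.2 (by omega))

lemma three_le_expo (N q : ℕ) : 3 ≤ expo N q := by
  unfold expo
  simp only
  omega

lemma coeff_mul_bound {P Q : Polynomial ℤ} {A : ℝ} (hP : ∀ l, |((P.coeff l : ℤ) : ℝ)| ≤ A) (l : ℕ) :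
    |(((P * Q).coeff l : ℤ) : ℝ)| ≤ A * ∑ m ∈ Finset.range (Q.natDegree + 1), |((Q.coeff m : ℤ) : ℝ)| := by
  have hA : 0 ≤ A := (abs_nonneg _).trans (hP 0)
  rw [Polynomial.coeff_mul]
  push_cast
  refine (Finset.abs_sum_le_sum_abs _ _).trans ?_
  have h1 : ∀ p ∈ antidiagonal l, |((P.coeff p.1 : ℤ) : ℝ) * ((Q.coeff p.2 : ℤ) : ℝ)| ≤
      A * |((Q.coeff p.2 : ℤ) : ℝ)| := by
    intro p _
    rw [abs_mul]
    exact mul_le_mul_of_nonneg_right (hP _) (abs_nonneg _)
  refine (Finset.sum_le_sum h1).trans ?_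
  rw [← Finset.mul_sum]
  refine mul_le_mul_of_nonneg_left ?_ hA
  rw [Finset.Nat.sum_antidiagonal_eq_sum_range_succ (fun _ j => |((Q.coeff j : ℤ) : ℝ)|) l]
  have h2 : ∑ k ∈ Finset.range l.succ, |((Q.coeff (l - k) : ℤ) : ℝ)| = ∑ k ∈ Finset.range (l + 1), |((Q.coeff k : ℤ) : ℝ)| := by
    rw [← Finset.sum_range_reflect (fun k => |((Q.coeff k : ℤ) : ℝ)|) (l + 1)]
    refine Finset.sum_congr rfl fun k hk => ?_
    congr 3
  rw [h2]
  have h3 : ∑ k ∈ Finset.range (l + 1), |((Q.coeff k : ℤ) : ℝ)| ≤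
      ∑ k ∈ Finset.range (max (l + 1) (Q.natDegree + 1)), |((Q.coeff k : ℤ) : ℝ)| :=
    Finset.sum_le_sum_of_subset_of_nonneg (Finset.range_mono (le_max_left _ _)) fun _ _ _ => abs_nonneg _
  refine h3.trans (le_of_eq ?_)
  symm
  refine Finset.sum_subset (Finset.range_mono (le_max_right _ _)) fun k _ hk => ?_
  rw [Finset.mem_range, not_lt] at hk
  rw [Polynomial.coeff_eq_zero_of_natDegree_lt (by omega)]
  simp

/-- **All relations are specialisations of functional relations.** -/
theorem lift {ι : Type} [Fintype ι] {N q : ℕ} {C : ℝ} {T : Polynomial ℤ} {y : ι → ℚ⟦X⟧} (hcard : Fintype.card ι ≤ N)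
    (hG : GSys q C T y) (i₀ : ι) (h1 : y i₀ = 1) (t : ℕ) (ht : (2 * C) ^ expoM N q ≤ (t : ℝ))
    (hT : Polynomial.aeval (1 / (t : ℝ)) T ≠ 0) (c : ι → ℚ) (hc : ∑ i, (c i : ℝ) * ev (t : ℝ) (y i) = 0) :
    Lf (1 / (t : ℚ)) y c := by
  classical
  have hC := hG.one_le
  have hD1 : 1 ≤ 2 * C := by linarith
  have h3 : 3 ≤ expoM N q := (three_le_expo 0 q).trans (expo_le (Nat.zero_le N))
  have htC : 2 * C ≤ (t : ℝ) := by
    calc 2 * C = (2 * C) ^ 1 := (pow_one _).symm
      _ ≤ (2 * C) ^ expoM N q := pow_le_pow_right₀ hD1 (by omega)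
      _ ≤ t := ht
  have htpos : (0 : ℝ) < t := by linarith
  have htnat : 0 < t := by exact_mod_cast htpos
  have hcv : ∀ i, Cv (t : ℝ) (y i) := fun i => Cv.of_bound htpos (A := C) (B := C) (by linarith) (by linarith) (fun m => by
    rw [← pow_succ']; exact hG.size i m)
  obtain ⟨I, hI1, hI2, hI3⟩ := exists_sel (ξ := 1 / (t : ℚ)) (y := y) i₀ (by
    intro c hc h
    have h2 := hc.val htnat hcv
    rw [Finset.sum_eq_single i₀ (fun b _ hb => by rw [h b hb]; simp) (fun h => absurd (Finset.mem_univ _) h), h1,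
      ev_one, mul_one] at h2
    funext i
    by_cases hi : i = i₀
    · rw [hi]
      exact_mod_cast h2
    · exact h i hi)
  have hLI := li_sel (ξ := 1 / (t : ℚ)) (y := y) hI2
  obtain ⟨α, M, hα, hM⟩ := expr_sel (ξ := 1 / (t : ℚ)) (y := y) hI3
  -- integral coefficients
  obtain ⟨D, Q, hD, hQ⟩ := clear (I := Option (ι × I)) fun o => o.elim α fun p => M p.1 p.2
  set α' : Polynomial ℤ := Q none with hα'
  set M' : ι → I → Polynomial ℤ := fun k i => Q (some (k, i)) with hM'
  have hpsα : ps α' = PowerSeries.C (D : ℚ) * (α : ℚ⟦X⟧) := by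
    rw [ps, hα', hQ none, Polynomial.coe_mul, Polynomial.coe_C]
    rfl
  have hpsM : ∀ k i, ps (M' k i) = PowerSeries.C (D : ℚ) * (M k i : ℚ⟦X⟧) := by
    intro k i
    rw [ps, hM', hQ (some (k, i)), Polynomial.coe_mul, Polynomial.coe_C]
    rfl
  have hexp : ∀ k, ps α' * y k = ∑ i, ps (M' k i) * y i := by
    intro k
    rw [hpsα, mul_assoc, hM k, Finset.mul_sum]
    refine Finset.sum_congr rfl fun i _ => ?_
    rw [hpsM, mul_assoc]
  have hα'ne : Polynomial.aeval (1 / (t : ℝ)) α' ≠ 0 := by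
    rw [aeval_map_eval, hα', hQ none]
    simp only [Option.elim_none, Polynomial.eval_mul, Polynomial.eval_C]
    have : (D : ℚ) * α.eval (1 / (t : ℚ)) ≠ 0 := mul_ne_zero (by exact_mod_cast hD) hα
    exact_mod_cast this
  -- the adapted system
  set N' := Fintype.card I with hN'
  let e : Fin N' ≃ I := (Fintype.equivFin I).symm
  have hN'N : N' ≤ N := by
    refine le_trans ?_ hcard
    rw [hN', Fintype.card_coe]
    exact Finset.card_le_univ I
  set q₁ : ℕ := ∑ k, ∑ i, (M' k i).natDegree with hq₁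
  have hq₁le : ∀ k i, (M' k i).natDegree ≤ q₁ := by
    intro k i
    have h4 : (M' k i).natDegree ≤ ∑ i, (M' k i).natDegree :=
      Finset.single_le_sum (f := fun i => (M' k i).natDegree) (fun _ _ => Nat.zero_le _) (Finset.mem_univ i)
    have h5 : ∑ i, (M' k i).natDegree ≤ q₁ :=
      Finset.single_le_sum (f := fun k => ∑ i, (M' k i).natDegree) (fun _ _ => Nat.zero_le _) (Finset.mem_univ k)
    omega
  set nr : ι → I → ℝ := fun k i => ∑ m ∈ Finset.range ((M' k i).natDegree + 1), |(((M' k i).coeff m : ℤ) : ℝ)| with hnr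
  have hnr0 : ∀ k i, 0 ≤ nr k i := fun k i => Finset.sum_nonneg fun _ _ => abs_nonneg _
  set C₁ : ℝ := 1 + ∑ k, ∑ i, nr k i with hC₁
  have hC₁1 : 1 ≤ C₁ := by
    have : 0 ≤ ∑ k, ∑ i, nr k i := Finset.sum_nonneg fun k _ => Finset.sum_nonneg fun i _ => hnr0 k i
    linarith
  have hsys : GSysR q C T α' q₁ C₁ (fun j => y (e j)) :=
    { one_le := hC
      degT := hG.degT
      sizeT := hG.sizeT
      size := fun i m => hG.size _ m
      den := fun m => by
        obtain ⟨d, hd1, hd2, hd3⟩ := hG.den m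
        exact ⟨d, hd1, hd2, fun i => hd3 _⟩
      one_le₁ := hC₁1
      der := fun k => by
        obtain ⟨g, hg1, hg2, hg3⟩ := hG.der k
        refine ⟨g, hg1, hg2, fun s hs => ?_⟩
        obtain ⟨G, h4, h5, h6⟩ := hg3 s hs
        refine ⟨fun i j => ∑ l, G (e i) l * M' l (e j), fun i j => ?_, fun i j l => ?_, fun i => ?_⟩
        · refine Polynomial.natDegree_sum_le_of_forall_le _ _ fun l _ => ?_
          refine Polynomial.natDegree_mul_le.trans (Nat.add_le_add (h4 _ _) (hq₁le _ _))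
        · rw [Polynomial.finsetSum_coeff]
          push_cast
          refine (Finset.abs_sum_le_sum_abs _ _).trans ?_
          have h7 : ∀ l' ∈ (Finset.univ : Finset ι), |(((G (e i) l' * M' l' (e j)).coeff l : ℤ) : ℝ)| ≤
              C ^ (k + 1) * nr l' (e j) := fun l' _ => coeff_mul_bound (h5 _ _) l
          refine (Finset.sum_le_sum h7).trans ?_
          rw [← Finset.mul_sum, mul_comm]
          refine mul_le_mul_of_nonneg_right ?_ (by positivity)
          have h8 : ∑ l', nr l' (e j) ≤ ∑ l', ∑ i, nr l' i := Finset.sum_le_sum fun l' _ =>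
            Finset.single_le_sum (f := fun i => nr l' i) (fun i _ => hnr0 l' i) (Finset.mem_univ (e j))
          rw [hC₁]
          linarith
        · have h9 : (g : ℚ⟦X⟧) * (ps α' * (ps T ^ s * hd s (y (e i)))) = ps α' * ((g : ℚ⟦X⟧) * (ps T ^ s * hd s (y (e i)))) := by
            ring
          rw [h9, h6, Finset.mul_sum]
          have h10 : ∀ l, ps α' * (ps (G (e i) l) * y l) = ∑ j, ps (G (e i) l) * ps (M' l j) * y j := by
            intro l
            have : ps α' * (ps (G (e i) l) * y l) = ps (G (e i) l) * (ps α' * y l) := by ring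
            rw [this, hexp, Finset.mul_sum]
            exact Finset.sum_congr rfl fun j _ => by ring
          rw [Finset.sum_congr rfl fun l _ => h10 l, Finset.sum_comm, ← Equiv.sum_comp e]
          refine Finset.sum_congr rfl fun j _ => ?_
          rw [← Finset.sum_mul]
          congr 1
          simp only [ps, Polynomial.map_sum, Polynomial.map_mul]
          have := map_sum (Polynomial.coeToPowerSeries.ringHom (R := ℚ))
            (fun l => (G (e i) l).map (Int.castRingHom ℚ) * (M' l (e j)).map (Int.castRingHom ℚ)) Finset.univ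
          simp only [Polynomial.coeToPowerSeries.ringHom_apply, Polynomial.coe_mul] at this
          exact this.symm }
  -- the reduced relation
  choose! γ hγ1 hγ2 hγ3 using hI3
  set c' : ι → ℚ := c - ∑ j ∈ Iᶜ, c j • γ j with hc'
  have hsumLf : Lf (1 / (t : ℚ)) y (∑ j ∈ Iᶜ, c j • γ j) :=
    Lf.sum _ fun j hj => (hγ1 j (Finset.mem_compl.1 hj)).smul _
  have hc'0 : ∀ i, i ∉ I → c' i = 0 := by
    intro i hi
    rw [hc', Pi.sub_apply, Finset.sum_apply, Finset.sum_eq_single i]
    · rw [Pi.smul_apply, hγ2 i hi, smul_eq_mul, mul_one, sub_self]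
    · intro b hb hbi
      rw [Pi.smul_apply, hγ3 b (Finset.mem_compl.1 hb) i hi (Ne.symm hbi), smul_zero]
    · intro h
      exact absurd (Finset.mem_compl.2 hi) h
  have hval : ∑ i, (c' i : ℝ) * ev (t : ℝ) (y i) = 0 := by
    have h4 := hsumLf.val htnat hcv
    have h5 : ∑ i, (c' i : ℝ) * ev (t : ℝ) (y i) = ∑ i, (c i : ℝ) * ev (t : ℝ) (y i) -
        ∑ i, (((∑ j ∈ Iᶜ, c j • γ j) i : ℚ) : ℝ) * ev (t : ℝ) (y i) := by
      rw [← Finset.sum_sub_distrib]
      refine Finset.sum_congr rfl fun i _ => ?_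
      rw [hc', Pi.sub_apply]
      push_cast
      ring
    rw [h5, hc, h4, sub_zero]
  have hval' : ∑ j, ((c' (e j) : ℚ) : ℝ) * ev (t : ℝ) (y (e j)) = 0 := by
    have h4 : ∑ i, (c' i : ℝ) * ev (t : ℝ) (y i) = ∑ i ∈ I, (c' i : ℝ) * ev (t : ℝ) (y i) := by
      symm
      refine Finset.sum_subset (Finset.subset_univ I) fun i _ hi => ?_
      rw [hc'0 i hi]
      simp
    rw [h4, ← Finset.sum_coe_sort, ← Equiv.sum_comp e] at hval
    exact hval
  have hz := t_GRQ hsys (e.symm ⟨i₀, hI1⟩) (by simpa using h1) (hLI.comp e e.injective) t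
    ((pow_le_pow_right₀ hD1 (expo_le hN'N)).trans ht) hT hα'ne (fun j => c' (e j)) hval'
  have hc'z : c' = 0 := by
    funext i
    by_cases hi : i ∈ I
    · have h4 := congrFun hz (e.symm ⟨i, hi⟩)
      simpa using h4
    · exact hc'0 i hi
  have hcc : c = ∑ j ∈ Iᶜ, c j • γ j := by
    rw [hc'] at hc'z
    exact sub_eq_zero.1 hc'z
  rw [hcc]
  exact hsumLf

end Pool.Agent.H885
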