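import Pool.Agent.H885.Sys

/-!
# Restriction of power series in several variables to lines through the origin
-/

set_option autoImplicit false
set_option linter.unusedSectionVars false
set_option linter.unusedVariables false

open PowerSeries

namespace Pool.Agent.H885

open Pool.Agent.Y113

variable {m : ℕ}

/-- the exponents of degree `k` -/
def exps (m k : ℕ) : Finset (Fin m →₀ ℕ) := (Finset.univ : Finset (Fin m)).finsuppAntidiag k

lemma mem_exps {k : ℕ} {ν : Fin m →₀ ℕ} : ν ∈ exps m k ↔ ∑ i, ν i = k := by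
  unfold exps
  rw [Finset.mem_finsuppAntidiag]
  constructor
  · exact fun h => h.1
  · exact fun h => ⟨h, Finset.subset_univ _⟩

/-- the monomial `a ^ ν` -/
def pw (a : Fin m → ℤ) (ν : Fin m →₀ ℕ) : ℚ := ∏ i, (a i : ℚ) ^ ν i

lemma pw_add (a : Fin m → ℤ) (μ ν : Fin m →₀ ℕ) : pw a (μ + ν) = pw a μ * pw a ν := by
  unfold pw
  rw [← Finset.prod_mul_distrib]
  exact Finset.prod_congr rfl fun i _ => by rw [Finsupp.add_apply, pow_add]

/-- the restriction of `f` to the line through `0` and `a`, that is `f(s a)` -/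
noncomputable def line (a : Fin m → ℤ) (f : MvPowerSeries (Fin m) ℚ) : ℚ⟦X⟧ :=
  PowerSeries.mk fun k => ∑ ν ∈ exps m k, MvPowerSeries.coeff ν f * pw a ν

lemma coeff_line (a : Fin m → ℤ) (f : MvPowerSeries (Fin m) ℚ) (k : ℕ) :
    coeff k (line a f) = ∑ ν ∈ exps m k, MvPowerSeries.coeff ν f * pw a ν := by
  rw [line, coeff_mk]

lemma line_add (a : Fin m → ℤ) (f g : MvPowerSeries (Fin m) ℚ) : line a (f + g) = line a f + line a g := by
  ext k
  rw [map_add, coeff_line, coeff_line, coeff_line, ← Finset.sum_add_distrib]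
  exact Finset.sum_congr rfl fun ν _ => by rw [map_add, add_mul]

lemma line_mul (a : Fin m → ℤ) (f g : MvPowerSeries (Fin m) ℚ) : line a (f * g) = line a f * line a g := by
  classical
  ext k
  rw [coeff_line, PowerSeries.coeff_mul]
  have h1 : ∀ ν ∈ exps m k, MvPowerSeries.coeff ν (f * g) * pw a ν =
      ∑ p ∈ Finset.HasAntidiagonal.antidiagonal ν, (MvPowerSeries.coeff p.1 f * pw a p.1) * (MvPowerSeries.coeff p.2 g * pw a p.2) := by
    intro ν _
    rw [MvPowerSeries.coeff_mul, Finset.sum_mul]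
    refine Finset.sum_congr rfl fun p hp => ?_
    rw [Finset.HasAntidiagonal.mem_antidiagonal] at hp
    rw [← hp, pw_add]
    ring
  have h2 : ∀ p ∈ Finset.HasAntidiagonal.antidiagonal k, coeff p.1 (line a f) * coeff p.2 (line a g) =
      ∑ x ∈ exps m p.1 ×ˢ exps m p.2, (MvPowerSeries.coeff x.1 f * pw a x.1) * (MvPowerSeries.coeff x.2 g * pw a x.2) := by
    intro p _
    rw [coeff_line, coeff_line, Finset.sum_mul_sum, Finset.sum_product]
  rw [Finset.sum_congr rfl h1, Finset.sum_congr rfl h2, Finset.sum_sigma', Finset.sum_sigma']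
  refine Finset.sum_nbij' (fun x => ⟨(∑ i, x.2.1 i, ∑ i, x.2.2 i), x.2⟩) (fun y => ⟨y.2.1 + y.2.2, y.2⟩) ?_ ?_ ?_ ?_ ?_
  · rintro ⟨ν, p⟩ hx
    rw [Finset.mem_sigma] at hx
    simp only [Finset.mem_sigma, Finset.mem_product, mem_exps, Finset.HasAntidiagonal.mem_antidiagonal] at hx ⊢
    refine ⟨?_, trivial, trivial⟩
    rw [← hx.1, ← hx.2, ← Finset.sum_add_distrib]
    rfl
  · rintro ⟨p, x⟩ hx
    simp only [Finset.mem_sigma, Finset.mem_product, mem_exps, Finset.HasAntidiagonal.mem_antidiagonal] at hx ⊢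
    refine ⟨?_, trivial⟩
    rw [← hx.1, ← hx.2.1, ← hx.2.2, ← Finset.sum_add_distrib]
    rfl
  · rintro ⟨ν, p⟩ hx
    simp only [Finset.mem_sigma, Finset.HasAntidiagonal.mem_antidiagonal] at hx ⊢
    rw [hx.2]
  · rintro ⟨p, x⟩ hx
    simp only [Finset.mem_sigma, Finset.mem_product, mem_exps, Finset.HasAntidiagonal.mem_antidiagonal] at hx ⊢
    rw [hx.2.1, hx.2.2]
  · rintro ⟨ν, p⟩ hx
    rfl

lemma exps_zero : exps m 0 = {0} := by
  unfold exps
  exact Finset.finsuppAntidiag_zero _

lemma line_C (a : Fin m → ℤ) (c : ℚ) : line a (MvPowerSeries.C c) = PowerSeries.C c := by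
  classical
  ext k
  rw [coeff_line]
  rcases Nat.eq_zero_or_pos k with rfl | hk
  · rw [exps_zero, Finset.sum_singleton]
    unfold pw
    simp
  · rw [Finset.sum_eq_zero, PowerSeries.coeff_C, if_neg (by omega)]
    intro ν hν
    rw [mem_exps] at hν
    rw [MvPowerSeries.coeff_C, if_neg, zero_mul]
    rintro rfl
    simp at hν
    omega

lemma line_zero (a : Fin m → ℤ) : line a 0 = 0 := by
  have := line_C a 0
  simpa using this

lemma line_one (a : Fin m → ℤ) : line a 1 = 1 := by
  have := line_C a 1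
  simpa using this

/-- the ring homomorphism -/
noncomputable def lineH (a : Fin m → ℤ) : MvPowerSeries (Fin m) ℚ →+* ℚ⟦X⟧ where
  toFun := line a
  map_one' := line_one a
  map_zero' := line_zero a
  map_add' := line_add a
  map_mul' := line_mul a

lemma lineH_apply (a : Fin m → ℤ) (f : MvPowerSeries (Fin m) ℚ) : lineH a f = line a f := rfl

lemma line_X (a : Fin m → ℤ) (i : Fin m) : line a (MvPowerSeries.X i) = PowerSeries.C (a i : ℚ) * PowerSeries.X := by
  classical
  ext k
  rw [coeff_line, PowerSeries.coeff_C_mul, PowerSeries.coeff_X]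
  by_cases hk : k = 1
  · subst hk
    rw [if_pos rfl, mul_one, Finset.sum_eq_single (Finsupp.single i 1)]
    · rw [MvPowerSeries.coeff_X, if_pos rfl, one_mul]
      unfold pw
      rw [Finset.prod_eq_single i]
      · simp
      · intro j _ hj
        rw [Finsupp.single_eq_of_ne hj, pow_zero]
      · intro h
        exact absurd (Finset.mem_univ _) h
    · intro ν _ hν
      rw [MvPowerSeries.coeff_X, if_neg hν, zero_mul]
    · intro h
      exfalso
      apply h
      rw [mem_exps, Finset.sum_eq_single i]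
      · simp
      · intro j _ hj
        rw [Finsupp.single_eq_of_ne hj]
      · intro h
        exact absurd (Finset.mem_univ _) h
  · rw [if_neg hk, mul_zero, Finset.sum_eq_zero]
    intro ν hν
    rw [mem_exps] at hν
    rw [MvPowerSeries.coeff_X, if_neg, zero_mul]
    rintro rfl
    apply hk
    rw [← hν, Finset.sum_eq_single i]
    · simp
    · intro j _ hj
      rw [Finsupp.single_eq_of_ne hj]
    · intro h
      exact absurd (Finset.mem_univ _) h

/-- formal partial derivatives -/
noncomputable def pdv (i : Fin m) (f : MvPowerSeries (Fin m) ℚ) : MvPowerSeries (Fin m) ℚ :=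
  fun ν => ((ν i : ℚ) + 1) * MvPowerSeries.coeff (ν + Finsupp.single i 1) f

lemma coeff_pdv (i : Fin m) (f : MvPowerSeries (Fin m) ℚ) (ν : Fin m →₀ ℕ) :
    MvPowerSeries.coeff ν (pdv i f) = ((ν i : ℚ) + 1) * MvPowerSeries.coeff (ν + Finsupp.single i 1) f := rfl

lemma pw_single (a : Fin m → ℤ) (i : Fin m) : pw a (Finsupp.single i 1) = a i := by
  unfold pw
  rw [Finset.prod_eq_single i]
  · simp
  · intro j _ hj
    rw [Finsupp.single_eq_of_ne hj, pow_zero]
  · intro h
    exact absurd (Finset.mem_univ _) h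

lemma sum_single (i : Fin m) : ∑ j, (Finsupp.single i 1 : Fin m →₀ ℕ) j = 1 := by
  rw [Finset.sum_eq_single i]
  · simp
  · intro j _ hj
    rw [Finsupp.single_eq_of_ne hj]
  · intro h
    exact absurd (Finset.mem_univ _) h

/-- the chain rule -/
lemma deriv_line (a : Fin m → ℤ) (f : MvPowerSeries (Fin m) ℚ) :
    d⁄dX ℚ (line a f) = ∑ i, PowerSeries.C (a i : ℚ) * line a (pdv i f) := by
  classical
  ext k
  rw [PowerSeries.coeff_derivative, map_sum, coeff_line, Finset.sum_mul]
  have h1 : ∀ ν ∈ exps m (k + 1), MvPowerSeries.coeff ν f * pw a ν * ((k : ℚ) + 1) =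
      ∑ i, (ν i : ℚ) * (MvPowerSeries.coeff ν f * pw a ν) := by
    intro ν hν
    rw [mem_exps] at hν
    rw [← Finset.sum_mul]
    have : ((k : ℚ) + 1) = ∑ i, (ν i : ℚ) := by
      exact_mod_cast hν.symm
    rw [this]
    ring
  rw [Finset.sum_congr rfl h1, Finset.sum_comm]
  refine Finset.sum_congr rfl fun i _ => ?_
  rw [PowerSeries.coeff_C_mul, coeff_line, Finset.mul_sum]
  have h2 : ∑ ν ∈ exps m (k + 1), (ν i : ℚ) * (MvPowerSeries.coeff ν f * pw a ν) =
      ∑ ν ∈ (exps m (k + 1)).filter (fun ν => 0 < ν i), (ν i : ℚ) * (MvPowerSeries.coeff ν f * pw a ν) := by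
    symm
    refine Finset.sum_subset (Finset.filter_subset _ _) fun ν hν hν' => ?_
    have : ν i = 0 := by
      by_contra h
      exact hν' (Finset.mem_filter.2 ⟨hν, Nat.pos_of_ne_zero h⟩)
    rw [this]
    simp
  rw [h2]
  refine Finset.sum_nbij' (fun ν => ν - Finsupp.single i 1) (fun μ => μ + Finsupp.single i 1) ?_ ?_ ?_ ?_ ?_
  · intro ν hν
    rw [Finset.mem_filter, mem_exps] at hν
    rw [mem_exps]
    have h3 : ν = (ν - Finsupp.single i 1) + Finsupp.single i 1 := by
      rw [tsub_add_cancel_of_le]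
      rw [Finsupp.single_le_iff]
      omega
    have h4 : ∑ j, ν j = ∑ j, (ν - Finsupp.single i 1 : Fin m →₀ ℕ) j + 1 := by
      conv_lhs => rw [h3]
      simp only [Finsupp.add_apply, Finset.sum_add_distrib, sum_single]
    omega
  · intro μ hμ
    rw [mem_exps] at hμ
    rw [Finset.mem_filter, mem_exps]
    constructor
    · simp only [Finsupp.add_apply, Finset.sum_add_distrib, sum_single, hμ]
    · simp only [Finsupp.add_apply, Finsupp.single_eq_same]
      omega
  · intro ν hν
    rw [Finset.mem_filter] at hν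
    rw [tsub_add_cancel_of_le]
    rw [Finsupp.single_le_iff]
    omega
  · intro μ _
    rw [add_tsub_cancel_right]
  · intro ν hν
    rw [Finset.mem_filter] at hν
    have h3 : (ν - Finsupp.single i 1) + Finsupp.single i 1 = ν := by
      rw [tsub_add_cancel_of_le]
      rw [Finsupp.single_le_iff]
      omega
    rw [coeff_pdv, h3]
    have h4 : pw a ν = pw a (ν - Finsupp.single i 1) * a i := by
      rw [← pw_single a i, ← pw_add, h3]
    have h5 : (((ν - Finsupp.single i 1 : Fin m →₀ ℕ) i : ℕ) : ℚ) + 1 = ν i := by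
      have h6 : (ν - Finsupp.single i 1 : Fin m →₀ ℕ) i = ν i - 1 := by
        rw [Finsupp.tsub_apply, Finsupp.single_eq_same]
      rw [h6, Nat.cast_sub (by omega)]
      push_cast
      ring
    rw [h5, h4]
    ring

end Pool.Agent.H885
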