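import Pool.Agent.H885.Base
import Mathlib.NumberTheory.NumberField.House

/-!
# Restriction of scalars: matrices of power series over number fields
-/

set_option autoImplicit false
set_option linter.unusedSectionVars false
set_option linter.unusedVariables false

open PowerSeries NumberField Module

namespace Pool.Agent.H885

open Pool.Agent.Y113
open Pool.Agent.Y120.GH (L1)

section basis
variable (F : Type) [Field F] [NumberField F]

/-- the degree -/
noncomputable abbrev dg : ℕ := finrank ℚ F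

theorem dg_card : Fintype.card (Fin (dg F)) = Fintype.card (Free.ChooseBasisIndex ℤ (𝓞 F)) := by
  rw [Fintype.card_fin, ← finrank_eq_card_chooseBasisIndex, RingOfIntegers.rank]

/-- the numbering of the basis -/
noncomputable def nb : Fin (dg F) ≃ Free.ChooseBasisIndex ℤ (𝓞 F) := Fintype.equivOfCardEq (dg_card F)

/-- the integral basis -/
noncomputable def B₀ : Basis (Fin (dg F)) ℤ (𝓞 F) := (RingOfIntegers.basis F).reindex (nb F).symm

/-- the integral basis -/
noncomputable def BB : Basis (Fin (dg F)) ℚ F := (integralBasis F).reindex (nb F).symm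

theorem BB_apply (i : Fin (dg F)) : BB F i = algebraMap (𝓞 F) F (B₀ F i) := by
  unfold BB B₀
  rw [Basis.reindex_apply, Basis.reindex_apply, integralBasis_apply]

theorem BB_repr (x : 𝓞 F) (i : Fin (dg F)) : (BB F).repr (algebraMap (𝓞 F) F x) i = (((B₀ F).repr x i : ℤ) : ℚ) := by
  unfold BB B₀
  rw [Basis.repr_reindex, Basis.repr_reindex, Finsupp.mapDomain_equiv_apply, Finsupp.mapDomain_equiv_apply,
    integralBasis_repr_apply]
  rfl

/-- the coordinates are bounded -/
theorem repr_bound : ∃ c : ℝ, 1 ≤ c ∧ ∀ (y : F) (i : Fin (dg F)), |(((BB F).repr y i : ℚ) : ℝ)| ≤ c * house y := by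
  classical
  obtain ⟨c, hc⟩ : ∃ c : ℝ, ∀ (α : 𝓞 F) (i : F →+* ℂ), ‖(((integralBasis F).reindex (equivReindex F).symm).repr α i : ℂ)‖ ≤
      c * house (algebraMap (𝓞 F) F α) := ⟨_, NumberField.house.basis_repr_norm_le_const_mul_house F⟩
  refine ⟨max c 1, le_max_right _ _, fun y i => ?_⟩
  obtain ⟨⟨d, hd0, hd⟩, hd1⟩ : ∃ d : {d : ℕ // d ≠ 0 ∧ IsIntegral ℤ ((d : F) * y)}, True := by
    obtain ⟨z, hz0, hz⟩ := ((IsFractionRing.isAlgebraic_iff ℤ ℚ F).2
      (Algebra.IsAlgebraic.isAlgebraic (R := ℚ) y)).exists_integral_multiple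
    refine ⟨⟨z.natAbs, Int.natAbs_ne_zero.2 hz0, ?_⟩, trivial⟩
    rcases Int.natAbs_eq z with h | h
    · have h1 : ((z.natAbs : ℕ) : F) = (z : F) :=
        (Int.cast_natCast (R := F) z.natAbs).symm.trans (congrArg (Int.cast : ℤ → F) h).symm
      rw [h1, ← zsmul_eq_mul]
      exact hz
    · have h1 : ((z.natAbs : ℕ) : F) = -(z : F) := by
        have h2 : (z : F) = ((-((z.natAbs : ℕ) : ℤ) : ℤ) : F) := congrArg (Int.cast : ℤ → F) h
        rw [h2, Int.cast_neg, neg_neg, Int.cast_natCast]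
      rw [h1, neg_mul, ← zsmul_eq_mul]
      exact hz.neg
  have hd0' : (0 : ℝ) < d := by
    exact_mod_cast Nat.pos_of_ne_zero hd0
  obtain ⟨α, hα⟩ : ∃ α : 𝓞 F, algebraMap (𝓞 F) F α = (d : F) * y := ⟨⟨_, hd⟩, rfl⟩
  have h1 := hc α ((equivReindex F).symm ((nb F) i))
  rw [Basis.repr_reindex, Finsupp.mapDomain_equiv_apply, Equiv.symm_symm, Equiv.apply_symm_apply, hα, house_nat_mul] at h1
  have h3 : ((α : 𝓞 F) : F) = (d : F) * y := hα
  have h4 : (integralBasis F).repr ((d : F) * y) (nb F i) = (d : ℚ) * (BB F).repr y i := by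
    have h5 : (d : F) * y = (d : ℚ) • y := by
      rw [Rat.smul_def]
      push_cast
      rfl
    unfold BB
    rw [h5, map_smul, Finsupp.smul_apply, smul_eq_mul, Basis.repr_reindex, Finsupp.mapDomain_equiv_apply, Equiv.symm_symm]
  rw [h3, h4] at h1
  push_cast at h1
  rw [norm_mul, Complex.norm_natCast] at h1
  have h6 : ‖(((BB F).repr y i : ℚ) : ℂ)‖ = |(((BB F).repr y i : ℚ) : ℝ)| := by
    rw [← Complex.ofReal_ratCast, Complex.norm_real, Real.norm_eq_abs]
  rw [h6] at h1
  have h7 : |(((BB F).repr y i : ℚ) : ℝ)| ≤ c * house y := by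
    have h8 : (d : ℝ) * |(((BB F).repr y i : ℚ) : ℝ)| ≤ d * (c * house y) := by linarith
    exact le_of_mul_le_mul_left h8 hd0'
  exact h7.trans (mul_le_mul_of_nonneg_right (le_max_left _ _) (house_nonneg _))

/-- the regular representation -/
noncomputable def MF : F →+* Matrix (Fin (dg F)) (Fin (dg F)) ℚ := (Algebra.leftMulMatrix (BB F)).toRingHom

/-- the regular representation of the integers -/
noncomputable def MO : 𝓞 F →+* Matrix (Fin (dg F)) (Fin (dg F)) ℤ := (Algebra.leftMulMatrix (B₀ F)).toRingHom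

theorem MF_apply (x : F) (i j : Fin (dg F)) : MF F x i j = (BB F).repr (x * BB F j) i :=
  Algebra.leftMulMatrix_eq_repr_mul _ _ _ _

theorem MO_apply (x : 𝓞 F) (i j : Fin (dg F)) : MO F x i j = (B₀ F).repr (x * B₀ F j) i :=
  Algebra.leftMulMatrix_eq_repr_mul _ _ _ _

theorem MF_MO (x : 𝓞 F) (i j : Fin (dg F)) : MF F (algebraMap (𝓞 F) F x) i j = ((MO F x i j : ℤ) : ℚ) := by
  rw [MF_apply, MO_apply, BB_apply, ← map_mul, BB_repr]

theorem MF_smul (q : ℚ) (x : F) : MF F (q • x) = q • MF F x := by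
  show Algebra.leftMulMatrix (BB F) (q • x) = q • Algebra.leftMulMatrix (BB F) x
  rw [map_smul]

theorem MF_bound : ∃ c : ℝ, 1 ≤ c ∧ ∀ (x : F) (i j : Fin (dg F)), |((MF F x i j : ℚ) : ℝ)| ≤ c * house x := by
  obtain ⟨c, hc1, hc⟩ := repr_bound F
  have h0 : ∀ j, 0 ≤ house (BB F j) := fun j => house_nonneg _
  refine ⟨c * (1 + ∑ j, house (BB F j)), ?_, fun x i j => ?_⟩
  · have : 0 ≤ ∑ j, house (BB F j) := Finset.sum_nonneg fun j _ => h0 j
    nlinarith
  · rw [MF_apply]
    refine (hc _ _).trans ?_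
    rw [mul_assoc]
    refine mul_le_mul_of_nonneg_left ?_ (by linarith)
    refine (house_mul_le _ _).trans ?_
    rw [mul_comm]
    refine mul_le_mul_of_nonneg_right ?_ (house_nonneg _)
    have := Finset.single_le_sum (f := fun j => house (BB F j)) (fun j _ => h0 j) (Finset.mem_univ j)
    linarith

/-- the basis under the embeddings -/
noncomputable def Om : Matrix (F →+* ℂ) (Fin (dg F)) ℂ := fun ψ i => ψ (BB F i)

theorem Om_MF (ψ : F →+* ℂ) (x : F) (j : Fin (dg F)) : ∑ i, Om F ψ i * ((MF F x i j : ℚ) : ℂ) = ψ x * Om F ψ j := by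
  have h1 : ∑ i, (MF F x i j) • BB F i = x * BB F j := by
    rw [← (BB F).sum_repr (x * BB F j)]
    exact Finset.sum_congr rfl fun i _ => by rw [MF_apply]
  have h2 := congrArg ψ h1
  rw [map_sum, map_mul] at h2
  refine Eq.trans (Finset.sum_congr rfl fun i _ => ?_) h2
  rw [Rat.smul_def, map_mul, map_ratCast, mul_comm]
  rfl

/-- the basis is independent over the embeddings -/
theorem Om_inv : ∃ Θ : Matrix (Fin (dg F)) (F →+* ℂ) ℂ, (∀ i j, ∑ ψ, Θ i ψ * Om F ψ j = if i = j then 1 else 0) ∧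
    (∀ ψ, ∑ i, Om F ψ i * Θ i ψ = 1) ∧ ∀ ψ ψ', ψ ≠ ψ' → ∑ i, Om F ψ i * Θ i ψ' = 0 := by
  classical
  suffices hs : ∃ Θ : Matrix (Fin (dg F)) (F →+* ℂ) ℂ, (∀ i j, ∑ ψ, Θ i ψ * Om F ψ j = if i = j then 1 else 0) ∧
      ∀ ψ ψ', ∑ i, Om F ψ i * Θ i ψ' = if ψ = ψ' then 1 else 0 by
    obtain ⟨Θ, h1, h2⟩ := hs
    refine ⟨Θ, h1, fun ψ => ?_, fun ψ ψ' h => ?_⟩
    · rw [h2, if_pos rfl]
    · rw [h2, if_neg h]
  have h1 := det_of_basisMatrix_non_zero F
  set A := (basisMatrix F) with hA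
  have h2 : IsUnit A.det := isUnit_iff_ne_zero.2 h1
  have hAB : ∀ (i : F →+* ℂ) ψ, A i ψ = Om F ψ ((nb F).symm (equivReindex F i)) := by
    intro i ψ
    show canonicalEmbedding.latticeBasis F (equivReindex F i) ψ = _
    rw [canonicalEmbedding.latticeBasis_apply]
    unfold Om BB
    rw [Basis.reindex_apply, Equiv.symm_symm, Equiv.apply_symm_apply]
    rfl
  refine ⟨fun i ψ => A⁻¹ ψ ((equivReindex F).symm (nb F i)), fun i j => ?_, fun ψ ψ' => ?_⟩
  · have h3 := congrFun (congrFun (Matrix.mul_nonsing_inv A h2) ((equivReindex F).symm (nb F j))) ((equivReindex F).symm (nb F i))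
    rw [Matrix.mul_apply] at h3
    have h4 : ∀ ψ, A⁻¹ ψ ((equivReindex F).symm (nb F i)) * Om F ψ j =
        A ((equivReindex F).symm (nb F j)) ψ * A⁻¹ ψ ((equivReindex F).symm (nb F i)) := by
      intro ψ
      rw [hAB, Equiv.apply_symm_apply, Equiv.symm_apply_apply, mul_comm]
    rw [Finset.sum_congr rfl fun ψ _ => h4 ψ, h3, Matrix.one_apply]
    by_cases h : i = j
    · subst h
      rw [if_pos rfl, if_pos rfl]
    · rw [if_neg h, if_neg]
      intro h5
      exact h ((nb F).injective ((equivReindex F).symm.injective h5.symm))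
  · have h3 := congrFun (congrFun (Matrix.nonsing_inv_mul A h2) ψ') ψ
    rw [Matrix.mul_apply] at h3
    have h4 : ∑ i, Om F ψ i * A⁻¹ ψ' ((equivReindex F).symm (nb F i)) = ∑ χ, A⁻¹ ψ' χ * A χ ψ := by
      refine Fintype.sum_equiv ((nb F).trans (equivReindex F).symm) _ _ fun i => ?_
      rw [hAB, Equiv.trans_apply, Equiv.apply_symm_apply, Equiv.symm_apply_apply, mul_comm]
    rw [h4, h3, Matrix.one_apply]
    simp only [eq_comm]

end basis

section series
variable {F : Type} [Field F] [NumberField F]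

/-- the regular representation of power series -/
noncomputable def RS (f : F⟦X⟧) : Matrix (Fin (dg F)) (Fin (dg F)) ℚ⟦X⟧ := fun i j =>
  PowerSeries.mk fun k => MF F (coeff k f) i j

theorem coeff_RS (f : F⟦X⟧) (i j : Fin (dg F)) (k : ℕ) : coeff k (RS f i j) = MF F (coeff k f) i j := by
  unfold RS
  rw [coeff_mk]

theorem RS_mul (f g : F⟦X⟧) : RS (f * g) = RS f * RS g := by
  ext i j k
  rw [coeff_RS, PowerSeries.coeff_mul, map_sum, Matrix.sum_apply, Matrix.mul_apply, map_sum]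
  simp only [PowerSeries.coeff_mul, coeff_RS]
  rw [Finset.sum_comm]
  refine Finset.sum_congr rfl fun p _ => ?_
  rw [map_mul, Matrix.mul_apply]

theorem RS_add (f g : F⟦X⟧) : RS (f + g) = RS f + RS g := by
  ext i j k
  rw [coeff_RS, map_add, map_add, Matrix.add_apply, Matrix.add_apply, map_add, coeff_RS, coeff_RS]

theorem RS_zero : RS (0 : F⟦X⟧) = 0 := by
  ext i j k
  rw [coeff_RS, map_zero, map_zero, Matrix.zero_apply, Matrix.zero_apply, map_zero]

theorem RS_one : RS (1 : F⟦X⟧) = 1 := by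
  ext i j k
  rw [coeff_RS, PowerSeries.coeff_one, Matrix.one_apply]
  by_cases hij : i = j
  · subst hij
    rw [if_pos rfl, PowerSeries.coeff_one]
    split_ifs
    · rw [map_one, Matrix.one_apply, if_pos rfl]
    · rw [map_zero, Matrix.zero_apply]
  · rw [if_neg hij, map_zero]
    split_ifs
    · rw [map_one, Matrix.one_apply, if_neg hij]
    · rw [map_zero, Matrix.zero_apply]

theorem RS_sum {κ : Type} (s : Finset κ) (f : κ → F⟦X⟧) : RS (∑ i ∈ s, f i) = ∑ i ∈ s, RS (f i) := by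
  classical
  induction s using Finset.induction_on with
  | empty => rw [Finset.sum_empty, Finset.sum_empty, RS_zero]
  | insert i s hi ih => rw [Finset.sum_insert hi, Finset.sum_insert hi, RS_add, ih]

theorem RS_der (f : F⟦X⟧) (i j : Fin (dg F)) : RS (d⁄dX F f) i j = d⁄dX ℚ (RS f i j) := by
  ext k
  rw [coeff_RS, PowerSeries.coeff_derivative, PowerSeries.coeff_derivative, coeff_RS]
  have h1 : coeff (k + 1) f * ((k : F) + 1) = ((k : ℚ) + 1) • coeff (k + 1) f := by
    rw [Rat.smul_def]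
    push_cast
    ring
  rw [h1, MF_smul, Matrix.smul_apply, smul_eq_mul, mul_comm]

/-- polynomials with integral coefficients as power series -/
noncomputable def toF (P : Polynomial (𝓞 F)) : F⟦X⟧ := ((P.map (algebraMap (𝓞 F) F) : Polynomial F) : F⟦X⟧)

theorem coeff_toF (P : Polynomial (𝓞 F)) (k : ℕ) : coeff k (toF P) = algebraMap (𝓞 F) F (P.coeff k) := by
  unfold toF
  rw [Polynomial.coeff_coe, Polynomial.coeff_map]

/-- the regular representation of polynomials -/
noncomputable def RP (P : Polynomial (𝓞 F)) : Matrix (Fin (dg F)) (Fin (dg F)) (Polynomial ℤ) := fun i j =>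
  ∑ k ∈ Finset.range (P.natDegree + 1), Polynomial.monomial k (MO F (P.coeff k) i j)

theorem coeff_RP (P : Polynomial (𝓞 F)) (i j : Fin (dg F)) (k : ℕ) : (RP P i j).coeff k = MO F (P.coeff k) i j := by
  unfold RP
  rw [Polynomial.finsetSum_coeff]
  simp only [Polynomial.coeff_monomial]
  rw [Finset.sum_ite_eq']
  split_ifs with h
  · rfl
  · rw [Finset.mem_range, not_lt] at h
    rw [Polynomial.coeff_eq_zero_of_natDegree_lt (by omega), map_zero, Matrix.zero_apply]

theorem RP_deg (P : Polynomial (𝓞 F)) (i j : Fin (dg F)) : (RP P i j).natDegree ≤ P.natDegree := by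
  rw [Polynomial.natDegree_le_iff_coeff_eq_zero]
  intro k hk
  rw [coeff_RP, Polynomial.coeff_eq_zero_of_natDegree_lt hk, map_zero, Matrix.zero_apply]

theorem ps_RP (P : Polynomial (𝓞 F)) (i j : Fin (dg F)) : ps (RP P i j) = RS (toF P) i j := by
  ext k
  rw [coeff_RS, coeff_toF, MF_MO, ← coeff_RP]
  unfold ps
  rw [Polynomial.coeff_coe, Polynomial.coeff_map]
  rfl

theorem RP_L1 : ∃ c : ℝ, 1 ≤ c ∧ ∀ (q : ℕ) (H : ℝ) (P : Polynomial (𝓞 F)), P.natDegree ≤ q →
    (∀ k, house (algebraMap (𝓞 F) F (P.coeff k)) ≤ H) → ∀ i j, L1 q (((q : ℝ) + 1) * (c * H)) (RP P i j) := by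
  obtain ⟨c, hc1, hc⟩ := MF_bound F
  refine ⟨c, hc1, fun q H P hq hH i j => ?_⟩
  refine Pool.Agent.Y120.GH.L1.ofBd ⟨(RP_deg P i j).trans hq, fun k => ?_⟩
  rw [coeff_RP]
  have h1 := hc (algebraMap (𝓞 F) F (P.coeff k)) i j
  rw [MF_MO] at h1
  push_cast at h1
  exact h1.trans (mul_le_mul_of_nonneg_left (hH k) (by linarith))

/-- the determinant of the representation of a nonzero polynomial -/
theorem det_RP_ne {P : Polynomial (𝓞 F)} (hP : P ≠ 0) : (RP P).det ≠ 0 := by
  classical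
  obtain ⟨t, ht⟩ : ∃ t : ℤ, P.eval (t : 𝓞 F) ≠ 0 := by
    by_contra hcon
    push Not at hcon
    have hinf : Set.Infinite {x : 𝓞 F | P.IsRoot x} := by
      refine (Set.infinite_range_of_injective (f := fun t : ℤ => (t : 𝓞 F)) Int.cast_injective).mono ?_
      rintro _ ⟨t, rfl⟩
      exact hcon t
    exact hP (Polynomial.eq_zero_of_infinite_isRoot _ hinf)
  intro h0
  have h1 : (RP P).map (Polynomial.evalRingHom t) = MO F (P.eval (t : 𝓞 F)) := by
    ext i j
    rw [Matrix.map_apply, Polynomial.coe_evalRingHom, Polynomial.eval_eq_sum_range' (lt_of_le_of_lt (RP_deg P i j) (Nat.lt_succ_self _)),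
      Polynomial.eval_eq_sum_range, map_sum, Matrix.sum_apply]
    refine Finset.sum_congr rfl fun k _ => ?_
    rw [coeff_RP, map_mul, map_pow, map_intCast, ← Int.cast_pow]
    have h2 : MO F (P.coeff k) * ((t ^ k : ℤ) : Matrix (Fin (dg F)) (Fin (dg F)) ℤ) = (t ^ k : ℤ) • MO F (P.coeff k) := by
      rw [zsmul_eq_mul, Int.cast_comm]
    rw [h2, Matrix.smul_apply, smul_eq_mul, mul_comm]
  have h2 : (MO F (P.eval (t : 𝓞 F))).det = 0 := by
    rw [← h1, ← RingHom.mapMatrix_apply, ← RingHom.map_det, h0, map_zero]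
  have h3 : (MO F (P.eval (t : 𝓞 F))).det = Algebra.norm ℤ (P.eval (t : 𝓞 F)) := by
    rw [Algebra.norm_eq_matrix_det (B₀ F)]
    rfl
  rw [h3, Algebra.norm_eq_zero_iff] at h2
  exact ht h2

end series

end Pool.Agent.H885
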