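import Pool.Agent.H885.NF1

/-!
# Restriction of scalars for systems over number fields
-/

set_option autoImplicit false
set_option linter.unusedSectionVars false
set_option linter.unusedVariables false

open PowerSeries NumberField Module

namespace Pool.Agent.H885

open Pool.Agent.Y113
open Pool.Agent.Y120.GH (L1)

variable {F : Type} [Field F] [NumberField F] {n : ℕ}

/-- fundamental matrices of G-functions over a number field -/
structure FamF (q : ℕ) (H : ℝ) (T : Polynomial (𝓞 F)) (A : Fin n → Fin n → Polynomial (𝓞 F))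
    (Z W : Matrix (Fin n) (Fin n) F⟦X⟧) : Prop where
  T_ne : T ≠ 0
  degT : T.natDegree ≤ q
  sizeT : ∀ k, house (algebraMap (𝓞 F) F (T.coeff k)) ≤ H
  degA : ∀ a b, (A a b).natDegree ≤ q
  sizeA : ∀ a b k, house (algebraMap (𝓞 F) F ((A a b).coeff k)) ≤ H
  ode : ∀ a b, toF T * d⁄dX F (Z a b) = ∑ l, Z a l * toF (A l b)
  inv : W * Z = 1
  size : ∀ a b k, house (coeff k (Z a b)) ≤ H ^ (k + 1)
  den : ∀ k : ℕ, ∃ d : ℕ, 0 < d ∧ (d : ℝ) ≤ H ^ (k + 1) ∧ ∀ a b l, l ≤ k →
    IsIntegral ℤ ((d : F) * coeff l (Z a b)) ∧ IsIntegral ℤ ((d : F) * coeff l (W a b))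

/-- the restriction of scalars of a matrix -/
noncomputable def rsM (Z : Matrix (Fin n) (Fin n) F⟦X⟧) : Matrix (Fin (n * dg F)) (Fin (n * dg F)) ℚ⟦X⟧ := fun i j =>
  RS (Z (finProdFinEquiv.symm i).1 (finProdFinEquiv.symm j).1) (finProdFinEquiv.symm i).2 (finProdFinEquiv.symm j).2

theorem sum_pq {M : Type} [AddCommMonoid M] (f : Fin n × Fin (dg F) → M) :
    ∑ i : Fin (n * dg F), f (finProdFinEquiv.symm i) = ∑ c, ∑ υ, f (c, υ) := by
  rw [Equiv.sum_comp finProdFinEquiv.symm f, Fintype.sum_prod_type]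

theorem rsM_mul (Z W : Matrix (Fin n) (Fin n) F⟦X⟧) : rsM (Z * W) = rsM Z * rsM W := by
  ext1 i j
  rw [Matrix.mul_apply]
  unfold rsM
  rw [sum_pq (F := F) (fun l : Fin n × Fin (dg F) => RS (Z (finProdFinEquiv.symm i).1 l.1) (finProdFinEquiv.symm i).2 l.2 *
    RS (W l.1 (finProdFinEquiv.symm j).1) l.2 (finProdFinEquiv.symm j).2)]
  rw [Matrix.mul_apply, RS_sum, Matrix.sum_apply]
  refine Finset.sum_congr rfl fun c _ => ?_
  rw [RS_mul, Matrix.mul_apply]

theorem rsM_one : rsM (1 : Matrix (Fin n) (Fin n) F⟦X⟧) = 1 := by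
  ext1 i j
  unfold rsM
  rw [Matrix.one_apply, Matrix.one_apply]
  by_cases h : (finProdFinEquiv.symm i).1 = (finProdFinEquiv.symm j).1
  · rw [if_pos h, RS_one, Matrix.one_apply]
    by_cases h2 : (finProdFinEquiv.symm i).2 = (finProdFinEquiv.symm j).2
    · rw [if_pos h2, if_pos (finProdFinEquiv.symm.injective (Prod.ext h h2))]
    · rw [if_neg h2, if_neg (fun h3 => h2 (by rw [h3]))]
  · rw [if_neg h, RS_zero, if_neg (fun h3 => h (by rw [h3])), Matrix.zero_apply]

/-- the ring homomorphism -/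
noncomputable def psH : Polynomial ℤ →+* ℚ⟦X⟧ :=
  (Polynomial.coeToPowerSeries.ringHom).comp (Polynomial.mapRingHom (Int.castRingHom ℚ))

theorem psH_apply (P : Polynomial ℤ) : psH P = ps P := rfl

theorem psH_RP (P : Polynomial (𝓞 F)) : (RP P).map psH = RS (toF P) := by
  ext1 i j
  rw [Matrix.map_apply, psH_apply, ps_RP]

section adj
variable (T : Polynomial (𝓞 F))

/-- the adjugate -/
noncomputable def AdT : Matrix (Fin (dg F)) (Fin (dg F)) ℚ⟦X⟧ := (RP T).adjugate.map psH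

theorem AdT_mul : AdT T * RS (toF T) = psH (RP T).det • (1 : Matrix (Fin (dg F)) (Fin (dg F)) ℚ⟦X⟧) := by
  unfold AdT
  rw [← psH_RP, ← Matrix.map_mul, Matrix.adjugate_mul, Matrix.map_smul' _ _ _ (map_mul psH), Matrix.map_one _ (map_zero _) (map_one _)]

theorem mul_AdT : RS (toF T) * AdT T = psH (RP T).det • (1 : Matrix (Fin (dg F)) (Fin (dg F)) ℚ⟦X⟧) := by
  unfold AdT
  rw [← psH_RP, ← Matrix.map_mul, Matrix.mul_adjugate, Matrix.map_smul' _ _ _ (map_mul psH), Matrix.map_one _ (map_zero _) (map_one _)]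

theorem psH_ne {P : Polynomial ℤ} (hP : P ≠ 0) : psH P ≠ 0 := by
  intro h
  apply hP
  ext k
  have h1 := congrArg (coeff k) h
  rw [psH_apply] at h1
  unfold ps at h1
  rw [Polynomial.coeff_coe, Polynomial.coeff_map, map_zero] at h1
  rw [Polynomial.coeff_zero]
  have h2 : (((P.coeff k : ℤ)) : ℚ) = 0 := h1
  exact_mod_cast h2

theorem AdT_comm (hT : T ≠ 0) (f : F⟦X⟧) : AdT T * RS f = RS f * AdT T := by
  have h0 := psH_ne (det_RP_ne hT)
  have h1 : RS (toF T) * RS f = RS f * RS (toF T) := by rw [← RS_mul, ← RS_mul, mul_comm]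
  have h2 : psH (RP T).det • (AdT T * RS f) = psH (RP T).det • (RS f * AdT T) := by
    calc psH (RP T).det • (AdT T * RS f) = AdT T * RS f * (psH (RP T).det • (1 : Matrix (Fin (dg F)) (Fin (dg F)) ℚ⟦X⟧)) := by
          rw [Matrix.mul_smul, Matrix.mul_one]
      _ = AdT T * (RS f * RS (toF T)) * AdT T := by
          rw [← mul_AdT]
          simp only [Matrix.mul_assoc]
      _ = AdT T * RS (toF T) * (RS f * AdT T) := by
          rw [← h1]
          simp only [Matrix.mul_assoc]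
      _ = _ := by rw [AdT_mul, Matrix.smul_mul, Matrix.one_mul]
  ext1 i j
  have h3 := congrFun (congrFun h2 i) j
  rw [Matrix.smul_apply, Matrix.smul_apply, smul_eq_mul, smul_eq_mul] at h3
  exact mul_left_cancel₀ h0 h3

end adj

theorem L1_neg {q : ℕ} {y : ℝ} {P : Polynomial ℤ} (h : L1 q y P) : L1 q y (-P) := by
  have h1 := h.C_mul (-1) (B := 1) (by simp)
  rw [one_mul] at h1
  simpa using h1

theorem L1_det {d q : ℕ} {y : ℝ} {M : Matrix (Fin d) (Fin d) (Polynomial ℤ)} (h : ∀ i j, L1 q y (M i j)) :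
    L1 (q * d) (d.factorial * y ^ d) M.det := by
  classical
  rw [Matrix.det_apply]
  have h1 : ∀ σ ∈ (Finset.univ : Finset (Equiv.Perm (Fin d))), L1 (q * d) (y ^ d) (Equiv.Perm.sign σ • ∏ i, M (σ i) i) := by
    intro σ _
    have h2 : ∀ s : Finset (Fin d), L1 (q * s.card) (y ^ s.card) (∏ i ∈ s, M (σ i) i) := by
      intro s
      induction s using Finset.induction_on with
      | empty => simpa using Pool.Agent.Y120.GH.L1.one
      | insert j s hj ih =>
        rw [Finset.prod_insert hj, Finset.card_insert_of_notMem hj]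
        refine ((h _ _).mul ih).mono ?_ ?_
        · ring_nf
          omega
        · rw [pow_succ, mul_comm]
    have h3 := h2 Finset.univ
    rw [Finset.card_univ, Fintype.card_fin] at h3
    rcases Int.units_eq_one_or (Equiv.Perm.sign σ) with h4 | h4
    · rw [h4, one_smul]
      exact h3
    · rw [h4, Units.neg_smul, one_smul]
      exact L1_neg h3
  refine (Pool.Agent.Y120.GH.L1.sum _ h1).mono le_rfl (le_of_eq ?_)
  rw [Finset.sum_const, Finset.card_univ, Fintype.card_perm, Fintype.card_fin, nsmul_eq_mul]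

theorem L1_adj {d q : ℕ} {y : ℝ} (hy : 1 ≤ y) {M : Matrix (Fin d) (Fin d) (Polynomial ℤ)} (h : ∀ i j, L1 q y (M i j)) (i j : Fin d) :
    L1 (q * d) (d.factorial * y ^ d) (M.adjugate i j) := by
  classical
  rw [Matrix.adjugate_apply]
  refine L1_det fun a b => ?_
  rw [Matrix.updateRow_apply]
  split_ifs
  · rw [Pi.single_apply]
    split_ifs
    · exact Pool.Agent.Y120.GH.L1.one.mono (Nat.zero_le _) hy
    · exact Pool.Agent.Y120.GH.L1.zero.mono le_rfl (by linarith)
  · exact h a b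

/-- the matrix of the restriction of scalars -/
noncomputable def BRP (T : Polynomial (𝓞 F)) (A : Fin n → Fin n → Polynomial (𝓞 F)) (i j : Fin (n * dg F)) : Polynomial ℤ :=
  ∑ υ, (RP T).adjugate (finProdFinEquiv.symm i).2 υ *
    RP (A (finProdFinEquiv.symm i).1 (finProdFinEquiv.symm j).1) υ (finProdFinEquiv.symm j).2

/-- **Restriction of scalars of a system.** -/
theorem sysF (F : Type) [Field F] [NumberField F] (n q : ℕ) : ∃ q' E₀ : ℕ, ∀ (H : ℝ), 1 ≤ H → ∀ (T : Polynomial (𝓞 F))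
    (A : Fin n → Fin n → Polynomial (𝓞 F)) (Z W : Matrix (Fin n) (Fin n) F⟦X⟧), FamF q H T A Z W →
    (RP T).det ≠ 0 ∧ Sys (N := 1) q' ((2 * H) ^ E₀) (RP T).det (fun _ => BRP T A) (fun _ => rsM Z) (fun _ => rsM W) := by
  classical
  obtain ⟨c₁, hc₁, hL⟩ := RP_L1 (F := F)
  obtain ⟨c₂, hc₂, hM⟩ := MF_bound F
  set d := dg F with hd
  set y₀ : ℝ := ((q : ℝ) + 1) * c₁ with hy₀
  have hq0 : (0 : ℝ) ≤ q := by positivity
  have hy₀1 : 1 ≤ y₀ := by
    rw [hy₀]
    nlinarith
  have hfac : (1 : ℝ) ≤ d.factorial := by exact_mod_cast Nat.one_le_iff_ne_zero.2 (Nat.factorial_ne_zero d)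
  have hd0 : (0 : ℝ) ≤ d := by positivity
  set K : ℝ := (d + 1) * (d.factorial * y₀ ^ (d + 1)) with hK
  have hpow : (1 : ℝ) ≤ y₀ ^ (d + 1) := one_le_pow₀ hy₀1
  have hfp : 1 ≤ d.factorial * y₀ ^ (d + 1) := by nlinarith
  have hK1 : 1 ≤ K := by
    rw [hK]
    nlinarith
  obtain ⟨e₁, he₁⟩ := pow_absorb hK1
  obtain ⟨e₂, he₂⟩ := pow_absorb hc₂
  refine ⟨q * (d + 1), e₁ + e₂ + (d + 1), fun H hH T A Z W hF => ⟨det_RP_ne hF.T_ne, ?_⟩⟩
  have h2H : 2 ≤ 2 * H := by linarith
  have h1H : 1 ≤ 2 * H := by linarith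
  set E₀ := e₁ + e₂ + (d + 1) with hE₀
  set y : ℝ := y₀ * H with hy
  have hy1 : 1 ≤ y := by
    rw [hy]
    nlinarith
  have hLT : ∀ i j, L1 q y (RP T i j) := fun i j => (hL q H T hF.degT hF.sizeT i j).mono le_rfl (by
    rw [hy, hy₀]
    exact le_of_eq (by ring))
  have hLA : ∀ a b i j, L1 q y (RP (A a b) i j) := fun a b i j => (hL q H (A a b) (hF.degA a b) (hF.sizeA a b) i j).mono le_rfl (by
    rw [hy, hy₀]
    exact le_of_eq (by ring))
  have hbig : (d + 1) * (d.factorial * y ^ (d + 1)) ≤ (2 * H) ^ E₀ := by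
    calc (d + 1) * (d.factorial * y ^ (d + 1)) = K * H ^ (d + 1) := by
          rw [hK, hy, mul_pow]
          ring
      _ ≤ (2 * H) ^ e₁ * (2 * H) ^ (d + 1) := by
          refine mul_le_mul (he₁ _ h2H) (pow_le_pow_left₀ (by linarith) (by linarith) _) (by positivity) (by positivity)
      _ = (2 * H) ^ (e₁ + (d + 1)) := (pow_add _ _ _).symm
      _ ≤ (2 * H) ^ E₀ := pow_le_pow_right₀ h1H (by omega)
  have hyd : y ^ d ≤ y ^ (d + 1) := pow_le_pow_right₀ hy1 (by omega)
  have hdet : L1 (q * (d + 1)) ((2 * H) ^ E₀) (RP T).det := by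
    refine (L1_det hLT).mono (Nat.mul_le_mul_left _ (by omega)) (le_trans ?_ hbig)
    have h1 : d.factorial * y ^ d ≤ d.factorial * y ^ (d + 1) := mul_le_mul_of_nonneg_left hyd (by linarith)
    have h2 : 0 ≤ d.factorial * y ^ (d + 1) := by positivity
    nlinarith
  have hB : ∀ i j, L1 (q * (d + 1)) ((2 * H) ^ E₀) (BRP T A i j) := by
    intro i j
    unfold BRP
    have h1 := Pool.Agent.Y120.GH.L1.sum (Finset.univ : Finset (Fin d)) (f := fun υ => (RP T).adjugate (finProdFinEquiv.symm i).2 υ *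
      RP (A (finProdFinEquiv.symm i).1 (finProdFinEquiv.symm j).1) υ (finProdFinEquiv.symm j).2)
      (fun υ _ => (L1_adj hy1 hLT (finProdFinEquiv.symm i).2 υ).mul (hLA _ _ υ (finProdFinEquiv.symm j).2))
    refine h1.mono (le_of_eq (by ring)) (le_trans ?_ hbig)
    rw [Finset.sum_const, Finset.card_univ, Fintype.card_fin, nsmul_eq_mul]
    have h2 : 0 ≤ d.factorial * y ^ (d + 1) := by positivity
    have h3 : (d : ℝ) * (d.factorial * y ^ d * y) = d * (d.factorial * y ^ (d + 1)) := by rw [pow_succ]; ring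
    rw [h3]
    nlinarith
  have hc2H : c₂ ≤ (2 * H) ^ e₂ := he₂ _ h2H
  refine ⟨one_le_pow₀ h1H, hdet.1, hdet.coeff_le, fun _ a b => (hB a b).1, fun _ a b => (hB a b).coeff_le, fun _ i j => ?_,
    fun _ => ?_, fun _ i j k => ?_, fun k => ?_⟩
  · -- the differential equation
    have h1 : psH (RP T).det • RS (d⁄dX F (Z (finProdFinEquiv.symm i).1 (finProdFinEquiv.symm j).1)) =
        ∑ c, RS (Z (finProdFinEquiv.symm i).1 c) * (AdT T * RS (toF (A c (finProdFinEquiv.symm j).1))) := by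
      have h2 : psH (RP T).det • RS (d⁄dX F (Z (finProdFinEquiv.symm i).1 (finProdFinEquiv.symm j).1)) =
          AdT T * (RS (toF T) * RS (d⁄dX F (Z (finProdFinEquiv.symm i).1 (finProdFinEquiv.symm j).1))) := by
        rw [← Matrix.mul_assoc, AdT_mul, Matrix.smul_mul, Matrix.one_mul]
      rw [h2, ← RS_mul, hF.ode, RS_sum, Finset.mul_sum]
      refine Finset.sum_congr rfl fun c _ => ?_
      rw [RS_mul, ← Matrix.mul_assoc, AdT_comm T hF.T_ne, Matrix.mul_assoc]
    have h3 := congrFun (congrFun h1 (finProdFinEquiv.symm i).2) (finProdFinEquiv.symm j).2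
    rw [Matrix.smul_apply, smul_eq_mul, RS_der, psH_apply] at h3
    refine h3.trans ?_
    rw [Matrix.sum_apply]
    unfold rsM
    refine Eq.trans ?_ (sum_pq (F := F) (fun p : Fin n × Fin (dg F) =>
          RS (Z (finProdFinEquiv.symm i).1 p.1) (finProdFinEquiv.symm i).2 p.2 * ps (∑ υ, (RP T).adjugate p.2 υ *
          RP (A p.1 (finProdFinEquiv.symm j).1) υ (finProdFinEquiv.symm j).2))).symm
    refine Finset.sum_congr rfl fun c _ => ?_
    rw [Matrix.mul_apply]
    refine Finset.sum_congr rfl fun σ _ => ?_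
    congr 1
    rw [← psH_apply, map_sum, Matrix.mul_apply]
    refine Finset.sum_congr rfl fun υ _ => ?_
    rw [map_mul, psH_apply, psH_apply, ps_RP]
    rfl
  · rw [← rsM_mul, hF.inv, rsM_one]
  · unfold rsM
    rw [coeff_RS]
    refine (hM _ _ _).trans ?_
    have h1 := hF.size (finProdFinEquiv.symm i).1 (finProdFinEquiv.symm j).1 k
    have h2 : c₂ * H ^ (k + 1) ≤ ((2 * H) ^ e₂) ^ (k + 1) * (2 * H) ^ (k + 1) := by
      refine mul_le_mul ?_ (pow_le_pow_left₀ (by linarith) (by linarith) _) (by positivity) (by positivity)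
      exact hc2H.trans (le_self_pow₀ (one_le_pow₀ h1H) (by omega))
    refine (mul_le_mul_of_nonneg_left h1 (by linarith)).trans (h2.trans ?_)
    rw [← mul_pow, ← pow_succ]
    refine pow_le_pow_left₀ (by positivity) (pow_le_pow_right₀ h1H (by omega)) _
  · obtain ⟨D, hD0, hD1, hD2⟩ := hF.den k
    refine ⟨D, hD0, hD1.trans (pow_le_pow_left₀ (by linarith) ?_ _), fun _ i j => ?_⟩
    · calc H ≤ 2 * H := by linarith
        _ ≤ (2 * H) ^ E₀ := le_self_pow₀ h1H (by omega)
    · have key : ∀ (f : F⟦X⟧) (l : ℕ), IsIntegral ℤ ((D : F) * coeff l f) → ∀ σ τ, ∃ z : ℤ, (D : ℚ) * coeff l (RS f σ τ) = z := by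
        intro f l hf σ τ
        obtain ⟨α, hα⟩ : ∃ α : 𝓞 F, algebraMap (𝓞 F) F α = (D : F) * coeff l f := ⟨⟨_, hf⟩, rfl⟩
        refine ⟨MO F α σ τ, ?_⟩
        rw [← MF_MO, hα, coeff_RS]
        have h5 : (D : F) * coeff l f = (D : ℚ) • coeff l f := by
          rw [Rat.smul_def]
          push_cast
          rfl
        rw [h5, MF_smul, Matrix.smul_apply, smul_eq_mul]
      exact ⟨fun l hl => key _ l (hD2 _ _ l hl).1 _ _, fun l hl => key _ l (hD2 _ _ l hl).2 _ _⟩

end Pool.Agent.H885
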