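import Pool.Agent.H885.OrbU
import Pool.Graph.R_seed8.H135R2.VS.Der

/-!
# Derivations of the complex numbers and the known relations between periods
-/

set_option autoImplicit false
set_option linter.unusedSectionVars false
set_option linter.unusedVariables false

open Matrix Module Filter

namespace Pool.Agent.H885

open Pool.Agent.Helper880_R3 hiding core final
open Pool.Agent.Helper880_LF.NB hiding alg_core
open Pool.Agent.Y118.UL (mk mk_eq mk_eq_zero mk_ne_zero mk_surj ev_ge eval_mk rep qc qc_mk algebraMap_eq U)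

/-- the chain rule for polynomials with coefficients which are killed -/
theorem der_eval {k Ω ι : Type} [Field k] [Field Ω] [Algebra k Ω] [Fintype ι] {δ : Derivation k Ω Ω}
    {F : MvPolynomial ι Ω} (hF : ∀ ν, δ (F.coeff ν) = 0) (y : ι → Ω) :
    δ (MvPolynomial.eval y F) = ∑ i, MvPolynomial.eval y (MvPolynomial.pderiv i F) * δ (y i) := by
  classical
  let K : Subfield Ω := kerD δ
  let Q : MvPolynomial ι K := ∑ ν ∈ F.support, MvPolynomial.monomial ν ⟨F.coeff ν, hF ν⟩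
  have hQ : MvPolynomial.map (algebraMap K Ω) Q = F := by
    show MvPolynomial.map (algebraMap K Ω) (∑ ν ∈ F.support, _) = F
    rw [map_sum]
    conv_rhs => rw [MvPolynomial.as_sum F]
    refine Finset.sum_congr rfl fun ν _ => ?_
    rw [MvPolynomial.map_monomial]
    rfl
  have hev : ∀ R : MvPolynomial ι K, MvPolynomial.aeval y R = MvPolynomial.eval y (MvPolynomial.map (algebraMap K Ω) R) := by
    intro R
    rw [MvPolynomial.eval_map, MvPolynomial.aeval_def]
  have h1 := der_aeval (δ := δ) (K := K) (fun x hx => hx) Q y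
  rw [hev, hQ] at h1
  rw [h1]
  refine Finset.sum_congr rfl fun i _ => ?_
  rw [hev, ← MvPolynomial.pderiv_map, hQ]

theorem der_isAlgebraic {u : ℕ} {η : Fin u → ℂ} {δ : Derivation ℚ ℂ ℂ} (hη : ∀ i, δ (η i) = 0) {x : ℂ}
    (hx : IsAlgebraic (IntermediateField.adjoin ℚ (Set.range η)) x) : δ x = 0 := by
  refine ker_adj (RingHom.id ℂ) (δ := δ) (s := Set.range η) ?_ hx
  rintro _ ⟨i, rfl⟩
  exact hη i

variable {n N a : ℕ}

/-- the value of a product of powers -/
theorem der_prod {δ : Derivation ℚ ℂ ℂ} {θ : Fin a → ℂ} {i : Fin a} (h1 : δ (θ i) = 2 * θ i) (h2 : ∀ j, j ≠ i → δ (θ j) = 0)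
    (d : Fin a → ℕ) : δ (∏ j, θ j ^ d j) = 2 * d i * ∏ j, θ j ^ d j := by
  classical
  rw [← Finset.mul_prod_erase Finset.univ _ (Finset.mem_univ i), δ.leibniz, smul_eq_mul, smul_eq_mul, δ.leibniz_pow]
  have h3 : δ (∏ x ∈ Finset.univ.erase i, θ x ^ d x) = 0 := by
    have h4 : (∏ x ∈ Finset.univ.erase i, θ x ^ d x) ∈ kerD δ := by
      refine (kerD δ).prod_mem fun x hx => (kerD δ).pow_mem ?_ _
      exact h2 x (Finset.ne_of_mem_erase hx)
    exact h4
  rw [h3, h1, mul_zero, zero_add, smul_eq_mul, nsmul_eq_mul]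
  rcases Nat.eq_zero_or_pos (d i) with h | h
  · rw [h]
    simp
  · have h5 : θ i ^ d i = θ i ^ (d i - 1) * θ i := by
      rw [← pow_succ]
      congr 1
      omega
    rw [h5]
    ring

/-- **The known relations**: `F(P)² = ∏ θ^d q` with algebraic `q` for weighted homogeneous `F`. -/
structure KnownRel {u : ℕ} (η : Fin u → ℂ) (θ : Fin a → ℂ) (v : Fin a → Fin N → ℕ)
    (ℱ : Set (MvPolynomial (Fin N × Fin n × Fin n) ℂ)) (P : Fin N → Matrix (Fin n) (Fin n) ℂ) : Prop where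
  alg : ∀ F ∈ ℱ, ∀ ν, IsAlgebraic (IntermediateField.adjoin ℚ (Set.range η)) (F.coeff ν)
  val : ∀ F ∈ ℱ, ∃ d : Fin a → ℕ, (∀ i, F.IsWeightedHomogeneous (fun σ => v i σ.1) (d i)) ∧
    ∃ q : ℂ, IsAlgebraic (IntermediateField.adjoin ℚ (Set.range η)) q ∧
      (MvPolynomial.eval (fun σ => P σ.1 σ.2.1 σ.2.2) F) ^ 2 = (∏ i, θ i ^ d i) * q

/-- **a derivation which moves the periods in the direction of the torus** -/
theorem exists_tor {u : ℕ} {η : Fin u → ℂ} {θ : Fin a → ℂ}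
    (hθ : AlgebraicIndependent (IntermediateField.adjoin ℚ (Set.range η)) θ) {P : Fin N → Matrix (Fin n) (Fin n) ℂ}
    (hP : ∀ j, IsUnit (P j).det) {v : Fin a → Fin N → ℕ} {ℱ : Set (MvPolynomial (Fin N × Fin n × Fin n) ℂ)}
    (hR : KnownRel η θ v ℱ P) (i : Fin a) :
    ∃ (δ : Derivation ℚ ℂ ℂ) (Y : Fin N → Matrix (Fin n) (Fin n) ℂ), (∀ j, δ (η j) = 0) ∧
      (∀ F ∈ ℱ, MvPolynomial.eval (fun σ => P σ.1 σ.2.1 σ.2.2) (DVT Y F) = 0) ∧
      ∀ j, dm δ (P j) = (v i j : ℂ) • P j + Y j * P j := by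
  classical
  obtain ⟨D, hD⟩ := Pool.Agent.H135R2.VS.exists_der hθ (fun j => if j = i then 2 * θ i else 0)
  set δ : Derivation ℚ ℂ ℂ := D.restrictScalars ℚ with hδD
  have hδ : ∀ j, δ (θ j) = if j = i then 2 * θ i else 0 := hD
  have hη : ∀ j, δ (η j) = 0 := fun j =>
    D.map_algebraMap (⟨η j, IntermediateField.subset_adjoin ℚ _ ⟨j, rfl⟩⟩ : IntermediateField.adjoin ℚ (Set.range η))
  have h1 : δ (θ i) = 2 * θ i := by rw [hδ, if_pos rfl]
  have h2 : ∀ j, j ≠ i → δ (θ j) = 0 := fun j hj => by rw [hδ, if_neg hj]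
  refine ⟨δ, fun j => dm δ (P j) * (P j)⁻¹ - (v i j : ℂ) • 1, hη, ?_, ?_⟩
  · intro F hF
    obtain ⟨d, hd, q, hq, hqF⟩ := hR.val F hF
    set f := MvPolynomial.eval (fun σ => P σ.1 σ.2.1 σ.2.2) F with hf
    have h3 : δ f = d i * f := by
      have h4 := congrArg δ hqF
      rw [δ.leibniz, der_isAlgebraic hη hq, smul_zero, zero_add, smul_eq_mul, der_prod h1 h2, δ.leibniz_pow, smul_eq_mul,
        nsmul_eq_mul] at h4
      have h5 : f * (δ f - d i * f) = 0 := by
        have h6 : f ^ (2 - 1) = f := by norm_num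
        rw [h6] at h4
        push_cast at h4
        linear_combination (1 / 2 : ℂ) * h4 - (d i : ℂ) * hqF
      rcases mul_eq_zero.1 h5 with h6 | h6
      · rw [h6, map_zero, mul_zero]
      · exact sub_eq_zero.1 h6
    rw [der_eval (fun ν => der_isAlgebraic hη (hR.alg F hF ν))] at h3
    rw [eval_DVT]
    have h4 := congrArg (MvPolynomial.eval fun σ : Fin N × Fin n × Fin n => P σ.1 σ.2.1 σ.2.2) (hd i).sum_weight_X_mul_pderiv
    rw [map_sum, map_nsmul, nsmul_eq_mul] at h4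
    have h5 : ∀ σ : Fin N × Fin n × Fin n, MvPolynomial.eval (fun σ => P σ.1 σ.2.1 σ.2.2) (MvPolynomial.pderiv σ F) *
        ((dm δ (P σ.1) * (P σ.1)⁻¹ - (v i σ.1 : ℂ) • 1) * P σ.1) σ.2.1 σ.2.2 =
        MvPolynomial.eval (fun σ => P σ.1 σ.2.1 σ.2.2) (MvPolynomial.pderiv σ F) * δ (P σ.1 σ.2.1 σ.2.2) -
        MvPolynomial.eval (fun σ => P σ.1 σ.2.1 σ.2.2) (v i σ.1 • (MvPolynomial.X σ * MvPolynomial.pderiv σ F)) := by
      intro σ
      rw [Matrix.sub_mul, Matrix.nonsing_inv_mul_cancel_right _ _ (hP σ.1), Matrix.smul_mul, Matrix.one_mul,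
        Matrix.sub_apply, Matrix.smul_apply, map_nsmul, map_mul, MvPolynomial.eval_X, nsmul_eq_mul, smul_eq_mul]
      have h6 : dm δ (P σ.1) σ.2.1 σ.2.2 = δ (P σ.1 σ.2.1 σ.2.2) := rfl
      rw [h6]
      ring
    rw [Finset.sum_congr rfl fun σ _ => h5 σ, Finset.sum_sub_distrib, h3, h4]
    ring
  · intro j
    rw [Matrix.sub_mul, Matrix.nonsing_inv_mul_cancel_right _ _ (hP j), Matrix.smul_mul, Matrix.one_mul]
    abel

section uder

/-- the ultraproduct of derivations -/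
noncomputable def uder (δ : ℕ → Derivation ℚ ℂ ℂ) : Derivation (U ℚ) (U ℂ) (U ℂ) := by
  have hmk : ∀ f g : ℕ → ℂ, mk ℂ f = mk ℂ g → mk ℂ (fun k => δ k (f k)) = mk ℂ fun k => δ k (g k) := by
    intro f g h
    refine mk_eq.2 ?_
    filter_upwards [mk_eq.1 h] with k hk
    rw [hk]
  let r : U ℂ → ℕ → ℂ := fun x => (mk_surj x).choose
  have hr : ∀ x, mk ℂ (r x) = x := fun x => (mk_surj x).choose_spec
  have hT : ∀ f : ℕ → ℂ, mk ℂ (fun k => δ k (r (mk ℂ f) k)) = mk ℂ fun k => δ k (f k) := fun f => hmk _ _ (hr _)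
  exact Derivation.mk'
    { toFun := fun x => mk ℂ fun k => δ k (r x k)
      map_add' := by
        intro x y
        obtain ⟨f, rfl⟩ := mk_surj x
        obtain ⟨g, rfl⟩ := mk_surj y
        rw [← map_add, hT, hT, hT, ← map_add]
        congr 1
        funext k
        simp
      map_smul' := by
        intro c x
        obtain ⟨c, rfl⟩ := mk_surj c
        obtain ⟨f, rfl⟩ := mk_surj x
        have h1 : mk ℚ c • mk ℂ f = mk ℂ fun k => (c k : ℂ) * f k := by
          rw [Algebra.smul_def, algebraMap_eq, qc_mk, ← map_mul]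
          rfl
        rw [h1, hT, RingHom.id_apply, hT, Algebra.smul_def, algebraMap_eq, qc_mk, ← map_mul]
        congr 1
        funext k
        have h2 : (c k : ℂ) * f k = c k • f k := (Rat.smul_def _ _).symm
        rw [h2, (δ k).map_smul, Rat.smul_def]
        rfl }
    (by
      intro x y
      obtain ⟨f, rfl⟩ := mk_surj x
      obtain ⟨g, rfl⟩ := mk_surj y
      show mk ℂ (fun k => δ k (r (mk ℂ f * mk ℂ g) k)) = mk ℂ f • mk ℂ (fun k => δ k (r (mk ℂ g) k)) +
        mk ℂ g • mk ℂ (fun k => δ k (r (mk ℂ f) k))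
      rw [← map_mul, hT, hT, hT, smul_eq_mul, smul_eq_mul, ← map_mul, ← map_mul, ← map_add]
      congr 1
      funext k
      rw [Pi.mul_apply, (δ k).leibniz]
      rfl)

theorem uder_mk (δ : ℕ → Derivation ℚ ℂ ℂ) (f : ℕ → ℂ) : uder δ (mk ℂ f) = mk ℂ fun k => δ k (f k) := by
  unfold uder
  show mk ℂ (fun k => δ k ((mk_surj (mk ℂ f)).choose k)) = _
  refine mk_eq.2 ?_
  filter_upwards [mk_eq.1 (mk_surj (mk ℂ f)).choose_spec] with k hk
  rw [hk]

end uder

end Pool.Agent.H885
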