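import Pool.Agent.H885.UnifO
import Pool.Agent.H885.Tor

/-!
# The sum of the defects with respect to the Mumford-Tate group
-/

set_option autoImplicit false
set_option linter.unusedSectionVars false
set_option linter.unusedVariables false

open Matrix Module Filter PowerSeries

namespace Pool.Agent.H885

open Pool.Agent.Y113 (ev Cv GSys ps)
open Pool.Agent.Y118.HV (Hv hh)
open Pool.Agent.Y120.GH (cx cx_mem Cw sf ou_shift ou_ev)
open Pool.Agent.Helper880_R3 hiding core final
open Pool.Agent.Helper880_LF.NB hiding alg_core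
open Pool.Agent.Y118.UL (mk mk_eq mk_eq_zero mk_ne_zero mk_surj ev_ge eval_mk rep qc qc_mk U)

variable {n N L s ℓ a u : ℕ}

section lin
variable {F E : Type} [Field F] [AddCommGroup E] [Module F E] [FiniteDimensional F E]

/-- adding independent vectors modulo a subspace -/
theorem finrank_add {W V T : Submodule F E} (hWV : W ≤ V) (hWT : W ≤ T) {u : Fin a → E} (huT : ∀ i, u i ∈ T)
    (hu : ∀ c : Fin a → F, ∑ i, c i • u i ∈ V → c = 0) : finrank F W + a ≤ finrank F T := by
  let f : (Fin a → F) →ₗ[F] T :=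
    { toFun := fun c => ⟨∑ i, c i • u i, Submodule.sum_mem _ fun i _ => Submodule.smul_mem _ _ (huT i)⟩
      map_add' := by
        intro c c'
        apply Subtype.ext
        show ∑ i, (c i + c' i) • u i = ∑ i, c i • u i + ∑ i, c' i • u i
        rw [← Finset.sum_add_distrib]
        exact Finset.sum_congr rfl fun i _ => add_smul _ _ _
      map_smul' := by
        intro r c
        apply Subtype.ext
        show ∑ i, (r * c i) • u i = r • ∑ i, c i • u i
        rw [Finset.smul_sum]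
        exact Finset.sum_congr rfl fun i _ => mul_smul _ _ _ }
  let g : W × (Fin a → F) →ₗ[F] T := (Submodule.inclusion hWT).coprod f
  have hg : Function.Injective g := by
    rw [← LinearMap.ker_eq_bot, LinearMap.ker_eq_bot']
    rintro ⟨w, c⟩ h
    have h1 : (w : E) + ∑ i, c i • u i = 0 := congrArg Subtype.val h
    have h2 : c = 0 := by
      refine hu c ?_
      rw [eq_neg_of_add_eq_zero_right h1]
      exact V.neg_mem (hWV w.2)
    subst h2
    have h3 : (w : E) = 0 := by
      simpa using h1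
    exact Prod.ext (Subtype.ext h3) rfl
  have h1 := LinearMap.finrank_le_finrank_of_injective hg
  rwa [Module.finrank_prod, Module.finrank_fin_fun] at h1

/-- comparison of the images of a subspace -/
theorem map_finrank_le {V E' : Type} [AddCommGroup V] [Module F V] [AddCommGroup E'] [Module F E'] [FiniteDimensional F E']
    (𝒦 : Submodule F V) (f : V →ₗ[F] E) (g : V →ₗ[F] E') (h : ∀ x ∈ 𝒦, g x = 0 → f x = 0) :
    finrank F (𝒦.map f) ≤ finrank F (𝒦.map g) := by
  let R : 𝒦 →ₗ[F] E' := g.comp 𝒦.subtype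
  let T : 𝒦 →ₗ[F] E := f.comp 𝒦.subtype
  have hker : LinearMap.ker R.rangeRestrict ≤ LinearMap.ker T := by
    intro x hx
    rw [LinearMap.mem_ker] at hx ⊢
    exact h x.1 x.2 (congrArg Subtype.val hx)
  have h2 := (rank_le R.rangeRestrict T hker).2
  have h3 : LinearMap.range T = 𝒦.map f := by
    rw [LinearMap.range_comp, Submodule.range_subtype]
  have h4 : LinearMap.range R = 𝒦.map g := by
    rw [LinearMap.range_comp, Submodule.range_subtype]
  rw [h3] at h2
  rw [← h4]
  exact h2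

end lin

/-- the data for several tuples of points with the known relations -/
structure DatM (L n N s ℓ a u : ℕ) extends DatD L n N s ℓ where
  η : Fin L → Fin u → ℂ
  θ : Fin L → Fin a → ℂ
  v : Fin L → Fin a → Fin N → ℕ
  ℱ : Fin L → Set (MvPolynomial (Fin N × Fin n × Fin n) ℂ)

/-- the period matrices -/
noncomputable def DatM.P (d : DatM L n N s ℓ a u) (l : Fin L) (j : Fin N) : Matrix (Fin n) (Fin n) ℂ :=
  d.C l j * Hv (d.Z l j) (d.b l j)

/-- the conditions -/
structure DatM.OK (q e : ℕ) (d₀ : Fin L → ℕ) (E : ℕ) (d : DatM L n N s ℓ a u) : Prop where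
  base : d.toDatD.OKS q e d₀ E
  eta : ∀ l i, AlgD e (Fin.append d.bs (d.cs l)) (d.η l i)
  ind : ∀ l, AlgebraicIndependent (IntermediateField.adjoin ℚ (Set.range (d.η l))) (d.θ l)
  known : ∀ l, KnownRel (d.η l) (d.θ l) (d.v l) (d.ℱ l) (d.P l)
  tan : ∀ l, 0 < a → ∀ Y : Fin N → Matrix (Fin n) (Fin n) ℂ,
    (∀ F ∈ d.ℱ l, MvPolynomial.eval (fun σ => d.P l σ.1 σ.2.1 σ.2.2) (DVT Y F) = 0) →
    (fun j => (d.C l j)⁻¹ * Y j * d.C l j) ∈ d.𝔤 l
  tor : ∀ l, ∀ c : Fin a → ℂ, (fun j => (∑ i, c i * d.v l i j) • (1 : Matrix (Fin n) (Fin n) ℂ)) ∈ d.𝔤 l → c = 0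

/-- **The sum of the defects of separated tuples is bounded, absolute version.** -/
theorem uniformM (n N q s ℓ a u e δ L : ℕ) (d₀ : Fin L → ℕ) : ∃ E : ℕ, ∀ d : DatM L n N s ℓ a u,
    d.OK q e d₀ E → ∃ ρ : Fin L → ℕ, ∑ l, ρ l ≤ s ∧ ∀ l, TrD (d₀ l + a - (ρ l + ℓ)) e δ (d.η l) (d.P l) := by
  classical
  by_contra hcon
  simp only [not_exists] at hcon
  have h1 : ∀ k : ℕ, ∃ d : DatM L n N s ℓ a u, d.OK q e d₀ k ∧
      ∀ ρ : Fin L → ℕ, ∑ l, ρ l ≤ s → ∃ l, ¬ TrD (d₀ l + a - (ρ l + ℓ)) e δ (d.η l) (d.P l) := by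
    intro k
    have h2 := hcon k
    push Not at h2
    obtain ⟨d, hd1, hd2⟩ := h2
    exact ⟨d, hd1, fun ρ hρ => hd2 ρ hρ⟩
  choose d hd hbad using h1
  set z : ℕ → Fin L → Fin N → Matrix (Fin n) (Fin n) ℂ := fun k l j => Hv ((d k).Z l j) ((d k).b l j) with hz
  have hdet : ∀ k l j, ((d k).C l j).det ≠ 0 ∧ (z k l j).det ≠ 0 := by
    intro k l j
    have h1 := ((Matrix.isUnit_iff_isUnit_det _).1 ((hd k).base.det l j)).ne_zero
    rw [Matrix.det_mul] at h1
    exact ⟨left_ne_zero_of_mul h1, right_ne_zero_of_mul h1⟩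
  -- the derivations
  have hder : ∀ l, ∀ F : ℕ → Fin N → Matrix (Fin n) (Fin n) ℂ, (∀ k, F k ∈ (d k).𝔤 l) →
      ∃ δ : Derivation (U ℚ) (U ℂ) (U ℂ), (∀ j, dm δ (gm fun k => z k l j) = gm fun k => F k j * z k l j) ∧
      ∀ l', l' ≠ l → ∀ j, dm δ (gm fun k => z k l' j) = 0 := by
    intro l F hF𝔤
    set X : ℕ → Fin L → Fin N → Matrix (Fin n) (Fin n) ℂ := fun k l' => if l' = l then F k else 0 with hX
    have hX𝔤 : ∀ k l', X k l' ∈ (d k).𝔤 l' := by
      intro k l'
      rw [hX]
      simp only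
      split_ifs with h
      · subst h
        exact hF𝔤 k
      · exact ((d k).𝔤 l').zero_mem
    obtain ⟨δ, hδ⟩ := hder_gen (z := fun k (i : Fin (L * N)) => z k (fs i) (sn i)) (X := fun k i => X k (fs i) (sn i))
      (fun e' => by
        obtain ⟨E, hE⟩ := curveP L N n q e' 
        filter_upwards [ev_ge E] with k hk P hPd hP s
        have hH := (hd k).base.one_le
        have hw0 : (0 : ℝ) ≤ (d k).w := by positivity
        have hρ := (hd k).base.ρ_pos
        refine hE (d k).H hH (d k).T (d k).B (d k).Z (d k).W (hd k).base.sys (hd k).base.T_ne (d k).ρ hρ (hd k).base.mem (d k).w (d k).b₀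
          (d k).b (hd k).base.b_mem (hd k).base.sep ((pow_le_pow_right₀ (by nlinarith) hk).trans (hd k).base.big) (X k)
          (fun l' β => (hd k).base.inf l' (X k l') (hX𝔤 k l') β) P hPd hP s)
    have hfs : ∀ l' j, fs (finProdFinEquiv (l', j) : Fin (L * N)) = l' := fun l' j => by
      unfold fs
      rw [Equiv.symm_apply_apply]
    have hsn : ∀ l' j, sn (finProdFinEquiv (l', j) : Fin (L * N)) = j := fun l' j => by
      unfold sn
      rw [Equiv.symm_apply_apply]
    have hδ' : ∀ l' j, dm δ (gm fun k => z k l' j) = gm fun k => X k l' j * z k l' j := by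
      intro l' j
      have h3 := hδ (finProdFinEquiv (l', j))
      simp only [hfs, hsn] at h3
      exact h3
    refine ⟨δ, fun j => ?_, fun l' hl' j => ?_⟩
    · rw [hδ']
      congr 1
      funext k
      rw [hX]
      simp only [if_true]
    · rw [hδ']
      have h3 : (fun k => X k l' j * z k l' j) = fun _ => 0 := by
        funext k
        rw [hX]
        simp only [if_neg hl', Pi.zero_apply, Matrix.zero_mul]
      rw [h3, gm_zero]
  have hP0 : ∀ k l j, IsUnit ((d k).P l j).det := by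
    intro k l j
    unfold DatM.P
    rw [Matrix.det_mul]
    exact isUnit_iff_ne_zero.2 (mul_ne_zero (hdet k l j).1 (hdet k l j).2)
  -- the evaluations
  let yz : Fin L → Fin N × Fin n × Fin n → U ℂ := fun l σ => mk ℂ fun k => z k l σ.1 σ.2.1 σ.2.2
  let yP : Fin L → Fin N × Fin n × Fin n → U ℂ := fun l σ => mk ℂ fun k => (d k).P l σ.1 σ.2.1 σ.2.2
  -- the tangent spaces, for a family of factors `G`
  let 𝒱 : (ℕ → Fin L → Fin N → Matrix (Fin n) (Fin n) ℂ) → Fin L → Submodule (U ℂ) (Fin N × Fin n × Fin n → U ℂ) := fun G l =>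
    { carrier := {v | ∃ F : ℕ → Fin N → Matrix (Fin n) (Fin n) ℂ, (∀ k, F k ∈ (d k).𝔤 l) ∧
        ∀ σ, v σ = mk ℂ fun k => (G k l σ.1 * (F k σ.1 * z k l σ.1)) σ.2.1 σ.2.2}
      zero_mem' := ⟨fun _ => 0, fun k => Submodule.zero_mem _, fun σ => by
        have h3 : (fun k => (G k l σ.1 * ((0 : Fin N → Matrix (Fin n) (Fin n) ℂ) σ.1 * z k l σ.1)) σ.2.1 σ.2.2) = 0 := by
          funext k
          rw [Pi.zero_apply, Matrix.zero_mul, Matrix.mul_zero]
          rfl
        rw [h3, map_zero]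
        rfl⟩
      add_mem' := by
        rintro v v' ⟨F, hF, h⟩ ⟨F', hF', h'⟩
        refine ⟨fun k => F k + F' k, fun k => Submodule.add_mem _ (hF k) (hF' k), fun σ => ?_⟩
        rw [Pi.add_apply, h, h', ← map_add]
        congr 1
        funext k
        show (G k l σ.1 * (F k σ.1 * z k l σ.1)) σ.2.1 σ.2.2 + (G k l σ.1 * (F' k σ.1 * z k l σ.1)) σ.2.1 σ.2.2 =
          (G k l σ.1 * ((F k σ.1 + F' k σ.1) * z k l σ.1)) σ.2.1 σ.2.2
        rw [Matrix.add_mul, Matrix.mul_add, Matrix.add_apply]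
      smul_mem' := by
        rintro c v ⟨F, hF, h⟩
        obtain ⟨c, rfl⟩ := mk_surj c
        refine ⟨fun k => c k • F k, fun k => Submodule.smul_mem _ _ (hF k), fun σ => ?_⟩
        rw [Pi.smul_apply, h, smul_eq_mul, ← map_mul]
        congr 1
        funext k
        show c k * (G k l σ.1 * (F k σ.1 * z k l σ.1)) σ.2.1 σ.2.2 = (G k l σ.1 * ((c k • F k σ.1) * z k l σ.1)) σ.2.1 σ.2.2
        rw [Matrix.smul_mul, Matrix.mul_smul, Matrix.smul_apply, smul_eq_mul] }
  let G₁ : ℕ → Fin L → Fin N → Matrix (Fin n) (Fin n) ℂ := fun _ _ _ => 1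
  let G₂ : ℕ → Fin L → Fin N → Matrix (Fin n) (Fin n) ℂ := fun k l j => (d k).C l j
  let 𝒲 : Submodule (U ℂ) (Derivation (U ℚ) (U ℂ) (U ℂ)) := ⨅ l, (𝒱 G₁ l).comap (evD (k := U ℚ) (yz l))
  have h𝒲 : ∀ δ, δ ∈ 𝒲 ↔ ∀ l, evD (k := U ℚ) (yz l) δ ∈ 𝒱 G₁ l := fun δ => Submodule.mem_iInf _
  let ev : Fin L → 𝒲 →ₗ[U ℂ] (Fin N × Fin n × Fin n → U ℂ) := fun l => (evD (k := U ℚ) (yz l)).comp 𝒲.subtype
  let yb : Fin s → U ℂ := fun i => mk ℂ fun k => (d k).bs i
  let yc : Fin L → Fin ℓ → U ℂ := fun l i => mk ℂ fun k => (d k).cs l i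
  let Φ : 𝒲 →ₗ[U ℂ] (Fin s → U ℂ) := (evD (k := U ℚ) yb).comp 𝒲.subtype
  let Ψ : Fin L → 𝒲 →ₗ[U ℂ] (Fin ℓ → U ℂ) := fun l => (evD (k := U ℚ) (yc l)).comp 𝒲.subtype
  have hdim0 : ∀ l, finrank (U ℂ) (𝒱 G₁ l) ≤
      finrank (U ℂ) ((⨅ l' : {l' : Fin L // l' ≠ l}, LinearMap.ker (ev l'.1)).map (ev l)) := by
    intro l
    refine Submodule.finrank_mono ?_
    rintro v ⟨F, hF1, hF2⟩
    obtain ⟨δ, hδ1, hδ2⟩ := hder l F hF1
    have h0 : ∀ l', l' ≠ l → evD (k := U ℚ) (yz l') δ = 0 := by
      intro l' hl'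
      funext σ
      exact congrFun (congrFun (hδ2 l' hl' σ.1) σ.2.1) σ.2.2
    have h1 : evD (k := U ℚ) (yz l) δ = v := by
      funext σ
      rw [hF2]
      refine (congrFun (congrFun (hδ1 σ.1) σ.2.1) σ.2.2).trans ?_
      show mk ℂ (fun k => (F k σ.1 * z k l σ.1) σ.2.1 σ.2.2) = mk ℂ fun k => ((1 : Matrix (Fin n) (Fin n) ℂ) * (F k σ.1 * z k l σ.1)) σ.2.1 σ.2.2
      simp only [Matrix.one_mul]
    have hδ : δ ∈ 𝒲 := by
      rw [h𝒲]
      intro l'
      by_cases hl' : l' = l
      · subst hl'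
        rw [h1]
        exact ⟨F, hF1, hF2⟩
      · rw [h0 l' hl']
        exact Submodule.zero_mem _
    refine ⟨⟨δ, hδ⟩, ?_, h1⟩
    rw [SetLike.mem_coe, Submodule.mem_iInf]
    intro l'
    rw [LinearMap.mem_ker]
    exact h0 l'.1 l'.2
  -- the dimension of the tangent spaces
  have hdim1 : ∀ l, d₀ l ≤ finrank (U ℂ) (𝒱 G₁ l) := by
    intro l
    choose v hv using fun k => exists_linearIndependent_of_le_finrank ((hd k).base.dim l)
    let u : Fin (d₀ l) → 𝒱 G₁ l := fun i => ⟨fun σ => mk ℂ fun k => (G₁ k l σ.1 * ((v k i : Fin N → Matrix (Fin n) (Fin n) ℂ) σ.1 * z k l σ.1))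
      σ.2.1 σ.2.2, ⟨fun k => v k i, fun k => (v k i).2, fun σ => rfl⟩⟩
    have hli : LinearIndependent (U ℂ) u := by
      rw [Fintype.linearIndependent_iff]
      intro g hg i
      have hg' : ∀ σ : Fin N × Fin n × Fin n, ∑ i, g i * (mk ℂ fun k => ((v k i : Fin N → Matrix (Fin n) (Fin n) ℂ) σ.1 * z k l σ.1) σ.2.1 σ.2.2) = 0 := by
        intro σ
        have h1 := congrArg (fun x => (Subtype.val x : Fin N × Fin n × Fin n → U ℂ) σ) hg
        simp only [Submodule.coe_sum, Finset.sum_apply] at h1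
        refine Eq.trans (Finset.sum_congr rfl fun i _ => ?_) h1
        show g i * _ = g i * mk ℂ (fun k => ((1 : Matrix (Fin n) (Fin n) ℂ) * ((v k i : Fin N → Matrix (Fin n) (Fin n) ℂ) σ.1 * z k l σ.1)) σ.2.1 σ.2.2)
        simp only [Matrix.one_mul]
      choose c hc using fun i => mk_surj (g i)
      have hk : ∀ᶠ k in (hyperfilter ℕ : Filter ℕ), ∀ σ : Fin N × Fin n × Fin n,
          ∑ i, c i k * ((v k i : Fin N → Matrix (Fin n) (Fin n) ℂ) σ.1 * z k l σ.1) σ.2.1 σ.2.2 = 0 := by
        rw [Filter.eventually_all]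
        intro σ
        have h1 := hg' σ
        have h2 : ∑ i, g i * (mk ℂ fun k => ((v k i : Fin N → Matrix (Fin n) (Fin n) ℂ) σ.1 * z k l σ.1) σ.2.1 σ.2.2) =
            mk ℂ fun k => ∑ i, c i k * ((v k i : Fin N → Matrix (Fin n) (Fin n) ℂ) σ.1 * z k l σ.1) σ.2.1 σ.2.2 := by
          have h3 : (fun k => ∑ i, c i k * ((v k i : Fin N → Matrix (Fin n) (Fin n) ℂ) σ.1 * z k l σ.1) σ.2.1 σ.2.2) =
              ∑ i, c i * fun k => ((v k i : Fin N → Matrix (Fin n) (Fin n) ℂ) σ.1 * z k l σ.1) σ.2.1 σ.2.2 := by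
            funext k
            rw [Finset.sum_apply]
            rfl
          rw [h3, map_sum]
          refine Finset.sum_congr rfl fun i _ => ?_
          rw [map_mul, hc]
        rw [h2] at h1
        exact mk_eq_zero.1 h1
      rw [← hc]
      refine mk_eq_zero.2 ?_
      filter_upwards [hk] with k hk
      have h1 : ∑ i, c i k • (v k i : Fin N → Matrix (Fin n) (Fin n) ℂ) = 0 := by
        funext j
        have h2 : (∑ i, c i k • (v k i : Fin N → Matrix (Fin n) (Fin n) ℂ) j) * z k l j = 0 := by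
          rw [Finset.sum_mul]
          refine Matrix.ext fun a b => ?_
          rw [Matrix.sum_apply]
          have h3 := hk (j, a, b)
          simp only at h3
          rw [Matrix.zero_apply, ← h3]
          refine Finset.sum_congr rfl fun i _ => ?_
          rw [Matrix.smul_mul, Matrix.smul_apply, smul_eq_mul]
        have h4 : IsUnit (z k l j).det := isUnit_iff_ne_zero.2 (hdet k l j).2
        have h5 := congrArg (fun M => M * (z k l j)⁻¹) h2
        simp only [Matrix.mul_assoc, Matrix.mul_nonsing_inv _ h4, Matrix.mul_one, Matrix.zero_mul] at h5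
        rw [Finset.sum_apply]
        exact h5
      have h6 : ∑ i, c i k • v k i = 0 := by
        apply Subtype.ext
        rw [Submodule.coe_sum]
        exact h1
      exact (Fintype.linearIndependent_iff.1 (hv k)) (fun i => c i k) h6 i
    have := hli.fintype_card_le_finrank
    rwa [Fintype.card_fin] at this
  obtain ⟨ρ, hρ, hρ'⟩ := pigeonS ev Φ (by rw [Module.finrank_fin_fun]) Ψ (by rw [Module.finrank_fin_fun]) (d := d₀)
    fun l => (hdim1 l).trans (hdim0 l)
  have hkey : ∀ l, ∀ᶠ k in (hyperfilter ℕ : Filter ℕ), TrD (d₀ l + a - (ρ l + ℓ)) e δ ((d k).η l) ((d k).P l) := by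
    intro l
    by_contra hnot
    have hnot' := Ultrafilter.eventually_not.2 hnot
    set 𝒦 := LinearMap.ker Φ ⊓ LinearMap.ker (Ψ l) with h𝒦
    let evP : 𝒲 →ₗ[U ℂ] (Fin N × Fin n × Fin n → U ℂ) := (evD (k := U ℚ) (yP l)).comp 𝒲.subtype
    have hap : ∀ δ ∈ 𝒦, ∀ i, δ.1 (mk ℂ fun k => Fin.append (d k).bs ((d k).cs l) i) = 0 := by
      intro δ hδ i
      refine Fin.addCases (fun i => ?_) (fun i => ?_) i
      · have h3 : (fun k => Fin.append (d k).bs ((d k).cs l) (Fin.castAdd ℓ i)) = fun k => (d k).bs i := by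
          funext k
          rw [Fin.append_left]
        rw [h3]
        exact congrFun (LinearMap.mem_ker.1 hδ.1) i
      · have h3 : (fun k => Fin.append (d k).bs ((d k).cs l) (Fin.natAdd s i)) = fun k => (d k).cs l i := by
          funext k
          rw [Fin.append_right]
        rw [h3]
        exact congrFun (LinearMap.mem_ker.1 hδ.2) i
    have hC0 : ∀ δ ∈ 𝒦, ∀ j, dm δ.1 (gm fun k => (d k).C l j) = 0 := by
      intro δ hδ j
      refine Matrix.ext fun a b => ?_
      exact der_algD (fun k => (hd k).base.few l j a b) (hap δ hδ)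
    have hPz : ∀ δ ∈ 𝒦, ∀ j, dm δ.1 (gm fun k => (d k).P l j) = gm (fun k => (d k).C l j) * dm δ.1 (gm fun k => z k l j) := by
      intro δ hδ j
      have h1 : (gm fun k => (d k).P l j) = gm (fun k => (d k).C l j) * gm fun k => z k l j := gm_mul _ _
      rw [h1, dm_mul, hC0 δ hδ j, Matrix.zero_mul, zero_add]
    -- the image in the tangent space
    have hsub : 𝒦.map evP ≤ 𝒱 G₂ l := by
      rintro _ ⟨δ, hδ, rfl⟩
      obtain ⟨F, hF1, hF2⟩ := (h𝒲 δ.1).1 δ.2 l
      refine ⟨F, hF1, fun σ => ?_⟩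
      have h1 : dm δ.1 (gm fun k => z k l σ.1) = gm fun k => F k σ.1 * z k l σ.1 := by
        refine Matrix.ext fun b c => ?_
        refine (hF2 (σ.1, b, c)).trans ?_
        show mk ℂ (fun k => ((1 : Matrix (Fin n) (Fin n) ℂ) * (F k σ.1 * z k l σ.1)) b c) = mk ℂ fun k => (F k σ.1 * z k l σ.1) b c
        simp only [Matrix.one_mul]
      have h2 := hPz δ hδ σ.1
      rw [h1, ← gm_mul] at h2
      exact congrFun (congrFun h2 σ.2.1) σ.2.2
    have hfin1 : finrank (U ℂ) (𝒦.map (ev l)) ≤ finrank (U ℂ) (𝒦.map evP) := by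
      refine map_finrank_le 𝒦 (ev l) evP fun δ hδK hδ => ?_
      have hδ' : ∀ σ, δ.1 (yP l σ) = 0 := fun σ => congrFun hδ σ
      have h2 : ∀ j, dm δ.1 (gm fun k => z k l j) = 0 := by
        intro j
        have h3 : dm δ.1 (gm fun k => (d k).P l j) = 0 := by
          refine Matrix.ext fun a b => ?_
          exact hδ' (j, a, b)
        rw [hPz δ hδK j] at h3
        have h5 : IsUnit (gm fun k => (d k).C l j).det := gm_unit fun k => (hdet k l j).1
        have h6 := congrArg (fun M => (gm fun k => (d k).C l j)⁻¹ * M) h3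
        simp only [← Matrix.mul_assoc, Matrix.nonsing_inv_mul _ h5, Matrix.one_mul, Matrix.mul_zero] at h6
        exact h6
      funext σ
      exact congrFun (congrFun (h2 σ.1) σ.2.1) σ.2.2
    -- the derivations in the direction of the torus
    choose D Y hD0 hD1 hD2 using fun (k : ℕ) (i : Fin a) => exists_tor ((hd k).ind l) (hP0 k l) ((hd k).known l) i
    let yη : Fin u → U ℂ := fun i => mk ℂ fun k => (d k).η l i
    let 𝒬 : Submodule (U ℂ) (Derivation (U ℚ) (U ℂ) (U ℂ)) := LinearMap.ker (evD (k := U ℚ) yη)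
    let Δ : Fin a → Derivation (U ℚ) (U ℂ) (U ℂ) := fun i => uder fun k => D k i
    have hΔ : ∀ i σ, evD (k := U ℚ) (yP l) (Δ i) σ = mk ℂ fun k => (((d k).v l i σ.1 : ℂ) • (d k).P l σ.1 +
        Y k i σ.1 * (d k).P l σ.1) σ.2.1 σ.2.2 := by
      intro i σ
      show uder (fun k => D k i) (mk ℂ fun k => (d k).P l σ.1 σ.2.1 σ.2.2) = _
      rw [uder_mk]
      congr 1
      funext k
      have h1 := congrFun (congrFun (hD2 k i σ.1) σ.2.1) σ.2.2
      exact h1
    have hfin2 : finrank (U ℂ) (𝒦.map evP) + a ≤ finrank (U ℂ) (𝒬.map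
        (evD (k := U ℚ) (yP l))) := by
      refine finrank_add (V := 𝒱 G₂ l) hsub ?_ (u := fun i => evD (k := U ℚ) (yP l) (Δ i)) (fun i => ⟨Δ i, ?_, rfl⟩) ?_
      · rintro _ ⟨δ, hδ, rfl⟩
        refine ⟨δ.1, ?_, rfl⟩
        rw [SetLike.mem_coe, LinearMap.mem_ker]
        funext i
        exact der_algD (fun k => (hd k).eta l i) (hap δ hδ)
      · rw [SetLike.mem_coe, LinearMap.mem_ker]
        funext i'
        show uder (fun k => D k i) (mk ℂ fun k => (d k).η l i') = 0
        rw [uder_mk]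
        have h3 : (fun k => D k i ((d k).η l i')) = 0 := by
          funext k
          exact hD0 k i i'
        rw [h3, map_zero]
      · rintro c ⟨F, hF1, hF2⟩
        choose c' hc' using fun i => mk_surj (c i)
        have h1 : ∀ σ : Fin N × Fin n × Fin n, (mk ℂ fun k => ∑ i, c' i k * (((d k).v l i σ.1 : ℂ) • (d k).P l σ.1 +
            Y k i σ.1 * (d k).P l σ.1) σ.2.1 σ.2.2) = mk ℂ fun k => ((d k).C l σ.1 * (F k σ.1 * z k l σ.1)) σ.2.1 σ.2.2 := by
          intro σ
          have h2 := hF2 σ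
          rw [Finset.sum_apply] at h2
          refine Eq.trans ?_ h2
          have h3 : (fun k => ∑ i, c' i k * (((d k).v l i σ.1 : ℂ) • (d k).P l σ.1 +
            Y k i σ.1 * (d k).P l σ.1) σ.2.1 σ.2.2) = ∑ i, c' i * fun k => (((d k).v l i σ.1 : ℂ) • (d k).P l σ.1 +
            Y k i σ.1 * (d k).P l σ.1) σ.2.1 σ.2.2 := by
            funext k
            rw [Finset.sum_apply]
            rfl
          rw [h3, map_sum]
          refine Finset.sum_congr rfl fun i _ => ?_
          rw [map_mul, hc', Pi.smul_apply, hΔ, smul_eq_mul]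
        have h2 : ∀ᶠ k in (hyperfilter ℕ : Filter ℕ), ∀ σ : Fin N × Fin n × Fin n, ∑ i, c' i k * (((d k).v l i σ.1 : ℂ) • (d k).P l σ.1 +
            Y k i σ.1 * (d k).P l σ.1) σ.2.1 σ.2.2 = ((d k).C l σ.1 * (F k σ.1 * z k l σ.1)) σ.2.1 σ.2.2 := by
          rw [Filter.eventually_all]
          intro σ
          exact mk_eq.1 (h1 σ)
        have h3 : ∀ᶠ k in (hyperfilter ℕ : Filter ℕ), ∀ i, c' i k = 0 := by
          filter_upwards [h2] with k hk
          have h4 : (fun i => c' i k) = 0 := by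
            refine (hd k).tor l _ ?_
            -- the scalar is in the algebra
            have h5 : ∀ j, (∑ i, c' i k * (d k).v l i j) • (1 : Matrix (Fin n) (Fin n) ℂ) =
                F k j - ∑ i, c' i k • ((((d k).C l j)⁻¹) * Y k i j * (d k).C l j) := by
              intro j
              have hCu : IsUnit ((d k).C l j).det := isUnit_iff_ne_zero.2 (hdet k l j).1
              have hzu : IsUnit (z k l j).det := isUnit_iff_ne_zero.2 (hdet k l j).2
              have h6 : (∑ i, c' i k * (d k).v l i j) • (d k).P l j + ∑ i, c' i k • (Y k i j * (d k).P l j) =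
                  (d k).C l j * (F k j * z k l j) := by
                refine Matrix.ext fun b c => ?_
                rw [← hk (j, b, c)]
                simp only [Matrix.add_apply, Matrix.smul_apply, Matrix.sum_apply, smul_eq_mul, mul_add, Finset.sum_add_distrib,
                  Finset.sum_mul, mul_assoc]
              have h7 : (d k).P l j = (d k).C l j * z k l j := rfl
              rw [h7] at h6
              have h8 := congrArg (fun M => ((d k).C l j)⁻¹ * M * (z k l j)⁻¹) h6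
              simp only [Matrix.mul_add, Matrix.add_mul, Finset.mul_sum, Finset.sum_mul, Matrix.mul_smul, Matrix.smul_mul] at h8
              have h9 : ((d k).C l j)⁻¹ * ((d k).C l j * z k l j) * (z k l j)⁻¹ = 1 := by
                rw [Matrix.nonsing_inv_mul_cancel_left _ _ hCu, Matrix.mul_nonsing_inv _ hzu]
              have h10 : ((d k).C l j)⁻¹ * ((d k).C l j * (F k j * z k l j)) * (z k l j)⁻¹ = F k j := by
                rw [Matrix.nonsing_inv_mul_cancel_left _ _ hCu, Matrix.mul_nonsing_inv_cancel_right _ _ hzu]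
              have h11 : ∀ i, ((d k).C l j)⁻¹ * (Y k i j * ((d k).C l j * z k l j)) * (z k l j)⁻¹ =
                  ((d k).C l j)⁻¹ * Y k i j * (d k).C l j := by
                intro i
                rw [← Matrix.mul_assoc, ← Matrix.mul_assoc, Matrix.mul_nonsing_inv_cancel_right _ _ hzu]
              simp only [h9, h10, h11] at h8
              rw [← h8]
              abel
            have h6 : (fun j => (∑ i, c' i k * (d k).v l i j) • (1 : Matrix (Fin n) (Fin n) ℂ)) =
                F k - ∑ i, c' i k • fun j => (((d k).C l j)⁻¹) * Y k i j * (d k).C l j := by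
              funext j
              rw [h5 j, Pi.sub_apply, Finset.sum_apply]
              rfl
            rw [h6]
            exact Submodule.sub_mem _ (hF1 k) (Submodule.sum_mem _ fun i _ => Submodule.smul_mem _ _ ((hd k).tan l i.pos _ (hD1 k i)))
          exact fun i => congrFun h4 i
        funext i
        rw [← hc' i]
        refine mk_eq_zero.2 ?_
        filter_upwards [h3] with k hk
        exact hk i
    have hfin : d₀ l + a - (ρ l + ℓ) ≤ finrank (U ℂ) (𝒬.map
        (evD (k := U ℚ) (yP l))) := by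
      have h2 : d₀ l ≤ finrank (U ℂ) (𝒦.map (ev l)) + (ρ l + ℓ) := hρ' l
      omega
    obtain ⟨σ, hσ, hind⟩ := exists_ind (yP l) 𝒬 hfin
    have hex : ∀ k, ∃ S : MvPolynomial (Fin (d₀ l + a - (ρ l + ℓ))) ℂ,
        ¬ TrD (d₀ l + a - (ρ l + ℓ)) e δ ((d k).η l) ((d k).P l) →
        S.totalDegree ≤ δ ∧ (∀ ν, AlgD e ((d k).η l) (S.coeff ν)) ∧
        MvPolynomial.aeval (fun i => (d k).P l (σ i).1 (σ i).2.1 (σ i).2.2) S = 0 ∧ S ≠ 0 := by
      intro k
      by_cases hT : TrD (d₀ l + a - (ρ l + ℓ)) e δ ((d k).η l) ((d k).P l)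
      · exact ⟨0, fun h => absurd hT h⟩
      · have h1 := hT
        unfold TrD at h1
        push Not at h1
        obtain ⟨S, hS1, hS2, hS3, hS4⟩ := h1 σ hσ
        exact ⟨S, fun _ => ⟨hS1, hS2, hS3, hS4⟩⟩
    choose S hS using hex
    have hev := ind_seq' (y := fun k i => (d k).P l (σ i).1 (σ i).2.1 (σ i).2.2) (δ := δ) hind S
      (by
        filter_upwards [hnot'] with k hk
        exact (hS k hk).1)
      (fun ν δ hδ => der_algD' (b := fun k => (d k).η l) (by
        filter_upwards [hnot'] with k hk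
        exact (hS k hk).2.1 ν) (fun i => congrFun (LinearMap.mem_ker.1 hδ) i))
      (by
        filter_upwards [hnot'] with k hk
        exact (hS k hk).2.2.1)
    obtain ⟨k, hk1, hk2⟩ := (hev.and hnot').exists
    exact (hS k hk2).2.2.2 hk1
  obtain ⟨k, hk⟩ := (Filter.eventually_all.2 hkey).exists
  obtain ⟨l, hl⟩ := hbad k ρ hρ
  exact hl (hk l)

end Pool.Agent.H885
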