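import Pool.Agent.H885.UnifO

/-!
# The space of the infinitesimal symmetries is defined over the rational numbers
-/

set_option autoImplicit false
set_option linter.unusedSectionVars false
set_option linter.unusedVariables false

open Matrix Module Filter PowerSeries

namespace Pool.Agent.H885

section hamel
variable {ι : Type}

/-- a basis of the complex numbers over the rational numbers -/
noncomputable def hb : Basis (Basis.ofVectorSpaceIndex ℚ ℂ) ℚ ℂ := Basis.ofVectorSpace ℚ ℂ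

/-- the coordinates -/
noncomputable def hc (i : Basis.ofVectorSpaceIndex ℚ ℂ) : ℂ →ₗ[ℚ] ℚ := hb.coord i

theorem hb_sum {c : ℂ} {S : Finset (Basis.ofVectorSpaceIndex ℚ ℂ)} (hS : (hb.repr c).support ⊆ S) :
    ∑ i ∈ S, (hc i c : ℂ) * hb i = c := by
  have h1 := hb.linearCombination_repr c
  rw [Finsupp.linearCombination_apply, Finsupp.sum] at h1
  rw [← Finset.sum_subset hS fun i _ hi => by
    unfold hc
    rw [Basis.coord_apply, Finsupp.notMem_support_iff.1 hi, Rat.cast_zero, zero_mul]]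
  refine Eq.trans ?_ h1
  refine Finset.sum_congr rfl fun i _ => ?_
  unfold hc
  rw [Basis.coord_apply, Rat.smul_def]

/-- the embedding of the rational polynomials -/
noncomputable def qm : MvPolynomial ι (Polynomial ℚ) →+* MvPolynomial ι (Polynomial ℂ) :=
  MvPolynomial.map (Polynomial.mapRingHom (algebraMap ℚ ℂ))

theorem span_qm (R : MvPolynomial ι (Polynomial ℂ)) : ∃ c : (MvPolynomial ι (Polynomial ℚ)) →₀ ℂ,
    R = ∑ M ∈ c.support, MvPolynomial.C (Polynomial.C (c M)) * qm M := by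
  classical
  have h1 : ∀ (c₁ c₂ : (MvPolynomial ι (Polynomial ℚ)) →₀ ℂ),
      ∑ M ∈ (c₁ + c₂).support, MvPolynomial.C (Polynomial.C ((c₁ + c₂) M)) * qm M =
        ∑ M ∈ c₁.support, MvPolynomial.C (Polynomial.C (c₁ M)) * qm M +
          (∑ M ∈ c₂.support, MvPolynomial.C (Polynomial.C (c₂ M)) * qm M : MvPolynomial ι (Polynomial ℂ)) := by
    intro c₁ c₂
    have h2 : ∀ c : (MvPolynomial ι (Polynomial ℚ)) →₀ ℂ, ∑ M ∈ c.support, MvPolynomial.C (Polynomial.C (c M)) * qm M =
        c.sum fun M a => (MvPolynomial.C (Polynomial.C a) * qm M : MvPolynomial ι (Polynomial ℂ)) := fun c => rfl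
    rw [h2, h2, h2, Finsupp.sum_add_index']
    · intro M
      rw [map_zero, map_zero, zero_mul]
    · intro M a b
      rw [map_add, map_add, add_mul]
  induction R using MvPolynomial.induction_on' with
  | monomial ν p =>
    induction p using Polynomial.induction_on' with
    | add p q hp hq =>
      obtain ⟨c₁, h2⟩ := hp
      obtain ⟨c₂, h3⟩ := hq
      refine ⟨c₁ + c₂, ?_⟩
      rw [h1, ← h2, ← h3, map_add]
    | monomial i a =>
      refine ⟨Finsupp.single (MvPolynomial.monomial ν (Polynomial.monomial i 1)) a, ?_⟩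
      have h2 : ∀ c : (MvPolynomial ι (Polynomial ℚ)) →₀ ℂ, ∑ M ∈ c.support, MvPolynomial.C (Polynomial.C (c M)) * qm M =
          c.sum fun M a => (MvPolynomial.C (Polynomial.C a) * qm M : MvPolynomial ι (Polynomial ℂ)) := fun c => rfl
      rw [h2, Finsupp.sum_single_index (by rw [map_zero, map_zero, zero_mul])]
      unfold qm
      rw [MvPolynomial.map_monomial, MvPolynomial.C_mul_monomial]
      congr 1
      simp [Polynomial.C_mul_monomial]
  | add p q hp hq =>
    obtain ⟨c₁, h2⟩ := hp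
    obtain ⟨c₂, h3⟩ := hq
    refine ⟨c₁ + c₂, ?_⟩
    rw [h1, ← h2, ← h3]

/-- decomposition of polynomials -/
theorem decomp (R : MvPolynomial ι (Polynomial ℂ)) : ∃ (S : Finset (Basis.ofVectorSpaceIndex ℚ ℂ))
    (R' : Basis.ofVectorSpaceIndex ℚ ℂ → MvPolynomial ι (Polynomial ℚ)),
    R = ∑ i ∈ S, MvPolynomial.C (Polynomial.C (hb i)) * qm (R' i) := by
  classical
  obtain ⟨c, hc'⟩ := span_qm R
  refine ⟨c.support.biUnion fun M => (hb.repr (c M)).support, fun i => ∑ M ∈ c.support,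
    MvPolynomial.C (Polynomial.C (hc i (c M))) * M, ?_⟩
  set S := c.support.biUnion fun M => (hb.repr (c M)).support with hS
  have h1 : ∀ i, MvPolynomial.C (Polynomial.C (hb i)) * qm (∑ M ∈ c.support, MvPolynomial.C (Polynomial.C (hc i (c M))) * M) =
      ∑ M ∈ c.support, MvPolynomial.C (Polynomial.C ((hc i (c M) : ℂ) * hb i)) * qm M := by
    intro i
    rw [map_sum, Finset.mul_sum]
    refine Finset.sum_congr rfl fun M _ => ?_
    rw [map_mul]
    have h2 : (qm (MvPolynomial.C (Polynomial.C (hc i (c M)))) : MvPolynomial ι (Polynomial ℂ)) =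
        MvPolynomial.C (Polynomial.C ((hc i (c M) : ℂ))) := by
      unfold qm
      rw [MvPolynomial.map_C]
      simp
    rw [h2, map_mul, map_mul]
    ring
  rw [Finset.sum_congr rfl fun i _ => h1 i, Finset.sum_comm]
  conv_lhs => rw [hc']
  refine Finset.sum_congr rfl fun M hM => ?_
  rw [← Finset.sum_mul, ← map_sum, ← map_sum, hb_sum]
  intro i hi
  rw [hS, Finset.mem_biUnion]
  exact ⟨M, hM, hi⟩

/-- rational series with independent coefficients -/
theorem series_zero {S : Finset (Basis.ofVectorSpaceIndex ℚ ℂ)} {f : Basis.ofVectorSpaceIndex ℚ ℂ → ℚ⟦X⟧}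
    (h : ∑ i ∈ S, C (hb i) * PowerSeries.map (algebraMap ℚ ℂ) (f i) = 0) : ∀ i ∈ S, f i = 0 := by
  classical
  intro i hi
  ext k
  have h1 := congrArg (coeff k) h
  rw [map_sum, map_zero] at h1
  have h2 : ∑ j ∈ S, (coeff k (f j) : ℚ) • hb j = 0 := by
    rw [← h1]
    refine Finset.sum_congr rfl fun j _ => ?_
    rw [coeff_C_mul, coeff_map, Rat.smul_def, mul_comm]
    rfl
  rw [map_zero]
  exact linearIndependent_iff'.1 hb.linearIndependent S (fun j => coeff k (f j)) h2 i hi

end hamel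

variable {n N : ℕ}

theorem aeval_qm {ι : Type} (y : ι → ℚ⟦X⟧) (R : MvPolynomial ι (Polynomial ℚ)) :
    MvPolynomial.aeval (fun σ => PowerSeries.map (algebraMap ℚ ℂ) (y σ)) (qm R) =
      PowerSeries.map (algebraMap ℚ ℂ) (MvPolynomial.aeval y R) := by
  induction R using MvPolynomial.induction_on with
  | C p =>
    unfold qm
    rw [MvPolynomial.map_C, MvPolynomial.aeval_C, MvPolynomial.aeval_C]
    show ((Polynomial.map (algebraMap ℚ ℂ) p : Polynomial ℂ) : ℂ⟦X⟧) = PowerSeries.map (algebraMap ℚ ℂ) (p : ℚ⟦X⟧)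
    ext k
    rw [Polynomial.coeff_coe, Polynomial.coeff_map, coeff_map, Polynomial.coeff_coe]
  | add p q hp hq => rw [map_add, map_add, map_add, map_add, hp, hq]
  | mul_X p i hp =>
    have h1 : (qm (MvPolynomial.X i) : MvPolynomial ι (Polynomial ℂ)) = MvPolynomial.X i := MvPolynomial.map_X _ _
    rw [map_mul, map_mul, map_mul, map_mul, hp, h1, MvPolynomial.aeval_X, MvPolynomial.aeval_X]

theorem aeval_centQ (Z : Fin N → Matrix (Fin n) (Fin n) ℚ⟦X⟧) (R : MvPolynomial (Fin N × Fin n × Fin n) (Polynomial ℚ)) :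
    MvPolynomial.aeval (cent Z) (qm R) =
      PowerSeries.map (algebraMap ℚ ℂ) (MvPolynomial.aeval (fun σ => Z σ.1 σ.2.1 σ.2.2) R) :=
  aeval_qm (fun σ : Fin N × Fin n × Fin n => Z σ.1 σ.2.1 σ.2.2) R

theorem cent_applyQ (Z : Fin N → Matrix (Fin n) (Fin n) ℚ⟦X⟧) (j : Fin N) (a b : Fin n) :
    cent Z (j, a, b) = PowerSeries.map (algebraMap ℚ ℂ) (Z j a b) := rfl

/-- the equations of the infinitesimal symmetries -/
theorem InfT_iff {Z : Fin N → Matrix (Fin n) (Fin n) ℚ⟦X⟧} {X : Fin N → Matrix (Fin n) (Fin n) ℂ} : InfT Z X ↔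
    ∀ R : MvPolynomial (Fin N × Fin n × Fin n) (Polynomial ℚ), MvPolynomial.aeval (fun σ => Z σ.1 σ.2.1 σ.2.2) R = 0 →
      ∀ k, ∑ σ : Fin N × Fin n × Fin n, ∑ l, (coeff k (MvPolynomial.aeval (fun σ => Z σ.1 σ.2.1 σ.2.2)
        (MvPolynomial.pderiv σ R) * Z σ.1 l σ.2.2) : ℚ) • X σ.1 σ.2.1 l = 0 := by
  classical
  -- the coefficients for a rational polynomial
  have key : ∀ R : MvPolynomial (Fin N × Fin n × Fin n) (Polynomial ℚ), ∀ k,
      coeff k (∑ σ, MvPolynomial.aeval (cent Z) (MvPolynomial.pderiv σ (qm R)) *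
        ∑ l, PowerSeries.C (X σ.1 σ.2.1 l) * cent Z (σ.1, l, σ.2.2)) =
      ∑ σ : Fin N × Fin n × Fin n, ∑ l, (coeff k (MvPolynomial.aeval (fun σ => Z σ.1 σ.2.1 σ.2.2)
        (MvPolynomial.pderiv σ R) * Z σ.1 l σ.2.2) : ℚ) • X σ.1 σ.2.1 l := by
    intro R k
    rw [map_sum]
    refine Finset.sum_congr rfl fun σ _ => ?_
    rw [Finset.mul_sum, map_sum]
    refine Finset.sum_congr rfl fun l _ => ?_
    have h1 : MvPolynomial.pderiv σ (qm R : MvPolynomial (Fin N × Fin n × Fin n) (Polynomial ℂ)) =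
        qm (MvPolynomial.pderiv σ R) := MvPolynomial.pderiv_map
    rw [h1, aeval_centQ, cent_applyQ]
    have h2 : ∀ (f g : ℚ⟦X⟧) (c : ℂ), PowerSeries.map (algebraMap ℚ ℂ) f * (C c * PowerSeries.map (algebraMap ℚ ℂ) g) =
        C c * PowerSeries.map (algebraMap ℚ ℂ) (f * g) := by
      intro f g c
      rw [map_mul]
      ring
    rw [h2, coeff_C_mul, coeff_map, Rat.smul_def, mul_comm]
    rfl
  constructor
  · intro h R hR k
    have h1 := h (qm R) (by rw [aeval_centQ, hR, map_zero])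
    rw [← key, h1, map_zero]
  · intro h R hR
    obtain ⟨S, R', hR'⟩ := decomp R
    have h1 : ∀ i ∈ S, MvPolynomial.aeval (fun σ => Z σ.1 σ.2.1 σ.2.2) (R' i) = 0 := by
      refine series_zero ?_
      rw [← hR, hR', map_sum]
      refine Finset.sum_congr rfl fun i _ => ?_
      rw [map_mul, aeval_centQ, MvPolynomial.aeval_C]
      congr 1
      show C (hb i) = ((Polynomial.C (hb i) : Polynomial ℂ) : ℂ⟦X⟧)
      rw [Polynomial.coe_C]
    have h2 : ∀ σ, MvPolynomial.aeval (cent Z) (MvPolynomial.pderiv σ R) = ∑ i ∈ S, C (hb i) *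
        MvPolynomial.aeval (cent Z) (MvPolynomial.pderiv σ (qm (R' i))) := by
      intro σ
      rw [hR', map_sum, map_sum]
      refine Finset.sum_congr rfl fun i _ => ?_
      rw [MvPolynomial.pderiv_C_mul, map_mul, MvPolynomial.aeval_C]
      congr 1
      show ((Polynomial.C (hb i) : Polynomial ℂ) : ℂ⟦X⟧) = _
      rw [Polynomial.coe_C]
    have h3 : ∑ σ, MvPolynomial.aeval (cent Z) (MvPolynomial.pderiv σ R) *
        ∑ l, PowerSeries.C (X σ.1 σ.2.1 l) * cent Z (σ.1, l, σ.2.2) =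
        ∑ i ∈ S, C (hb i) * ∑ σ, MvPolynomial.aeval (cent Z) (MvPolynomial.pderiv σ (qm (R' i))) *
          ∑ l, PowerSeries.C (X σ.1 σ.2.1 l) * cent Z (σ.1, l, σ.2.2) := by
      have h4 : ∀ σ : Fin N × Fin n × Fin n, MvPolynomial.aeval (cent Z) (MvPolynomial.pderiv σ R) *
          ∑ l, PowerSeries.C (X σ.1 σ.2.1 l) * cent Z (σ.1, l, σ.2.2) = ∑ i ∈ S, C (hb i) *
            MvPolynomial.aeval (cent Z) (MvPolynomial.pderiv σ (qm (R' i))) *
          ∑ l, PowerSeries.C (X σ.1 σ.2.1 l) * cent Z (σ.1, l, σ.2.2) := fun σ => by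
        rw [h2 σ, Finset.sum_mul]
      rw [Finset.sum_congr rfl fun σ _ => h4 σ, Finset.sum_comm]
      refine Finset.sum_congr rfl fun i _ => ?_
      rw [Finset.mul_sum]
      refine Finset.sum_congr rfl fun σ _ => ?_
      rw [mul_assoc]
    rw [h3]
    refine Finset.sum_eq_zero fun i hi => ?_
    have h4 : ∑ σ, MvPolynomial.aeval (cent Z) (MvPolynomial.pderiv σ (qm (R' i))) *
          ∑ l, PowerSeries.C (X σ.1 σ.2.1 l) * cent Z (σ.1, l, σ.2.2) = 0 := by
      ext k
      rw [key, h (R' i) (h1 i hi) k, map_zero]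
    rw [h4, mul_zero]

theorem InfT_zero (Z : Fin N → Matrix (Fin n) (Fin n) ℚ⟦X⟧) : InfT Z 0 := by
  intro R hR
  refine Finset.sum_eq_zero fun σ _ => ?_
  have h1 : ∑ l, PowerSeries.C ((0 : Fin N → Matrix (Fin n) (Fin n) ℂ) σ.1 σ.2.1 l) * cent Z (σ.1, l, σ.2.2) = 0 := by
    refine Finset.sum_eq_zero fun l _ => ?_
    rw [Pi.zero_apply, Matrix.zero_apply, map_zero, zero_mul]
  rw [h1, mul_zero]

theorem InfT_add {Z : Fin N → Matrix (Fin n) (Fin n) ℚ⟦X⟧} {X Y : Fin N → Matrix (Fin n) (Fin n) ℂ} (hX : InfT Z X)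
    (hY : InfT Z Y) : InfT Z (X + Y) := by
  intro R hR
  have h1 := hX R hR
  have h2 := hY R hR
  have h3 := congrArg₂ (· + ·) h1 h2
  simp only [add_zero] at h3
  rw [← h3, ← Finset.sum_add_distrib]
  refine Finset.sum_congr rfl fun σ _ => ?_
  rw [← mul_add, ← Finset.sum_add_distrib]
  congr 1
  refine Finset.sum_congr rfl fun l _ => ?_
  rw [← add_mul, ← map_add]
  rfl

theorem InfT_smul {Z : Fin N → Matrix (Fin n) (Fin n) ℚ⟦X⟧} {X : Fin N → Matrix (Fin n) (Fin n) ℂ} (c : ℂ)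
    (hX : InfT Z X) : InfT Z (c • X) := by
  intro R hR
  have h1 := hX R hR
  rw [← mul_zero (C c), ← h1, Finset.mul_sum]
  refine Finset.sum_congr rfl fun σ _ => ?_
  rw [Finset.mul_sum, Finset.mul_sum, Finset.mul_sum]
  refine Finset.sum_congr rfl fun l _ => ?_
  have h2 : (c • X) σ.1 σ.2.1 l = c * X σ.1 σ.2.1 l := rfl
  rw [h2, map_mul]
  ring

/-- the space of the symmetries, separately for each denominator -/
def symS (b : Fin N → ℕ) (Z : Fin N → Matrix (Fin n) (Fin n) ℚ⟦X⟧) : Submodule ℂ (Fin N → Matrix (Fin n) (Fin n) ℂ) where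
  carrier := {X | ∀ β, InfT (part b Z β) (fun j => if b j = β then X j else 0)}
  zero_mem' := by
    intro β
    have h1 : (fun j => if b j = β then (0 : Fin N → Matrix (Fin n) (Fin n) ℂ) j else 0) = 0 := by
      funext j
      split_ifs <;> rfl
    rw [h1]
    exact InfT_zero _
  add_mem' := by
    intro X Y hX hY β
    have h1 : (fun j => if b j = β then (X + Y) j else 0) =
        (fun j => if b j = β then X j else 0) + fun j => if b j = β then Y j else 0 := by
      funext j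
      by_cases h : b j = β <;> simp [h]
    rw [h1]
    exact InfT_add (hX β) (hY β)
  smul_mem' := by
    intro c X hX β
    have h1 : (fun j => if b j = β then (c • X) j else 0) = c • fun j => if b j = β then X j else 0 := by
      funext j
      by_cases h : b j = β <;> simp [h]
    rw [h1]
    exact InfT_smul c (hX β)

/-- **the space of the symmetries is spanned by rational matrices** -/
theorem symS_rat (b : Fin N → ℕ) (Z : Fin N → Matrix (Fin n) (Fin n) ℚ⟦X⟧) :
    symS b Z ≤ Submodule.span ℂ (ratP (symS b Z)) := by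
  classical
  intro X hX
  let S : Finset (Basis.ofVectorSpaceIndex ℚ ℂ) := (Finset.univ : Finset (Fin N × Fin n × Fin n)).biUnion fun σ =>
    (hb.repr (X σ.1 σ.2.1 σ.2.2)).support
  let X' : Basis.ofVectorSpaceIndex ℚ ℂ → Fin N → Matrix (Fin n) (Fin n) ℂ := fun i j => Matrix.of fun a c => (hc i (X j a c) : ℂ)
  have h1 : X = ∑ i ∈ S, hb i • X' i := by
    funext j
    refine Matrix.ext fun a c => ?_
    rw [Finset.sum_apply, Matrix.sum_apply]
    have h2 : ∀ i, (hb i • X' i) j a c = (hc i (X j a c) : ℂ) * hb i := by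
      intro i
      show hb i * (hc i (X j a c) : ℂ) = _
      rw [mul_comm]
    rw [Finset.sum_congr rfl fun i _ => h2 i, hb_sum]
    intro i hi
    exact Finset.mem_biUnion.2 ⟨(j, a, c), Finset.mem_univ _, hi⟩
  rw [h1]
  refine Submodule.sum_mem _ fun i _ => Submodule.smul_mem _ _ (Submodule.subset_span ⟨?_, fun j a c => ⟨_, rfl⟩⟩)
  intro β
  have h2 := InfT_iff.1 (hX β)
  refine InfT_iff.2 fun R hR k => ?_
  have h3 := congrArg (hc i) (h2 R hR k)
  rw [map_zero, map_sum] at h3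
  have h4 := congrArg (fun q : ℚ => (q : ℂ)) h3
  simp only [Rat.cast_zero] at h4
  rw [← h4, Rat.cast_sum]
  refine Finset.sum_congr rfl fun σ _ => ?_
  rw [map_sum, Rat.cast_sum]
  refine Finset.sum_congr rfl fun l _ => ?_
  rw [map_smul, smul_eq_mul, Rat.cast_mul, Rat.smul_def]
  congr 1
  split_ifs
  · rfl
  · rw [Matrix.zero_apply, map_zero, Rat.cast_zero]

end Pool.Agent.H885
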