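import Pool.Graph.R_pool_sql_team_seeded_620a6dc7.Helper880_R3.Exp

/-!
# Polynomial relations and orbits
-/

set_option autoImplicit false
set_option linter.unusedSectionVars false
set_option linter.unusedVariables false

open Matrix Module Filter

namespace Pool.Agent.H885

open Pool.Agent.Helper880_R3 hiding core

section ring
variable {R : Type} [CommRing R] {n N : ℕ}

/-- the vector field `Z_j ↦ X_j Z_j` -/
noncomputable def DVT (X : Fin N → Matrix (Fin n) (Fin n) R) :
    MvPolynomial (Fin N × Fin n × Fin n) R →ₗ[R] MvPolynomial (Fin N × Fin n × Fin n) R :=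
  ∑ σ : Fin N × Fin n × Fin n, (LinearMap.mulRight R (∑ l, MvPolynomial.C (X σ.1 σ.2.1 l) * MvPolynomial.X (σ.1, l, σ.2.2))).comp
    (MvPolynomial.pderiv σ).toLinearMap

theorem DVT_apply (X : Fin N → Matrix (Fin n) (Fin n) R) (P : MvPolynomial (Fin N × Fin n × Fin n) R) :
    DVT X P = ∑ σ : Fin N × Fin n × Fin n, MvPolynomial.pderiv σ P *
      ∑ l, MvPolynomial.C (X σ.1 σ.2.1 l) * MvPolynomial.X (σ.1, l, σ.2.2) := by
  unfold DVT
  rw [LinearMap.sum_apply]
  rfl

theorem DVT_add (X Y : Fin N → Matrix (Fin n) (Fin n) R) (P : MvPolynomial (Fin N × Fin n × Fin n) R) :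
    DVT (X + Y) P = DVT X P + DVT Y P := by
  simp only [DVT_apply]
  rw [← Finset.sum_add_distrib]
  refine Finset.sum_congr rfl fun σ _ => ?_
  rw [← mul_add, ← Finset.sum_add_distrib]
  congr 1
  refine Finset.sum_congr rfl fun l _ => ?_
  rw [← add_mul, ← map_add]
  rfl

theorem DVT_smul (c : R) (X : Fin N → Matrix (Fin n) (Fin n) R) (P : MvPolynomial (Fin N × Fin n × Fin n) R) :
    DVT (c • X) P = c • DVT X P := by
  simp only [DVT_apply]
  rw [Finset.smul_sum]
  refine Finset.sum_congr rfl fun σ _ => ?_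
  rw [← mul_smul_comm, Finset.smul_sum]
  congr 1
  refine Finset.sum_congr rfl fun l _ => ?_
  rw [Pi.smul_apply, Matrix.smul_apply, smul_eq_mul, map_mul, mul_assoc, MvPolynomial.smul_eq_C_mul]

theorem DVT_zero (P : MvPolynomial (Fin N × Fin n × Fin n) R) : DVT (0 : Fin N → Matrix (Fin n) (Fin n) R) P = 0 := by
  simp only [DVT_apply]
  refine Finset.sum_eq_zero fun σ _ => ?_
  have h1 : ∑ l, MvPolynomial.C ((0 : Fin N → Matrix (Fin n) (Fin n) R) σ.1 σ.2.1 l) *
      (MvPolynomial.X (σ.1, l, σ.2.2) : MvPolynomial (Fin N × Fin n × Fin n) R) = 0 :=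
    Finset.sum_eq_zero fun l _ => by
      rw [Pi.zero_apply, Matrix.zero_apply, map_zero, zero_mul]
  rw [h1, mul_zero]

theorem eval_DVT (X z : Fin N → Matrix (Fin n) (Fin n) R) (P : MvPolynomial (Fin N × Fin n × Fin n) R) :
    MvPolynomial.eval (fun σ => z σ.1 σ.2.1 σ.2.2) (DVT X P) =
      ∑ σ, MvPolynomial.eval (fun σ => z σ.1 σ.2.1 σ.2.2) (MvPolynomial.pderiv σ P) * (X σ.1 * z σ.1) σ.2.1 σ.2.2 := by
  rw [DVT_apply, map_sum]
  refine Finset.sum_congr rfl fun σ _ => ?_
  rw [map_mul, map_sum, Matrix.mul_apply]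
  congr 1
  refine Finset.sum_congr rfl fun l _ => ?_
  rw [map_mul, MvPolynomial.eval_C, MvPolynomial.eval_X]

theorem totalDegree_pderiv {ι : Type} (i : ι) (P : MvPolynomial ι R) (h : MvPolynomial.pderiv i P ≠ 0) :
    (MvPolynomial.pderiv i P).totalDegree + 1 ≤ P.totalDegree := by
  classical
  obtain ⟨ν, hν, hν'⟩ := Finset.exists_mem_eq_sup (MvPolynomial.pderiv i P).support
    (MvPolynomial.support_nonempty.2 h) (fun s => s.sum fun _ e => e)
  have h1 : (MvPolynomial.pderiv i P).totalDegree = ν.sum fun _ e => e := hν'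
  have h2 : ν + Finsupp.single i 1 ∈ P.support := by
    rw [MvPolynomial.mem_support_iff] at hν ⊢
    intro h3
    apply hν
    rw [MvPolynomial.coeff_pderiv, h3, zero_mul]
  have h3 := MvPolynomial.le_totalDegree h2
  rw [Finsupp.sum_add_index' (fun _ => rfl) (fun _ _ _ => rfl), Finsupp.sum_single_index rfl] at h3
  rw [h1]
  exact h3

theorem DVT_deg (X : Fin N → Matrix (Fin n) (Fin n) R) (P : MvPolynomial (Fin N × Fin n × Fin n) R) :
    (DVT X P).totalDegree ≤ P.totalDegree := by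
  classical
  rw [DVT_apply]
  refine MvPolynomial.totalDegree_finsetSum_le fun σ _ => ?_
  by_cases h : MvPolynomial.pderiv σ P = 0
  · rw [h, zero_mul, MvPolynomial.totalDegree_zero]
    exact Nat.zero_le _
  · refine (MvPolynomial.totalDegree_mul _ _).trans ?_
    have h1 := totalDegree_pderiv σ P h
    have h2 : (∑ l, MvPolynomial.C (X σ.1 σ.2.1 l) *
        (MvPolynomial.X (σ.1, l, σ.2.2) : MvPolynomial (Fin N × Fin n × Fin n) R)).totalDegree ≤ 1 := by
      refine MvPolynomial.totalDegree_finsetSum_le fun l _ => ?_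
      refine (MvPolynomial.totalDegree_mul _ _).trans ?_
      rw [MvPolynomial.totalDegree_C, zero_add]
      by_cases hR : Nontrivial R
      · rw [MvPolynomial.totalDegree_X]
      · rw [not_nontrivial_iff_subsingleton] at hR
        rw [Subsingleton.elim (MvPolynomial.X (σ.1, l, σ.2.2) : MvPolynomial (Fin N × Fin n × Fin n) R) 0,
          MvPolynomial.totalDegree_zero]
        exact Nat.zero_le _
    omega

end ring

variable {n N : ℕ}

/-- words of vector fields applied to a polynomial -/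
inductive Wp (G : Set (Fin N → Matrix (Fin n) (Fin n) ℂ)) (S : MvPolynomial (Fin N × Fin n × Fin n) ℂ) :
    ℕ → MvPolynomial (Fin N × Fin n × Fin n) ℂ → Prop
  | zero : Wp G S 0 S
  | succ {r : ℕ} {P : MvPolynomial (Fin N × Fin n × Fin n) ℂ} {X : Fin N → Matrix (Fin n) (Fin n) ℂ}
      (hP : Wp G S r P) (hX : X ∈ G) : Wp G S (r + 1) (DVT X P)

theorem Wp_deg {G : Set (Fin N → Matrix (Fin n) (Fin n) ℂ)} {S P : MvPolynomial (Fin N × Fin n × Fin n) ℂ} {r : ℕ}
    (h : Wp G S r P) : P.totalDegree ≤ S.totalDegree := by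
  induction h with
  | zero => exact le_rfl
  | succ _ _ ih => exact (DVT_deg _ _).trans ih

/-- the dimension of the space of polynomials of degree at most `d` -/
noncomputable def dimP (n N d : ℕ) : ℕ := finrank ℂ (MvPolynomial.restrictTotalDegree (Fin N × Fin n × Fin n) ℂ d)

/-- **bounded words suffice** -/
theorem exists_stable {G : Set (Fin N → Matrix (Fin n) (Fin n) ℂ)} {S : MvPolynomial (Fin N × Fin n × Fin n) ℂ} {d : ℕ}
    (hS : S.totalDegree ≤ d) {z : Fin N → Matrix (Fin n) (Fin n) ℂ}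
    (h : ∀ r ≤ dimP n N d, ∀ P, Wp G S r P → MvPolynomial.eval (fun σ => z σ.1 σ.2.1 σ.2.2) P = 0) :
    ∃ W : Submodule ℂ (MvPolynomial (Fin N × Fin n × Fin n) ℂ), S ∈ W ∧ (∀ X ∈ Submodule.span ℂ G, ∀ P ∈ W, DVT X P ∈ W) ∧
      ∀ P ∈ W, MvPolynomial.eval (fun σ => z σ.1 σ.2.1 σ.2.2) P = 0 := by
  classical
  set D := dimP n N d with hD
  let V := MvPolynomial.restrictTotalDegree (Fin N × Fin n × Fin n) ℂ d
  let W : ℕ → Submodule ℂ (MvPolynomial (Fin N × Fin n × Fin n) ℂ) := fun r => Submodule.span ℂ {P | ∃ r' ≤ r, Wp G S r' P}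
  have hWV : ∀ r, W r ≤ V := by
    intro r
    refine Submodule.span_le.2 ?_
    rintro P ⟨r', -, hP⟩
    exact (MvPolynomial.mem_restrictTotalDegree _ _ _).2 ((Wp_deg hP).trans hS)
  have hfin : ∀ r, FiniteDimensional ℂ (W r) := fun r => Submodule.finiteDimensional_of_le (hWV r)
  have hmono : ∀ r, W r ≤ W (r + 1) := fun r => Submodule.span_mono fun P hP => by
    obtain ⟨r', h1, h2⟩ := hP
    exact ⟨r', by omega, h2⟩
  obtain ⟨r, hr, hrW⟩ : ∃ r, r ≤ D ∧ W (r + 1) = W r := by
    by_contra hcon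
    push Not at hcon
    have h1 : ∀ r, r ≤ D + 1 → r ≤ finrank ℂ (W r) := by
      intro r
      induction r with
      | zero => exact fun _ => Nat.zero_le _
      | succ r ih =>
        intro hr
        have h2 := ih (by omega)
        have h3 : W r < W (r + 1) := lt_of_le_of_ne (hmono r) (hcon r (by omega)).symm
        have h4 := Submodule.finrank_lt_finrank_of_lt h3
        omega
    have h2 := h1 (D + 1) le_rfl
    have h3 : finrank ℂ (W (D + 1)) ≤ D := Submodule.finrank_mono (hWV _)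
    omega
  refine ⟨W r, Submodule.subset_span ⟨0, Nat.zero_le _, Wp.zero⟩, ?_, ?_⟩
  · have h1 : ∀ X ∈ G, ∀ P ∈ W r, DVT X P ∈ W r := by
      intro X hX P hP
      rw [← hrW]
      have h2 : W r ≤ (W (r + 1)).comap (DVT X) := by
        refine Submodule.span_le.2 ?_
        rintro P ⟨r', hr', hP⟩
        exact Submodule.subset_span ⟨r' + 1, by omega, Wp.succ hP hX⟩
      exact h2 hP
    intro X hX
    induction hX using Submodule.span_induction with
    | mem X hX => exact h1 X hX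
    | zero =>
      intro P _
      rw [DVT_zero]
      exact Submodule.zero_mem _
    | add X Y _ _ hX hY =>
      intro P hP
      rw [DVT_add]
      exact Submodule.add_mem _ (hX P hP) (hY P hP)
    | smul c X _ hX =>
      intro P hP
      rw [DVT_smul]
      exact Submodule.smul_mem _ c (hX P hP)
  · intro P hP
    have h1 : W r ≤ LinearMap.ker (MvPolynomial.aeval (R := ℂ) fun σ : Fin N × Fin n × Fin n => z σ.1 σ.2.1 σ.2.2).toLinearMap := by
      refine Submodule.span_le.2 ?_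
      rintro P ⟨r', hr', hP⟩
      have h2 := h r' (hr'.trans hr) P hP
      rw [← MvPolynomial.coe_aeval_eq_eval] at h2
      exact h2
    have h2 := h1 hP
    rw [← MvPolynomial.coe_aeval_eq_eval]
    exact h2

theorem curveT_HD (X z : Fin N → Matrix (Fin n) (Fin n) ℂ) (P : MvPolynomial (Fin N × Fin n × Fin n) ℂ) (s : ℂ) :
    HasDerivAt (fun u : ℂ => MvPolynomial.eval (fun σ => (NormedSpace.exp (u • X σ.1) * z σ.1) σ.2.1 σ.2.2) P)
      (MvPolynomial.eval (fun σ => (NormedSpace.exp (s • X σ.1) * z σ.1) σ.2.1 σ.2.2) (DVT X P)) s := by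
  have h1 := eval_DVT X (fun j => NormedSpace.exp (s • X j) * z j) P
  rw [h1]
  exact eval_HD P (y := fun u σ => (NormedSpace.exp (u • X σ.1) * z σ.1) σ.2.1 σ.2.2) fun σ =>
    curve_HD (X σ.1) (z σ.1) s (σ.2.1, σ.2.2)

/-- relations on exponential curves -/
theorem curveT_zero {X z : Fin N → Matrix (Fin n) (Fin n) ℂ} (S : MvPolynomial (Fin N × Fin n × Fin n) ℂ → Prop)
    (hS : ∀ P, S P → S (DVT X P)) (h0 : ∀ P, S P → MvPolynomial.eval (fun σ => z σ.1 σ.2.1 σ.2.2) P = 0)
    {P : MvPolynomial (Fin N × Fin n × Fin n) ℂ} (hP : S P) :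
    MvPolynomial.eval (fun σ => (NormedSpace.exp (X σ.1) * z σ.1) σ.2.1 σ.2.2) P = 0 := by
  set f : MvPolynomial (Fin N × Fin n × Fin n) ℂ → ℂ → ℂ := fun P s =>
    MvPolynomial.eval (fun σ => (NormedSpace.exp (s • X σ.1) * z σ.1) σ.2.1 σ.2.2) P with hf
  have h1 : ∀ P, S P → f P 0 = 0 := by
    intro P hP
    rw [hf]
    simp only [zero_smul, exp_zero', Matrix.one_mul]
    exact h0 P hP
  have h2 : ∀ P, S P → ∀ s, HasDerivAt (f P) (f (DVT X P) s) s := fun P _ s => curveT_HD X z P s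
  have h3 := entire_zero S f (DVT X) hS h1 h2 P hP 1
  rw [hf] at h3
  simp only [one_smul] at h3
  exact h3

/-- the group generated by the exponentials -/
noncomputable def expG (𝔤 : Set (Fin N → Matrix (Fin n) (Fin n) ℂ)) : Submonoid (Fin N → Matrix (Fin n) (Fin n) ℂ) :=
  Submonoid.closure {g | ∃ X ∈ 𝔤, g = fun j => NormedSpace.exp (X j)}

/-- **orbits** -/
theorem orbit_zero {W : Submodule ℂ (MvPolynomial (Fin N × Fin n × Fin n) ℂ)} {𝔤 : Set (Fin N → Matrix (Fin n) (Fin n) ℂ)}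
    (hW : ∀ X ∈ 𝔤, ∀ P ∈ W, DVT X P ∈ W) {z : Fin N → Matrix (Fin n) (Fin n) ℂ}
    (h0 : ∀ P ∈ W, MvPolynomial.eval (fun σ => z σ.1 σ.2.1 σ.2.2) P = 0) {g : Fin N → Matrix (Fin n) (Fin n) ℂ}
    (hg : g ∈ expG 𝔤) : ∀ P ∈ W, MvPolynomial.eval (fun σ => (g σ.1 * z σ.1) σ.2.1 σ.2.2) P = 0 := by
  induction hg using Submonoid.closure_induction_left with
  | one =>
    intro P hP
    simp only [Pi.one_apply, Matrix.one_mul]
    exact h0 P hP
  | mul_left g hg g' _ ih =>
    obtain ⟨X, hX, rfl⟩ := hg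
    intro P hP
    have h1 := curveT_zero (X := X) (z := fun j => g' j * z j) (fun P => P ∈ W) (fun P hP => hW X hX P hP) ih hP
    simp only [Pi.mul_apply, Matrix.mul_assoc]
    exact h1

end Pool.Agent.H885
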