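import Pool.Agent.H885.Orb
import Pool.Agent.H885.UnifS

/-!
# Derivations and sequences of polynomials
-/

set_option autoImplicit false
set_option linter.unusedSectionVars false
set_option linter.unusedVariables false

open Matrix Module Filter

namespace Pool.Agent.H885

open Pool.Agent.Helper880_R3 hiding core final
open Pool.Agent.Helper880_LF.NB hiding alg_core
open Pool.Agent.Y118.UL (mk mk_eq mk_eq_zero mk_ne_zero mk_surj ev_ge eval_mk rep qc qc_mk algebraMap_eq U)

section ps
variable {ι ι' : Type}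

/-- sequences of polynomials with coefficients in a given subfield of the ultraproduct -/
def PS (K : Subfield (U ℂ)) (ι : Type) : Subring (ℕ → MvPolynomial ι ℂ) where
  carrier := {P | ∀ ν, mk ℂ (fun k => (P k).coeff ν) ∈ K}
  mul_mem' := by
    classical
    intro P Q hP hQ ν
    have h1 : (fun k => ((P * Q) k).coeff ν) = ∑ x ∈ Finset.HasAntidiagonal.antidiagonal ν, (fun k => (P k).coeff x.1) * fun k => (Q k).coeff x.2 := by
      funext k
      rw [Finset.sum_apply, Pi.mul_apply, MvPolynomial.coeff_mul]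
      rfl
    rw [h1, map_sum]
    refine K.sum_mem fun x _ => ?_
    rw [map_mul]
    exact K.mul_mem (hP _) (hQ _)
  one_mem' := by
    classical
    intro ν
    have h1 : (fun k => ((1 : ℕ → MvPolynomial ι ℂ) k).coeff ν) = if 0 = ν then 1 else 0 := by
      funext k
      rw [Pi.one_apply, MvPolynomial.coeff_one]
      split_ifs <;> rfl
    rw [h1]
    split_ifs
    · rw [map_one]
      exact K.one_mem
    · rw [map_zero]
      exact K.zero_mem
  add_mem' := by
    intro P Q hP hQ ν
    have h1 : (fun k => ((P + Q) k).coeff ν) = (fun k => (P k).coeff ν) + fun k => (Q k).coeff ν := by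
      funext k
      rw [Pi.add_apply, MvPolynomial.coeff_add]
      rfl
    rw [h1, map_add]
    exact K.add_mem (hP _) (hQ _)
  zero_mem' := by
    intro ν
    have h1 : (fun k => ((0 : ℕ → MvPolynomial ι ℂ) k).coeff ν) = 0 := by
      funext k
      rw [Pi.zero_apply, MvPolynomial.coeff_zero]
      rfl
    rw [h1, map_zero]
    exact K.zero_mem
  neg_mem' := by
    intro P hP ν
    have h1 : (fun k => ((-P) k).coeff ν) = -fun k => (P k).coeff ν := by
      funext k
      rw [Pi.neg_apply, MvPolynomial.coeff_neg]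
      rfl
    rw [h1, map_neg]
    exact K.neg_mem (hP _)

variable {K : Subfield (U ℂ)}

theorem mem_PS {P : ℕ → MvPolynomial ι ℂ} : P ∈ PS K ι ↔ ∀ ν, mk ℂ (fun k => (P k).coeff ν) ∈ K := Iff.rfl

theorem PS_C {c : ℕ → ℂ} (hc : mk ℂ c ∈ K) : (fun k => MvPolynomial.C (c k)) ∈ PS K ι := by
  classical
  intro ν
  have h1 : (fun k => (MvPolynomial.C (c k) : MvPolynomial ι ℂ).coeff ν) = if 0 = ν then c else 0 := by
    funext k
    rw [MvPolynomial.coeff_C]
    split_ifs <;> rfl
  rw [h1]
  split_ifs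
  · exact hc
  · rw [map_zero]
    exact K.zero_mem

theorem PS_X (i : ι) : (fun _ => MvPolynomial.X i) ∈ PS K ι := by
  classical
  intro ν
  have h1 : (fun _ : ℕ => (MvPolynomial.X i : MvPolynomial ι ℂ).coeff ν) = if Finsupp.single i 1 = ν then 1 else 0 := by
    funext k
    rw [MvPolynomial.coeff_X]
    split_ifs <;> rfl
  rw [h1]
  split_ifs
  · rw [map_one]
    exact K.one_mem
  · rw [map_zero]
    exact K.zero_mem

theorem PS_pderiv {P : ℕ → MvPolynomial ι ℂ} (hP : P ∈ PS K ι) (i : ι) : (fun k => MvPolynomial.pderiv i (P k)) ∈ PS K ι := by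
  intro ν
  have h1 : (fun k => (MvPolynomial.pderiv i (P k)).coeff ν) =
      (fun k => (P k).coeff (ν + Finsupp.single i 1)) * ((ν i + 1 : ℕ) : ℕ → ℂ) := by
    funext k
    rw [MvPolynomial.coeff_pderiv, Pi.mul_apply]
    simp
  rw [h1, map_mul, map_natCast]
  exact K.mul_mem (hP _) (natCast_mem K _)

theorem PS_DVT {n N : ℕ} {P : ℕ → MvPolynomial (Fin N × Fin n × Fin n) ℂ} (hP : P ∈ PS K _)
    {F : ℕ → Fin N → Matrix (Fin n) (Fin n) ℂ} (hF : ∀ j a b, mk ℂ (fun k => F k j a b) ∈ K) :
    (fun k => DVT (F k) (P k)) ∈ PS K (Fin N × Fin n × Fin n) := by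
  have h1 : (fun k => DVT (F k) (P k)) = ∑ σ : Fin N × Fin n × Fin n, (fun k => MvPolynomial.pderiv σ (P k)) *
      ∑ l, (fun k => MvPolynomial.C (F k σ.1 σ.2.1 l)) * fun _ => MvPolynomial.X (σ.1, l, σ.2.2) := by
    funext k
    rw [DVT_apply, Finset.sum_apply]
    refine Finset.sum_congr rfl fun σ _ => ?_
    rw [Pi.mul_apply, Finset.sum_apply]
    rfl
  rw [h1]
  exact (PS K _).sum_mem fun σ _ => (PS K _).mul_mem (PS_pderiv hP σ) ((PS K _).sum_mem fun l _ =>
    (PS K _).mul_mem (PS_C (hF _ _ _)) (PS_X _))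

/-- the exponents of degree at most `d` -/
noncomputable def expoD (ι : Type) [Fintype ι] (d : ℕ) : Finset (ι →₀ ℕ) := by
  classical
  exact (Finset.range (d + 1)).biUnion fun d' => Finset.univ.finsuppAntidiag d'

theorem support_expoD [Fintype ι] {d : ℕ} {P : MvPolynomial ι ℂ} (h : P.totalDegree ≤ d) : P.support ⊆ expoD ι d := by
  classical
  intro m hm
  unfold expoD
  rw [Finset.mem_biUnion]
  refine ⟨∑ i, m i, ?_, ?_⟩
  · rw [Finset.mem_range]
    have h2 := MvPolynomial.le_totalDegree hm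
    rw [Finsupp.sum_fintype _ _ (fun _ => rfl)] at h2
    omega
  · rw [Finset.mem_finsuppAntidiag]
    exact ⟨rfl, Finset.subset_univ _⟩

theorem sum_expoD [Fintype ι] {d : ℕ} {P : MvPolynomial ι ℂ} (h : P.totalDegree ≤ d) :
    P = ∑ ν ∈ expoD ι d, MvPolynomial.monomial ν (P.coeff ν) := by
  conv_lhs => rw [MvPolynomial.as_sum P]
  refine Finset.sum_subset (support_expoD h) fun ν _ hν => ?_
  rw [MvPolynomial.notMem_support_iff.1 hν, map_zero]

/-- substitution -/
theorem PS_bind [Fintype ι] {d : ℕ} {S : ℕ → MvPolynomial ι ℂ} (hd : ∀ k, (S k).totalDegree ≤ d) (hS : S ∈ PS K ι)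
    {f : ℕ → ι → MvPolynomial ι' ℂ} (hf : ∀ i, (fun k => f k i) ∈ PS K ι') :
    (fun k => MvPolynomial.bind₁ (f k) (S k)) ∈ PS K ι' := by
  classical
  have h1 : (fun k => MvPolynomial.bind₁ (f k) (S k)) = ∑ ν ∈ expoD ι d, (fun k => MvPolynomial.C ((S k).coeff ν)) *
      ∏ i, (fun k => f k i) ^ ν i := by
    funext k
    conv_lhs => rw [sum_expoD (hd k)]
    rw [map_sum, Finset.sum_apply]
    refine Finset.sum_congr rfl fun ν _ => ?_
    rw [MvPolynomial.bind₁_monomial, Pi.mul_apply, Finset.prod_apply]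
    congr 1
    refine Finset.prod_subset (Finset.subset_univ _) fun i _ hi => ?_
    rw [Finsupp.notMem_support_iff.1 hi, pow_zero]
  rw [h1]
  exact (PS K _).sum_mem fun ν _ => (PS K _).mul_mem (PS_C (hS ν)) ((PS K _).prod_mem fun i _ => (PS K _).pow_mem (hf i) _)

theorem bind_deg {S : MvPolynomial ι ℂ} {f : ι → MvPolynomial ι' ℂ} (hf : ∀ i, (f i).totalDegree ≤ 1) :
    (MvPolynomial.bind₁ f S).totalDegree ≤ S.totalDegree := by
  classical
  conv_lhs => rw [MvPolynomial.as_sum S]
  rw [map_sum]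
  refine MvPolynomial.totalDegree_finsetSum_le fun ν hν => ?_
  rw [MvPolynomial.bind₁_monomial]
  refine (MvPolynomial.totalDegree_mul _ _).trans ?_
  rw [MvPolynomial.totalDegree_C, zero_add]
  refine (MvPolynomial.totalDegree_finsetProd _ _).trans ?_
  refine le_trans ?_ (MvPolynomial.le_totalDegree hν)
  refine Finset.sum_le_sum fun i _ => ?_
  refine (MvPolynomial.totalDegree_pow _ _).trans ?_
  exact (Nat.mul_le_mul_left _ (hf i)).trans (Nat.mul_one _).le

/-- the values -/
theorem star_eval [Fintype ι] {d : ℕ} {P : ℕ → MvPolynomial ι ℂ} (hd : ∀ k, (P k).totalDegree ≤ d)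
    {Q : MvPolynomial ι K} (hQ : ∀ ν, ((Q.coeff ν : K) : U ℂ) = mk ℂ fun k => (P k).coeff ν) (y : ℕ → ι → ℂ) :
    MvPolynomial.aeval (fun i => mk ℂ fun k => y k i) Q = mk ℂ fun k => MvPolynomial.eval (y k) (P k) := by
  classical
  have h2 : (fun k => MvPolynomial.eval (y k) (P k)) = ∑ ν ∈ expoD ι d, fun k => (P k).coeff ν * ∏ i, y k i ^ ν i := by
    funext k
    rw [Finset.sum_apply, MvPolynomial.eval_eq']
    refine Finset.sum_subset (support_expoD (hd k)) fun ν _ hν => ?_
    rw [MvPolynomial.notMem_support_iff.1 hν, zero_mul]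
  have h1 : Q.support ⊆ expoD ι d := by
    intro ν hν
    by_contra hcon
    rw [MvPolynomial.mem_support_iff] at hν
    apply hν
    apply Subtype.ext
    rw [hQ]
    have h3 : (fun k => (P k).coeff ν) = fun _ => 0 := by
      funext k
      exact MvPolynomial.notMem_support_iff.1 fun h => hcon (support_expoD (hd k) h)
    rw [h3]
    exact map_zero (mk ℂ)
  rw [h2, map_sum, MvPolynomial.aeval_def, MvPolynomial.eval₂_eq']
  have h4 : ∀ ν, mk ℂ (fun k => (P k).coeff ν * ∏ i, y k i ^ ν i) =
      algebraMap K (U ℂ) (Q.coeff ν) * ∏ i, (mk ℂ fun k => y k i) ^ ν i := by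
    intro ν
    have h3 : (fun k => (P k).coeff ν * ∏ i, y k i ^ ν i) = (fun k => (P k).coeff ν) * ∏ i, (fun k => y k i) ^ ν i := by
      funext k
      simp
    rw [h3, map_mul, map_prod, ← hQ]
    simp only [map_pow]
    rfl
  rw [Finset.sum_congr rfl fun ν _ => h4 ν]
  refine Finset.sum_subset h1 fun ν _ hν => ?_
  rw [MvPolynomial.notMem_support_iff.1 hν, map_zero, zero_mul]

theorem der_aeval {k Ω : Type} [Field k] [Field Ω] [Algebra k Ω] [Fintype ι] {δ : Derivation k Ω Ω} {K : Subfield Ω}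
    (hK : ∀ x ∈ K, δ x = 0) (Q : MvPolynomial ι K) (y : ι → Ω) :
    δ (MvPolynomial.aeval y Q) = ∑ i, MvPolynomial.aeval y (MvPolynomial.pderiv i Q) * δ (y i) := by
  classical
  induction Q using MvPolynomial.induction_on with
  | C a =>
    rw [MvPolynomial.aeval_C]
    have h1 : δ (algebraMap K Ω a) = 0 := hK a.1 a.2
    rw [h1]
    symm
    refine Finset.sum_eq_zero fun i _ => ?_
    rw [MvPolynomial.pderiv_C, map_zero, zero_mul]
  | add p q hp hq =>
    rw [map_add, map_add, hp, hq, ← Finset.sum_add_distrib]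
    refine Finset.sum_congr rfl fun i _ => ?_
    rw [map_add, map_add, add_mul]
  | mul_X p i hp =>
    rw [map_mul, MvPolynomial.aeval_X, δ.leibniz, hp, smul_eq_mul, smul_eq_mul]
    have h2 : ∀ b, MvPolynomial.aeval y (MvPolynomial.pderiv b (p * MvPolynomial.X i)) * δ (y b) =
        (MvPolynomial.aeval y (MvPolynomial.pderiv b p) * δ (y b)) * y i +
          (if i = b then MvPolynomial.aeval y p * δ (y i) else 0) := by
      intro b
      rw [MvPolynomial.pderiv_mul, map_add, map_mul, map_mul, MvPolynomial.aeval_X]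
      by_cases h2 : i = b
      · subst h2
        rw [MvPolynomial.pderiv_X_self, map_one, if_pos rfl]
        ring
      · rw [MvPolynomial.pderiv_X_of_ne h2, map_zero, if_neg h2]
        ring
    rw [Finset.sum_congr rfl fun b _ => h2 b, Finset.sum_add_distrib, Finset.sum_ite_eq, if_pos (Finset.mem_univ i),
      ← Finset.sum_mul]
    ring

/-- **the chain rule for sequences of polynomials** -/
theorem der_seq [Fintype ι] {d : ℕ} {δ : Derivation (U ℚ) (U ℂ) (U ℂ)} {P : ℕ → MvPolynomial ι ℂ}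
    (hK : ∀ x ∈ K, δ x = 0) (hd : ∀ k, (P k).totalDegree ≤ d) (hP : P ∈ PS K ι) (y : ℕ → ι → ℂ) :
    δ (mk ℂ fun k => MvPolynomial.eval (y k) (P k)) =
      ∑ i, (mk ℂ fun k => MvPolynomial.eval (y k) (MvPolynomial.pderiv i (P k))) * δ (mk ℂ fun k => y k i) := by
  classical
  let Q : MvPolynomial ι K := ∑ ν ∈ expoD ι d, MvPolynomial.monomial ν ⟨mk ℂ fun k => (P k).coeff ν, hP ν⟩
  have hQ : ∀ ν, ((Q.coeff ν : K) : U ℂ) = mk ℂ fun k => (P k).coeff ν := by
    intro ν
    show ((MvPolynomial.coeff ν (∑ ν ∈ expoD ι d, _) : K) : U ℂ) = _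
    rw [MvPolynomial.coeff_sum]
    by_cases hν : ν ∈ expoD ι d
    · rw [Finset.sum_eq_single ν]
      · rw [MvPolynomial.coeff_monomial, if_pos rfl]
      · intro μ _ hμ
        rw [MvPolynomial.coeff_monomial, if_neg hμ]
      · intro h
        exact absurd hν h
    · have h3 : (fun k => (P k).coeff ν) = fun _ => 0 := by
        funext k
        exact MvPolynomial.notMem_support_iff.1 fun h => hν (support_expoD (hd k) h)
      rw [h3, Finset.sum_eq_zero]
      · exact (map_zero (mk ℂ)).symm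
      · intro μ hμ
        rw [MvPolynomial.coeff_monomial, if_neg]
        intro h
        rw [h] at hμ
        exact hν hμ
  rw [← star_eval hd hQ y, der_aeval hK]
  refine Finset.sum_congr rfl fun i _ => ?_
  congr 1
  refine star_eval (d := d) (P := fun k => MvPolynomial.pderiv i (P k)) (fun k => ?_) (fun ν => ?_) y
  · by_cases h : MvPolynomial.pderiv i (P k) = 0
    · rw [h, MvPolynomial.totalDegree_zero]
      exact Nat.zero_le _
    · have h1 := totalDegree_pderiv i (P k) h
      have h2 := hd k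
      omega
  · rw [MvPolynomial.coeff_pderiv]
    have h1 : (fun k => (MvPolynomial.pderiv i (P k)).coeff ν) =
        (fun k => (P k).coeff (ν + Finsupp.single i 1)) * ((ν i + 1 : ℕ) : ℕ → ℂ) := by
      funext k
      rw [MvPolynomial.coeff_pderiv, Pi.mul_apply]
      simp
    rw [h1, map_mul, map_natCast, ← hQ]
    push_cast
    rfl

end ps

end Pool.Agent.H885
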