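import Pool.Agent.H885.DerF
import Pool.Agent.H885.Rat
import Pool.Agent.H885.OrbT

/-!
# The space of the infinitesimal symmetries over a number field is spanned by algebraic matrices
-/

set_option autoImplicit false
set_option linter.unusedSectionVars false
set_option linter.unusedVariables false

open PowerSeries NumberField Module

namespace Pool.Agent.H885

section comp
variable {σ σ' : Type} [Fintype σ] [DecidableEq σ] [Fintype σ'] [DecidableEq σ']

theorem evO_C (Z : σ → ℂ⟦X⟧) (a : ℂ) : evO Z (MvPolynomial.C a) = PowerSeries.C a := by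
  unfold evO
  rw [MvPolynomial.aeval_C]
  rfl

/-- substitutions -/
theorem Tg_comp {Y w' : σ → ℂ⟦X⟧} {Z w : σ' → ℂ⟦X⟧} (Λ : σ → MvPolynomial (Option σ') ℂ) (h1 : ∀ s, evO Z (Λ s) = Y s)
    (h2 : ∀ s, dlO Z w (Λ s) = w' s) (h : Tg Z w) : Tg Y w' := by
  intro P hP
  set sub : MvPolynomial (Option σ) ℂ →ₐ[ℂ] MvPolynomial (Option σ') ℂ :=
    MvPolynomial.aeval fun o => o.elim (MvPolynomial.X none) Λ with hsub
  have hX0 : sub (MvPolynomial.X none) = MvPolynomial.X none := MvPolynomial.aeval_X _ _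
  have hXs : ∀ s, sub (MvPolynomial.X (some s)) = Λ s := fun s => MvPolynomial.aeval_X _ _
  have e1 : ∀ P, evO Z (sub P) = evO Y P := by
    intro P
    induction P using MvPolynomial.induction_on with
    | C a =>
      have h3 : sub (MvPolynomial.C a) = MvPolynomial.C a := by
        rw [hsub, MvPolynomial.aeval_C]
        rfl
      rw [h3, evO_C, evO_C]
    | add p q hp hq => rw [map_add, map_add, hp, hq, map_add]
    | mul_X p i hp =>
      rw [map_mul, map_mul, hp, map_mul]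
      cases i with
      | none => rw [hX0, evO_X0, evO_X0]
      | some s => rw [hXs, h1, evO_X]
  have e2 : ∀ P, dlO Z w (sub P) = dlO Y w' P := by
    intro P
    induction P using MvPolynomial.induction_on with
    | C a =>
      have h3 : sub (MvPolynomial.C a) = MvPolynomial.C a := by
        rw [hsub, MvPolynomial.aeval_C]
        rfl
      rw [h3, dlO_C, dlO_C]
    | add p q hp hq => rw [map_add, dlO_add, hp, hq, dlO_add]
    | mul_X p i hp =>
      rw [map_mul, dlO_mul, hp, dlO_mul, e1]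
      cases i with
      | none => rw [hX0, evO_X0, evO_X0, dlO_X0, dlO_X0]
      | some s => rw [hXs, h1, h2, evO_X, dlO_X]
  rw [← e2]
  refine h _ ?_
  rw [e1]
  exact hP

/-- linear forms -/
theorem lin_ev {κ : Type} (t : Finset κ) (c : κ → ℂ) (f : κ → σ) (Z : σ → ℂ⟦X⟧) :
    evO Z (∑ i ∈ t, MvPolynomial.C (c i) * MvPolynomial.X (some (f i))) = ∑ i ∈ t, PowerSeries.C (c i) * Z (f i) := by
  rw [map_sum]
  refine Finset.sum_congr rfl fun i _ => ?_
  rw [map_mul, evO_C, evO_X]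

theorem lin_dl {κ : Type} (t : Finset κ) (c : κ → ℂ) (f : κ → σ) (Z w : σ → ℂ⟦X⟧) :
    dlO Z w (∑ i ∈ t, MvPolynomial.C (c i) * MvPolynomial.X (some (f i))) = ∑ i ∈ t, PowerSeries.C (c i) * w (f i) := by
  classical
  induction t using Finset.induction_on with
  | empty =>
    rw [Finset.sum_empty, Finset.sum_empty]
    unfold dlO
    simp
  | insert i t hi ih => rw [Finset.sum_insert hi, Finset.sum_insert hi, dlO_add, ih, dlO_mul, evO_C, dlO_X, dlO_C, mul_zero, add_zero]

end comp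

variable {m n N L : ℕ} {F : Type} [Field F] [NumberField F]

/-- a formula for the entries -/
theorem entry_ps {φ : F →+* ℂ} {V : Matrix (Fin n) (Fin n) ℂ⟦X⟧} {M : Matrix (Fin (n * dg F)) (Fin (n * dg F)) ℂ⟦X⟧}
    (h : (omM n φ).map (PowerSeries.C (R := ℂ)) * M = V * (omM n φ).map (PowerSeries.C (R := ℂ))) (a c : Fin n) : V a c =
      ∑ p : Fin (dg F) × Fin (dg F), PowerSeries.C (((one₁ F p.1 : ℚ) : ℂ) * Om F φ p.2) *
        M (finProdFinEquiv (a, p.2)) (finProdFinEquiv (c, p.1)) := by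
  ext k
  have h1 : omM n φ * M.map (coeff k) = V.map (coeff k) * omM n φ := by
    ext1 a q
    have h2 := congrArg (fun M => coeff k (M a q)) h
    simp only [Matrix.mul_apply, map_sum, Matrix.map_apply, PowerSeries.coeff_C_mul, PowerSeries.coeff_mul_C] at h2
    rw [Matrix.mul_apply, Matrix.mul_apply]
    exact h2
  have h2 := entry_eq h1 a c
  rw [Matrix.map_apply] at h2
  rw [h2, map_sum, Fintype.sum_prod_type]
  refine Finset.sum_congr rfl fun τ _ => Finset.sum_congr rfl fun υ _ => ?_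
  rw [PowerSeries.coeff_C_mul, Matrix.map_apply]
  ring

/-- the parts of the restriction of scalars -/
noncomputable def cpart (b : Fin N → ℕ) (Z : Fin N → Matrix (Fin n) (Fin n) F⟦X⟧) (c : ℕ) (j : Fin N) :
    Matrix (Fin (n * dg F)) (Fin (n * dg F)) ℂ⟦X⟧ := (part b (fun j => rsM (Z j)) c j).map (PowerSeries.map (algebraMap ℚ ℂ))

theorem cpart_of {b : Fin N → ℕ} {Z : Fin N → Matrix (Fin n) (Fin n) F⟦X⟧} {c : ℕ} {j : Fin N} (hj : b j = c) :
    cpart b Z c j = (rsM (Z j)).map (PowerSeries.map (algebraMap ℚ ℂ)) := by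
  unfold cpart part
  rw [if_pos hj]

theorem cpart_om (b : Fin N → ℕ) (φ : Fin N → F →+* ℂ) (Z : Fin N → Matrix (Fin n) (Fin n) F⟦X⟧) (c : ℕ) (j : Fin N) :
    (omM n (φ j)).map (PowerSeries.C (R := ℂ)) * cpart b Z c j = embY b φ Z c j * (omM n (φ j)).map (PowerSeries.C (R := ℂ)) := by
  unfold cpart part embY
  by_cases hj : b j = c
  · rw [if_pos hj, if_pos hj]
    exact om_ps _ _
  · rw [if_neg hj, if_neg hj]
    have h2 : ((1 : Matrix (Fin (n * dg F)) (Fin (n * dg F)) ℚ⟦X⟧).map (PowerSeries.map (algebraMap ℚ ℂ))) = 1 := by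
      ext1 c d
      rw [Matrix.map_apply, Matrix.one_apply, Matrix.one_apply]
      split_ifs
      · exact map_one _
      · exact map_zero _
    rw [h2, Matrix.mul_one, Matrix.one_mul]

/-- the symmetries of the restriction of scalars are tangent -/
theorem tg_of_inf {b : Fin N → ℕ} {Z : Fin N → Matrix (Fin n) (Fin n) F⟦X⟧}
    {X' : Fin N → Matrix (Fin (n * dg F)) (Fin (n * dg F)) ℂ} {c : ℕ}
    (hX : InfT (part b (fun j => rsM (Z j)) c) (fun j => if b j = c then X' j else 0)) :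
    Tg (fun s : Fin N × Fin (n * dg F) × Fin (n * dg F) => cpart b Z c s.1 s.2.1 s.2.2)
      (fun s => ((if b s.1 = c then X' s.1 else 0 : Matrix (Fin (n * dg F)) (Fin (n * dg F)) ℂ).map (PowerSeries.C (R := ℂ)) *
        cpart b Z c s.1) s.2.1 s.2.2) := by
  refine Tg_iff.2 fun R hR => ?_
  refine Eq.trans (Finset.sum_congr rfl fun s _ => ?_) (hX R hR)
  rw [Matrix.mul_apply]
  rfl

/-- **symmetries of the restriction of scalars respect the structure** -/
theorem om_X {b : Fin N → ℕ} (φ : Fin N → F →+* ℂ) {Z W : Fin N → Matrix (Fin n) (Fin n) F⟦X⟧} (hWZ : ∀ j, W j * Z j = 1)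
    {X' : Fin N → Matrix (Fin (n * dg F)) (Fin (n * dg F)) ℂ}
    (hX : ∀ c, InfT (part b (fun j => rsM (Z j)) c) (fun j => if b j = c then X' j else 0)) (j : Fin N) :
    ∃ X : Matrix (Fin n) (Fin n) ℂ, omM n (φ j) * X' j = X * omM n (φ j) := by
  classical
  set ψ := φ j with hψ
  obtain ⟨wv, hwv, ht⟩ : ∃ wv : Fin N × Fin (n * dg F) × Fin (n * dg F) → ℂ⟦X⟧,
      (∀ p q, wv (j, p, q) = ((X' j).map (PowerSeries.C (R := ℂ)) * (rsM (Z j)).map (PowerSeries.map (algebraMap ℚ ℂ))) p q) ∧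
      Tg (fun s : Fin N × Fin (n * dg F) × Fin (n * dg F) => cpart b Z (b j) s.1 s.2.1 s.2.2) wv := by
    refine ⟨_, fun p q => ?_, tg_of_inf (hX (b j))⟩
    show ((if b j = b j then X' j else 0 : Matrix (Fin (n * dg F)) (Fin (n * dg F)) ℂ).map (PowerSeries.C (R := ℂ)) *
        cpart b Z (b j) j) p q = _
    rw [if_pos rfl, cpart_of rfl]
  set Zc := (rsM (Z j)).map (PowerSeries.map (algebraMap ℚ ℂ)) with hZc
  set M := (X' j).map (PowerSeries.C (R := ℂ)) * Zc with hM
  have hom := om_ps ψ (Z j)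
  -- the linear relations
  have hlin : ∀ a c τ τ', ∑ υ, PowerSeries.C (Om F ψ τ' * Om F ψ υ) * M (finProdFinEquiv (a, υ)) (finProdFinEquiv (c, τ)) =
      ∑ υ, PowerSeries.C (Om F ψ τ * Om F ψ υ) * M (finProdFinEquiv (a, υ)) (finProdFinEquiv (c, τ')) := by
    intro a c τ τ'
    have hz : ∀ k a c τ, ∑ υ, Om F ψ υ * coeff k (Zc (finProdFinEquiv (a, υ)) (finProdFinEquiv (c, τ))) =
        ψ (coeff k (Z j a c)) * Om F ψ τ := by
      intro k a c τ
      have h1 := Om_MF F ψ (coeff k (Z j a c)) τ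
      rw [← h1]
      refine Finset.sum_congr rfl fun υ _ => ?_
      rw [hZc, Matrix.map_apply, PowerSeries.coeff_map]
      unfold rsM
      rw [Equiv.symm_apply_apply, Equiv.symm_apply_apply, coeff_RS]
      rfl
    have h0 := ht (∑ υ : Fin (dg F), MvPolynomial.C (Om F ψ τ' * Om F ψ υ) *
        MvPolynomial.X (some (j, finProdFinEquiv (a, υ), finProdFinEquiv (c, τ))) +
      ∑ υ : Fin (dg F), MvPolynomial.C (-(Om F ψ τ * Om F ψ υ)) *
        MvPolynomial.X (some (j, finProdFinEquiv (a, υ), finProdFinEquiv (c, τ')))) (by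
        rw [map_add, lin_ev Finset.univ (fun υ => Om F ψ τ' * Om F ψ υ) (fun υ => (j, finProdFinEquiv (a, υ), finProdFinEquiv (c, τ))),
          lin_ev Finset.univ (fun υ => -(Om F ψ τ * Om F ψ υ)) (fun υ => (j, finProdFinEquiv (a, υ), finProdFinEquiv (c, τ')))]
        dsimp only
        rw [cpart_of rfl]
        ext k
        rw [map_add, map_sum, map_sum, map_zero]
        have h2 : ∑ υ, coeff k (PowerSeries.C (Om F ψ τ' * Om F ψ υ) * Zc (finProdFinEquiv (a, υ)) (finProdFinEquiv (c, τ))) =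
            Om F ψ τ' * (ψ (coeff k (Z j a c)) * Om F ψ τ) := by
          rw [← hz, Finset.mul_sum]
          refine Finset.sum_congr rfl fun υ _ => ?_
          rw [PowerSeries.coeff_C_mul]
          ring
        have h3 : ∑ υ, coeff k (PowerSeries.C (-(Om F ψ τ * Om F ψ υ)) * Zc (finProdFinEquiv (a, υ)) (finProdFinEquiv (c, τ'))) =
            -(Om F ψ τ * (ψ (coeff k (Z j a c)) * Om F ψ τ')) := by
          rw [← hz, Finset.mul_sum, ← Finset.sum_neg_distrib]
          refine Finset.sum_congr rfl fun υ _ => ?_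
          rw [PowerSeries.coeff_C_mul]
          ring
        refine (congrArg₂ (· + ·) h2 h3).trans ?_
        show Om F ψ τ' * (ψ (coeff k (Z j a c)) * Om F ψ τ) + -(Om F ψ τ * (ψ (coeff k (Z j a c)) * Om F ψ τ')) = 0
        ring)
    rw [dlO_add, lin_dl Finset.univ (fun υ => Om F ψ τ' * Om F ψ υ) (fun υ => (j, finProdFinEquiv (a, υ), finProdFinEquiv (c, τ))),
      lin_dl Finset.univ (fun υ => -(Om F ψ τ * Om F ψ υ)) (fun υ => (j, finProdFinEquiv (a, υ), finProdFinEquiv (c, τ')))] at h0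
    simp only [hwv] at h0
    have h4 : ∀ υ, PowerSeries.C (-(Om F ψ τ * Om F ψ υ)) * M (finProdFinEquiv (a, υ)) (finProdFinEquiv (c, τ')) =
        -(PowerSeries.C (Om F ψ τ * Om F ψ υ) * M (finProdFinEquiv (a, υ)) (finProdFinEquiv (c, τ'))) := by
      intro υ
      rw [map_neg, neg_mul]
    have h5 : ∑ υ, PowerSeries.C (Om F ψ τ' * Om F ψ υ) * M (finProdFinEquiv (a, υ)) (finProdFinEquiv (c, τ)) +
        ∑ υ, PowerSeries.C (-(Om F ψ τ * Om F ψ υ)) * M (finProdFinEquiv (a, υ)) (finProdFinEquiv (c, τ')) = 0 := h0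
    rw [Finset.sum_congr rfl fun υ _ => h4 υ, Finset.sum_neg_distrib] at h5
    exact add_neg_eq_zero.1 h5
  -- the factor
  set Yv : Matrix (Fin n) (Fin n) ℂ⟦X⟧ := Matrix.of fun a c => ∑ τ', ∑ υ, PowerSeries.C (((one₁ F τ' : ℚ) : ℂ) * Om F ψ υ) *
    M (finProdFinEquiv (a, υ)) (finProdFinEquiv (c, τ')) with hYv
  have h1 : (omM n ψ).map (PowerSeries.C (R := ℂ)) * M = Yv * (omM n ψ).map (PowerSeries.C (R := ℂ)) := by
    ext a q k
    obtain ⟨⟨c, τ⟩, rfl⟩ := finProdFinEquiv.surjective q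
    have h2 : coeff k (((omM n ψ).map (PowerSeries.C (R := ℂ)) * M) a (finProdFinEquiv (c, τ))) =
        ∑ υ, Om F ψ υ * coeff k (M (finProdFinEquiv (a, υ)) (finProdFinEquiv (c, τ))) := by
      have h3 := omM_mul ψ (M.map (coeff k)) a (finProdFinEquiv (c, τ))
      rw [Matrix.mul_apply] at h3
      rw [Matrix.mul_apply, map_sum]
      refine Eq.trans (Finset.sum_congr rfl fun p _ => ?_) h3
      rw [Matrix.map_apply, Matrix.map_apply, PowerSeries.coeff_C_mul]
    have h3 : coeff k ((Yv * (omM n ψ).map (PowerSeries.C (R := ℂ))) a (finProdFinEquiv (c, τ))) = coeff k (Yv a c) * Om F ψ τ := by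
      have h4 := mul_omM ψ (Yv.map (coeff k)) a c τ
      rw [Matrix.mul_apply] at h4
      rw [Matrix.mul_apply, map_sum]
      refine Eq.trans (Finset.sum_congr rfl fun p _ => ?_) h4
      rw [Matrix.map_apply, Matrix.map_apply, PowerSeries.coeff_mul_C]
    rw [h2, h3]
    have h4 : coeff k (Yv a c) = ∑ τ', ((one₁ F τ' : ℚ) : ℂ) * ∑ υ, Om F ψ υ * coeff k (M (finProdFinEquiv (a, υ)) (finProdFinEquiv (c, τ'))) := by
      rw [hYv, Matrix.of_apply, map_sum]
      refine Finset.sum_congr rfl fun τ' _ => ?_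
      rw [map_sum, Finset.mul_sum]
      refine Finset.sum_congr rfl fun υ _ => ?_
      rw [PowerSeries.coeff_C_mul, mul_assoc]
    have h5 : ∀ τ', Om F ψ τ' * ∑ υ, Om F ψ υ * coeff k (M (finProdFinEquiv (a, υ)) (finProdFinEquiv (c, τ))) =
        Om F ψ τ * ∑ υ, Om F ψ υ * coeff k (M (finProdFinEquiv (a, υ)) (finProdFinEquiv (c, τ'))) := by
      intro τ'
      have h6 := congrArg (coeff k) (hlin a c τ τ')
      rw [map_sum, map_sum] at h6
      rw [Finset.mul_sum, Finset.mul_sum]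
      refine Eq.trans (Finset.sum_congr rfl fun υ _ => ?_) (h6.trans (Finset.sum_congr rfl fun υ _ => ?_))
      · rw [PowerSeries.coeff_C_mul, mul_assoc]
      · rw [PowerSeries.coeff_C_mul, mul_assoc]
    rw [h4, Finset.sum_mul]
    have h6 : ∀ τ', ((one₁ F τ' : ℚ) : ℂ) * (∑ υ, Om F ψ υ * coeff k (M (finProdFinEquiv (a, υ)) (finProdFinEquiv (c, τ')))) * Om F ψ τ =
        (((one₁ F τ' : ℚ) : ℂ) * Om F ψ τ') * ∑ υ, Om F ψ υ * coeff k (M (finProdFinEquiv (a, υ)) (finProdFinEquiv (c, τ))) := by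
      intro τ'
      rw [mul_assoc, mul_assoc, h5]
      ring
    rw [Finset.sum_congr rfl fun τ' _ => h6 τ', ← Finset.sum_mul, one₁_sum, one_mul]
  -- the inverse
  set Wc := (rsM (W j)).map (PowerSeries.map (algebraMap ℚ ℂ)) with hWc
  have hZW : Zc * Wc = 1 := by
    have h2 : ∀ M : Matrix (Fin (n * dg F)) (Fin (n * dg F)) ℚ⟦X⟧, M.map (PowerSeries.map (algebraMap ℚ ℂ)) =
        (PowerSeries.map (algebraMap ℚ ℂ)).mapMatrix M := fun M => rfl
    rw [hZc, hWc, h2, h2, ← map_mul, ← rsM_mul, mul_eq_one_comm.1 (hWZ j), rsM_one, map_one]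
  have h2 : (omM n ψ).map (PowerSeries.C (R := ℂ)) * (X' j).map (PowerSeries.C (R := ℂ)) =
      (Yv * (W j).map (PowerSeries.map ψ)) * (omM n ψ).map (PowerSeries.C (R := ℂ)) := by
    have h3 := congrArg (fun M => M * Wc) h1
    simp only [hM, Matrix.mul_assoc] at h3
    rw [hZW, Matrix.mul_one, om_ps] at h3
    rw [h3, Matrix.mul_assoc]
  refine ⟨(Yv * (W j).map (PowerSeries.map ψ)).map (coeff 0), ?_⟩
  ext1 a q
  have h3 := congrArg (fun M => coeff 0 (M a q)) h2
  simp only [Matrix.mul_apply, map_sum, Matrix.map_apply] at h3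
  rw [Matrix.mul_apply, Matrix.mul_apply]
  refine Eq.trans (Finset.sum_congr rfl fun p _ => ?_) (h3.trans (Finset.sum_congr rfl fun p _ => ?_))
  · rw [← map_mul, PowerSeries.coeff_zero_C]
  · rw [PowerSeries.coeff_mul_C, Matrix.map_apply, Matrix.mul_apply]
    rfl

end Pool.Agent.H885
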