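import Pool.Agent.H885.Sys

/-!
# Polynomial relations between the values are specialisations of functional relations
-/

set_option autoImplicit false

open PowerSeries

namespace Pool.Agent.H885

open Pool.Agent.Y113
open Pool.Agent.Y120.GH (gsys_opt)

/-- all products of `d` functions, with explicit constants -/
theorem gsys_tens' (q d : ℕ) : ∃ E : ℕ, 1 ≤ E ∧ ∀ (ι : Type) [Fintype ι] (C : ℝ) (T : Polynomial ℤ) (y : ι → ℚ⟦X⟧),
    GSys q C T y → GSys q ((2 * C) ^ E) T (fun b : Fin d → ι => ∏ j, y (b j)) := by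
  obtain ⟨E, hE⟩ := t_prod q
  induction d with
  | zero =>
    refine ⟨1, le_rfl, fun ι _ C T y h => ?_⟩
    have h1 := GSys.const (ι := Fin 0 → ι) h.one_le h.degT h.sizeT
    have hC := h.one_le
    refine GSys.mono ?_ le_rfl (show C ≤ (2 * C) ^ 1 by rw [pow_one]; linarith)
    simpa using h1
  | succ d ih =>
    obtain ⟨E₁, hE₁1, hE₁⟩ := ih
    refine ⟨(E₁ + 1) * (E + 1), Nat.mul_pos (by omega) (by omega), fun ι _ C T y h => ?_⟩
    have hC := h.one_le
    have hD1 : 1 ≤ 2 * C := by linarith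
    have h0 := hE₁ ι C T y h
    have hle : C ≤ (2 * C) ^ E₁ := by
      calc C ≤ 2 * C := by linarith
        _ = (2 * C) ^ 1 := (pow_one _).symm
        _ ≤ _ := pow_le_pow_right₀ hD1 hE₁1
    have h1 : GSys q ((2 * C) ^ E₁) T y := h.mono le_rfl hle
    have h3 := (hE _ _ _ _ _ _ h1 h0).reindex (Fin.consEquiv fun _ => ι).symm
    have h4 : (fun b : Fin (d + 1) → ι => ∏ j, y (b j)) = fun j =>
        y ((Fin.consEquiv fun _ => ι).symm j).1 * ∏ l : Fin d, y (((Fin.consEquiv fun _ => ι).symm j).2 l) := by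
      funext b
      rw [Fin.prod_univ_succ]
      rfl
    rw [h4]
    refine h3.mono le_rfl ?_
    have h5 : 2 * (2 * C) ^ E₁ ≤ (2 * C) ^ (E₁ + 1) := by
      rw [pow_succ, mul_comm]
      exact mul_le_mul_of_nonneg_left (by linarith) (by positivity)
    calc (2 * (2 * C) ^ E₁) ^ E ≤ ((2 * C) ^ (E₁ + 1)) ^ E := pow_le_pow_left₀ (by positivity) h5 _
      _ = (2 * C) ^ ((E₁ + 1) * E) := (pow_mul _ _ _).symm
      _ ≤ _ := pow_le_pow_right₀ hD1 (Nat.mul_le_mul_left _ (by omega))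

section mon
variable {σ R : Type} [CommRing R]

/-- the monomial of a tuple -/
noncomputable def monO (R : Type) [CommRing R] {σ : Type} {d : ℕ} (b : Fin d → Option σ) : MvPolynomial σ R :=
  ∏ l, (b l).elim 1 MvPolynomial.X

lemma monO_none {d : ℕ} : monO R (fun _ : Fin d => (none : Option σ)) = 1 := by
  unfold monO
  simp

lemma exists_tuple (d : ℕ) (m : σ →₀ ℕ) (hm : m.degree ≤ d) : ∃ b : Fin d → Option σ, monO R b = MvPolynomial.monomial m 1 := by
  classical
  induction d generalizing m with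
  | zero =>
    have h0 : m = 0 := by
      have := Finsupp.degree_eq_zero_iff m
      exact this.1 (by omega)
    refine ⟨fun l => l.elim0, ?_⟩
    rw [h0]
    unfold monO
    simp
  | succ d ih =>
    by_cases h0 : m = 0
    · refine ⟨fun _ => none, ?_⟩
      rw [monO_none, h0]
      rfl
    · obtain ⟨i, hi⟩ : ∃ i, m i ≠ 0 := by
        by_contra hcon
        push Not at hcon
        exact h0 (Finsupp.ext hcon)
      have h1 : Finsupp.single i 1 ≤ m := by
        rw [Finsupp.single_le_iff]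
        omega
      obtain ⟨m', rfl⟩ := exists_add_of_le h1
      obtain ⟨b, hb⟩ := ih m' (by
        rw [map_add] at hm
        have : (Finsupp.single i 1).degree = 1 := Finsupp.degree_single i 1
        omega)
      refine ⟨Fin.cons (some i) b, ?_⟩
      unfold monO at hb ⊢
      rw [Fin.prod_univ_succ]
      simp only [Fin.cons_zero, Fin.cons_succ]
      rw [hb]
      show MvPolynomial.X i * _ = _
      rw [MvPolynomial.X, MvPolynomial.monomial_mul, one_mul]

/-- polynomials of bounded degree are combinations of the monomials of tuples -/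
lemma exists_coef {k : Type} [Field k] [Fintype σ] {d : ℕ} (P : MvPolynomial σ k) (hP : P.totalDegree ≤ d) :
    ∃ c : (Fin d → Option σ) → k, P = ∑ b, MvPolynomial.C (c b) * monO k b := by
  classical
  have h1 : ∀ m ∈ P.support, ∃ b : Fin d → Option σ, monO k b = MvPolynomial.monomial m 1 := fun m hm =>
    exists_tuple d m ((MvPolynomial.le_totalDegree hm).trans hP)
  choose! β hβ using h1
  refine ⟨fun b => ∑ m ∈ P.support.filter (fun m => β m = b), P.coeff m, ?_⟩
  conv_lhs => rw [P.as_sum]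
  have h2 : ∀ b : Fin d → Option σ, MvPolynomial.C (∑ m ∈ P.support.filter (fun m => β m = b), P.coeff m) * monO k b =
      ∑ m ∈ P.support.filter (fun m => β m = b), MvPolynomial.monomial m (P.coeff m) := by
    intro b
    rw [map_sum, Finset.sum_mul]
    refine Finset.sum_congr rfl fun m hm => ?_
    rw [Finset.mem_filter] at hm
    rw [← hm.2, hβ m hm.1, MvPolynomial.C_mul_monomial, mul_one]
  rw [Finset.sum_congr rfl fun b _ => h2 b]
  exact (Finset.sum_fiberwise P.support β fun m => MvPolynomial.monomial m (P.coeff m)).symm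

end mon

variable {n N : ℕ}

/-- the entries of the matrices -/
def ent (Z : Fin N → Matrix (Fin n) (Fin n) ℚ⟦X⟧) (σ : Fin N × Fin n × Fin n) : ℚ⟦X⟧ := Z σ.1 σ.2.1 σ.2.2

lemma const_le {κ : ℕ} {H : ℝ} (hH : 1 ≤ H) (e : ℕ) : (κ : ℝ) * H ^ e ≤ (2 * H) ^ (κ + e) := by
  rw [pow_add]
  refine mul_le_mul ?_ (pow_le_pow_left₀ (by linarith) (by linarith) _) (by positivity) (by positivity)
  calc (κ : ℝ) ≤ 2 ^ κ := by exact_mod_cast (Nat.lt_two_pow_self (n := κ)).le
    _ ≤ (2 * H) ^ κ := pow_le_pow_left₀ (by norm_num) (by linarith) _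

/-- **Polynomial relations between the values are specialisations of functional relations.** -/
theorem rel_lift (q n N d : ℕ) : ∃ E : ℕ, ∀ (H : ℝ) (T : Polynomial ℤ) (B : Fin N → Fin n → Fin n → Polynomial ℤ)
    (Z W : Fin N → Matrix (Fin n) (Fin n) ℚ⟦X⟧), Sys q H T B Z W → ∀ t : ℕ, (2 * H) ^ E ≤ (t : ℝ) →
    Polynomial.aeval (1 / (t : ℝ)) T ≠ 0 →
    (0 < t ∧ ∀ j a b, Cv (t : ℝ) (Z j a b)) ∧
    ∀ P : MvPolynomial (Fin N × Fin n × Fin n) ℚ, P.totalDegree ≤ d →
    MvPolynomial.aeval (fun σ => ((ev (t : ℝ) (ent Z σ) : ℝ) : ℂ)) P = 0 →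
    ∃ R : MvPolynomial (Fin N × Fin n × Fin n) (Polynomial ℚ), MvPolynomial.aeval (ent Z) R = 0 ∧
      MvPolynomial.map (Polynomial.evalRingHom (1 / (t : ℚ))) R = P := by
  classical
  obtain ⟨E₁, hE₁1, hE₁⟩ := gsys_tens' q d
  set κ : ℕ := (2 * q + n + 1) * (q + 1) with hκ
  set M : ℕ := Fintype.card (Fin d → Option (Fin N × Fin n × Fin n)) with hM
  refine ⟨(((κ + (2 * q + 4)) + 1) * E₁ + 1) * (expoM M q + 1), ?_⟩
  intro H T B Z W hS t ht hT
  have hH := hS.one_le
  have hD1 : 1 ≤ 2 * H := by linarith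
  have hg1 := hS.gsys
  have hg2 : GSys q ((2 * H) ^ (κ + (2 * q + 4))) T (fun σ : Fin N × Fin n × Fin n => Z σ.1 σ.2.1 σ.2.2) := by
    refine hg1.mono le_rfl ?_
    have := const_le (κ := κ) hH (2 * q + 4)
    rw [hκ] at this ⊢
    push_cast at this ⊢
    exact this
  have hg3 := gsys_opt hg2
  have hg4 := hE₁ _ _ _ _ hg3
  set C' : ℝ := (2 * (2 * H) ^ (κ + (2 * q + 4))) ^ E₁ with hC'
  have hC'1 : 1 ≤ C' := hg4.one_le
  have hC'le : C' ≤ (2 * H) ^ (((κ + (2 * q + 4)) + 1) * E₁) := by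
    have h5 : 2 * (2 * H) ^ (κ + (2 * q + 4)) ≤ (2 * H) ^ ((κ + (2 * q + 4)) + 1) := by
      rw [pow_succ, mul_comm]
      exact mul_le_mul_of_nonneg_left (by linarith) (by positivity)
    rw [hC', pow_mul]
    exact pow_le_pow_left₀ (by positivity) h5 _
  have h2C' : 2 * C' ≤ (2 * H) ^ (((κ + (2 * q + 4)) + 1) * E₁ + 1) := by
    rw [pow_succ, mul_comm]
    exact mul_le_mul hC'le (by linarith) (by norm_num) (by positivity)
  have h2C'1 : 1 ≤ 2 * C' := by linarith
  have hbd : (2 * C') ^ (expoM M q + 1) ≤ (t : ℝ) := by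
    calc (2 * C') ^ (expoM M q + 1) ≤ ((2 * H) ^ (((κ + (2 * q + 4)) + 1) * E₁ + 1)) ^ (expoM M q + 1) :=
          pow_le_pow_left₀ (by linarith) h2C' _
      _ = (2 * H) ^ ((((κ + (2 * q + 4)) + 1) * E₁ + 1) * (expoM M q + 1)) := (pow_mul _ _ _).symm
      _ ≤ t := ht
  have hbd' : (2 * C') ^ expoM M q ≤ (t : ℝ) := (pow_le_pow_right₀ h2C'1 (by omega)).trans hbd
  have hC't : C' < t := by
    have : 2 * C' ≤ (t : ℝ) := by
      calc 2 * C' = (2 * C') ^ 1 := (pow_one _).symm
        _ ≤ (2 * C') ^ (expoM M q + 1) := pow_le_pow_right₀ h2C'1 (by omega)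
        _ ≤ t := hbd
    linarith
  have htpos : (0 : ℝ) < t := by linarith
  have htnat : 0 < t := by exact_mod_cast htpos
  -- convergence
  have hcv : ∀ σ, Cv (t : ℝ) (ent Z σ) := by
    intro σ
    refine Cv.of_bound htpos (A := (2 * H) ^ (κ + (2 * q + 4))) (B := (2 * H) ^ (κ + (2 * q + 4))) (by positivity) ?_
      (fun m => by rw [← pow_succ']; exact hg2.size σ m)
    have h6 : (2 * H) ^ (κ + (2 * q + 4)) ≤ C' := by
      rw [hC']
      calc (2 * H) ^ (κ + (2 * q + 4)) ≤ 2 * (2 * H) ^ (κ + (2 * q + 4)) := by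
            have : (0 : ℝ) ≤ (2 * H) ^ (κ + (2 * q + 4)) := by positivity
            linarith
        _ = (2 * (2 * H) ^ (κ + (2 * q + 4))) ^ 1 := (pow_one _).symm
        _ ≤ _ := pow_le_pow_right₀ (by
          have : (1 : ℝ) ≤ (2 * H) ^ (κ + (2 * q + 4)) := one_le_pow₀ hD1
          linarith) hE₁1
    linarith
  refine ⟨⟨htnat, fun j a b => hcv (j, a, b)⟩, fun P hP hP0 => ?_⟩
  obtain ⟨c, hc⟩ := exists_coef P hP
  set y : (Fin d → Option (Fin N × Fin n × Fin n)) → ℚ⟦X⟧ := fun b => ∏ l, (b l).elim 1 (ent Z) with hy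
  have hev : ∀ b, ((ev (t : ℝ) (y b) : ℝ) : ℂ) = MvPolynomial.aeval (fun σ => ((ev (t : ℝ) (ent Z σ) : ℝ) : ℂ)) (monO ℚ b) := by
    intro b
    have hcvo : ∀ o : Option (Fin N × Fin n × Fin n), Cv (t : ℝ) (o.elim 1 (ent Z)) := by
      rintro (_ | σ)
      · exact Cv.one
      · exact hcv σ
    rw [hy]
    simp only
    rw [Cv.ev_prod htpos Finset.univ (fun l => (b l).elim 1 (ent Z)) fun l _ => hcvo _]
    unfold monO
    rw [map_prod, Complex.ofReal_prod]
    refine Finset.prod_congr rfl fun l _ => ?_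
    rcases b l with _ | σ
    · show ((ev (t : ℝ) (1 : ℚ⟦X⟧) : ℝ) : ℂ) = MvPolynomial.aeval _ (1 : MvPolynomial _ ℚ)
      rw [ev_one, map_one]
      simp
    · show _ = MvPolynomial.aeval _ (MvPolynomial.X σ)
      rw [MvPolynomial.aeval_X]
      rfl
  have hrel : ∑ b, ((c b : ℚ) : ℝ) * ev (t : ℝ) (y b) = 0 := by
    have h7 : ((∑ b, ((c b : ℚ) : ℝ) * ev (t : ℝ) (y b) : ℝ) : ℂ) = 0 := by
      rw [← hP0, hc, map_sum]
      push_cast
      refine Finset.sum_congr rfl fun b _ => ?_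
      rw [hev, map_mul, MvPolynomial.aeval_C]
      rfl
    exact_mod_cast h7
  obtain ⟨R, hR1, hR2⟩ := lift (N := M) le_rfl hg4 (fun _ => none) (by simp) t hbd' hT c hrel
  refine ⟨∑ b, MvPolynomial.C (R b) * monO (Polynomial ℚ) b, ?_, ?_⟩
  · rw [map_sum]
    refine Eq.trans (Finset.sum_congr rfl fun b _ => ?_) hR2
    rw [map_mul, MvPolynomial.aeval_C]
    have h8 : MvPolynomial.aeval (ent Z) (monO (Polynomial ℚ) b) = ∏ j, (b j).elim 1 (ent Z) := by
      unfold monO
      rw [map_prod]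
      refine Finset.prod_congr rfl fun l _ => ?_
      rcases b l with _ | σ
      · show MvPolynomial.aeval _ (1 : MvPolynomial _ (Polynomial ℚ)) = 1
        rw [map_one]
      · show MvPolynomial.aeval _ (MvPolynomial.X σ) = ent Z σ
        rw [MvPolynomial.aeval_X]
    rw [h8]
    rfl
  · rw [map_sum, hc]
    refine Finset.sum_congr rfl fun b _ => ?_
    rw [map_mul, MvPolynomial.map_C]
    have h9 : MvPolynomial.map (Polynomial.evalRingHom (1 / (t : ℚ))) (monO (Polynomial ℚ) b) = monO ℚ b := by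
      unfold monO
      rw [map_prod]
      refine Finset.prod_congr rfl fun l _ => ?_
      rcases b l with _ | σ
      · show MvPolynomial.map _ (1 : MvPolynomial _ (Polynomial ℚ)) = 1
        rw [map_one]
      · show MvPolynomial.map _ (MvPolynomial.X σ) = MvPolynomial.X σ
        rw [MvPolynomial.map_X]
    rw [h9]
    congr 2
    exact hR1 b

end Pool.Agent.H885
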