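import Pool.Graph.R_seed8.Y113.G.Final

/-!
# Linear independence of values of G-functions with a rate only: the rank at a point

The derivatives of the functions are expressed by the functions after multiplication with a further polynomial `α`,
the degree and the size of which will be unimportant.
-/

set_option autoImplicit false

open PowerSeries Finset.HasAntidiagonal

namespace Pool.Agent.H885

open Pool.Agent.Y113

/-- transfer of the formulas for the derivatives to other solutions -/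
lemma G_transfer' {N : ℕ} {T α : Polynomial ℚ} {B : Fin N → Fin N → Polynomial ℚ} {y : Fin N → ℚ⟦X⟧}
    (hy : ∀ i, ((α * T : Polynomial ℚ) : ℚ⟦X⟧) * d⁄dX ℚ (y i) = ∑ j, (B i j : ℚ⟦X⟧) * y j)
    (hLI : LinearIndependent (Polynomial ℚ) y)
    {G : ℕ → Fin N → Fin N → Polynomial ℚ} {K : ℕ} {g : ℚ}
    (hG : ∀ s ≤ K, ∀ i, C g * ((α : ℚ⟦X⟧) * ((T : ℚ⟦X⟧) ^ s * hd s (y i))) = ∑ j, (G s i j : ℚ⟦X⟧) * y j)
    (φ : Polynomial ℚ →+* ℚ⟦X⟧) (hφ : ∀ p, d⁄dX ℚ (φ p) = φ (Polynomial.derivative p)) (hφC : ∀ c : ℚ, φ (Polynomial.C c) = C c)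
    (hφα : φ α ≠ 0)
    {w : Fin N → ℚ⟦X⟧} (hw : ∀ i, φ (α * T) * d⁄dX ℚ (w i) = ∑ j, φ (B i j) * w j) :
    ∀ s ≤ K, ∀ i, C g * (φ α * (φ T ^ s * hd s (w i))) = ∑ j, φ (G s i j) * w j := by
  intro s hs i
  have hψ : ∀ p : Polynomial ℚ, d⁄dX ℚ (Polynomial.coeToPowerSeries.ringHom p) =
      Polynomial.coeToPowerSeries.ringHom (Polynomial.derivative p) := by
    intro p
    simp [Polynomial.coeToPowerSeries.ringHom_apply, PowerSeries.derivative_coe]
  have hfac : (s.factorial : ℚ⟦X⟧) ≠ 0 := by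
    rw [← map_natCast (C (R := ℚ))]
    intro h
    rw [map_eq_zero_iff _ (PowerSeries.C_injective)] at h
    exact s.factorial_ne_zero (by exact_mod_cast h)
  have h1 := rec_iter Polynomial.coeToPowerSeries.ringHom hψ (T := α * T) (B := B) (Y := y)
    (by simpa [Polynomial.coeToPowerSeries.ringHom_apply] using hy) s i
  simp only [Polynomial.coeToPowerSeries.ringHom_apply] at h1
  -- comparison of polynomials
  have h2 : ∑ j, (Polynomial.C g * α * Bm (α * T) B s i j - Polynomial.C (s.factorial : ℚ) * (α ^ s * G s i j)) • y j = 0 := by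
    have h3 := hG s hs i
    have h4 : ∑ j, ((Polynomial.C g * α * Bm (α * T) B s i j -
        Polynomial.C (s.factorial : ℚ) * (α ^ s * G s i j) : Polynomial ℚ) : ℚ⟦X⟧) * y j
        = C g * (α : ℚ⟦X⟧) * ∑ j, (Bm (α * T) B s i j : ℚ⟦X⟧) * y j -
          (s.factorial : ℚ⟦X⟧) * ((α : ℚ⟦X⟧) ^ s * ∑ j, (G s i j : ℚ⟦X⟧) * y j) := by
      rw [Finset.mul_sum, Finset.mul_sum, Finset.mul_sum, ← Finset.sum_sub_distrib]
      refine Finset.sum_congr rfl fun j _ => ?_
      push_cast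
      simp only [map_natCast]
      ring
    have h5 : ∑ j, (Polynomial.C g * α * Bm (α * T) B s i j - Polynomial.C (s.factorial : ℚ) * (α ^ s * G s i j)) • y j =
        ∑ j, ((Polynomial.C g * α * Bm (α * T) B s i j -
          Polynomial.C (s.factorial : ℚ) * (α ^ s * G s i j) : Polynomial ℚ) : ℚ⟦X⟧) * y j := by
      refine Finset.sum_congr rfl fun j _ => ?_
      rw [Algebra.smul_def]
      rfl
    rw [h5, h4, ← h1, ← h3, ← fac_hd]
    push_cast
    ring
  have h6 : ∀ j, Polynomial.C g * α * Bm (α * T) B s i j = Polynomial.C (s.factorial : ℚ) * (α ^ s * G s i j) := by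
    intro j
    have := (Fintype.linearIndependent_iff.1 hLI _ h2) j
    exact sub_eq_zero.1 this
  have h7 := rec_iter φ hφ hw s i
  rw [← fac_hd] at h7
  apply mul_left_cancel₀ (mul_ne_zero hfac (pow_ne_zero s hφα))
  have h8 : (s.factorial : ℚ⟦X⟧) * φ α ^ s * (C g * (φ α * (φ T ^ s * hd s (w i)))) =
      C g * φ α * (φ (α * T) ^ s * ((s.factorial : ℚ⟦X⟧) * hd s (w i))) := by
    rw [map_mul]
    ring
  rw [h8, h7, Finset.mul_sum, Finset.mul_sum]
  refine Finset.sum_congr rfl fun j _ => ?_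
  have h9 := congrArg φ (h6 j)
  simp only [map_mul, map_pow, hφC] at h9
  simp only [map_natCast] at h9
  linear_combination w j * h9

/-- the derived vectors span at `ξ` -/
theorem rank_point' (h_sh : T_shid) (h_loc : T_loc) {N : ℕ} {T α : Polynomial ℚ} {B : Fin N → Fin N → Polynomial ℚ}
    {y : Fin N → ℚ⟦X⟧} (hy : ∀ i, ((α * T : Polynomial ℚ) : ℚ⟦X⟧) * d⁄dX ℚ (y i) = ∑ j, (B i j : ℚ⟦X⟧) * y j)
    (hLI : LinearIndependent (Polynomial ℚ) y) (i₀ : Fin N) (h1 : y i₀ = 1) (ξ : ℚ) (hξ0 : ξ ≠ 0) (hξ : T.eval ξ ≠ 0)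
    (hαξ : α.eval ξ ≠ 0) :
    ∃ c₁ : ℕ, ∀ (n m K : ℕ) (P : Fin N → Polynomial ℚ), P ≠ 0 → (∀ i, (P i).natDegree ≤ n) →
      (∀ l < m, coeff l (∑ i, (P i : ℚ⟦X⟧) * y i) = 0) → (N - 1) * n + c₁ < m → N * n + c₁ < m + K →
      ∀ (g : ℚ) (G : ℕ → Fin N → Fin N → Polynomial ℚ), g ≠ 0 →
      (∀ s ≤ K, ∀ i, C g * ((α : ℚ⟦X⟧) * ((T : ℚ⟦X⟧) ^ s * hd s (y i))) = ∑ j, (G s i j : ℚ⟦X⟧) * y j) →
      ∀ v : Fin N → ℚ, (∀ k ≤ K, ∑ j, (Pd T G P k j).eval ξ * v j = 0) → v = 0 := by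
  have hαT : (α * T).eval ξ ≠ 0 := by
    rw [Polynomial.eval_mul]
    exact mul_ne_zero hαξ hξ
  obtain ⟨c, hc⟩ := h_sh ℚ N (α * T) B y ξ hαT hy hLI
  obtain ⟨b, hbT, hbB⟩ : ∃ b : ℕ, (α * T).natDegree ≤ b ∧ ∀ i j, (B i j).natDegree ≤ b := by
    refine ⟨(α * T).natDegree + ∑ i, ∑ j, (B i j).natDegree, by omega, fun i j => ?_⟩
    have h2 : (B i j).natDegree ≤ ∑ j, (B i j).natDegree :=
      Finset.single_le_sum (f := fun j => (B i j).natDegree) (fun _ _ => Nat.zero_le _) (Finset.mem_univ j)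
    have h3 : ∑ j, (B i j).natDegree ≤ ∑ i, ∑ j, (B i j).natDegree :=
      Finset.single_le_sum (f := fun i => ∑ j, (B i j).natDegree) (fun _ _ => Nat.zero_le _) (Finset.mem_univ i)
    omega
  refine ⟨c + N * N * b + 2 * N, ?_⟩
  intro n m K P hP0 hPn hm hm1 hm2 g G hg hG v hv
  by_contra hv0
  have hNpos : 0 < N := i₀.pos
  set Δ := (Matrix.of fun k j : Fin N => ((nab (α * T) B)^[(k : ℕ)] P) j).det with hΔ
  have hΔ0 : Δ ≠ 0 := hc n m P hP0 hPn hm (by omega)
  have hdeg : Δ.natDegree ≤ N * n + N * N * b := natDegree_det_nab hbT hbB hPn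
  -- order at 0
  have ho1 := det_order Polynomial.coeToPowerSeries.ringHom coe_deriv' (T := α * T) (B := B) (w := y)
    (by simpa [Polynomial.coeToPowerSeries.ringHom_apply] using hy) P m
    (by simpa [Polynomial.coeToPowerSeries.ringHom_apply] using hm) i₀ (by rw [h1]; simp)
  have hd1 : (Polynomial.X : Polynomial ℚ) ^ (m + 1 - N) ∣ Δ := by
    rw [Polynomial.X_pow_dvd_iff]
    intro l hl
    have := ho1 l (by omega)
    rw [Polynomial.coeToPowerSeries.ringHom_apply, Polynomial.coeff_coe] at this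
    exact this
  -- local solution
  have hT0 : (Polynomial.taylor ξ (α * T)).eval 0 ≠ 0 := by
    rw [Polynomial.taylor_eval]; simpa using hαT
  obtain ⟨w, hw0, hw⟩ := h_loc ℚ N (Polynomial.taylor ξ (α * T)) (fun i j => Polynomial.taylor ξ (B i j)) v hT0
  have hw' : ∀ i, tay ξ (α * T) * d⁄dX ℚ (w i) = ∑ j, tay ξ (B i j) * w j := hw
  have hTc : constantCoeff (tay ξ T) ≠ 0 := by
    rw [tay_apply, ← PowerSeries.coeff_zero_eq_constantCoeff_apply, Polynomial.coeff_coe, Polynomial.taylor_coeff_zero]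
    exact hξ
  have hαc : constantCoeff (tay ξ α) ≠ 0 := by
    rw [tay_apply, ← PowerSeries.coeff_zero_eq_constantCoeff_apply, Polynomial.coeff_coe, Polynomial.taylor_coeff_zero]
    exact hαξ
  have hα0 : tay ξ α ≠ 0 := by
    intro h
    rw [h, map_zero] at hαc
    exact hαc rfl
  have hGw := G_transfer' hy hLI hG (tay ξ) (tay_deriv ξ) (tay_C ξ) hα0 hw'
  have hGw' : ∀ s ≤ K, ∀ i, (C g * tay ξ α) * (tay ξ T ^ s * hd s (w i)) = ∑ j, tay ξ (G s i j) * w j := by
    intro s hs i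
    rw [← hGw s hs i]
    ring
  have hf : ∀ l < K + 1, coeff l (∑ i, tay ξ (P i) * w i) = 0 := by
    intro l hl
    have h2 := Pd_eq (tay ξ) (tay_deriv ξ) hGw' P l (by omega)
    have h3 := congrArg constantCoeff h2
    rw [map_sum] at h3
    have h4 : ∀ j, constantCoeff (tay ξ (Pd T G P l j) * w j) = (Pd T G P l j).eval ξ * v j := by
      intro j
      rw [map_mul, hw0, tay_apply, ← PowerSeries.coeff_zero_eq_constantCoeff_apply, Polynomial.coeff_coe,
        Polynomial.taylor_coeff_zero]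
    simp only [h4, hv l (by omega), map_mul, map_pow, constantCoeff_C] at h3
    have h5 : constantCoeff (hd l (∑ i, tay ξ (P i) * w i)) = coeff l (∑ i, tay ξ (P i) * w i) := by
      rw [← PowerSeries.coeff_zero_eq_constantCoeff_apply, coeff_hd]
      simp
    rw [h5] at h3
    rcases mul_eq_zero.1 h3 with h6 | h6
    · rcases mul_eq_zero.1 h6 with h7 | h7
      · exact absurd h7 hg
      · exact absurd h7 hαc
    · rcases mul_eq_zero.1 h6 with h7 | h7
      · exact absurd h7 (pow_ne_zero _ hTc)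
      · exact h7
  obtain ⟨j₀, hj₀⟩ : ∃ j, v j ≠ 0 := by
    by_contra hcon
    push Not at hcon
    exact hv0 (funext hcon)
  have ho2 := det_order (tay ξ) (tay_deriv ξ) hw' P (K + 1) hf j₀ (by rw [hw0]; exact hj₀)
  have hd2 : (Polynomial.X - Polynomial.C ξ) ^ (K + 2 - N) ∣ Δ := by
    have h2 : (Polynomial.X : Polynomial ℚ) ^ (K + 2 - N) ∣ Polynomial.taylor ξ Δ := by
      rw [Polynomial.X_pow_dvd_iff]
      intro l hl
      have := ho2 l (by omega)
      rw [tay_apply, Polynomial.coeff_coe] at this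
      exact this
    obtain ⟨Q, hQ⟩ := h2
    refine ⟨Polynomial.taylor (-ξ) Q, ?_⟩
    have h3 := congrArg (Polynomial.taylor (-ξ)) hQ
    rw [Polynomial.taylor_taylor, neg_add_cancel, Polynomial.taylor_zero, Polynomial.taylor_mul] at h3
    rw [h3]
    congr 1
    rw [Polynomial.taylor_pow, Polynomial.taylor_X]
    simp [sub_eq_add_neg]
  have hcop : IsCoprime ((Polynomial.X : Polynomial ℚ) ^ (m + 1 - N)) ((Polynomial.X - Polynomial.C ξ) ^ (K + 2 - N)) := by
    apply IsCoprime.pow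
    have := Polynomial.isCoprime_X_sub_C_of_isUnit_sub (R := ℚ) (a := 0) (b := ξ)
      (isUnit_iff_ne_zero.2 (by simpa using hξ0))
    simpa using this
  have hdvd := hcop.mul_dvd hd1 hd2
  have hle := Polynomial.natDegree_le_of_dvd hdvd hΔ0
  rw [Polynomial.natDegree_mul (pow_ne_zero _ Polynomial.X_ne_zero) (pow_ne_zero _ (Polynomial.X_sub_C_ne_zero ξ)),
    Polynomial.natDegree_X_pow, Polynomial.natDegree_pow, Polynomial.natDegree_X_sub_C] at hle
  omega

end Pool.Agent.H885
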