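import Pool.Agent.H885.Gr

/-!
# Relations between values which are specialisations of functional relations; adapted subfamilies at a point
-/

set_option autoImplicit false

open PowerSeries

namespace Pool.Agent.H885

open Pool.Agent.Y113
open Pool.Agent.Y120.GH (clear ps_ne)

section
variable {ι : Type} [Fintype ι] {y : ι → ℚ⟦X⟧} {ξ : ℚ}

/-- the vector `c` is the value at `ξ` of a functional relation -/
def Lf (ξ : ℚ) (y : ι → ℚ⟦X⟧) (c : ι → ℚ) : Prop :=
  ∃ R : ι → Polynomial ℚ, (∀ i, (R i).eval ξ = c i) ∧ ∑ i, (R i : ℚ⟦X⟧) * y i = 0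

lemma Lf.add {c d : ι → ℚ} (hc : Lf ξ y c) (hd : Lf ξ y d) : Lf ξ y (c + d) := by
  obtain ⟨R, h1, h2⟩ := hc
  obtain ⟨S, h3, h4⟩ := hd
  refine ⟨fun i => R i + S i, fun i => by rw [Polynomial.eval_add, h1, h3]; rfl, ?_⟩
  have : ∑ i, ((R i + S i : Polynomial ℚ) : ℚ⟦X⟧) * y i = ∑ i, (R i : ℚ⟦X⟧) * y i + ∑ i, (S i : ℚ⟦X⟧) * y i := by
    rw [← Finset.sum_add_distrib]
    refine Finset.sum_congr rfl fun i _ => ?_
    rw [Polynomial.coe_add, add_mul]
  rw [this, h2, h4, add_zero]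

lemma Lf.smul {c : ι → ℚ} (hc : Lf ξ y c) (z : ℚ) : Lf ξ y (z • c) := by
  obtain ⟨R, h1, h2⟩ := hc
  refine ⟨fun i => Polynomial.C z * R i, fun i => by
    rw [Polynomial.eval_mul, Polynomial.eval_C, h1, Pi.smul_apply, smul_eq_mul], ?_⟩
  have : ∑ i, ((Polynomial.C z * R i : Polynomial ℚ) : ℚ⟦X⟧) * y i = C z * ∑ i, (R i : ℚ⟦X⟧) * y i := by
    rw [Finset.mul_sum]
    refine Finset.sum_congr rfl fun i _ => ?_
    rw [Polynomial.coe_mul, Polynomial.coe_C, mul_assoc]
  rw [this, h2, mul_zero]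

lemma Lf.zero : Lf ξ y (0 : ι → ℚ) := ⟨fun _ => 0, fun i => by simp, by simp⟩

lemma Lf.sum {σ : Type} (s : Finset σ) {c : σ → ι → ℚ} (h : ∀ a ∈ s, Lf ξ y (c a)) : Lf ξ y (∑ a ∈ s, c a) := by
  classical
  induction s using Finset.induction_on with
  | empty => rw [Finset.sum_empty]; exact Lf.zero
  | insert a s ha ih =>
    rw [Finset.sum_insert ha]
    exact (h a (Finset.mem_insert_self _ _)).add (ih fun b hb => h b (Finset.mem_insert_of_mem hb))

/-- the relation holds for the values -/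
lemma Lf.val {t : ℕ} (ht : 0 < t) (hcv : ∀ i, Cv (t : ℝ) (y i)) {c : ι → ℚ} (hc : Lf (1 / (t : ℚ)) y c) :
    ∑ i, (c i : ℝ) * ev (t : ℝ) (y i) = 0 := by
  obtain ⟨R, h1, h2⟩ := hc
  have htpos : (0 : ℝ) < t := by exact_mod_cast ht
  have h3 := congrArg (ev (t : ℝ)) h2
  rw [Cv.ev_sum htpos _ _ (fun i _ => (Cv.coe (R i)).mul htpos (hcv i)), ev_zero] at h3
  refine Eq.trans ?_ h3
  refine Finset.sum_congr rfl fun i _ => ?_
  rw [(Cv.coe (R i)).ev_mul htpos (hcv i), ev_coe, ← h1]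
  congr 1
  rw [Polynomial.aeval_def, Polynomial.eval₂_eq_sum_range, Polynomial.eval_eq_sum_range]
  push_cast
  rfl

/-- subfamilies adapted to the point -/
lemma exists_sel [DecidableEq ι] (i₀ : ι) (h0 : ∀ c, Lf ξ y c → (∀ i, i ≠ i₀ → c i = 0) → c = 0) :
    ∃ I : Finset ι, i₀ ∈ I ∧ (∀ c, Lf ξ y c → (∀ i, i ∉ I → c i = 0) → c = 0) ∧
      ∀ j, j ∉ I → ∃ c, Lf ξ y c ∧ c j = 1 ∧ ∀ i, i ∉ I → i ≠ j → c i = 0 := by
  classical
  let P : Finset ι → Prop := fun I => i₀ ∈ I ∧ ∀ c, Lf ξ y c → (∀ i, i ∉ I → c i = 0) → c = 0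
  have hP0 : P {i₀} := ⟨Finset.mem_singleton_self _, fun c hc h => h0 c hc fun i hi => h i (by simpa using hi)⟩
  obtain ⟨I, hI, hmax⟩ := Finset.exists_max_image (Finset.univ.filter P) Finset.card
    ⟨{i₀}, Finset.mem_filter.2 ⟨Finset.mem_univ _, hP0⟩⟩
  rw [Finset.mem_filter] at hI
  obtain ⟨-, hI1, hI2⟩ := hI
  refine ⟨I, hI1, hI2, fun j hj => ?_⟩
  have h1 : ¬ P (insert j I) := by
    intro h
    have h2 := hmax (insert j I) (Finset.mem_filter.2 ⟨Finset.mem_univ _, h⟩)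
    rw [Finset.card_insert_of_notMem hj] at h2
    omega
  have h2 : ∃ c, Lf ξ y c ∧ (∀ i, i ∉ insert j I → c i = 0) ∧ c ≠ 0 := by
    by_contra hno
    push Not at hno
    exact h1 ⟨Finset.mem_insert_of_mem hI1, fun c hc h => hno c hc h⟩
  obtain ⟨c, hc, hcs, hc0⟩ := h2
  have hcj : c j ≠ 0 := by
    intro hcj
    apply hc0
    refine hI2 c hc fun i hi => ?_
    by_cases hij : i = j
    · rw [hij]; exact hcj
    · exact hcs i (by rw [Finset.mem_insert]; push Not; exact ⟨hij, hi⟩)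
  refine ⟨(c j)⁻¹ • c, hc.smul _, by rw [Pi.smul_apply, smul_eq_mul, inv_mul_cancel₀ hcj], fun i hi hij => ?_⟩
  rw [Pi.smul_apply, hcs i (by rw [Finset.mem_insert]; push Not; exact ⟨hij, hi⟩), smul_zero]

lemma coe_ne_zero' {p : Polynomial ℚ} (hp : p ≠ 0) : (p : ℚ⟦X⟧) ≠ 0 := by
  intro h
  apply hp
  exact Polynomial.coe_injective ℚ (by rw [h, Polynomial.coe_zero])

/-- linear independence of an adapted subfamily -/
lemma li_sel [DecidableEq ι] {I : Finset ι} (h : ∀ c, Lf ξ y c → (∀ i, i ∉ I → c i = 0) → c = 0) :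
    LinearIndependent (Polynomial ℚ) (fun i : I => y i) := by
  have hmain : ∀ n : ℕ, ∀ g : ι → Polynomial ℚ, (∀ i, i ∉ I → g i = 0) → (∀ i, (g i).natDegree < n) →
      ∑ i, (g i : ℚ⟦X⟧) * y i = 0 → g = 0 := by
    intro n
    induction n with
    | zero =>
      intro g hg hn hs
      funext i
      exact absurd (hn i) (by omega)
    | succ n ih =>
      intro g hg hn hs
      have h1 := h (fun i => (g i).eval ξ) ⟨g, fun i => rfl, hs⟩ fun i hi => by
        show (g i).eval ξ = 0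
        rw [hg i hi, Polynomial.eval_zero]
      have h2 : ∀ i, (Polynomial.X - Polynomial.C ξ) * (g i /ₘ (Polynomial.X - Polynomial.C ξ)) = g i := fun i =>
        Polynomial.mul_divByMonic_eq_iff_isRoot.2 (congrFun h1 i)
      have hX0 : ((Polynomial.X - Polynomial.C ξ : Polynomial ℚ) : ℚ⟦X⟧) ≠ 0 :=
        coe_ne_zero' (Polynomial.X_sub_C_ne_zero ξ)
      by_cases hn0 : n = 0
      · -- constants
        subst hn0
        funext i
        have h3 : g i = Polynomial.C ((g i).eval ξ) := by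
          have h4 := Polynomial.eq_C_of_natDegree_eq_zero (by have := hn i; omega : (g i).natDegree = 0)
          rw [h4, Polynomial.eval_C]
        rw [h3, congrFun h1 i]
        simp
      · have h5 := ih (fun i => g i /ₘ (Polynomial.X - Polynomial.C ξ)) (fun i hi => by
          show g i /ₘ (Polynomial.X - Polynomial.C ξ) = 0
          rw [hg i hi, Polynomial.zero_divByMonic]) (fun i => by
          show (g i /ₘ (Polynomial.X - Polynomial.C ξ)).natDegree < n
          rw [Polynomial.natDegree_divByMonic _ (Polynomial.monic_X_sub_C ξ), Polynomial.natDegree_X_sub_C]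
          have := hn i
          omega) (by
          have h6 : ((Polynomial.X - Polynomial.C ξ : Polynomial ℚ) : ℚ⟦X⟧) *
              ∑ i, ((g i /ₘ (Polynomial.X - Polynomial.C ξ) : Polynomial ℚ) : ℚ⟦X⟧) * y i = 0 := by
            rw [Finset.mul_sum, ← hs]
            refine Finset.sum_congr rfl fun i _ => ?_
            rw [← mul_assoc, ← Polynomial.coe_mul, h2]
          exact (mul_eq_zero.1 h6).resolve_left hX0)
        funext i
        rw [← h2 i]
        have h7 : g i /ₘ (Polynomial.X - Polynomial.C ξ) = 0 := congrFun h5 i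
        rw [h7, mul_zero]
        rfl
  rw [Fintype.linearIndependent_iff]
  intro g hg i
  let g' : ι → Polynomial ℚ := fun i => if h : i ∈ I then g ⟨i, h⟩ else 0
  have hg'0 : ∀ i, i ∉ I → g' i = 0 := fun i hi => by
    show (if h : i ∈ I then g ⟨i, h⟩ else 0) = 0
    rw [dif_neg hi]
  have hg'1 : ∀ i : I, g' i = g i := fun i => by
    show (if h : (i : ι) ∈ I then g ⟨i, h⟩ else 0) = g i
    rw [dif_pos i.2]
  have h1 := hmain (∑ i, (g' i).natDegree + 1) g' hg'0 (fun i => by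
    have h3 : (g' i).natDegree ≤ ∑ i, (g' i).natDegree :=
      Finset.single_le_sum (f := fun i => (g' i).natDegree) (fun _ _ => Nat.zero_le _) (Finset.mem_univ i)
    omega) (by
    have h2 : ∑ i, (g' i : ℚ⟦X⟧) * y i = ∑ i ∈ I, (g' i : ℚ⟦X⟧) * y i := by
      symm
      refine Finset.sum_subset (Finset.subset_univ I) fun i _ hi => ?_
      rw [hg'0 i hi, Polynomial.coe_zero, zero_mul]
    rw [h2, ← Finset.sum_coe_sort, ← hg]
    refine Finset.sum_congr rfl fun i _ => ?_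
    rw [hg'1, Algebra.smul_def]
    rfl)
  rw [← hg'1, h1]
  rfl

/-- the other functions are expressed by the adapted subfamily, with a denominator which does not vanish at `ξ` -/
lemma expr_sel [DecidableEq ι] {I : Finset ι} (h : ∀ j, j ∉ I → ∃ c, Lf ξ y c ∧ c j = 1 ∧ ∀ i, i ∉ I → i ≠ j → c i = 0) :
    ∃ (α : Polynomial ℚ) (M : ι → I → Polynomial ℚ), α.eval ξ ≠ 0 ∧
      ∀ k, (α : ℚ⟦X⟧) * y k = ∑ i, (M k i : ℚ⟦X⟧) * y i := by
  classical
  let J := {j // j ∉ I}
  choose c hc hc1 hc2 using fun j : J => h j.1 j.2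
  choose R hR1 hR2 using fun j : J => hc j
  let 𝓡 : Matrix J J (Polynomial ℚ) := Matrix.of fun j j' => R j j'.1
  have hdet : 𝓡.det.eval ξ = 1 := by
    have h1 : 𝓡.det.eval ξ = (𝓡.map (Polynomial.evalRingHom ξ)).det := by
      have := RingHom.map_det (Polynomial.evalRingHom ξ) 𝓡
      simpa using this
    rw [h1]
    have h2 : 𝓡.map (Polynomial.evalRingHom ξ) = 1 := by
      ext j j'
      rw [Matrix.map_apply, Matrix.one_apply]
      show (R j j'.1).eval ξ = _
      rw [hR1]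
      by_cases hjj : j = j'
      · subst hjj
        rw [if_pos rfl, hc1]
      · rw [if_neg hjj, hc2 j j'.1 j'.2 (fun h => hjj (Subtype.ext h.symm))]
    rw [h2, Matrix.det_one]
  -- the sum over all indices
  have hsplit : ∀ F : ι → ℚ⟦X⟧, ∑ k, F k = ∑ i : I, F i + ∑ j : J, F j := by
    intro F
    rw [← Finset.sum_add_sum_compl I F, Finset.sum_coe_sort]
    congr 1
    rw [← Finset.sum_coe_sort (Iᶜ) F]
    exact Fintype.sum_equiv (Equiv.subtypeEquivRight fun i => by rw [Finset.mem_compl]) _ _ fun i => rfl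
  have hrel : ∀ j : J, ∑ j' : J, (R j j'.1 : ℚ⟦X⟧) * y j'.1 = - ∑ i : I, (R j i.1 : ℚ⟦X⟧) * y i.1 := by
    intro j
    have h1 := hR2 j
    rw [hsplit] at h1
    linear_combination h1
  have hadj : ∀ j : J, (𝓡.det : ℚ⟦X⟧) * y j.1 =
      ∑ i : I, ((- ∑ j' : J, 𝓡.adjugate j j' * R j' i.1 : Polynomial ℚ) : ℚ⟦X⟧) * y i.1 := by
    intro j
    have h1 : ∀ j'' : J, ((𝓡.adjugate * 𝓡) j j'' : Polynomial ℚ) = if j = j'' then 𝓡.det else 0 := by
      intro j''
      rw [Matrix.adjugate_mul, Matrix.smul_apply, Matrix.one_apply, smul_eq_mul]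
      split_ifs <;> simp
    have h2 : (𝓡.det : ℚ⟦X⟧) * y j.1 = ∑ j'' : J, (((𝓡.adjugate * 𝓡) j j'' : Polynomial ℚ) : ℚ⟦X⟧) * y j''.1 := by
      rw [Finset.sum_eq_single j]
      · rw [h1, if_pos rfl]
      · intro b _ hb
        rw [h1, if_neg (Ne.symm hb), Polynomial.coe_zero, zero_mul]
      · intro h3
        exact absurd (Finset.mem_univ _) h3
    rw [h2]
    have h3 : ∀ j'' : J, (((𝓡.adjugate * 𝓡) j j'' : Polynomial ℚ) : ℚ⟦X⟧) * y j''.1 =
        ∑ j' : J, (𝓡.adjugate j j' : ℚ⟦X⟧) * ((R j' j''.1 : ℚ⟦X⟧) * y j''.1) := by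
      intro j''
      rw [Matrix.mul_apply]
      have h4 : ((∑ j', 𝓡.adjugate j j' * 𝓡 j' j'' : Polynomial ℚ) : ℚ⟦X⟧) =
          ∑ j' : J, (𝓡.adjugate j j' : ℚ⟦X⟧) * (R j' j''.1 : ℚ⟦X⟧) := by
        have := map_sum (Polynomial.coeToPowerSeries.ringHom (R := ℚ)) (fun j' => 𝓡.adjugate j j' * 𝓡 j' j'') Finset.univ
        simp only [Polynomial.coeToPowerSeries.ringHom_apply, Polynomial.coe_mul] at this
        exact this
      rw [h4, Finset.sum_mul]
      exact Finset.sum_congr rfl fun j' _ => by ring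
    rw [Finset.sum_congr rfl fun j'' _ => h3 j'', Finset.sum_comm]
    have h5 : ∀ j' : J, ∑ j'' : J, (𝓡.adjugate j j' : ℚ⟦X⟧) * ((R j' j''.1 : ℚ⟦X⟧) * y j''.1) =
        - ∑ i : I, (𝓡.adjugate j j' : ℚ⟦X⟧) * ((R j' i.1 : ℚ⟦X⟧) * y i.1) := by
      intro j'
      rw [← Finset.mul_sum, hrel, mul_neg, Finset.mul_sum]
    rw [Finset.sum_congr rfl fun j' _ => h5 j', Finset.sum_neg_distrib, Finset.sum_comm, ← Finset.sum_neg_distrib]
    refine Finset.sum_congr rfl fun i _ => ?_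
    have h6 : ((- ∑ j' : J, 𝓡.adjugate j j' * R j' i.1 : Polynomial ℚ) : ℚ⟦X⟧) =
        - ∑ j' : J, (𝓡.adjugate j j' : ℚ⟦X⟧) * (R j' i.1 : ℚ⟦X⟧) := by
      have := map_neg (Polynomial.coeToPowerSeries.ringHom (R := ℚ)) (∑ j' : J, 𝓡.adjugate j j' * R j' i.1)
      rw [map_sum] at this
      simp only [Polynomial.coeToPowerSeries.ringHom_apply, Polynomial.coe_mul] at this
      exact this
    rw [h6, neg_mul, Finset.sum_mul]
    congr 1
    exact Finset.sum_congr rfl fun j' _ => by ring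
  refine ⟨𝓡.det, fun k i => if hk : k ∈ I then (if k = i.1 then 𝓡.det else 0) else
    - ∑ j' : J, 𝓡.adjugate ⟨k, hk⟩ j' * R j' i.1, by rw [hdet]; exact one_ne_zero, fun k => ?_⟩
  by_cases hk : k ∈ I
  · simp only [dif_pos hk]
    rw [Finset.sum_eq_single (⟨k, hk⟩ : I)]
    · simp
    · intro b _ hb
      have : k ≠ b.1 := fun h => hb (Subtype.ext h.symm)
      simp [this]
    · intro h3
      exact absurd (Finset.mem_univ _) h3
  · simp only [dif_neg hk]
    exact hadj ⟨k, hk⟩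

end

end Pool.Agent.H885
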