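import Pool.Agent.H885.GN
import Pool.Graph.R_seed8.Y120.H.Shift

/-!
# Shifts of G-systems with explicit constants
-/

set_option autoImplicit false
set_option linter.unusedSectionVars false
set_option linter.unusedVariables false

open PowerSeries Pool.Agent.Y113

namespace Pool.Agent.H885

open Pool.Agent.Y120.GH

/-- all shifts of a G-system are G-systems -/
theorem gsys_shiftU {ι : Type} [Fintype ι] {q : ℕ} {C : ℝ} {T : Polynomial ℤ} {y : ι → ℚ⟦X⟧} (h : GSys q C T y) (g : ℕ) :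
    GSys (q + 2) (8 * ((q : ℝ) + 1) ^ 2 * C ^ 2 * (((g : ℝ) + 1) ^ 2 * ((g : ℝ) + 1) ^ (2 * q))) (Pg g ^ 2 * Hm g q T)
      (fun i => sf g (y i)) := by
  have hC := h.one_le
  have hC0 : 0 < C := by linarith
  have hg0 : (0 : ℝ) ≤ g := by positivity
  have hG1 : (1 : ℝ) ≤ (g : ℝ) + 1 := by linarith
  set K : ℝ := 8 * ((q : ℝ) + 1) ^ 2 * C ^ 2 * (((g : ℝ) + 1) ^ 2 * ((g : ℝ) + 1) ^ (2 * q)) with hK
  have hq1 : (1 : ℝ) ≤ ((q : ℝ) + 1) ^ 2 := one_le_pow₀ (by linarith [show (0 : ℝ) ≤ q by positivity])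
  have hK1 : 8 * C * ((g : ℝ) + 1) ≤ K := by
    have e1 : C ≤ C ^ 2 := le_self_pow₀ hC (by norm_num)
    have e2 : (g : ℝ) + 1 ≤ ((g : ℝ) + 1) ^ 2 * ((g : ℝ) + 1) ^ (2 * q) := by
      rw [← pow_add]
      exact le_self_pow₀ hG1 (by omega)
    calc 8 * C * ((g : ℝ) + 1) = 8 * 1 * C * ((g : ℝ) + 1) := by ring
      _ ≤ 8 * ((q : ℝ) + 1) ^ 2 * C ^ 2 * (((g : ℝ) + 1) ^ 2 * ((g : ℝ) + 1) ^ (2 * q)) := by gcongr
  have hK0 : 0 < K := by positivity
  have hKone : 1 ≤ K := le_trans (by nlinarith) hK1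
  -- the transformed denominator
  have hT : Bd q C T := ⟨h.degT, h.sizeT⟩
  set t : ℝ := ((q : ℝ) + 1) * C * ((g : ℝ) + 1) ^ q with ht
  have hTs : L1 q t (Hm g q T) := L1_Hm g (L1.ofBd hT)
  have ht0 : 0 < t := by positivity
  have hTg : L1 (q + 2) (((g : ℝ) + 1) ^ 2 * t) (Pg g ^ 2 * Hm g q T) := by
    refine (((L1_Pg g).pow 2).mul hTs).mono (by omega) le_rfl
  have hTgK : ((g : ℝ) + 1) ^ 2 * t ≤ K := by
    rw [ht, hK]
    have e1 : (q : ℝ) + 1 ≤ ((q : ℝ) + 1) ^ 2 := le_self_pow₀ (by linarith [show (0 : ℝ) ≤ q by positivity]) (by norm_num)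
    have e2 : C ≤ C ^ 2 := le_self_pow₀ hC (by norm_num)
    have e3 : ((g : ℝ) + 1) ^ q ≤ ((g : ℝ) + 1) ^ (2 * q) := pow_le_pow_right₀ hG1 (by omega)
    calc ((g : ℝ) + 1) ^ 2 * (((q : ℝ) + 1) * C * ((g : ℝ) + 1) ^ q)
        = 1 * (((q : ℝ) + 1) * (C * (((g : ℝ) + 1) ^ 2 * ((g : ℝ) + 1) ^ q))) := by ring
      _ ≤ 8 * (((q : ℝ) + 1) ^ 2 * (C ^ 2 * (((g : ℝ) + 1) ^ 2 * ((g : ℝ) + 1) ^ (2 * q)))) := by
          refine mul_le_mul (by norm_num) ?_ (by positivity) (by norm_num)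
          refine mul_le_mul e1 ?_ (by positivity) (by positivity)
          refine mul_le_mul e2 ?_ (by positivity) (by positivity)
          exact mul_le_mul_of_nonneg_left e3 (by positivity)
      _ = _ := by ring
  refine ⟨hKone, hTg.1, fun l => (hTg.coeff_le l).trans hTgK, fun i m => ?_, fun m => ?_, fun k => ?_⟩
  · -- sizes
    have hsd : SDp C (y i) := ⟨fun m => h.size i m, fun m => by
      obtain ⟨d, hd0, hd, hd'⟩ := h.den m
      exact ⟨d, hd0, hd, fun j hj => hd' i j hj⟩⟩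
    refine ((hsd.subst_sh g).1 m).trans (pow_le_pow_left₀ (by positivity) ?_ _)
    have : (2 : ℝ) ^ 3 * C * ((g : ℝ) + 1) = 8 * C * ((g : ℝ) + 1) := by ring
    rw [this]
    exact hK1
  · -- denominators
    obtain ⟨d, hd0, hd, hd'⟩ := h.den m
    refine ⟨d, hd0, hd.trans (pow_le_pow_left₀ hC0.le ?_ _), fun i j hj => ?_⟩
    · exact le_trans (by nlinarith) hK1
    choose! a ha using fun e he => hd' i e he
    · refine ⟨∑ e ∈ Finset.range (j + 1), a e * coeff j ((shZ g) ^ e), ?_⟩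
      rw [sf, coeff_subst_sh, Finset.mul_sum]
      push_cast
      refine Finset.sum_congr rfl fun e he => ?_
      rw [Finset.mem_range] at he
      rw [← ha e (by omega), Pool.Agent.Y113.sh_eq, ← map_pow, coeff_map]
      simp only [eq_intCast]
      ring
  · -- Galochkin's condition
    obtain ⟨d, hd0, hdC, hd'⟩ := h.der k
    choose! G hGd hGc hGe using hd'
    refine ⟨d, hd0, hdC.trans (pow_le_pow_left₀ hC0.le ?_ _), fun s hs => ?_⟩
    · exact le_trans (by nlinarith) hK1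
    rcases Nat.eq_zero_or_pos s with rfl | hs0
    · classical
      refine ⟨fun i j => if i = j then Polynomial.C (d : ℤ) else 0, fun i j => ?_, fun i j l => ?_, fun i => ?_⟩
      · beta_reduce
        split_ifs <;> simp
      · have hdK : (d : ℝ) ≤ K ^ (k + 1) := hdC.trans (pow_le_pow_left₀ hC0.le (le_trans (by nlinarith) hK1) _)
        beta_reduce
        split_ifs
        · rw [Polynomial.coeff_C]
          split_ifs
          · push_cast
            rw [abs_of_nonneg (by positivity)]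
            exact hdK
          · simp only [Int.cast_zero, abs_zero]
            positivity
        · simp only [Polynomial.coeff_zero, Int.cast_zero, abs_zero]
          positivity
      · beta_reduce
        rw [pow_zero, one_mul, hd_zero, Finset.sum_eq_single i]
        · rw [if_pos rfl, ps_C]
          push_cast
          rfl
        · intro j _ hne
          rw [if_neg hne.symm, ps_zero, zero_mul]
        · intro h2
          exact absurd (Finset.mem_univ _) h2
    · obtain ⟨m, rfl⟩ := Nat.exists_eq_succ_of_ne_zero hs0.ne'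
      simp only [Nat.succ_eq_add_one] at hs ⊢
      have ht1 : 1 ≤ t := by
        have e1 : (1 : ℝ) ≤ ((g : ℝ) + 1) ^ q := one_le_pow₀ hG1
        have e2 : (1 : ℝ) ≤ (q : ℝ) + 1 := by linarith [show (0 : ℝ) ≤ q by positivity]
        rw [ht]
        calc (1 : ℝ) = 1 * 1 * 1 := by ring
          _ ≤ ((q : ℝ) + 1) * C * ((g : ℝ) + 1) ^ q := by gcongr
      set Br : ℝ := 2 ^ m * ((((g : ℝ) + 1) ^ 2) ^ m * (t ^ m * (((q : ℝ) + 1) ^ (m + 1) * C ^ (k + 1) *
        ((g : ℝ) + 1) ^ (q * (m + 1))))) with hBr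
      have hterm : ∀ i j, ∀ r ∈ Finset.range (m + 1), L1 ((q + 2) * (m + 1)) Br (Polynomial.C ((m.choose r : ℕ) : ℤ) *
          ((Polynomial.C (g : ℤ) * Pg g) ^ (m - r) * (Hm g q T ^ (m - r) * Hm g (q * (r + 1)) (G (r + 1) i j)))) := by
        intro i j r hr
        rw [Finset.mem_range] at hr
        have a1 : L1 1 ((g : ℝ) * ((g : ℝ) + 1)) (Polynomial.C (g : ℤ) * Pg g) := (L1_Pg g).C_mul _ (by
          push_cast
          rw [abs_of_nonneg hg0])
        have a2 : L1 (q * (r + 1)) ((((q * (r + 1) : ℕ) : ℝ) + 1) * C ^ (k + 1)) (G (r + 1) i j) :=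
          L1.ofBd ⟨hGd (r + 1) (by omega) i j, hGc (r + 1) (by omega) i j⟩
        have a3 := (a1.pow (m - r)).mul ((hTs.pow (m - r)).mul (L1_Hm g a2))
        have a4 : (m.choose r : ℝ) ≤ 2 ^ m := by
          exact_mod_cast Nat.choose_le_two_pow m r
        refine (a3.C_mul ((m.choose r : ℕ) : ℤ) (B := 2 ^ m) (by
          push_cast
          rw [abs_of_nonneg (by positivity)]
          exact a4)).mono ?_ ?_
        · obtain ⟨u, rfl⟩ : ∃ u, m = r + u := ⟨m - r, by omega⟩
          have b1 : (q + 2) * (r + u + 1) = q * u + q * (r + 1) + 2 * (r + u + 1) := by ring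
          rw [b1, Nat.add_sub_cancel_left]
          omega
        · rw [hBr]
          refine mul_le_mul_of_nonneg_left ?_ (by positivity)
          have b1 : ((g : ℝ) * ((g : ℝ) + 1)) ^ (m - r) ≤ (((g : ℝ) + 1) ^ 2) ^ m := by
            calc ((g : ℝ) * ((g : ℝ) + 1)) ^ (m - r) ≤ (((g : ℝ) + 1) ^ 2) ^ (m - r) :=
                  pow_le_pow_left₀ (by positivity) (by nlinarith) _
              _ ≤ _ := pow_le_pow_right₀ (one_le_pow₀ hG1) (Nat.sub_le _ _)
          have b2 : t ^ (m - r) ≤ t ^ m := pow_le_pow_right₀ ht1 (Nat.sub_le _ _)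
          have b3 : ((q * (r + 1) : ℕ) : ℝ) + 1 ≤ ((q : ℝ) + 1) ^ (m + 1) := by
            have c1 : (1 : ℝ) + ((r + 1 : ℕ) : ℝ) * q ≤ (1 + q) ^ (r + 1) :=
              one_add_mul_le_pow (by linarith [show (0 : ℝ) ≤ q by positivity]) _
            have c2 : ((1 : ℝ) + q) ^ (r + 1) ≤ (1 + q) ^ (m + 1) :=
              pow_le_pow_right₀ (by linarith [show (0 : ℝ) ≤ q by positivity]) (by omega)
            push_cast at c1 ⊢
            have c3 : (q : ℝ) + 1 = 1 + q := by ring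
            rw [c3]
            linarith
          have b4 : ((g : ℝ) + 1) ^ (q * (r + 1)) ≤ ((g : ℝ) + 1) ^ (q * (m + 1)) :=
            pow_le_pow_right₀ hG1 (Nat.mul_le_mul_left _ (by omega))
          gcongr
      have hL1 : ∀ i j, L1 ((q + 2) * (m + 1)) (∑ _r ∈ Finset.range (m + 1), Br) (∑ r ∈ Finset.range (m + 1),
          Polynomial.C ((m.choose r : ℕ) : ℤ) *
          ((Polynomial.C (g : ℤ) * Pg g) ^ (m - r) * (Hm g q T ^ (m - r) * Hm g (q * (r + 1)) (G (r + 1) i j)))) :=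
        fun i j => L1.sum _ (hterm i j)
      have hfin : ∑ _r ∈ Finset.range (m + 1), Br ≤ K ^ (k + 1) := by
        rw [Finset.sum_const, Finset.card_range, nsmul_eq_mul]
        have c1 : (((m + 1 : ℕ)) : ℝ) ≤ 2 ^ m := by
          have := succ_le_two_pow m
          push_cast
          exact this
        have hgq : (1 : ℝ) ≤ ((g : ℝ) + 1) ^ q := one_le_pow₀ hG1
        have hqq : (1 : ℝ) ≤ (q : ℝ) + 1 := by linarith [show (0 : ℝ) ≤ q by positivity]
        have hg2 : (1 : ℝ) ≤ ((g : ℝ) + 1) ^ 2 := one_le_pow₀ hG1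
        calc (((m + 1 : ℕ)) : ℝ) * Br ≤ 2 ^ (k + 1) * (2 ^ (k + 1) * ((((g : ℝ) + 1) ^ 2) ^ (k + 1) * (t ^ (k + 1) *
              (((q : ℝ) + 1) ^ (k + 1) * C ^ (k + 1) * (((g : ℝ) + 1) ^ q) ^ (k + 1))))) := by
              rw [hBr]
              have d1 : (2 : ℝ) ^ m ≤ 2 ^ (k + 1) := pow_le_pow_right₀ (by norm_num) (by omega)
              have d2 : (((g : ℝ) + 1) ^ 2) ^ m ≤ (((g : ℝ) + 1) ^ 2) ^ (k + 1) := pow_le_pow_right₀ hg2 (by omega)
              have d3 : t ^ m ≤ t ^ (k + 1) := pow_le_pow_right₀ ht1 (by omega)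
              have d4 : ((q : ℝ) + 1) ^ (m + 1) ≤ ((q : ℝ) + 1) ^ (k + 1) := pow_le_pow_right₀ hqq (by omega)
              have d5 : ((g : ℝ) + 1) ^ (q * (m + 1)) ≤ (((g : ℝ) + 1) ^ q) ^ (k + 1) := by
                rw [pow_mul]
                exact pow_le_pow_right₀ hgq (by omega)
              have d6 := c1.trans d1
              gcongr
          _ = (4 * ((q : ℝ) + 1) ^ 2 * C ^ 2 * (((g : ℝ) + 1) ^ 2 * ((g : ℝ) + 1) ^ (2 * q))) ^ (k + 1) := by
              rw [← mul_pow, ← mul_pow, ← mul_pow, ← mul_pow, ← mul_pow, ← mul_pow, ht]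
              congr 1
              rw [mul_comm 2 q, pow_mul]
              ring
          _ ≤ K ^ (k + 1) := by
              refine pow_le_pow_left₀ (by positivity) ?_ _
              rw [hK]
              gcongr
              norm_num
      refine ⟨fun i j => ∑ r ∈ Finset.range (m + 1), Polynomial.C ((m.choose r : ℕ) : ℤ) *
        ((Polynomial.C (g : ℤ) * Pg g) ^ (m - r) * (Hm g q T ^ (m - r) * Hm g (q * (r + 1)) (G (r + 1) i j))),
        ?_, ?_, ?_⟩
      · intro i j
        exact (hL1 i j).1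
      · intro i j l
        exact ((hL1 i j).coeff_le l).trans hfin
      · intro i
        have hTs' : ps (Hm g q T) = ps (Pg g) ^ q * sf g (ps T) := ps_Hm g h.degT
        have hr : ∀ r ∈ Finset.range (m + 1), (d : ℚ⟦X⟧) * (ps (Hm g q T) ^ (m + 1) * sf g (hd (r + 1) (y i))) =
            ∑ j, (ps (Hm g q T) ^ (m - r) * ps (Hm g (q * (r + 1)) (G (r + 1) i j))) * sf g (y j) := by
          intro r hr
          rw [Finset.mem_range] at hr
          have e1 := congrArg (sf g) (hGe (r + 1) (by omega) i)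
          rw [sf_mul, sf_mul, sf_pow, sf_nat, sf_sum] at e1
          have e2 : ps (Hm g q T) ^ (m + 1) = ps (Hm g q T) ^ (m - r) * ps (Hm g q T) ^ (r + 1) := by
            rw [← pow_add]
            congr 1
            omega
          have e3 : ps (Hm g q T) ^ (r + 1) = ps (Pg g) ^ (q * (r + 1)) * sf g (ps T) ^ (r + 1) := by
            rw [hTs', mul_pow, pow_mul]
          calc (d : ℚ⟦X⟧) * (ps (Hm g q T) ^ (m + 1) * sf g (hd (r + 1) (y i)))
              = ps (Hm g q T) ^ (m - r) * ps (Pg g) ^ (q * (r + 1)) *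
                ((d : ℚ⟦X⟧) * (sf g (ps T) ^ (r + 1) * sf g (hd (r + 1) (y i)))) := by
                rw [e2, e3]
                ring
            _ = _ := by
                rw [e1, Finset.mul_sum]
                refine Finset.sum_congr rfl fun j _ => ?_
                rw [ps_Hm g (hGd (r + 1) (by omega) i j), sf_mul]
                show _ = ps (Hm g q T) ^ (m - r) * (ps (Pg g) ^ (q * (r + 1)) * sf g (ps (G (r + 1) i j))) * sf g (y j)
                ring
        have e4 : (d : ℚ⟦X⟧) * (ps (Pg g ^ 2 * Hm g q T) ^ (m + 1) * hd (m + 1) (sf g (y i))) =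
            (d : ℚ⟦X⟧) * (ps (Hm g q T) ^ (m + 1) * (ps (Pg g) ^ (2 * (m + 1)) * hd (m + 1) (sf g (y i)))) := by
          rw [ps_mul, ps_pow, mul_pow, ← pow_mul]
          ring
        rw [e4, shift_hd, Finset.mul_sum, Finset.mul_sum]
        have e5 : ∀ r ∈ Finset.range (m + 1), (d : ℚ⟦X⟧) * (ps (Hm g q T) ^ (m + 1) *
            ((m.choose r : ℚ⟦X⟧) * ((g : ℚ⟦X⟧) * ps (Pg g)) ^ (m - r) * sf g (hd (r + 1) (y i)))) =
            ∑ j, ps (Polynomial.C ((m.choose r : ℕ) : ℤ) *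
              ((Polynomial.C (g : ℤ) * Pg g) ^ (m - r) * (Hm g q T ^ (m - r) * Hm g (q * (r + 1)) (G (r + 1) i j)))) *
              sf g (y j) := by
          intro r hr'
          have e6 : (d : ℚ⟦X⟧) * (ps (Hm g q T) ^ (m + 1) *
            ((m.choose r : ℚ⟦X⟧) * ((g : ℚ⟦X⟧) * ps (Pg g)) ^ (m - r) * sf g (hd (r + 1) (y i)))) =
            (m.choose r : ℚ⟦X⟧) * ((g : ℚ⟦X⟧) * ps (Pg g)) ^ (m - r) *
              ((d : ℚ⟦X⟧) * (ps (Hm g q T) ^ (m + 1) * sf g (hd (r + 1) (y i)))) := by ring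
          rw [e6, hr r hr', Finset.mul_sum]
          refine Finset.sum_congr rfl fun j _ => ?_
          rw [ps_mul, ps_mul, ps_mul, ps_pow, ps_pow, ps_mul, ps_C, ps_C]
          push_cast
          ring
        rw [Finset.sum_congr rfl e5, Finset.sum_comm]
        refine Finset.sum_congr rfl fun j _ => ?_
        rw [ps_sum, Finset.sum_mul]

end Pool.Agent.H885
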