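import Pool.Agent.H885.CurT

/-!
# Lifting infinitesimal symmetries
-/

set_option autoImplicit false
set_option linter.unusedSectionVars false
set_option linter.unusedVariables false

open PowerSeries

namespace Pool.Agent.H885

section wron

/-- comparison of the lowest coefficients -/
theorem theta_low {f h : ℂ⟦X⟧} {n m : ℕ} (hf : ∀ i < n, coeff i f = 0) (hh : ∀ j < m, coeff j h = 0)
    (e : f * d⁄dX ℂ h = h * d⁄dX ℂ f) : ((m : ℂ) - n) * (coeff n f * coeff m h) = 0 := by
  have e1 : f * (X * d⁄dX ℂ h) = h * (X * d⁄dX ℂ f) := by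
    calc f * (X * d⁄dX ℂ h) = X * (f * d⁄dX ℂ h) := by ring
      _ = h * (X * d⁄dX ℂ f) := by
        rw [e]
        ring
  have hθ : ∀ (g : ℂ⟦X⟧) (k : ℕ), coeff k (X * d⁄dX ℂ g) = (k : ℂ) * coeff k g := by
    intro g k
    cases k with
    | zero => simp
    | succ k =>
      rw [PowerSeries.coeff_succ_X_mul, PowerSeries.coeff_derivative]
      push_cast
      ring
  have e2 := congrArg (coeff (n + m)) e1
  rw [PowerSeries.coeff_mul, PowerSeries.coeff_mul] at e2
  have h1 : ∑ p ∈ Finset.HasAntidiagonal.antidiagonal (n + m), coeff p.1 f * coeff p.2 (X * d⁄dX ℂ h) = coeff n f * ((m : ℂ) * coeff m h) := by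
    rw [Finset.sum_eq_single (n, m)]
    · rw [hθ]
    · rintro ⟨i, j⟩ hp hne
      rw [Finset.HasAntidiagonal.mem_antidiagonal] at hp
      simp only at hp ⊢
      rcases lt_or_ge i n with hi | hi
      · rw [hf i hi, zero_mul]
      · rcases lt_or_ge j m with hj | hj
        · rw [hθ, hh j hj, mul_zero, mul_zero]
        · exfalso
          apply hne
          have h3 : i = n := by omega
          have h4 : j = m := by omega
          rw [h3, h4]
    · intro hp
      exfalso
      apply hp
      rw [Finset.HasAntidiagonal.mem_antidiagonal]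
  have h2 : ∑ p ∈ Finset.HasAntidiagonal.antidiagonal (n + m), coeff p.1 h * coeff p.2 (X * d⁄dX ℂ f) = coeff m h * ((n : ℂ) * coeff n f) := by
    rw [Finset.sum_eq_single (m, n)]
    · rw [hθ]
    · rintro ⟨i, j⟩ hp hne
      rw [Finset.HasAntidiagonal.mem_antidiagonal] at hp
      simp only at hp ⊢
      rcases lt_or_ge i m with hi | hi
      · rw [hh i hi, zero_mul]
      · rcases lt_or_ge j n with hj | hj
        · rw [hθ, hf j hj, mul_zero, mul_zero]
        · exfalso
          apply hne
          have h3 : i = m := by omega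
          have h4 : j = n := by omega
          rw [h3, h4]
    · intro hp
      exfalso
      apply hp
      rw [Finset.HasAntidiagonal.mem_antidiagonal]
      exact add_comm _ _
  rw [h1, h2] at e2
  linear_combination e2

/-- power series with vanishing Wronskian are proportional -/
theorem prop_of_wron {f g : ℂ⟦X⟧} (hf : f ≠ 0) (e : f * d⁄dX ℂ g = g * d⁄dX ℂ f) : ∃ c : ℂ, g = PowerSeries.C c * f := by
  classical
  have hex : ∃ n, coeff n f ≠ 0 := by
    by_contra hcon
    push Not at hcon
    exact hf (PowerSeries.ext fun n => by rw [hcon, map_zero])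
  set n := Nat.find hex with hn
  have hn1 : coeff n f ≠ 0 := Nat.find_spec hex
  have hn2 : ∀ i < n, coeff i f = 0 := fun i hi => by
    have := Nat.find_min hex hi
    push Not at this
    exact this
  refine ⟨coeff n g / coeff n f, ?_⟩
  set c := coeff n g / coeff n f with hc
  set h := g - PowerSeries.C c * f with hh
  have e1 : f * d⁄dX ℂ h = h * d⁄dX ℂ f := by
    rw [hh, map_sub, Derivation.leibniz]
    have h1 : d⁄dX ℂ (PowerSeries.C c) = 0 := PowerSeries.derivative_C
    rw [h1, smul_zero, add_zero, smul_eq_mul, mul_sub, e]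
    ring
  have h0 : ∀ m, coeff m h = 0 := by
    intro m
    induction m using Nat.strong_induction_on with
    | _ m ih =>
      by_cases hmn : m = n
      · subst hmn
        rw [hh, map_sub, PowerSeries.coeff_C_mul, hc, div_mul_cancel₀ _ hn1, sub_self]
      · have h2 := theta_low hn2 ih e1
        rcases mul_eq_zero.1 h2 with h3 | h3
        · exfalso
          apply hmn
          exact_mod_cast sub_eq_zero.1 h3
        · exact (mul_eq_zero.1 h3).resolve_left hn1
  have h1 : h = 0 := PowerSeries.ext fun m => by rw [h0, map_zero]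
  rw [hh] at h1
  exact sub_eq_zero.1 h1

end wron

section sat
variable {ι : Type} [Fintype ι]

open Classical in
/-- **The coefficients** of the elements of a saturated module which is stable under the derivative. -/
theorem coeff_mem (V : Submodule ℂ⟦X⟧ (ι → ℂ⟦X⟧)) (hsat : ∀ (f : ℂ⟦X⟧) (v : ι → ℂ⟦X⟧), f ≠ 0 → f • v ∈ V → v ∈ V)
    (hder : ∀ v ∈ V, (fun i => d⁄dX ℂ (v i)) ∈ V) :
    ∀ (m : ℕ) (v : ι → ℂ⟦X⟧), v ∈ V → (Finset.univ.filter fun i => v i ≠ 0).card = m →
      ∀ k, (fun i => PowerSeries.C (coeff k (v i))) ∈ V := by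
  intro m
  induction m using Nat.strong_induction_on with
  | _ m ih =>
    intro v hv hm k
    by_cases hv0 : v = 0
    · subst hv0
      have h1 : (fun i : ι => PowerSeries.C (coeff k ((0 : ι → ℂ⟦X⟧) i))) = 0 := by
        funext i
        simp
      rw [h1]
      exact V.zero_mem
    · -- an element with minimal support
      have hex : ∃ c : ℕ, ∃ u ∈ V, u ≠ 0 ∧ (∀ i, v i = 0 → u i = 0) ∧ (Finset.univ.filter fun i => u i ≠ 0).card = c :=
        ⟨_, v, hv, hv0, fun i h => h, rfl⟩
      obtain ⟨u, hu, hu0, huv, huc⟩ := Nat.find_spec hex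
      have hmin : ∀ w ∈ V, (∀ i, v i = 0 → w i = 0) → (Finset.univ.filter fun i => w i ≠ 0).card <
          (Finset.univ.filter fun i => u i ≠ 0).card → w = 0 := by
        intro w hw hwv hwc
        by_contra hw0
        rw [huc] at hwc
        exact Nat.find_min hex hwc ⟨w, hw, hw0, hwv, rfl⟩
      obtain ⟨i, hi⟩ : ∃ i, u i ≠ 0 := by
        by_contra hcon
        push Not at hcon
        exact hu0 (funext hcon)
      have hw : (u i • (fun j => d⁄dX ℂ (u j)) - (d⁄dX ℂ (u i)) • u) = 0 := by
        refine hmin _ (V.sub_mem (V.smul_mem _ (hder u hu)) (V.smul_mem _ hu)) (fun j hj => ?_) ?_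
        · have h1 := huv j hj
          show u i * d⁄dX ℂ (u j) - d⁄dX ℂ (u i) * u j = 0
          rw [h1, map_zero, mul_zero, mul_zero, sub_zero]
        · refine Finset.card_lt_card ⟨fun j hj => ?_, fun hcon => ?_⟩
          · rw [Finset.mem_filter] at hj ⊢
            refine ⟨Finset.mem_univ _, fun h1 => hj.2 ?_⟩
            show u i * d⁄dX ℂ (u j) - d⁄dX ℂ (u i) * u j = 0
            rw [h1, map_zero, mul_zero, mul_zero, sub_zero]
          · have h1 := hcon (Finset.mem_filter.2 ⟨Finset.mem_univ i, hi⟩)
            rw [Finset.mem_filter] at h1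
            apply h1.2
            show u i * d⁄dX ℂ (u i) - d⁄dX ℂ (u i) * u i = 0
            ring
      have hprop : ∀ j, ∃ c : ℂ, u j = PowerSeries.C c * u i := by
        intro j
        refine prop_of_wron hi ?_
        have h1 : u i * d⁄dX ℂ (u j) - d⁄dX ℂ (u i) * u j = 0 := congrFun hw j
        rw [sub_eq_zero.1 h1]
        ring
      choose c hc using hprop
      have hκ : (fun j => PowerSeries.C (c j)) ∈ V := by
        refine hsat (u i) _ hi ?_
        have h1 : (u i • fun j => PowerSeries.C (c j)) = u := by
          funext j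
          rw [Pi.smul_apply, smul_eq_mul, mul_comm, ← hc]
        rw [h1]
        exact hu
      have hvi : v i ≠ 0 := fun h => hi (huv i h)
      have hci : c i = 1 := by
        have h1 := hc i
        have h2 : (PowerSeries.C (c i) - 1) * u i = 0 := by
          rw [sub_mul, ← h1, one_mul, sub_self]
        have h3 := sub_eq_zero.1 ((mul_eq_zero.1 h2).resolve_right hi)
        have h4 := congrArg (coeff 0) h3
        simpa using h4
      set v' : ι → ℂ⟦X⟧ := v - v i • fun j => PowerSeries.C (c j) with hv'
      have hv'V : v' ∈ V := V.sub_mem hv (V.smul_mem _ hκ)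
      have hsub : (Finset.univ.filter fun j => v' j ≠ 0) ⊂ (Finset.univ.filter fun j => v j ≠ 0) := by
        refine ⟨fun j hj => ?_, fun hcon => ?_⟩
        · rw [Finset.mem_filter] at hj ⊢
          refine ⟨Finset.mem_univ _, fun h1 => hj.2 ?_⟩
          have h2 := huv j h1
          rw [hc j] at h2
          have h3 : PowerSeries.C (c j) = 0 := (mul_eq_zero.1 h2).resolve_right hi
          show v j - v i * PowerSeries.C (c j) = 0
          rw [h1, h3, mul_zero, sub_zero]
        · have h1 := hcon (Finset.mem_filter.2 ⟨Finset.mem_univ i, hvi⟩)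
          rw [Finset.mem_filter] at h1
          apply h1.2
          show v i - v i * PowerSeries.C (c i) = 0
          rw [hci, map_one, mul_one, sub_self]
      have h1 := ih _ (hm ▸ Finset.card_lt_card hsub) v' hv'V rfl k
      have h2 : (fun j => PowerSeries.C (coeff k (v j))) = (fun j => PowerSeries.C (coeff k (v' j))) +
          PowerSeries.C (coeff k (v i)) • fun j => PowerSeries.C (c j) := by
        funext j
        show PowerSeries.C (coeff k (v j)) = PowerSeries.C (coeff k (v j - v i * PowerSeries.C (c j))) +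
          PowerSeries.C (coeff k (v i)) * PowerSeries.C (c j)
        rw [map_sub, PowerSeries.coeff_mul_C, ← map_mul, ← map_add]
        congr 1
        ring
      rw [h2]
      exact V.add_mem h1 (V.smul_mem _ hκ)

end sat

end Pool.Agent.H885
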