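import Pool.Agent.H885.SymLift

/-!
# Lifting infinitesimal symmetries: the lift
-/

set_option autoImplicit false
set_option linter.unusedSectionVars false
set_option linter.unusedVariables false

open PowerSeries

namespace Pool.Agent.H885

section opt
variable {σ : Type} [Fintype σ] [DecidableEq σ]

/-- the evaluation -/
noncomputable def evO (Y : σ → ℂ⟦X⟧) : MvPolynomial (Option σ) ℂ →ₐ[ℂ] ℂ⟦X⟧ := MvPolynomial.aeval fun o => o.elim X Y

/-- the derivative in the direction `w` -/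
noncomputable def dlO (Y w : σ → ℂ⟦X⟧) (P : MvPolynomial (Option σ) ℂ) : ℂ⟦X⟧ :=
  ∑ s, evO Y (MvPolynomial.pderiv (some s) P) * w s

/-- tangent vectors -/
def Tg (Y w : σ → ℂ⟦X⟧) : Prop := ∀ P, evO Y P = 0 → dlO Y w P = 0

theorem evO_X (Y : σ → ℂ⟦X⟧) (s : σ) : evO Y (MvPolynomial.X (some s)) = Y s := MvPolynomial.aeval_X _ _

theorem evO_X0 (Y : σ → ℂ⟦X⟧) : evO Y (MvPolynomial.X none) = X := MvPolynomial.aeval_X _ _

theorem evO_opt (Y : σ → ℂ⟦X⟧) (P : MvPolynomial (Option σ) ℂ) :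
    MvPolynomial.aeval Y (MvPolynomial.optionEquivRight ℂ σ P) = evO Y P := by
  induction P using MvPolynomial.induction_on with
  | C a =>
    rw [MvPolynomial.optionEquivRight_C, MvPolynomial.aeval_C]
    unfold evO
    rw [MvPolynomial.aeval_C]
    exact Polynomial.coe_C _
  | add p q hp hq => rw [map_add, map_add, hp, hq, map_add]
  | mul_X p i hp =>
    have h1 : MvPolynomial.aeval Y (MvPolynomial.optionEquivRight ℂ σ (MvPolynomial.X i)) = evO Y (MvPolynomial.X i) := by
      cases i with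
      | none =>
        rw [MvPolynomial.optionEquivRight_X_none, MvPolynomial.aeval_C, evO_X0]
        exact Polynomial.coe_X
      | some s => rw [MvPolynomial.optionEquivRight_X_some, MvPolynomial.aeval_X, evO_X]
    rw [map_mul, map_mul, hp, map_mul, h1]

theorem pd_opt (s : σ) (P : MvPolynomial (Option σ) ℂ) : MvPolynomial.pderiv s (MvPolynomial.optionEquivRight ℂ σ P) =
    MvPolynomial.optionEquivRight ℂ σ (MvPolynomial.pderiv (some s) P) := by
  induction P using MvPolynomial.induction_on with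
  | C a =>
    rw [MvPolynomial.optionEquivRight_C, MvPolynomial.pderiv_C, MvPolynomial.pderiv_C, map_zero]
  | add p q hp hq => rw [map_add, map_add, map_add, map_add, hp, hq]
  | mul_X p i hp =>
    have h1 : MvPolynomial.pderiv s (MvPolynomial.optionEquivRight ℂ σ (MvPolynomial.X i)) =
        MvPolynomial.optionEquivRight ℂ σ (MvPolynomial.pderiv (some s) (MvPolynomial.X i)) := by
      cases i with
      | none =>
        rw [MvPolynomial.optionEquivRight_X_none, MvPolynomial.pderiv_C, MvPolynomial.pderiv_X_of_ne (by simp), map_zero]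
      | some t =>
        rw [MvPolynomial.optionEquivRight_X_some]
        by_cases h : t = s
        · subst h
          rw [MvPolynomial.pderiv_X_self, MvPolynomial.pderiv_X_self, map_one]
        · rw [MvPolynomial.pderiv_X_of_ne h, MvPolynomial.pderiv_X_of_ne (fun h1 => h (Option.some_injective _ h1)), map_zero]
    rw [map_mul, MvPolynomial.pderiv_mul, MvPolynomial.pderiv_mul, hp, h1, map_add, map_mul, map_mul]

theorem Tg_iff {Y w : σ → ℂ⟦X⟧} : Tg Y w ↔ ∀ R : MvPolynomial σ (Polynomial ℂ), MvPolynomial.aeval Y R = 0 →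
    ∑ s, MvPolynomial.aeval Y (MvPolynomial.pderiv s R) * w s = 0 := by
  have h1 : ∀ P : MvPolynomial (Option σ) ℂ, ∑ s, MvPolynomial.aeval Y (MvPolynomial.pderiv s (MvPolynomial.optionEquivRight ℂ σ P)) * w s =
      dlO Y w P := by
    intro P
    refine Finset.sum_congr rfl fun s _ => ?_
    rw [pd_opt, evO_opt]
  constructor
  · intro h R hR
    obtain ⟨P, rfl⟩ := (MvPolynomial.optionEquivRight ℂ σ).surjective R
    rw [h1]
    rw [evO_opt] at hR
    exact h P hR
  · intro h P hP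
    rw [← h1]
    refine h _ ?_
    rw [evO_opt]
    exact hP

theorem dlO_add (Y w : σ → ℂ⟦X⟧) (P Q : MvPolynomial (Option σ) ℂ) : dlO Y w (P + Q) = dlO Y w P + dlO Y w Q := by
  unfold dlO
  rw [← Finset.sum_add_distrib]
  refine Finset.sum_congr rfl fun s _ => ?_
  rw [map_add, map_add, add_mul]

theorem dlO_mul (Y w : σ → ℂ⟦X⟧) (P Q : MvPolynomial (Option σ) ℂ) :
    dlO Y w (P * Q) = evO Y P * dlO Y w Q + evO Y Q * dlO Y w P := by
  unfold dlO
  rw [Finset.mul_sum, Finset.mul_sum, ← Finset.sum_add_distrib]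
  refine Finset.sum_congr rfl fun s _ => ?_
  rw [MvPolynomial.pderiv_mul, map_add, map_mul, map_mul]
  ring

theorem dlO_C (Y w : σ → ℂ⟦X⟧) (a : ℂ) : dlO Y w (MvPolynomial.C a) = 0 := by
  unfold dlO
  refine Finset.sum_eq_zero fun s _ => ?_
  rw [MvPolynomial.pderiv_C, map_zero, zero_mul]

theorem dlO_X0 (Y w : σ → ℂ⟦X⟧) : dlO Y w (MvPolynomial.X none) = 0 := by
  unfold dlO
  refine Finset.sum_eq_zero fun s _ => ?_
  rw [MvPolynomial.pderiv_X_of_ne (by simp), map_zero, zero_mul]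

theorem dlO_X (Y w : σ → ℂ⟦X⟧) (s : σ) : dlO Y w (MvPolynomial.X (some s)) = w s := by
  unfold dlO
  rw [Finset.sum_eq_single s]
  · rw [MvPolynomial.pderiv_X_self, map_one, one_mul]
  · intro t _ ht
    rw [MvPolynomial.pderiv_X_of_ne (fun h => ht (Option.some_injective _ h).symm), map_zero, zero_mul]
  · intro h
    exact absurd (Finset.mem_univ _) h

/-- polynomials in `x` -/
noncomputable def toO : Polynomial ℂ →ₐ[ℂ] MvPolynomial (Option σ) ℂ := Polynomial.aeval (MvPolynomial.X none)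

theorem evO_toO (Y : σ → ℂ⟦X⟧) (p : Polynomial ℂ) : evO Y (toO p) = (p : ℂ⟦X⟧) := by
  induction p using Polynomial.induction_on with
  | C a =>
    unfold toO evO
    rw [Polynomial.aeval_C, MvPolynomial.algebraMap_eq, MvPolynomial.aeval_C, Polynomial.coe_C]
    rfl
  | add p q hp hq => rw [map_add, map_add, hp, hq, Polynomial.coe_add]
  | monomial n a h =>
    have h1 : (toO Polynomial.X : MvPolynomial (Option σ) ℂ) = MvPolynomial.X none := by
      unfold toO
      rw [Polynomial.aeval_X]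
    have h2 : ((Polynomial.C a * Polynomial.X ^ n * Polynomial.X : Polynomial ℂ) : ℂ⟦X⟧) =
        ((Polynomial.C a * Polynomial.X ^ n : Polynomial ℂ) : ℂ⟦X⟧) * X := by
      rw [Polynomial.coe_mul, Polynomial.coe_X]
    rw [pow_succ, ← mul_assoc, map_mul, map_mul, h, h1, evO_X0, h2]

theorem dlO_toO (Y w : σ → ℂ⟦X⟧) (p : Polynomial ℂ) : dlO Y w (toO p) = 0 := by
  induction p using Polynomial.induction_on with
  | C a =>
    unfold toO
    rw [Polynomial.aeval_C, MvPolynomial.algebraMap_eq, dlO_C]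
  | add p q hp hq => rw [map_add, dlO_add, hp, hq, add_zero]
  | monomial n a h =>
    rw [pow_succ, ← mul_assoc, map_mul, dlO_mul, h, mul_zero, add_zero]
    have h1 : (toO Polynomial.X : MvPolynomial (Option σ) ℂ) = MvPolynomial.X none := by
      unfold toO
      rw [Polynomial.aeval_X]
    rw [h1, dlO_X0, mul_zero]

variable (T : Polynomial ℂ) (q : σ → MvPolynomial (Option σ) ℂ)

/-- the total derivative -/
noncomputable def totD : Derivation ℂ (MvPolynomial (Option σ) ℂ) (MvPolynomial (Option σ) ℂ) :=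
  MvPolynomial.mkDerivation ℂ fun o => o.elim (toO T) q

theorem evO_totD {Y : σ → ℂ⟦X⟧} (hq : ∀ s, evO Y (q s) = (T : ℂ⟦X⟧) * d⁄dX ℂ (Y s)) (P : MvPolynomial (Option σ) ℂ) :
    evO Y (totD T q P) = (T : ℂ⟦X⟧) * d⁄dX ℂ (evO Y P) := by
  induction P using MvPolynomial.induction_on with
  | C a =>
    have h1 : totD T q (MvPolynomial.C a) = 0 := (totD T q).map_algebraMap a
    have h2 : d⁄dX ℂ (evO Y (MvPolynomial.C a)) = 0 := by
      unfold evO
      rw [MvPolynomial.aeval_C]
      exact (d⁄dX ℂ).map_algebraMap a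
    rw [h1, h2, map_zero, mul_zero]
  | add p q hp hq => rw [map_add, map_add, hp, hq, map_add, map_add, mul_add]
  | mul_X p i hp =>
    have h1 : evO Y (totD T q (MvPolynomial.X i)) = (T : ℂ⟦X⟧) * d⁄dX ℂ (evO Y (MvPolynomial.X i)) := by
      unfold totD
      rw [MvPolynomial.mkDerivation_X]
      cases i with
      | none =>
        rw [evO_X0]
        have h2 : d⁄dX ℂ (X : ℂ⟦X⟧) = 1 := PowerSeries.derivative_X
        rw [h2, mul_one]
        exact evO_toO Y T
      | some s =>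
        rw [evO_X]
        exact hq s
    rw [Derivation.leibniz, smul_eq_mul, smul_eq_mul, map_add, map_mul, map_mul, hp, h1, map_mul, Derivation.leibniz,
      smul_eq_mul, smul_eq_mul]
    ring

theorem dlO_totD {Y w w' : σ → ℂ⟦X⟧} (hq : ∀ s, evO Y (q s) = (T : ℂ⟦X⟧) * d⁄dX ℂ (Y s))
    (hw : ∀ s, dlO Y w (q s) = (T : ℂ⟦X⟧) * d⁄dX ℂ (w s) - w' s) (P : MvPolynomial (Option σ) ℂ) :
    dlO Y w (totD T q P) = (T : ℂ⟦X⟧) * d⁄dX ℂ (dlO Y w P) - dlO Y w' P := by
  induction P using MvPolynomial.induction_on with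
  | C a =>
    have h1 : totD T q (MvPolynomial.C a) = 0 := (totD T q).map_algebraMap a
    rw [h1, dlO_C, dlO_C, map_zero, mul_zero, sub_zero]
    unfold dlO
    simp
  | add p q hp hq =>
    rw [map_add, dlO_add, dlO_add, dlO_add, hp, hq, map_add]
    ring
  | mul_X p i hp =>
    have h1 : dlO Y w (totD T q (MvPolynomial.X i)) = (T : ℂ⟦X⟧) * d⁄dX ℂ (dlO Y w (MvPolynomial.X i)) -
        dlO Y w' (MvPolynomial.X i) := by
      unfold totD
      rw [MvPolynomial.mkDerivation_X]
      cases i with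
      | none =>
        rw [dlO_X0, dlO_X0, map_zero, mul_zero, sub_zero]
        exact dlO_toO Y w T
      | some s =>
        rw [dlO_X, dlO_X]
        exact hw s
    rw [Derivation.leibniz, smul_eq_mul, smul_eq_mul, dlO_add, dlO_mul, dlO_mul, hp, h1, evO_totD T q hq, evO_totD T q hq,
      dlO_mul, dlO_mul, map_add, Derivation.leibniz, Derivation.leibniz]
    simp only [smul_eq_mul]
    ring

/-- stability under the derivative -/
theorem Tg_der {Y w w' : σ → ℂ⟦X⟧} (hq : ∀ s, evO Y (q s) = (T : ℂ⟦X⟧) * d⁄dX ℂ (Y s))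
    (hw : ∀ s, dlO Y w (q s) = (T : ℂ⟦X⟧) * d⁄dX ℂ (w s) - w' s) (h : Tg Y w) : Tg Y w' := by
  intro P hP
  have h1 := dlO_totD T q hq hw P
  rw [h P hP, map_zero, mul_zero, zero_sub, h (totD T q P) (by rw [evO_totD T q hq, hP, map_zero, mul_zero])] at h1
  exact neg_eq_zero.1 h1.symm

end opt

section mat
variable {N n ν : ℕ}

/-- the action of tuples of matrices -/
noncomputable def actV (Z : Fin N → Matrix (Fin ν) (Fin ν) ℂ⟦X⟧) (v : Fin N × Fin ν × Fin ν → ℂ⟦X⟧)
    (s : Fin N × Fin ν × Fin ν) : ℂ⟦X⟧ := ∑ l, v (s.1, s.2.1, l) * Z s.1 l s.2.2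

/-- the tangent tuples of matrices -/
noncomputable def tanV (Z : Fin N → Matrix (Fin ν) (Fin ν) ℂ⟦X⟧) : Submodule ℂ⟦X⟧ (Fin N × Fin ν × Fin ν → ℂ⟦X⟧) where
  carrier := {v | Tg (fun s => Z s.1 s.2.1 s.2.2) (actV Z v)}
  zero_mem' := by
    intro P _
    unfold dlO actV
    simp
  add_mem' := by
    intro v v' h h' P hP
    have h1 := h P hP
    have h2 := h' P hP
    have h3 : dlO (fun s => Z s.1 s.2.1 s.2.2) (actV Z (v + v')) P =
        dlO (fun s => Z s.1 s.2.1 s.2.2) (actV Z v) P + dlO (fun s => Z s.1 s.2.1 s.2.2) (actV Z v') P := by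
      unfold dlO
      rw [← Finset.sum_add_distrib]
      refine Finset.sum_congr rfl fun s _ => ?_
      rw [← mul_add]
      congr 1
      unfold actV
      rw [← Finset.sum_add_distrib]
      exact Finset.sum_congr rfl fun l _ => by rw [Pi.add_apply, add_mul]
    rw [h3, h1, h2, add_zero]
  smul_mem' := by
    intro c v h P hP
    have h1 := h P hP
    have h3 : dlO (fun s => Z s.1 s.2.1 s.2.2) (actV Z (c • v)) P = c * dlO (fun s => Z s.1 s.2.1 s.2.2) (actV Z v) P := by
      unfold dlO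
      rw [Finset.mul_sum]
      refine Finset.sum_congr rfl fun s _ => ?_
      unfold actV
      rw [Finset.mul_sum, Finset.mul_sum, Finset.mul_sum]
      refine Finset.sum_congr rfl fun l _ => ?_
      rw [Pi.smul_apply, smul_eq_mul]
      ring
    rw [h3, h1, mul_zero]

theorem tanV_sat (Z : Fin N → Matrix (Fin ν) (Fin ν) ℂ⟦X⟧) (f : ℂ⟦X⟧) (v : Fin N × Fin ν × Fin ν → ℂ⟦X⟧) (hf : f ≠ 0)
    (h : f • v ∈ tanV Z) : v ∈ tanV Z := by
  intro P hP
  have h1 := h P hP
  have h3 : dlO (fun s => Z s.1 s.2.1 s.2.2) (actV Z (f • v)) P = f * dlO (fun s => Z s.1 s.2.1 s.2.2) (actV Z v) P := by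
    unfold dlO
    rw [Finset.mul_sum]
    refine Finset.sum_congr rfl fun s _ => ?_
    unfold actV
    rw [Finset.mul_sum, Finset.mul_sum, Finset.mul_sum]
    refine Finset.sum_congr rfl fun l _ => ?_
    rw [Pi.smul_apply, smul_eq_mul]
    ring
  rw [h3] at h1
  exact (mul_eq_zero.1 h1).resolve_left hf

theorem tanV_der {Z : Fin N → Matrix (Fin ν) (Fin ν) ℂ⟦X⟧} {T : Polynomial ℂ} (hT : T ≠ 0)
    {B : Fin N → Fin ν → Fin ν → Polynomial ℂ}
    (hode : ∀ j a b, (T : ℂ⟦X⟧) * d⁄dX ℂ (Z j a b) = ∑ l, Z j a l * (B j l b : ℂ⟦X⟧))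
    (v : Fin N × Fin ν × Fin ν → ℂ⟦X⟧) (hv : v ∈ tanV Z) : (fun s => d⁄dX ℂ (v s)) ∈ tanV Z := by
  have hT0 : (T : ℂ⟦X⟧) ≠ 0 := fun h => hT (Polynomial.coe_eq_zero_iff.1 h)
  refine tanV_sat Z T _ hT0 ?_
  refine Tg_der T (fun s => ∑ l, MvPolynomial.X (some (s.1, s.2.1, l)) * toO (B s.1 l s.2.2)) (fun s => ?_) (fun s => ?_) hv
  · rw [map_sum, hode]
    refine Finset.sum_congr rfl fun l _ => ?_
    rw [map_mul, evO_X, evO_toO]
  · have h1 : ∀ t : Finset (Fin ν), dlO (fun s : Fin N × Fin ν × Fin ν => Z s.1 s.2.1 s.2.2) (actV Z v)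
        (∑ l ∈ t, MvPolynomial.X (some (s.1, s.2.1, l)) * toO (B s.1 l s.2.2)) =
        ∑ l ∈ t, (B s.1 l s.2.2 : ℂ⟦X⟧) * actV Z v (s.1, s.2.1, l) := by
      intro t
      classical
      induction t using Finset.induction_on with
      | empty =>
        rw [Finset.sum_empty, Finset.sum_empty]
        unfold dlO
        simp
      | insert l t hl ih =>
        rw [Finset.sum_insert hl, Finset.sum_insert hl, dlO_add, ih, dlO_mul, dlO_toO, mul_zero, zero_add, dlO_X, evO_toO]
    rw [h1]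
    have h2 : (T : ℂ⟦X⟧) * d⁄dX ℂ (actV Z v s) = ∑ l, ((T : ℂ⟦X⟧) * d⁄dX ℂ (v (s.1, s.2.1, l))) * Z s.1 l s.2.2 +
        ∑ l, v (s.1, s.2.1, l) * ∑ l', Z s.1 l l' * (B s.1 l' s.2.2 : ℂ⟦X⟧) := by
      unfold actV
      rw [map_sum, Finset.mul_sum, ← Finset.sum_add_distrib]
      refine Finset.sum_congr rfl fun l _ => ?_
      rw [← hode, Derivation.leibniz, smul_eq_mul, smul_eq_mul]
      ring
    have h3 : ∑ l, (B s.1 l s.2.2 : ℂ⟦X⟧) * actV Z v (s.1, s.2.1, l) =
        ∑ l, v (s.1, s.2.1, l) * ∑ l', Z s.1 l l' * (B s.1 l' s.2.2 : ℂ⟦X⟧) := by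
      unfold actV
      simp only [Finset.mul_sum]
      rw [Finset.sum_comm]
      refine Finset.sum_congr rfl fun l _ => Finset.sum_congr rfl fun l' _ => ?_
      ring
    rw [h2, h3]
    have h4 : actV Z ((T : ℂ⟦X⟧) • fun s => d⁄dX ℂ (v s)) s =
        ∑ l, ((T : ℂ⟦X⟧) * d⁄dX ℂ (v (s.1, s.2.1, l))) * Z s.1 l s.2.2 := rfl
    rw [h4]
    ring

/-- the derivative of a value of a polynomial -/
theorem derC_aeval {Ω ι : Type} [Field Ω] [Algebra ℂ Ω] [Fintype ι] (D : Derivation ℂ Ω Ω) (P : MvPolynomial ι ℂ) (y : ι → Ω) :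
    D (MvPolynomial.aeval y P) = ∑ i, MvPolynomial.aeval y (MvPolynomial.pderiv i P) * D (y i) := by
  classical
  induction P using MvPolynomial.induction_on with
  | C a =>
    rw [MvPolynomial.aeval_C, D.map_algebraMap]
    symm
    refine Finset.sum_eq_zero fun i _ => ?_
    rw [MvPolynomial.pderiv_C, map_zero, zero_mul]
  | add p q hp hq =>
    rw [map_add, map_add, hp, hq, ← Finset.sum_add_distrib]
    refine Finset.sum_congr rfl fun i _ => ?_
    rw [map_add, map_add, add_mul]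
  | mul_X p i hp =>
    rw [map_mul, MvPolynomial.aeval_X, D.leibniz, hp, smul_eq_mul, smul_eq_mul]
    have h2 : ∀ b, MvPolynomial.aeval y (MvPolynomial.pderiv b (p * MvPolynomial.X i)) * D (y b) =
        (MvPolynomial.aeval y (MvPolynomial.pderiv b p) * D (y b)) * y i +
          (if i = b then MvPolynomial.aeval y p * D (y i) else 0) := by
      intro b
      rw [MvPolynomial.pderiv_mul, map_add, map_mul, map_mul, MvPolynomial.aeval_X]
      by_cases h2 : i = b
      · subst h2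
        rw [MvPolynomial.pderiv_X_self, map_one, if_pos rfl]
        ring
      · rw [MvPolynomial.pderiv_X_of_ne h2, map_zero, if_neg h2]
        ring
    rw [Finset.sum_congr rfl fun b _ => h2 b, Finset.sum_add_distrib, Finset.sum_ite_eq, if_pos (Finset.mem_univ i),
      ← Finset.sum_mul]
    ring

end mat

end Pool.Agent.H885
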