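import Pool.Agent.H885.SymLift2
import Pool.Graph.R_pool_sql_team_seeded_620a6dc7.Helper880_R3.Gen

/-!
# Lifting infinitesimal symmetries to larger systems
-/

set_option autoImplicit false
set_option linter.unusedSectionVars false
set_option linter.unusedVariables false

open PowerSeries

namespace Pool.Agent.H885

variable {N n ν : ℕ}

/-- **Infinitesimal symmetries lift to larger systems.** -/
theorem sym_lift (ω : Fin N → Matrix (Fin n) (Fin ν) ℂ) (Y : Fin N → Matrix (Fin n) (Fin n) ℂ⟦X⟧)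
    (Z W : Fin N → Matrix (Fin ν) (Fin ν) ℂ⟦X⟧) {T : Polynomial ℂ} (hT : T ≠ 0) (B : Fin N → Fin ν → Fin ν → Polynomial ℂ)
    (hode : ∀ j a b, (T : ℂ⟦X⟧) * d⁄dX ℂ (Z j a b) = ∑ l, Z j a l * (B j l b : ℂ⟦X⟧))
    (hinv : ∀ j, W j * Z j = 1)
    (hω : ∀ j, (ω j).map (PowerSeries.C (R := ℂ)) * Z j = Y j * (ω j).map (PowerSeries.C (R := ℂ)))
    {x : Fin N → Matrix (Fin n) (Fin n) ℂ}
    (hx : Tg (fun s : Fin N × Fin n × Fin n => Y s.1 s.2.1 s.2.2)
      (fun s => ((x s.1).map (PowerSeries.C (R := ℂ)) * Y s.1) s.2.1 s.2.2)) :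
    ∃ x' : Fin N → Matrix (Fin ν) (Fin ν) ℂ,
      Tg (fun s : Fin N × Fin ν × Fin ν => Z s.1 s.2.1 s.2.2)
        (fun s => ((x' s.1).map (PowerSeries.C (R := ℂ)) * Z s.1) s.2.1 s.2.2) ∧
      (∀ j, ω j * x' j = x j * ω j) ∧ ∀ j, Z j = 1 → x' j = 0 := by
  classical
  set Ω := FractionRing ℂ⟦X⟧ with hΩ
  have hinj : Function.Injective (algebraMap ℂ⟦X⟧ Ω) := IsFractionRing.injective _ _
  have hc0 : CharZero Ω := charZero_of_injective_algebraMap (R := ℂ) (algebraMap ℂ Ω).injective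
  set Yv : Fin N × Fin n × Fin n → ℂ⟦X⟧ := fun s => Y s.1 s.2.1 s.2.2 with hYv
  set w : Fin N × Fin n × Fin n → ℂ⟦X⟧ := fun s => ((x s.1).map (PowerSeries.C (R := ℂ)) * Y s.1) s.2.1 s.2.2 with hw
  set Zv : Fin N × Fin ν × Fin ν → ℂ⟦X⟧ := fun s => Z s.1 s.2.1 s.2.2 with hZv
  have hev : ∀ {σ : Type} [Fintype σ] [DecidableEq σ] (y : σ → ℂ⟦X⟧) (P : MvPolynomial (Option σ) ℂ),
      MvPolynomial.aeval (fun o : Option σ => algebraMap ℂ⟦X⟧ Ω (o.elim X y)) P = algebraMap ℂ⟦X⟧ Ω (evO y P) := by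
    intro σ _ _ y P
    exact MvPolynomial.aeval_algebraMap_apply Ω (fun o : Option σ => o.elim X y) P
  -- the derivation
  obtain ⟨D, hD⟩ := Pool.Agent.Y118.HX.ex_der (k := ℂ) (fun o : Option (Fin N × Fin n × Fin n) => algebraMap ℂ⟦X⟧ Ω (o.elim X Yv))
    (fun o => algebraMap ℂ⟦X⟧ Ω (o.elim 0 w)) (by
      intro P hP
      rw [Pool.Agent.Helper880_R3.dual_aeval, hP]
      have h0 : evO Yv P = 0 := by
        rw [hev] at hP
        exact hinj (hP.trans (map_zero _).symm)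
      have h1 : (∑ o, MvPolynomial.aeval (fun o : Option (Fin N × Fin n × Fin n) => algebraMap ℂ⟦X⟧ Ω (o.elim X Yv))
          (MvPolynomial.pderiv o P) * algebraMap ℂ⟦X⟧ Ω (o.elim 0 w)) = 0 := by
        rw [Fintype.sum_option]
        have h2 : algebraMap ℂ⟦X⟧ Ω ((none : Option (Fin N × Fin n × Fin n)).elim 0 w) = 0 := map_zero _
        rw [h2, mul_zero, zero_add]
        have h3 : ∀ s, MvPolynomial.aeval (fun o : Option (Fin N × Fin n × Fin n) => algebraMap ℂ⟦X⟧ Ω (o.elim X Yv))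
            (MvPolynomial.pderiv (some s) P) * algebraMap ℂ⟦X⟧ Ω ((some s).elim 0 w) =
            algebraMap ℂ⟦X⟧ Ω (evO Yv (MvPolynomial.pderiv (some s) P) * w s) := by
          intro s
          rw [hev, map_mul]
          rfl
        rw [Finset.sum_congr rfl fun s _ => h3 s, ← map_sum]
        have h4 := hx P h0
        unfold dlO at h4
        rw [h4, map_zero]
      rw [h1]
      simp)
  have hD0 : D (algebraMap ℂ⟦X⟧ Ω X) = 0 := (hD none).trans (map_zero _)
  have hDY : ∀ s, D (algebraMap ℂ⟦X⟧ Ω (Yv s)) = algebraMap ℂ⟦X⟧ Ω (w s) := fun s => hD (some s)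
  have hDC : ∀ c : ℂ, D (algebraMap ℂ⟦X⟧ Ω (PowerSeries.C c)) = 0 := by
    intro c
    have h1 : algebraMap ℂ⟦X⟧ Ω (PowerSeries.C c) = algebraMap ℂ Ω c := by
      rw [IsScalarTower.algebraMap_apply ℂ ℂ⟦X⟧ Ω]
      rfl
    rw [h1, D.map_algebraMap]
  -- common denominators
  obtain ⟨⟨f, hf⟩, hfd⟩ := IsLocalization.exist_integer_multiples_of_finite (nonZeroDivisors ℂ⟦X⟧)
    (fun s : Fin N × Fin ν × Fin ν => D (algebraMap ℂ⟦X⟧ Ω (Zv s)))
  have hf0 : f ≠ 0 := nonZeroDivisors.ne_zero hf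
  choose d hd using hfd
  have hd' : ∀ s, algebraMap ℂ⟦X⟧ Ω (d s) = algebraMap ℂ⟦X⟧ Ω f * D (algebraMap ℂ⟦X⟧ Ω (Zv s)) := by
    intro s
    rw [hd s]
    exact Algebra.smul_def _ _
  -- the tangent vector
  set dM : Fin N → Matrix (Fin ν) (Fin ν) ℂ⟦X⟧ := fun j => Matrix.of fun a b => d (j, a, b) with hdM
  set v : Fin N × Fin ν × Fin ν → ℂ⟦X⟧ := fun s => (dM s.1 * W s.1) s.2.1 s.2.2 with hv
  have hact : ∀ s, actV Z v s = d s := by
    intro s
    have h1 : actV Z v s = ((dM s.1 * W s.1) * Z s.1) s.2.1 s.2.2 := by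
      rw [Matrix.mul_apply]
      rfl
    rw [h1, Matrix.mul_assoc, hinv, Matrix.mul_one]
    rfl
  have hvV : v ∈ tanV Z := by
    intro P hP
    apply hinj
    rw [map_zero]
    unfold dlO
    rw [map_sum]
    have h1 : ∀ s, algebraMap ℂ⟦X⟧ Ω (evO (fun s : Fin N × Fin ν × Fin ν => Z s.1 s.2.1 s.2.2) (MvPolynomial.pderiv (some s) P) * actV Z v s) =
        algebraMap ℂ⟦X⟧ Ω f * (MvPolynomial.aeval (fun o : Option (Fin N × Fin ν × Fin ν) => algebraMap ℂ⟦X⟧ Ω (o.elim X Zv))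
          (MvPolynomial.pderiv (some s) P) * D (algebraMap ℂ⟦X⟧ Ω (Zv s))) := by
      intro s
      rw [hact, map_mul, hd', hev]
      ring
    rw [Finset.sum_congr rfl fun s _ => h1 s, ← Finset.mul_sum]
    have h2 := derC_aeval D P (fun o : Option (Fin N × Fin ν × Fin ν) => algebraMap ℂ⟦X⟧ Ω (o.elim X Zv))
    rw [Fintype.sum_option] at h2
    have h3 : D (algebraMap ℂ⟦X⟧ Ω ((none : Option (Fin N × Fin ν × Fin ν)).elim X Zv)) = 0 := hD0
    rw [h3, mul_zero, zero_add, hev] at h2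
    have h4 : evO Zv P = 0 := hP
    rw [h4, map_zero, map_zero] at h2
    have h5 : ∑ s, MvPolynomial.aeval (fun o : Option (Fin N × Fin ν × Fin ν) => algebraMap ℂ⟦X⟧ Ω (o.elim X Zv))
          (MvPolynomial.pderiv (some s) P) * D (algebraMap ℂ⟦X⟧ Ω (Zv s)) = 0 := h2.symm
    rw [h5, mul_zero]
  obtain ⟨k, hk⟩ : ∃ k, coeff k f ≠ 0 := by
    by_contra hcon
    push Not at hcon
    exact hf0 (PowerSeries.ext fun k => by rw [hcon, map_zero])
  have hcm := coeff_mem (tanV Z) (tanV_sat Z) (tanV_der hT hode) _ v hvV rfl k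
  let x' : Fin N → Matrix (Fin ν) (Fin ν) ℂ := fun j => Matrix.of fun a b => (coeff k f)⁻¹ * coeff k (v (j, a, b))
  have hx' : ∀ j a b, x' j a b = (coeff k f)⁻¹ * coeff k (v (j, a, b)) := fun _ _ _ => rfl
  refine ⟨x', ?_, fun j => ?_, fun j hj => ?_⟩
  · have h1 := (tanV Z).smul_mem (PowerSeries.C (coeff k f)⁻¹) hcm
    have h2 : (fun s : Fin N × Fin ν × Fin ν => ((x' s.1).map (PowerSeries.C (R := ℂ)) * Z s.1) s.2.1 s.2.2) =
        actV Z (PowerSeries.C (coeff k f)⁻¹ • fun s => PowerSeries.C (coeff k (v s))) := by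
      funext s
      rw [Matrix.mul_apply]
      unfold actV
      refine Finset.sum_congr rfl fun l _ => ?_
      rw [Matrix.map_apply, hx', Pi.smul_apply, smul_eq_mul, map_mul]
    rw [h2]
    exact h1
  · -- compatibility
    have hZW : Z j * W j = 1 := mul_eq_one_comm.1 (hinv j)
    have h1 : (ω j).map (PowerSeries.C (R := ℂ)) * dM j =
        f • ((x j).map (PowerSeries.C (R := ℂ)) * (ω j).map (PowerSeries.C (R := ℂ)) * Z j) := by
      ext1 a b
      apply hinj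
      have h2 := congrArg (fun M => D (algebraMap ℂ⟦X⟧ Ω (M a b))) (hω j)
      simp only [Matrix.mul_apply, map_sum, map_mul, Derivation.leibniz, Matrix.map_apply, hDC, smul_eq_mul, mul_zero, add_zero, zero_add] at h2
      have h3 : algebraMap ℂ⟦X⟧ Ω (((ω j).map (PowerSeries.C (R := ℂ)) * dM j) a b) = algebraMap ℂ⟦X⟧ Ω f *
          ∑ l, algebraMap ℂ⟦X⟧ Ω (PowerSeries.C (ω j a l)) * D (algebraMap ℂ⟦X⟧ Ω (Z j l b)) := by
        rw [Matrix.mul_apply, map_sum, Finset.mul_sum]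
        refine Finset.sum_congr rfl fun l _ => ?_
        have h4 : dM j l b = d (j, l, b) := rfl
        rw [map_mul, h4, hd', Matrix.map_apply]
        ring
      rw [h3, h2, Matrix.mul_assoc, hω, ← Matrix.mul_assoc, Matrix.smul_apply, smul_eq_mul, map_mul]
      congr 1
      rw [Matrix.mul_apply, map_sum]
      refine Finset.sum_congr rfl fun c _ => ?_
      have h5 : D (algebraMap ℂ⟦X⟧ Ω (Y j a c)) = algebraMap ℂ⟦X⟧ Ω (((x j).map (PowerSeries.C (R := ℂ)) * Y j) a c) := hDY (j, a, c)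
      rw [h5, map_mul, Matrix.map_apply]
      ring
    have h2 : (ω j).map (PowerSeries.C (R := ℂ)) * (dM j * W j) =
        f • ((x j).map (PowerSeries.C (R := ℂ)) * (ω j).map (PowerSeries.C (R := ℂ))) := by
      rw [← Matrix.mul_assoc, h1, Matrix.smul_mul, Matrix.mul_assoc, hZW, Matrix.mul_one]
    ext1 a b
    have h3 : coeff k (((ω j).map (PowerSeries.C (R := ℂ)) * (dM j * W j)) a b) =
        coeff k ((f • ((x j).map (PowerSeries.C (R := ℂ)) * (ω j).map (PowerSeries.C (R := ℂ)))) a b) := by rw [h2]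
    have h4 : coeff k (((ω j).map (PowerSeries.C (R := ℂ)) * (dM j * W j)) a b) = ∑ l, ω j a l * coeff k (v (j, l, b)) := by
      rw [Matrix.mul_apply, map_sum]
      refine Finset.sum_congr rfl fun l _ => ?_
      rw [Matrix.map_apply, PowerSeries.coeff_C_mul]
    have h5 : coeff k ((f • ((x j).map (PowerSeries.C (R := ℂ)) * (ω j).map (PowerSeries.C (R := ℂ)))) a b) =
        coeff k f * (x j * ω j) a b := by
      rw [← Matrix.map_mul, Matrix.smul_apply, smul_eq_mul, Matrix.map_apply, PowerSeries.coeff_mul_C]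
    rw [h4, h5] at h3
    rw [Matrix.mul_apply]
    have h6 : ∀ l, ω j a l * x' j l b = (coeff k f)⁻¹ * (ω j a l * coeff k (v (j, l, b))) := by
      intro l
      rw [hx']
      ring
    rw [Finset.sum_congr rfl fun l _ => h6 l, ← Finset.mul_sum, h3, ← mul_assoc, inv_mul_cancel₀ hk, one_mul]
  · have h1 : dM j = 0 := by
      ext1 a b
      apply hinj
      have h2 : dM j a b = d (j, a, b) := rfl
      rw [h2, hd', Matrix.zero_apply, map_zero]
      have h3 : Zv (j, a, b) = (1 : Matrix (Fin ν) (Fin ν) ℂ⟦X⟧) a b := by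
        show Z j a b = _
        rw [hj]
      rw [h3, Matrix.one_apply]
      split_ifs
      · rw [map_one, D.map_one_eq_zero, mul_zero]
      · rw [map_zero, map_zero, mul_zero]
    ext1 a b
    have h2 : v (j, a, b) = 0 := by
      show (dM j * W j) a b = 0
      rw [h1, Matrix.zero_mul, Matrix.zero_apply]
    rw [hx', h2, map_zero, mul_zero, Matrix.zero_apply]

end Pool.Agent.H885
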