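import Pool.Agent.H885.UnifTw
import Pool.Agent.H885.DerW
import Pool.Agent.H885.Rat

/-!
# The symmetries near degenerate central fibres are defined over the rational numbers
-/

set_option autoImplicit false
set_option linter.unusedSectionVars false
set_option linter.unusedVariables false

open Matrix Module Filter PowerSeries

namespace Pool.Agent.H885

variable {n N : ℕ}

/-- conjugation by `exp (lam R)` -/
noncomputable def cjg (R : Fin N → Matrix (Fin n) (Fin n) ℤ) (lam : ℂ) (X : Fin N → Matrix (Fin n) (Fin n) ℂ) :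
    Fin N → Matrix (Fin n) (Fin n) ℂ := fun j => eP (R j) (-lam) * X j * eP (R j) lam

lemma cjg_add (R : Fin N → Matrix (Fin n) (Fin n) ℤ) (lam : ℂ) (X Y : Fin N → Matrix (Fin n) (Fin n) ℂ) :
    cjg R lam (X + Y) = cjg R lam X + cjg R lam Y := by
  funext j
  show eP (R j) (-lam) * (X j + Y j) * eP (R j) lam = _
  rw [Matrix.mul_add, Matrix.add_mul]
  rfl

lemma cjg_smul (R : Fin N → Matrix (Fin n) (Fin n) ℤ) (lam c : ℂ) (X : Fin N → Matrix (Fin n) (Fin n) ℂ) :
    cjg R lam (c • X) = c • cjg R lam X := by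
  funext j
  show eP (R j) (-lam) * (c • X j) * eP (R j) lam = _
  rw [Matrix.mul_smul, Matrix.smul_mul]
  rfl

lemma cjg_zero (R : Fin N → Matrix (Fin n) (Fin n) ℤ) (lam : ℂ) : cjg R lam 0 = 0 := by
  funext j
  show eP (R j) (-lam) * 0 * eP (R j) lam = _
  rw [Matrix.mul_zero, Matrix.zero_mul]
  rfl

lemma cjg_cjg {R : Fin N → Matrix (Fin n) (Fin n) ℤ} (hR : ∀ j, R j ^ n = 0) (lam mu : ℂ)
    (X : Fin N → Matrix (Fin n) (Fin n) ℂ) : cjg R lam (cjg R mu X) = cjg R (mu + lam) X := by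
  funext j
  show eP (R j) (-lam) * (eP (R j) (-mu) * X j * eP (R j) mu) * eP (R j) lam = eP (R j) (-(mu + lam)) * X j * eP (R j) (mu + lam)
  rw [eP_add (hR j), neg_add, add_comm (-mu), eP_add (hR j)]
  simp only [Matrix.mul_assoc]

/-- the space of the symmetries all conjugates of which are symmetries -/
noncomputable def symW (b : Fin N → ℕ) (R : Fin N → Matrix (Fin n) (Fin n) ℤ) (Z : Fin N → Matrix (Fin n) (Fin n) ℚ⟦X⟧) :
    Submodule ℂ (Fin N → Matrix (Fin n) (Fin n) ℂ) where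
  carrier := {X | ∀ lam, cjg R lam X ∈ symS b Z}
  zero_mem' := by
    intro lam
    rw [cjg_zero]
    exact (symS b Z).zero_mem
  add_mem' := by
    intro X Y hX hY lam
    rw [cjg_add]
    exact (symS b Z).add_mem (hX lam) (hY lam)
  smul_mem' := by
    intro c X hX lam
    rw [cjg_smul]
    exact (symS b Z).smul_mem c (hX lam)

lemma symW_cjg {b : Fin N → ℕ} {R : Fin N → Matrix (Fin n) (Fin n) ℤ} (hR : ∀ j, R j ^ n = 0)
    {Z : Fin N → Matrix (Fin n) (Fin n) ℚ⟦X⟧} {X : Fin N → Matrix (Fin n) (Fin n) ℂ} (hX : X ∈ symW b R Z) (mu : ℂ) :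
    cjg R mu X ∈ symW b R Z := by
  intro lam
  rw [cjg_cjg hR]
  exact hX _

/-- the polynomials for the entries of the conjugates -/
noncomputable def cjP (R : Matrix (Fin n) (Fin n) ℤ) (X : Matrix (Fin n) (Fin n) ℂ) (a c : Fin n) : Polynomial ℂ :=
  ∑ e, (∑ d, ((EP R a d).map (algebraMap ℚ ℂ)).comp (-Polynomial.X) * Polynomial.C (X d e)) * (EP R e c).map (algebraMap ℚ ℂ)

lemma cjP_eval (R : Matrix (Fin n) (Fin n) ℤ) (X : Matrix (Fin n) (Fin n) ℂ) (a c : Fin n) (lam : ℂ) :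
    (cjP R X a c).eval lam = (eP R (-lam) * X * eP R lam) a c := by
  unfold cjP
  rw [Matrix.mul_apply, Polynomial.eval_finsetSum]
  refine Finset.sum_congr rfl fun e _ => ?_
  rw [Polynomial.eval_mul, Polynomial.eval_finsetSum, Matrix.mul_apply]
  congr 1
  · refine Finset.sum_congr rfl fun d _ => ?_
    rw [Polynomial.eval_mul, Polynomial.eval_comp, Polynomial.eval_C, Polynomial.eval_neg, Polynomial.eval_X, Polynomial.eval_map]
    rfl
  · rw [Polynomial.eval_map]
    rfl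

/-- the entries of `exp` are rational at rational numbers -/
lemma eP_ratq (R : Matrix (Fin n) (Fin n) ℤ) (r : ℚ) (a c : Fin n) : eP R (r : ℂ) a c = ((eP R r a c : ℚ) : ℂ) := by
  have h1 := eP_map (algebraMap ℚ ℂ) R r a c
  have h2 : (algebraMap ℚ ℂ) r = (r : ℂ) := rfl
  rw [h2] at h1
  exact h1.symm

/-- the coordinates of the conjugates -/
lemma cjg_coord (R : Fin N → Matrix (Fin n) (Fin n) ℤ) (r : ℚ) (X : Fin N → Matrix (Fin n) (Fin n) ℂ)
    (i : Basis.ofVectorSpaceIndex ℚ ℂ) (j : Fin N) (a c : Fin n) :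
    cjg R (r : ℂ) (fun j => Matrix.of fun a c => (hc i (X j a c) : ℂ)) j a c = (hc i (cjg R (r : ℂ) X j a c) : ℂ) := by
  have h1 : ∀ Y : Matrix (Fin n) (Fin n) ℂ, (eP (R j) (-(r : ℂ)) * Y * eP (R j) (r : ℂ)) a c =
      ∑ e, ∑ d, ((eP (R j) (-r) a d * eP (R j) r e c : ℚ) : ℂ) * Y d e := by
    intro Y
    rw [Matrix.mul_apply]
    refine Finset.sum_congr rfl fun e _ => ?_
    rw [Matrix.mul_apply, Finset.sum_mul]
    refine Finset.sum_congr rfl fun d _ => ?_
    have h2 : (-(r : ℂ)) = ((-r : ℚ) : ℂ) := by push_cast; rfl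
    rw [h2, eP_ratq, eP_ratq]
    push_cast
    ring
  show (eP (R j) (-(r : ℂ)) * (Matrix.of fun a c => (hc i (X j a c) : ℂ)) * eP (R j) (r : ℂ)) a c =
    (hc i ((eP (R j) (-(r : ℂ)) * X j * eP (R j) (r : ℂ)) a c) : ℂ)
  rw [h1, h1, map_sum, Rat.cast_sum]
  refine Finset.sum_congr rfl fun e _ => ?_
  rw [map_sum, Rat.cast_sum]
  refine Finset.sum_congr rfl fun d _ => ?_
  have h3 : ∀ (q : ℚ) (x : ℂ), hc i ((q : ℂ) * x) = q * hc i x := by
    intro q x
    rw [← Rat.smul_def, map_smul, smul_eq_mul]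
  rw [h3, Matrix.of_apply]
  push_cast
  ring

/-- **the space is spanned by rational matrices** -/
theorem symW_rat (b : Fin N → ℕ) (R : Fin N → Matrix (Fin n) (Fin n) ℤ) (Z : Fin N → Matrix (Fin n) (Fin n) ℚ⟦X⟧) :
    symW b R Z ≤ Submodule.span ℂ (ratP (symW b R Z)) := by
  classical
  intro X hX
  let S : Finset (Basis.ofVectorSpaceIndex ℚ ℂ) := (Finset.univ : Finset (Fin N × Fin n × Fin n)).biUnion fun σ =>
    (hb.repr (X σ.1 σ.2.1 σ.2.2)).support
  let X' : Basis.ofVectorSpaceIndex ℚ ℂ → Fin N → Matrix (Fin n) (Fin n) ℂ := fun i j => Matrix.of fun a c => (hc i (X j a c) : ℂ)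
  have h1 : X = ∑ i ∈ S, hb i • X' i := by
    funext j
    refine Matrix.ext fun a c => ?_
    rw [Finset.sum_apply, Matrix.sum_apply]
    have h2 : ∀ i, (hb i • X' i) j a c = (hc i (X j a c) : ℂ) * hb i := by
      intro i
      show hb i * (hc i (X j a c) : ℂ) = _
      rw [mul_comm]
    rw [Finset.sum_congr rfl fun i _ => h2 i, hb_sum]
    intro i hi
    exact Finset.mem_biUnion.2 ⟨(j, a, c), Finset.mem_univ _, hi⟩
  rw [h1]
  refine Submodule.sum_mem _ fun i _ => Submodule.smul_mem _ _ (Submodule.subset_span ⟨?_, fun j a c => ⟨_, rfl⟩⟩)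
  intro lam β
  refine InfT_iff.2 fun P hP k => ?_
  -- the equation as a polynomial in `lam`
  set Q : Polynomial ℂ := ∑ σ : Fin N × Fin n × Fin n, ∑ l, Polynomial.C (((coeff k (MvPolynomial.aeval
      (fun σ => part b Z β σ.1 σ.2.1 σ.2.2) (MvPolynomial.pderiv σ P) * part b Z β σ.1 l σ.2.2) : ℚ)) : ℂ) *
        (if b σ.1 = β then cjP (R σ.1) (X' i σ.1) σ.2.1 l else 0) with hQ
  have hQe : ∀ lam : ℂ, Q.eval lam = ∑ σ : Fin N × Fin n × Fin n, ∑ l, (coeff k (MvPolynomial.aeval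
      (fun σ => part b Z β σ.1 σ.2.1 σ.2.2) (MvPolynomial.pderiv σ P) * part b Z β σ.1 l σ.2.2) : ℚ) •
        (fun j => if b j = β then cjg R lam (X' i) j else 0 : Fin N → Matrix (Fin n) (Fin n) ℂ) σ.1 σ.2.1 l := by
    intro lam
    rw [hQ, Polynomial.eval_finsetSum]
    refine Finset.sum_congr rfl fun σ _ => ?_
    rw [Polynomial.eval_finsetSum]
    refine Finset.sum_congr rfl fun l _ => ?_
    rw [Polynomial.eval_mul, Polynomial.eval_C, Rat.smul_def]
    congr 1
    show Polynomial.eval lam (if b σ.1 = β then cjP (R σ.1) (X' i σ.1) σ.2.1 l else 0) =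
      (if b σ.1 = β then cjg R lam (X' i) σ.1 else 0) σ.2.1 l
    split_ifs
    · exact cjP_eval _ _ _ _ _
    · rw [Polynomial.eval_zero, Matrix.zero_apply]
  have hQ0 : Q = 0 := by
    refine Polynomial.eq_zero_of_infinite_isRoot Q ?_
    refine (Set.infinite_range_of_injective (f := fun r : ℚ => (r : ℂ)) Rat.cast_injective).mono ?_
    rintro _ ⟨r, rfl⟩
    show Q.eval (r : ℂ) = 0
    rw [hQe]
    have h3 := congrArg (hc i) (InfT_iff.1 (hX (r : ℂ) β) P hP k)
    rw [map_zero, map_sum] at h3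
    have h4 := congrArg (fun q : ℚ => (q : ℂ)) h3
    simp only [Rat.cast_zero] at h4
    rw [← h4, Rat.cast_sum]
    refine Finset.sum_congr rfl fun σ _ => ?_
    rw [map_sum, Rat.cast_sum]
    refine Finset.sum_congr rfl fun l _ => ?_
    rw [map_smul, smul_eq_mul, Rat.cast_mul, Rat.smul_def]
    congr 1
    show (if b σ.1 = β then cjg R (r : ℂ) (X' i) σ.1 else 0) σ.2.1 l = ((hc i ((if b σ.1 = β then cjg R (r : ℂ) X σ.1 else 0) σ.2.1 l) : ℚ) : ℂ)
    split_ifs
    · exact cjg_coord R r X i σ.1 σ.2.1 l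
    · rw [Matrix.zero_apply, map_zero, Rat.cast_zero]
  have h5 := hQe lam
  rw [hQ0, Polynomial.eval_zero] at h5
  exact h5.symm

/-! ## Algebraic numbers of bounded degree -/

lemma algD_rat {s e : ℕ} (he : 1 ≤ e) (bs : Fin s → ℂ) (r : ℚ) : AlgD e bs (r : ℂ) := by
  have hev : ∀ x : ℂ, MvPolynomial.aeval (fun o : Option (Fin s) => o.elim x bs) (MvPolynomial.X none - MvPolynomial.C r) = x - r := by
    intro x
    rw [map_sub, MvPolynomial.aeval_X, MvPolynomial.aeval_C]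
    rfl
  refine ⟨MvPolynomial.X none - MvPolynomial.C r, ?_, ?_, r + 1, ?_⟩
  · refine (MvPolynomial.totalDegree_sub _ _).trans ?_
    rw [MvPolynomial.totalDegree_X, MvPolynomial.totalDegree_C]
    exact max_le he (Nat.zero_le _)
  · rw [hev, sub_self]
  · rw [hev]
    ring_nf
    exact one_ne_zero

theorem symW_alg {b : Fin N → ℕ} {R : Fin N → Matrix (Fin n) (Fin n) ℤ} {Z : Fin N → Matrix (Fin n) (Fin n) ℚ⟦X⟧} {s e : ℕ}
    (he : 1 ≤ e) (bs : Fin s → ℂ) : symW b R Z ≤ Submodule.span ℂ (algP e bs (symW b R Z)) := by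
  refine (symW_rat b R Z).trans (Submodule.span_mono ?_)
  rintro X ⟨hX, hX'⟩
  refine ⟨hX, fun j a c => ?_⟩
  obtain ⟨r, hr⟩ := hX' j a c
  rw [hr]
  exact algD_rat he bs r

/-- one more number -/
lemma AlgD.cons {s e : ℕ} {bs : Fin s → ℂ} {y : ℂ} (h : AlgD e bs y) (c : ℂ) : AlgD e (Fin.cons c bs : Fin (s + 1) → ℂ) y := by
  obtain ⟨P, h1, h2, y', h3⟩ := h
  have hev : ∀ x : ℂ, MvPolynomial.aeval (fun o : Option (Fin (s + 1)) => o.elim x (Fin.cons c bs : Fin (s + 1) → ℂ))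
      (MvPolynomial.rename (Option.map Fin.succ) P) = MvPolynomial.aeval (fun o : Option (Fin s) => o.elim x bs) P := by
    intro x
    rw [MvPolynomial.aeval_rename]
    congr 2
    funext o
    rcases o with _ | i
    · rfl
    · show (Fin.cons c bs : Fin (s + 1) → ℂ) i.succ = bs i
      rw [Fin.cons_succ]
  refine ⟨MvPolynomial.rename (Option.map Fin.succ) P, (MvPolynomial.totalDegree_rename_le _ _).trans h1, ?_, y', ?_⟩
  · rw [hev]
    exact h2
  · rw [hev]
    exact h3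

/-- the entries of `exp` -/
lemma algD_eP {s e : ℕ} (he : 1 ≤ e) (hn : n ≤ e) (R : Matrix (Fin n) (Fin n) ℤ) (bs : Fin s → ℂ) (i : Fin s) (a c : Fin n) :
    AlgD e bs (eP R (bs i) a c) := by
  set P : MvPolynomial (Option (Fin s)) ℚ := ∑ k ∈ Finset.range n,
    MvPolynomial.C ((-1 : ℚ) ^ k * (k.factorial : ℚ)⁻¹ * ((R ^ k) a c : ℚ)) * MvPolynomial.X (some i) ^ k with hP
  have hPd : P.totalDegree ≤ e := by
    rw [hP]
    refine MvPolynomial.totalDegree_finsetSum_le fun k hk => ?_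
    rw [Finset.mem_range] at hk
    refine (MvPolynomial.totalDegree_mul _ _).trans ?_
    rw [MvPolynomial.totalDegree_C, zero_add]
    refine (MvPolynomial.totalDegree_pow _ _).trans ?_
    rw [MvPolynomial.totalDegree_X]
    omega
  have hev : ∀ x : ℂ, MvPolynomial.aeval (fun o : Option (Fin s) => o.elim x bs) (MvPolynomial.X none - P) = x - eP R (bs i) a c := by
    intro x
    rw [map_sub, MvPolynomial.aeval_X, hP, map_sum, eP_apply]
    congr 1
    refine Finset.sum_congr rfl fun k _ => ?_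
    rw [map_mul, map_pow, MvPolynomial.aeval_X, MvPolynomial.aeval_C]
    rfl
  refine ⟨MvPolynomial.X none - P, ?_, ?_, eP R (bs i) a c + 1, ?_⟩
  · refine (MvPolynomial.totalDegree_sub _ _).trans ?_
    rw [MvPolynomial.totalDegree_X]
    exact max_le he hPd
  · rw [hev, sub_self]
  · rw [hev]
    ring_nf
    exact one_ne_zero

end Pool.Agent.H885
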