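import Pool.Agent.H885.Lift
import Pool.Graph.R_seed8.Y120.H.GS1

/-!
# Systems with fundamental matrices of G-functions, uniformly in the complexity

`Sys q H T B Z W`: the matrices `Z j` solve `T Z' = Z B`, `W j` is the inverse of `Z j`; the degrees are at most `q` and all
sizes and denominators are bounded by powers of `H`.  At such a point of regularity Galochkin's condition is automatic.
-/

set_option autoImplicit false

open PowerSeries Finset.HasAntidiagonal

namespace Pool.Agent.H885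

open Pool.Agent.Y113
open Pool.Agent.Y120.GH (clear ps_ne itm itm_spec itm_L1 L1 gsys_opt)

/-! ### integrality of coefficients -/

/-- `d` is a common denominator of the coefficients of index at most `L` -/
def IU (d L : ℕ) (f : ℚ⟦X⟧) : Prop := ∀ l ≤ L, ∃ z : ℤ, (d : ℚ) * coeff l f = z

lemma IU.mul {d d' L : ℕ} {f g : ℚ⟦X⟧} (hf : IU d L f) (hg : IU d' L g) : IU (d * d') L (f * g) := by
  intro l hl
  rw [coeff_mul, Finset.mul_sum]
  have h1 : ∀ p ∈ antidiagonal l, ∃ z : ℤ, ((d * d' : ℕ) : ℚ) * (coeff p.1 f * coeff p.2 g) = z := by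
    intro p hp
    rw [Finset.HasAntidiagonal.mem_antidiagonal] at hp
    obtain ⟨a, ha⟩ := hf p.1 (by omega)
    obtain ⟨b, hb⟩ := hg p.2 (by omega)
    refine ⟨a * b, ?_⟩
    push_cast
    rw [← ha, ← hb]
    ring
  choose! z hz using h1
  refine ⟨∑ p ∈ antidiagonal l, z p, ?_⟩
  push_cast
  refine Finset.sum_congr rfl fun p hp => ?_
  have := hz p hp
  push_cast at this
  exact this

lemma IU.sum {σ : Type*} (s : Finset σ) {d L : ℕ} {f : σ → ℚ⟦X⟧} (h : ∀ i ∈ s, IU d L (f i)) : IU d L (∑ i ∈ s, f i) := by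
  intro l hl
  rw [map_sum, Finset.mul_sum]
  have h1 : ∀ i ∈ s, ∃ z : ℤ, (d : ℚ) * coeff l (f i) = z := fun i hi => h i hi l hl
  choose! z hz using h1
  refine ⟨∑ i ∈ s, z i, ?_⟩
  push_cast
  exact Finset.sum_congr rfl fun i hi => hz i hi

lemma IU.ps (P : Polynomial ℤ) (L : ℕ) : IU 1 L (ps P) := by
  intro l _
  refine ⟨P.coeff l, ?_⟩
  simp [Pool.Agent.Y113.ps, Polynomial.coeff_coe]

lemma IU.pow {f : ℚ⟦X⟧} {L : ℕ} (h : IU 1 L f) (k : ℕ) : IU 1 L (f ^ k) := by
  induction k with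
  | zero =>
    rw [pow_zero]
    have := IU.ps 1 L
    rwa [ps_one] at this
  | succ k ih =>
    rw [pow_succ]
    have := ih.mul h
    simpa using this

lemma IU.hd {d L s : ℕ} {f : ℚ⟦X⟧} (h : IU d (L + s) f) : IU d L (hd s f) := by
  intro l hl
  obtain ⟨z, hz⟩ := h (l + s) (by omega)
  refine ⟨((l + s).choose s : ℤ) * z, ?_⟩
  rw [coeff_hd]
  push_cast
  rw [← hz]
  ring

variable {n N : ℕ}

/-- fundamental matrices of G-functions with complexity `H` -/
structure Sys (q : ℕ) (H : ℝ) (T : Polynomial ℤ) (B : Fin N → Fin n → Fin n → Polynomial ℤ)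
    (Z W : Fin N → Matrix (Fin n) (Fin n) ℚ⟦X⟧) : Prop where
  one_le : 1 ≤ H
  degT : T.natDegree ≤ q
  sizeT : ∀ l, |((T.coeff l : ℤ) : ℝ)| ≤ H
  degB : ∀ j a b, (B j a b).natDegree ≤ q
  sizeB : ∀ j a b l, |(((B j a b).coeff l : ℤ) : ℝ)| ≤ H
  ode : ∀ j a b, ps T * d⁄dX ℚ (Z j a b) = ∑ l, Z j a l * ps (B j l b)
  inv : ∀ j, W j * Z j = 1
  size : ∀ j a b m, |((coeff m (Z j a b) : ℚ) : ℝ)| ≤ H ^ (m + 1)
  den : ∀ m, ∃ d : ℕ, 0 < d ∧ (d : ℝ) ≤ H ^ (m + 1) ∧ ∀ j a b, IU d m (Z j a b) ∧ IU d m (W j a b)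

section
variable {q : ℕ} {H : ℝ} {T : Polynomial ℤ} {B : Fin N → Fin n → Fin n → Polynomial ℤ}
    {Z W : Fin N → Matrix (Fin n) (Fin n) ℚ⟦X⟧}

/-- the iterated matrices -/
noncomputable def Bi (T : Polynomial ℤ) (B : Fin N → Fin n → Fin n → Polynomial ℤ) (j : Fin N) (s : ℕ) :
    Fin n → Fin n → Polynomial ℤ := itm T (fun b c => B j c b) s

lemma Sys.row (h : Sys q H T B Z W) (j : Fin N) (a : Fin n) (s : ℕ) (b : Fin n) :
    (s.factorial : ℚ⟦X⟧) * (ps T ^ s * hd s (Z j a b)) = ∑ c, ps (Bi T B j s b c) * Z j a c :=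
  itm_spec (y := fun b => Z j a b) (fun b => by
    rw [h.ode]
    exact Finset.sum_congr rfl fun c _ => mul_comm _ _) s b

lemma Sys.itm_eq (h : Sys q H T B Z W) (j : Fin N) (s : ℕ) (b e : Fin n) :
    ps (Bi T B j s b e) = (s.factorial : ℚ⟦X⟧) * (ps T ^ s * ∑ a, W j e a * hd s (Z j a b)) := by
  have h1 : ∑ a, W j e a * ((s.factorial : ℚ⟦X⟧) * (ps T ^ s * hd s (Z j a b))) =
      ∑ a, W j e a * ∑ c, ps (Bi T B j s b c) * Z j a c :=
    Finset.sum_congr rfl fun a _ => by rw [h.row]
  have h2 : ∑ a, W j e a * ∑ c, ps (Bi T B j s b c) * Z j a c = ∑ c, ps (Bi T B j s b c) * (W j * Z j) e c := by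
    simp only [Finset.mul_sum, Matrix.mul_apply]
    rw [Finset.sum_comm]
    exact Finset.sum_congr rfl fun c _ => Finset.sum_congr rfl fun a _ => by ring
  rw [h2, h.inv] at h1
  have h3 : ∑ c, ps (Bi T B j s b c) * (1 : Matrix (Fin n) (Fin n) ℚ⟦X⟧) e c = ps (Bi T B j s b e) := by
    rw [Finset.sum_eq_single e]
    · simp
    · intro c _ hc
      rw [Matrix.one_apply_ne (Ne.symm hc), mul_zero]
    · intro h
      exact absurd (Finset.mem_univ _) h
  rw [h3] at h1
  rw [← h1, Finset.mul_sum, Finset.mul_sum]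
  exact Finset.sum_congr rfl fun a _ => by ring

/-- Galochkin's condition -/
lemma Sys.gal (h : Sys q H T B Z W) (m : ℕ) : ∃ d : ℕ, 0 < d ∧ (d : ℝ) ≤ (H ^ (2 * q + 2)) ^ (m + 1) ∧
    ∀ s ≤ m, ∀ j b e, ∃ P : Polynomial ℤ, (d : Polynomial ℤ) * Bi T B j s b e = (s.factorial : Polynomial ℤ) * P := by
  obtain ⟨d₁, h1, h2, h3⟩ := h.den (q * m)
  obtain ⟨d₂, h4, h5, h6⟩ := h.den (q * m + m)
  have hH := h.one_le
  refine ⟨d₁ * d₂, Nat.mul_pos h1 h4, ?_, fun s hs j b e => ?_⟩
  · push_cast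
    calc (d₁ : ℝ) * d₂ ≤ H ^ (q * m + 1) * H ^ (q * m + m + 1) := mul_le_mul h2 h5 (by positivity) (by positivity)
      _ = H ^ (q * m + 1 + (q * m + m + 1)) := (pow_add _ _ _).symm
      _ ≤ H ^ ((2 * q + 2) * (m + 1)) := pow_le_pow_right₀ hH (by ring_nf; omega)
      _ = _ := pow_mul _ _ _
  · -- the coefficients
    have hint : IU (d₁ * d₂) (q * s) (ps T ^ s * ∑ a, W j e a * hd s (Z j a b)) := by
      have e1 : IU (d₁ * d₂) (q * s) (∑ a, W j e a * hd s (Z j a b)) := by
        refine IU.sum _ fun a _ => IU.mul ?_ (IU.hd ?_)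
        · intro l hl
          exact (h3 j e a).2 l (hl.trans (Nat.mul_le_mul_left _ hs))
        · intro l hl
          exact (h6 j a b).1 l (hl.trans (Nat.add_le_add (Nat.mul_le_mul_left _ hs) hs))
      have e2 := ((IU.ps T (q * s)).pow s).mul e1
      simpa using e2
    choose! z hz using hint
    have hdeg : (Bi T B j s b e).natDegree ≤ q * s := by
      have hL : ∀ P : Polynomial ℤ, P.natDegree ≤ q → (∀ l, |((P.coeff l : ℤ) : ℝ)| ≤ H) → L1 q ((q + 1) * H) P :=
        fun P hP hP' => Pool.Agent.Y120.GH.L1.ofBd ⟨hP, hP'⟩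
      refine (itm_L1 (a := (q + 1) * H) ?_ (hL T h.degT h.sizeT) (fun b c => hL _ (h.degB j c b) (h.sizeB j c b)) s b e).1
      have : (0 : ℝ) ≤ q := by positivity
      nlinarith
    refine ⟨∑ l ∈ Finset.range (q * s + 1), Polynomial.C (z l) * Polynomial.X ^ l, ?_⟩
    refine Polynomial.ext fun l => ?_
    have e1 : ((d₁ * d₂ : ℕ) : Polynomial ℤ) = Polynomial.C (((d₁ * d₂ : ℕ) : ℤ)) := by simp
    have e2 : (s.factorial : Polynomial ℤ) = Polynomial.C (s.factorial : ℤ) := by simp
    rw [e1, e2, Polynomial.coeff_C_mul, Polynomial.coeff_C_mul, Polynomial.finsetSum_coeff]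
    rcases Nat.lt_or_ge l (q * s + 1) with hl | hl
    · rw [Finset.sum_eq_single l]
      · rw [Polynomial.coeff_C_mul, Polynomial.coeff_X_pow_self, mul_one]
        have e3 := congrArg (coeff l) (h.itm_eq j s b e)
        have e4 : (s.factorial : ℚ⟦X⟧) = C (s.factorial : ℚ) := by simp
        rw [e4, coeff_C_mul] at e3
        have e5 : coeff l (ps (Bi T B j s b e)) = (((Bi T B j s b e).coeff l : ℤ) : ℚ) := by
          simp [ps, Polynomial.coeff_coe]
        rw [e5] at e3
        have e6 := hz l (by omega)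
        have e7 : ((((d₁ * d₂ : ℕ) : ℤ) * (Bi T B j s b e).coeff l : ℤ) : ℚ) = ((s.factorial : ℤ) * z l : ℤ) := by
          push_cast
          rw [e3, ← e6]
          push_cast
          ring
        exact_mod_cast e7
      · intro k _ hk
        rw [Polynomial.coeff_C_mul, Polynomial.coeff_X_pow, if_neg (Ne.symm hk), mul_zero]
      · intro hk
        exact absurd (Finset.mem_range.2 hl) hk
    · rw [Polynomial.coeff_eq_zero_of_natDegree_lt (by omega), mul_zero, Finset.sum_eq_zero, mul_zero]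
      intro k hk
      rw [Finset.mem_range] at hk
      rw [Polynomial.coeff_C_mul, Polynomial.coeff_X_pow, if_neg (by omega), mul_zero]

/-- the entries form a G-system -/
theorem Sys.gsys (h : Sys q H T B Z W) :
    GSys q (((2 * q + n + 1) * (q + 1)) * H ^ (2 * q + 4)) T (fun σ : Fin N × Fin n × Fin n => Z σ.1 σ.2.1 σ.2.2) := by
  classical
  have hH := h.one_le
  have hH0 : 0 < H := by linarith
  set a : ℝ := (q + 1) * H with ha
  have ha1 : 1 ≤ a := by
    have : (0 : ℝ) ≤ q := by positivity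
    rw [ha]
    nlinarith
  set K : ℝ := (2 * q + n + 1) * a with hK
  have hK1 : 1 ≤ K := by
    have h1 : (1 : ℝ) ≤ 2 * q + n + 1 := by
      have a1 : (0 : ℝ) ≤ q := by positivity
      have a2 : (0 : ℝ) ≤ n := by positivity
      linarith
    calc (1 : ℝ) = 1 * 1 := by ring
      _ ≤ _ := mul_le_mul h1 ha1 (by norm_num) (by linarith)
  set Q : ℝ := H ^ (2 * q + 2) with hQ
  have hQ1 : 1 ≤ Q := one_le_pow₀ hH
  have hHQ : H ≤ Q := by
    calc H = H ^ 1 := (pow_one _).symm
      _ ≤ _ := pow_le_pow_right₀ hH (by omega)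
  have hC : Q * K ≤ ((2 * q + n + 1) * (q + 1)) * H ^ (2 * q + 4) := by
    have h1 : Q * K = ((2 * q + n + 1) * (q + 1)) * H ^ (2 * q + 3) := by
      rw [hQ, hK, ha]
      ring
    rw [h1]
    exact mul_le_mul_of_nonneg_left (pow_le_pow_right₀ hH (by omega)) (by positivity)
  have hQK0 : 0 ≤ Q * K := by positivity
  have hHQK : H ≤ Q * K := hHQ.trans (le_mul_of_one_le_right (by linarith) hK1)
  have haT : L1 q a T := Pool.Agent.Y120.GH.L1.ofBd ⟨h.degT, h.sizeT⟩
  have haB : ∀ (j : Fin N) (b c : Fin n), L1 q a (B j c b) := fun j b c =>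
    Pool.Agent.Y120.GH.L1.ofBd ⟨h.degB j c b, h.sizeB j c b⟩
  refine GSys.mono (C := Q * K) ?_ le_rfl hC
  refine ⟨one_le_mul_of_one_le_of_one_le hQ1 hK1, h.degT, fun l => (h.sizeT l).trans hHQK,
    fun i m => (h.size _ _ _ m).trans (pow_le_pow_left₀ hH0.le hHQK _), fun m => ?_, fun k => ?_⟩
  · obtain ⟨d, hd0, hd, hd'⟩ := h.den m
    exact ⟨d, hd0, hd.trans (pow_le_pow_left₀ hH0.le hHQK _), fun i j hj => (hd' _ _ _).1 j hj⟩
  · obtain ⟨d, hd0, hdC, hd'⟩ := h.gal k
    refine ⟨d, hd0, hdC.trans (pow_le_pow_left₀ (by linarith) (le_mul_of_one_le_right (by linarith) hK1) _), fun s hs => ?_⟩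
    choose P hP using hd' s hs
    have hcoef : ∀ j b c l, (d : ℤ) * (Bi T B j s b c).coeff l = (s.factorial : ℤ) * (P j b c).coeff l := by
      intro j b c l
      have h1 := congrArg (fun P => Polynomial.coeff P l) (hP j b c)
      have e1 : (d : Polynomial ℤ) = Polynomial.C (d : ℤ) := by simp
      have e2 : (s.factorial : Polynomial ℤ) = Polynomial.C (s.factorial : ℤ) := by simp
      rw [e1, e2] at h1
      simpa only [Polynomial.coeff_C_mul] using h1
    have hsf : ((s.factorial : ℕ) : ℤ) ≠ 0 := by exact_mod_cast Nat.factorial_ne_zero s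
    have hsR : (0 : ℝ) < (s.factorial : ℝ) := by exact_mod_cast Nat.factorial_pos s
    have hL1 : ∀ j b c, L1 (q * s) (K ^ s * s.factorial) (Bi T B j s b c) := by
      intro j b c
      have h1 := itm_L1 ha1 haT (fun b c => haB j b c) s b c
      rw [Fintype.card_fin] at h1
      exact h1
    have hPdeg : ∀ j b c, (P j b c).natDegree ≤ q * s := by
      intro j b c
      rw [Polynomial.natDegree_le_iff_coeff_eq_zero]
      intro l hl
      have h1 := hcoef j b c l
      rw [Polynomial.coeff_eq_zero_of_natDegree_lt (lt_of_le_of_lt (hL1 j b c).1 hl), mul_zero] at h1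
      exact (mul_eq_zero.1 h1.symm).resolve_left hsf
    have hPsize : ∀ j b c l, |(((P j b c).coeff l : ℤ) : ℝ)| ≤ (Q * K) ^ (k + 1) := by
      intro j b c l
      have h1 : (d : ℝ) * (((Bi T B j s b c).coeff l : ℤ) : ℝ) = (s.factorial : ℝ) * (((P j b c).coeff l : ℤ) : ℝ) := by
        exact_mod_cast hcoef j b c l
      have h2 := (hL1 j b c).coeff_le l
      have h3 : (s.factorial : ℝ) * |(((P j b c).coeff l : ℤ) : ℝ)| ≤ (s.factorial : ℝ) * (Q ^ (k + 1) * K ^ (k + 1)) := by
        have e1 : |(s.factorial : ℝ) * (((P j b c).coeff l : ℤ) : ℝ)| = (s.factorial : ℝ) * |(((P j b c).coeff l : ℤ) : ℝ)| := by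
          rw [abs_mul, abs_of_pos hsR]
        rw [← e1, ← h1, abs_mul, abs_of_nonneg (by positivity)]
        calc (d : ℝ) * |(((Bi T B j s b c).coeff l : ℤ) : ℝ)| ≤ Q ^ (k + 1) * (K ^ s * s.factorial) :=
              mul_le_mul hdC h2 (abs_nonneg _) (by positivity)
          _ ≤ Q ^ (k + 1) * (K ^ (k + 1) * s.factorial) := by
              have : K ^ s ≤ K ^ (k + 1) := pow_le_pow_right₀ hK1 (by omega)
              gcongr
          _ = _ := by ring
      rw [mul_pow]
      exact le_of_mul_le_mul_left h3 hsR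
    refine ⟨fun σ τ => if σ.1 = τ.1 ∧ σ.2.1 = τ.2.1 then P σ.1 σ.2.2 τ.2.2 else 0, fun σ τ => ?_, fun σ τ l => ?_, fun σ => ?_⟩
    · beta_reduce
      split_ifs
      · exact hPdeg _ _ _
      · simp
    · beta_reduce
      split_ifs
      · exact hPsize _ _ _ l
      · simp only [Polynomial.coeff_zero, Int.cast_zero, abs_zero]
        positivity
    · obtain ⟨j, a', b⟩ := σ
      have hne : (s.factorial : ℚ⟦X⟧) ≠ 0 := by
        intro h0
        have h5 := congrArg (coeff 0) h0
        have h6 : (s.factorial : ℚ⟦X⟧) = PowerSeries.C (s.factorial : ℚ) := by simp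
        rw [h6, coeff_zero_C, map_zero] at h5
        exact Nat.factorial_ne_zero s (by exact_mod_cast h5)
      have hsum : ∑ τ : Fin N × Fin n × Fin n, ps (if (j, a', b).1 = τ.1 ∧ (j, a', b).2.1 = τ.2.1 then P j b τ.2.2 else 0) *
          Z τ.1 τ.2.1 τ.2.2 = ∑ c, ps (P j b c) * Z j a' c := by
        rw [Fintype.sum_prod_type, Finset.sum_eq_single j]
        · rw [Fintype.sum_prod_type, Finset.sum_eq_single a']
          · refine Finset.sum_congr rfl fun c _ => ?_
            simp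
          · intro c _ hc
            refine Finset.sum_eq_zero fun e _ => ?_
            have : ¬ (j = j ∧ a' = c) := fun h => hc h.2.symm
            show ps (if j = j ∧ a' = c then P j b e else 0) * Z j c e = 0
            rw [if_neg this, ps_zero, zero_mul]
          · intro h
            exact absurd (Finset.mem_univ _) h
        · intro j' _ hj'
          refine Finset.sum_eq_zero fun e _ => ?_
          have : ¬ (j = j' ∧ a' = e.1) := fun h => hj' h.1.symm
          show ps (if j = j' ∧ a' = e.1 then P j b e.2 else 0) * Z j' e.1 e.2 = 0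
          rw [if_neg this, ps_zero, zero_mul]
        · intro h
          exact absurd (Finset.mem_univ _) h
      refine mul_left_cancel₀ hne ?_
      refine Eq.trans ?_ (congrArg (fun x => (s.factorial : ℚ⟦X⟧) * x) hsum.symm)
      show (s.factorial : ℚ⟦X⟧) * ((d : ℚ⟦X⟧) * (ps T ^ s * hd s (Z j a' b))) =
        (s.factorial : ℚ⟦X⟧) * ∑ c, ps (P j b c) * Z j a' c
      calc (s.factorial : ℚ⟦X⟧) * ((d : ℚ⟦X⟧) * (ps T ^ s * hd s (Z j a' b))) =
            (d : ℚ⟦X⟧) * ((s.factorial : ℚ⟦X⟧) * (ps T ^ s * hd s (Z j a' b))) := by ring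
        _ = (s.factorial : ℚ⟦X⟧) * ∑ c, ps (P j b c) * Z j a' c := by
            rw [h.row, Finset.mul_sum, Finset.mul_sum]
            refine Finset.sum_congr rfl fun c _ => ?_
            have h2 := congrArg ps (hP j b c)
            have e1 : ps (d : Polynomial ℤ) = (d : ℚ⟦X⟧) := by
              have : (d : Polynomial ℤ) = Polynomial.C (d : ℤ) := by simp
              rw [this, ps_C]
              push_cast
              rfl
            have e2 : ps (s.factorial : Polynomial ℤ) = (s.factorial : ℚ⟦X⟧) := by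
              have : (s.factorial : Polynomial ℤ) = Polynomial.C (s.factorial : ℤ) := by simp
              rw [this, ps_C]
              push_cast
              rfl
            rw [ps_mul, ps_mul, e1, e2] at h2
            linear_combination Z j a' c * h2

end

end Pool.Agent.H885
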