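import Pool.Graph.R_pool_sql_team_seeded_620a6dc7.Helper880_R3.Ult

/-!
# Sequences of Lie algebras of matrices in the ultrapower
-/

set_option autoImplicit false
set_option linter.unusedSectionVars false
set_option linter.unusedVariables false

open Matrix Module Filter

namespace Pool.Agent.H885

open Pool.Agent.Helper880_R3 (IsLie Cod CF gm_lin li_iff span_iff lie_span lie_span2)
open Pool.Agent.Helper880_LF.NB (gm gm_mul gm_add gm_sub gm_smul gm_zero gm_ev gm_eq gm_surj gm_neg)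
open Pool.Agent.Y118.UL (mk mk_eq mk_eq_zero mk_ne_zero mk_surj ev_ge U)

variable {n : ℕ}

/-- the ultraproduct of spaces of matrices -/
def GUs (𝔤 : ℕ → Submodule ℂ (Matrix (Fin n) (Fin n) ℂ)) : Submodule (U ℂ) (Matrix (Fin n) (Fin n) (U ℂ)) where
  carrier := {Y | ∃ F : ℕ → Matrix (Fin n) (Fin n) ℂ, gm F = Y ∧ ∀ k, F k ∈ 𝔤 k}
  zero_mem' := ⟨fun _ => 0, gm_zero, fun k => (𝔤 k).zero_mem⟩
  add_mem' := by
    rintro _ _ ⟨F, rfl, hF⟩ ⟨G, rfl, hG⟩
    exact ⟨fun t => F t + G t, gm_add F G, fun k => (𝔤 k).add_mem (hF k) (hG k)⟩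
  smul_mem' := by
    rintro z _ ⟨F, rfl, hF⟩
    obtain ⟨c, rfl⟩ := mk_surj z
    exact ⟨fun t => c t • F t, gm_smul c F, fun k => (𝔤 k).smul_mem _ (hF k)⟩

variable {𝔤 : ℕ → Submodule ℂ (Matrix (Fin n) (Fin n) ℂ)}

theorem mem_GUs {F : ℕ → Matrix (Fin n) (Fin n) ℂ} :
    gm F ∈ GUs 𝔤 ↔ ∀ᶠ k in (hyperfilter ℕ : Filter ℕ), F k ∈ 𝔤 k := by
  classical
  constructor
  · rintro ⟨G, hG, hGL⟩
    filter_upwards [gm_ev.1 hG] with k hk
    rw [← hk]
    exact hGL k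
  · intro h
    refine ⟨fun k => if F k ∈ 𝔤 k then F k else 0, gm_ev.2 ?_, fun k => ?_⟩
    · filter_upwards [h] with k hk
      rw [if_pos hk]
    · by_cases hk : F k ∈ 𝔤 k
      · simp only [if_pos hk]
        exact hk
      · simp only [if_neg hk]
        exact (𝔤 k).zero_mem

/-- the dimension is constant on a large set -/
theorem ex_dim (𝔤 : ℕ → Submodule ℂ (Matrix (Fin n) (Fin n) ℂ)) :
    ∃ m : ℕ, ∀ᶠ k in (hyperfilter ℕ : Filter ℕ), finrank ℂ (𝔤 k) = m := by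
  by_contra hcon
  push Not at hcon
  have h1 : ∀ m : ℕ, ∀ᶠ k in (hyperfilter ℕ : Filter ℕ), finrank ℂ (𝔤 k) ≠ m := fun m => by
    have h2 := hcon m
    exact h2
  have h2 : ∀ᶠ k in (hyperfilter ℕ : Filter ℕ), ∀ m : Fin (finrank ℂ (Matrix (Fin n) (Fin n) ℂ) + 1), finrank ℂ (𝔤 k) ≠ m :=
    Filter.eventually_all.2 fun m => h1 m
  obtain ⟨k, hk⟩ := h2.exists
  exact hk ⟨finrank ℂ (𝔤 k), Nat.lt_succ_of_le (Submodule.finrank_le _)⟩ rfl

theorem sub_bas {V : Type} [AddCommGroup V] [Module ℂ V] [FiniteDimensional ℂ V] (p : Submodule ℂ V) {m : ℕ}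
    (hp : finrank ℂ p = m) : ∃ v : Fin m → V, LinearIndependent ℂ v ∧ Submodule.span ℂ (Set.range v) = p := by
  subst hp
  let b : Basis (Fin (finrank ℂ p)) ℂ p := finBasis ℂ p
  refine ⟨fun i => (b i : V), b.linearIndependent.map' p.subtype (Submodule.ker_subtype p), ?_⟩
  have h1 := b.span_eq
  have h2 := congrArg (Submodule.map p.subtype) h1
  rw [Submodule.map_span, Submodule.map_top, Submodule.range_subtype, ← Set.range_comp] at h2
  exact h2

/-- bases -/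
theorem ex_bas (𝔤 : ℕ → Submodule ℂ (Matrix (Fin n) (Fin n) ℂ)) :
    ∃ (m : ℕ) (F : Fin m → ℕ → Matrix (Fin n) (Fin n) ℂ), ∀ᶠ k in (hyperfilter ℕ : Filter ℕ),
      finrank ℂ (𝔤 k) = m ∧ LinearIndependent ℂ (fun i => F i k) ∧ Submodule.span ℂ (Set.range fun i => F i k) = 𝔤 k := by
  classical
  obtain ⟨m, hm⟩ := ex_dim 𝔤
  have h1 : ∀ k, ∃ v : Fin m → Matrix (Fin n) (Fin n) ℂ, finrank ℂ (𝔤 k) = m →
      LinearIndependent ℂ v ∧ Submodule.span ℂ (Set.range v) = 𝔤 k := by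
    intro k
    by_cases hk : finrank ℂ (𝔤 k) = m
    · obtain ⟨v, hv1, hv2⟩ := sub_bas (𝔤 k) hk
      exact ⟨v, fun _ => ⟨hv1, hv2⟩⟩
    · exact ⟨0, fun h => absurd h hk⟩
  choose v hv using h1
  refine ⟨m, fun i k => v k i, ?_⟩
  filter_upwards [hm] with k hk
  exact ⟨hk, hv k hk⟩

theorem GUs_span {m : ℕ} {F : Fin m → ℕ → Matrix (Fin n) (Fin n) ℂ}
    (h : ∀ᶠ k in (hyperfilter ℕ : Filter ℕ), Submodule.span ℂ (Set.range fun i => F i k) = 𝔤 k) :
    GUs 𝔤 = Submodule.span (U ℂ) (Set.range fun i => gm (F i)) := by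
  ext Y
  obtain ⟨G, rfl⟩ := gm_surj Y
  rw [mem_GUs, span_iff]
  constructor
  · intro h1
    filter_upwards [h, h1] with k hk1 hk2
    rw [hk1]
    exact hk2
  · intro h1
    filter_upwards [h, h1] with k hk1 hk2
    rw [← hk1]
    exact hk2

theorem finrank_GUs {m : ℕ} (hm : ∀ᶠ k in (hyperfilter ℕ : Filter ℕ), finrank ℂ (𝔤 k) = m) :
    finrank (U ℂ) (GUs 𝔤) = m := by
  obtain ⟨m', F, hF⟩ := ex_bas 𝔤
  have hmm : m' = m := by
    obtain ⟨k, hk1, hk2⟩ := (hF.and hm).exists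
    rw [← hk1.1, hk2]
  subst hmm
  rw [GUs_span (hF.mono fun k hk => hk.2.2)]
  have h1 : LinearIndependent (U ℂ) (fun i => gm (F i)) := li_iff.2 (hF.mono fun k hk => hk.2.1)
  rw [finrank_span_eq_card h1, Fintype.card_fin]

theorem GUs_lie (h : ∀ k, IsLie (𝔤 k)) : IsLie (GUs 𝔤) := by
  rintro _ ⟨F, rfl, hF⟩ _ ⟨G, rfl, hG⟩
  exact ⟨fun k => F k * G k - G k * F k, by rw [gm_sub, gm_mul, gm_mul], fun k => h k _ (hF k) _ (hG k)⟩

/-- **subalgebras of small codimension** -/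
theorem GUs_cod {r : ℕ} (hc : ∀ k, Cod r (𝔤 k)) : Cod r (GUs 𝔤) := by
  intro 𝔫 h𝔫 hL hd
  let b := finBasis (U ℂ) 𝔫
  choose F hF using fun i => gm_surj (b i : Matrix (Fin n) (Fin n) (U ℂ))
  have hspan : Submodule.span (U ℂ) (Set.range fun i => gm (F i)) = 𝔫 := by
    have h1 := b.span_eq
    have h2 := congrArg (Submodule.map 𝔫.subtype) h1
    rw [Submodule.map_span, Submodule.map_top, Submodule.range_subtype, ← Set.range_comp] at h2
    refine Eq.trans ?_ h2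
    congr 2
    funext i
    exact hF i
  have hli : LinearIndependent (U ℂ) (fun i => gm (F i)) := by
    have h1 : LinearIndependent (U ℂ) (fun i => (b i : Matrix (Fin n) (Fin n) (U ℂ))) :=
      b.linearIndependent.map' 𝔫.subtype (Submodule.ker_subtype 𝔫)
    have h2 : (fun i => gm (F i)) = fun i => (b i : Matrix (Fin n) (Fin n) (U ℂ)) := funext hF
    rw [h2]
    exact h1
  obtain ⟨m, hm⟩ := ex_dim 𝔤
  have e1 := li_iff.1 hli
  have e2 : ∀ᶠ k in (hyperfilter ℕ : Filter ℕ), ∀ i, F i k ∈ 𝔤 k := Filter.eventually_all.2 fun i =>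
    mem_GUs.1 (by rw [hF i]; exact h𝔫 (b i).2)
  have e3 : ∀ᶠ k in (hyperfilter ℕ : Filter ℕ), ∀ i j, F i k * F j k - F j k * F i k ∈
      Submodule.span ℂ (Set.range fun i => F i k) := by
    refine Filter.eventually_all.2 fun i => Filter.eventually_all.2 fun j => ?_
    rw [← span_iff, hspan, gm_sub, gm_mul, gm_mul, hF, hF]
    exact hL _ (b i).2 _ (b j).2
  obtain ⟨k, ⟨hk1, hk2, hk3⟩, hk4⟩ := ((e1.and (e2.and e3)).and hm).exists
  have h1 : finrank ℂ (Submodule.span ℂ (Set.range fun i => F i k)) = finrank (U ℂ) 𝔫 := by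
    rw [finrank_span_eq_card hk1, Fintype.card_fin]
  have h2 : Submodule.span ℂ (Set.range fun i => F i k) ≤ 𝔤 k := by
    rw [Submodule.span_le]
    rintro _ ⟨i, rfl⟩
    exact hk2 i
  rw [finrank_GUs hm, ← hk4] at hd
  have h3 := hc k _ h2 (lie_span hk3) (by rw [h1]; exact hd)
  have h4 := Submodule.finrank_mono h3
  rw [h1] at h4
  refine (Submodule.eq_of_le_of_finrank_le h𝔫 ?_).ge
  rw [finrank_GUs hm, ← hk4]
  exact h4

/-- **quotients with trivial centre** -/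
theorem GUs_cf (hc : ∀ k, CF (𝔤 k)) : CF (GUs 𝔤) := by
  intro I hI hid x hx hxy
  let b := finBasis (U ℂ) I
  choose F hF using fun i => gm_surj (b i : Matrix (Fin n) (Fin n) (U ℂ))
  have hspan : Submodule.span (U ℂ) (Set.range fun i => gm (F i)) = I := by
    have h1 := b.span_eq
    have h2 := congrArg (Submodule.map I.subtype) h1
    rw [Submodule.map_span, Submodule.map_top, Submodule.range_subtype, ← Set.range_comp] at h2
    refine Eq.trans ?_ h2
    congr 2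
    funext i
    exact hF i
  obtain ⟨ξ, rfl⟩ := gm_surj x
  obtain ⟨m, g, hg⟩ := ex_bas 𝔤
  have hgU : ∀ j, gm (g j) ∈ GUs 𝔤 := fun j => mem_GUs.2 (hg.mono fun k hk => by
    rw [← hk.2.2]
    exact Submodule.subset_span ⟨j, rfl⟩)
  have e2 : ∀ᶠ k in (hyperfilter ℕ : Filter ℕ), ∀ i, F i k ∈ 𝔤 k := Filter.eventually_all.2 fun i =>
    mem_GUs.1 (by rw [hF i]; exact hI (b i).2)
  have e3 : ∀ᶠ k in (hyperfilter ℕ : Filter ℕ), ∀ i j, g i k * F j k - F j k * g i k ∈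
      Submodule.span ℂ (Set.range fun i => F i k) := by
    refine Filter.eventually_all.2 fun i => Filter.eventually_all.2 fun j => ?_
    rw [← span_iff, hspan, gm_sub, gm_mul, gm_mul, hF]
    exact hid _ (hgU i) _ (b j).2
  have e4 : ∀ᶠ k in (hyperfilter ℕ : Filter ℕ), ∀ j, ξ k * g j k - g j k * ξ k ∈
      Submodule.span ℂ (Set.range fun i => F i k) := by
    refine Filter.eventually_all.2 fun j => ?_
    rw [← span_iff, hspan, gm_sub, gm_mul, gm_mul]
    exact hxy _ (hgU j)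
  rw [← hspan, span_iff]
  filter_upwards [e2, e3, e4, mem_GUs.1 hx, hg] with k hk2 hk3 hk4 hk5 hk6
  refine hc k _ ?_ ?_ (ξ k) hk5 ?_
  · rw [Submodule.span_le]
    rintro _ ⟨i, rfl⟩
    exact hk2 i
  · intro a ha c hc'
    rw [← hk6.2.2] at ha
    exact lie_span2 hk3 a ha c hc'
  · intro c hc'
    rw [← hk6.2.2] at hc'
    refine lie_span2 (v := fun _ : Fin 1 => ξ k) (w := fun j => g j k) (fun _ j => hk4 j) _
      (Submodule.subset_span ⟨0, rfl⟩) c hc'

end Pool.Agent.H885
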