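import Pool.Agent.H885.UnifQ
import Pool.Agent.H885.Ind

/-!
# Transcendence degrees for one of several tuples of points
-/

set_option autoImplicit false
set_option linter.unusedSectionVars false
set_option linter.unusedVariables false

open Matrix Module Filter PowerSeries

namespace Pool.Agent.H885

open Pool.Agent.Y113 (ev Cv GSys ps)
open Pool.Agent.Y118.HV (Hv hh)
open Pool.Agent.Y120.GH (cx cx_mem Cw sf ou_shift ou_ev)
open Pool.Agent.Helper880_R3 hiding core final
open Pool.Agent.Helper880_LF.NB hiding alg_core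
open Pool.Agent.Y118.UL (mk mk_eq mk_eq_zero mk_ne_zero mk_surj ev_ge eval_mk rep qc qc_mk algebraMap_eq U)
open Pool.Agent.TH119.DR Pool.Agent.TH119.MX Pool.Agent.TH127.PT Pool.Agent.Y123.ST Pool.Agent.Y123.GN

variable {n N L s ℓ : ℕ}

/-- the data for several tuples of points -/
structure DatD (L n N s ℓ : ℕ) where
  bs : Fin s → ℂ
  cs : Fin L → Fin ℓ → ℂ
  C : Fin L → Fin N → Matrix (Fin n) (Fin n) ℂ
  H : ℝ
  T : Fin L → Fin N → Polynomial ℤ
  B : Fin L → Fin N → Fin n → Fin n → Polynomial ℤ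
  Z : Fin L → Fin N → Matrix (Fin n) (Fin n) ℚ⟦X⟧
  W : Fin L → Fin N → Matrix (Fin n) (Fin n) ℚ⟦X⟧
  ρ : ℝ
  w : ℕ
  b₀ : ℕ
  b : Fin L → Fin N → ℕ
  𝔤 : Fin L → Submodule ℂ (Fin N → Matrix (Fin n) (Fin n) ℂ)

/-- the conditions -/
structure DatD.OK (q e d₀ E : ℕ) (d : DatD L n N s ℓ) : Prop where
  few : ∀ l a i j, AlgD e (Fin.append d.bs (d.cs l)) (d.C l a i j)
  one_le : 1 ≤ d.H
  sys : ∀ l j, Sys (N := 1) q d.H (d.T l j) (fun _ => d.B l j) (fun _ => d.Z l j) (fun _ => d.W l j)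
  T_ne : ∀ l j, d.T l j ≠ 0
  ρ_pos : 0 < d.ρ
  mem : ∀ l j a b, cx (d.Z l j a b) ∈ Cw d.ρ
  b_mem : ∀ l j, d.b₀ ≤ d.b l j ∧ d.b l j ≤ d.b₀ + d.w
  sep : ∀ l j l' j', ¬ (l = l' ∧ d.b l j = d.b l' j') → 2 * d.ρ < |(d.b l j : ℝ) - d.b l' j'|
  big : (2 * d.H * ((d.w : ℝ) + d.ρ + 2)) ^ E ≤ (d.b₀ : ℝ)
  inf : ∀ l, ∀ X ∈ d.𝔤 l, ∀ β, InfT (part (d.b l) (d.Z l) β) (fun j => if d.b l j = β then X j else 0)
  dim : ∀ l, d₀ ≤ finrank ℂ (d.𝔤 l)
  det : ∀ l j, IsUnit (d.C l j * Hv (d.Z l j) (d.b l j))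

/-- **One of several separated tuples has the right transcendence degree.** -/
theorem uniformD (n N q s ℓ e δ d₀ r L : ℕ) (hLr : s + L * ℓ < L * (r + 1)) : ∃ E : ℕ, ∀ d : DatD L n N s ℓ,
    d.OK q e d₀ E → ∃ l, ∃ σ : Fin (d₀ - r) → Fin N × Fin n × Fin n, Function.Injective σ ∧
      ∀ S : MvPolynomial (Fin (d₀ - r)) ℂ, S.totalDegree ≤ δ →
        (∀ ν, AlgD e (Fin.append d.bs (d.cs l)) (S.coeff ν)) →
        MvPolynomial.aeval (fun i => (d.C l (σ i).1 * Hv (d.Z l (σ i).1) (d.b l (σ i).1)) (σ i).2.1 (σ i).2.2) S = 0 →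
        S = 0 := by
  classical
  by_contra hcon
  simp only [not_exists] at hcon
  have h1 : ∀ k : ℕ, ∃ d : DatD L n N s ℓ, d.OK q e d₀ k ∧
      ∀ l, ∀ σ : Fin (d₀ - r) → Fin N × Fin n × Fin n, Function.Injective σ →
      ∃ S : MvPolynomial (Fin (d₀ - r)) ℂ, S.totalDegree ≤ δ ∧
        (∀ ν, AlgD e (Fin.append d.bs (d.cs l)) (S.coeff ν)) ∧
        MvPolynomial.aeval (fun i => (d.C l (σ i).1 * Hv (d.Z l (σ i).1) (d.b l (σ i).1)) (σ i).2.1 (σ i).2.2) S = 0 ∧
        S ≠ 0 := by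
    intro k
    have h2 := hcon k
    push Not at h2
    obtain ⟨d, hd1, hd2⟩ := h2
    refine ⟨d, hd1, fun l σ hσ => ?_⟩
    obtain ⟨S, h1, h2, h3, h4⟩ := hd2 l σ hσ
    exact ⟨S, h1, h2, h3, h4⟩
  choose d hd hbad using h1
  set z : ℕ → Fin L → Fin N → Matrix (Fin n) (Fin n) ℂ := fun k l j => Hv ((d k).Z l j) ((d k).b l j) with hz
  have hdet : ∀ k l j, ((d k).C l j).det ≠ 0 ∧ (z k l j).det ≠ 0 := by
    intro k l j
    have h1 := ((Matrix.isUnit_iff_isUnit_det _).1 ((hd k).det l j)).ne_zero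
    rw [Matrix.det_mul] at h1
    exact ⟨left_ne_zero_of_mul h1, right_ne_zero_of_mul h1⟩
  -- the derivations
  have hder : ∀ l, ∀ F : ℕ → Fin N → Matrix (Fin n) (Fin n) ℂ, (∀ k, F k ∈ (d k).𝔤 l) →
      ∃ δ : Derivation (U ℚ) (U ℂ) (U ℂ), (∀ j, dm δ (gm fun k => z k l j) = gm fun k => F k j * z k l j) ∧
      ∀ l', l' ≠ l → ∀ j, dm δ (gm fun k => z k l' j) = 0 := by
    intro l F hF𝔤
    set X : ℕ → Fin L → Fin N → Matrix (Fin n) (Fin n) ℂ := fun k l' => if l' = l then F k else 0 with hX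
    have hX𝔤 : ∀ k l', X k l' ∈ (d k).𝔤 l' := by
      intro k l'
      rw [hX]
      simp only
      split_ifs with h
      · subst h
        exact hF𝔤 k
      · exact ((d k).𝔤 l').zero_mem
    obtain ⟨δ, hδ⟩ := hder_gen (z := fun k (i : Fin (L * N)) => z k (fs i) (sn i)) (X := fun k i => X k (fs i) (sn i))
      (fun e' => by
        obtain ⟨E, hE⟩ := curveP L N n q e' 
        filter_upwards [ev_ge E] with k hk P hPd hP s
        have hH := (hd k).one_le
        have hw0 : (0 : ℝ) ≤ (d k).w := by positivity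
        have hρ := (hd k).ρ_pos
        refine hE (d k).H hH (d k).T (d k).B (d k).Z (d k).W (hd k).sys (hd k).T_ne (d k).ρ hρ (hd k).mem (d k).w (d k).b₀
          (d k).b (hd k).b_mem (hd k).sep ((pow_le_pow_right₀ (by nlinarith) hk).trans (hd k).big) (X k)
          (fun l' β => (hd k).inf l' (X k l') (hX𝔤 k l') β) P hPd hP s)
    have hfs : ∀ l' j, fs (finProdFinEquiv (l', j) : Fin (L * N)) = l' := fun l' j => by
      unfold fs
      rw [Equiv.symm_apply_apply]
    have hsn : ∀ l' j, sn (finProdFinEquiv (l', j) : Fin (L * N)) = j := fun l' j => by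
      unfold sn
      rw [Equiv.symm_apply_apply]
    have hδ' : ∀ l' j, dm δ (gm fun k => z k l' j) = gm fun k => X k l' j * z k l' j := by
      intro l' j
      have h3 := hδ (finProdFinEquiv (l', j))
      simp only [hfs, hsn] at h3
      exact h3
    refine ⟨δ, fun j => ?_, fun l' hl' j => ?_⟩
    · rw [hδ']
      congr 1
      funext k
      rw [hX]
      simp only [if_true]
    · rw [hδ']
      have h3 : (fun k => X k l' j * z k l' j) = fun _ => 0 := by
        funext k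
        rw [hX]
        simp only [if_neg hl', Pi.zero_apply, Matrix.zero_mul]
      rw [h3, gm_zero]
  -- the evaluations
  let yz : Fin L → Fin N × Fin n × Fin n → U ℂ := fun l σ => mk ℂ fun k => z k l σ.1 σ.2.1 σ.2.2
  let yp : (Fin s ⊕ Fin L × Fin ℓ) → U ℂ := Sum.elim (fun i => mk ℂ fun k => (d k).bs i) fun p => mk ℂ fun k => (d k).cs p.1 p.2
  have hdim : ∀ l, d₀ ≤ finrank (U ℂ) ((⨅ l' : {l' : Fin L // l' ≠ l}, LinearMap.ker
      (evD (k := U ℚ) (yz l'.1))).map (evD (k := U ℚ) (yz l))) := by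
    intro l
    choose v hv using fun k => exists_linearIndependent_of_le_finrank ((hd k).dim l)
    choose δ hδ1 hδ2 using fun i : Fin d₀ => hder l (fun k => (v k i : Fin N → Matrix (Fin n) (Fin n) ℂ)) fun k => (v k i).2
    have hmem : ∀ i, evD (k := U ℚ) (yz l) (δ i) ∈ (⨅ l' : {l' : Fin L // l' ≠ l}, LinearMap.ker
      (evD (k := U ℚ) (yz l'.1))).map (evD (k := U ℚ) (yz l)) := by
      intro i
      refine ⟨δ i, (Submodule.mem_iInf _).2 fun l' => ?_, rfl⟩
      rw [LinearMap.mem_ker]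
      funext σ
      exact congrFun (congrFun (hδ2 i l'.1 l'.2 σ.1) σ.2.1) σ.2.2
    have hev : ∀ i σ, evD (k := U ℚ) (yz l) (δ i) σ = mk ℂ fun k => ((v k i : Fin N → Matrix (Fin n) (Fin n) ℂ) σ.1 * z k l σ.1)
        σ.2.1 σ.2.2 := fun i σ => congrFun (congrFun (hδ1 i σ.1) σ.2.1) σ.2.2
    have hli : LinearIndependent (U ℂ) fun i => (⟨_, hmem i⟩ : ((⨅ l' : {l' : Fin L // l' ≠ l}, LinearMap.ker
      (evD (k := U ℚ) (yz l'.1))).map (evD (k := U ℚ) (yz l)) : Submodule (U ℂ) _)) := by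
      rw [Fintype.linearIndependent_iff]
      intro g hg i
      have hg' : ∀ σ : Fin N × Fin n × Fin n, ∑ i, g i * (mk ℂ fun k => ((v k i : Fin N → Matrix (Fin n) (Fin n) ℂ) σ.1 * z k l σ.1) σ.2.1 σ.2.2) = 0 := by
        intro σ
        have h1 := congrArg (fun x => (Subtype.val x : Fin N × Fin n × Fin n → U ℂ) σ) hg
        simp only [Submodule.coe_sum, Finset.sum_apply] at h1
        have h2 : ∀ i, (((g i • (⟨_, hmem i⟩ : ((⨅ l' : {l' : Fin L // l' ≠ l}, LinearMap.ker
            (evD (k := U ℚ) (yz l'.1))).map (evD (k := U ℚ) (yz l)) : Submodule (U ℂ) _)) : Submodule.map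
              (evD (k := U ℚ) (yz l)) _) : Fin N × Fin n × Fin n → U ℂ) σ) =
            g i * (mk ℂ fun k => ((v k i : Fin N → Matrix (Fin n) (Fin n) ℂ) σ.1 * z k l σ.1) σ.2.1 σ.2.2) := by
          intro i
          show g i * evD (k := U ℚ) (yz l) (δ i) σ = _
          rw [hev]
        rw [Finset.sum_congr rfl fun i _ => h2 i] at h1
        exact h1
      choose c hc using fun i => mk_surj (g i)
      have hk : ∀ᶠ k in (hyperfilter ℕ : Filter ℕ), ∀ σ : Fin N × Fin n × Fin n,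
          ∑ i, c i k * ((v k i : Fin N → Matrix (Fin n) (Fin n) ℂ) σ.1 * z k l σ.1) σ.2.1 σ.2.2 = 0 := by
        rw [Filter.eventually_all]
        intro σ
        have h1 := hg' σ
        have h2 : ∑ i, g i * (mk ℂ fun k => ((v k i : Fin N → Matrix (Fin n) (Fin n) ℂ) σ.1 * z k l σ.1) σ.2.1 σ.2.2) =
            mk ℂ fun k => ∑ i, c i k * ((v k i : Fin N → Matrix (Fin n) (Fin n) ℂ) σ.1 * z k l σ.1) σ.2.1 σ.2.2 := by
          have h3 : (fun k => ∑ i, c i k * ((v k i : Fin N → Matrix (Fin n) (Fin n) ℂ) σ.1 * z k l σ.1) σ.2.1 σ.2.2) =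
              ∑ i, c i * fun k => ((v k i : Fin N → Matrix (Fin n) (Fin n) ℂ) σ.1 * z k l σ.1) σ.2.1 σ.2.2 := by
            funext k
            rw [Finset.sum_apply]
            rfl
          rw [h3, map_sum]
          refine Finset.sum_congr rfl fun i _ => ?_
          rw [map_mul, hc]
        rw [h2] at h1
        exact mk_eq_zero.1 h1
      rw [← hc]
      refine mk_eq_zero.2 ?_
      filter_upwards [hk] with k hk
      have h1 : ∑ i, c i k • (v k i : Fin N → Matrix (Fin n) (Fin n) ℂ) = 0 := by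
        funext j
        have h2 : (∑ i, c i k • (v k i : Fin N → Matrix (Fin n) (Fin n) ℂ) j) * z k l j = 0 := by
          rw [Finset.sum_mul]
          refine Matrix.ext fun a b => ?_
          rw [Matrix.sum_apply]
          have h3 := hk (j, a, b)
          simp only at h3
          rw [Matrix.zero_apply, ← h3]
          refine Finset.sum_congr rfl fun i _ => ?_
          rw [Matrix.smul_mul, Matrix.smul_apply, smul_eq_mul]
        have h4 : IsUnit (z k l j).det := isUnit_iff_ne_zero.2 (hdet k l j).2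
        have h5 := congrArg (fun M => M * (z k l j)⁻¹) h2
        simp only [Matrix.mul_assoc, Matrix.mul_nonsing_inv _ h4, Matrix.mul_one, Matrix.zero_mul] at h5
        rw [Finset.sum_apply]
        exact h5
      have h6 : ∑ i, c i k • v k i = 0 := by
        apply Subtype.ext
        rw [Submodule.coe_sum]
        exact h1
      exact (Fintype.linearIndependent_iff.1 (hv k)) (fun i => c i k) h6 i
    have := hli.fintype_card_le_finrank
    rwa [Fintype.card_fin] at this
  obtain ⟨l, hl⟩ := pigeon hLr (fun l => evD (k := U ℚ) (yz l)) (evD (k := U ℚ) yp) (by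
    rw [Module.finrank_fintype_fun_eq_card, Fintype.card_sum, Fintype.card_prod, Fintype.card_fin, Fintype.card_fin,
      Fintype.card_fin]) hdim
  set 𝒦 := LinearMap.ker (evD (k := U ℚ) yp) with h𝒦
  have hap : ∀ δ ∈ 𝒦, ∀ i, δ (mk ℂ fun k => Fin.append (d k).bs ((d k).cs l) i) = 0 := by
    intro δ hδ i
    refine Fin.addCases (fun i => ?_) (fun i => ?_) i
    · have h3 : (fun k => Fin.append (d k).bs ((d k).cs l) (Fin.castAdd ℓ i)) = fun k => (d k).bs i := by
        funext k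
        rw [Fin.append_left]
      rw [h3]
      exact congrFun hδ (Sum.inl i)
    · have h3 : (fun k => Fin.append (d k).bs ((d k).cs l) (Fin.natAdd s i)) = fun k => (d k).cs l i := by
        funext k
        rw [Fin.append_right]
      rw [h3]
      exact congrFun hδ (Sum.inr (l, i))
  let y : Fin N × Fin n × Fin n → U ℂ := fun σ => mk ℂ fun k => ((d k).C l σ.1 * z k l σ.1) σ.2.1 σ.2.2
  have hfin : d₀ - r ≤ finrank (U ℂ) (𝒦.map (evD (k := U ℚ) y)) := by
    have h1 : finrank (U ℂ) (𝒦.map (evD (k := U ℚ) (yz l))) ≤ finrank (U ℂ) (𝒦.map (evD (k := U ℚ) y)) := by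
      let R : 𝒦 →ₗ[U ℂ] (Fin N × Fin n × Fin n → U ℂ) := (evD (k := U ℚ) y).comp 𝒦.subtype
      let E : 𝒦 →ₗ[U ℂ] (Fin N × Fin n × Fin n → U ℂ) := (evD (k := U ℚ) (yz l)).comp 𝒦.subtype
      have hker : LinearMap.ker R.rangeRestrict ≤ LinearMap.ker E := by
        intro δ hδ
        rw [LinearMap.mem_ker] at hδ ⊢
        have hδ' : ∀ σ, δ.1 (y σ) = 0 := fun σ => congrFun (congrArg Subtype.val hδ) σ
        have h2 : ∀ j, dm δ.1 (gm fun k => z k l j) = 0 := by
          intro j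
          have h3 : dm δ.1 (gm fun k => (d k).C l j * z k l j) = 0 := by
            refine Matrix.ext fun a b => ?_
            exact hδ' (j, a, b)
          have h4 : dm δ.1 (gm fun k => (d k).C l j) = 0 := by
            refine Matrix.ext fun a b => ?_
            exact der_algD (fun k => (hd k).few l j a b) (hap δ.1 δ.2)
          rw [gm_mul, dm_mul, h4, Matrix.zero_mul, zero_add] at h3
          have h5 : IsUnit (gm fun k => (d k).C l j).det := gm_unit fun k => (hdet k l j).1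
          have h6 := congrArg (fun M => (gm fun k => (d k).C l j)⁻¹ * M) h3
          simp only [← Matrix.mul_assoc, Matrix.nonsing_inv_mul _ h5, Matrix.one_mul, Matrix.mul_zero] at h6
          exact h6
        funext σ
        exact congrFun (congrFun (h2 σ.1) σ.2.1) σ.2.2
      have h2 := (rank_le R.rangeRestrict E hker).2
      have h3 : LinearMap.range E = 𝒦.map (evD (k := U ℚ) (yz l)) := by
        rw [LinearMap.range_comp, Submodule.range_subtype]
      have h4 : LinearMap.range R = 𝒦.map (evD (k := U ℚ) y) := by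
        rw [LinearMap.range_comp, Submodule.range_subtype]
      rw [h3] at h2
      rw [← h4]
      exact h2
    omega
  obtain ⟨σ, hσ, hind⟩ := exists_ind y 𝒦 hfin
  choose S hS1 hS2 hS3 hS4 using fun k => hbad k l σ hσ
  have hev := ind_seq (y := fun k i => ((d k).C l (σ i).1 * z k l (σ i).1) (σ i).2.1 (σ i).2.2) hind S hS1
    (fun ν δ hδ => der_algD (fun k => hS2 k ν) (hap δ hδ)) hS3
  obtain ⟨k, hk⟩ := hev.exists
  exact hS4 k hk

end Pool.Agent.H885
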