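import Pool.Agent.H885.DerF
import Pool.Agent.H885.AbsM
import Pool.Agent.H885.OrbT

/-!
# Families over number fields: uniform theorems
-/

set_option autoImplicit false
set_option linter.unusedSectionVars false
set_option linter.unusedVariables false

open Matrix Module Filter PowerSeries

namespace Pool.Agent.H885

open Pool.Agent.Helper880_R3 hiding core final
open Pool.Agent.Helper880_LF.NB hiding alg_core
open Pool.Agent.Y118.UL (mk_eq mk_eq_zero mk_ne_zero mk_surj ev_ge eval_mk rep qc qc_mk U)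

/-- **The sum of the defects of separated tuples of families over a number field.** -/
theorem uniformFM (F : Type) [Field F] [NumberField F] (n N q s ℓ a u e δ L : ℕ) (d₀ : Fin L → ℕ) : ∃ E : ℕ,
    ∀ (x : DatF F L n N) (y : DatB L n N s ℓ a u), x.OK q E → y.OK e d₀ → (∀ l j, y.z l j = x.z l j) → (∀ l, y.𝔤 l = x.𝔤 l) →
    ∃ ρ : Fin L → ℕ, ∑ l, ρ l ≤ s ∧ ∀ l, TrD (d₀ l + a - (ρ l + ℓ)) e δ (y.η l) (y.P l) := by
  classical
  by_contra hcon
  have h1 : ∀ k : ℕ, ∃ (x : DatF F L n N) (y : DatB L n N s ℓ a u), x.OK q (k + 1) ∧ y.OK e d₀ ∧ (∀ l j, y.z l j = x.z l j) ∧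
      (∀ l, y.𝔤 l = x.𝔤 l) ∧ ∀ ρ : Fin L → ℕ, ∑ l, ρ l ≤ s → ∃ l, ¬ TrD (d₀ l + a - (ρ l + ℓ)) e δ (y.η l) (y.P l) := by
    intro k
    by_contra h2
    apply hcon
    refine ⟨k + 1, fun x y hx hy hz hg => ?_⟩
    by_contra h3
    apply h2
    refine ⟨x, y, hx, hy, hz, hg, fun ρ hρ => ?_⟩
    by_contra h4
    apply h3
    push Not at h4
    exact ⟨ρ, hρ, h4⟩
  choose x y hx hy hz hg hbad using h1
  obtain ⟨ρ, hρ, hk⟩ := absM (e := e) (δ := δ) y hy (fun l G hG => by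
    obtain ⟨δ, h1, h2⟩ := derF x hx l G (fun k => by
      rw [← hg]
      exact hG k)
    have h3 : ∀ l', (fun k => (y k).z l') = fun k => (x k).z l' := fun l' => funext fun k => funext fun j => hz k l' j
    refine ⟨δ, fun j => ?_, fun l' hl' j => ?_⟩
    · have h4 : (fun k => (y k).z l j) = fun k => (x k).z l j := funext fun k => hz k l j
      have h5 : (fun k => G k j * (y k).z l j) = fun k => G k j * (x k).z l j := funext fun k => by rw [hz]
      rw [h4, h5]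
      exact h1 j
    · have h4 : (fun k => (y k).z l' j) = fun k => (x k).z l' j := funext fun k => hz k l' j
      rw [h4]
      exact h2 l' hl' j)
  obtain ⟨k, hk⟩ := hk.exists
  obtain ⟨l, hl⟩ := hbad k ρ hρ
  exact hl (hk l)

/-- the conclusion for the orbits -/
def GenA {L n N s a u : ℕ} (e δ : ℕ) (y : DatA L n N s a u) (l : Fin L) : Prop :=
  ∀ S : MvPolynomial (Fin N × Fin n × Fin n) ℂ, S.totalDegree ≤ δ → (∀ ν, AlgD e (y.η l) (S.coeff ν)) →
    MvPolynomial.eval (fun σ => y.P l σ.1 σ.2.1 σ.2.2) S = 0 →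
    ∀ g ∈ expG (y.𝔤 l : Set (Fin N → Matrix (Fin n) (Fin n) ℂ)),
    ∀ h ∈ expG (Submodule.span ℂ (torG (n := n) (y.v l)) : Set (Fin N → Matrix (Fin n) (Fin n) ℂ)),
      MvPolynomial.eval (fun σ => (h σ.1 * (y.C l σ.1 * (g σ.1 * y.z l σ.1))) σ.2.1 σ.2.2) S = 0

/-- **Relations hold on orbits, for families over a number field.** -/
theorem uniformFO (F : Type) [Field F] [NumberField F] (n N q s a u e δ L : ℕ) (hL : s < L) (he : 1 ≤ e) : ∃ E : ℕ,
    ∀ (x : DatF F L n N) (y : DatA L n N s a u), x.OK q E → y.OK e → (∀ l j, y.z l j = x.z l j) → (∀ l, y.𝔤 l = x.𝔤 l) →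
    ∃ l, GenA e δ y l := by
  classical
  by_contra hcon
  have h1 : ∀ k : ℕ, ∃ (x : DatF F L n N) (y : DatA L n N s a u), x.OK q (k + 1) ∧ y.OK e ∧ (∀ l j, y.z l j = x.z l j) ∧
      (∀ l, y.𝔤 l = x.𝔤 l) ∧ ∀ l, ¬ GenA e δ y l := by
    intro k
    by_contra h2
    apply hcon
    refine ⟨k + 1, fun x y hx hy hz hg => ?_⟩
    by_contra h3
    apply h2
    refine ⟨x, y, hx, hy, hz, hg, fun l hl => h3 ⟨l, hl⟩⟩
  choose x y hx hy hz hg hbad using h1
  have h2 : ∀ k l, ∃ S : MvPolynomial (Fin N × Fin n × Fin n) ℂ, S.totalDegree ≤ δ ∧ (∀ ν, AlgD e ((y k).η l) (S.coeff ν)) ∧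
      MvPolynomial.eval (fun σ => (y k).P l σ.1 σ.2.1 σ.2.2) S = 0 ∧
      ¬ ∀ g ∈ expG ((y k).𝔤 l : Set (Fin N → Matrix (Fin n) (Fin n) ℂ)),
        ∀ h ∈ expG (Submodule.span ℂ (torG (n := n) ((y k).v l)) : Set (Fin N → Matrix (Fin n) (Fin n) ℂ)),
        MvPolynomial.eval (fun σ => (h σ.1 * ((y k).C l σ.1 * (g σ.1 * (y k).z l σ.1))) σ.2.1 σ.2.2) S = 0 := by
    intro k l
    have h3 := hbad k l
    unfold GenA at h3
    by_contra h4
    apply h3
    intro S hS1 hS2 hS3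
    by_contra h5
    exact h4 ⟨S, hS1, hS2, hS3, h5⟩
  choose S hS1 hS2 hS3 hS4 using h2
  obtain ⟨l, hl⟩ := absO hL he y hy (fun l G hG => by
    obtain ⟨δ, h1, h2⟩ := derF x hx l G (fun k => by
      rw [← hg]
      exact hG k)
    refine ⟨δ, fun j => ?_, fun l' hl' j => ?_⟩
    · have h4 : (fun k => (y k).z l j) = fun k => (x k).z l j := funext fun k => hz k l j
      have h5 : (fun k => G k j * (y k).z l j) = fun k => G k j * (x k).z l j := funext fun k => by rw [hz]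
      rw [h4, h5]
      exact h1 j
    · have h4 : (fun k => (y k).z l' j) = fun k => (x k).z l' j := funext fun k => hz k l' j
      rw [h4]
      exact h2 l' hl' j) S hS1 hS2 hS3
  obtain ⟨k, hk⟩ := hl.exists
  exact hS4 k l hk

end Pool.Agent.H885
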