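import Pool.Agent.H885.CurTw2
import Pool.Agent.H885.Tang

/-!
# One of several tuples of points near degenerate central fibres is not exceptional, with one logarithm
-/

set_option autoImplicit false
set_option linter.unusedSectionVars false
set_option linter.unusedVariables false

open Matrix Module Filter PowerSeries

namespace Pool.Agent.H885

open Pool.Agent.Y113 (ev Cv GSys ps)
open Pool.Agent.Y118.HV (Hv hh)
open Pool.Agent.Y120.GH (cx cx_mem Cw sf ou_shift ou_ev)
open Pool.Agent.Helper880_R3 hiding core final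
open Pool.Agent.Helper880_LF.NB hiding alg_core
open Pool.Agent.Y118.UL (mk mk_eq mk_eq_zero mk_ne_zero mk_surj ev_ge eval_mk rep qc qc_mk algebraMap_eq U)
open Pool.Agent.TH119.DR Pool.Agent.TH119.MX Pool.Agent.TH127.PT Pool.Agent.Y123.ST Pool.Agent.Y123.GN

variable {n N r₀ L M s ℓ : ℕ}

/-- the data for several tuples of points -/
structure DatW (L n N r₀ s ℓ : ℕ) where
  bs : Fin s → ℂ
  cs : Fin L → Fin ℓ → ℂ
  κ : Fin L → ℂ
  C₀ : Fin L → Matrix (Fin r₀) (Fin r₀) ℂ
  C : Fin L → Fin N → Matrix (Fin n) (Fin n) ℂ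
  R : Fin L → Fin N → Matrix (Fin n) (Fin n) ℤ
  H : ℝ
  T : Fin L → Fin N → Polynomial ℤ
  A : Fin L → Fin N → Fin n → Fin n → Polynomial ℤ
  Z : Fin L → Fin N → Matrix (Fin n) (Fin n) ℚ⟦X⟧
  W : Fin L → Fin N → Matrix (Fin n) (Fin n) ℚ⟦X⟧
  ρ : ℝ
  w : ℕ
  b₀ : ℕ
  b : Fin L → Fin N → ℕ
  𝔤 : Fin L → Fin N → Submodule ℂ (Matrix (Fin n) (Fin n) ℂ)
  K : Fin L → Subfield ℂ
  S : Fin L → Set (Matrix (Ix r₀ n N) (Ix r₀ n N) ℂ)

/-- the reference point -/
noncomputable def DatW.t (d : DatW L n N r₀ s ℓ) : ℕ := d.b₀ + d.w + ⌊d.ρ⌋₊ + 2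

/-- the constants for the reference point -/
noncomputable def DatW.Cp (d : DatW L n N r₀ s ℓ) (l : Fin L) (j : Fin N) : Matrix (Fin n) (Fin n) ℂ :=
  d.C l j * eP (d.R l j) (Complex.log (d.t : ℝ))

/-- the values -/
noncomputable def DatW.z (d : DatW L n N r₀ s ℓ) (l : Fin L) (j : Fin N) : Matrix (Fin n) (Fin n) ℂ :=
  zT d.t (d.R l j) (d.Z l j) (d.b l j)

/-- the conditions -/
structure DatW.OK (q D r e E : ℕ) (d : DatW L n N r₀ s ℓ) : Prop where
  κ_ne : ∀ l, d.κ l ≠ 0
  few₀ : ∀ l i j, AlgD e (Fin.append d.bs (d.cs l)) (d.κ l * d.C₀ l i j)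
  few : ∀ l a i j, AlgD e (Fin.append d.bs (d.cs l)) (d.κ l * d.C l a i j)
  one_le : 1 ≤ d.H
  sys : ∀ l j, SysN q d.H (d.T l j) (d.A l j) (d.R l j) (d.Z l j) (d.W l j)
  T_ne : ∀ l j, d.T l j ≠ 0
  ρ_pos : 0 < d.ρ
  mem : ∀ l j a b, cx (d.Z l j a b) ∈ Cw d.ρ
  b_mem : ∀ l j, d.b₀ ≤ d.b l j ∧ d.b l j ≤ d.b₀ + d.w
  sep : ∀ l j l' j', ¬ (l = l' ∧ d.b l j = d.b l' j') → 2 * d.ρ < |(d.b l j : ℝ) - d.b l' j'|
  big : (2 * d.H * ((d.w : ℝ) + d.ρ + 2)) ^ E ≤ (d.b₀ : ℝ)
  lie : ∀ l j, IsLie (d.𝔤 l j)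
  cf : ∀ l j, CF (d.𝔤 l j)
  cod : ∀ l j, Cod r (d.𝔤 l j)
  nor : ∀ l j, ∀ Y ∈ d.𝔤 l j, (d.R l j).map (Int.castRingHom ℂ) * Y - Y * (d.R l j).map (Int.castRingHom ℂ) ∈ d.𝔤 l j
  inf : ∀ l, ∀ X : Fin N → Matrix (Fin n) (Fin n) ℂ, (∀ j, X j ∈ d.𝔤 l j) → ∀ β,
    InfT (part (d.b l) (d.Z l) β) (fun j => if d.b l j = β then X j else 0)
  fd : ∀ l, FiniteDimensional ℚ (d.K l)
  deg : ∀ l, finrank ℚ (d.K l) ≤ D
  tor : ∀ l, IsSubtorsor (d.K l) (d.S l)
  mem_tor : ∀ l, fromBlocks (d.C₀ l) 0 0 (blockDiagonal fun j =>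
    d.C l j * eP (d.R l j) (Complex.log (d.b l j : ℝ)) * Hv (d.Z l j) (d.b l j)) ∈ d.S l

/-- exponentials of sums -/
lemma eP_add {R : Matrix (Fin n) (Fin n) ℤ} (hR : R ^ n = 0) (u v : ℂ) : eP R (u + v) = eP R u * eP R v := by
  rw [eP_exp hR, eP_exp hR, eP_exp hR]
  have h1 : -((u + v) • RS' ℂ R) = -(u • RS' ℂ R) + -(v • RS' ℂ R) := by
    rw [add_smul, neg_add]
  rw [h1]
  refine IsNilpotent.exp_add_of_commute ?_ ⟨n, nil_smul hR u⟩ ⟨n, nil_smul hR v⟩
  exact (((Commute.refl (RS' ℂ R)).smul_left u).smul_right v).neg_left.neg_right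

/-- the constants and the values -/
lemma DatW.Cp_z (d : DatW L n N r₀ s ℓ) (l : Fin L) (j : Fin N) (hR : d.R l j ^ n = 0) (hb : 0 < d.b l j) :
    d.Cp l j * d.z l j = d.C l j * eP (d.R l j) (Complex.log (d.b l j : ℝ)) * Hv (d.Z l j) (d.b l j) := by
  unfold DatW.Cp DatW.z zT
  have ht : 0 < d.t := by
    unfold DatW.t
    omega
  have hb' : (0 : ℝ) < d.b l j := by exact_mod_cast hb
  have ht' : (0 : ℝ) < d.t := by exact_mod_cast ht
  have h1 : Complex.log ((d.b l j : ℝ) : ℂ) = Complex.log ((d.t : ℝ) : ℂ) + Complex.log (((d.b l j : ℝ) : ℂ) / ((d.t : ℝ) : ℂ)) := by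
    rw [← Complex.ofReal_div, ← Complex.ofReal_log hb'.le, ← Complex.ofReal_log ht'.le, ← Complex.ofReal_log (by positivity),
      Real.log_div hb'.ne' ht'.ne']
    push_cast
    ring
  rw [h1, eP_add hR, ← Matrix.mul_assoc, ← Matrix.mul_assoc]

/-- **One of several separated tuples is not exceptional.** -/
theorem uniformW (n N q D r₀ s e r ℓ L : ℕ) (hn : 0 < n) (hLr : s + 1 + L * ℓ < L * (r + 1)) :
    ∃ E : ℕ, ∀ d : DatW L n N r₀ s ℓ,
    d.OK q D r e E → ∃ l, ∀ Y : Fin N → Matrix (Fin n) (Fin n) ℂ, (∀ j, Y j ∈ d.𝔤 l j) → ∀ x ∈ d.S l,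
      Zm (fun j => NormedSpace.exp (d.C l j * Y j * (d.C l j)⁻¹)) * x ∈ d.S l := by
  classical
  by_contra hcon
  simp only [not_exists] at hcon
  have h1 : ∀ k : ℕ, ∃ d : DatW L n N r₀ s ℓ, d.OK q D r e (k + 1) ∧
      ∀ l, ¬ ∀ Y : Fin N → Matrix (Fin n) (Fin n) ℂ, (∀ j, Y j ∈ d.𝔤 l j) → ∀ x ∈ d.S l,
        Zm (fun j => NormedSpace.exp (d.C l j * Y j * (d.C l j)⁻¹)) * x ∈ d.S l := by
    intro k
    have h2 := hcon (k + 1)
    push Not at h2
    obtain ⟨d, hd1, hd2⟩ := h2
    refine ⟨d, hd1, fun l hl => ?_⟩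
    obtain ⟨Y, hY, x, hx, hx2⟩ := hd2 l
    exact hx2 (hl Y hY x hx)
  choose d hd hbad using h1
  have hL0 : 0 < L := by
    rcases Nat.eq_zero_or_pos L with h | h
    · subst h
      simp at hLr
    · exact h
  set z : ℕ → Fin L → Fin N → Matrix (Fin n) (Fin n) ℂ := fun k l j => (d k).z l j with hz
  -- the derivations
  have hder : ∀ l i, ∀ A ∈ GUs (fun k => (d k).𝔤 l i), ∃ δ : Derivation (U ℚ) (U ℂ) (U ℂ),
      dm δ (gm fun k => z k l i) = A * (gm fun k => z k l i) ∧
      ∀ l' j, (l', j) ≠ (l, i) → dm δ (gm fun k => z k l' j) = 0 := by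
    rintro l i A ⟨F, hF, hF𝔤⟩
    set X : ℕ → Fin L → Fin N → Matrix (Fin n) (Fin n) ℂ := fun k l' j => if (l', j) = (l, i) then F k else 0 with hX
    have hX𝔤 : ∀ k l' j, X k l' j ∈ (d k).𝔤 l' j := by
      intro k l' j
      rw [hX]
      simp only
      split_ifs with h
      · obtain ⟨h3, h4⟩ := Prod.ext_iff.1 h
        simp only at h3 h4
        subst h3
        subst h4
        exact hF𝔤 k
      · exact ((d k).𝔤 l' j).zero_mem
    obtain ⟨δ, hδ⟩ := hder_gen (z := fun k (i : Fin (L * N)) => z k (fs i) (sn i)) (X := fun k i => X k (fs i) (sn i))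
      (fun e' => by
        obtain ⟨E, hE⟩ := curveTw L N n q e' 
        filter_upwards [ev_ge E] with k hk P hPd hP s
        have hH := (hd k).one_le
        have hw0 : (0 : ℝ) ≤ (d k).w := by positivity
        have hρ := (hd k).ρ_pos
        refine hE (d k).H hH (d k).T (d k).A (d k).R (d k).Z (d k).W (hd k).sys (hd k).T_ne (d k).ρ hρ (hd k).mem (d k).w (d k).b₀
          (d k).b (hd k).b_mem (hd k).sep ((pow_le_pow_right₀ (by nlinarith) (hk.trans (Nat.le_succ k))).trans (hd k).big) (X k)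
          (fun l' β lam => (hd k).inf l' (fun j => eP ((d k).R l' j) (-lam) * X k l' j * eP ((d k).R l' j) lam)
            (fun j => eP_conj_mem ((hd k).sys l' j).nil ((hd k).nor l' j) (hX𝔤 k l' j) lam) β) P hPd hP s)
    have hfs : ∀ l' j, fs (finProdFinEquiv (l', j) : Fin (L * N)) = l' := fun l' j => by
      unfold fs
      rw [Equiv.symm_apply_apply]
    have hsn : ∀ l' j, sn (finProdFinEquiv (l', j) : Fin (L * N)) = j := fun l' j => by
      unfold sn
      rw [Equiv.symm_apply_apply]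
    have hδ' : ∀ l' j, dm δ (gm fun k => z k l' j) = gm fun k => X k l' j * z k l' j := by
      intro l' j
      have h3 := hδ (finProdFinEquiv (l', j))
      simp only [hfs, hsn] at h3
      exact h3
    refine ⟨δ, ?_, fun l' j hj => ?_⟩
    · rw [hδ', ← hF, ← gm_mul]
      congr 1
      funext k
      rw [hX]
      simp only [if_true]
    · rw [hδ']
      have h3 : (fun k => X k l' j * z k l' j) = fun _ => 0 := by
        funext k
        rw [hX]
        simp only [if_neg hj, Matrix.zero_mul]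
      rw [h3, gm_zero]
  -- the period matrices
  have hcT : ∀ k l, (Tot ((d k).C₀ l) ((d k).Cp l) : Matrix (Ix r₀ n N) (Ix r₀ n N) ℂ) * Zm (z k l) ∈ (d k).S l := by
    intro k l
    have hbk : ∀ j, 0 < (d k).b l j := by
      intro j
      have h4 : (1 : ℝ) ≤ (d k).b₀ := by
        refine le_trans ?_ (hd k).big
        have hH := (hd k).one_le
        have hρ := (hd k).ρ_pos
        have hw : (0 : ℝ) ≤ (d k).w := by positivity
        exact one_le_pow₀ (by nlinarith)
      have h5 : 1 ≤ (d k).b₀ := by exact_mod_cast h4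
      have := ((hd k).b_mem l j).1
      omega
    have h2 : fromBlocks ((d k).C₀ l) 0 0 (blockDiagonal fun j =>
        (d k).C l j * eP ((d k).R l j) (Complex.log ((d k).b l j : ℝ)) * Hv ((d k).Z l j) ((d k).b l j)) =
        (Tot ((d k).C₀ l) ((d k).Cp l) : Matrix (Ix r₀ n N) (Ix r₀ n N) ℂ) * Zm (z k l) := by
      have h3 := Tot_mul ((d k).C₀ l) 1 ((d k).Cp l) (z k l)
      rw [Matrix.mul_one] at h3
      refine Eq.trans ?_ h3.symm
      congr 2
      funext j
      exact ((d k).Cp_z l j ((hd k).sys l j).nil (hbk j)).symm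
    rw [← h2]
    exact (hd k).mem_tor l
  have hdet : ∀ k l, (Tot ((d k).C₀ l) ((d k).Cp l)).det ≠ 0 ∧ (Zm (r₀ := r₀) (z k l)).det ≠ 0 := by
    intro k l
    have h1 := (Matrix.isUnit_iff_isUnit_det _).1 (((hd k).tor l).isUnit _ (hcT k l))
    rw [Matrix.det_mul] at h1
    have h2 := h1.ne_zero
    exact ⟨left_ne_zero_of_mul h2, right_ne_zero_of_mul h2⟩
  have hz0 : ∀ k l j, (z k l j).det ≠ 0 := by
    intro k l j
    have h1 := (hdet k l).2
    rw [Zm_det, Finset.prod_ne_zero_iff] at h1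
    exact h1 j (Finset.mem_univ j)
  have hzero : ∀ δ : Derivation (U ℚ) (U ℂ) (U ℂ), δ (mk ℂ fun _ => 0) = 0 := by
    intro δ
    have : (mk ℂ fun _ => (0 : ℂ)) = 0 := map_zero (mk ℂ)
    rw [this, map_zero]
  obtain ⟨l, hmain⟩ := coreT hn hLr (fun k => (hd k).lie) (fun k => (hd k).cod) (fun k => (hd k).cf) hz0 hder
    (fun k => (hd k).fd) (fun k => (hd k).deg) (C := fun k l => Tot ((d k).C₀ l) ((d k).Cp l)) (fun k l => (hdet k l).1)
    (β := fun i => mk ℂ fun k => Fin.append (d k).bs (fun _ : Fin 1 => Complex.log ((d k).t : ℝ)) i)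
    (γ := fun l i => mk ℂ fun k => (d k).cs l i) (κ := fun k l => (d k).κ l)
    (fun k l => (hd k).κ_ne l) (fun l δ h1 h2 => by
      have hap : ∀ i, δ (mk ℂ fun k => Fin.append (d k).bs ((d k).cs l) i) = 0 := by
        intro i
        refine Fin.addCases (fun i => ?_) (fun i => ?_) i
        · have h3 : (fun k => Fin.append (d k).bs ((d k).cs l) (Fin.castAdd ℓ i)) = fun k => (d k).bs i := by
            funext k
            rw [Fin.append_left]
          rw [h3]
          have h4 := h1 (Fin.castAdd 1 i)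
          simp only [Fin.append_left] at h4
          exact h4
        · have h3 : (fun k => Fin.append (d k).bs ((d k).cs l) (Fin.natAdd s i)) = fun k => (d k).cs l i := by
            funext k
            rw [Fin.append_right]
          rw [h3]
          exact h2 i
      have hlog : δ (mk ℂ fun k => Complex.log ((d k).t : ℝ)) = 0 := by
        have h4 := h1 (Fin.natAdd s 0)
        simp only [Fin.append_right] at h4
        exact h4
      have hCp : ∀ a, dm δ (gm fun k => (d k).κ l • (d k).Cp l a) = 0 := by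
        intro a
        have h3 : dm δ (gm fun k => NormedSpace.exp (vR (fun _ : Fin 1 => -Complex.log ((d k).t : ℝ)) (fun _ : Fin 1 => (d k).R l a))) = 0 := by
          refine dm_xp (v := fun k _ => -Complex.log ((d k).t : ℝ)) (R := fun k _ => (d k).R l a) (fun k i i' => rfl)
            (fun k i => ((hd k).sys l a).nil) fun i a' b' => ?_
          refine der_zmul (v := fun k => -Complex.log ((d k).t : ℝ)) (R := fun k => (d k).R l a a' b') ?_
          have h4 : (mk ℂ fun k => -Complex.log ((d k).t : ℝ)) = -(mk ℂ fun k => Complex.log ((d k).t : ℝ)) := by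
            rw [← map_neg]
            rfl
          rw [h4, map_neg, hlog, neg_zero]
        have h4 : dm δ (gm fun k => (d k).κ l • (d k).C l a) = 0 := by
          refine Matrix.ext fun i j => ?_
          exact der_algD (fun k => (hd k).few l a i j) hap
        have h5 : (gm fun k => (d k).κ l • (d k).Cp l a) = (gm fun k => (d k).κ l • (d k).C l a) *
            gm fun k => NormedSpace.exp (vR (fun _ : Fin 1 => -Complex.log ((d k).t : ℝ)) (fun _ : Fin 1 => (d k).R l a)) := by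
          rw [← gm_mul]
          congr 1
          funext k
          unfold DatW.Cp
          rw [← Matrix.smul_mul, eP_nexp ((hd k).sys l a).nil]
          congr 2
          unfold vR
          rw [Fin.sum_univ_one, neg_smul]
        rw [h5, dm_mul, h3, h4, Matrix.zero_mul, Matrix.mul_zero, add_zero]
      refine Matrix.ext fun i j => ?_
      show δ (mk ℂ fun k => ((d k).κ l • Tot ((d k).C₀ l) ((d k).Cp l)) i j) = 0
      rcases i with i | ⟨i, a⟩ <;> rcases j with j | ⟨j, a'⟩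
      · exact der_algD (fun k => (hd k).few₀ l i j) hap
      · have h3 : (fun k => ((d k).κ l • Tot ((d k).C₀ l) ((d k).Cp l)) (Sum.inl i) (Sum.inr (j, a'))) = fun _ => 0 := by
          funext k
          show (d k).κ l * 0 = 0
          rw [mul_zero]
        rw [h3]
        exact hzero δ
      · have h3 : (fun k => ((d k).κ l • Tot ((d k).C₀ l) ((d k).Cp l)) (Sum.inr (i, a)) (Sum.inl j)) = fun _ => 0 := by
          funext k
          show (d k).κ l * 0 = 0
          rw [mul_zero]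
        rw [h3]
        exact hzero δ
      · by_cases ha : a = a'
        · subst ha
          have h3 : (fun k => ((d k).κ l • Tot ((d k).C₀ l) ((d k).Cp l)) (Sum.inr (i, a)) (Sum.inr (j, a))) =
              fun k => (d k).κ l * (d k).Cp l a i j := by
            funext k
            show (d k).κ l * blockDiagonal ((d k).Cp l) (i, a) (j, a) = _
            rw [blockDiagonal_apply, if_pos rfl]
          rw [h3]
          exact congrFun (congrFun (hCp a) i) j
        · have h3 : (fun k => ((d k).κ l • Tot ((d k).C₀ l) ((d k).Cp l)) (Sum.inr (i, a)) (Sum.inr (j, a'))) =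
              fun _ => 0 := by
            funext k
            show (d k).κ l * blockDiagonal ((d k).Cp l) (i, a) (j, a') = _
            rw [blockDiagonal_apply, if_neg ha, mul_zero]
          rw [h3]
          exact hzero δ) (fun k => (hd k).tor) hcT
  obtain ⟨k, hk⟩ := hmain.exists
  refine hbad k l fun Y₀ hY₀ x hx => ?_
  -- conjugation
  set Y : Fin N → Matrix (Fin n) (Fin n) ℂ := fun j =>
    eP ((d k).R l j) (-Complex.log ((d k).t : ℝ)) * Y₀ j * eP ((d k).R l j) (Complex.log ((d k).t : ℝ)) with hYdef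
  have hY : ∀ j, Y j ∈ (d k).𝔤 l j := fun j => eP_conj_mem ((hd k).sys l j).nil ((hd k).nor l j) (hY₀ j) _
  have hYC : (fun j => NormedSpace.exp ((d k).C l j * Y₀ j * ((d k).C l j)⁻¹)) =
      fun j => NormedSpace.exp ((d k).Cp l j * Y j * ((d k).Cp l j)⁻¹) := by
    funext j
    congr 1
    rw [hYdef]
    simp only
    unfold DatW.Cp
    have e1 := eP_inv ((hd k).sys l j).nil (Complex.log ((d k).t : ℝ))
    have e2 := eP_inv ((hd k).sys l j).nil (-Complex.log ((d k).t : ℝ))
    rw [neg_neg] at e2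
    set E₁ := eP ((d k).R l j) (Complex.log ((d k).t : ℝ)) with hE₁
    set E₂ := eP ((d k).R l j) (-Complex.log ((d k).t : ℝ)) with hE₂
    have e3 : IsUnit E₁.det := Matrix.isUnit_det_of_left_inverse e1
    rw [Matrix.mul_inv_rev]
    calc (d k).C l j * Y₀ j * ((d k).C l j)⁻¹ = (d k).C l j * (E₁ * E₂) * Y₀ j * (E₁ * E₁⁻¹) * ((d k).C l j)⁻¹ := by
          rw [e2, Matrix.mul_nonsing_inv _ e3, Matrix.mul_one, Matrix.mul_one]
      _ = _ := by simp only [Matrix.mul_assoc]
  rw [hYC]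
  -- the case without points
  by_cases hN : N = 0
  · subst hN
    have h1 : Zm (r₀ := r₀) (fun j : Fin 0 => NormedSpace.exp ((d k).Cp l j * Y j * ((d k).Cp l j)⁻¹)) = 1 := by
      have : (fun j : Fin 0 => NormedSpace.exp ((d k).Cp l j * Y j * ((d k).Cp l j)⁻¹)) = fun _ => 1 := funext fun j => j.elim0
      rw [this, Zm_one]
    rw [h1, Matrix.one_mul]
    exact hx
  have hCu : ∀ i, IsUnit ((d k).Cp l i).det := fun i => by
    have h1 := (Tot_unit ((Matrix.isUnit_iff_isUnit_det _).2 (isUnit_iff_ne_zero.2 (hdet k l).1))).2 i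
    exact (Matrix.isUnit_iff_isUnit_det _).1 h1
  have h2 : ∀ i, fl (ib (r₀ := r₀) i ((d k).Cp l i * Y i * ((d k).Cp l i)⁻¹)) ∈ LL ((d k).S l) := by
    intro i
    have h4 := hk i _ (hY i)
    have h5 : ib (r₀ := r₀) i ((d k).Cp l i * Y i * ((d k).Cp l i)⁻¹) =
        (Tot ((d k).C₀ l) ((d k).Cp l) : Matrix (Ix r₀ n N) (Ix r₀ n N) ℂ) * ib i (Y i) * (Tot ((d k).C₀ l) ((d k).Cp l))⁻¹ := by
      have h6 : IsUnit (Tot ((d k).C₀ l) ((d k).Cp l) : Matrix (Ix r₀ n N) (Ix r₀ n N) ℂ).det := isUnit_iff_ne_zero.2 (hdet k l).1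
      have h7 : ib (r₀ := r₀) i ((d k).Cp l i * Y i * ((d k).Cp l i)⁻¹) * (Tot ((d k).C₀ l) ((d k).Cp l) : Matrix (Ix r₀ n N) (Ix r₀ n N) ℂ) =
          Tot ((d k).C₀ l) ((d k).Cp l) * ib i (Y i) := by
        unfold Tot
        rw [ib_apply, ib_apply, fromBlocks_multiply, fromBlocks_multiply, ← blockDiagonal_mul, ← blockDiagonal_mul]
        have h9 : (fun j => (Pi.single i ((d k).Cp l i * Y i * ((d k).Cp l i)⁻¹) : Fin N → Matrix (Fin n) (Fin n) ℂ) j * (d k).Cp l j) =
            fun j => (d k).Cp l j * (Pi.single i (Y i) : Fin N → Matrix (Fin n) (Fin n) ℂ) j := by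
          funext j
          by_cases hj : j = i
          · subst hj
            rw [Pi.single_eq_same, Pi.single_eq_same, Matrix.nonsing_inv_mul_cancel_right _ _ (hCu j)]
          · rw [Pi.single_eq_of_ne hj, Pi.single_eq_of_ne hj, Matrix.zero_mul, Matrix.mul_zero]
        rw [h9]
        simp
      rw [← h7, Matrix.mul_nonsing_inv_cancel_right _ _ h6]
    rw [h5]
    exact h4
  have h3 : fl (∑ i, ib (r₀ := r₀) i ((d k).Cp l i * Y i * ((d k).Cp l i)⁻¹)) ∈ LL ((d k).S l) := by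
    have h4 : ∀ s : Finset (Fin N), fl (∑ i ∈ s, ib (r₀ := r₀) i ((d k).Cp l i * Y i * ((d k).Cp l i)⁻¹)) ∈ LL ((d k).S l) := by
      intro s
      induction s using Finset.induction_on with
      | empty =>
        rw [Finset.sum_empty, fl_zero]
        exact (LL ((d k).S l)).zero_mem
      | insert a s ha ih =>
        rw [Finset.sum_insert ha, fl_add]
        exact (LL ((d k).S l)).add_mem (h2 a) ih
    exact h4 _
  rw [sum_ib (fun i => (d k).Cp l i * Y i * ((d k).Cp l i)⁻¹)] at h3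
  have h4 := exp_stab ((hd k).tor l) h3 hx
  rw [exp_Zm] at h4
  exact h4

end Pool.Agent.H885
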