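import Pool.Agent.H885.UnifZW
import Pool.Agent.H885.DerF

/-!
# The sum of the codimensions over number fields
-/

set_option autoImplicit false
set_option linter.unusedSectionVars false
set_option linter.unusedVariables false

open Matrix Module Filter PowerSeries NumberField

namespace Pool.Agent.H885.ZW

open Pool.Agent.Helper880_R3 hiding core final
open Pool.Agent.Helper880_LF.NB hiding alg_core nrm
open Pool.Agent.Y118.UL (mk mk_eq mk_eq_zero mk_ne_zero mk_surj ev_ge eval_mk rep qc qc_mk algebraMap_eq U)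
open Pool.Agent.Helper880_ZP (Compat)

variable {n N r₀ L s ℓ : ℕ}

/-- **The sum of the codimensions of separated tuples near fibres over number fields is bounded.** -/
theorem uniformZF (F : Type) [Field F] [NumberField F] (n N q r₀ s ℓ e L : ℕ)
    {Rl : Matrix (Ix r₀ n N) (Ix r₀ n N) ℂ → Submodule ℂ (Matrix (Ix r₀ n N) (Ix r₀ n N) ℂ) → Prop} (hRl : Compat Rl) :
    ∃ E : ℕ, ∀ (x : DatF F L n N) (y : DatZ L n N r₀ s ℓ), x.OK q E → y.OK e → (∀ l j, y.z l j = x.z l j) →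
      (∀ l, y.𝔤 l = x.𝔤 l) → ∃ ρ : Fin L → ℕ, ∑ l, ρ l ≤ s ∧
      ∀ l, ∀ R : Submodule ℂ (Matrix (Ix r₀ n N) (Ix r₀ n N) ℂ), Rl (y.P l) R →
        finrank ℂ (blT r₀ (conjT (y.C l) (y.𝔤 l))) ≤
          finrank ℂ (blT r₀ (conjT (y.C l) (y.𝔤 l)) ⊓ R : Submodule ℂ (Matrix (Ix r₀ n N) (Ix r₀ n N) ℂ)) + (ρ l + ℓ) := by
  classical
  by_contra hcon
  have h1 : ∀ k : ℕ, ∃ (x : DatF F L n N) (y : DatZ L n N r₀ s ℓ), x.OK q (k + 1) ∧ y.OK e ∧ (∀ l j, y.z l j = x.z l j) ∧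
      (∀ l, y.𝔤 l = x.𝔤 l) ∧ ∀ ρ : Fin L → ℕ, ∑ l, ρ l ≤ s → ¬ ∀ l, ∀ R : Submodule ℂ (Matrix (Ix r₀ n N) (Ix r₀ n N) ℂ),
        Rl (y.P l) R → finrank ℂ (blT r₀ (conjT (y.C l) (y.𝔤 l))) ≤
          finrank ℂ (blT r₀ (conjT (y.C l) (y.𝔤 l)) ⊓ R : Submodule ℂ (Matrix (Ix r₀ n N) (Ix r₀ n N) ℂ)) + (ρ l + ℓ) := by
    intro k
    by_contra h2
    apply hcon
    refine ⟨k + 1, fun x y hx hy hz hg => ?_⟩
    by_contra h3
    apply h2
    refine ⟨x, y, hx, hy, hz, hg, fun ρ hρ h4 => ?_⟩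
    exact h3 ⟨ρ, hρ, h4⟩
  choose x y hx hy hz hg hbad using h1
  obtain ⟨ρ, hρ, hk⟩ := absZ hRl y hy (fun l G hG => by
    obtain ⟨δ, h1, h2⟩ := derF x hx l G (fun k => by
      rw [← hg]
      exact hG k)
    refine ⟨δ, fun j => ?_, fun l' hl' j => ?_⟩
    · have h4 : (fun k => (y k).z l j) = fun k => (x k).z l j := funext fun k => hz k l j
      have h5 : (fun k => G k j * (y k).z l j) = fun k => G k j * (x k).z l j := funext fun k => by rw [hz]
      rw [h4, h5]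
      exact h1 j
    · have h4 : (fun k => (y k).z l' j) = fun k => (x k).z l' j := funext fun k => hz k l' j
      rw [h4]
      exact h2 l' hl' j)
  obtain ⟨k, hk⟩ := hk.exists
  exact hbad k ρ hρ hk

end Pool.Agent.H885.ZW
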