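import Pool.Agent.H885.Zc
import Pool.Agent.H885.DerW

/-!
# The sum of the codimensions of special subvarieties near degenerate central fibres
-/

set_option autoImplicit false
set_option linter.unusedSectionVars false
set_option linter.unusedVariables false

open Matrix Module Filter PowerSeries

namespace Pool.Agent.H885.ZW

open Pool.Agent.Y113 (ev Cv GSys ps)
open Pool.Agent.Y118.HV (Hv hh)
open Pool.Agent.Y120.GH (cx cx_mem Cw sf ou_shift ou_ev)
open Pool.Agent.Helper880_R3 hiding core final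
open Pool.Agent.Helper880_LF.NB hiding alg_core nrm
open Pool.Agent.Y118.UL (mk mk_eq mk_eq_zero mk_ne_zero mk_surj ev_ge eval_mk rep qc qc_mk algebraMap_eq U)
open Pool.Agent.Helper880_ZP (Us mem_Us mem_Us_of Us_mono Us_inf li_iff finrank_le gm_inv cjE cjE_apply cj_dim Compat RelA
  compat_A Lie' DefOver K₀ upS ppS Dg cjS mem_cjS)

variable {n N r₀ L s ℓ : ℕ}

/-- the data for several tuples of points -/
structure DatZ (L n N r₀ s ℓ : ℕ) where
  bs : Fin s → ℂ
  cs : Fin L → Fin ℓ → ℂ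
  κ : Fin L → ℂ
  C₀ : Fin L → Matrix (Fin r₀) (Fin r₀) ℂ
  C₁ : Fin L → Fin N → Matrix (Fin n) (Fin n) ℂ
  C₂ : Fin L → Fin N → Matrix (Fin n) (Fin n) ℂ
  z : Fin L → Fin N → Matrix (Fin n) (Fin n) ℂ
  𝔤 : Fin L → Submodule ℂ (Fin N → Matrix (Fin n) (Fin n) ℂ)

/-- the constants -/
noncomputable def DatZ.C (d : DatZ L n N r₀ s ℓ) (l : Fin L) : Fin N → Matrix (Fin n) (Fin n) ℂ :=
  fun j => d.C₁ l j * d.C₂ l j

/-- the period matrix -/
noncomputable def DatZ.P (d : DatZ L n N r₀ s ℓ) (l : Fin L) : Matrix (Ix r₀ n N) (Ix r₀ n N) ℂ :=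
  Tot (d.C₀ l) fun j => d.C l j * d.z l j

/-- the conditions -/
structure DatZ.OK (e : ℕ) (d : DatZ L n N r₀ s ℓ) : Prop where
  κ_ne : ∀ l, d.κ l ≠ 0
  few₀ : ∀ l i j, AlgD e (Fin.append d.bs (d.cs l)) (d.κ l * d.C₀ l i j)
  few₁ : ∀ l a i j, AlgD e (Fin.append d.bs (d.cs l)) (d.κ l * d.C₁ l a i j)
  few₂ : ∀ l a i j, AlgD e (Fin.append d.bs (d.cs l)) (d.C₂ l a i j)
  det : ∀ l, IsUnit (d.P l)

/-- **The sum of the codimensions of separated tuples is bounded, abstract version.** -/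
theorem absZ {e : ℕ} {Rl : Matrix (Ix r₀ n N) (Ix r₀ n N) ℂ → Submodule ℂ (Matrix (Ix r₀ n N) (Ix r₀ n N) ℂ) → Prop}
    (hRl : Compat Rl) (d : ℕ → DatZ L n N r₀ s ℓ) (hd : ∀ k, (d k).OK e)
    (hder : ∀ l, ∀ F : ℕ → Fin N → Matrix (Fin n) (Fin n) ℂ, (∀ k, F k ∈ (d k).𝔤 l) →
      ∃ δ : Derivation (U ℚ) (U ℂ) (U ℂ), (∀ j, dm δ (gm fun k => (d k).z l j) = gm fun k => F k j * (d k).z l j) ∧
      ∀ l', l' ≠ l → ∀ j, dm δ (gm fun k => (d k).z l' j) = 0) :
    ∃ ρ : Fin L → ℕ, ∑ l, ρ l ≤ s ∧ ∀ᶠ k in (hyperfilter ℕ : Filter ℕ), ∀ l,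
      ∀ R : Submodule ℂ (Matrix (Ix r₀ n N) (Ix r₀ n N) ℂ), Rl ((d k).P l) R →
        finrank ℂ (blT r₀ (conjT ((d k).C l) ((d k).𝔤 l))) ≤
          finrank ℂ (blT r₀ (conjT ((d k).C l) ((d k).𝔤 l)) ⊓ R : Submodule ℂ (Matrix (Ix r₀ n N) (Ix r₀ n N) ℂ)) + (ρ l + ℓ) := by
  classical
  set z : ℕ → Fin L → Fin N → Matrix (Fin n) (Fin n) ℂ := fun k l j => (d k).z l j with hz
  have hP : ∀ k l, (d k).P l = Tot ((d k).C₀ l) ((d k).C l) * Zm (z k l) := by
    intro k l
    unfold DatZ.P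
    have h3 := Tot_mul ((d k).C₀ l) 1 ((d k).C l) (z k l)
    rw [Matrix.mul_one] at h3
    exact h3.symm
  have hdet : ∀ k l, IsUnit (Tot ((d k).C₀ l) ((d k).C l)).det ∧ (Zm (r₀ := r₀) (z k l)).det ≠ 0 := by
    intro k l
    have h1 := (Matrix.isUnit_iff_isUnit_det _).1 ((hd k).det l)
    rw [hP, Matrix.det_mul] at h1
    have h2 := h1.ne_zero
    exact ⟨isUnit_iff_ne_zero.2 (left_ne_zero_of_mul h2), right_ne_zero_of_mul h2⟩
  have hz0 : ∀ k l j, (z k l j).det ≠ 0 := by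
    intro k l j
    have h1 := (hdet k l).2
    rw [Zm_det, Finset.prod_ne_zero_iff] at h1
    exact h1 j (Finset.mem_univ j)
  have hzero : ∀ δ : Derivation (U ℚ) (U ℂ) (U ℂ), δ (mk ℂ fun _ => 0) = 0 := by
    intro δ
    have : (mk ℂ fun _ => (0 : ℂ)) = 0 := map_zero (mk ℂ)
    rw [this, map_zero]
  obtain ⟨ρ, hρ, hρ'⟩ := coreZ (𝔤 := fun k l => (d k).𝔤 l) hz0 hder (C := fun k l => Tot ((d k).C₀ l) ((d k).C l))
    (fun k l => (hdet k l).1) (fun i => mk ℂ fun k => (d k).bs i) (fun l i => mk ℂ fun k => (d k).cs l i)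
    (fun l δ h1 h2 => by
      have hap : ∀ i, δ (mk ℂ fun k => Fin.append (d k).bs ((d k).cs l) i) = 0 := by
        intro i
        refine Fin.addCases (fun i => ?_) (fun i => ?_) i
        · have h3 : (fun k => Fin.append (d k).bs ((d k).cs l) (Fin.castAdd ℓ i)) = fun k => (d k).bs i := by
            funext k
            rw [Fin.append_left]
          rw [h3]
          exact h1 i
        · have h3 : (fun k => Fin.append (d k).bs ((d k).cs l) (Fin.natAdd s i)) = fun k => (d k).cs l i := by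
            funext k
            rw [Fin.append_right]
          rw [h3]
          exact h2 i
      have hκC : dm δ (gm fun k => (d k).κ l • (Tot ((d k).C₀ l) ((d k).C l) : Matrix (Ix r₀ n N) (Ix r₀ n N) ℂ)) = 0 := by
        refine Matrix.ext fun i j => ?_
        show δ (mk ℂ fun k => ((d k).κ l • Tot ((d k).C₀ l) ((d k).C l)) i j) = 0
        rcases i with i | ⟨i, a⟩ <;> rcases j with j | ⟨j, a'⟩
        · exact der_algD (fun k => (hd k).few₀ l i j) hap
        · have h3 : (fun k => ((d k).κ l • Tot ((d k).C₀ l) ((d k).C l)) (Sum.inl i) (Sum.inr (j, a'))) = fun _ => 0 := by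
            funext k
            show (d k).κ l * 0 = 0
            rw [mul_zero]
          rw [h3]
          exact hzero δ
        · have h3 : (fun k => ((d k).κ l • Tot ((d k).C₀ l) ((d k).C l)) (Sum.inr (i, a)) (Sum.inl j)) = fun _ => 0 := by
            funext k
            show (d k).κ l * 0 = 0
            rw [mul_zero]
          rw [h3]
          exact hzero δ
        · by_cases ha : a = a'
          · subst ha
            have h3 : (fun k => ((d k).κ l • Tot ((d k).C₀ l) ((d k).C l)) (Sum.inr (i, a)) (Sum.inr (j, a))) =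
                fun k => ((d k).κ l • (d k).C l a) i j := by
              funext k
              show (d k).κ l * blockDiagonal ((d k).C l) (i, a) (j, a) = _
              rw [blockDiagonal_apply, if_pos rfl]
              rfl
            rw [h3]
            have h5 : dm δ (gm fun k => (d k).κ l • (d k).C₁ l a) = 0 :=
              Matrix.ext fun i j => der_algD (fun k => (hd k).few₁ l a i j) hap
            have h6 : dm δ (gm fun k => (d k).C₂ l a) = 0 :=
              Matrix.ext fun i j => der_algD (fun k => (hd k).few₂ l a i j) hap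
            have h7 : (gm fun k => (d k).κ l • (d k).C l a) =
                gm (fun k => (d k).κ l • (d k).C₁ l a) * gm fun k => (d k).C₂ l a := by
              rw [← gm_mul]
              congr 1
              funext k
              show (d k).κ l • ((d k).C₁ l a * (d k).C₂ l a) = ((d k).κ l • (d k).C₁ l a) * (d k).C₂ l a
              rw [Matrix.smul_mul]
            have h8 : dm δ (gm fun k => (d k).κ l • (d k).C l a) = 0 := by
              rw [h7, dm_mul, h5, h6, Matrix.zero_mul, Matrix.mul_zero, add_zero]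
            exact congrFun (congrFun h8 i) j
          · have h3 : (fun k => ((d k).κ l • Tot ((d k).C₀ l) ((d k).C l)) (Sum.inr (i, a)) (Sum.inr (j, a'))) =
                fun _ => 0 := by
              funext k
              show (d k).κ l * blockDiagonal ((d k).C l) (i, a) (j, a') = _
              rw [blockDiagonal_apply, if_neg ha, mul_zero]
            rw [h3]
            exact hzero δ
      rw [gm_smul, dm_smul] at hκC
      have hκ : mk ℂ (fun k => (d k).κ l) ≠ 0 := mk_ne_zero.2 (Filter.Eventually.of_forall fun k => (hd k).κ_ne l)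
      refine ⟨-((mk ℂ fun k => (d k).κ l)⁻¹ * δ (mk ℂ fun k => (d k).κ l)), ?_⟩
      have h3 := congrArg (fun M => (mk ℂ fun k => (d k).κ l)⁻¹ • M) hκC
      simp only [smul_add, smul_smul, inv_mul_cancel₀ hκ, one_smul, smul_zero] at h3
      rw [neg_smul]
      exact eq_neg_of_add_eq_zero_right h3)
  have hkey : ∀ l, ∀ᶠ k in (hyperfilter ℕ : Filter ℕ), ∀ R : Submodule ℂ (Matrix (Ix r₀ n N) (Ix r₀ n N) ℂ),
      Rl ((d k).P l) R → finrank ℂ (blT r₀ (conjT ((d k).C l) ((d k).𝔤 l))) ≤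
          finrank ℂ (blT r₀ (conjT ((d k).C l) ((d k).𝔤 l)) ⊓ R : Submodule ℂ (Matrix (Ix r₀ n N) (Ix r₀ n N) ℂ)) + (ρ l + ℓ) := by
    intro l
    by_contra hnot
    have hnot' := Ultrafilter.eventually_not.2 hnot
    have hnot2 : ∀ᶠ k in (hyperfilter ℕ : Filter ℕ), ∃ R : Submodule ℂ (Matrix (Ix r₀ n N) (Ix r₀ n N) ℂ),
        Rl ((d k).P l) R ∧ ¬ finrank ℂ (blT r₀ (conjT ((d k).C l) ((d k).𝔤 l))) ≤
          finrank ℂ (blT r₀ (conjT ((d k).C l) ((d k).𝔤 l)) ⊓ R : Submodule ℂ (Matrix (Ix r₀ n N) (Ix r₀ n N) ℂ)) + (ρ l + ℓ) := by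
      filter_upwards [hnot'] with k hk
      push Not at hk
      obtain ⟨R, hR1, hR2⟩ := hk
      exact ⟨R, hR1, not_le.2 hR2⟩
    obtain ⟨k₀, hk₀⟩ := hnot2.exists
    set Q : ℕ → Prop := fun k => ∃ R : Submodule ℂ (Matrix (Ix r₀ n N) (Ix r₀ n N) ℂ),
        Rl ((d k).P l) R ∧ ¬ finrank ℂ (blT r₀ (conjT ((d k).C l) ((d k).𝔤 l))) ≤
          finrank ℂ (blT r₀ (conjT ((d k).C l) ((d k).𝔤 l)) ⊓ R : Submodule ℂ (Matrix (Ix r₀ n N) (Ix r₀ n N) ℂ)) + (ρ l + ℓ)
      with hQ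
    set g : ℕ → ℕ := fun k => if Q k then k else k₀ with hg
    have hgQ : ∀ k, Q (g k) := by
      intro k
      rw [hg]
      simp only
      split_ifs with h
      · exact h
      · exact hk₀
    have hgk : ∀ᶠ k in (hyperfilter ℕ : Filter ℕ), g k = k := by
      filter_upwards [hnot2] with k hk
      rw [hg]
      exact if_pos hk
    choose R hR1 hR2 using hgQ
    have hgm : (gm fun k => Tot ((d k).C₀ l) ((d k).C l) * Zm (z k l)) = gm fun k => (d (g k)).P l := by
      refine gm_ev.2 ?_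
      filter_upwards [hgk] with k hk
      rw [hk, hP]
    have h2 := hρ' l R (fun k => hRl.1 _ _ (hR1 k)) (fun δ => by
      rw [hgm]
      exact hRl.2 (fun k => (d (g k)).P l) R
        (fun k => ((Matrix.isUnit_iff_isUnit_det _).1 ((hd (g k)).det l)).ne_zero) hR1 δ)
    obtain ⟨k, hk1, hk2⟩ := (h2.and hgk).exists
    have h3 := cj_dim (hdet k l).1 hk1
    have hCj : ∀ j, IsUnit ((d k).C l j).det := fun j => (Matrix.isUnit_iff_isUnit_det _).1
      ((Tot_unit ((Matrix.isUnit_iff_isUnit_det _).2 (hdet k l).1)).2 j)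
    rw [blT_conj hCj] at h3
    have h4 := hR2 k
    rw [hk2] at h4
    exact h4 h3
  exact ⟨ρ, hρ, Filter.eventually_all.2 hkey⟩

/-- **The sum of the codimensions of separated tuples near degenerate central fibres is bounded.** -/
theorem uniformZW (n N q r₀ s ℓ e L : ℕ)
    {Rl : Matrix (Ix r₀ n N) (Ix r₀ n N) ℂ → Submodule ℂ (Matrix (Ix r₀ n N) (Ix r₀ n N) ℂ) → Prop} (hRl : Compat Rl) :
    ∃ E : ℕ, ∀ (x : DatX L n N) (y : DatZ L n N r₀ s ℓ), x.OK q E → y.OK e → (∀ l j, y.z l j = x.z l j) →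
      (∀ l, y.𝔤 l = x.𝔤 l) → ∃ ρ : Fin L → ℕ, ∑ l, ρ l ≤ s ∧
      ∀ l, ∀ R : Submodule ℂ (Matrix (Ix r₀ n N) (Ix r₀ n N) ℂ), Rl (y.P l) R →
        finrank ℂ (blT r₀ (conjT (y.C l) (y.𝔤 l))) ≤
          finrank ℂ (blT r₀ (conjT (y.C l) (y.𝔤 l)) ⊓ R : Submodule ℂ (Matrix (Ix r₀ n N) (Ix r₀ n N) ℂ)) + (ρ l + ℓ) := by
  classical
  by_contra hcon
  have h1 : ∀ k : ℕ, ∃ (x : DatX L n N) (y : DatZ L n N r₀ s ℓ), x.OK q (k + 1) ∧ y.OK e ∧ (∀ l j, y.z l j = x.z l j) ∧
      (∀ l, y.𝔤 l = x.𝔤 l) ∧ ∀ ρ : Fin L → ℕ, ∑ l, ρ l ≤ s → ¬ ∀ l, ∀ R : Submodule ℂ (Matrix (Ix r₀ n N) (Ix r₀ n N) ℂ),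
        Rl (y.P l) R → finrank ℂ (blT r₀ (conjT (y.C l) (y.𝔤 l))) ≤
          finrank ℂ (blT r₀ (conjT (y.C l) (y.𝔤 l)) ⊓ R : Submodule ℂ (Matrix (Ix r₀ n N) (Ix r₀ n N) ℂ)) + (ρ l + ℓ) := by
    intro k
    by_contra h2
    apply hcon
    refine ⟨k + 1, fun x y hx hy hz hg => ?_⟩
    by_contra h3
    apply h2
    refine ⟨x, y, hx, hy, hz, hg, fun ρ hρ h4 => ?_⟩
    exact h3 ⟨ρ, hρ, h4⟩
  choose x y hx hy hz hg hbad using h1
  obtain ⟨ρ, hρ, hk⟩ := absZ hRl y hy (fun l G hG => by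
    obtain ⟨δ, h1, h2⟩ := derW x hx l G (fun k => by
      rw [← hg]
      exact hG k)
    refine ⟨δ, fun j => ?_, fun l' hl' j => ?_⟩
    · have h4 : (fun k => (y k).z l j) = fun k => (x k).z l j := funext fun k => hz k l j
      have h5 : (fun k => G k j * (y k).z l j) = fun k => G k j * (x k).z l j := funext fun k => by rw [hz]
      rw [h4, h5]
      exact h1 j
    · have h4 : (fun k => (y k).z l' j) = fun k => (x k).z l' j := funext fun k => hz k l' j
      rw [h4]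
      exact h2 l' hl' j)
  obtain ⟨k, hk⟩ := hk.exists
  exact hbad k ρ hρ hk

end Pool.Agent.H885.ZW
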