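import Pool.Agent.H885.BaseF
import Pool.Agent.H885.SymLift3
import Pool.Agent.H885.UnifQ
import Pool.Agent.H885.FewR

/-!
# Values of matrices of power series over number fields and the restriction of scalars
-/

set_option autoImplicit false
set_option linter.unusedSectionVars false
set_option linter.unusedVariables false

open PowerSeries NumberField Module

namespace Pool.Agent.H885

open Pool.Agent.Y113
open Pool.Agent.Y118.HV (Hv hh)
open Pool.Agent.Y120.GH (L1 cx Cw norm_coeff_cx)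
open Pool.Agent.Y118.UL (mk mk_eq mk_eq_zero mk_ne_zero mk_surj ev_ge eval_mk rep qc qc_mk U)

variable {m n N : ℕ} {F : Type} [Field F] [NumberField F]

/-- the value of a matrix of power series at `1 / b` -/
noncomputable def valF (φ : F →+* ℂ) (Z : Matrix (Fin n) (Fin n) F⟦X⟧) (b : ℕ) : Matrix (Fin n) (Fin n) ℂ :=
  Matrix.of fun i j => ∑' k, φ (coeff k (Z i j)) * (1 / (b : ℂ)) ^ k

/-- the contraction with the basis -/
noncomputable def omM (n : ℕ) (φ : F →+* ℂ) : Matrix (Fin n) (Fin (n * dg F)) ℂ := fun a i =>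
  if a = (finProdFinEquiv.symm i).1 then Om F φ (finProdFinEquiv.symm i).2 else 0

theorem omM_mul {κ : Type} (φ : F →+* ℂ) (M : Matrix (Fin (n * dg F)) κ ℂ) (a : Fin n) (q : κ) :
    (omM n φ * M) a q = ∑ υ, Om F φ υ * M (finProdFinEquiv (a, υ)) q := by
  classical
  rw [Matrix.mul_apply]
  have h1 : ∀ i : Fin (n * dg F), omM n φ a i * M i q = (fun p : Fin n × Fin (dg F) =>
      (if a = p.1 then Om F φ p.2 else 0) * M (finProdFinEquiv p) q) (finProdFinEquiv.symm i) := by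
    intro i
    simp only [Equiv.apply_symm_apply]
    rfl
  rw [Finset.sum_congr rfl fun i _ => h1 i, sum_pq (F := F) (fun p : Fin n × Fin (dg F) =>
      (if a = p.1 then Om F φ p.2 else 0) * M (finProdFinEquiv p) q)]
  rw [Finset.sum_eq_single a]
  · simp only [if_true]
  · intro c _ hc
    refine Finset.sum_eq_zero fun υ _ => ?_
    simp only [if_neg (Ne.symm hc), zero_mul]
  · intro h
    exact absurd (Finset.mem_univ _) h

theorem mul_omM {κ : Type} (φ : F →+* ℂ) (M : Matrix κ (Fin n) ℂ) (p : κ) (c : Fin n) (τ : Fin (dg F)) :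
    (M * omM n φ) p (finProdFinEquiv (c, τ)) = M p c * Om F φ τ := by
  classical
  rw [Matrix.mul_apply, Finset.sum_eq_single c]
  · unfold omM
    rw [Equiv.symm_apply_apply, if_pos rfl]
  · intro d _ hd
    unfold omM
    rw [Equiv.symm_apply_apply, if_neg hd, mul_zero]
  · intro h
    exact absurd (Finset.mem_univ _) h

/-- the coefficients -/
theorem om_coeff (φ : F →+* ℂ) (Z : Matrix (Fin n) (Fin n) F⟦X⟧) (k : ℕ) (a : Fin n) (q : Fin (n * dg F)) :
    ∑ p, omM n φ a p * ((coeff k (rsM Z p q) : ℚ) : ℂ) = ∑ c, φ (coeff k (Z a c)) * omM n φ c q := by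
  classical
  obtain ⟨⟨c, τ⟩, rfl⟩ := finProdFinEquiv.surjective q
  have h1 := omM_mul φ (Matrix.of fun p q => ((coeff k (rsM Z p q) : ℚ) : ℂ)) a (finProdFinEquiv (c, τ))
  rw [Matrix.mul_apply] at h1
  have h2 := mul_omM φ (Matrix.of fun a c => φ (coeff k (Z a c))) a c τ
  rw [Matrix.mul_apply] at h2
  refine h1.trans (Eq.trans ?_ h2.symm)
  have h3 := Om_MF F φ (coeff k (Z a c)) τ
  rw [Matrix.of_apply, ← h3]
  refine Finset.sum_congr rfl fun υ _ => ?_
  rw [Matrix.of_apply]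
  unfold rsM
  rw [Equiv.symm_apply_apply, Equiv.symm_apply_apply, coeff_RS]

/-- the power series -/
theorem om_ps (φ : F →+* ℂ) (Z : Matrix (Fin n) (Fin n) F⟦X⟧) : (omM n φ).map (PowerSeries.C (R := ℂ)) *
    (rsM Z).map (PowerSeries.map (algebraMap ℚ ℂ)) = Z.map (PowerSeries.map φ) * (omM n φ).map (PowerSeries.C (R := ℂ)) := by
  ext a q k
  rw [Matrix.mul_apply, Matrix.mul_apply, map_sum, map_sum]
  refine Eq.trans ?_ ((om_coeff φ Z k a q).trans ?_)
  · refine Finset.sum_congr rfl fun p _ => ?_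
    rw [Matrix.map_apply, Matrix.map_apply, PowerSeries.coeff_C_mul, PowerSeries.coeff_map]
    rfl
  · refine Finset.sum_congr rfl fun c _ => ?_
    rw [Matrix.map_apply, Matrix.map_apply, PowerSeries.coeff_mul_C, PowerSeries.coeff_map]

theorem summable_F {C : ℝ} {b : ℕ} (hC : 0 ≤ C) (hb : C < b) {f : F⟦X⟧} (hf : ∀ k, house (coeff k f) ≤ C ^ (k + 1)) (φ : F →+* ℂ) :
    Summable fun k => φ (coeff k f) * (1 / (b : ℂ)) ^ k := by
  have hb0 : (0 : ℝ) < b := lt_of_le_of_lt hC hb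
  have h1 : C / b < 1 := (div_lt_one hb0).2 hb
  refine Summable.of_norm_bounded ((summable_geometric_of_lt_one (by positivity) h1).mul_left C) fun k => ?_
  rw [norm_mul, norm_pow, norm_div, norm_one, Complex.norm_natCast]
  calc ‖φ (coeff k f)‖ * (1 / (b : ℝ)) ^ k ≤ C ^ (k + 1) * (1 / (b : ℝ)) ^ k :=
        mul_le_mul_of_nonneg_right ((norm_embedding_le_house _ _).trans (hf k)) (by positivity)
    _ = C * (C / b) ^ k := by
      rw [pow_succ, div_pow, div_pow, one_pow]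
      ring

theorem hasSum_rs {C : ℝ} {b : ℕ} (hC : 0 ≤ C) (hb : C < b) {Z : Matrix (Fin n) (Fin n) F⟦X⟧}
    (h : ∀ a b k, house (coeff k (Z a b)) ≤ C ^ (k + 1)) (i j : Fin (n * dg F)) :
    HasSum (fun k => ((coeff k (rsM Z i j) : ℚ) : ℂ) * (1 / (b : ℂ)) ^ k) (Hv (rsM Z) b i j) := by
  obtain ⟨c, hc1, hc⟩ := MF_bound F
  have hb0 : (0 : ℝ) < b := lt_of_le_of_lt hC hb
  have h1 : C / b < 1 := (div_lt_one hb0).2 hb
  have h2 : Summable fun k => ((coeff k (rsM Z i j) : ℚ) : ℝ) * (1 / (b : ℝ)) ^ k := by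
    refine Summable.of_norm_bounded ((summable_geometric_of_lt_one (by positivity) h1).mul_left (c * C)) fun k => ?_
    rw [norm_mul, norm_pow, norm_div, norm_one, Real.norm_eq_abs, Real.norm_of_nonneg hb0.le]
    have h3 : |((coeff k (rsM Z i j) : ℚ) : ℝ)| ≤ c * C ^ (k + 1) := by
      unfold rsM
      rw [coeff_RS]
      exact (hc _ _ _).trans (mul_le_mul_of_nonneg_left (h _ _ _) (by linarith))
    calc |((coeff k (rsM Z i j) : ℚ) : ℝ)| * (1 / (b : ℝ)) ^ k ≤ c * C ^ (k + 1) * (1 / (b : ℝ)) ^ k :=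
          mul_le_mul_of_nonneg_right h3 (by positivity)
      _ = c * C * (C / b) ^ k := by
        rw [pow_succ, div_pow, div_pow, one_pow]
        ring
  have h3 := Complex.hasSum_ofReal.2 h2.hasSum
  have h4 : Hv (rsM Z) b i j = (((∑' k, ((coeff k (rsM Z i j) : ℚ) : ℝ) * (1 / (b : ℝ)) ^ k : ℝ)) : ℂ) := rfl
  have h5 : (fun k => ((coeff k (rsM Z i j) : ℚ) : ℂ) * (1 / (b : ℂ)) ^ k) =
      fun k => ((((coeff k (rsM Z i j) : ℚ) : ℝ) * (1 / (b : ℝ)) ^ k : ℝ) : ℂ) := by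
    funext k
    push_cast
    rfl
  rw [h4, h5]
  exact h3

/-- the values -/
theorem om_val {C : ℝ} {b : ℕ} (hC : 0 ≤ C) (hb : C < b) {Z : Matrix (Fin n) (Fin n) F⟦X⟧}
    (h : ∀ a b k, house (coeff k (Z a b)) ≤ C ^ (k + 1)) (φ : F →+* ℂ) :
    omM n φ * Hv (rsM Z) b = valF φ Z b * omM n φ := by
  ext1 a q
  rw [Matrix.mul_apply, Matrix.mul_apply]
  have h1 : HasSum (fun k => ∑ p, omM n φ a p * (((coeff k (rsM Z p q) : ℚ) : ℂ) * (1 / (b : ℂ)) ^ k))
      (∑ p, omM n φ a p * Hv (rsM Z) b p q) := hasSum_sum fun p _ => (hasSum_rs hC hb h p q).mul_left _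
  have h2 : HasSum (fun k => ∑ c, (φ (coeff k (Z a c)) * (1 / (b : ℂ)) ^ k) * omM n φ c q)
      (∑ c, valF φ Z b a c * omM n φ c q) := by
    refine hasSum_sum fun c _ => ?_
    exact (summable_F hC hb (h a c) φ).hasSum.mul_right _
  have h3 : (fun k => ∑ p, omM n φ a p * (((coeff k (rsM Z p q) : ℚ) : ℂ) * (1 / (b : ℂ)) ^ k)) =
      fun k => ∑ c, (φ (coeff k (Z a c)) * (1 / (b : ℂ)) ^ k) * omM n φ c q := by
    funext k
    have h4 := om_coeff φ Z k a q
    calc ∑ p, omM n φ a p * (((coeff k (rsM Z p q) : ℚ) : ℂ) * (1 / (b : ℂ)) ^ k) =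
        (∑ p, omM n φ a p * ((coeff k (rsM Z p q) : ℚ) : ℂ)) * (1 / (b : ℂ)) ^ k := by
          rw [Finset.sum_mul]
          exact Finset.sum_congr rfl fun p _ => by ring
      _ = (∑ c, φ (coeff k (Z a c)) * omM n φ c q) * (1 / (b : ℂ)) ^ k := by rw [h4]
      _ = _ := by
          rw [Finset.sum_mul]
          exact Finset.sum_congr rfl fun p _ => by ring
  rw [h3] at h1
  exact h1.unique h2

/-- the coordinates of `1` -/
noncomputable def one₁ (F : Type) [Field F] [NumberField F] (τ : Fin (dg F)) : ℚ := (BB F).repr 1 τ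

theorem one₁_sum (φ : F →+* ℂ) : ∑ τ, ((one₁ F τ : ℚ) : ℂ) * Om F φ τ = 1 := by
  have h1 : ∑ τ, (one₁ F τ) • BB F τ = 1 := (BB F).sum_repr 1
  have h2 := congrArg φ h1
  rw [map_sum, map_one] at h2
  refine Eq.trans (Finset.sum_congr rfl fun i _ => ?_) h2
  rw [Rat.smul_def, map_mul, map_ratCast]
  rfl

/-- a formula for the entries -/
theorem entry_eq {φ : F →+* ℂ} {V : Matrix (Fin n) (Fin n) ℂ} {M : Matrix (Fin (n * dg F)) (Fin (n * dg F)) ℂ}
    (h : omM n φ * M = V * omM n φ) (a c : Fin n) : V a c =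
      ∑ τ, ∑ υ, ((one₁ F τ : ℚ) : ℂ) * (Om F φ υ * M (finProdFinEquiv (a, υ)) (finProdFinEquiv (c, τ))) := by
  have h1 : ∀ τ, ∑ υ, ((one₁ F τ : ℚ) : ℂ) * (Om F φ υ * M (finProdFinEquiv (a, υ)) (finProdFinEquiv (c, τ))) =
      V a c * (((one₁ F τ : ℚ) : ℂ) * Om F φ τ) := by
    intro τ
    rw [← Finset.mul_sum, ← omM_mul, h, mul_omM]
    ring
  rw [Finset.sum_congr rfl fun τ _ => h1 τ, ← Finset.mul_sum, one₁_sum, mul_one]

/-- the elements of the basis are algebraic -/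
theorem om_alg (F : Type) [Field F] [NumberField F] : ∃ e, ∀ (φ : F →+* ℂ) (υ : Fin (dg F)), AlgD e (fun i : Fin 0 => i.elim0) (Om F φ υ) := by
  classical
  have h1 : ∀ (φ : F →+* ℂ) (υ : Fin (dg F)), ∃ e, AlgD e (fun i : Fin 0 => i.elim0) (Om F φ υ) := by
    intro φ υ
    refine algD_of_alg ?_
    have h2 : IsAlgebraic ℚ (BB F υ) := Algebra.IsAlgebraic.isAlgebraic _
    have h3 : IsAlgebraic ℚ (φ (BB F υ)) := h2.algHom φ.toRatAlgHom
    exact h3.extendScalars (algebraMap ℚ _).injective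
  choose e he using h1
  refine ⟨∑ φ, ∑ υ, e φ υ, fun φ υ => (he φ υ).mono ?_⟩
  have h2 : e φ υ ≤ ∑ υ, e φ υ := Finset.single_le_sum (f := fun υ => e φ υ) (fun _ _ => Nat.zero_le _) (Finset.mem_univ υ)
  have h3 : ∑ υ, e φ υ ≤ ∑ φ, ∑ υ, e φ υ :=
    Finset.single_le_sum (f := fun φ => ∑ υ, e φ υ) (fun _ _ => Nat.zero_le _) (Finset.mem_univ φ)
  omega

/-- the derivative of the values -/
theorem der_entry {δ : Derivation (U ℚ) (U ℂ) (U ℂ)} {φ : ℕ → (F →+* ℂ)} {V : ℕ → Matrix (Fin n) (Fin n) ℂ}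
    {M M' : ℕ → Matrix (Fin (n * dg F)) (Fin (n * dg F)) ℂ} {X : ℕ → Matrix (Fin n) (Fin n) ℂ}
    (h : ∀ k, omM n (φ k) * M k = V k * omM n (φ k)) (h' : ∀ k, omM n (φ k) * M' k = X k * V k * omM n (φ k))
    (hδ : ∀ p q, δ (mk ℂ fun k => M k p q) = mk ℂ fun k => M' k p q) (a c : Fin n) :
    δ (mk ℂ fun k => V k a c) = mk ℂ fun k => (X k * V k) a c := by
  classical
  obtain ⟨e, he⟩ := om_alg F
  have h0 : ∀ υ, δ (mk ℂ fun k => Om F (φ k) υ) = 0 := fun υ => der_algD (fun k => he (φ k) υ) fun i => i.elim0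
  have h1 : ∀ (q : ℚ), (mk ℂ fun _ : ℕ => (q : ℂ)) = algebraMap (U ℚ) (U ℂ) (mk ℚ fun _ => q) := by
    intro q
    rw [Pool.Agent.Y118.UL.algebraMap_eq, qc_mk]
  have hmk : ∀ (W : ℕ → Matrix (Fin (n * dg F)) (Fin (n * dg F)) ℂ), (mk ℂ fun k => ∑ τ, ∑ υ, ((one₁ F τ : ℚ) : ℂ) *
      (Om F (φ k) υ * W k (finProdFinEquiv (a, υ)) (finProdFinEquiv (c, τ)))) =
      ∑ τ, ∑ υ, (Pool.Agent.Y118.UL.mk ℂ fun _ : ℕ => ((one₁ F τ : ℚ) : ℂ)) * ((mk ℂ fun k => Om F (φ k) υ) *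
        mk ℂ fun k => W k (finProdFinEquiv (a, υ)) (finProdFinEquiv (c, τ))) := by
    intro W
    have h2 : (fun k => ∑ τ, ∑ υ, ((one₁ F τ : ℚ) : ℂ) *
        (Om F (φ k) υ * W k (finProdFinEquiv (a, υ)) (finProdFinEquiv (c, τ)))) =
        ∑ τ, ∑ υ, (fun _ : ℕ => ((one₁ F τ : ℚ) : ℂ)) * ((fun k => Om F (φ k) υ) *
          fun k => W k (finProdFinEquiv (a, υ)) (finProdFinEquiv (c, τ))) := by
      funext k
      rw [Finset.sum_apply]
      refine Finset.sum_congr rfl fun τ _ => ?_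
      rw [Finset.sum_apply]
      rfl
    rw [h2, map_sum]
    refine Finset.sum_congr rfl fun τ _ => ?_
    rw [map_sum]
    refine Finset.sum_congr rfl fun υ _ => ?_
    rw [map_mul, map_mul]
  have h2 : (fun k => V k a c) = fun k => ∑ τ, ∑ υ, ((one₁ F τ : ℚ) : ℂ) *
      (Om F (φ k) υ * M k (finProdFinEquiv (a, υ)) (finProdFinEquiv (c, τ))) := funext fun k => entry_eq (h k) a c
  have h3 : (fun k => (X k * V k) a c) = fun k => ∑ τ, ∑ υ, ((one₁ F τ : ℚ) : ℂ) *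
      (Om F (φ k) υ * M' k (finProdFinEquiv (a, υ)) (finProdFinEquiv (c, τ))) := funext fun k => entry_eq (h' k) a c
  rw [h2, h3, hmk, hmk, map_sum]
  refine Finset.sum_congr rfl fun τ _ => ?_
  rw [map_sum]
  refine Finset.sum_congr rfl fun υ _ => ?_
  rw [δ.leibniz, δ.leibniz, h0, h1, δ.map_algebraMap, hδ]
  simp only [smul_eq_mul, mul_zero, add_zero]

end Pool.Agent.H885
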