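import Pool.Graph.R_pool_sql_team_seeded_620a6dc7.Helper880_MX.Jnt
import Pool.Agent.H885.UnifS

/-!
# Codimensions from derivations of ultraproducts, several tuples
-/

set_option autoImplicit false
set_option linter.unusedSectionVars false
set_option linter.unusedVariables false

open Matrix Module Filter

namespace Pool.Agent.H885

open Pool.Agent.Helper880_R3 hiding core final
open Pool.Agent.Helper880_LF.NB hiding alg_core nrm
open Pool.Agent.Y118.UL (mk mk_eq mk_eq_zero mk_ne_zero mk_surj ev_ge eval_mk rep qc qc_mk algebraMap_eq U)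
open Pool.Agent.Helper880_ZP (Us mem_Us mem_Us_of Us_mono Us_inf li_iff finrank_le gm_inv cjE cjE_apply cj_dim Compat RelA
  compat_A Lie' DefOver K₀ upS ppS Dg cjS mem_cjS)
open Pool.Agent.Helper880_MX (TotL)

section dims
variable {B : Type} [Fintype B] [DecidableEq B] {S : ℕ → Submodule ℂ (Matrix B B ℂ)}

/-- dimensions of ultraproducts -/
theorem finrank_ge : ∀ᶠ k in (hyperfilter ℕ : Filter ℕ), finrank ℂ (S k) ≤ finrank (U ℂ) (Us S) := by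
  classical
  by_contra hcon
  rw [← Ultrafilter.eventually_not] at hcon
  set D := finrank (U ℂ) (Us S) + 1 with hD
  have h1 : ∀ k, ∃ v : Fin D → Matrix B B ℂ, (∀ i, v i ∈ S k) ∧ (¬ finrank ℂ (S k) ≤ finrank (U ℂ) (Us S) →
      LinearIndependent ℂ v) := by
    intro k
    by_cases hk : finrank ℂ (S k) ≤ finrank (U ℂ) (Us S)
    · exact ⟨fun _ => 0, fun _ => (S k).zero_mem, fun h => absurd hk h⟩
    · obtain ⟨v, hv⟩ := exists_linearIndependent_of_le_finrank (R := ℂ) (M := S k) (n := D) (by omega)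
      exact ⟨fun i => v i, fun i => (v i).2, fun _ => hv.map' (S k).subtype (Submodule.ker_subtype _)⟩
  choose v hv1 hv2 using h1
  have h2 : LinearIndependent (U ℂ) (fun i : Fin D => gm fun k => v k i) := by
    refine li_iff.2 ?_
    filter_upwards [hcon] with k hk
    exact hv2 k hk
  have h3 : LinearIndependent (U ℂ) (fun i : Fin D => (⟨gm fun k => v k i, mem_Us_of fun k => hv1 k i⟩ : Us S)) := by
    have h4 : LinearIndependent (U ℂ) ((Us S).subtype ∘ fun i : Fin D => (⟨gm fun k => v k i, mem_Us_of fun k => hv1 k i⟩ : Us S)) := h2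
    exact LinearIndependent.of_comp _ h4
  have h4 := h3.fintype_card_le_finrank
  rw [Fintype.card_fin] at h4
  omega

end dims

variable {n N r₀ L s ℓ : ℕ}

/-- `C 𝔤 C⁻¹` for tuples -/
def conjT (C : Fin N → Matrix (Fin n) (Fin n) ℂ) (𝔤 : Submodule ℂ (Fin N → Matrix (Fin n) (Fin n) ℂ)) :
    Submodule ℂ (Fin N → Matrix (Fin n) (Fin n) ℂ) where
  carrier := {Y | ∃ X ∈ 𝔤, ∀ j, Y j = C j * X j * (C j)⁻¹}
  zero_mem' := ⟨0, 𝔤.zero_mem, fun j => by rw [Pi.zero_apply, Matrix.mul_zero, Matrix.zero_mul]⟩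
  add_mem' := by
    rintro Y Y' ⟨X, hX, h⟩ ⟨X', hX', h'⟩
    refine ⟨X + X', 𝔤.add_mem hX hX', fun j => ?_⟩
    rw [Pi.add_apply, Pi.add_apply, Matrix.mul_add, Matrix.add_mul, h, h']
  smul_mem' := by
    rintro c Y ⟨X, hX, h⟩
    refine ⟨c • X, 𝔤.smul_mem c hX, fun j => ?_⟩
    rw [Pi.smul_apply, Pi.smul_apply, Matrix.mul_smul, Matrix.smul_mul, h]

/-- the block matrices -/
def blT (r₀ : ℕ) (𝔤 : Submodule ℂ (Fin N → Matrix (Fin n) (Fin n) ℂ)) : Submodule ℂ (Matrix (Ix r₀ n N) (Ix r₀ n N) ℂ) :=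
  𝔤.map (TotL r₀ n N)

theorem mem_blT {𝔤 : Submodule ℂ (Fin N → Matrix (Fin n) (Fin n) ℂ)} {Y : Matrix (Ix r₀ n N) (Ix r₀ n N) ℂ} :
    Y ∈ blT r₀ 𝔤 ↔ ∃ X ∈ 𝔤, Tot 0 X = Y := Iff.rfl

/-- conjugation of block matrices -/
theorem blT_conj {C₀ : Matrix (Fin r₀) (Fin r₀) ℂ} {C : Fin N → Matrix (Fin n) (Fin n) ℂ} (hC : ∀ j, IsUnit (C j).det)
    (hu : IsUnit (Tot C₀ C).det) (𝔤 : Submodule ℂ (Fin N → Matrix (Fin n) (Fin n) ℂ)) :
    (blT r₀ 𝔤).map (cjE hu).toLinearMap = blT r₀ (conjT C 𝔤) := by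
  have key : ∀ X : Fin N → Matrix (Fin n) (Fin n) ℂ, cjE hu (Tot 0 X) = Tot 0 fun j => C j * X j * (C j)⁻¹ := by
    intro X
    rw [cjE_apply]
    have h1 : Tot C₀ C * Tot 0 X = (Tot 0 fun j => C j * X j * (C j)⁻¹) * Tot C₀ C := by
      rw [Tot_mul, Tot_mul, Matrix.mul_zero, Matrix.zero_mul]
      congr 1
      funext j
      rw [Matrix.nonsing_inv_mul_cancel_right _ _ (hC j)]
    rw [h1, Matrix.mul_nonsing_inv_cancel_right _ _ hu]
  ext Y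
  constructor
  · rintro ⟨_, ⟨X, hX, rfl⟩, rfl⟩
    exact ⟨_, ⟨X, hX, fun j => rfl⟩, (key X).symm⟩
  · rintro ⟨Y, ⟨X, hX, hXY⟩, rfl⟩
    refine ⟨_, ⟨X, hX, rfl⟩, ?_⟩
    refine (key X).trans ?_
    have h1 : (fun j => C j * X j * (C j)⁻¹) = Y := funext fun j => (hXY j).symm
    rw [h1]
    rfl

section theta
variable {k Ω : Type} [Field k] [Field Ω] [Algebra k Ω] {B : Type} [Fintype B] [DecidableEq B]

/-- `δ ↦ δ(P) P⁻¹` -/
noncomputable def theta (P : Matrix B B Ω) : Derivation k Ω Ω →ₗ[Ω] Matrix B B Ω where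
  toFun := fun δ => dm δ P * P⁻¹
  map_add' := fun δ δ' => by
    rw [← Matrix.add_mul]
    rfl
  map_smul' := fun c δ => by
    rw [RingHom.id_apply, ← Matrix.smul_mul]
    rfl

theorem theta_apply (P : Matrix B B Ω) (δ : Derivation k Ω Ω) : theta P δ = dm δ P * P⁻¹ := rfl

end theta

/-- **the codimensions for several tuples in the ultraproduct** -/
theorem coreZ {z : ℕ → Fin L → Fin N → Matrix (Fin n) (Fin n) ℂ} (hz : ∀ k l j, (z k l j).det ≠ 0)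
    {𝔤 : ℕ → Fin L → Submodule ℂ (Fin N → Matrix (Fin n) (Fin n) ℂ)}
    (hder : ∀ l, ∀ F : ℕ → Fin N → Matrix (Fin n) (Fin n) ℂ, (∀ k, F k ∈ 𝔤 k l) →
      ∃ δ : Derivation (U ℚ) (U ℂ) (U ℂ), (∀ j, dm δ (gm fun k => z k l j) = gm fun k => F k j * z k l j) ∧
      ∀ l', l' ≠ l → ∀ j, dm δ (gm fun k => z k l' j) = 0)
    {C : ℕ → Fin L → Matrix (Ix r₀ n N) (Ix r₀ n N) ℂ} (hC : ∀ k l, IsUnit (C k l).det)
    (β : Fin s → U ℂ) (γ : Fin L → Fin ℓ → U ℂ)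
    (hconst : ∀ l, ∀ δ : Derivation (U ℚ) (U ℂ) (U ℂ), (∀ i, δ (β i) = 0) → (∀ i, δ (γ l i) = 0) →
      ∃ c : U ℂ, dm δ (gm fun k => C k l) = c • (gm fun k => C k l)) :
    ∃ ρ : Fin L → ℕ, ∑ l, ρ l ≤ s ∧ ∀ l, ∀ R : ℕ → Submodule ℂ (Matrix (Ix r₀ n N) (Ix r₀ n N) ℂ), (∀ k, 1 ∈ R k) →
      (∀ δ : Derivation (U ℚ) (U ℂ) (U ℂ), dm δ (gm fun k => C k l * Zm (z k l)) * (gm fun k => C k l * Zm (z k l))⁻¹ ∈ Us R) →
      ∀ᶠ k in (hyperfilter ℕ : Filter ℕ), finrank ℂ (blT r₀ (𝔤 k l)) ≤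
        finrank ℂ (blT r₀ (𝔤 k l) ⊓ (R k).comap (cjE (hC k l)).toLinearMap :
          Submodule ℂ (Matrix (Ix r₀ n N) (Ix r₀ n N) ℂ)) + (ρ l + ℓ) := by
  classical
  set x : Fin L → Fin N → Matrix (Fin n) (Fin n) (U ℂ) := fun l j => gm fun k => z k l j with hx
  have hZu : ∀ l, IsUnit (Zm (r₀ := r₀) (x l)).det := by
    intro l
    rw [Zm_det]
    exact isUnit_iff_ne_zero.2 (Finset.prod_ne_zero_iff.2 fun j _ => (gm_unit fun k => hz k l j).ne_zero)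
  let 𝔊 : Fin L → ℕ → Submodule ℂ (Matrix (Ix r₀ n N) (Ix r₀ n N) ℂ) := fun l k => blT r₀ (𝔤 k l)
  -- the value of `theta`
  have hth : ∀ (l : Fin L) (δ : Derivation (U ℚ) (U ℂ) (U ℂ)) (F : ℕ → Fin N → Matrix (Fin n) (Fin n) ℂ),
      (∀ j, dm δ (gm fun k => z k l j) = gm fun k => F k j * z k l j) →
      theta (Zm (r₀ := r₀) (x l)) δ = gm fun k => Tot 0 (F k) := by
    intro l δ F hF
    rw [theta_apply]
    have h1 : dm δ (Zm (r₀ := r₀) (x l)) = (gm fun k => (Tot 0 (F k) : Matrix (Ix r₀ n N) (Ix r₀ n N) ℂ)) * Zm (x l) := by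
      rw [dm_Zm, hx]
      simp only
      rw [← gm_Zm (r₀ := r₀) (fun k => z k l), ← gm_mul]
      have h2 : (fun k => (Tot 0 (F k) : Matrix (Ix r₀ n N) (Ix r₀ n N) ℂ) * Zm (z k l)) =
          fun k => fromBlocks 0 0 0 (blockDiagonal fun j => F k j * z k l j) := by
        funext k
        unfold Tot Zm
        rw [fromBlocks_multiply, ← blockDiagonal_mul]
        simp
      rw [h2, gm_fb (fun _ => 0) fun k j => F k j * z k l j]
      have h3 : (gm fun _ : ℕ => (0 : Matrix (Fin r₀) (Fin r₀) ℂ)) = 0 := gm_zero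
      rw [h3]
      congr 2
      funext j
      exact hF j
    rw [h1, Matrix.mul_nonsing_inv_cancel_right _ _ (hZu l)]
  let 𝒲 : Submodule (U ℂ) (Derivation (U ℚ) (U ℂ) (U ℂ)) := ⨅ l, (Us (𝔊 l)).comap (theta (Zm (r₀ := r₀) (x l)))
  have h𝒲 : ∀ δ, δ ∈ 𝒲 ↔ ∀ l, theta (Zm (r₀ := r₀) (x l)) δ ∈ Us (𝔊 l) := fun δ => Submodule.mem_iInf _
  let ev : Fin L → 𝒲 →ₗ[U ℂ] Matrix (Ix r₀ n N) (Ix r₀ n N) (U ℂ) := fun l => (theta (Zm (r₀ := r₀) (x l))).comp 𝒲.subtype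
  let Φ : 𝒲 →ₗ[U ℂ] (Fin s → U ℂ) := (evD (k := U ℚ) β).comp 𝒲.subtype
  let Ψ : Fin L → 𝒲 →ₗ[U ℂ] (Fin ℓ → U ℂ) := fun l => (evD (k := U ℚ) (γ l)).comp 𝒲.subtype
  have hdim : ∀ l, finrank (U ℂ) (Us (𝔊 l)) ≤
      finrank (U ℂ) ((⨅ l' : {l' : Fin L // l' ≠ l}, LinearMap.ker (ev l'.1)).map (ev l)) := by
    intro l
    refine Submodule.finrank_mono ?_
    rintro _ ⟨G, rfl, hG⟩
    choose F hF1 hF2 using hG
    obtain ⟨δ, hδ1, hδ2⟩ := hder l F hF1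
    have h0 : ∀ l', l' ≠ l → theta (Zm (r₀ := r₀) (x l')) δ = 0 := by
      intro l' hl'
      rw [hth l' δ (fun _ => 0) (fun j => by
        rw [hδ2 l' hl' j]
        have : (fun k => (0 : Fin N → Matrix (Fin n) (Fin n) ℂ) j * z k l' j) = fun _ => 0 := by
          funext k
          rw [Pi.zero_apply, Matrix.zero_mul]
        rw [this, gm_zero])]
      have h3 : (fun _ : ℕ => (Tot 0 (0 : Fin N → Matrix (Fin n) (Fin n) ℂ) : Matrix (Ix r₀ n N) (Ix r₀ n N) ℂ)) = fun _ => 0 := by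
        funext k
        exact Pool.Agent.Helper880_EX.Tot_zero
      rw [h3, gm_zero]
    have h1 : theta (Zm (r₀ := r₀) (x l)) δ = gm G := by
      rw [hth l δ F hδ1]
      congr 1
      funext k
      exact hF2 k
    have hδ : δ ∈ 𝒲 := by
      rw [h𝒲]
      intro l'
      by_cases hl' : l' = l
      · subst hl'
        rw [h1]
        exact ⟨G, rfl, fun k => ⟨F k, hF1 k, hF2 k⟩⟩
      · rw [h0 l' hl']
        exact Submodule.zero_mem _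
    refine ⟨⟨δ, hδ⟩, ?_, h1⟩
    rw [SetLike.mem_coe, Submodule.mem_iInf]
    intro l'
    rw [LinearMap.mem_ker]
    exact h0 l'.1 l'.2
  obtain ⟨ρ, hρ, hρ'⟩ := pigeonS ev Φ (by rw [Module.finrank_fin_fun]) Ψ (by rw [Module.finrank_fin_fun]) hdim
  refine ⟨ρ, hρ, fun l R h1R hR => ?_⟩
  let S : ℕ → Submodule ℂ (Matrix (Ix r₀ n N) (Ix r₀ n N) ℂ) := fun k => (R k).comap (cjE (hC k l)).toLinearMap
  set Cs := gm fun k => C k l with hCs
  have hCu : IsUnit Cs.det := gm_unit fun k => (hC k l).ne_zero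
  have hle : (LinearMap.ker Φ ⊓ LinearMap.ker (Ψ l)).map (ev l) ≤ Us fun k => 𝔊 l k ⊓ S k := by
    rintro _ ⟨⟨δ, hδ⟩, ⟨hδ1, hδ2⟩, rfl⟩
    refine Us_inf ⟨(h𝒲 δ).1 hδ l, ?_⟩
    obtain ⟨c, hc⟩ := hconst l δ (fun i => congrFun (LinearMap.mem_ker.1 hδ1) i) fun i => congrFun (LinearMap.mem_ker.1 hδ2) i
    have h1 := hR δ
    have h2 : (gm fun k => C k l * Zm (r₀ := r₀) (z k l)) = Cs * Zm (x l) := by
      rw [gm_mul, gm_Zm]
    have h3 : dm δ (Cs * Zm (x l)) * (Cs * Zm (r₀ := r₀) (x l))⁻¹ = c • 1 + Cs * theta (Zm (r₀ := r₀) (x l)) δ * Cs⁻¹ := by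
      rw [theta_apply, dm_mul, hc, Matrix.mul_inv_rev]
      have hZZ : Zm (r₀ := r₀) (x l) * (Zm (x l))⁻¹ = 1 := mul_nonsing_inv _ (hZu l)
      have hCC : Cs * Cs⁻¹ = 1 := mul_nonsing_inv _ hCu
      calc (c • Cs * Zm (x l) + Cs * dm δ (Zm (x l))) * ((Zm (x l))⁻¹ * Cs⁻¹) =
          c • (Cs * (Zm (x l) * (Zm (x l))⁻¹) * Cs⁻¹) + Cs * (dm δ (Zm (x l)) * (Zm (x l))⁻¹) * Cs⁻¹ := by
            simp only [Matrix.add_mul, Matrix.mul_assoc, Matrix.smul_mul]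
        _ = _ := by rw [hZZ, Matrix.mul_one, hCC]
    rw [h2, h3] at h1
    obtain ⟨F, hF⟩ := gm_surj (theta (Zm (r₀ := r₀) (x l)) δ)
    show theta (Zm (r₀ := r₀) (x l)) δ ∈ Us S
    rw [← hF] at h1 ⊢
    have h4 : (1 : Matrix (Ix r₀ n N) (Ix r₀ n N) (U ℂ)) ∈ Us R := by
      rw [← gm_one]
      exact mem_Us_of h1R
    have h5 : Cs * gm F * Cs⁻¹ ∈ Us R := by
      have h6 := Submodule.sub_mem _ h1 (Submodule.smul_mem _ c h4)
      rwa [add_sub_cancel_left] at h6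
    rw [hCs, gm_inv fun k => (hC k l).ne_zero, ← gm_mul, ← gm_mul, mem_Us] at h5
    rw [mem_Us]
    filter_upwards [h5] with k hk
    exact hk
  have h1 := Submodule.finrank_mono hle
  filter_upwards [finrank_le (S := fun k => 𝔊 l k ⊓ S k), finrank_ge (S := 𝔊 l)] with k hk1 hk2
  have h2 := hρ' l
  have h3 : finrank ℂ (blT r₀ (𝔤 k l)) ≤ finrank (U ℂ) (Us (𝔊 l)) := hk2
  have h4 : finrank (U ℂ) (Us fun k => 𝔊 l k ⊓ S k) ≤
      finrank ℂ (blT r₀ (𝔤 k l) ⊓ (R k).comap (cjE (hC k l)).toLinearMap :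
          Submodule ℂ (Matrix (Ix r₀ n N) (Ix r₀ n N) ℂ)) := hk1
  omega

end Pool.Agent.H885
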